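import Pool.Agent.R303.LM.A3

/-!
Windows of constant length around large values of zeta, and a density lemma.
-/

set_option autoImplicit false

open Filter Topology Set MeasureTheory

namespace Pool.Agent.N798

open Pool.Agent.R303.LM

/-- Around every large value of zeta on the critical line there is a window of constant length in which zeta
is almost as large on a set of constant measure. -/
lemma window {ε : ℝ} (hε : 0 < ε) (hε1 : ε ≤ 1) : ∃ W r T₁ : ℝ, 0 ≤ W ∧ 0 < r ∧ r ≤ 1 ∧ 8 ≤ T₁ ∧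
    ∀ T : ℝ, T₁ ≤ T → 1 ≤ Z T → ∃ T₀ : ℝ, |T₀ - T| ≤ W ∧ ∃ G : Set ℝ, MeasurableSet G ∧
      G ⊆ Icc (T₀ - r) (T₀ + r) ∧ ENNReal.ofReal r ≤ volume G ∧ ∀ t ∈ G, T ^ (-ε) * Z T ≤ Z t := by
  obtain ⟨W, T₁, hW, hT₁, h⟩ := law hε hε1
  have hr0 : 0 < ε / 20 := by positivity
  refine ⟨W, ε / 20, T₁ + Real.exp (20 / ε), hW, hr0, by linarith, ?_, fun T hT hZ => ?_⟩
  · have := Real.exp_pos (20 / ε)
    linarith
  have he := Real.exp_pos (20 / ε)
  have hT0 : 0 < T := by linarith
  have hlog : 20 / ε ≤ Real.log T := by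
    rw [Real.le_log_iff_exp_le hT0]; linarith
  have hlog0 : 0 < Real.log T := lt_of_lt_of_le (by positivity) hlog
  obtain ⟨T₀, h1, -, h3⟩ := h T (by linarith) hZ
  have h4 := h3 (ε / 20) (by
    rw [div_le_div_iff₀ hlog0 (by norm_num)]
    rw [div_le_iff₀ hε] at hlog
    linarith) le_rfl
  set r : ℝ := ε / 20 with hr
  set v : ℝ := T ^ (-ε) * Z T with hv
  have e1 : ε / (5 * r) = 4 := by rw [hr]; field_simp; norm_num
  rw [e1] at h4
  have e2 : Real.exp (-4) ≤ 0.02 := by
    have h6 := Real.exp_one_gt_d9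
    have h7 : Real.exp 4 = Real.exp 1 ^ 4 := by
      rw [← Real.exp_nat_mul]; norm_num
    have h8 : 50 ≤ Real.exp 4 := by
      rw [h7]
      have : (2.7 : ℝ) ^ 4 ≤ Real.exp 1 ^ 4 := pow_le_pow_left₀ (by norm_num) (by linarith) 4
      have h9 : (50 : ℝ) ≤ (2.7 : ℝ) ^ 4 := by norm_num
      linarith
    rw [Real.exp_neg, inv_le_comm₀ (Real.exp_pos _) (by norm_num)]
    norm_num
    exact h8
  have h5 : volume (Low T₀ r v) ≤ ENNReal.ofReal r := by
    refine h4.trans (ENNReal.ofReal_le_ofReal ?_)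
    have h10 : 41 * r * Real.exp (-4) ≤ 41 * r * 0.02 := mul_le_mul_of_nonneg_left e2 (by positivity)
    linarith
  set G : Set ℝ := Icc (T₀ - r) (T₀ + r) ∩ {t | v < Z t} with hG
  have hGm : MeasurableSet G := measurableSet_Icc.inter (measurableSet_lt measurable_const Z_cont.measurable)
  refine ⟨T₀, h1, G, hGm, inter_subset_left, ?_, fun t ht => le_of_lt ht.2⟩
  have hsub : Icc (T₀ - r) (T₀ + r) ⊆ G ∪ Low T₀ r v := by
    intro t ht
    by_cases h : v < Z t
    · exact Or.inl ⟨ht, h⟩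
    · right
      push Not at h
      refine ⟨1 / 2 + t * Complex.I, by simp, ?_, h⟩
      have e : (1 / 2 + (t : ℂ) * Complex.I) - (1 / 2 + T₀ * Complex.I) = ((t - T₀ : ℝ) : ℂ) * Complex.I := by
        push_cast; ring
      rw [e, norm_mul, Complex.norm_I, mul_one, Complex.norm_real, Real.norm_eq_abs, abs_le]
      constructor <;> linarith [ht.1, ht.2]
  have h6 := (measure_mono hsub).trans (measure_union_le (μ := volume) G (Low T₀ r v))
  rw [Real.volume_Icc] at h6
  have h7 : ENNReal.ofReal (T₀ + r - (T₀ - r)) = ENNReal.ofReal r + ENNReal.ofReal r := by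
    rw [← ENNReal.ofReal_add hr0.le hr0.le]; congr 1; ring
  rw [h7] at h6
  have h8 := h6.trans (add_le_add le_rfl h5)
  exact (ENNReal.add_le_add_iff_right ENNReal.ofReal_ne_top).1 h8

/-- A set which misses a fixed proportion of arbitrarily small balls around each of its points is null. -/
lemma null_of_holes {B : Set ℝ} (h : ∀ x ∈ B, ∃ c : ℝ, 0 < c ∧ ∀ δ : ℝ, 0 < δ → ∃ ρ : ℝ, 0 < ρ ∧ ρ < δ ∧
    ∃ E : Set ℝ, MeasurableSet E ∧ E ⊆ Metric.closedBall x ρ ∧ Disjoint E B ∧
      ENNReal.ofReal (c * ρ) ≤ volume E) : volume B = 0 := by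
  have h1 := Besicovitch.ae_tendsto_measure_inter_div (μ := (volume : Measure ℝ)) B
  have h2 : B ⊆ {x | ¬ Tendsto (fun r => volume (B ∩ Metric.closedBall x r) / volume (Metric.closedBall x r))
      (𝓝[>] 0) (𝓝 1)} := by
    intro x hx ht
    obtain ⟨c, hc, hE⟩ := h x hx
    have h3 : ∀ᶠ r in 𝓝[>] (0:ℝ), ENNReal.ofReal (1 - c / 4) <
        volume (B ∩ Metric.closedBall x r) / volume (Metric.closedBall x r) := by
      apply ht.eventually_const_lt
      rw [ENNReal.ofReal_lt_one]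
      linarith
    rw [eventually_nhdsWithin_iff, Metric.eventually_nhds_iff] at h3
    obtain ⟨δ, hδ, h3⟩ := h3
    obtain ⟨ρ, hρ0, hρ, E, hEm, hEs, hd, hEv⟩ := hE δ hδ
    have h4 := h3 (y := ρ) (by rw [Real.dist_eq, sub_zero, abs_of_pos hρ0]; exact hρ) hρ0
    rw [Real.volume_closedBall] at h4
    have hpos : (0:ℝ) < 2 * ρ := by positivity
    rw [ENNReal.lt_div_iff_mul_lt (Or.inl (by simpa using hpos)) (Or.inl ENNReal.ofReal_ne_top)] at h4
    have h5 : volume (B ∩ Metric.closedBall x ρ) + volume E ≤ ENNReal.ofReal (2 * ρ) := by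
      rw [← Real.volume_closedBall, ← measure_union (hd.symm.mono_left inter_subset_left) hEm]
      apply measure_mono
      rintro y (hy | hy)
      · exact hy.2
      · exact hEs hy
    have h6 : ENNReal.ofReal (1 - c / 4) * ENNReal.ofReal (2 * ρ) + ENNReal.ofReal (c * ρ) <
        ENNReal.ofReal (2 * ρ) := by
      refine lt_of_lt_of_le ?_ h5
      exact ENNReal.add_lt_add_of_lt_of_le ENNReal.ofReal_ne_top h4 hEv
    by_cases hc4 : c / 4 ≤ 1
    · rw [← ENNReal.ofReal_mul (by linarith), ← ENNReal.ofReal_add (mul_nonneg (by linarith) hpos.le)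
        (by positivity), ENNReal.ofReal_lt_ofReal_iff hpos] at h6
      nlinarith
    · push Not at hc4
      have h7 : ENNReal.ofReal (c * ρ) < ENNReal.ofReal (2 * ρ) := lt_of_le_of_lt le_add_self h6
      rw [ENNReal.ofReal_lt_ofReal_iff hpos] at h7
      nlinarith
  set N := {x | ¬ Tendsto (fun r => volume (B ∩ Metric.closedBall x r) / volume (Metric.closedBall x r))
      (𝓝[>] 0) (𝓝 1)} with hN
  have h3 : (volume.restrict B) N = 0 := h1
  have h4 : volume (N ∩ B) ≤ (volume.restrict B) N := Measure.le_restrict_apply _ _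
  have h5 : N ∩ B = B := inter_eq_right.2 h2
  rw [h5, h3] at h4
  exact nonpos_iff_eq_zero.1 h4

end Pool.Agent.N798
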