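import Pool.Agent.N798.Sp7
import Pool.Agent.H31R2.DH.Assemble

/-!
The heights near which zeta has a zero right of `σ`, and the number of the zeros.
-/

set_option autoImplicit false

open MeasureTheory Set Filter Topology

namespace Pool.Agent.N798.DH

open Pool.Agent.N798.Sp

/-- the heights within `H` of which there is a zero with real part at least `σ` -/
def Es (σ H : ℝ) : Set ℝ := {t | ∃ ρ : ℂ, riemannZeta ρ = 0 ∧ σ ≤ ρ.re ∧ |ρ.im - t| ≤ H}

lemma zeros_countable (σ : ℝ) : {s : ℂ | riemannZeta s = 0 ∧ σ ≤ s.re}.Countable := by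
  have e : {s : ℂ | riemannZeta s = 0 ∧ σ ≤ s.re} ⊆
      ⋃ n : ℕ, {s : ℂ | riemannZeta s = 0 ∧ σ ≤ s.re ∧ -(n:ℝ) ≤ s.im ∧ s.im ≤ n} := by
    rintro s ⟨h1, h2⟩
    obtain ⟨n, hn⟩ := exists_nat_ge |s.im|
    exact mem_iUnion.2 ⟨n, h1, h2, (abs_le.1 hn).1, (abs_le.1 hn).2⟩
  exact (countable_iUnion fun n : ℕ => (DH31.finite_region σ (-(n:ℝ)) n).countable).mono e

lemma Es_meas (σ H : ℝ) : MeasurableSet (Es σ H) := by
  have e : Es σ H = ⋃ ρ ∈ {s : ℂ | riemannZeta s = 0 ∧ σ ≤ s.re}, Icc (ρ.im - H) (ρ.im + H) := by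
    ext t
    simp only [Es, mem_ofPred_eq, mem_iUnion, exists_prop, mem_Icc]
    constructor
    · rintro ⟨ρ, h1, h2, h3⟩
      rw [abs_le] at h3
      exact ⟨ρ, ⟨h1, h2⟩, by linarith, by linarith⟩
    · rintro ⟨ρ, ⟨h1, h2⟩, h3, h4⟩
      refine ⟨ρ, h1, h2, ?_⟩
      rw [abs_le]
      constructor <;> linarith
  rw [e]
  exact MeasurableSet.biUnion (zeros_countable σ) fun ρ _ => measurableSet_Icc

lemma order_pos {s : ℂ} (hs : s ≠ 1) (h : riemannZeta s = 0) : 1 ≤ analyticOrderNatAt riemannZeta s := by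
  have hF : AnalyticOnNhd ℂ riemannZeta ({1}ᶜ : Set ℂ) := by
    have : DifferentiableOn ℂ riemannZeta ({1}ᶜ : Set ℂ) := fun z hz =>
      (differentiableAt_riemannZeta hz).differentiableWithinAt
    exact this.analyticOnNhd isOpen_compl_singleton
  have hU : IsPreconnected ({1}ᶜ : Set ℂ) := by
    refine (isConnected_compl_singleton_of_one_lt_rank ?_ 1).isPreconnected
    rw [Complex.rank_real_complex]
    norm_num
  have h2 : riemannZeta 2 ≠ 0 := riemannZeta_ne_zero_of_one_le_re (by simp)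
  have hm2 : (2:ℂ) ∈ ({1}ᶜ : Set ℂ) := by simp
  have hne : analyticOrderAt riemannZeta s ≠ ⊤ := by
    refine hF.analyticOrderAt_ne_top_of_isPreconnected hU hm2 hs ?_
    rw [(hF 2 hm2).analyticOrderAt_eq_zero.mpr h2]
    exact ENat.zero_ne_top
  rw [Nat.one_le_iff_ne_zero]
  intro h0
  have h3 : analyticOrderAt riemannZeta s = 0 := by
    rw [← Nat.cast_analyticOrderNatAt hne, h0]; rfl
  exact (hF s hs).analyticOrderAt_eq_zero.1 h3 h

lemma card_le_cnt (σ T : ℝ) : (((DH31.zeros_finite σ T).toFinset.card : ℕ) : ℝ) ≤ DH31.cnt (DH31.zeros σ T) := by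
  rw [DH31.cnt_eq (DH31.zeros_finite σ T)]
  have h : ∑ _s ∈ (DH31.zeros_finite σ T).toFinset, 1 ≤
      ∑ s ∈ (DH31.zeros_finite σ T).toFinset, analyticOrderNatAt riemannZeta s := by
    refine Finset.sum_le_sum fun s hs => ?_
    rw [Set.Finite.mem_toFinset] at hs
    apply order_pos _ hs.1
    intro h1
    have := hs.2.2.1
    rw [h1] at this
    simp at this
  rw [Finset.sum_const, smul_eq_mul, mul_one] at h
  exact_mod_cast h

/-- from the number of the zeros to the size of the set of the heights -/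
lemma size_of_count {σ H r : ℝ} (hr : 0 ≤ r) (hH : 0 ≤ H)
    (h : ∃ C : ℝ, ∀ T : ℝ, 1 ≤ T → (DH31.cnt (DH31.zeros σ T) : ℝ) ≤ C * T ^ r) : SizeLe (Es σ H) r := by
  obtain ⟨C, hC⟩ := h
  have hC0 : 0 ≤ C := by
    have := hC 1 le_rfl
    rw [Real.one_rpow, mul_one] at this
    exact (Nat.cast_nonneg _).trans this
  set G : Set ℂ := {s : ℂ | riemannZeta s = 0 ∧ σ ≤ s.re ∧ -H ≤ s.im ∧ s.im ≤ 0} with hG
  have hGf : G.Finite := DH31.finite_region σ (-H) 0
  set g : ℝ := (hGf.toFinset.card : ℝ) with hg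
  refine ⟨2 * H * (C * (1 + H) ^ r + g), fun T hT => ?_⟩
  have hT0 : 0 < T := by linarith
  have hsub : Es σ H ∩ Icc 0 T ⊆ (⋃ ρ ∈ (DH31.zeros_finite σ (T + H)).toFinset, Icc (ρ.im - H) (ρ.im + H)) ∪
      ⋃ ρ ∈ hGf.toFinset, Icc (ρ.im - H) (ρ.im + H) := by
    rintro t ⟨⟨ρ, h1, h2, h3⟩, ht0, htT⟩
    rw [abs_le] at h3
    have hmem : t ∈ Icc (ρ.im - H) (ρ.im + H) := ⟨by linarith, by linarith⟩
    by_cases h0 : 0 < ρ.im
    · left
      refine mem_biUnion (x := ρ) ?_ hmem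
      show ρ ∈ (DH31.zeros_finite σ (T + H)).toFinset
      rw [Set.Finite.mem_toFinset]
      exact ⟨h1, h2, h0, by linarith⟩
    · right
      refine mem_biUnion (x := ρ) ?_ hmem
      show ρ ∈ hGf.toFinset
      rw [Set.Finite.mem_toFinset]
      exact ⟨h1, h2, by linarith, by linarith⟩
  have hIcc : ∀ ρ : ℂ, volume.real (Icc (ρ.im - H) (ρ.im + H)) = 2 * H := by
    intro ρ
    rw [Real.volume_real_Icc_of_le (by linarith)]; ring
  have hb : ∀ S : Finset ℂ, volume.real (⋃ ρ ∈ S, Icc (ρ.im - H) (ρ.im + H)) ≤ S.card * (2 * H) := by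
    intro S
    refine (measureReal_biUnion_finset_le _ _).trans ?_
    rw [Finset.sum_congr rfl fun ρ _ => hIcc ρ, Finset.sum_const, nsmul_eq_mul]
  have hfin : ∀ S : Finset ℂ, volume (⋃ ρ ∈ S, Icc (ρ.im - H) (ρ.im + H)) ≠ ⊤ := by
    intro S
    refine ne_top_of_le_ne_top ?_ (measure_biUnion_finset_le _ _)
    refine (ENNReal.sum_lt_top.2 fun ρ _ => ?_).ne
    rw [Real.volume_Icc]; exact ENNReal.ofReal_lt_top
  have h1 : volume.real (Es σ H ∩ Icc 0 T) ≤
      (DH31.zeros_finite σ (T + H)).toFinset.card * (2 * H) + hGf.toFinset.card * (2 * H) := by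
    refine (measureReal_mono hsub (measure_union_ne_top (hfin _) (hfin _))).trans
      ((measureReal_union_le _ _).trans (add_le_add (hb _) (hb _)))
  have h2 := (card_le_cnt σ (T + H)).trans (hC (T + H) (by linarith))
  have h3 : (T + H) ^ r ≤ (1 + H) ^ r * T ^ r := by
    rw [← Real.mul_rpow (by linarith) hT0.le]
    apply Real.rpow_le_rpow (by linarith) _ hr
    nlinarith
  have h4 : 1 ≤ T ^ r := Real.one_le_rpow hT hr
  have h5 : C * (T + H) ^ r ≤ C * ((1 + H) ^ r * T ^ r) := mul_le_mul_of_nonneg_left h3 hC0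
  have hg0 : 0 ≤ g := Nat.cast_nonneg _
  calc volume.real (Es σ H ∩ Icc 0 T)
      ≤ (DH31.zeros_finite σ (T + H)).toFinset.card * (2 * H) + g * (2 * H) := h1
    _ ≤ (C * ((1 + H) ^ r * T ^ r)) * (2 * H) + (g * T ^ r) * (2 * H) := by
        have h6 : g ≤ g * T ^ r := le_mul_of_one_le_right hg0 h4
        have h7 : 0 ≤ 2 * H := by linarith
        apply add_le_add
        · exact mul_le_mul_of_nonneg_right (h2.trans h5) h7
        · exact mul_le_mul_of_nonneg_right h6 h7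
    _ = 2 * H * (C * (1 + H) ^ r + g) * T ^ r := by ring

lemma log_le_rpow' {ε T : ℝ} (hε : 0 < ε) (hT : 1 ≤ T) : Real.log T ≤ 1 / ε * T ^ ε := by
  have := Real.log_le_rpow_div (by linarith : 0 ≤ T) hε
  rw [div_eq_mul_inv, mul_comm] at this
  rw [one_div]; exact this

/-- from the size of the set of the heights to the number of the zeros -/
lemma count_of_size {σ H r : ℝ} (hσ : 1 / 2 ≤ σ) (hr : 0 ≤ r) (hH : 0 < H) (h : SizeLe (Es σ H) r) {ε : ℝ}
    (hε : 0 < ε) : ∃ C : ℝ, ∀ T : ℝ, 1 ≤ T → (DH31.cnt (DH31.zeros σ T) : ℝ) ≤ C * T ^ (r + ε) := by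
  classical
  obtain ⟨C₁, h₁⟩ := h
  obtain ⟨C₂, hC₂, h₂⟩ := DH31.windows_to_count
  have hC₁ : 0 ≤ C₁ := by
    have := h₁ 1 le_rfl
    rw [Real.one_rpow, mul_one] at this
    exact measureReal_nonneg.trans this
  set η : ℝ := min H (1 / 2) with hη
  have hη0 : 0 < η := lt_min hH (by norm_num)
  have hη1 : η ≤ 1 / 2 := min_le_right _ _
  have hηH : η ≤ H := min_le_left _ _
  -- the main bound for T ≥ 3
  have main : ∀ T : ℝ, 3 ≤ T → (DH31.cnt (DH31.zeros σ T) : ℝ) ≤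
      (C₂ + C₁ * 2 ^ r / η * (C₂ * (1 / ε))) * T ^ (r + ε) := by
    intro T hT
    have hT0 : 0 < T := by linarith
    have hT1 : 1 ≤ T := by linarith
    set S : Finset ℕ := (Finset.range (⌊T⌋₊ + 1)).filter
      (fun n : ℕ => ∃ ρ : ℂ, ρ ∈ DH31.zeros σ T ∧ (n:ℝ) < ρ.im ∧ ρ.im ≤ n + 1) with hS
    have hsub : DH31.zeros σ T ⊆ DH31.zeros (1 / 2) T := fun s hs => ⟨hs.1, hσ.trans hs.2.1, hs.2.2.1, hs.2.2.2⟩
    have hcnt := h₂ T hT (DH31.zeros σ T) hsub S (by
      intro ρ hρ h3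
      set n : ℕ := ⌈ρ.im⌉₊ - 1 with hn
      have hceil : 1 ≤ ⌈ρ.im⌉₊ := Nat.one_le_iff_ne_zero.2 (by
        intro h; rw [Nat.ceil_eq_zero] at h; linarith)
      have hn1 : ((n : ℕ) : ℝ) + 1 = (⌈ρ.im⌉₊ : ℝ) := by
        rw [hn, Nat.cast_sub hceil]; push_cast; ring
      have h10 : (n : ℝ) < ρ.im := by
        have := Nat.ceil_lt_add_one (show 0 ≤ ρ.im by linarith)
        linarith
      have h11 : ρ.im ≤ n + 1 := by rw [hn1]; exact Nat.le_ceil _
      refine ⟨n, ?_, h10, h11⟩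
      rw [hS, Finset.mem_filter, Finset.mem_range]
      refine ⟨?_, ρ, hρ, h10, h11⟩
      have h12 : (n : ℝ) ≤ T := h10.le.trans hρ.2.2.2
      have := Nat.le_floor h12
      omega)
    -- the number of the windows
    have hwin : ∀ n ∈ S, η ≤ volume.real (Es σ H ∩ Icc 0 (T + 1) ∩ Ioc (n:ℝ) (n + 1)) := by
      intro n hn
      rw [hS, Finset.mem_filter, Finset.mem_range] at hn
      obtain ⟨hn1, ρ, hρ, h1, h2⟩ := hn
      have hnT : (n:ℝ) < T := h1.trans_le hρ.2.2.2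
      have hn0 : (0:ℝ) ≤ n := Nat.cast_nonneg n
      have hfin : volume (Es σ H ∩ Icc 0 (T + 1) ∩ Ioc (n:ℝ) (n + 1)) ≠ ⊤ :=
        ne_top_of_le_ne_top (by rw [Real.volume_Ioc]; exact ENNReal.ofReal_ne_top)
          (measure_mono inter_subset_right)
      by_cases hc : ρ.im ≤ n + 1 / 2
      · have hs : Icc ρ.im (ρ.im + η) ⊆ Es σ H ∩ Icc 0 (T + 1) ∩ Ioc (n:ℝ) (n + 1) := by
          intro t ht
          refine ⟨⟨⟨ρ, hρ.1, hρ.2.1, ?_⟩, ?_, ?_⟩, ?_, ?_⟩
          · rw [abs_le]; constructor <;> linarith [ht.1, ht.2]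
          · linarith [ht.1]
          · linarith [ht.2]
          · linarith [ht.1]
          · linarith [ht.2]
        have := measureReal_mono hs hfin
        rw [Real.volume_real_Icc_of_le (by linarith)] at this
        linarith
      · push Not at hc
        have hs : Icc (ρ.im - η) ρ.im ⊆ Es σ H ∩ Icc 0 (T + 1) ∩ Ioc (n:ℝ) (n + 1) := by
          intro t ht
          refine ⟨⟨⟨ρ, hρ.1, hρ.2.1, ?_⟩, ?_, ?_⟩, ?_, ?_⟩
          · rw [abs_le]; constructor <;> linarith [ht.1, ht.2]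
          · linarith [ht.1]
          · linarith [ht.2]
          · linarith [ht.1]
          · linarith [ht.2]
        have := measureReal_mono hs hfin
        rw [Real.volume_real_Icc_of_le (by linarith)] at this
        linarith
    have hsum : (S.card : ℝ) * η ≤ volume.real (Es σ H ∩ Icc 0 (T + 1)) := by
      have hd : (S : Set ℕ).PairwiseDisjoint fun n : ℕ => Es σ H ∩ Icc 0 (T + 1) ∩ Ioc (n:ℝ) (n + 1) := by
        intro a _ b _ hab
        rw [Function.onFun, Set.disjoint_left]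
        rintro x ⟨-, h1, h2⟩ ⟨-, h3, h4⟩
        apply hab
        have e1 : (a : ℝ) < b + 1 := h1.trans_le h4
        have e2 : (b : ℝ) < a + 1 := h3.trans_le h2
        have e3 : a < b + 1 := by exact_mod_cast e1
        have e4 : b < a + 1 := by exact_mod_cast e2
        omega
      have hu := measureReal_biUnion_finset (μ := volume) hd
        (fun n _ => ((Es_meas σ H).inter measurableSet_Icc).inter measurableSet_Ioc)
        (fun n _ => ne_top_of_le_ne_top (by rw [Real.volume_Ioc]; exact ENNReal.ofReal_ne_top)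
          (measure_mono inter_subset_right))
      calc (S.card : ℝ) * η = ∑ _n ∈ S, η := by rw [Finset.sum_const, nsmul_eq_mul]
        _ ≤ ∑ n ∈ S, volume.real (Es σ H ∩ Icc 0 (T + 1) ∩ Ioc (n:ℝ) (n + 1)) := Finset.sum_le_sum hwin
        _ = volume.real (⋃ n ∈ S, Es σ H ∩ Icc 0 (T + 1) ∩ Ioc (n:ℝ) (n + 1)) := hu.symm
        _ ≤ _ := by
            apply measureReal_mono _ (fin_Icc _ _ _)
            exact iUnion₂_subset fun n _ => inter_subset_left
    have h3 := h₁ (T + 1) (by linarith)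
    have h4 : (T + 1) ^ r ≤ 2 ^ r * T ^ r := by
      rw [← Real.mul_rpow (by norm_num) hT0.le]
      exact Real.rpow_le_rpow (by linarith) (by linarith) hr
    have h5 : (S.card : ℝ) ≤ C₁ * 2 ^ r / η * T ^ r := by
      rw [div_mul_eq_mul_div, le_div_iff₀ hη0]
      calc (S.card : ℝ) * η ≤ C₁ * (T + 1) ^ r := hsum.trans h3
        _ ≤ C₁ * (2 ^ r * T ^ r) := mul_le_mul_of_nonneg_left h4 hC₁
        _ = C₁ * 2 ^ r * T ^ r := by ring
    have h6 := log_le_rpow' hε hT1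
    have h7 : 1 ≤ T ^ (r + ε) := Real.one_le_rpow hT1 (by linarith)
    have hlog : 0 ≤ Real.log T := Real.log_nonneg hT1
    calc (DH31.cnt (DH31.zeros σ T) : ℝ) ≤ C₂ + (S.card : ℝ) * (C₂ * Real.log T) := hcnt
      _ ≤ C₂ * T ^ (r + ε) + (C₁ * 2 ^ r / η * T ^ r) * (C₂ * (1 / ε * T ^ ε)) := by
          have h8 : C₂ ≤ C₂ * T ^ (r + ε) := le_mul_of_one_le_right hC₂.le h7
          gcongr
      _ = (C₂ + C₁ * 2 ^ r / η * (C₂ * (1 / ε))) * T ^ (r + ε) := by
          rw [Real.rpow_add hT0]; ring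
  set D : ℝ := ((DH31.cnt (DH31.zeros σ 3) : ℕ) : ℝ) with hD
  have hD0 : 0 ≤ D := Nat.cast_nonneg _
  set M : ℝ := C₂ + C₁ * 2 ^ r / η * (C₂ * (1 / ε)) with hM
  have hM0 : 0 ≤ M := by positivity
  refine ⟨D + M, fun T hT => ?_⟩
  have h7 : 1 ≤ T ^ (r + ε) := Real.one_le_rpow hT (by linarith)
  rcases le_total 3 T with h3 | h3
  · calc (DH31.cnt (DH31.zeros σ T) : ℝ) ≤ M * T ^ (r + ε) := main T h3
      _ ≤ (D + M) * T ^ (r + ε) := by
          apply mul_le_mul_of_nonneg_right _ (by positivity)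
          linarith
  · have h8 : DH31.cnt (DH31.zeros σ T) ≤ DH31.cnt (DH31.zeros σ 3) :=
      DH31.cnt_mono (DH31.zeros_finite σ 3) fun s hs => ⟨hs.1, hs.2.1, hs.2.2.1, hs.2.2.2.trans h3⟩
    have h9 : (DH31.cnt (DH31.zeros σ T) : ℝ) ≤ D := by rw [hD]; exact_mod_cast h8
    calc (DH31.cnt (DH31.zeros σ T) : ℝ) ≤ D := h9
      _ ≤ (D + M) * 1 := by linarith
      _ ≤ (D + M) * T ^ (r + ε) := mul_le_mul_of_nonneg_left h7 (by linarith)

end Pool.Agent.N798.DH
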