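import Pool.Agent.N798.DH1

/-!
The density hypothesis and the zeros near the heights `α n^c`.
-/

set_option autoImplicit false

open MeasureTheory Set Filter Topology

namespace Pool.Agent.N798.DH

open Pool.Agent.N798.Sp

/-- `N(σ, T) = O(T^(r + ε))` for every `ε > 0` -/
def Cnt (σ r : ℝ) : Prop := ∀ ε : ℝ, 0 < ε → ∃ C : ℝ, ∀ T : ℝ, 1 ≤ T →
  (DH31.cnt (DH31.zeros σ T) : ℝ) ≤ C * T ^ (r + ε)

lemma cnt_iff {σ r H : ℝ} (hσ : 1 / 2 ≤ σ) (hr : 0 ≤ r) (hH : 0 < H) :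
    Cnt σ r ↔ ∀ ε : ℝ, 0 < ε → SizeLe (Es σ H) (r + ε) := by
  constructor
  · intro h ε hε
    exact size_of_count (by linarith) hH.le (h ε hε)
  · intro h ε hε
    obtain ⟨C, hC⟩ := count_of_size hσ (by linarith) hH (h (ε / 2) (by linarith)) (ε := ε / 2) (by linarith)
    refine ⟨C, fun T hT => (hC T hT).trans (le_of_eq ?_)⟩
    congr 2; ring

/-- no zeros with real part at least `σ` within `H` of the heights `α n^c`, `n` large -/
def Free (σ H α c : ℝ) : Prop := ∃ m : ℕ, ∀ n : ℕ, m ≤ n → ∀ ρ : ℂ, riemannZeta ρ = 0 → σ ≤ ρ.re →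
  H < |ρ.im - α * (n:ℝ) ^ c|

lemma free_iff (σ H α c : ℝ) : Free σ H α c ↔ Fin' (Es σ H) α c := by
  unfold Free Fin' Es
  constructor
  · rintro ⟨m, hm⟩
    refine ⟨m, fun n hn ⟨ρ, h1, h2, h3⟩ => ?_⟩
    exact absurd h3 (not_le.2 (hm n hn ρ h1 h2))
  · rintro ⟨m, hm⟩
    refine ⟨m, fun n hn ρ h1 h2 => ?_⟩
    by_contra h3
    push Not at h3
    exact hm n hn ⟨ρ, h1, h2, h3⟩

/-- single `σ` -/
theorem single {σ r H : ℝ} (hσ : 1 / 2 ≤ σ) (hr : 0 ≤ r) (hr1 : r < 1) (hH : 0 < H) :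
    List.TFAE [Cnt σ r,
      ∀ c : ℝ, 1 / (1 - r) < c → ∀ᵐ α : ℝ, 0 < α → Free σ H α c,
      ∀ᵐ p : ℝ × ℝ, 0 < p.1 → 1 / (1 - r) < p.2 → Free σ H p.1 p.2,
      ∀ a b : ℝ, 1 / (1 - r) < a → a < b →
        volume {p : ℝ × ℝ | 0 < p.1 ∧ a < p.2 ∧ p.2 < b ∧ Free σ H p.1 p.2} ≠ 0] := by
  simp only [free_iff]
  rw [cnt_iff hσ hr hH]
  exact tfae_set (Es_meas σ H) hr hr1

/-- the zeros within `H` of the heights `α n^c` have real parts at most `1 - (1 - 1/c)/A + ε`, `n` large -/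
def Near (A H α c : ℝ) : Prop := ∀ ε : ℝ, 0 < ε → ∃ m : ℕ, ∀ n : ℕ, m ≤ n → ∀ ρ : ℂ, riemannZeta ρ = 0 →
  |ρ.im - α * (n:ℝ) ^ c| ≤ H → ρ.re ≤ 1 - (1 - 1 / c) / A + ε

lemma near_free {A H α c σ : ℝ} (h : Near A H α c) (hσ : 1 - (1 - 1 / c) / A < σ) : Free σ H α c := by
  obtain ⟨m, hm⟩ := h ((σ - (1 - (1 - 1 / c) / A)) / 2) (by linarith)
  refine ⟨m, fun n hn ρ h1 h2 => ?_⟩
  by_contra h3
  push Not at h3
  have := hm n hn ρ h1 h3
  linarith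

lemma near_of_free {A H α c : ℝ} (h : ∀ q : ℚ, 1 - (1 - 1 / c) / A < q → Free q H α c) : Near A H α c := by
  intro ε hε
  obtain ⟨q, hq1, hq2⟩ := exists_rat_btwn (show 1 - (1 - 1 / c) / A < 1 - (1 - 1 / c) / A + ε by linarith)
  obtain ⟨m, hm⟩ := h q hq1
  refine ⟨m, fun n hn ρ h1 h2 => ?_⟩
  by_contra h3
  push Not at h3
  exact absurd h2 (not_le.2 (hm n hn ρ h1 (by linarith)))

lemma free_of_one_le {σ H α c : ℝ} (hσ : 1 ≤ σ) : Free σ H α c :=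
  ⟨0, fun _ _ _ h1 h2 => absurd h1 (riemannZeta_ne_zero_of_one_le_re (hσ.trans h2))⟩

/-- the bounds for the single `σ` -/
def All (A : ℝ) : Prop := ∀ σ : ℝ, 1 / 2 ≤ σ → σ < 1 → A * (1 - σ) < 1 → Cnt σ (A * (1 - σ))

/-- the density bound with exponent `A (1 - σ) + ε` -/
def Den (A : ℝ) : Prop := ∀ ε : ℝ, 0 < ε → ∃ C T₀ : ℝ, 0 < C ∧ ∀ T : ℝ, T₀ ≤ T → ∀ σ : ℝ, 1 / 2 ≤ σ → σ ≤ 1 →
  (DH31.cnt (DH31.zeros σ T) : ℝ) ≤ C * T ^ (A * (1 - σ) + ε)

lemma cnt_anti {σ σ' T T' : ℝ} (hσ : σ' ≤ σ) (hT : T ≤ T') :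
    (DH31.cnt (DH31.zeros σ T) : ℝ) ≤ DH31.cnt (DH31.zeros σ' T') := by
  have h : DH31.cnt (DH31.zeros σ T) ≤ DH31.cnt (DH31.zeros σ' T') :=
    DH31.cnt_mono (DH31.zeros_finite σ' T') fun s hs => ⟨hs.1, hσ.trans hs.2.1, hs.2.2.1, hs.2.2.2.trans hT⟩
  exact_mod_cast h

lemma all_of_den {A : ℝ} (hA : 2 ≤ A) (h : Den A) : All A := by
  intro σ h1 h2 h3 ε hε
  obtain ⟨C, T₀, hC, hT⟩ := h ε hε
  set M : ℝ := max T₀ 1 with hM
  set D : ℝ := ((DH31.cnt (DH31.zeros σ M) : ℕ) : ℝ) with hD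
  have hD0 : 0 ≤ D := Nat.cast_nonneg _
  refine ⟨C + D, fun T hT1 => ?_⟩
  have he : 0 ≤ A * (1 - σ) + ε := by nlinarith
  have hp : 1 ≤ T ^ (A * (1 - σ) + ε) := Real.one_le_rpow hT1 he
  rcases le_total T₀ T with h4 | h4
  · refine (hT T h4 σ h1 h2.le).trans ?_
    apply mul_le_mul_of_nonneg_right (by linarith) (by positivity)
  · have h5 : (DH31.cnt (DH31.zeros σ T) : ℝ) ≤ D := by
      rw [hD]; exact cnt_anti le_rfl (h4.trans (le_max_left _ _))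
    calc (DH31.cnt (DH31.zeros σ T) : ℝ) ≤ D := h5
      _ ≤ (C + D) * 1 := by linarith
      _ ≤ (C + D) * T ^ (A * (1 - σ) + ε) := mul_le_mul_of_nonneg_left hp (by linarith)

lemma trivial_bound {ε : ℝ} (hε : 0 < ε) : ∃ C : ℝ, ∀ T : ℝ, 1 ≤ T →
    (DH31.cnt (DH31.zeros (1 / 2) T) : ℝ) ≤ C * T ^ (1 + ε) :=
  count_of_size le_rfl (by norm_num) one_pos (SizeLe.one (Es (1 / 2) 1) le_rfl) hε

lemma den_of_all {A : ℝ} (hA : 2 ≤ A) (h : All A) : Den A := by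
  intro ε hε
  obtain ⟨M, hM⟩ := exists_nat_gt (2 * A / ε)
  have hM0 : (0:ℝ) < M := lt_trans (by positivity) hM
  have hAM : A / M ≤ ε / 2 := by
    rw [div_le_div_iff₀ hM0 (by norm_num)]
    rw [div_lt_iff₀ hε] at hM
    linarith
  have hj : ∀ j : ℕ, ∃ C : ℝ, ∀ T : ℝ, 1 ≤ T → ∀ σ : ℝ, 1 / 2 ≤ σ → 1 - ((j:ℝ) + 1) / M ≤ σ →
      (DH31.cnt (DH31.zeros σ T) : ℝ) ≤ C * T ^ (A * (((j:ℝ) + 1) / M) + ε / 2) := by
    intro j
    set u : ℝ := ((j:ℝ) + 1) / M with hu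
    have hu0 : 0 < u := by positivity
    by_cases hAu : A * u < 1
    · have hu2 : u ≤ 1 / 2 := by nlinarith
      obtain ⟨C, hC⟩ := h (1 - u) (by linarith) (by linarith) (by rw [sub_sub_cancel]; exact hAu) (ε / 2)
        (by linarith)
      refine ⟨C, fun T hT σ _ h2 => ?_⟩
      have h3 := hC T hT
      rw [sub_sub_cancel] at h3
      exact (cnt_anti h2 le_rfl).trans h3
    · push Not at hAu
      obtain ⟨C, hC⟩ := trivial_bound (ε := ε / 2) (by linarith)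
      refine ⟨|C|, fun T hT σ h1 _ => ?_⟩
      calc (DH31.cnt (DH31.zeros σ T) : ℝ) ≤ DH31.cnt (DH31.zeros (1 / 2) T) := cnt_anti h1 le_rfl
        _ ≤ C * T ^ (1 + ε / 2) := hC T hT
        _ ≤ |C| * T ^ (1 + ε / 2) := mul_le_mul_of_nonneg_right (le_abs_self C) (by positivity)
        _ ≤ |C| * T ^ (A * u + ε / 2) := by
            apply mul_le_mul_of_nonneg_left _ (abs_nonneg C)
            exact Real.rpow_le_rpow_of_exponent_le hT (by linarith)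
  choose C hC using hj
  refine ⟨1 + ∑ j ∈ Finset.range (M + 1), |C j|, 1, by positivity, fun T hT σ h1 h2 => ?_⟩
  have hT0 : 0 < T := by linarith
  set j : ℕ := ⌊(1 - σ) * M⌋₊ with hjdef
  have hnn : 0 ≤ (1 - σ) * M := mul_nonneg (by linarith) hM0.le
  have hj1 : (j:ℝ) ≤ (1 - σ) * M := Nat.floor_le hnn
  have hj2 : (1 - σ) * M < j + 1 := Nat.lt_floor_add_one _
  have hjM : j ∈ Finset.range (M + 1) := by
    rw [Finset.mem_range]
    have : (j:ℝ) ≤ M := hj1.trans (by nlinarith)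
    have : j ≤ M := by exact_mod_cast this
    omega
  have h3 : 1 - ((j:ℝ) + 1) / M ≤ σ := by
    have : 1 - σ < ((j:ℝ) + 1) / M := by rw [lt_div_iff₀ hM0]; exact hj2
    linarith
  have h4 := hC j T hT σ h1 h3
  have h5 : A * (((j:ℝ) + 1) / M) + ε / 2 ≤ A * (1 - σ) + ε := by
    have h6 : ((j:ℝ) + 1) / M ≤ (1 - σ) + 1 / M := by
      rw [add_div]
      have : (j:ℝ) / M ≤ 1 - σ := by rw [div_le_iff₀ hM0]; exact hj1
      linarith
    have h7 : A * (((j:ℝ) + 1) / M) ≤ A * ((1 - σ) + 1 / M) := mul_le_mul_of_nonneg_left h6 (by linarith)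
    have h8 : A * (1 / (M:ℝ)) = A / M := by ring
    nlinarith
  have h6 : |C j| ≤ ∑ j ∈ Finset.range (M + 1), |C j| :=
    Finset.single_le_sum (f := fun j => |C j|) (fun i _ => abs_nonneg _) hjM
  calc (DH31.cnt (DH31.zeros σ T) : ℝ) ≤ C j * T ^ (A * (((j:ℝ) + 1) / M) + ε / 2) := h4
    _ ≤ |C j| * T ^ (A * (((j:ℝ) + 1) / M) + ε / 2) := mul_le_mul_of_nonneg_right (le_abs_self _) (by positivity)
    _ ≤ (1 + ∑ j ∈ Finset.range (M + 1), |C j|) * T ^ (A * (1 - σ) + ε) := by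
        apply mul_le_mul (by linarith) (Real.rpow_le_rpow_of_exponent_le hT h5) (by positivity)
        positivity

lemma range_iff {A c q : ℝ} (hA : 0 < A) (hc : 1 < c) (hq : A * (1 - q) < 1) :
    1 / (1 - A * (1 - q)) < c ↔ 1 - (1 - 1 / c) / A < q := by
  have hc0 : 0 < c := by linarith
  rw [div_lt_iff₀ (by linarith)]
  have e : 1 - (1 - 1 / c) / A < q ↔ 1 / c < 1 - A * (1 - q) := by
    rw [sub_lt_comm, lt_div_iff₀ hA]
    constructor <;> intro h <;> linarith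
  rw [e, div_lt_iff₀ hc0, mul_comm]

/-- all `σ` -/
theorem density {A H : ℝ} (hA : 2 ≤ A) (hH : 0 < H) :
    List.TFAE [Den A,
      ∀ c : ℝ, 1 < c → ∀ᵐ α : ℝ, 0 < α → Near A H α c,
      ∀ᵐ p : ℝ × ℝ, 0 < p.1 → 1 < p.2 → Near A H p.1 p.2,
      ∀ a b : ℝ, 1 < a → a < b → volume {p : ℝ × ℝ | 0 < p.1 ∧ a < p.2 ∧ p.2 < b ∧ Near A H p.1 p.2} ≠ 0] := by
  have hA0 : 0 < A := by linarith
  -- for `q > 1 - (1 - 1/c)/A`, `q < 1`, the exponent is in range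
  have hq0 : ∀ {c q : ℝ}, 1 < c → 1 - (1 - 1 / c) / A < q → q < 1 → 1 / 2 ≤ q ∧ A * (1 - q) < 1 ∧
      0 ≤ A * (1 - q) := by
    intro c q hc h1 h2
    have hc0 : 0 < c := by linarith
    have h3 : 0 < 1 / c := by positivity
    have h4 : A * (1 - q) < 1 - 1 / c := by
      have h5 : 1 - q < (1 - 1 / c) / A := by linarith
      rw [lt_div_iff₀ hA0] at h5
      linarith
    refine ⟨?_, by linarith, mul_nonneg hA0.le (by linarith)⟩
    nlinarith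
  have hall : ∀ {q : ℝ}, All A → 1 / 2 ≤ q → q < 1 → A * (1 - q) < 1 → Cnt q (A * (1 - q)) :=
    fun h h1 h2 h3 => h _ h1 h2 h3
  tfae_have 1 → 2 := by
    intro h c hc
    have h0 := all_of_den hA h
    have h1 : ∀ q : ℚ, ∀ᵐ α : ℝ, 0 < α → 1 - (1 - 1 / c) / A < q → Free q H α c := by
      intro q
      by_cases hq : 1 - (1 - 1 / c) / A < (q:ℝ)
      swap
      · exact Eventually.of_forall fun α _ h2 => absurd h2 hq
      by_cases hq1 : (q:ℝ) < 1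
      swap
      · exact Eventually.of_forall fun α _ _ => free_of_one_le (not_lt.1 hq1)
      obtain ⟨g1, g2, g3⟩ := hq0 hc hq hq1
      have hs := (single g1 g3 g2 hH).out 0 1
      have h2 := hs.1 (h0 q g1 hq1 g2) c ((range_iff hA0 hc g2).2 hq)
      filter_upwards [h2] with α hα h3 _
      exact hα h3
    filter_upwards [ae_all_iff.2 h1] with α hα h2
    exact near_of_free fun q hq => hα q h2 hq
  tfae_have 1 → 3 := by
    intro h
    have h0 := all_of_den hA h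
    have h1 : ∀ q : ℚ, ∀ᵐ p : ℝ × ℝ, 0 < p.1 → 1 < p.2 → 1 - (1 - 1 / p.2) / A < q → Free q H p.1 p.2 := by
      intro q
      by_cases hq1 : (q:ℝ) < 1
      swap
      · exact Eventually.of_forall fun p _ _ _ => free_of_one_le (not_lt.1 hq1)
      by_cases hq : 1 / 2 ≤ (q:ℝ) ∧ A * (1 - q) < 1
      swap
      · refine Eventually.of_forall fun p _ h2 h3 => ?_
        obtain ⟨g1, g2, g3⟩ := hq0 h2 h3 hq1
        exact absurd ⟨g1, g2⟩ hq
      have g3 : 0 ≤ A * (1 - (q:ℝ)) := mul_nonneg hA0.le (by linarith)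
      have hs := (single hq.1 g3 hq.2 hH).out 0 2
      have h2 := hs.1 (h0 q hq.1 hq1 hq.2)
      filter_upwards [h2] with p hp h3 h4 h5
      exact hp h3 ((range_iff hA0 h4 hq.2).2 h5)
    filter_upwards [ae_all_iff.2 h1] with p hp h2 h3
    exact near_of_free fun q hq => hp q h2 h3 hq
  tfae_have 2 → 1 := by
    intro h
    refine den_of_all hA fun σ h1 h2 h3 => ?_
    have g3 : 0 < A * (1 - σ) := mul_pos hA0 (by linarith)
    have hs := (single h1 g3.le h3 hH).out 0 1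
    refine hs.2 fun c hc => ?_
    have hc1 : 1 < c := lt_trans (by rw [one_lt_div (by linarith)]; linarith) hc
    filter_upwards [h c hc1] with α hα h4
    exact near_free (hα h4) ((range_iff hA0 hc1 h3).1 hc)
  tfae_have 3 → 4 := by
    intro h a b ha hab h0
    apply rect_pos hab
    have h2 : ∀ᵐ p : ℝ × ℝ, ¬ (0 < p.1 ∧ a < p.2 ∧ p.2 < b ∧ Near A H p.1 p.2) := by
      rw [ae_iff]
      simpa using h0
    have h3 : ∀ᵐ p : ℝ × ℝ, ¬ (0 < p.1 ∧ a < p.2 ∧ p.2 < b) := by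
      filter_upwards [h, h2] with p hp1 hp2 hp3
      exact hp2 ⟨hp3.1, hp3.2.1, hp3.2.2, hp1 hp3.1 (ha.trans hp3.2.1)⟩
    rw [ae_iff] at h3
    simpa using h3
  tfae_have 4 → 1 := by
    intro h
    refine den_of_all hA fun σ h1 h2 h3 => ?_
    have g3 : 0 < A * (1 - σ) := mul_pos hA0 (by linarith)
    have hs := (single h1 g3.le h3 hH).out 0 3
    refine hs.2 fun a b ha hab h0 => ?_
    have ha1 : 1 < a := lt_trans (by rw [one_lt_div (by linarith)]; linarith) ha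
    refine h a b ha1 hab (measure_mono_null ?_ h0)
    rintro p ⟨h4, h5, h6, h7⟩
    refine ⟨h4, h5, h6, near_free h7 ((range_iff hA0 (ha1.trans h5) h3).1 (ha.trans h5))⟩
  tfae_finish

end Pool.Agent.N798.DH
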