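import Pool.Agent.H153R4.Pl

set_option autoImplicit false

/-! The mean square over `α` of the difference between `∑ G (α n)` and `(1/α) ∫ G` (Poisson summation and
Plancherel's theorem). -/

namespace Pool.Agent.N798.G

open MeasureTheory Filter Topology Set FourierTransform Complex
open scoped ENNReal Real

/-- Cauchy's inequality with weights for sums over the integers -/
lemma tsum_cs (w f : ℤ → ℝ≥0∞) (hw : ∀ i, w i ≠ 0) (hw' : ∀ i, w i ≠ ⊤) :
    (∑' i, f i) ^ 2 ≤ (∑' i, (w i)⁻¹) * ∑' i, w i * f i ^ 2 := by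
  have h := ENNReal.lintegral_mul_le_Lp_mul_Lq (μ := (Measure.count : Measure ℤ)) (p := 2) (q := 2)
    (by constructor <;> norm_num) (f := fun i => (w i)⁻¹ ^ (1 / 2 : ℝ)) (g := fun i => w i ^ (1 / 2 : ℝ) * f i)
    (measurable_of_countable _).aemeasurable (measurable_of_countable _).aemeasurable
  simp only [lintegral_count, Pi.mul_apply] at h
  have e1 : ∀ i, (w i)⁻¹ ^ (1 / 2 : ℝ) * (w i ^ (1 / 2 : ℝ) * f i) = f i := by
    intro i
    rw [← mul_assoc, ← ENNReal.mul_rpow_of_nonneg _ _ (by norm_num), ENNReal.inv_mul_cancel (hw i) (hw' i),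
      ENNReal.one_rpow, one_mul]
  have e2 : ∀ x : ℝ≥0∞, (x ^ (1 / 2 : ℝ)) ^ (2 : ℝ) = x := by
    intro x
    rw [← ENNReal.rpow_mul]; norm_num
  simp only [e1, ENNReal.mul_rpow_of_nonneg _ _ (by norm_num : (0:ℝ) ≤ 2), e2] at h
  have h2 := pow_le_pow_left' h 2
  refine h2.trans (le_of_eq ?_)
  rw [mul_pow]
  have e3 : ∀ x : ℝ≥0∞, (x ^ (1 / 2 : ℝ)) ^ 2 = x := by
    intro x
    rw [← ENNReal.rpow_natCast, ← ENNReal.rpow_mul]; norm_num
  rw [e3, e3]
  congr 1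
  refine tsum_congr fun i => ?_
  congr 1
  exact ENNReal.rpow_ofNat _ 2

/-- the weight `|l|^(1+e)` (and `1` for `l = 0`) -/
noncomputable def wt (e : ℝ) (l : ℤ) : ℝ≥0∞ := if l = 0 then 1 else ENNReal.ofReal (|(l:ℝ)| ^ (1 + e))

lemma wt_ne_zero (e : ℝ) (l : ℤ) : wt e l ≠ 0 := by
  unfold wt
  split_ifs with h
  · exact one_ne_zero
  · have : (0:ℝ) < |(l:ℝ)| := abs_pos.2 (by exact_mod_cast h)
    exact (ENNReal.ofReal_pos.2 (Real.rpow_pos_of_pos this _)).ne'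

lemma wt_ne_top (e : ℝ) (l : ℤ) : wt e l ≠ ⊤ := by
  unfold wt
  split_ifs
  · exact ENNReal.one_ne_top
  · exact ENNReal.ofReal_ne_top

lemma wt_sum {e : ℝ} (he : 0 < e) : ∑' l : ℤ, (wt e l)⁻¹ ≠ ⊤ := by
  have h1 : Summable (fun l : ℤ => |(l:ℝ)| ^ (-(1 + e))) := Real.summable_abs_int_rpow (by linarith)
  have h2 : ∑' l : ℤ, ENNReal.ofReal (|(l:ℝ)| ^ (-(1 + e))) ≠ ⊤ := h1.tsum_ofReal_ne_top
  have h3 : ∀ l : ℤ, (wt e l)⁻¹ ≤ (if l = 0 then 1 else 0) + ENNReal.ofReal (|(l:ℝ)| ^ (-(1 + e))) := by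
    intro l
    unfold wt
    split_ifs with h
    · simp
    · have : (0:ℝ) < |(l:ℝ)| := abs_pos.2 (by exact_mod_cast h)
      rw [zero_add, ← ENNReal.ofReal_inv_of_pos (Real.rpow_pos_of_pos this _), ← Real.rpow_neg this.le]
  refine ne_top_of_le_ne_top ?_ (ENNReal.tsum_le_tsum h3)
  rw [ENNReal.tsum_add]
  refine ENNReal.add_ne_top.2 ⟨?_, h2⟩
  rw [tsum_ite_eq]
  exact ENNReal.one_ne_top

lemma fourier_scale (G : ℝ → ℂ) {α : ℝ} (hα : 0 < α) (l : ℝ) :
    𝓕 (fun x => G (α * x)) l = ((α⁻¹ : ℝ) : ℂ) * 𝓕 G (l / α) := by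
  rw [Real.fourier_real_eq_integral_exp_smul, Real.fourier_real_eq_integral_exp_smul]
  have h := MeasureTheory.Measure.integral_comp_mul_left (fun y : ℝ => cexp (((-2 * π * y * (l / α) : ℝ) : ℂ) * I) • G y) α
  rw [abs_of_pos (inv_pos.2 hα)] at h
  rw [Complex.real_smul] at h
  rw [← h]
  congr 1
  funext x
  congr 3
  field_simp

lemma poisson_bound {G : ℝ → ℂ} (hG : Continuous G) (hs : HasCompactSupport G) {α e : ℝ} (hα : 0 < α) :
    ‖(∑' n : ℤ, G (α * n)) - ((α⁻¹ : ℝ) : ℂ) * ∫ x, G x‖ₑ ^ 2 ≤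
      (∑' l : ℤ, (wt e l)⁻¹) * ∑' l : ℤ, if l = 0 then 0 else
        ENNReal.ofReal (|(l:ℝ)| ^ (1 + e)) * (ENNReal.ofReal (α⁻¹ ^ 2) * ‖𝓕 G (l / α)‖ₑ ^ 2) := by
  set Gα : ℝ → ℂ := fun x => G (α * x) with hGα
  set f : ℤ → ℝ≥0∞ := fun l => if l = 0 then 0 else ‖𝓕 Gα l‖ₑ with hf
  have hcs := tsum_cs (wt e) f (wt_ne_zero e) (wt_ne_top e)
  have e1 : ∀ l : ℤ, wt e l * f l ^ 2 = if l = 0 then 0 else
        ENNReal.ofReal (|(l:ℝ)| ^ (1 + e)) * (ENNReal.ofReal (α⁻¹ ^ 2) * ‖𝓕 G (l / α)‖ₑ ^ 2) := by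
    intro l
    simp only [hf, wt]
    split_ifs with h
    · simp
    · simp only [hGα]
      rw [fourier_scale G hα l, enorm_mul, mul_pow]
      congr 2
      rw [← ofReal_norm, ← ENNReal.ofReal_pow (norm_nonneg _), Complex.norm_real, Real.norm_of_nonneg (inv_pos.2 hα).le]
  simp only [e1] at hcs
  refine le_trans ?_ hcs
  gcongr
  by_cases hfin : ∑' l, f l = ⊤
  · rw [hfin]; exact le_top
  have hcα : Continuous Gα := hG.comp (continuous_const.mul continuous_id)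
  have hsα : HasCompactSupport Gα := hs.comp_homeomorph (Homeomorph.mulLeft₀ α hα.ne')
  have hsum : Summable (fun l : ℤ => 𝓕 Gα l) := by
    have h1 : Summable (fun l : ℤ => (f l).toReal) := ENNReal.summable_toReal hfin
    have h2 : Summable (fun l : ℤ => ‖𝓕 Gα l‖) := by
      rw [← summable_congr_cofinite (f := fun l : ℤ => (f l).toReal)]
      · exact h1
      · have : ∀ᶠ l : ℤ in cofinite, l ≠ 0 := by
          rw [Filter.eventually_cofinite]; simp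
        filter_upwards [this] with l hl
        simp only [hf, if_neg hl]
        simp
    exact h2.of_norm
  have hp := Real.tsum_eq_tsum_fourier_of_rpow_decay_of_summable (f := Gα) hcα one_lt_two (by
    have h0 : Gα =ᶠ[cocompact ℝ] 0 := by
      have h1 := hasCompactSupport_iff_eventuallyEq.1 hsα
      exact h1.filter_mono cocompact_le_coclosedCompact
    exact (Asymptotics.isBigO_zero _ _).congr' h0.symm (EventuallyEq.refl _ _)) hsum 0
  have e2 : ∑' n : ℤ, G (α * n) = ∑' l : ℤ, 𝓕 Gα l := by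
    have h3 : ∑' n : ℤ, Gα (0 + n) = ∑' n : ℤ, G (α * n) := tsum_congr fun n => by simp [hGα]
    rw [← h3, hp]
    refine tsum_congr fun n => ?_
    simp
  have e3 : 𝓕 Gα ((0:ℤ) : ℝ) = ((α⁻¹ : ℝ) : ℂ) * ∫ x, G x := by
    rw [hGα, fourier_scale G hα, Real.fourier_real_eq_integral_exp_smul]
    congr 2
    funext x
    simp
  have e4 : (∑' n : ℤ, G (α * n)) - ((α⁻¹ : ℝ) : ℂ) * ∫ x, G x = ∑' l : ℤ, if l = 0 then 0 else 𝓕 Gα l := by
    rw [e2, ← e3, hsum.tsum_eq_add_tsum_ite 0]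
    ring
  rw [e4]
  have hsum' : Summable (fun l : ℤ => ‖(if l = 0 then 0 else 𝓕 Gα l : ℂ)‖) := by
    refine Summable.of_nonneg_of_le (fun _ => norm_nonneg _) (fun l => ?_) hsum.norm
    split_ifs
    · rw [norm_zero]; exact norm_nonneg _
    · exact le_rfl
  refine (enorm_tsum_le_tsum_enorm).trans (le_of_eq ?_)
  refine tsum_congr fun l => ?_
  simp only [hf]
  split_ifs <;> simp

end Pool.Agent.N798.G
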