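import Pool.Agent.N798.G9

set_option autoImplicit false

/-! The smoothed powers of zeta on the critical line: mean squares. -/

namespace Pool.Agent.N798.G

open MeasureTheory Filter Topology Set
open Pool.Agent.R303.LM
open scoped ENNReal Real

/-- the derivative of zeta on the critical line, in absolute value -/
noncomputable def Z' (t : ℝ) : ℝ := ‖deriv riemannZeta (1 / 2 + t * Complex.I)‖

lemma line_ne (t : ℝ) : (1 / 2 + (t:ℂ) * Complex.I) ≠ 1 := by
  intro h
  have := congrArg Complex.re h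
  simp at this

lemma zline_deriv (t : ℝ) : HasDerivAt (fun t : ℝ => riemannZeta (1 / 2 + t * Complex.I))
    (Complex.I * deriv riemannZeta (1 / 2 + t * Complex.I)) t := by
  have h1 : HasDerivAt riemannZeta (deriv riemannZeta (1 / 2 + t * Complex.I)) (1 / 2 + t * Complex.I) :=
    (differentiableAt_riemannZeta (line_ne t)).hasDerivAt
  have h2 : HasDerivAt (fun t : ℝ => (1 / 2 : ℂ) + t * Complex.I) Complex.I t := by
    have h3 : HasDerivAt (fun t : ℝ => (t : ℂ)) 1 t := Complex.ofRealCLM.hasDerivAt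
    have := (h3.mul_const Complex.I).const_add (1 / 2 : ℂ)
    rwa [one_mul] at this
  have h4 := HasDerivAt.scomp t h1 h2
  rw [smul_eq_mul] at h4
  exact h4

lemma dzeta_cont : Continuous fun t : ℝ => deriv riemannZeta (1 / 2 + t * Complex.I) := by
  have h1 : DifferentiableOn ℂ riemannZeta ({1}ᶜ : Set ℂ) := fun s hs =>
    (differentiableAt_riemannZeta hs).differentiableWithinAt
  have h2 : ContinuousOn (deriv riemannZeta) ({1}ᶜ : Set ℂ) := (h1.deriv isOpen_compl_singleton).continuousOn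
  exact h2.comp_continuous (by fun_prop) fun t => line_ne t

lemma Z'_cont : Continuous Z' := dzeta_cont.norm

lemma Z'_nonneg (t : ℝ) : 0 ≤ Z' t := norm_nonneg _

lemma zline_contDiff : ContDiff ℝ 1 fun t : ℝ => riemannZeta (1 / 2 + t * Complex.I) := by
  rw [contDiff_one_iff_deriv]
  refine ⟨fun t => (zline_deriv t).differentiableAt, ?_⟩
  have : deriv (fun t : ℝ => riemannZeta (1 / 2 + t * Complex.I)) =
      fun t : ℝ => Complex.I * deriv riemannZeta (1 / 2 + t * Complex.I) := by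
    funext t; exact (zline_deriv t).deriv
  rw [this]
  exact continuous_const.mul dzeta_cont

lemma Zsq_contDiff : ContDiff ℝ 1 fun t : ℝ => Z t ^ 2 := zline_contDiff.norm_sq ℝ

lemma Zsq_deriv (t : ℝ) : ∃ D : ℝ, HasDerivAt (fun t : ℝ => Z t ^ 2) D t ∧ |D| ≤ 2 * (Z t * Z' t) := by
  have h := (zline_deriv t).norm_sq
  refine ⟨_, h, ?_⟩
  rw [abs_mul, abs_two]
  refine mul_le_mul_of_nonneg_left ?_ zero_le_two
  refine (abs_real_inner_le_norm _ _).trans (le_of_eq ?_)
  unfold Z Z'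
  rw [norm_mul, Complex.norm_I, one_mul]

/-- the majorant -/
noncomputable def Q (P t : ℝ) : ℝ := (1 + Z t ^ 2) ^ (P / 2 - 1) * (1 + Z t ^ 2 + Z' t ^ 2)

lemma Q_cont (P : ℝ) : Continuous (Q P) := by
  unfold Q
  have h1 : Continuous fun t => 1 + Z t ^ 2 := continuous_const.add (Z_cont.pow 2)
  exact (h1.rpow_const fun t => Or.inl (by positivity)).mul (h1.add (Z'_cont.pow 2))

lemma Q_nonneg (P t : ℝ) : 0 ≤ Q P t := by unfold Q; positivity

lemma two_pow {P g : ℝ} (hP : 0 ≤ P) (hg : 0 ≤ g) : (1 + g) ^ P ≤ 2 ^ P * (1 + g ^ P) := by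
  rcases le_total g 1 with h | h
  · have h1 : (1 + g) ^ P ≤ 2 ^ P := Real.rpow_le_rpow (by linarith) (by linarith) hP
    have h2 : 0 ≤ g ^ P := Real.rpow_nonneg hg _
    have h3 : (0:ℝ) ≤ 2 ^ P := by positivity
    nlinarith
  · have h1 : (1 + g) ^ P ≤ (2 * g) ^ P := Real.rpow_le_rpow (by linarith) (by linarith) hP
    rw [Real.mul_rpow (by norm_num) hg] at h1
    have h3 : (0:ℝ) ≤ 2 ^ P := by positivity
    nlinarith

lemma Q_moment {P M : ℝ} (hP : 2 ≤ P) (hM : 1 ≤ M) (h : MomExp P M) (x : ℝ) {ε : ℝ} (hε : 0 < ε) :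
    ∃ A : ℝ, 0 ≤ A ∧ ∀ T : ℝ, 1 ≤ T → ∫ t in (-|x|)..T, Q P t ≤ A * T ^ (M + ε) := by
  have hP0 : 0 < P := by linarith
  obtain ⟨A₁, hA₁, hG⟩ := G_moment (by linarith) hM h (ε := ε / 2) (by linarith)
  set δ : ℝ := min 1 (ε / 2 / P) with hδ
  have hδ0 : 0 < δ := lt_min one_pos (by positivity)
  have hδP : P * δ ≤ ε / 2 := by
    have : δ ≤ ε / 2 / P := min_le_right _ _
    rw [le_div_iff₀ hP0] at this
    linarith
  obtain ⟨C, T₀, hC, hT₀, hloc⟩ := local_mean hδ0 (min_le_left _ _)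
  set B : ℝ := ∫ t in (-|x|)..T₀, Q P t with hB
  have hx := abs_nonneg x
  have hQi : ∀ a b, IntervalIntegrable (Q P) volume a b := fun a b => (Q_cont P).intervalIntegrable a b
  have hB0 : 0 ≤ B := intervalIntegral.integral_nonneg (by linarith) fun t _ => Q_nonneg P t
  refine ⟨B + (6 * C) ^ P * (1 + A₁), by positivity, fun T hT => ?_⟩
  have hT0 : 0 < T := by linarith
  have h1 : 1 ≤ T ^ (M + ε) := Real.one_le_rpow hT (by linarith)
  have hcoef : 0 ≤ (6 * C) ^ P * (1 + A₁) := by positivity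
  rcases le_total T T₀ with h2 | h2
  · have h3 : ∫ t in (-|x|)..T, Q P t ≤ B := by
      apply intervalIntegral.integral_mono_interval le_rfl (by linarith) h2
        (Eventually.of_forall fun t => Q_nonneg P t) (hQi _ _)
    nlinarith
  rw [← intervalIntegral.integral_add_adjacent_intervals (hQi (-|x|) T₀) (hQi T₀ T)]
  have hpt : ∀ t ∈ Icc T₀ T, Q P t ≤ (6 * C) ^ P * T ^ (ε / 2) * (1 + Gm t ^ P) := by
    intro t ht
    have ht1 : 1 ≤ t := by linarith [ht.1]
    have ht0 : 0 < t := by linarith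
    obtain ⟨hz1, hz2⟩ := hloc t ht.1
    change Z t ≤ C * t ^ δ * (1 + Gm t) at hz1
    change Z' t ≤ C * t ^ δ * (1 + Gm t) at hz2
    have hG0 := G_nonneg ht1
    set Y : ℝ := C * t ^ δ * (1 + Gm t) with hY
    have htd : 1 ≤ t ^ δ := Real.one_le_rpow ht1 hδ0.le
    have hY1 : 1 ≤ Y := by
      have h3 : 1 ≤ C * t ^ δ := one_le_mul_of_one_le_of_one_le hC htd
      rw [hY]
      exact one_le_mul_of_one_le_of_one_le h3 (by linarith)
    have hzz := Z_nonneg t
    have hzz' := Z'_nonneg t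
    have h4 : Z t ^ 2 ≤ Y ^ 2 := pow_le_pow_left₀ hzz hz1 2
    have h5 : Z' t ^ 2 ≤ Y ^ 2 := pow_le_pow_left₀ hzz' hz2 2
    have h6 : 1 ≤ Y ^ 2 := one_le_pow₀ hY1
    have h7 : (1 + Z t ^ 2) ^ (P / 2 - 1) ≤ (3 * Y ^ 2) ^ (P / 2 - 1) :=
      Real.rpow_le_rpow (by positivity) (by linarith) (by linarith)
    have h8 : Q P t ≤ (3 * Y ^ 2) ^ (P / 2) := by
      unfold Q
      calc (1 + Z t ^ 2) ^ (P / 2 - 1) * (1 + Z t ^ 2 + Z' t ^ 2) ≤ (3 * Y ^ 2) ^ (P / 2 - 1) * (3 * Y ^ 2) := by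
            apply mul_le_mul h7 (by linarith) (by positivity) (by positivity)
        _ = (3 * Y ^ 2) ^ (P / 2) := by
            rw [Real.rpow_sub (by positivity), Real.rpow_one]
            field_simp
    have h9 : (3 * Y ^ 2) ^ (P / 2) ≤ (3 * Y) ^ P := by
      calc (3 * Y ^ 2) ^ (P / 2) ≤ ((3 * Y) ^ 2) ^ (P / 2) :=
            Real.rpow_le_rpow (by positivity) (by nlinarith) (by linarith)
        _ = (3 * Y) ^ P := by
            rw [← Real.rpow_natCast, ← Real.rpow_mul (by positivity)]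
            congr 1; push_cast; ring
    refine (h8.trans h9).trans ?_
    have h10 : t ^ (δ * P) ≤ T ^ (ε / 2) := by
      calc t ^ (δ * P) ≤ T ^ (δ * P) := Real.rpow_le_rpow ht0.le ht.2 (by positivity)
        _ ≤ T ^ (ε / 2) := Real.rpow_le_rpow_of_exponent_le hT (by linarith)
    calc (3 * Y) ^ P = (3 * C) ^ P * t ^ (δ * P) * (1 + Gm t) ^ P := by
          rw [hY, show 3 * (C * t ^ δ * (1 + Gm t)) = (3 * C) * t ^ δ * (1 + Gm t) by ring,
            Real.mul_rpow (by positivity) (by positivity), Real.mul_rpow (by positivity) (by positivity),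
            ← Real.rpow_mul ht0.le]
      _ ≤ (3 * C) ^ P * T ^ (ε / 2) * (2 ^ P * (1 + Gm t ^ P)) := by
          apply mul_le_mul (mul_le_mul_of_nonneg_left h10 (by positivity)) (two_pow hP0.le hG0) (by positivity)
            (by positivity)
      _ = (3 * C) ^ P * 2 ^ P * T ^ (ε / 2) * (1 + Gm t ^ P) := by ring
      _ = _ := by rw [← Real.mul_rpow (by positivity) (by norm_num)]; congr 3; ring
  have hGi : ∀ a b : ℝ, 1 ≤ a → a ≤ b → IntervalIntegrable (fun t => Gm t ^ P) volume a b := by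
    intro a b ha hab
    apply ContinuousOn.intervalIntegrable
    rw [uIcc_of_le hab]
    exact (G_cont.mono fun x hx => show 0 < x by linarith [hx.1]).rpow_const fun _ _ => Or.inr hP0.le
  have h3 : ∫ t in T₀..T, Q P t ≤ (6 * C) ^ P * T ^ (ε / 2) * ((T - T₀) + ∫ t in T₀..T, Gm t ^ P) := by
    have h4 : ∫ t in T₀..T, Q P t ≤ ∫ t in T₀..T, (6 * C) ^ P * T ^ (ε / 2) * (1 + Gm t ^ P) :=
      intervalIntegral.integral_mono_on h2 (hQi _ _)
        ((intervalIntegrable_const.add (hGi T₀ T (by linarith) h2)).const_mul _) hpt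
    rw [intervalIntegral.integral_const_mul, intervalIntegral.integral_add intervalIntegrable_const
      (hGi T₀ T (by linarith) h2), intervalIntegral.integral_const, smul_eq_mul, mul_one] at h4
    exact h4
  have h4 : ∫ t in T₀..T, Gm t ^ P ≤ A₁ * T ^ (M + ε / 2) := by
    refine le_trans ?_ (hG T hT)
    rw [← intervalIntegral.integral_add_adjacent_intervals (hGi 1 T₀ le_rfl (by linarith)) (hGi T₀ T (by linarith) h2)]
    have : 0 ≤ ∫ t in (1:ℝ)..T₀, Gm t ^ P := by
      apply intervalIntegral.integral_nonneg (by linarith)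
      intro t ht
      exact Real.rpow_nonneg (G_nonneg ht.1) _
    linarith
  have h5 : T - T₀ ≤ T ^ (M + ε / 2) := by
    have : T ^ (1:ℝ) ≤ T ^ (M + ε / 2) := Real.rpow_le_rpow_of_exponent_le hT (by linarith)
    rw [Real.rpow_one] at this
    linarith
  have h6 : ∫ t in T₀..T, Q P t ≤ (6 * C) ^ P * (1 + A₁) * T ^ (M + ε) := by
    refine h3.trans ?_
    calc (6 * C) ^ P * T ^ (ε / 2) * ((T - T₀) + ∫ t in T₀..T, Gm t ^ P)
        ≤ (6 * C) ^ P * T ^ (ε / 2) * (T ^ (M + ε / 2) + A₁ * T ^ (M + ε / 2)) := by gcongr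
      _ = (6 * C) ^ P * (1 + A₁) * (T ^ (M + ε / 2) * T ^ (ε / 2)) := by ring
      _ = _ := by rw [← Real.rpow_add hT0]; congr 2; ring
  have h7 : B ≤ B * T ^ (M + ε) := by nlinarith
  rw [add_mul]
  exact add_le_add h7 h6

end Pool.Agent.N798.G
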