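import Pool.Agent.N798.G10

set_option autoImplicit false

/-! The powers of zeta along `x + v^c` are approximable with mean square bounds. -/

namespace Pool.Agent.N798.G

open MeasureTheory Filter Topology Set
open Pool.Agent.R303.LM
open scoped ENNReal Real

/-- dyadic summation -/
lemma dyadic {φ : ℝ → ℝ} (hφ : Continuous φ) (h0 : ∀ v, 1 ≤ v → 0 ≤ φ v) {s B : ℝ} (hs : 0 < s) (hB : 0 ≤ B)
    (h : ∀ X, 1 ≤ X → ∫ v in X..(2 * X), φ v ≤ B * X ^ s) :
    ∃ A, 0 ≤ A ∧ ∀ X, 1 ≤ X → ∫ v in (1:ℝ)..X, φ v ≤ A * X ^ s := by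
  have h2s : 1 < (2:ℝ) ^ s := Real.one_lt_rpow (by norm_num) hs
  set K : ℝ := 1 / (2 ^ s - 1) with hK
  have hK0 : 0 < K := by rw [hK]; apply div_pos one_pos; linarith
  have hK1 : K + 1 = 2 ^ s * K := by
    rw [hK]
    have : (2:ℝ) ^ s - 1 ≠ 0 := by linarith
    field_simp
    ring
  have hi : ∀ a b, IntervalIntegrable φ volume a b := fun a b => hφ.intervalIntegrable a b
  have h1 : ∀ n : ℕ, ∫ v in (1:ℝ)..(2 ^ n), φ v ≤ B * K * ((2:ℝ) ^ n) ^ s := by
    intro n
    induction n with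
    | zero => simp; positivity
    | succ n ih =>
      rw [← intervalIntegral.integral_add_adjacent_intervals (hi 1 (2 ^ n)) (hi (2 ^ n) (2 ^ (n + 1)))]
      have h3 := h (2 ^ n) (one_le_pow₀ (by norm_num))
      rw [show 2 * (2:ℝ) ^ n = 2 ^ (n + 1) by ring] at h3
      have e : B * K * ((2:ℝ) ^ (n + 1)) ^ s = B * K * ((2:ℝ) ^ n) ^ s + B * ((2:ℝ) ^ n) ^ s := by
        rw [pow_succ, Real.mul_rpow (by positivity) (by norm_num)]
        have : B * K * (((2:ℝ) ^ n) ^ s * 2 ^ s) = B * ((2:ℝ) ^ n) ^ s * (2 ^ s * K) := by ring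
        rw [this, ← hK1]; ring
      rw [e]
      exact add_le_add ih h3
  refine ⟨B * K * 2 ^ s, by positivity, fun X hX => ?_⟩
  obtain ⟨n, hn1, hn2⟩ := exists_nat_pow_near hX (by norm_num : (1:ℝ) < 2)
  have h3 : ∫ v in (1:ℝ)..X, φ v ≤ ∫ v in (1:ℝ)..(2 ^ (n + 1)), φ v := by
    rw [← intervalIntegral.integral_add_adjacent_intervals (hi 1 X) (hi X (2 ^ (n + 1)))]
    have := intervalIntegral.integral_nonneg (μ := volume) hn2.le fun v hv => h0 v (hX.trans hv.1)
    linarith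
  refine h3.trans ((h1 (n + 1)).trans ?_)
  rw [mul_assoc (B * K), ← Real.mul_rpow (by norm_num) (by linarith)]
  apply mul_le_mul_of_nonneg_left _ (by positivity)
  apply Real.rpow_le_rpow (by positivity) _ hs.le
  rw [pow_succ]; linarith

lemma subst_pow {x c : ℝ} (hc : 1 ≤ c) {f : ℝ → ℝ} (hf : Continuous f) {X Y : ℝ} (hX : 0 < X) (hXY : X ≤ Y) :
    ∫ v in X..Y, f (x + v ^ c) * (c * v ^ (c - 1)) = ∫ t in (x + X ^ c)..(x + Y ^ c), f t := by
  apply intervalIntegral.integral_comp_mul_deriv (f := fun v : ℝ => x + v ^ c) (f' := fun v => c * v ^ (c - 1)) (g := f)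
  · intro v hv
    rw [uIcc_of_le hXY] at hv
    have := (Real.hasDerivAt_rpow_const (x := v) (p := c) (Or.inl (by linarith [hv.1]))).const_add x
    exact this
  · exact (continuous_const.mul (continuous_id.rpow_const fun v => Or.inr (by linarith))).continuousOn
  · exact hf

lemma Qpow_cont (P x : ℝ) {c : ℝ} (hc : 1 ≤ c) : Continuous fun v : ℝ => Q P (x + v ^ c) :=
  (Q_cont P).comp (continuous_const.add (continuous_id.rpow_const fun v => Or.inr (by linarith)))

/-- the mean squares along `x + v^c` -/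
lemma Q_along {P M : ℝ} (hP : 2 ≤ P) (hM : 1 ≤ M) (h : MomExp P M) (x : ℝ) {c : ℝ} (hc : 1 ≤ c) {ε : ℝ} (hε : 0 < ε) :
    ∃ A : ℝ, 0 ≤ A ∧ ∀ X : ℝ, 1 ≤ X → (∫ v in (1:ℝ)..X, Q P (x + v ^ c)) ≤ A * X ^ (c * (M + ε) + 1 - c) ∧
      (∫ v in (1:ℝ)..X, Q P (x + v ^ c) * (c * v ^ (c - 1)) ^ 2) ≤ A * X ^ (c * (M + ε) + c - 1) := by
  obtain ⟨A, hA, hQ⟩ := Q_moment hP hM h x hε
  have hx := abs_nonneg x
  set B : ℝ := A * ((|x| + 1) * 2 ^ c) ^ (M + ε) with hB
  have hB0 : 0 ≤ B := by positivity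
  have hc0 : 0 < c := by linarith
  have hw : ∀ X : ℝ, 1 ≤ X → ∫ v in X..(2 * X), Q P (x + v ^ c) * (c * v ^ (c - 1)) ≤ B * X ^ (c * (M + ε)) := by
    intro X hX
    have hX0 : 0 < X := by linarith
    have h2X : 1 ≤ (2 * X) ^ c := Real.one_le_rpow (by linarith) hc0.le
    rw [subst_pow hc (Q_cont P) hX0 (by linarith)]
    have hXc : X ^ c ≤ (2 * X) ^ c := Real.rpow_le_rpow hX0.le (by linarith) hc0.le
    have hXc1 : 1 ≤ X ^ c := Real.one_le_rpow hX hc0.le
    have h1 : ∫ t in (x + X ^ c)..(x + (2 * X) ^ c), Q P t ≤ ∫ t in (-|x|)..(|x| + (2 * X) ^ c), Q P t := by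
      apply intervalIntegral.integral_mono_interval
      · linarith [neg_abs_le x]
      · linarith
      · linarith [le_abs_self x]
      · exact Eventually.of_forall fun t => Q_nonneg P t
      · exact (Q_cont P).intervalIntegrable _ _
    refine h1.trans ((hQ _ (by linarith)).trans ?_)
    rw [hB, mul_assoc A]
    apply mul_le_mul_of_nonneg_left _ hA
    rw [Real.rpow_mul hX0.le c, ← Real.mul_rpow (by positivity) (by positivity)]
    apply Real.rpow_le_rpow (by positivity) _ (by linarith)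
    rw [Real.mul_rpow (by norm_num) hX0.le] at h2X ⊢
    nlinarith
  have hQc := Qpow_cont P x hc
  have hpc : Continuous fun v : ℝ => c * v ^ (c - 1) :=
    continuous_const.mul (continuous_id.rpow_const fun v => Or.inr (by linarith))
  -- first
  obtain ⟨A₁, hA₁, h1⟩ := dyadic (φ := fun v => Q P (x + v ^ c)) hQc (fun v _ => Q_nonneg P _)
    (s := c * (M + ε) + 1 - c) (B := B) (by nlinarith) hB0 (by
      intro X hX
      have hX0 : 0 < X := by linarith
      have h2 : ∫ v in X..(2 * X), Q P (x + v ^ c) ≤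
          ∫ v in X..(2 * X), X ^ (1 - c) * (Q P (x + v ^ c) * (c * v ^ (c - 1))) := by
        refine intervalIntegral.integral_mono_on (by linarith) (hQc.intervalIntegrable _ _)
          ((continuous_const.mul (hQc.mul hpc)).intervalIntegrable _ _) fun v hv => ?_
        have h3 : 1 ≤ X ^ (1 - c) * (c * v ^ (c - 1)) := by
          have h4 : X ^ (c - 1) ≤ v ^ (c - 1) := Real.rpow_le_rpow hX0.le hv.1 (by linarith)
          have h5 : 0 < X ^ (1 - c) := by positivity
          have h6 : X ^ (1 - c) * X ^ (c - 1) = 1 := by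
            rw [← Real.rpow_add hX0]; simp
          have h7 : 0 ≤ X ^ (c - 1) := by positivity
          calc (1:ℝ) = X ^ (1 - c) * X ^ (c - 1) := h6.symm
            _ ≤ X ^ (1 - c) * (c * v ^ (c - 1)) := by
                apply mul_le_mul_of_nonneg_left _ h5.le
                nlinarith
        have h4 := Q_nonneg P (x + v ^ c)
        calc Q P (x + v ^ c) = Q P (x + v ^ c) * 1 := (mul_one _).symm
          _ ≤ Q P (x + v ^ c) * (X ^ (1 - c) * (c * v ^ (c - 1))) := mul_le_mul_of_nonneg_left h3 h4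
          _ = _ := by ring
      rw [intervalIntegral.integral_const_mul] at h2
      refine h2.trans ?_
      calc X ^ (1 - c) * ∫ v in X..(2 * X), Q P (x + v ^ c) * (c * v ^ (c - 1))
          ≤ X ^ (1 - c) * (B * X ^ (c * (M + ε))) := mul_le_mul_of_nonneg_left (hw X hX) (by positivity)
        _ = B * (X ^ (c * (M + ε)) * X ^ (1 - c)) := by ring
        _ = _ := by rw [← Real.rpow_add hX0]; congr 2; ring)
  obtain ⟨A₂, hA₂, h2⟩ := dyadic (φ := fun v => Q P (x + v ^ c) * (c * v ^ (c - 1)) ^ 2) (hQc.mul (hpc.pow 2))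
    (fun v _ => mul_nonneg (Q_nonneg P _) (sq_nonneg _))
    (s := c * (M + ε) + c - 1) (B := c * 2 ^ (c - 1) * B) (by nlinarith) (by positivity) (by
      intro X hX
      have hX0 : 0 < X := by linarith
      have h2 : ∫ v in X..(2 * X), Q P (x + v ^ c) * (c * v ^ (c - 1)) ^ 2 ≤
          ∫ v in X..(2 * X), c * (2 * X) ^ (c - 1) * (Q P (x + v ^ c) * (c * v ^ (c - 1))) := by
        refine intervalIntegral.integral_mono_on (by linarith) ((hQc.mul (hpc.pow 2)).intervalIntegrable _ _)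
          ((continuous_const.mul (hQc.mul hpc)).intervalIntegrable _ _) fun v hv => ?_
        have hv0 : 0 < v := by linarith [hv.1]
        have h4 : v ^ (c - 1) ≤ (2 * X) ^ (c - 1) := Real.rpow_le_rpow hv0.le hv.2 (by linarith)
        have h5 := Q_nonneg P (x + v ^ c)
        have h6 : 0 ≤ c * v ^ (c - 1) := by positivity
        calc Q P (x + v ^ c) * (c * v ^ (c - 1)) ^ 2 = (c * v ^ (c - 1)) * (Q P (x + v ^ c) * (c * v ^ (c - 1))) := by ring
          _ ≤ (c * (2 * X) ^ (c - 1)) * (Q P (x + v ^ c) * (c * v ^ (c - 1))) := by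
              apply mul_le_mul_of_nonneg_right _ (mul_nonneg h5 h6)
              exact mul_le_mul_of_nonneg_left h4 hc0.le
      rw [intervalIntegral.integral_const_mul] at h2
      refine h2.trans ?_
      calc c * (2 * X) ^ (c - 1) * ∫ v in X..(2 * X), Q P (x + v ^ c) * (c * v ^ (c - 1))
          ≤ c * (2 * X) ^ (c - 1) * (B * X ^ (c * (M + ε))) := mul_le_mul_of_nonneg_left (hw X hX) (by positivity)
        _ = c * 2 ^ (c - 1) * B * (X ^ (c * (M + ε)) * X ^ (c - 1)) := by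
            rw [Real.mul_rpow (by norm_num) hX0.le]; ring
        _ = _ := by rw [← Real.rpow_add hX0]; congr 2; ring)
  refine ⟨max A₁ A₂, le_max_of_le_left hA₁, fun X hX => ⟨(h1 X hX).trans ?_, (h2 X hX).trans ?_⟩⟩
  · exact mul_le_mul_of_nonneg_right (le_max_left _ _) (by positivity)
  · exact mul_le_mul_of_nonneg_right (le_max_right _ _) (by positivity)

/-- a smooth positive function equal to `v` for `v ≥ 1` -/
noncomputable def wv (v : ℝ) : ℝ := v * Real.smoothTransition v + (1 - Real.smoothTransition v)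

lemma wv_eq {v : ℝ} (hv : 1 ≤ v) : wv v = v := by
  unfold wv
  rw [Real.smoothTransition.one_of_one_le hv]; ring

lemma wv_pos (v : ℝ) : 0 < wv v := by
  unfold wv
  rcases le_or_gt v 0 with h | h
  · rw [Real.smoothTransition.zero_of_nonpos h]; norm_num
  · have h1 := Real.smoothTransition.pos_of_pos h
    have h2 := Real.smoothTransition.le_one v
    nlinarith [mul_pos h h1]

lemma wv_contDiff : ContDiff ℝ 1 wv := by
  unfold wv
  have h1 : ContDiff ℝ 1 Real.smoothTransition := Real.smoothTransition.contDiff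
  exact (contDiff_id.mul h1).add (contDiff_const.sub h1)

/-- **The approximants.** -/
lemma approx (x : ℝ) {c β P η Λ : ℝ} (hβ : 0 < β) (hη : 0 < η) (hη1 : η ≤ 1) (hP : 2 * β ≤ P)
    (hΛ : ∀ N : ℝ, 0 ≤ N → (N + η ^ 2) ^ (β - 1) ≤ Λ * (1 + N) ^ (P / 2 - 1)) :
    ∃ h : ℝ → ℝ, ContDiff ℝ 1 h ∧ (∀ v, 1 ≤ v → h v = (Z (x + v ^ c) ^ 2 + η ^ 2) ^ (β / 2)) ∧
      (∀ v, 1 ≤ v → h v ^ 2 ≤ Q P (x + v ^ c)) ∧
      (∀ v, 1 < v → deriv h v ^ 2 ≤ β ^ 2 * Λ * (Q P (x + v ^ c) * (c * v ^ (c - 1)) ^ 2)) := by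
  have hη2 : 0 < η ^ 2 := by positivity
  have hη21 : η ^ 2 ≤ 1 := pow_le_one₀ hη.le hη1
  refine ⟨fun v => (Z (x + wv v ^ c) ^ 2 + η ^ 2) ^ (β / 2), ?_, fun v hv => ?_, fun v hv => ?_, fun v hv => ?_⟩
  · have h1 : ContDiff ℝ 1 fun v => x + wv v ^ c :=
      contDiff_const.add (wv_contDiff.rpow_const_of_ne fun v => (wv_pos v).ne')
    have h2 : ContDiff ℝ 1 fun v => Z (x + wv v ^ c) ^ 2 := Zsq_contDiff.comp h1
    exact (h2.add contDiff_const).rpow_const_of_ne fun v => by positivity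
  · simp only [wv_eq hv]
  · simp only [wv_eq hv]
    set N : ℝ := Z (x + v ^ c) ^ 2 with hN
    have hN0 : 0 ≤ N := by rw [hN]; positivity
    have h1 : ((N + η ^ 2) ^ (β / 2)) ^ 2 = (N + η ^ 2) ^ β := by
      rw [← Real.rpow_natCast, ← Real.rpow_mul (by positivity)]
      congr 1; push_cast; ring
    rw [h1]
    calc (N + η ^ 2) ^ β ≤ (1 + N) ^ β := Real.rpow_le_rpow (by positivity) (by linarith) hβ.le
      _ ≤ (1 + N) ^ (P / 2) := Real.rpow_le_rpow_of_exponent_le (by linarith) (by linarith)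
      _ = (1 + N) ^ (P / 2 - 1) * (1 + N) := by
          rw [Real.rpow_sub (by positivity), Real.rpow_one]
          field_simp
      _ ≤ Q P (x + v ^ c) := by
          unfold Q
          apply mul_le_mul_of_nonneg_left _ (by positivity)
          have := sq_nonneg (Z' (x + v ^ c))
          linarith
  · have hv0 : 0 < v := by linarith
    set N : ℝ := Z (x + v ^ c) ^ 2 with hN
    have hN0 : 0 ≤ N := by rw [hN]; positivity
    obtain ⟨D, hD, hD2⟩ := Zsq_deriv (x + v ^ c)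
    have h1 : HasDerivAt (fun v : ℝ => x + v ^ c) (c * v ^ (c - 1)) v :=
      (Real.hasDerivAt_rpow_const (Or.inl hv0.ne')).const_add x
    have h2 : HasDerivAt (fun v : ℝ => Z (x + v ^ c) ^ 2 + η ^ 2) (D * (c * v ^ (c - 1))) v :=
      (HasDerivAt.comp (h₂ := fun t => Z t ^ 2) v hD h1).add_const (η ^ 2)
    have h3 := h2.rpow_const (p := β / 2) (Or.inl (by positivity))
    have h4 : (fun v => (Z (x + wv v ^ c) ^ 2 + η ^ 2) ^ (β / 2)) =ᶠ[𝓝 v]
        fun v => (Z (x + v ^ c) ^ 2 + η ^ 2) ^ (β / 2) := by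
      filter_upwards [Ioi_mem_nhds hv] with y hy
      have : 1 < y := hy
      simp only [wv_eq this.le]
    rw [h4.deriv_eq, h3.deriv]
    have h5 : D ^ 2 ≤ 4 * (N * Z' (x + v ^ c) ^ 2) := by
      rw [← sq_abs]
      calc |D| ^ 2 ≤ (2 * (Z (x + v ^ c) * Z' (x + v ^ c))) ^ 2 := pow_le_pow_left₀ (abs_nonneg _) hD2 2
        _ = 4 * (N * Z' (x + v ^ c) ^ 2) := by rw [hN]; ring
    have h6 : ((N + η ^ 2) ^ (β / 2 - 1)) ^ 2 * N ≤ (N + η ^ 2) ^ (β - 1) := by
      have e1 : ((N + η ^ 2) ^ (β / 2 - 1)) ^ 2 = (N + η ^ 2) ^ (β - 2) := by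
        rw [← Real.rpow_natCast, ← Real.rpow_mul (by positivity)]
        congr 1; push_cast; ring
      have e2 : (N + η ^ 2) ^ (β - 1) = (N + η ^ 2) ^ (β - 2) * (N + η ^ 2) := by
        rw [show β - 1 = β - 2 + 1 by ring, Real.rpow_add (by positivity), Real.rpow_one]
      rw [e1, e2]
      apply mul_le_mul_of_nonneg_left _ (by positivity)
      linarith
    have h7 := hΛ N hN0
    set u : ℝ := (N + η ^ 2) ^ (β / 2 - 1) with hu
    set w : ℝ := (c * v ^ (c - 1)) ^ 2 with hw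
    have hw0 : 0 ≤ w := by rw [hw]; positivity
    set z2 : ℝ := Z' (x + v ^ c) ^ 2 with hz2
    have hz20 : 0 ≤ z2 := by rw [hz2]; positivity
    calc (D * (c * v ^ (c - 1)) * (β / 2) * u) ^ 2 = β ^ 2 / 4 * (u ^ 2 * D ^ 2) * w := by rw [hw]; ring
      _ ≤ β ^ 2 / 4 * (u ^ 2 * (4 * (N * z2))) * w := by gcongr
      _ = β ^ 2 * ((u ^ 2 * N) * z2) * w := by ring
      _ ≤ β ^ 2 * ((Λ * (1 + N) ^ (P / 2 - 1)) * z2) * w := by
          have := h6.trans h7
          gcongr
      _ = β ^ 2 * Λ * (((1 + N) ^ (P / 2 - 1) * z2) * w) := by ring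
      _ ≤ β ^ 2 * Λ * (Q P (x + v ^ c) * w) := by
          have hΛ0 : 0 ≤ Λ := by
            have h8 : 0 < (N + η ^ 2) ^ (β - 1) := by positivity
            have h9 : 0 < (1 + N) ^ (P / 2 - 1) := by positivity
            by_contra hcon
            have : Λ * (1 + N) ^ (P / 2 - 1) < 0 := mul_neg_of_neg_of_pos (not_le.1 hcon) h9
            linarith
          apply mul_le_mul_of_nonneg_left _ (by positivity)
          apply mul_le_mul_of_nonneg_right _ hw0
          unfold Q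
          apply mul_le_mul_of_nonneg_left _ (by positivity)
          rw [← hN, ← hz2]
          linarith

end Pool.Agent.N798.G
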