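import Pool.Agent.N798.Ls3
import Pool.Agent.TH158.FM.Main

/-!
The fourth moment and the sequences `α n^c`.
-/

set_option autoImplicit false

open MeasureTheory Set Filter Topology

namespace Pool.Agent.N798.Ls

open Pool.Agent.N798 Pool.Agent.R303.LM

lemma mom_four : MomExp 4 1 := by
  intro ε hε
  have hc := Zp_cont (p := 4) (by norm_num)
  set B : ℝ := ∫ t in (1:ℝ)..1000, Z t ^ (4:ℝ) with hB
  have hnn : ∀ t, 0 ≤ Z t ^ (4:ℝ) := fun t => Real.rpow_nonneg (Z_nonneg t) _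
  have hB0 : 0 ≤ B := intervalIntegral.integral_nonneg (by norm_num) fun t _ => hnn t
  have e4 : ∀ t : ℝ, Z t ^ (4:ℝ) = ‖riemannZeta (Pool.Agent.TH158.FM.pt (1 / 2) t)‖ ^ 4 := by
    intro t
    have : Z t = ‖riemannZeta (Pool.Agent.TH158.FM.pt (1 / 2) t)‖ := by
      unfold Z Pool.Agent.TH158.FM.pt
      congr 2
      push_cast; ring
    rw [this]
    exact_mod_cast Real.rpow_natCast _ 4
  refine ⟨B + 4 / 5 * (4 / ε) ^ 4, fun T hT => ?_⟩
  have hT0 : 0 < T := by linarith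
  have h1 : 1 ≤ T ^ (1 + ε) := Real.one_le_rpow hT (by linarith)
  have hA0 : 0 ≤ 4 / 5 * (4 / ε) ^ 4 := by positivity
  rcases le_total T 1000 with h2 | h2
  · have h3 : ∫ t in (1:ℝ)..T, Z t ^ (4:ℝ) ≤ B := by
      rw [hB]
      apply intervalIntegral.integral_mono_interval le_rfl hT h2
      · exact Eventually.of_forall fun t => hnn t
      · exact hc.intervalIntegrable _ _
    nlinarith
  · have h3 := Pool.Agent.TH158.FM.fourth_all T h2
    have h4 : ∫ t in (1:ℝ)..T, Z t ^ (4:ℝ) ≤ ∫ t in (0:ℝ)..T, Z t ^ (4:ℝ) := by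
      apply intervalIntegral.integral_mono_interval (by norm_num) hT le_rfl
      · exact Eventually.of_forall fun t => hnn t
      · exact hc.intervalIntegrable _ _
    have h5 : ∫ t in (0:ℝ)..T, Z t ^ (4:ℝ) = ∫ t in (0:ℝ)..T, ‖riemannZeta (Pool.Agent.TH158.FM.pt (1 / 2) t)‖ ^ 4 :=
      intervalIntegral.integral_congr fun t _ => e4 t
    have hl : Real.log T ≤ T ^ (ε / 4) / (ε / 4) := Real.log_le_rpow_div hT0.le (by positivity)
    have hl0 : 0 ≤ Real.log T := Real.log_nonneg hT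
    have hl4 : Real.log T ^ 4 ≤ (4 / ε) ^ 4 * T ^ ε := by
      calc Real.log T ^ 4 ≤ (T ^ (ε / 4) / (ε / 4)) ^ 4 := by gcongr
        _ = _ := by
          rw [div_pow, ← Real.rpow_natCast (T ^ (ε / 4)), ← Real.rpow_mul hT0.le]
          rw [show ε / 4 * ((4:ℕ):ℝ) = ε by push_cast; ring]
          field_simp
    calc ∫ t in (1:ℝ)..T, Z t ^ (4:ℝ) ≤ 4 / 5 * (T * Real.log T ^ 4) := by rw [h5] at h4; exact h4.trans h3
      _ ≤ 4 / 5 * (T * ((4 / ε) ^ 4 * T ^ ε)) := by gcongr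
      _ = 4 / 5 * (4 / ε) ^ 4 * T ^ (1 + ε) := by rw [Real.rpow_add hT0, Real.rpow_one]; ring
      _ ≤ (B + 4 / 5 * (4 / ε) ^ 4) * T ^ (1 + ε) := by
          apply mul_le_mul_of_nonneg_right (by linarith) (by positivity)

/-- unconditional bound along almost every sequence `α n^c` -/
theorem four_sparse (c : ℝ) (hc : 1 ≤ c) : ∀ᵐ α : ℝ, 0 < α → ∀ ε : ℝ, 0 < ε → ∃ C : ℝ, ∀ n : ℕ,
    Z (α * (n:ℝ) ^ c) ≤ C * (1 + (n:ℝ)) ^ (1 / 4 + ε) := by
  filter_upwards [(moments_sparse (p := 4) (M := 1) (by norm_num) le_rfl).1 mom_four c hc] with α hα h0 ε hε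
  obtain ⟨C, hC⟩ := hα h0 ε hε
  refine ⟨C, fun n => (hC n).trans (le_of_eq ?_)⟩
  congr 2; ring

end Pool.Agent.N798.Ls
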