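import Pool.Agent.N798.G11
import Pool.Agent.N798.Ls4

set_option autoImplicit false

/-! The powers of zeta along `x + v^c` satisfy the hypothesis of the sampling theorem. -/

namespace Pool.Agent.N798.G

open MeasureTheory Filter Topology Set
open Pool.Agent.R303.LM
open scoped ENNReal Real

lemma rpow_small {γ a b : ℝ} (hγ : 0 < γ) (hγ1 : γ ≤ 1) (ha : 0 ≤ a) (hb : 0 ≤ b) :
    (a + b) ^ γ ≤ a ^ γ + b ^ γ := by
  have := NNReal.rpow_add_le_add_rpow ⟨a, ha⟩ ⟨b, hb⟩ hγ.le hγ1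
  exact_mod_cast this

lemma rpow_big {γ a b : ℝ} (hγ : 1 ≤ γ) (ha : 0 ≤ a) (hb : 0 < b) (hb1 : b ≤ 1) :
    (a + b) ^ γ ≤ a ^ γ + γ * b * (a + 1) ^ γ := by
  have hab : 0 < a + b := by linarith
  have h1 := one_add_mul_self_le_rpow_one_add (s := -(b / (a + b))) (by
    rw [neg_le_neg_iff, div_le_one hab]; linarith) hγ
  have e1 : 1 + -(b / (a + b)) = a / (a + b) := by field_simp; ring
  rw [e1, Real.div_rpow ha hab.le, le_div_iff₀ (by positivity)] at h1
  have h2 : b / (a + b) * (a + b) ^ γ ≤ b * (a + 1) ^ γ := by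
    have h3 : (a + b) ^ γ = (a + b) * (a + b) ^ (γ - 1) := by
      rw [show γ = 1 + (γ - 1) by ring, Real.rpow_add hab, Real.rpow_one]
      congr 2; ring
    have h4 : b / (a + b) * (a + b) ^ γ = b * (a + b) ^ (γ - 1) := by
      rw [h3]; field_simp
    rw [h4]
    apply mul_le_mul_of_nonneg_left _ hb.le
    calc (a + b) ^ (γ - 1) ≤ (a + 1) ^ (γ - 1) := Real.rpow_le_rpow hab.le (by linarith) (by linarith)
      _ ≤ (a + 1) ^ γ := Real.rpow_le_rpow_of_exponent_le (by linarith) (by linarith)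
  nlinarith

/-- the function which is sampled -/
noncomputable def Hf (x c β v : ℝ) : ℝ := Z (x + |v| ^ c) ^ β

lemma Hf_cont {x c β : ℝ} (hc : 0 < c) (hβ : 0 < β) : Continuous (Hf x c β) := by
  unfold Hf
  have h1 : Continuous fun v : ℝ => x + |v| ^ c :=
    continuous_const.add (continuous_abs.rpow_const fun v => Or.inr hc.le)
  exact (Z_cont.comp h1).rpow_const fun v => Or.inr hβ.le

lemma Hf_nonneg (x c β v : ℝ) : 0 ≤ Hf x c β v := Real.rpow_nonneg (Z_nonneg _) _

lemma Hf_eq {x c β v : ℝ} (hv : 0 ≤ v) : Hf x c β v = Z (x + v ^ c) ^ β := by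
  unfold Hf; rw [abs_of_nonneg hv]

lemma Z_rpow (t β : ℝ) : Z t ^ β = (Z t ^ 2) ^ (β / 2) := by
  rw [← Real.rpow_natCast, ← Real.rpow_mul (Z_nonneg t)]
  congr 1; push_cast; ring

/-- **The hypothesis of the sampling theorem holds.** -/
theorem zeta_app {β c M : ℝ} (hβ : 0 < β) (hc : 1 ≤ c) (hM : 1 ≤ M) (hcM : c * M < 2) (h : MomExp (2 * β) M) (x : ℝ) :
    ∃ p q κ C : ℝ, 0 ≤ C ∧ p ≤ q ∧ p + q < 4 ∧ 0 < κ ∧ App (Hf x c β) p q κ C := by
  have hc0 : 0 < c := by linarith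
  set P : ℝ := max (2 * β) 2 with hPdef
  have hP2 : 2 ≤ P := le_max_right _ _
  have hPβ : 2 * β ≤ P := le_max_left _ _
  have hMP : MomExp P M := by
    rcases le_total 2 (2 * β) with h1 | h1
    · rw [hPdef, max_eq_left h1]; exact h
    · rw [hPdef, max_eq_right h1]
      exact momExp_mono hM (momExp_down (by norm_num) (by norm_num) le_rfl Pool.Agent.N798.Ls.mom_four)
  set g : ℝ := 2 - c * M with hg
  have hg0 : 0 < g := by rw [hg]; linarith
  set ε : ℝ := g / (4 * c) with hε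
  have hε0 : 0 < ε := by positivity
  have hcε : c * ε = g / 4 := by rw [hε]; field_simp
  set δ : ℝ := g / 4 with hδ
  have hδ0 : 0 < δ := by positivity
  obtain ⟨A, hA, hQ⟩ := Q_along hP2 hM hMP x hc hε0
  -- the choice of the smoothing
  obtain ⟨D, κ, hD0, hκ0, hΛ, hκβ, hκbig⟩ : ∃ D κ : ℝ, 0 < D ∧ 0 < κ ∧
      (∀ V : ℝ, 1 ≤ V → ∀ N : ℝ, 0 ≤ N →
        (N + (V ^ (-D)) ^ 2) ^ (β - 1) ≤ V ^ (2 * δ) * (1 + N) ^ (P / 2 - 1)) ∧
      κ ≤ D * β ∧ (2 < β → c * β - 2 * D ≤ -κ) := by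
    rcases le_or_gt 1 β with h1 | h1
    · refine ⟨c * β + 1, 1, by positivity, one_pos, fun V hV N hN => ?_, ?_, ?_⟩
      · have hV0 : 0 < V := by linarith
        have h2 : (V ^ (-(c * β + 1))) ^ 2 ≤ 1 := by
          apply pow_le_one₀ (by positivity)
          exact Real.rpow_le_one_of_one_le_of_nonpos hV (by nlinarith)
        have h3 : 1 ≤ V ^ (2 * δ) := Real.one_le_rpow hV (by positivity)
        calc (N + (V ^ (-(c * β + 1))) ^ 2) ^ (β - 1) ≤ (1 + N) ^ (β - 1) :=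
              Real.rpow_le_rpow (by positivity) (by linarith) (by linarith)
          _ ≤ (1 + N) ^ (P / 2 - 1) := Real.rpow_le_rpow_of_exponent_le (by linarith) (by linarith)
          _ ≤ _ := le_mul_of_one_le_left (by positivity) h3
      · have h2 : 0 ≤ c * β * β := by positivity
        nlinarith
      · intro _; nlinarith
    · refine ⟨δ, δ * β, hδ0, by positivity, fun V hV N hN => ?_, le_rfl, fun h2 => by linarith⟩
      have hV0 : 0 < V := by linarith
      have hP : P / 2 - 1 = 0 := by rw [hPdef, max_eq_right (by linarith)]; norm_num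
      rw [hP, Real.rpow_zero, mul_one]
      have h2 : 0 < (V ^ (-δ)) ^ 2 := by positivity
      calc (N + (V ^ (-δ)) ^ 2) ^ (β - 1) ≤ ((V ^ (-δ)) ^ 2) ^ (β - 1) :=
            Real.rpow_le_rpow_of_nonpos h2 (by linarith) (by linarith)
        _ = V ^ (2 * δ * (1 - β)) := by
            rw [← Real.rpow_natCast, ← Real.rpow_mul (by positivity), ← Real.rpow_mul hV0.le]
            congr 1; push_cast; ring
        _ ≤ V ^ (2 * δ) := Real.rpow_le_rpow_of_exponent_le hV (by nlinarith)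
  set C₁ : ℝ := 9 * (1 + |x| + 3 ^ c) with hC₁
  have hx := abs_nonneg x
  have hC₁0 : 0 < C₁ := by positivity
  set C : ℝ := 1 + β / 2 * (C₁ ^ 2 + 1) ^ (β / 2) + A * 3 ^ (c * (M + ε) + 1 - c) +
    β ^ 2 * (A * 3 ^ (c * (M + ε) + c - 1)) with hC
  have hc1 : 0 ≤ β / 2 * (C₁ ^ 2 + 1) ^ (β / 2) := by positivity
  have hc2 : 0 ≤ A * 3 ^ (c * (M + ε) + 1 - c) := by positivity
  have hc3 : 0 ≤ β ^ 2 * (A * 3 ^ (c * (M + ε) + c - 1)) := by positivity
  refine ⟨c * (M + ε) + 1 - c, c * (M + ε) + c - 1 + 2 * δ, κ, C, by positivity, by linarith, ?_, hκ0, ?_⟩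
  · have : c * (M + ε) = c * M + c * ε := by ring
    rw [this, hcε, hδ, hg]
    linarith
  intro V hV
  have hV0 : 0 < V := by linarith
  set η : ℝ := V ^ (-D) with hη
  have hη0 : 0 < η := by positivity
  have hη1 : η ≤ 1 := Real.rpow_le_one_of_one_le_of_nonpos hV (by linarith)
  obtain ⟨f, hf1, hf2, hf3, hf4⟩ := approx x (c := c) hβ hη0 hη1 hPβ (hΛ V hV)
  have h3V : 1 ≤ 3 * V := by linarith
  refine ⟨f, hf1, fun v hv => ?_, ?_, ?_⟩
  · have hv0 : 0 ≤ v := by linarith [hv.1]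
    rw [Hf_eq hv0, hf2 v hv.1, Z_rpow]
    set N : ℝ := Z (x + v ^ c) ^ 2 with hN
    have hN0 : 0 ≤ N := by rw [hN]; positivity
    have hb : 0 < η ^ 2 := by positivity
    have hb1 : η ^ 2 ≤ 1 := pow_le_one₀ hη0.le hη1
    have h1 : N ^ (β / 2) ≤ (N + η ^ 2) ^ (β / 2) := Real.rpow_le_rpow hN0 (by linarith) (by linarith)
    rw [abs_sub_comm, abs_of_nonneg (by linarith)]
    have hVκ : 0 < V ^ (-κ) := by positivity
    rcases le_or_gt β 2 with h2 | h2
    · have h3 := rpow_small (γ := β / 2) (by positivity) (by linarith) hN0 hb.le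
      have h4 : (η ^ 2) ^ (β / 2) ≤ V ^ (-κ) := by
        rw [← Real.rpow_natCast, ← Real.rpow_mul hη0.le, hη, ← Real.rpow_mul hV0.le]
        apply Real.rpow_le_rpow_of_exponent_le hV
        push_cast
        nlinarith
      have h5 : V ^ (-κ) ≤ C * V ^ (-κ) := le_mul_of_one_le_left hVκ.le (by rw [hC]; linarith)
      linarith
    · have h3 := rpow_big (γ := β / 2) (by linarith) hN0 hb hb1
      have h4 : N + 1 ≤ (C₁ ^ 2 + 1) * V ^ (2 * c) := by
        have h5 : Z (x + v ^ c) ≤ C₁ * V ^ c := by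
          refine (Z_le_triv _).trans ?_
          have h6 : |x + v ^ c| ≤ |x| + (3 * V) ^ c := by
            refine (abs_add_le _ _).trans ?_
            rw [abs_of_nonneg (by positivity : (0:ℝ) ≤ v ^ c)]
            have := Real.rpow_le_rpow hv0 hv.2 hc0.le
            linarith
          rw [Real.mul_rpow (by norm_num) hV0.le] at h6
          have h7 : 1 ≤ V ^ c := Real.one_le_rpow hV hc0.le
          rw [hC₁]
          nlinarith
        have h6 : N ≤ (C₁ * V ^ c) ^ 2 := by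
          rw [hN]; exact pow_le_pow_left₀ (Z_nonneg _) h5 2
        have h7 : (V ^ c) ^ 2 = V ^ (2 * c) := by
          rw [← Real.rpow_natCast, ← Real.rpow_mul hV0.le]; congr 1; push_cast; ring
        have h8 : 1 ≤ V ^ (2 * c) := Real.one_le_rpow hV (by positivity)
        rw [mul_pow, h7] at h6
        linarith
      have h5 : (N + 1) ^ (β / 2) ≤ (C₁ ^ 2 + 1) ^ (β / 2) * V ^ (c * β) := by
        calc (N + 1) ^ (β / 2) ≤ ((C₁ ^ 2 + 1) * V ^ (2 * c)) ^ (β / 2) :=
              Real.rpow_le_rpow (by positivity) h4 (by positivity)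
          _ = (C₁ ^ 2 + 1) ^ (β / 2) * V ^ (c * β) := by
              rw [Real.mul_rpow (by positivity) (by positivity), ← Real.rpow_mul hV0.le]
              congr 2; ring
      have h6 : η ^ 2 = V ^ (-(2 * D)) := by
        rw [hη, ← Real.rpow_natCast, ← Real.rpow_mul hV0.le]; congr 1; push_cast; ring
      have h7 : β / 2 * η ^ 2 * (N + 1) ^ (β / 2) ≤ C * V ^ (-κ) := by
        calc β / 2 * η ^ 2 * (N + 1) ^ (β / 2) ≤ β / 2 * η ^ 2 * ((C₁ ^ 2 + 1) ^ (β / 2) * V ^ (c * β)) := by gcongr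
          _ = β / 2 * (C₁ ^ 2 + 1) ^ (β / 2) * (V ^ (c * β) * V ^ (-(2 * D))) := by rw [h6]; ring
          _ = β / 2 * (C₁ ^ 2 + 1) ^ (β / 2) * V ^ (c * β - 2 * D) := by
              rw [← Real.rpow_add hV0]; congr 2
          _ ≤ β / 2 * (C₁ ^ 2 + 1) ^ (β / 2) * V ^ (-κ) := by
              apply mul_le_mul_of_nonneg_left _ hc1
              exact Real.rpow_le_rpow_of_exponent_le hV (hκbig h2)
          _ ≤ C * V ^ (-κ) := by
              apply mul_le_mul_of_nonneg_right _ hVκ.le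
              rw [hC]; linarith
      linarith
  · have h1 : ∫ v in (1:ℝ)..(3 * V), f v ^ 2 ≤ ∫ v in (1:ℝ)..(3 * V), Q P (x + v ^ c) :=
      intervalIntegral.integral_mono_on h3V ((hf1.continuous.pow 2).intervalIntegrable _ _)
        ((Qpow_cont P x hc).intervalIntegrable _ _) fun v hv => hf3 v hv.1
    refine h1.trans ((hQ _ h3V).1.trans ?_)
    rw [Real.mul_rpow (by norm_num) hV0.le, ← mul_assoc]
    apply mul_le_mul_of_nonneg_right _ (by positivity)
    rw [hC]; linarith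
  · have hpc : Continuous fun v : ℝ => c * v ^ (c - 1) :=
      continuous_const.mul (continuous_id.rpow_const fun v => Or.inr (by linarith))
    have h1 : ∫ v in (1:ℝ)..(3 * V), deriv f v ^ 2 ≤
        ∫ v in (1:ℝ)..(3 * V), β ^ 2 * V ^ (2 * δ) * (Q P (x + v ^ c) * (c * v ^ (c - 1)) ^ 2) :=
      intervalIntegral.integral_mono_on_of_le_Ioo h3V
        (((hf1.continuous_deriv le_rfl).pow 2).intervalIntegrable _ _)
        ((continuous_const.mul ((Qpow_cont P x hc).mul (hpc.pow 2))).intervalIntegrable _ _) fun v hv => hf4 v hv.1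
    rw [intervalIntegral.integral_const_mul] at h1
    refine h1.trans ?_
    calc β ^ 2 * V ^ (2 * δ) * ∫ v in (1:ℝ)..(3 * V), Q P (x + v ^ c) * (c * v ^ (c - 1)) ^ 2
        ≤ β ^ 2 * V ^ (2 * δ) * (A * (3 * V) ^ (c * (M + ε) + c - 1)) :=
          mul_le_mul_of_nonneg_left (hQ _ h3V).2 (by positivity)
      _ = β ^ 2 * (A * 3 ^ (c * (M + ε) + c - 1)) * (V ^ (c * (M + ε) + c - 1) * V ^ (2 * δ)) := by
          rw [Real.mul_rpow (by norm_num) hV0.le]; ring
      _ = β ^ 2 * (A * 3 ^ (c * (M + ε) + c - 1)) * V ^ (c * (M + ε) + c - 1 + 2 * δ) := by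
          rw [← Real.rpow_add hV0]
      _ ≤ C * V ^ (c * (M + ε) + c - 1 + 2 * δ) := by
          apply mul_le_mul_of_nonneg_right _ (by positivity)
          rw [hC]; linarith

end Pool.Agent.N798.G
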