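import Pool.Agent.N798.G12
import Pool.Agent.TH809.MZ.Fin

set_option autoImplicit false

/-! The sampling theorem for zeta. -/

namespace Pool.Agent.N798.G

open MeasureTheory Filter Topology Set
open Pool.Agent.R303.LM
open scoped ENNReal Real

/-- the unconditional moment bound -/
lemma mom_uncond {β : ℝ} (hβ : 0 < β) : MomExp (2 * β) (max 1 ((β + 1) / 3)) := by
  rcases le_or_gt (2 * β) 4 with h4 | h4
  · exact momExp_mono (le_max_left _ _) (momExp_down (by linarith) h4 le_rfl Pool.Agent.N798.Ls.mom_four)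
  refine momExp_mono (le_max_right _ _) ?_
  intro ε hε
  set k : ℝ := 2 * β - 4 with hk
  have hk0 : 0 < k := by rw [hk]; linarith
  obtain ⟨C, hC⟩ := Pool.Agent.TH809.MZ.growth_weyl (ε / 2 / k) (by positivity)
  obtain ⟨A, hA⟩ := Pool.Agent.N798.Ls.mom_four (ε / 2) (by positivity)
  set D : ℝ := |C| * 2 ^ (1 / 6 + ε / 2 / k) with hD
  refine ⟨D ^ k * A, fun T hT => ?_⟩
  have hT0 : 0 < T := by linarith
  have hpt : ∀ t ∈ Icc (1:ℝ) T, Z t ^ (2 * β) ≤ D ^ k * T ^ (k / 6 + ε / 2) * Z t ^ (4:ℝ) := by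
    intro t ht
    have ht0 : 0 < t := by linarith [ht.1]
    have h1 : Z t ≤ D * T ^ (1 / 6 + ε / 2 / k) := by
      have h2 := hC t
      have e : (⟨1 / 2, t⟩ : ℂ) = 1 / 2 + t * Complex.I := by apply Complex.ext <;> simp
      rw [e, abs_of_pos ht0] at h2
      refine (show Z t ≤ _ from h2).trans ?_
      rw [hD, mul_assoc, ← Real.mul_rpow (by norm_num) hT0.le]
      apply mul_le_mul (le_abs_self C) _ (by positivity) (abs_nonneg C)
      exact Real.rpow_le_rpow (by positivity) (by linarith [ht.1, ht.2]) (by positivity)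
    have h2 : Z t ^ k ≤ D ^ k * T ^ (k / 6 + ε / 2) := by
      calc Z t ^ k ≤ (D * T ^ (1 / 6 + ε / 2 / k)) ^ k := Real.rpow_le_rpow (Z_nonneg t) h1 hk0.le
        _ = D ^ k * T ^ (k / 6 + ε / 2) := by
            rw [Real.mul_rpow (by positivity) (by positivity), ← Real.rpow_mul hT0.le]
            congr 2; field_simp
    have e : Z t ^ (2 * β) = Z t ^ k * Z t ^ (4:ℝ) := by
      rw [← Real.rpow_add_of_nonneg (Z_nonneg t) hk0.le (by norm_num)]
      congr 1; rw [hk]; ring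
    rw [e]
    exact mul_le_mul_of_nonneg_right h2 (Real.rpow_nonneg (Z_nonneg t) _)
  have h1 : ∫ t in (1:ℝ)..T, Z t ^ (2 * β) ≤ ∫ t in (1:ℝ)..T, D ^ k * T ^ (k / 6 + ε / 2) * Z t ^ (4:ℝ) :=
    intervalIntegral.integral_mono_on hT ((Zp_cont (by linarith)).intervalIntegrable _ _)
      (((Zp_cont (by norm_num)).intervalIntegrable _ _).const_mul _) hpt
  rw [intervalIntegral.integral_const_mul] at h1
  refine h1.trans ?_
  have hD0 : 0 ≤ D := by positivity
  calc D ^ k * T ^ (k / 6 + ε / 2) * ∫ t in (1:ℝ)..T, Z t ^ (4:ℝ)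
      ≤ D ^ k * T ^ (k / 6 + ε / 2) * (A * T ^ (1 + ε / 2)) := mul_le_mul_of_nonneg_left (hA T hT) (by positivity)
    _ = D ^ k * A * (T ^ (k / 6 + ε / 2) * T ^ (1 + ε / 2)) := by ring
    _ = D ^ k * A * T ^ ((β + 1) / 3 + ε) := by
        rw [← Real.rpow_add hT0]; congr 2; rw [hk]; ring

/-- change of variables in the parameter -/
lemma ae_pow {c : ℝ} (hc : 0 < c) {p : ℝ → Prop} (h : ∀ᵐ a : ℝ, 0 < a → p a) :
    ∀ᵐ α : ℝ, 0 < α → p (α ^ (1 / c)) := by
  rw [ae_iff] at h ⊢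
  have h1 : DifferentiableOn ℝ (fun a : ℝ => a ^ c) {a | ¬ (0 < a → p a)} := by
    intro a ha
    have ha0 : 0 < a := by
      have : ¬ (0 < a → p a) := ha
      by_contra hcon
      exact this fun h => absurd h hcon
    exact (Real.differentiableAt_rpow_const_of_ne c ha0.ne').differentiableWithinAt
  refine measure_mono_null ?_ (addHaar_image_eq_zero_of_differentiableOn_of_addHaar_eq_zero volume h1 h)
  intro α hα
  have hα' : ¬ (0 < α → p (α ^ (1 / c))) := hα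
  rw [Classical.not_imp] at hα'
  refine ⟨α ^ (1 / c), fun hcon => hα'.2 (hcon (by have := hα'.1; positivity)), ?_⟩
  simp only
  rw [← Real.rpow_mul hα'.1.le, one_div, inv_mul_cancel₀ hc.ne', Real.rpow_one]

/-- the sum over the samples -/
noncomputable def Ss (β x c α : ℝ) (N : ℕ) : ℝ := ∑ n ∈ Finset.Icc 1 N, Z (x + α * (n:ℝ) ^ c) ^ β

/-- the integral with the same parametrization -/
noncomputable def Is (β x c α Y : ℝ) : ℝ := ∫ y in (0:ℝ)..Y, Z (x + α * y ^ c) ^ β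

/-- the two sided comparison -/
def Sand (I : ℝ → ℝ) (S : ℕ → ℝ) (η : ℝ) : Prop := ∀ᶠ N : ℕ in atTop,
  I (N - (N:ℝ) ^ (1 - η)) - (N:ℝ) ^ (1 - η) ≤ S N ∧ S N ≤ I (N + (N:ℝ) ^ (1 - η)) + (N:ℝ) ^ (1 - η)

/-- **The sampling theorem for zeta.** -/
theorem sampling {β c M : ℝ} (hβ : 0 < β) (hc : 1 ≤ c) (hM : 1 ≤ M) (hcM : c * M < 2) (h : MomExp (2 * β) M) (x : ℝ) :
    ∃ η : ℝ, 0 < η ∧ η < 1 ∧ ∀ᵐ α : ℝ, 0 < α → Sand (Is β x c α) (Ss β x c α) η := by
  have hc0 : 0 < c := by linarith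
  obtain ⟨p, q, κ, C, hC, hpq, hpq4, hκ, happ⟩ := zeta_app hβ hc hM hcM h x
  obtain ⟨η, hη0, hη1, hae⟩ := ast (Hf_cont hc0 hβ) (Hf_nonneg x c β) hC hpq hpq4 hκ happ
  refine ⟨η, hη0, hη1, ?_⟩
  filter_upwards [ae_pow hc0 hae] with α hα hα0
  have ha0 : 0 < α ^ (1 / c) := by positivity
  have hval : ∀ y : ℝ, 0 ≤ y → Hf x c β (α ^ (1 / c) * y) = Z (x + α * y ^ c) ^ β := by
    intro y hy
    rw [Hf_eq (by positivity), Real.mul_rpow ha0.le hy, ← Real.rpow_mul hα0.le, one_div, inv_mul_cancel₀ hc0.ne',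
      Real.rpow_one]
  have hint : ∀ Y : ℝ, 0 ≤ Y → ∫ y in (0:ℝ)..Y, Hf x c β (α ^ (1 / c) * y) = Is β x c α Y := by
    intro Y hY
    unfold Is
    apply intervalIntegral.integral_congr
    intro y hy
    rw [uIcc_of_le hY] at hy
    exact hval y hy.1
  unfold Sand
  filter_upwards [hα hα0, eventually_ge_atTop 1] with N hN hN1
  have hN1' : (1:ℝ) ≤ N := by exact_mod_cast hN1
  have hle : (N:ℝ) ^ (1 - η) ≤ N := by
    have := Real.rpow_le_rpow_of_exponent_le hN1' (show 1 - η ≤ 1 by linarith)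
    rwa [Real.rpow_one] at this
  have hpos : 0 ≤ (N:ℝ) ^ (1 - η) := by positivity
  rw [hint _ (by linarith), hint _ (by positivity)] at hN
  have hs : ∑ n ∈ Finset.Icc 1 N, Hf x c β (α ^ (1 / c) * n) = Ss β x c α N :=
    Finset.sum_congr rfl fun n _ => hval n (Nat.cast_nonneg n)
  rw [hs] at hN
  exact hN

end Pool.Agent.N798.G
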