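import Mathlib

set_option autoImplicit false

/-! Transfer of asymptotic formulas with powers of the logarithm. -/

namespace Pool.Agent.N798.G

open MeasureTheory Filter Topology Set
open scoped Real

/-- `Y^p (log Y)^s` -/
noncomputable def Ps (p s Y : ℝ) : ℝ := Y ^ p * Real.log Y ^ s

lemma Ps_pos {p s Y : ℝ} (hY : 1 < Y) : 0 < Ps p s Y := by
  unfold Ps
  have h1 := Real.log_pos hY
  have h2 : 0 < Y := by linarith
  positivity

lemma Ps_add {p q s Y : ℝ} (hY : 0 < Y) : Ps (p + q) s Y = Y ^ p * Ps q s Y := by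
  unfold Ps; rw [Real.rpow_add hY]; ring

lemma one_le_log : ∀ᶠ Y : ℝ in atTop, 1 ≤ Real.log Y := Real.tendsto_log_atTop.eventually_ge_atTop 1

/-- ratio of the comparison functions at two close points -/
lemma Ps_ratio {ι : Type*} {l : Filter ι} {u v : ι → ℝ} {p s : ℝ} (hv : Tendsto v l atTop)
    (huv : Tendsto (fun i => u i / v i) l (𝓝 1)) :
    Tendsto (fun i => Ps p s (u i) / Ps p s (v i)) l (𝓝 1) := by
  have hv1 : ∀ᶠ i in l, 1 < v i := hv.eventually_gt_atTop 1
  have hu : Tendsto u l atTop := by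
    have h1 : Tendsto (fun i => u i / v i * v i) l atTop := huv.pos_mul_atTop one_pos hv
    refine h1.congr' ?_
    filter_upwards [hv1] with i hi
    rw [div_mul_cancel₀ _ (by linarith)]
  have hu1 : ∀ᶠ i in l, 1 < u i := hu.eventually_gt_atTop 1
  have h1 : Tendsto (fun i => Real.log (u i / v i) / Real.log (v i)) l (𝓝 0) := by
    have h2 : Tendsto (fun i => Real.log (u i / v i)) l (𝓝 0) := by
      have := (Real.continuousAt_log one_ne_zero).tendsto.comp huv
      rwa [Real.log_one] at this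
    exact h2.div_atTop (Real.tendsto_log_atTop.comp hv)
  have h2 : Tendsto (fun i => Real.log (u i) / Real.log (v i)) l (𝓝 1) := by
    have h3 := h1.const_add 1
    rw [add_zero] at h3
    refine h3.congr' ?_
    filter_upwards [hv1, hu1] with i hi hi2
    have h4 := Real.log_pos hi
    rw [Real.log_div (by linarith) (by linarith)]
    field_simp
    ring
  have h3 : Tendsto (fun i => (u i / v i) ^ p * (Real.log (u i) / Real.log (v i)) ^ s) l (𝓝 1) := by
    have h4 := (huv.rpow_const (p := p) (Or.inl one_ne_zero)).mul (h2.rpow_const (p := s) (Or.inl one_ne_zero))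
    simpa using h4
  refine h3.congr' ?_
  filter_upwards [hv1, hu1] with i hi hi2
  unfold Ps
  rw [Real.div_rpow (by linarith) (by linarith), Real.div_rpow (Real.log_pos hi2).le (Real.log_pos hi).le,
    div_mul_div_comm]

/-- the power saving is negligible -/
lemma small_ratio {ι : Type*} {l : Filter ι} {u v : ι → ℝ} {η s : ℝ} (hη : 0 < η) (hη1 : η < 1) (hs : 0 ≤ s) (hv : Tendsto v l atTop)
    (huv : Tendsto (fun i => u i / v i) l (𝓝 1)) :
    Tendsto (fun i => u i ^ (1 - η) / Ps 1 s (v i)) l (𝓝 0) := by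
  have hv1 : ∀ᶠ i in l, 1 < v i := hv.eventually_gt_atTop 1
  have h1 : Tendsto (fun i => (u i / v i) ^ (1 - η) * v i ^ (-η)) l (𝓝 0) := by
    have h2 := (huv.rpow_const (p := 1 - η) (Or.inl one_ne_zero)).mul ((tendsto_rpow_neg_atTop hη).comp hv)
    simpa using h2
  have hpos : ∀ᶠ i in l, 0 < u i := by
    have hu : Tendsto u l atTop := by
      have h1 : Tendsto (fun i => u i / v i * v i) l atTop := huv.pos_mul_atTop one_pos hv
      refine h1.congr' ?_
      filter_upwards [hv1] with i hi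
      rw [div_mul_cancel₀ _ (by linarith)]
    exact hu.eventually_gt_atTop 0
  refine tendsto_of_tendsto_of_tendsto_of_le_of_le' tendsto_const_nhds h1 ?_ ?_
  · filter_upwards [hv1, hpos] with i hi hi2
    have := Ps_pos (p := 1) (s := s) hi
    positivity
  · filter_upwards [hv1, hpos, hv.eventually one_le_log] with i hi hi2 hi3
    have hv0 : 0 < v i := by linarith
    have h2 : u i ^ (1 - η) = (u i / v i) ^ (1 - η) * v i ^ (1 - η) := by
      rw [← Real.mul_rpow (by positivity) hv0.le, div_mul_cancel₀ _ hv0.ne']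
    have h3 : v i ^ (1 - η) = v i ^ (-η) * v i := by
      rw [show 1 - η = -η + 1 by ring, Real.rpow_add hv0, Real.rpow_one]
    have h4 : v i ≤ Ps 1 s (v i) := by
      unfold Ps
      rw [Real.rpow_one]
      exact le_mul_of_one_le_right hv0.le (Real.one_le_rpow hi3 hs)
    have h5 := Ps_pos (p := 1) (s := s) hi
    rw [div_le_iff₀ h5, h2, h3]
    calc (u i / v i) ^ (1 - η) * (v i ^ (-η) * v i) = (u i / v i) ^ (1 - η) * v i ^ (-η) * v i := by ring
      _ ≤ _ := mul_le_mul_of_nonneg_left h4 (by positivity)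

/-- composition -/
lemma comp_ratio {ι : Type*} {l : Filter ι} {u v : ι → ℝ} {p s κ : ℝ} {J : ℝ → ℝ}
    (hJ : Tendsto (fun Y => J Y / Ps p s Y) atTop (𝓝 κ)) (hv : Tendsto v l atTop)
    (huv : Tendsto (fun i => u i / v i) l (𝓝 1)) : Tendsto (fun i => J (u i) / Ps p s (v i)) l (𝓝 κ) := by
  have hv1 : ∀ᶠ i in l, 1 < v i := hv.eventually_gt_atTop 1
  have hu : Tendsto u l atTop := by
    have h1 : Tendsto (fun i => u i / v i * v i) l atTop := huv.pos_mul_atTop one_pos hv
    refine h1.congr' ?_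
    filter_upwards [hv1] with i hi
    rw [div_mul_cancel₀ _ (by linarith)]
  have h1 := (hJ.comp hu).mul (Ps_ratio (p := p) (s := s) hv huv)
  rw [mul_one] at h1
  refine h1.congr' ?_
  filter_upwards [hu.eventually_gt_atTop 1] with i hi
  have := (Ps_pos (p := p) (s := s) hi).ne'
  simp only [Function.comp_apply]
  field_simp

/-- the shift by a power saving -/
lemma shift_ratio {η : ℝ} (hη : 0 < η) (k : ℝ) : Tendsto (fun Y : ℝ => (Y + k * Y ^ (1 - η)) / Y) atTop (𝓝 1) := by
  have h1 := ((tendsto_rpow_neg_atTop hη).const_mul k).const_add 1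
  rw [mul_zero, add_zero] at h1
  refine h1.congr' ?_
  filter_upwards [eventually_gt_atTop 0] with Y hY
  rw [show 1 - η = 1 + -η by ring, Real.rpow_add hY, Real.rpow_one]
  field_simp

/-- **Sums and integrals, asymptotic formulas.** -/
theorem tends_iff {I : ℝ → ℝ} (hI : Monotone I) {S : ℕ → ℝ} {η : ℝ} (hη : 0 < η) (hη1 : η < 1)
    (h : ∀ᶠ N : ℕ in atTop,
      I (N - (N:ℝ) ^ (1 - η)) - (N:ℝ) ^ (1 - η) ≤ S N ∧ S N ≤ I (N + (N:ℝ) ^ (1 - η)) + (N:ℝ) ^ (1 - η))
    {s κ : ℝ} (hs : 0 ≤ s) :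
    Tendsto (fun Y => I Y / Ps 1 s Y) atTop (𝓝 κ) ↔ Tendsto (fun N : ℕ => S N / Ps 1 s N) atTop (𝓝 κ) := by
  have hN : Tendsto (fun N : ℕ => (N:ℝ)) atTop atTop := tendsto_natCast_atTop_atTop
  have h11 : Tendsto (fun N : ℕ => (N:ℝ) / N) atTop (𝓝 1) := by
    refine tendsto_const_nhds.congr' ?_
    filter_upwards [eventually_ge_atTop 1] with N hN
    have : (N:ℝ) ≠ 0 := by positivity
    field_simp
  constructor
  · intro hI'
    have a1 : Tendsto (fun N : ℕ => I (N - (N:ℝ) ^ (1 - η)) / Ps 1 s N) atTop (𝓝 κ) := by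
      apply comp_ratio hI' hN
      have := (shift_ratio hη (-1)).comp hN
      refine this.congr fun N => ?_
      simp only [Function.comp_apply]; ring
    have a2 : Tendsto (fun N : ℕ => I (N + (N:ℝ) ^ (1 - η)) / Ps 1 s N) atTop (𝓝 κ) := by
      apply comp_ratio hI' hN
      have := (shift_ratio hη 1).comp hN
      refine this.congr fun N => ?_
      simp only [Function.comp_apply]; ring
    have a3 := small_ratio (u := fun N : ℕ => (N:ℝ)) hη hη1 hs hN h11
    have b1 := a1.sub a3
    have b2 := a2.add a3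
    rw [sub_zero] at b1
    rw [add_zero] at b2
    refine tendsto_of_tendsto_of_tendsto_of_le_of_le' b1 b2 ?_ ?_
    · filter_upwards [h, hN.eventually_gt_atTop 1] with N hN1 hN2
      rw [← sub_div]
      exact div_le_div_of_nonneg_right hN1.1 (Ps_pos hN2).le
    · filter_upwards [h, hN.eventually_gt_atTop 1] with N hN1 hN2
      rw [← add_div]
      exact div_le_div_of_nonneg_right hN1.2 (Ps_pos hN2).le
  · intro hS
    -- the two neighbours
    have hid : Tendsto (fun Y : ℝ => Y) atTop atTop := tendsto_id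
    have hup := shift_ratio hη 2
    have hdn := shift_ratio hη (-2)
    have hinv : Tendsto (fun Y : ℝ => Y⁻¹) atTop (𝓝 0) := tendsto_inv_atTop_zero
    have n1 : Tendsto (fun Y : ℝ => ((⌈Y + 2 * Y ^ (1 - η)⌉₊ : ℕ) : ℝ) / Y) atTop (𝓝 1) := by
      refine tendsto_of_tendsto_of_tendsto_of_le_of_le' hup (by simpa using hup.add hinv) ?_ ?_
      · filter_upwards [eventually_gt_atTop 0] with Y hY
        exact div_le_div_of_nonneg_right (Nat.le_ceil _) hY.le
      · filter_upwards [eventually_gt_atTop 0] with Y hY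
        rw [← one_div, ← add_div]
        exact div_le_div_of_nonneg_right (Nat.ceil_lt_add_one (by positivity)).le hY.le
    have n2 : Tendsto (fun Y : ℝ => ((⌊Y + -2 * Y ^ (1 - η)⌋₊ : ℕ) : ℝ) / Y) atTop (𝓝 1) := by
      refine tendsto_of_tendsto_of_tendsto_of_le_of_le' (by simpa using hdn.sub hinv) hdn ?_ ?_
      · filter_upwards [eventually_gt_atTop 0] with Y hY
        rw [← one_div, ← sub_div]
        exact div_le_div_of_nonneg_right (by have := (Nat.lt_floor_add_one (Y + -2 * Y ^ (1 - η))).le; linarith) hY.le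
      · filter_upwards [eventually_gt_atTop 0, hdn.eventually_const_lt zero_lt_one] with Y hY hY2
        apply div_le_div_of_nonneg_right (Nat.floor_le _) hY.le
        rw [lt_div_iff₀ hY] at hY2
        linarith
    have htop : ∀ {u : ℝ → ℕ}, Tendsto (fun Y => (u Y : ℝ) / Y) atTop (𝓝 1) → Tendsto u atTop atTop := by
      intro u hu
      have h1 : Tendsto (fun Y : ℝ => (u Y : ℝ) / Y * Y) atTop atTop := hu.pos_mul_atTop one_pos hid
      have h2 : Tendsto (fun Y => (u Y : ℝ)) atTop atTop := by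
        refine h1.congr' ?_
        filter_upwards [eventually_gt_atTop 0] with Y hY
        rw [div_mul_cancel₀ _ hY.ne']
      exact tendsto_natCast_atTop_iff.1 h2
    have key : ∀ {u : ℝ → ℕ}, Tendsto (fun Y => (u Y : ℝ) / Y) atTop (𝓝 1) →
        Tendsto (fun Y => S (u Y) / Ps 1 s Y) atTop (𝓝 κ) := by
      intro u hu
      have h1 := (hS.comp (htop hu)).mul (Ps_ratio (p := 1) (s := s) hid hu)
      rw [mul_one] at h1
      refine h1.congr' ?_
      filter_upwards [(htop hu).eventually_gt_atTop 1] with Y hY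
      have hY' : (1:ℝ) < u Y := by exact_mod_cast hY
      have := (Ps_pos (p := 1) (s := s) hY').ne'
      simp only [Function.comp_apply]
      field_simp
    have c1 := (key n1).add (small_ratio hη hη1 hs hid n1)
    have c2 := (key n2).sub (small_ratio hη hη1 hs hid n2)
    rw [add_zero] at c1
    rw [sub_zero] at c2
    refine tendsto_of_tendsto_of_tendsto_of_le_of_le' c2 c1 ?_ ?_
    · filter_upwards [(htop n2).eventually h, eventually_gt_atTop 1, hdn.eventually_const_lt zero_lt_one] with Y h1 h2 h3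
      rw [← sub_div]
      apply div_le_div_of_nonneg_right _ (Ps_pos h2).le
      have h4 : ((⌊Y + -2 * Y ^ (1 - η)⌋₊ : ℕ) : ℝ) ≤ Y + -2 * Y ^ (1 - η) := by
        apply Nat.floor_le
        rw [lt_div_iff₀ (by linarith)] at h3
        linarith
      have h5 : 0 < Y ^ (1 - η) := by positivity
      have h6 : ((⌊Y + -2 * Y ^ (1 - η)⌋₊ : ℕ) : ℝ) ^ (1 - η) ≤ Y ^ (1 - η) :=
        Real.rpow_le_rpow (Nat.cast_nonneg _) (by linarith) (by linarith)
      have h7 := hI (show ((⌊Y + -2 * Y ^ (1 - η)⌋₊ : ℕ) : ℝ) + ((⌊Y + -2 * Y ^ (1 - η)⌋₊ : ℕ) : ℝ) ^ (1 - η) ≤ Y by linarith)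
      linarith [h1.2]
    · filter_upwards [(htop n1).eventually h, eventually_gt_atTop 1, n1.eventually_lt_const (show (1:ℝ) < 2 by norm_num)]
        with Y h1 h2 h3
      rw [← add_div]
      apply div_le_div_of_nonneg_right _ (Ps_pos h2).le
      rw [div_lt_iff₀ (by linarith)] at h3
      have h4 := Nat.le_ceil (Y + 2 * Y ^ (1 - η))
      have h5 : ((⌈Y + 2 * Y ^ (1 - η)⌉₊ : ℕ) : ℝ) ^ (1 - η) ≤ 2 * Y ^ (1 - η) := by
        calc ((⌈Y + 2 * Y ^ (1 - η)⌉₊ : ℕ) : ℝ) ^ (1 - η) ≤ (2 * Y) ^ (1 - η) :=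
              Real.rpow_le_rpow (Nat.cast_nonneg _) h3.le (by linarith)
          _ = 2 ^ (1 - η) * Y ^ (1 - η) := Real.mul_rpow (by norm_num) (by linarith)
          _ ≤ 2 * Y ^ (1 - η) := by
              apply mul_le_mul_of_nonneg_right _ (by positivity)
              have := Real.rpow_le_rpow_of_exponent_le (show (1:ℝ) ≤ 2 by norm_num) (show 1 - η ≤ 1 by linarith)
              rwa [Real.rpow_one] at this
      have h7 := hI (show Y ≤ ((⌈Y + 2 * Y ^ (1 - η)⌉₊ : ℕ) : ℝ) - ((⌈Y + 2 * Y ^ (1 - η)⌉₊ : ℕ) : ℝ) ^ (1 - η) by linarith)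
      linarith [h1.1]

end Pool.Agent.N798.G
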