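import Pool.Agent.N798.G14

set_option autoImplicit false

/-! Transfer of asymptotic formulas with powers of the logarithm: weights. -/

namespace Pool.Agent.N798.G

open MeasureTheory Filter Topology Set
open scoped Real

lemma Ps_mono {p s a b : ℝ} (hp : 0 ≤ p) (hs : 0 ≤ s) (ha : 1 ≤ a) (hab : a ≤ b) : Ps p s a ≤ Ps p s b := by
  unfold Ps
  have h1 := Real.log_nonneg ha
  have h2 : Real.log a ≤ Real.log b := Real.log_le_log (by linarith) hab
  have h3 : (0:ℝ) ≤ b := by linarith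
  exact mul_le_mul (Real.rpow_le_rpow (by linarith) hab hp) (Real.rpow_le_rpow h1 h2 hs)
    (Real.rpow_nonneg h1 _) (Real.rpow_nonneg h3 _)

lemma Ps_scale {p s k : ℝ} (hk : 0 < k) : Tendsto (fun Y => Ps p s (k * Y) / Ps p s Y) atTop (𝓝 (k ^ p)) := by
  have h1 : Tendsto (fun Y : ℝ => Real.log k / Real.log Y) atTop (𝓝 0) :=
    tendsto_const_nhds.div_atTop Real.tendsto_log_atTop
  have h2 : Tendsto (fun Y : ℝ => Real.log (k * Y) / Real.log Y) atTop (𝓝 1) := by
    have h3 := h1.add_const 1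
    rw [zero_add] at h3
    refine h3.congr' ?_
    filter_upwards [eventually_gt_atTop 1] with Y hY
    have h4 := Real.log_pos hY
    rw [Real.log_mul hk.ne' (by linarith)]
    field_simp
  have h3 : Tendsto (fun Y : ℝ => k ^ p * (Real.log (k * Y) / Real.log Y) ^ s) atTop (𝓝 (k ^ p)) := by
    have h4 := (h2.rpow_const (p := s) (Or.inl one_ne_zero)).const_mul (k ^ p)
    simpa using h4
  refine h3.congr' ?_
  have hk1 : Tendsto (fun Y : ℝ => k * Y) atTop atTop := tendsto_id.const_mul_atTop hk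
  filter_upwards [eventually_gt_atTop 1, hk1.eventually_gt_atTop 1] with Y hY hY2
  have h4 := Real.log_pos hY
  have h5 := Real.log_pos hY2
  have h6 : 0 < Y := by linarith
  unfold Ps
  rw [Real.div_rpow h5.le h4.le, Real.mul_rpow hk.le h6.le]
  have : Y ^ p ≠ 0 := by positivity
  field_simp

lemma Ps_scale_le {p s k : ℝ} (hk : 0 < k) : ∀ᶠ Y in atTop, Ps p s (k * Y) ≤ (k ^ p + 1) * Ps p s Y := by
  filter_upwards [(Ps_scale (p := p) (s := s) hk).eventually_lt_const (show k ^ p < k ^ p + 1 by linarith),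
    eventually_gt_atTop 1] with Y h1 h2
  rw [div_lt_iff₀ (Ps_pos h2)] at h1
  exact h1.le

lemma self_le_Ps {s Y : ℝ} (hs : 0 ≤ s) (hY : 0 ≤ Y) (h : 1 ≤ Real.log Y) : Y ≤ Ps 1 s Y := by
  unfold Ps
  rw [Real.rpow_one]
  exact le_mul_of_one_le_right hY (Real.one_le_rpow h hs)

/-- **Sums and integrals, upper bounds.** -/
theorem bdd_iff {I : ℝ → ℝ} (hI : Monotone I) {S : ℕ → ℝ} {η : ℝ} (hη : 0 < η) (hη1 : η < 1)
    (h : ∀ᶠ N : ℕ in atTop,
      I (N - (N:ℝ) ^ (1 - η)) - (N:ℝ) ^ (1 - η) ≤ S N ∧ S N ≤ I (N + (N:ℝ) ^ (1 - η)) + (N:ℝ) ^ (1 - η))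
    {s : ℝ} (hs : 0 ≤ s) :
    (∃ C, ∀ᶠ Y in atTop, I Y ≤ C * Ps 1 s Y) ↔ (∃ C, ∀ᶠ N : ℕ in atTop, S N ≤ C * Ps 1 s N) := by
  have hN : Tendsto (fun N : ℕ => (N:ℝ)) atTop atTop := tendsto_natCast_atTop_atTop
  have h2Y : Tendsto (fun Y : ℝ => 2 * Y) atTop atTop := tendsto_id.const_mul_atTop two_pos
  constructor
  · rintro ⟨C, hC⟩
    refine ⟨|C| * (2 ^ (1:ℝ) + 1) + 1, ?_⟩
    have h1 := hN.eventually (h2Y.eventually hC)
    have h2 := hN.eventually (Ps_scale_le (p := 1) (s := s) two_pos)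
    filter_upwards [h, h1, h2, hN.eventually one_le_log, hN.eventually_gt_atTop 1] with N h3 h4 h5 h6 h7
    have h8 : (N:ℝ) ^ (1 - η) ≤ N := by
      have := Real.rpow_le_rpow_of_exponent_le h7.le (show 1 - η ≤ 1 by linarith)
      rwa [Real.rpow_one] at this
    have h9 := hI (show (N:ℝ) + (N:ℝ) ^ (1 - η) ≤ 2 * N by linarith)
    have h10 := self_le_Ps hs (by linarith) h6
    have h11 : 0 < Ps 1 s (2 * N) := Ps_pos (by linarith)
    have h12 : C * Ps 1 s (2 * N) ≤ |C| * ((2 ^ (1:ℝ) + 1) * Ps 1 s N) :=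
      (mul_le_mul_of_nonneg_right (le_abs_self C) h11.le).trans (mul_le_mul_of_nonneg_left h5 (abs_nonneg C))
    calc S N ≤ I (N + (N:ℝ) ^ (1 - η)) + (N:ℝ) ^ (1 - η) := h3.2
      _ ≤ |C| * ((2 ^ (1:ℝ) + 1) * Ps 1 s N) + Ps 1 s N := by linarith
      _ = _ := by ring
  · rintro ⟨C, hC⟩
    refine ⟨|C| * (3 ^ (1:ℝ) + 1) + (3 ^ (1:ℝ) + 1), ?_⟩
    have hu : Tendsto (fun Y : ℝ => ⌈2 * Y⌉₊) atTop atTop := by
      apply tendsto_natCast_atTop_iff (R := ℝ).1
      exact tendsto_atTop_mono (fun Y => Nat.le_ceil _) h2Y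
    have hsm : ∀ᶠ N : ℕ in atTop, (N:ℝ) ^ (1 - η) ≤ N / 2 := by
      have h1 := (tendsto_rpow_atTop hη).comp hN
      filter_upwards [h1.eventually_ge_atTop 2, hN.eventually_gt_atTop 0] with N h2 h3
      simp only [Function.comp_apply] at h2
      have e : (N:ℝ) = (N:ℝ) ^ η * (N:ℝ) ^ (1 - η) := by
        rw [← Real.rpow_add h3]; simp
      have h4 : 0 < (N:ℝ) ^ (1 - η) := by positivity
      nlinarith
    filter_upwards [hu.eventually h, hu.eventually hC, hu.eventually hsm, Ps_scale_le (p := 1) (s := s) (k := 3) (by norm_num),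
      one_le_log, eventually_gt_atTop 1, (tendsto_id.const_mul_atTop (show (0:ℝ) < 3 by norm_num)).eventually one_le_log]
      with Y h1 h2 h3 h4 h5 h6 h66
    simp only [id] at h66
    set N : ℕ := ⌈2 * Y⌉₊ with hNdef
    have h7 : 2 * Y ≤ N := Nat.le_ceil _
    have h8 : (N:ℝ) ≤ 3 * Y := by
      have := (Nat.ceil_lt_add_one (show 0 ≤ 2 * Y by linarith)).le
      linarith
    have h9 := hI (show Y ≤ (N:ℝ) - (N:ℝ) ^ (1 - η) by linarith)
    have h10 : Ps 1 s N ≤ (3 ^ (1:ℝ) + 1) * Ps 1 s Y :=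
      (Ps_mono (by norm_num) hs (by linarith) h8).trans h4
    have h11 : 0 < Ps 1 s N := Ps_pos (by linarith)
    have h12 : C * Ps 1 s N ≤ |C| * ((3 ^ (1:ℝ) + 1) * Ps 1 s Y) :=
      (mul_le_mul_of_nonneg_right (le_abs_self C) h11.le).trans (mul_le_mul_of_nonneg_left h10 (abs_nonneg C))
    have h13 : (N:ℝ) ≤ (3 ^ (1:ℝ) + 1) * Ps 1 s Y := by
      refine h8.trans ((self_le_Ps hs (by linarith) h66).trans h4)
    have h14 : 0 ≤ (N:ℝ) := Nat.cast_nonneg N
    calc I Y ≤ S N + (N:ℝ) ^ (1 - η) := by linarith [h1.1]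
      _ ≤ |C| * ((3 ^ (1:ℝ) + 1) * Ps 1 s Y) + (3 ^ (1:ℝ) + 1) * Ps 1 s Y := by linarith
      _ = _ := by ring

lemma Ps_deriv {q s y : ℝ} (hy : 1 < y) :
    HasDerivAt (Ps (q + 1) s) ((q + 1) * Ps q s y + s * Ps q (s - 1) y) y := by
  have hy0 : 0 < y := by linarith
  have hl := Real.log_pos hy
  have h1 : HasDerivAt (fun y : ℝ => y ^ (q + 1)) ((q + 1) * y ^ (q + 1 - 1)) y :=
    Real.hasDerivAt_rpow_const (Or.inl hy0.ne')
  have h2 : HasDerivAt (fun y : ℝ => Real.log y ^ s) (y⁻¹ * s * Real.log y ^ (s - 1)) y :=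
    (Real.hasDerivAt_log hy0.ne').rpow_const (Or.inl hl.ne')
  have h3 := h1.mul h2
  have e : (q + 1) * Ps q s y + s * Ps q (s - 1) y =
      (q + 1) * y ^ (q + 1 - 1) * Real.log y ^ s + y ^ (q + 1) * (y⁻¹ * s * Real.log y ^ (s - 1)) := by
    unfold Ps
    rw [show q + 1 - 1 = q by ring, Real.rpow_add hy0, Real.rpow_one]
    field_simp
  rw [e]
  exact h3

/-- the theorem of Karamata for powers and logarithms -/
lemma kar {g : ℝ → ℝ} (hg : ∀ a b, 1 ≤ a → a ≤ b → IntervalIntegrable g volume a b) {q s κ : ℝ} (hq : -1 < q)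
    (hs : 0 ≤ s) (h : Tendsto (fun y => g y / Ps q s y) atTop (𝓝 κ)) :
    Tendsto (fun Y => (∫ y in (1:ℝ)..Y, g y) / Ps (q + 1) s Y) atTop (𝓝 (κ / (q + 1))) := by
  have hq1 : 0 < q + 1 := by linarith
  set hd : ℝ → ℝ := fun y => ((q + 1) * Ps q s y + s * Ps q (s - 1) y) / (q + 1) with hhd
  have hd0 : ∀ y, 1 < y → 0 < hd y := by
    intro y hy
    have h1 := Ps_pos (p := q) (s := s) hy
    have h2 := Ps_pos (p := q) (s := s - 1) hy
    simp only [hhd]
    positivity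
  have hdr : Tendsto (fun y => Ps q s y / hd y) atTop (𝓝 1) := by
    have h1 : Tendsto (fun y : ℝ => s / (q + 1) / Real.log y) atTop (𝓝 0) :=
      tendsto_const_nhds.div_atTop Real.tendsto_log_atTop
    have h2 := (h1.const_add 1).inv₀ (by norm_num)
    rw [add_zero, inv_one] at h2
    refine h2.congr' ?_
    filter_upwards [eventually_gt_atTop 1] with y hy
    have hl := Real.log_pos hy
    have h3 : Ps q (s - 1) y = Ps q s y / Real.log y := by
      unfold Ps
      rw [Real.rpow_sub hl, Real.rpow_one]; ring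
    simp only [hhd]
    rw [h3]
    have h4 := (Ps_pos (p := q) (s := s) hy).ne'
    field_simp
  have hgd : Tendsto (fun y => g y / hd y) atTop (𝓝 κ) := by
    have h1 := h.mul hdr
    rw [mul_one] at h1
    refine h1.congr' ?_
    filter_upwards [eventually_gt_atTop 1] with y hy
    have h4 := (Ps_pos (p := q) (s := s) hy).ne'
    have h5 := (hd0 y hy).ne'
    field_simp
  have hPs : Tendsto (Ps (q + 1) s) atTop atTop := by
    refine tendsto_atTop_mono' _ ?_ (tendsto_rpow_atTop hq1)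
    filter_upwards [one_le_log, eventually_gt_atTop 0] with Y h1 h2
    unfold Ps
    exact le_mul_of_one_le_right (by positivity) (Real.one_le_rpow h1 hs)
  have hFTC : ∀ a b, 1 < a → a ≤ b → ∫ y in a..b, hd y = (Ps (q + 1) s b - Ps (q + 1) s a) / (q + 1) ∧
      IntervalIntegrable hd volume a b := by
    intro a b ha hab
    have hc : ContinuousOn hd (uIcc a b) := by
      rw [uIcc_of_le hab]
      have hl : ContinuousOn Real.log (Icc a b) := Real.continuousOn_log.mono fun y hy =>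
        (show y ≠ 0 by have := hy.1; intro h; linarith)
      have hpc : ContinuousOn (fun y : ℝ => y ^ q) (Icc a b) := continuousOn_id.rpow_const fun y hy =>
        Or.inl (by have := hy.1; intro h; simp only [id] at h; linarith)
      have hlc : ∀ u : ℝ, ContinuousOn (fun y : ℝ => Real.log y ^ u) (Icc a b) := fun u =>
        hl.rpow_const fun y hy => Or.inl (Real.log_pos (by linarith [hy.1])).ne'
      have h1 : ∀ u : ℝ, ContinuousOn (fun y => Ps q u y) (Icc a b) := fun u => hpc.mul (hlc u)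
      exact ((continuousOn_const.mul (h1 s)).add (continuousOn_const.mul (h1 (s - 1)))).div_const _
    refine ⟨?_, hc.intervalIntegrable⟩
    have h1 : ∀ y ∈ uIcc a b, HasDerivAt (fun y => Ps (q + 1) s y / (q + 1)) (hd y) y := by
      intro y hy
      rw [uIcc_of_le hab] at hy
      exact (Ps_deriv (by linarith [hy.1])).div_const _
    rw [intervalIntegral.integral_eq_sub_of_hasDerivAt h1 hc.intervalIntegrable, sub_div]
  rw [Metric.tendsto_atTop]
  intro ε hε
  obtain ⟨y1, hy1⟩ := (Metric.tendsto_atTop.1 hgd) (ε * (q + 1) / 2) (by positivity)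
  set y0 : ℝ := max y1 2 with hy0
  have hy02 : 2 ≤ y0 := le_max_right _ _
  set K₀ : ℝ := |∫ y in (1:ℝ)..y0, g y| + |κ| * (Ps (q + 1) s y0 / (q + 1)) with hK₀
  have hPs0 := Ps_pos (p := q + 1) (s := s) (show 1 < y0 by linarith)
  have hK₀0 : 0 ≤ K₀ := by positivity
  obtain ⟨y2, hy2⟩ := (hPs.eventually_gt_atTop (2 * K₀ / ε)).exists_forall_of_atTop
  refine ⟨max y0 y2, fun Y hY => ?_⟩
  have hYy0 : y0 ≤ Y := (le_max_left _ _).trans hY
  have hYy2 := hy2 Y ((le_max_right _ _).trans hY)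
  have hPsY := Ps_pos (p := q + 1) (s := s) (show 1 < Y by linarith)
  obtain ⟨f1, f2⟩ := hFTC y0 Y (by linarith) hYy0
  have hpt : ∀ y ∈ Icc y0 Y, |g y - κ * hd y| ≤ ε * (q + 1) / 2 * hd y := by
    intro y hy
    have h1 := hy1 y ((le_max_left _ _).trans hy.1)
    have h2 := hd0 y (by linarith [hy.1])
    rw [Real.dist_eq] at h1
    have e : g y - κ * hd y = (g y / hd y - κ) * hd y := by field_simp
    rw [e, abs_mul, abs_of_pos h2]
    exact mul_le_mul_of_nonneg_right h1.le h2.le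
  have hgi := hg y0 Y (by linarith) hYy0
  have h3 : |∫ y in y0..Y, (g y - κ * hd y)| ≤ ∫ y in y0..Y, ε * (q + 1) / 2 * hd y := by
    refine (intervalIntegral.abs_integral_le_integral_abs hYy0).trans ?_
    exact intervalIntegral.integral_mono_on hYy0 (hgi.sub (f2.const_mul _)).abs (f2.const_mul _) hpt
  rw [intervalIntegral.integral_sub hgi (f2.const_mul _), intervalIntegral.integral_const_mul,
    intervalIntegral.integral_const_mul, f1] at h3
  have h4 : ∫ y in (1:ℝ)..Y, g y = (∫ y in (1:ℝ)..y0, g y) + ∫ y in y0..Y, g y :=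
    (intervalIntegral.integral_add_adjacent_intervals (hg 1 y0 le_rfl (by linarith)) hgi).symm
  rw [Real.dist_eq]
  have h5 : |(∫ y in (1:ℝ)..Y, g y) - κ * (Ps (q + 1) s Y / (q + 1))| ≤ K₀ + ε / 2 * Ps (q + 1) s Y := by
    have e : (∫ y in (1:ℝ)..Y, g y) - κ * (Ps (q + 1) s Y / (q + 1)) =
        (∫ y in (1:ℝ)..y0, g y) + ((∫ y in y0..Y, g y) - κ * ((Ps (q + 1) s Y - Ps (q + 1) s y0) / (q + 1))) +
          -(κ * (Ps (q + 1) s y0 / (q + 1))) := by rw [h4]; ring
    rw [e]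
    refine (abs_add_le _ _).trans ?_
    have h6 : |-(κ * (Ps (q + 1) s y0 / (q + 1)))| = |κ| * (Ps (q + 1) s y0 / (q + 1)) := by
      rw [abs_neg, abs_mul, abs_of_nonneg (by positivity : 0 ≤ Ps (q + 1) s y0 / (q + 1))]
    have h7 : ε * (q + 1) / 2 * ((Ps (q + 1) s Y - Ps (q + 1) s y0) / (q + 1)) ≤ ε / 2 * Ps (q + 1) s Y := by
      have e2 : ε * (q + 1) / 2 * ((Ps (q + 1) s Y - Ps (q + 1) s y0) / (q + 1)) =
        ε / 2 * (Ps (q + 1) s Y - Ps (q + 1) s y0) := by field_simp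
      rw [e2]
      apply mul_le_mul_of_nonneg_left _ (by positivity)
      linarith
    have h8 := abs_add_le (∫ y in (1:ℝ)..y0, g y) ((∫ y in y0..Y, g y) - κ * ((Ps (q + 1) s Y - Ps (q + 1) s y0) / (q + 1)))
    rw [h6, hK₀]
    linarith
  have e : (∫ y in (1:ℝ)..Y, g y) / Ps (q + 1) s Y - κ / (q + 1) =
      ((∫ y in (1:ℝ)..Y, g y) - κ * (Ps (q + 1) s Y / (q + 1))) / Ps (q + 1) s Y := by
    field_simp
  rw [e, abs_div, abs_of_pos hPsY, div_lt_iff₀ hPsY]
  rw [div_lt_iff₀ hε] at hYy2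
  linarith

end Pool.Agent.N798.G
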