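import Pool.Agent.N798.G15

set_option autoImplicit false

/-! Change of weights. -/

namespace Pool.Agent.N798.G

open MeasureTheory Filter Topology Set
open scoped Real

lemma pw_cont {p : ℝ} (hp : 0 ≤ p) : Continuous fun y : ℝ => y ^ p := continuous_id.rpow_const fun _ => Or.inr hp

lemma pw_contOn (p : ℝ) {a b : ℝ} (ha : 1 ≤ a) : ContinuousOn (fun y : ℝ => y ^ p) (Icc a b) :=
  continuousOn_id.rpow_const fun y hy => Or.inl (by have := hy.1; simp only [id]; intro h; linarith)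

lemma ibp {φ : ℝ → ℝ} (hφ : Continuous φ) {p : ℝ} (hp : 0 ≤ p) (q : ℝ) {Y : ℝ} (hY : 1 ≤ Y) :
    ∫ y in (1:ℝ)..Y, φ y * y ^ q = Y ^ (q - p) * (∫ y in (1:ℝ)..Y, φ y * y ^ p) -
      (q - p) * ∫ y in (1:ℝ)..Y, y ^ (q - p - 1) * ∫ t in (1:ℝ)..y, φ t * t ^ p := by
  have hc : Continuous fun y : ℝ => φ y * y ^ p := hφ.mul (pw_cont hp)
  have hU : ∀ y, HasDerivAt (fun y => ∫ t in (1:ℝ)..y, φ t * t ^ p) (φ y * y ^ p) y := fun y =>
    intervalIntegral.integral_hasDerivAt_right (hc.intervalIntegrable _ _) (hc.stronglyMeasurableAtFilter _ _) hc.continuousAt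
  have h1 := intervalIntegral.integral_mul_deriv_eq_deriv_mul (a := 1) (b := Y) (u := fun y : ℝ => y ^ (q - p))
    (u' := fun y => (q - p) * y ^ (q - p - 1)) (v := fun y => ∫ t in (1:ℝ)..y, φ t * t ^ p) (v' := fun y => φ y * y ^ p)
    (fun y hy => by
      rw [uIcc_of_le hY] at hy
      exact Real.hasDerivAt_rpow_const (Or.inl (by linarith [hy.1])))
    (fun y _ => hU y)
    (by
      apply ContinuousOn.intervalIntegrable
      rw [uIcc_of_le hY]
      exact continuousOn_const.mul (pw_contOn _ le_rfl))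
    (hc.intervalIntegrable _ _)
  have h2 : ∫ y in (1:ℝ)..Y, φ y * y ^ q = ∫ y in (1:ℝ)..Y, y ^ (q - p) * (φ y * y ^ p) := by
    apply intervalIntegral.integral_congr
    intro y hy
    rw [uIcc_of_le hY] at hy
    have hy0 : 0 < y := by linarith [hy.1]
    simp only
    rw [show y ^ (q - p) * (φ y * y ^ p) = φ y * (y ^ (q - p) * y ^ p) by ring, ← Real.rpow_add hy0]
    congr 2; ring
  rw [h2, h1]
  simp only [intervalIntegral.integral_same, mul_zero, sub_zero]
  congr 1
  rw [← intervalIntegral.integral_const_mul]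
  apply intervalIntegral.integral_congr
  intro y _
  simp only
  ring

/-- change of weights in an asymptotic formula -/
lemma wt_change {φ : ℝ → ℝ} (hφ : Continuous φ) {p q s l : ℝ} (hp : 0 ≤ p) (hq : 0 ≤ q) (hs : 0 ≤ s)
    (h : Tendsto (fun Y => (∫ y in (1:ℝ)..Y, φ y * y ^ p) / Ps (p + 1) s Y) atTop (𝓝 l)) :
    Tendsto (fun Y => (∫ y in (1:ℝ)..Y, φ y * y ^ q) / Ps (q + 1) s Y) atTop (𝓝 (l * (p + 1) / (q + 1))) := by
  have hc : Continuous fun y : ℝ => φ y * y ^ p := hφ.mul (pw_cont hp)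
  have hUc : Continuous fun y => ∫ t in (1:ℝ)..y, φ t * t ^ p :=
    intervalIntegral.continuous_primitive (fun a b => hc.intervalIntegrable a b) 1
  have h1 : Tendsto (fun y => (y ^ (q - p - 1) * ∫ t in (1:ℝ)..y, φ t * t ^ p) / Ps q s y) atTop (𝓝 l) := by
    refine h.congr' ?_
    filter_upwards [eventually_gt_atTop 1] with y hy
    have hy0 : 0 < y := by linarith
    have e1 : Ps q s y = y ^ (q - p - 1) * Ps (p + 1) s y := by
      rw [← Ps_add hy0]; congr 1; ring
    rw [e1, mul_div_mul_left]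
    positivity
  have h2 := kar (g := fun y => y ^ (q - p - 1) * ∫ t in (1:ℝ)..y, φ t * t ^ p) (fun a b ha hab => by
    apply ContinuousOn.intervalIntegrable
    rw [uIcc_of_le hab]
    exact (pw_contOn _ ha).mul hUc.continuousOn) (by linarith : -1 < q) hs h1
  have h3 := h.sub (h2.const_mul (q - p))
  have e : l - (q - p) * (l / (q + 1)) = l * (p + 1) / (q + 1) := by
    have : q + 1 ≠ 0 := by linarith
    field_simp
    ring
  rw [e] at h3
  refine h3.congr' ?_
  filter_upwards [eventually_gt_atTop 1] with Y hY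
  have hY0 : 0 < Y := by linarith
  rw [ibp hφ hp q hY.le, sub_div]
  congr 1
  · have e1 : Ps (q + 1) s Y = Y ^ (q - p) * Ps (p + 1) s Y := by
      rw [← Ps_add hY0]; congr 1; ring
    rw [e1, mul_div_mul_left]
    positivity
  · rw [mul_div_assoc]

/-- change of weights in an upper bound -/
lemma wt_bdd {φ : ℝ → ℝ} (hφ : Continuous φ) (h0 : ∀ y, 0 ≤ φ y) {p q s : ℝ} (hp : 0 ≤ p) (hq : 0 ≤ q) (hs : 0 ≤ s)
    (h : ∃ C, ∀ᶠ Y in atTop, ∫ y in (1:ℝ)..Y, φ y * y ^ p ≤ C * Ps (p + 1) s Y) :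
    ∃ C, ∀ᶠ Y in atTop, ∫ y in (1:ℝ)..Y, φ y * y ^ q ≤ C * Ps (q + 1) s Y := by
  obtain ⟨C, hC⟩ := h
  have hc : ∀ p : ℝ, 0 ≤ p → Continuous fun y : ℝ => φ y * y ^ p := fun p hp => hφ.mul (pw_cont hp)
  rcases le_total p q with hpq | hpq
  · refine ⟨C, ?_⟩
    filter_upwards [hC, eventually_gt_atTop 1] with Y h1 hY
    have hY0 : 0 < Y := by linarith
    have h2 : ∫ y in (1:ℝ)..Y, φ y * y ^ q ≤ ∫ y in (1:ℝ)..Y, Y ^ (q - p) * (φ y * y ^ p) := by
      refine intervalIntegral.integral_mono_on hY.le ((hc q hq).intervalIntegrable _ _)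
        ((continuous_const.mul (hc p hp)).intervalIntegrable _ _) fun y hy => ?_
      have hy0 : 0 < y := by linarith [hy.1]
      have h3 : y ^ q ≤ Y ^ (q - p) * y ^ p := by
        rw [show y ^ q = y ^ (q - p) * y ^ p by rw [← Real.rpow_add hy0]; congr 1; ring]
        exact mul_le_mul_of_nonneg_right (Real.rpow_le_rpow hy0.le hy.2 (by linarith)) (by positivity)
      calc φ y * y ^ q ≤ φ y * (Y ^ (q - p) * y ^ p) := mul_le_mul_of_nonneg_left h3 (h0 y)
        _ = _ := by ring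
    rw [intervalIntegral.integral_const_mul] at h2
    have e1 : Ps (q + 1) s Y = Y ^ (q - p) * Ps (p + 1) s Y := by
      rw [← Ps_add hY0]; congr 1; ring
    rw [e1]
    refine h2.trans ?_
    calc Y ^ (q - p) * (∫ y in (1:ℝ)..Y, φ y * y ^ p) ≤ Y ^ (q - p) * (C * Ps (p + 1) s Y) :=
          mul_le_mul_of_nonneg_left h1 (by positivity)
      _ = _ := by ring
  · obtain ⟨y1, hy1⟩ := (hC.and one_le_log).exists_forall_of_atTop
    set y0 : ℝ := max y1 2 with hy0
    have hy02 : 2 ≤ y0 := le_max_right _ _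
    have hmonoU : ∀ a b, 1 ≤ a → a ≤ b → ∫ y in (1:ℝ)..a, φ y * y ^ p ≤ ∫ y in (1:ℝ)..b, φ y * y ^ p := by
      intro a b ha hab
      rw [← intervalIntegral.integral_add_adjacent_intervals ((hc p hp).intervalIntegrable 1 a)
        ((hc p hp).intervalIntegrable a b)]
      have : 0 ≤ ∫ y in a..b, φ y * y ^ p := intervalIntegral.integral_nonneg hab fun y hy =>
        mul_nonneg (h0 y) (Real.rpow_nonneg (by linarith [hy.1]) _)
      linarith
    set K : ℝ := ∫ y in (1:ℝ)..y0, φ y * y ^ p with hK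
    have hK0 : 0 ≤ K := by
      have := hmonoU 1 y0 le_rfl (by linarith)
      rwa [intervalIntegral.integral_same] at this
    refine ⟨(|C| + K) * (1 + (p - q)), ?_⟩
    filter_upwards [eventually_ge_atTop y0] with Y hY
    have hY1 : 1 < Y := by linarith
    have hY0 : 0 < Y := by linarith
    have hlY : 1 ≤ Real.log Y := (hy1 Y ((le_max_left _ _).trans hY)).2
    have hlYs : 1 ≤ Real.log Y ^ s := Real.one_le_rpow hlY hs
    have hU : ∀ y ∈ Icc 1 Y, ∫ t in (1:ℝ)..y, φ t * t ^ p ≤ (|C| + K) * (y ^ (p + 1) * Real.log Y ^ s) := by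
      intro y hy
      have hy0' : 0 < y := by linarith [hy.1]
      have hyp : 1 ≤ y ^ (p + 1) := Real.one_le_rpow hy.1 (by linarith)
      have hprod : 1 ≤ y ^ (p + 1) * Real.log Y ^ s := one_le_mul_of_one_le_of_one_le hyp hlYs
      rcases le_total y0 y with h1 | h1
      · have h2 := (hy1 y ((le_max_left _ _).trans h1)).1
        have h3 : Ps (p + 1) s y ≤ y ^ (p + 1) * Real.log Y ^ s := by
          unfold Ps
          apply mul_le_mul_of_nonneg_left _ (by positivity)
          exact Real.rpow_le_rpow (Real.log_nonneg hy.1) (Real.log_le_log hy0' hy.2) hs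
        have h4 : 0 ≤ Ps (p + 1) s y := (Ps_pos (by linarith)).le
        calc ∫ t in (1:ℝ)..y, φ t * t ^ p ≤ C * Ps (p + 1) s y := h2
          _ ≤ |C| * Ps (p + 1) s y := mul_le_mul_of_nonneg_right (le_abs_self C) h4
          _ ≤ |C| * (y ^ (p + 1) * Real.log Y ^ s) := mul_le_mul_of_nonneg_left h3 (abs_nonneg C)
          _ ≤ _ := mul_le_mul_of_nonneg_right (by linarith) (by positivity)
      · calc ∫ t in (1:ℝ)..y, φ t * t ^ p ≤ K := hmonoU y y0 hy.1 h1
          _ ≤ (|C| + K) * 1 := by have := abs_nonneg C; linarith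
          _ ≤ _ := mul_le_mul_of_nonneg_left hprod (by positivity)
    have hCK : 0 ≤ |C| + K := by positivity
    rw [ibp hφ hp q hY1.le]
    have hUc : Continuous fun y => ∫ t in (1:ℝ)..y, φ t * t ^ p :=
      intervalIntegral.continuous_primitive (fun a b => (hc p hp).intervalIntegrable a b) 1
    have h5 : ∫ y in (1:ℝ)..Y, y ^ (q - p - 1) * ∫ t in (1:ℝ)..y, φ t * t ^ p ≤
        ∫ y in (1:ℝ)..Y, (|C| + K) * (Y ^ q * Real.log Y ^ s) := by
      refine intervalIntegral.integral_mono_on hY1.le ?_ intervalIntegrable_const fun y hy => ?_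
      · apply ContinuousOn.intervalIntegrable
        rw [uIcc_of_le hY1.le]
        exact (pw_contOn _ le_rfl).mul hUc.continuousOn
      · have hy0' : 0 < y := by linarith [hy.1]
        calc y ^ (q - p - 1) * ∫ t in (1:ℝ)..y, φ t * t ^ p
            ≤ y ^ (q - p - 1) * ((|C| + K) * (y ^ (p + 1) * Real.log Y ^ s)) :=
              mul_le_mul_of_nonneg_left (hU y hy) (by positivity)
          _ = (|C| + K) * ((y ^ (q - p - 1) * y ^ (p + 1)) * Real.log Y ^ s) := by ring
          _ = (|C| + K) * (y ^ q * Real.log Y ^ s) := by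
              rw [← Real.rpow_add hy0']; congr 3; ring
          _ ≤ _ := by
              apply mul_le_mul_of_nonneg_left _ hCK
              apply mul_le_mul_of_nonneg_right _ (by positivity)
              exact Real.rpow_le_rpow hy0'.le hy.2 hq
    rw [intervalIntegral.integral_const, smul_eq_mul] at h5
    have h6 := hU Y ⟨hY1.le, le_rfl⟩
    have e1 : Y ^ (q - p) * ((|C| + K) * (Y ^ (p + 1) * Real.log Y ^ s)) = (|C| + K) * Ps (q + 1) s Y := by
      unfold Ps
      rw [show Y ^ (q - p) * ((|C| + K) * (Y ^ (p + 1) * Real.log Y ^ s)) =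
        (|C| + K) * ((Y ^ (q - p) * Y ^ (p + 1)) * Real.log Y ^ s) by ring, ← Real.rpow_add hY0]
      congr 3; ring
    have e2 : (Y - 1) * ((|C| + K) * (Y ^ q * Real.log Y ^ s)) ≤ (|C| + K) * Ps (q + 1) s Y := by
      have e3 : (|C| + K) * Ps (q + 1) s Y = Y * ((|C| + K) * (Y ^ q * Real.log Y ^ s)) := by
        unfold Ps; rw [Real.rpow_add hY0, Real.rpow_one]; ring
      rw [e3]
      apply mul_le_mul_of_nonneg_right (by linarith) (by positivity)
    have h7 := mul_le_mul_of_nonneg_left h6 (show 0 ≤ Y ^ (q - p) by positivity)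
    rw [e1] at h7
    have h8 : (p - q) * (∫ y in (1:ℝ)..Y, y ^ (q - p - 1) * ∫ t in (1:ℝ)..y, φ t * t ^ p) ≤
        (p - q) * ((|C| + K) * Ps (q + 1) s Y) :=
      mul_le_mul_of_nonneg_left (h5.trans e2) (by linarith)
    calc Y ^ (q - p) * (∫ y in (1:ℝ)..Y, φ y * y ^ p) -
          (q - p) * ∫ y in (1:ℝ)..Y, y ^ (q - p - 1) * ∫ t in (1:ℝ)..y, φ t * t ^ p
        = Y ^ (q - p) * (∫ y in (1:ℝ)..Y, φ y * y ^ p) +
          (p - q) * ∫ y in (1:ℝ)..Y, y ^ (q - p - 1) * ∫ t in (1:ℝ)..y, φ t * t ^ p := by ring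
      _ ≤ (|C| + K) * Ps (q + 1) s Y + (p - q) * ((|C| + K) * Ps (q + 1) s Y) := add_le_add h7 h8
      _ = _ := by ring

end Pool.Agent.N798.G
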