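import Pool.Agent.N798.G13
import Pool.Agent.N798.G16

set_option autoImplicit false

/-! The averages of the problem and the averages along `α y^c`. -/

namespace Pool.Agent.N798.G

open MeasureTheory Filter Topology Set
open Pool.Agent.R303.LM
open scoped Real

lemma Ps_top {p s : ℝ} (hp : 0 < p) (hs : 0 ≤ s) : Tendsto (Ps p s) atTop atTop := by
  refine tendsto_atTop_mono' _ ?_ (tendsto_rpow_atTop hp)
  filter_upwards [one_le_log, eventually_gt_atTop 0] with Y h1 h2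
  unfold Ps
  exact le_mul_of_one_le_right (by positivity) (Real.one_le_rpow h1 hs)

lemma const_iff {p s : ℝ} (hp : 0 < p) (hs : 0 ≤ s) {u : ℝ → ℝ} (k : ℝ) {κ : ℝ} :
    Tendsto (fun Y => (k + u Y) / Ps p s Y) atTop (𝓝 κ) ↔ Tendsto (fun Y => u Y / Ps p s Y) atTop (𝓝 κ) := by
  have h0 : Tendsto (fun Y => k / Ps p s Y) atTop (𝓝 0) := tendsto_const_nhds.div_atTop (Ps_top hp hs)
  constructor
  · intro h
    have := h.sub h0
    rw [sub_zero] at this
    exact this.congr fun Y => by ring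
  · intro h
    have := h.add h0
    rw [add_zero] at this
    exact this.congr fun Y => by ring

lemma const_bdd {p s : ℝ} (hp : 0 < p) (hs : 0 ≤ s) {u : ℝ → ℝ} (k : ℝ) :
    (∃ C, ∀ᶠ Y in atTop, k + u Y ≤ C * Ps p s Y) ↔ (∃ C, ∀ᶠ Y in atTop, u Y ≤ C * Ps p s Y) := by
  have h1 := (Ps_top hp hs).eventually_ge_atTop |k|
  constructor
  · rintro ⟨C, hC⟩
    refine ⟨C + 1, ?_⟩
    filter_upwards [hC, h1] with Y h2 h3
    have := neg_abs_le k
    linarith
  · rintro ⟨C, hC⟩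
    refine ⟨C + 1, ?_⟩
    filter_upwards [hC, h1] with Y h2 h3
    have := le_abs_self k
    linarith

/-- the comparison function at `α Y^c` -/
lemma Ps_pow {α c s : ℝ} (hα : 0 < α) (hc : 0 < c) :
    Tendsto (fun Y => Ps 1 s (α * Y ^ c) / Ps c s Y) atTop (𝓝 (α * c ^ s)) := by
  have h1 : Tendsto (fun Y : ℝ => Real.log α / Real.log Y) atTop (𝓝 0) :=
    tendsto_const_nhds.div_atTop Real.tendsto_log_atTop
  have h2 : Tendsto (fun Y : ℝ => Real.log (α * Y ^ c) / Real.log Y) atTop (𝓝 c) := by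
    have h3 := h1.add_const c
    rw [zero_add] at h3
    refine h3.congr' ?_
    filter_upwards [eventually_gt_atTop 1] with Y hY
    have h4 := Real.log_pos hY
    have h5 : 0 < Y := by linarith
    rw [Real.log_mul hα.ne' (by positivity), Real.log_rpow h5]
    field_simp
  have h3 := (h2.rpow_const (p := s) (Or.inl hc.ne')).const_mul α
  refine h3.congr' ?_
  have hY : Tendsto (fun Y : ℝ => α * Y ^ c) atTop atTop := (tendsto_rpow_atTop hc).const_mul_atTop hα
  filter_upwards [eventually_gt_atTop 1, hY.eventually_gt_atTop 1] with Y hY hY2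
  have h4 := Real.log_pos hY
  have h5 := Real.log_pos hY2
  have h6 : 0 < Y := by linarith
  unfold Ps
  rw [Real.div_rpow h5.le h4.le, Real.rpow_one]
  have : Y ^ c ≠ 0 := by positivity
  field_simp

/-- the integral in the problem -/
noncomputable def As (β x T : ℝ) : ℝ := ∫ t in (0:ℝ)..T, Z (x + t) ^ β

section
variable {β x c α : ℝ}

lemma phi_cont (hβ : 0 < β) (hc : 1 ≤ c) : Continuous fun y : ℝ => Z (x + α * y ^ c) ^ β :=
  (Z_cont.comp (continuous_const.add (continuous_const.mul (pw_cont (by linarith))))).rpow_const fun _ => Or.inr hβ.le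

lemma phi_nonneg (y : ℝ) : 0 ≤ Z (x + α * y ^ c) ^ β := Real.rpow_nonneg (Z_nonneg _) _

lemma As_subst (hβ : 0 < β) (hc : 1 ≤ c) {Y : ℝ} :
    As β x (α * Y ^ c) = α * c * ∫ y in (0:ℝ)..Y, Z (x + α * y ^ c) ^ β * y ^ (c - 1) := by
  have hf : Continuous fun t => Z (x + t) ^ β :=
    (Z_cont.comp (continuous_const.add continuous_id)).rpow_const fun _ => Or.inr hβ.le
  have h1 := intervalIntegral.integral_comp_mul_deriv (a := 0) (b := Y) (f := fun y : ℝ => α * y ^ c)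
    (f' := fun y => α * (c * y ^ (c - 1))) (g := fun t => Z (x + t) ^ β)
    (fun y _ => (Real.hasDerivAt_rpow_const (Or.inr hc)).const_mul α)
    (continuous_const.mul (continuous_const.mul (pw_cont (by linarith)))).continuousOn hf
  unfold As
  simp only [Real.zero_rpow (show c ≠ 0 by linarith), mul_zero] at h1
  rw [← h1, ← intervalIntegral.integral_const_mul]
  apply intervalIntegral.integral_congr
  intro y _
  simp only [Function.comp_apply]
  ring

lemma split0 (hβ : 0 < β) (hc : 1 ≤ c) {p : ℝ} (hp : 0 ≤ p) (Y : ℝ) :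
    ∫ y in (0:ℝ)..Y, Z (x + α * y ^ c) ^ β * y ^ p =
      (∫ y in (0:ℝ)..1, Z (x + α * y ^ c) ^ β * y ^ p) + ∫ y in (1:ℝ)..Y, Z (x + α * y ^ c) ^ β * y ^ p := by
  have hc' : Continuous fun y : ℝ => Z (x + α * y ^ c) ^ β * y ^ p := (phi_cont hβ hc).mul (pw_cont hp)
  exact (intervalIntegral.integral_add_adjacent_intervals (hc'.intervalIntegrable _ _) (hc'.intervalIntegrable _ _)).symm

lemma Is_eq (Y : ℝ) : Is β x c α Y = ∫ y in (0:ℝ)..Y, Z (x + α * y ^ c) ^ β * y ^ (0:ℝ) := by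
  unfold Is
  simp only [Real.rpow_zero, mul_one]

/-- **The average of the problem and the average along `α y^c`, asymptotic formulas.** -/
theorem avg_iff (hβ : 0 < β) (hc : 1 ≤ c) (hα : 0 < α) {s κ : ℝ} (hs : 0 ≤ s) :
    Tendsto (fun T => As β x T / Ps 1 s T) atTop (𝓝 κ) ↔
      Tendsto (fun Y => Is β x c α Y / Ps 1 s Y) atTop (𝓝 (κ * c ^ s)) := by
  have hc0 : 0 < c := by linarith
  have hφ := phi_cont (x := x) (α := α) hβ hc
  have hY : Tendsto (fun Y : ℝ => α * Y ^ c) atTop atTop := (tendsto_rpow_atTop hc0).const_mul_atTop hα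
  have hT : Tendsto (fun T : ℝ => (T / α) ^ (1 / c)) atTop atTop :=
    (tendsto_rpow_atTop (by positivity)).comp (tendsto_id.atTop_div_const hα)
  have s1 : Tendsto (fun T => As β x T / Ps 1 s T) atTop (𝓝 κ) ↔
      Tendsto (fun Y => As β x (α * Y ^ c) / Ps 1 s (α * Y ^ c)) atTop (𝓝 κ) := by
    constructor
    · intro h; exact h.comp hY
    · intro h
      refine (h.comp hT).congr' ?_
      filter_upwards [eventually_gt_atTop 0] with T hT0
      have e : α * ((T / α) ^ (1 / c)) ^ c = T := by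
        rw [← Real.rpow_mul (by positivity), one_div, inv_mul_cancel₀ hc0.ne', Real.rpow_one]
        field_simp
      simp only [Function.comp_apply]
      rw [e]
  have hr := Ps_pow (s := s) hα hc0
  have hne : α * c ^ s ≠ 0 := by positivity
  have hP1 : ∀ᶠ Y in atTop, Ps 1 s (α * Y ^ c) ≠ 0 := by
    filter_upwards [hY.eventually_gt_atTop 1] with Y h1
    exact (Ps_pos h1).ne'
  have hP2 : ∀ᶠ Y in atTop, Ps c s Y ≠ 0 := by
    filter_upwards [eventually_gt_atTop 1] with Y h1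
    exact (Ps_pos h1).ne'
  have s2 : Tendsto (fun Y => As β x (α * Y ^ c) / Ps 1 s (α * Y ^ c)) atTop (𝓝 κ) ↔
      Tendsto (fun Y => (∫ y in (0:ℝ)..Y, Z (x + α * y ^ c) ^ β * y ^ (c - 1)) / Ps c s Y) atTop
        (𝓝 (κ * (α * c ^ s) / (α * c))) := by
    constructor
    · intro h
      refine ((h.mul hr).div_const (α * c)).congr' ?_
      filter_upwards [hP1, hP2] with Y h1 h2
      rw [As_subst hβ hc]
      field_simp
    · intro h
      have h3 := (h.const_mul (α * c)).mul (hr.inv₀ hne)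
      have e : α * c * (κ * (α * c ^ s) / (α * c)) * (α * c ^ s)⁻¹ = κ := by field_simp
      rw [e] at h3
      refine h3.congr' ?_
      filter_upwards [hP1, hP2] with Y h1 h2
      rw [As_subst hβ hc]
      field_simp
  have e1 : κ * (α * c ^ s) / (α * c) = κ * c ^ s / c := by field_simp
  have s3 : Tendsto (fun Y => (∫ y in (0:ℝ)..Y, Z (x + α * y ^ c) ^ β * y ^ (c - 1)) / Ps c s Y) atTop
        (𝓝 (κ * c ^ s / c)) ↔
      Tendsto (fun Y => (∫ y in (1:ℝ)..Y, Z (x + α * y ^ c) ^ β * y ^ (c - 1)) / Ps (c - 1 + 1) s Y) atTop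
        (𝓝 (κ * c ^ s / c)) := by
    have := const_iff (p := c) (s := s) hc0 hs (u := fun Y => ∫ y in (1:ℝ)..Y, Z (x + α * y ^ c) ^ β * y ^ (c - 1))
      (∫ y in (0:ℝ)..1, Z (x + α * y ^ c) ^ β * y ^ (c - 1)) (κ := κ * c ^ s / c)
    rw [sub_add_cancel, ← this]
    refine tendsto_congr fun Y => ?_
    rw [split0 hβ hc (by linarith) Y]
  have s4 : Tendsto (fun Y => Is β x c α Y / Ps 1 s Y) atTop (𝓝 (κ * c ^ s)) ↔
      Tendsto (fun Y => (∫ y in (1:ℝ)..Y, Z (x + α * y ^ c) ^ β * y ^ (0:ℝ)) / Ps (0 + 1) s Y) atTop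
        (𝓝 (κ * c ^ s)) := by
    have := const_iff (p := 1) (s := s) one_pos hs (u := fun Y => ∫ y in (1:ℝ)..Y, Z (x + α * y ^ c) ^ β * y ^ (0:ℝ))
      (∫ y in (0:ℝ)..1, Z (x + α * y ^ c) ^ β * y ^ (0:ℝ)) (κ := κ * c ^ s)
    rw [zero_add, ← this]
    refine tendsto_congr fun Y => ?_
    rw [Is_eq, split0 hβ hc le_rfl Y]
  rw [s1, s2, e1, s3, s4]
  constructor
  · intro h
    have h1 := wt_change hφ (by linarith : 0 ≤ c - 1) le_rfl hs h
    have e2 : κ * c ^ s / c * (c - 1 + 1) / (0 + 1) = κ * c ^ s := by field_simp; ring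
    rwa [e2] at h1
  · intro h
    have h1 := wt_change hφ le_rfl (by linarith : 0 ≤ c - 1) hs h
    have e2 : κ * c ^ s * (0 + 1) / (c - 1 + 1) = κ * c ^ s / c := by
      rw [sub_add_cancel, zero_add, mul_one]
    rwa [e2] at h1

/-- **The average of the problem and the average along `α y^c`, upper bounds.** -/
theorem avg_bdd (hβ : 0 < β) (hc : 1 ≤ c) (hα : 0 < α) {s : ℝ} (hs : 0 ≤ s) :
    (∃ C, ∀ᶠ T in atTop, As β x T ≤ C * Ps 1 s T) ↔ (∃ C, ∀ᶠ Y in atTop, Is β x c α Y ≤ C * Ps 1 s Y) := by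
  have hc0 : 0 < c := by linarith
  have hφ := phi_cont (x := x) (α := α) hβ hc
  have hφ0 := phi_nonneg (β := β) (x := x) (α := α) (c := c)
  have hY : Tendsto (fun Y : ℝ => α * Y ^ c) atTop atTop := (tendsto_rpow_atTop hc0).const_mul_atTop hα
  have hT : Tendsto (fun T : ℝ => (T / α) ^ (1 / c)) atTop atTop :=
    (tendsto_rpow_atTop (by positivity)).comp (tendsto_id.atTop_div_const hα)
  have hr := Ps_pow (s := s) hα hc0
  have hpos : 0 < α * c ^ s := by positivity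
  have s2 : (∃ C, ∀ᶠ T in atTop, As β x T ≤ C * Ps 1 s T) ↔
      (∃ C, ∀ᶠ Y in atTop, (∫ y in (0:ℝ)..Y, Z (x + α * y ^ c) ^ β * y ^ (c - 1)) ≤ C * Ps c s Y) := by
    constructor
    · rintro ⟨C, hC⟩
      refine ⟨|C| * (α * c ^ s + 1) / (α * c), ?_⟩
      filter_upwards [hY.eventually hC, hY.eventually_gt_atTop 1, eventually_gt_atTop 1,
        hr.eventually_lt_const (show α * c ^ s < α * c ^ s + 1 by linarith)] with Y h1 h2 h3 h4
      have hP := Ps_pos (p := c) (s := s) h3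
      have hP2 := Ps_pos (p := 1) (s := s) h2
      rw [div_lt_iff₀ hP] at h4
      rw [As_subst hβ hc] at h1
      have h5 : C * Ps 1 s (α * Y ^ c) ≤ |C| * ((α * c ^ s + 1) * Ps c s Y) :=
        (mul_le_mul_of_nonneg_right (le_abs_self C) hP2.le).trans (mul_le_mul_of_nonneg_left h4.le (abs_nonneg C))
      have h6 := h1.trans h5
      rw [div_mul_eq_mul_div, le_div_iff₀ (by positivity)]
      linarith
    · rintro ⟨C, hC⟩
      refine ⟨α * c * |C| * (2 / (α * c ^ s)), ?_⟩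
      have h0 : ∀ᶠ Y in atTop, As β x (α * Y ^ c) ≤ α * c * |C| * (2 / (α * c ^ s)) * Ps 1 s (α * Y ^ c) := by
        filter_upwards [hC, hY.eventually_gt_atTop 1, eventually_gt_atTop 1,
          hr.eventually_const_lt (show α * c ^ s / 2 < α * c ^ s by linarith)] with Y h1 h2 h3 h4
        have hP := Ps_pos (p := c) (s := s) h3
        rw [lt_div_iff₀ hP] at h4
        rw [As_subst hβ hc]
        have h5 : Ps c s Y ≤ 2 / (α * c ^ s) * Ps 1 s (α * Y ^ c) := by
          rw [div_mul_eq_mul_div, le_div_iff₀ hpos]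
          linarith
        have h6 : C * Ps c s Y ≤ |C| * (2 / (α * c ^ s) * Ps 1 s (α * Y ^ c)) :=
          (mul_le_mul_of_nonneg_right (le_abs_self C) hP.le).trans (mul_le_mul_of_nonneg_left h5 (abs_nonneg C))
        have h7 := mul_le_mul_of_nonneg_left (h1.trans h6) (show 0 ≤ α * c by positivity)
        linarith
      filter_upwards [hT.eventually h0, eventually_gt_atTop 0] with T h1 hT0
      have e : α * ((T / α) ^ (1 / c)) ^ c = T := by
        rw [← Real.rpow_mul (by positivity), one_div, inv_mul_cancel₀ hc0.ne', Real.rpow_one]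
        field_simp
      rwa [e] at h1
  have s3 : (∃ C, ∀ᶠ Y in atTop, (∫ y in (0:ℝ)..Y, Z (x + α * y ^ c) ^ β * y ^ (c - 1)) ≤ C * Ps c s Y) ↔
      (∃ C, ∀ᶠ Y in atTop, (∫ y in (1:ℝ)..Y, Z (x + α * y ^ c) ^ β * y ^ (c - 1)) ≤ C * Ps (c - 1 + 1) s Y) := by
    have := const_bdd (p := c) (s := s) hc0 hs (u := fun Y => ∫ y in (1:ℝ)..Y, Z (x + α * y ^ c) ^ β * y ^ (c - 1))
      (∫ y in (0:ℝ)..1, Z (x + α * y ^ c) ^ β * y ^ (c - 1))
    rw [sub_add_cancel, ← this]
    simp only [← split0 hβ hc (by linarith : 0 ≤ c - 1)]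
  have s4 : (∃ C, ∀ᶠ Y in atTop, Is β x c α Y ≤ C * Ps 1 s Y) ↔
      (∃ C, ∀ᶠ Y in atTop, (∫ y in (1:ℝ)..Y, Z (x + α * y ^ c) ^ β * y ^ (0:ℝ)) ≤ C * Ps (0 + 1) s Y) := by
    have := const_bdd (p := 1) (s := s) one_pos hs (u := fun Y => ∫ y in (1:ℝ)..Y, Z (x + α * y ^ c) ^ β * y ^ (0:ℝ))
      (∫ y in (0:ℝ)..1, Z (x + α * y ^ c) ^ β * y ^ (0:ℝ))
    have e : ∀ Y, Is β x c α Y = (∫ y in (0:ℝ)..1, Z (x + α * y ^ c) ^ β * y ^ (0:ℝ)) +
        ∫ y in (1:ℝ)..Y, Z (x + α * y ^ c) ^ β * y ^ (0:ℝ) := fun Y => by rw [Is_eq, split0 hβ hc le_rfl Y]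
    rw [zero_add, ← this]
    simp only [e]
  rw [s2, s3, s4]
  exact ⟨wt_bdd hφ hφ0 (by linarith) le_rfl hs, wt_bdd hφ hφ0 le_rfl (by linarith) hs⟩

lemma Is_mono (hβ : 0 < β) (hc : 1 ≤ c) : Monotone (Is β x c α) := fun _ _ hab =>
  int_mono (phi_cont hβ hc) phi_nonneg hab

end

end Pool.Agent.N798.G
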