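import Pool.Agent.N798.G1

set_option autoImplicit false

/-! The mean square over `α` of the difference between `∑ G (α n)` and `(1/α) ∫ G`: integration over `α`. -/

namespace Pool.Agent.N798.G

open MeasureTheory Filter Topology Set FourierTransform Complex
open scoped ENNReal Real

lemma shell {g : ℝ → ℝ≥0∞} (hg : Measurable g) {A B : ℝ} (hA : 0 < A) {l : ℤ} (hl : l ≠ 0) :
    ∫⁻ α in Icc A B, ENNReal.ofReal (|(l:ℝ)|) * (ENNReal.ofReal (α⁻¹ ^ 2) * g (l / α)) ≤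
      ∫⁻ τ, if |(l:ℝ)| ≤ B * |τ| then g τ else 0 := by
  have hl' : (l:ℝ) ≠ 0 := by exact_mod_cast hl
  have h1 := lintegral_image_eq_lintegral_abs_deriv_mul (s := Icc A B) (f := fun α : ℝ => (l:ℝ) / α)
    (f' := fun α : ℝ => -(l:ℝ) / α ^ 2) measurableSet_Icc
    (fun x hx => by
      have hx0 : x ≠ 0 := (hA.trans_le hx.1).ne'
      have := (hasDerivAt_inv hx0).const_mul (l:ℝ)
      refine HasDerivAt.hasDerivWithinAt ?_
      convert! this using 1
      field_simp)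
    (by
      intro x hx y hy hxy
      have hx0 : x ≠ 0 := (hA.trans_le hx.1).ne'
      have hy0 : y ≠ 0 := (hA.trans_le hy.1).ne'
      simp only at hxy
      rw [div_eq_div_iff hx0 hy0] at hxy
      exact (mul_left_cancel₀ hl' hxy).symm) g
  have h2 : ∫⁻ α in Icc A B, ENNReal.ofReal (|(l:ℝ)|) * (ENNReal.ofReal (α⁻¹ ^ 2) * g (l / α)) =
      ∫⁻ x in Icc A B, ENNReal.ofReal |-(l:ℝ) / x ^ 2| * g ((l:ℝ) / x) := by
    refine setLIntegral_congr_fun measurableSet_Icc fun x hx => ?_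
    rw [← mul_assoc, ← ENNReal.ofReal_mul (abs_nonneg _)]
    congr 2
    rw [abs_div, abs_neg, abs_of_nonneg (sq_nonneg x), inv_pow]
    rfl
  rw [h2, ← h1, ← lintegral_indicator]
  · refine lintegral_mono fun τ => ?_
    rw [Set.indicator]
    split_ifs with h3 h4 h4
    · exact le_rfl
    · exfalso
      apply h4
      obtain ⟨x, hx, rfl⟩ := h3
      have hx0 : 0 < x := hA.trans_le hx.1
      rw [abs_div, abs_of_pos hx0, ← mul_div_assoc, le_div_iff₀ hx0, mul_comm]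
      exact mul_le_mul_of_nonneg_right hx.2 (abs_nonneg _)
    · exact bot_le
    · exact le_rfl
  · apply MeasurableSet.image_of_continuousOn_injOn measurableSet_Icc
    · intro x hx
      have hx0 : x ≠ 0 := (hA.trans_le hx.1).ne'
      exact (ContinuousAt.div continuousAt_const continuousAt_id hx0).continuousWithinAt
    · intro x hx y hy hxy
      have hx0 : x ≠ 0 := (hA.trans_le hx.1).ne'
      have hy0 : y ≠ 0 := (hA.trans_le hy.1).ne'
      simp only at hxy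
      rw [div_eq_div_iff hx0 hy0] at hxy
      exact (mul_left_cancel₀ hl' hxy).symm

lemma count_bound {e X : ℝ} (he : 0 < e) (hX : 0 ≤ X) :
    ∑' l : ℤ, (if l = 0 then 0 else if |(l:ℝ)| ≤ X then ENNReal.ofReal (|(l:ℝ)| ^ e) else 0) ≤
      ENNReal.ofReal (2 * X ^ (1 + e)) := by
  classical
  set S : Finset ℤ := (Finset.Icc (-⌊X⌋) ⌊X⌋).erase 0 with hS
  have h1 : ∀ l : ℤ, l ∉ S → (if l = 0 then 0 else if |(l:ℝ)| ≤ X then ENNReal.ofReal (|(l:ℝ)| ^ e) else 0) = 0 := by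
    intro l hl
    split_ifs with h2 h3
    · rfl
    · exfalso
      apply hl
      rw [hS, Finset.mem_erase, Finset.mem_Icc]
      rw [abs_le] at h3
      refine ⟨h2, ?_, ?_⟩
      · have : -l ≤ ⌊X⌋ := Int.le_floor.2 (by push_cast; linarith [h3.1])
        omega
      · exact Int.le_floor.2 h3.2
    · rfl
  rw [tsum_eq_sum h1]
  have h2 : ∀ l ∈ S, (if l = 0 then 0 else if |(l:ℝ)| ≤ X then ENNReal.ofReal (|(l:ℝ)| ^ e) else 0) ≤
      ENNReal.ofReal (X ^ e) := by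
    intro l _
    split_ifs with h3 h4
    · exact bot_le
    · exact ENNReal.ofReal_le_ofReal (Real.rpow_le_rpow (abs_nonneg _) h4 he.le)
    · exact bot_le
  refine (Finset.sum_le_sum h2).trans ?_
  rw [Finset.sum_const, nsmul_eq_mul, ← ENNReal.ofReal_natCast, ← ENNReal.ofReal_mul (Nat.cast_nonneg _)]
  apply ENNReal.ofReal_le_ofReal
  have hfl : 0 ≤ ⌊X⌋ := Int.floor_nonneg.2 hX
  have h3 : (S.card : ℝ) ≤ 2 * X := by
    rw [hS, Finset.card_erase_of_mem (by rw [Finset.mem_Icc]; constructor <;> omega), Int.card_Icc]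
    have h4 : ((⌊X⌋ + 1 - -⌊X⌋).toNat - 1 : ℕ) = (2 * ⌊X⌋).toNat := by omega
    rw [h4]
    have h5 : (((2 * ⌊X⌋).toNat : ℕ) : ℝ) = 2 * (⌊X⌋ : ℝ) := by
      have : ((2 * ⌊X⌋).toNat : ℤ) = 2 * ⌊X⌋ := Int.toNat_of_nonneg (by omega)
      calc (((2 * ⌊X⌋).toNat : ℕ) : ℝ) = (((2 * ⌊X⌋).toNat : ℤ) : ℝ) := by push_cast; rfl
        _ = _ := by rw [this]; push_cast; rfl
    rw [h5]
    linarith [Int.floor_le X]
  rcases hX.eq_or_lt with h0 | h0
  · rw [← h0] at h3 ⊢
    have : (S.card : ℝ) ≤ 0 := by linarith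
    have h6 : (S.card : ℝ) = 0 := le_antisymm this (Nat.cast_nonneg _)
    rw [h6, zero_mul, Real.zero_rpow (by linarith), mul_zero]
  · rw [Real.rpow_add h0, Real.rpow_one]
    nlinarith [Real.rpow_nonneg hX e, mul_le_mul_of_nonneg_right h3 (Real.rpow_nonneg hX e)]

/-- **The variance of the sampling error.** -/
theorem sampling_var {A B e : ℝ} (hA : 0 < A) (hAB : A ≤ B) (he : 0 < e) (he1 : e < 1) :
    ∃ K : ℝ, 0 ≤ K ∧ ∀ G : ℝ → ℂ, ContDiff ℝ 1 G → HasCompactSupport G → ∀ lam : ℝ, 0 < lam →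
      ∫⁻ α in Icc A B, ‖(∑' n : ℤ, G (α * n)) - ((α⁻¹ : ℝ) : ℂ) * ∫ x, G x‖ₑ ^ 2 ≤
        ENNReal.ofReal K * (ENNReal.ofReal (lam ^ (1 + e)) * (∫⁻ x, ‖G x‖ₑ ^ 2) +
          ENNReal.ofReal (lam ^ (-(1 - e))) * (∫⁻ x, ‖deriv G x‖ₑ ^ 2)) := by
  have hB : 0 < B := hA.trans_le hAB
  set W : ℝ≥0∞ := ∑' l : ℤ, (wt e l)⁻¹ with hW
  have hWt : W ≠ ⊤ := wt_sum he
  refine ⟨W.toReal * (2 * B ^ (1 + e)), by positivity, fun G hG hs lam hlam => ?_⟩
  have hGc := hG.continuous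
  have hGi : Integrable G := hGc.integrable_of_hasCompactSupport hs
  have hG'c : Continuous (deriv G) := hG.continuous_deriv le_rfl
  have hG's : HasCompactSupport (deriv G) := hs.deriv
  have hG'i : Integrable (deriv G) := hG'c.integrable_of_hasCompactSupport hG's
  have hFc : Continuous (𝓕 G) :=
    VectorFourier.fourierIntegral_continuous (L := innerₗ ℝ) Real.continuous_fourierChar continuous_inner hGi
  have mF : Measurable (fun τ : ℝ => ‖𝓕 G τ‖ₑ ^ 2) := by fun_prop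
  -- Plancherel
  have P1 : ∫⁻ τ, ‖𝓕 G τ‖ₑ ^ 2 = ∫⁻ x, ‖G x‖ₑ ^ 2 :=
    Pool.Agent.H153R4.plancherel G hGi (hGc.memLp_of_hasCompactSupport hs)
  have P2 : ∫⁻ τ : ℝ, ENNReal.ofReal (τ ^ 2) * ‖𝓕 G τ‖ₑ ^ 2 ≤ ∫⁻ x, ‖deriv G x‖ₑ ^ 2 := by
    rw [← Pool.Agent.H153R4.plancherel (deriv G) hG'i (hG'c.memLp_of_hasCompactSupport hG's)]
    rw [Real.fourier_deriv hGi (hG.differentiable one_ne_zero) hG'i]
    refine lintegral_mono fun τ => ?_
    simp only [smul_eq_mul]
    rw [enorm_mul, mul_pow]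
    gcongr
    rw [← ofReal_norm, ← ENNReal.ofReal_pow (norm_nonneg _)]
    apply ENNReal.ofReal_le_ofReal
    rw [norm_mul, norm_mul, norm_mul, Complex.norm_real, Complex.norm_I, Complex.norm_real]
    simp only [Complex.norm_ofNat, mul_one]
    rw [Real.norm_of_nonneg Real.pi_pos.le, mul_pow, Real.norm_eq_abs, sq_abs]
    have hπ : 1 ≤ (2 * π) ^ 2 := by nlinarith [Real.pi_gt_three]
    nlinarith [sq_nonneg τ]
  -- the main computation
  calc ∫⁻ α in Icc A B, ‖(∑' n : ℤ, G (α * n)) - ((α⁻¹ : ℝ) : ℂ) * ∫ x, G x‖ₑ ^ 2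
      ≤ ∫⁻ α in Icc A B, W * ∑' l : ℤ, if l = 0 then 0 else
          ENNReal.ofReal (|(l:ℝ)| ^ (1 + e)) * (ENNReal.ofReal (α⁻¹ ^ 2) * ‖𝓕 G (l / α)‖ₑ ^ 2) := by
        refine setLIntegral_mono' measurableSet_Icc fun α hα => ?_
        exact poisson_bound hGc hs (hA.trans_le hα.1)
    _ = W * ∑' l : ℤ, ∫⁻ α in Icc A B, (if l = 0 then 0 else
          ENNReal.ofReal (|(l:ℝ)| ^ (1 + e)) * (ENNReal.ofReal (α⁻¹ ^ 2) * ‖𝓕 G (l / α)‖ₑ ^ 2)) := by
        rw [lintegral_const_mul' _ _ hWt, lintegral_tsum]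
        intro l
        split_ifs
        · fun_prop
        · apply Measurable.aemeasurable
          have : Measurable (fun α : ℝ => (l:ℝ) / α) := by fun_prop
          have h2 := mF.comp this
          simp only [Function.comp_def] at h2
          fun_prop
    _ ≤ W * ∑' l : ℤ, ∫⁻ τ : ℝ, (if l = 0 then 0 else if |(l:ℝ)| ≤ B * |τ| then
          ENNReal.ofReal (|(l:ℝ)| ^ e) else 0) * ‖𝓕 G τ‖ₑ ^ 2 := by
        refine mul_le_mul_right (ENNReal.tsum_le_tsum fun l => ?_) W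
        split_ifs with hl
        · simp
        · have hl0 : (0:ℝ) < |(l:ℝ)| := abs_pos.2 (by exact_mod_cast hl)
          have e1 : ∀ α : ℝ, ENNReal.ofReal (|(l:ℝ)| ^ (1 + e)) * (ENNReal.ofReal (α⁻¹ ^ 2) * ‖𝓕 G (l / α)‖ₑ ^ 2) =
              ENNReal.ofReal (|(l:ℝ)| ^ e) * (ENNReal.ofReal (|(l:ℝ)|) *
                (ENNReal.ofReal (α⁻¹ ^ 2) * ‖𝓕 G (l / α)‖ₑ ^ 2)) := by
            intro α
            rw [← mul_assoc (ENNReal.ofReal (|(l:ℝ)| ^ e)), ← ENNReal.ofReal_mul (by positivity)]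
            congr 2
            rw [Real.rpow_add hl0, Real.rpow_one, mul_comm]
          simp only [e1]
          rw [lintegral_const_mul' _ _ ENNReal.ofReal_ne_top]
          refine (mul_le_mul_right (shell mF hA hl) _).trans ?_
          rw [← lintegral_const_mul' _ _ ENNReal.ofReal_ne_top]
          refine lintegral_mono fun τ => ?_
          simp only
          split_ifs <;> simp
    _ = W * ∫⁻ τ : ℝ, (∑' l : ℤ, if l = 0 then 0 else if |(l:ℝ)| ≤ B * |τ| then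
          ENNReal.ofReal (|(l:ℝ)| ^ e) else 0) * ‖𝓕 G τ‖ₑ ^ 2 := by
        rw [← lintegral_tsum]
        · congr 2
          funext τ
          rw [ENNReal.tsum_mul_right]
        · intro l
          apply Measurable.aemeasurable
          refine Measurable.mul ?_ mF
          refine Measurable.ite (MeasurableSet.const _) measurable_const (Measurable.ite ?_ measurable_const measurable_const)
          exact measurableSet_le measurable_const (by fun_prop)
    _ ≤ W * ∫⁻ τ : ℝ, ENNReal.ofReal (2 * (B * |τ|) ^ (1 + e)) * ‖𝓕 G τ‖ₑ ^ 2 := by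
        gcongr with τ
        exact count_bound he (by positivity)
    _ ≤ W * ∫⁻ τ : ℝ, (ENNReal.ofReal (2 * B ^ (1 + e)) * (ENNReal.ofReal (lam ^ (1 + e)) * ‖𝓕 G τ‖ₑ ^ 2 +
          ENNReal.ofReal (lam ^ (-(1 - e))) * (ENNReal.ofReal (τ ^ 2) * ‖𝓕 G τ‖ₑ ^ 2))) := by
        refine mul_le_mul_right (lintegral_mono fun τ => ?_) W
        simp only
        rw [← mul_assoc (ENNReal.ofReal (lam ^ (-(1 - e)))), ← add_mul, ← mul_assoc]
        refine mul_le_mul_left ?_ _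
        rw [← ENNReal.ofReal_mul (by positivity), ← ENNReal.ofReal_add (by positivity) (by positivity),
          ← ENNReal.ofReal_mul (by positivity)]
        apply ENNReal.ofReal_le_ofReal
        rw [Real.mul_rpow hB.le (abs_nonneg τ), ← mul_assoc]
        gcongr
        rcases le_or_gt |τ| lam with h | h
        · calc |τ| ^ (1 + e) ≤ lam ^ (1 + e) := by gcongr
            _ ≤ _ := le_add_of_nonneg_right (by positivity)
        · have hτ : 0 < |τ| := hlam.trans h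
          calc |τ| ^ (1 + e) = |τ| ^ (-(1 - e)) * τ ^ 2 := by
                rw [← sq_abs τ, ← Real.rpow_natCast, ← Real.rpow_add hτ]; congr 1; push_cast; ring
            _ ≤ lam ^ (-(1 - e)) * τ ^ 2 := by
                apply mul_le_mul_of_nonneg_right _ (sq_nonneg τ)
                exact Real.rpow_le_rpow_of_nonpos hlam h.le (by linarith)
            _ ≤ _ := le_add_of_nonneg_left (by positivity)
    _ = W * (ENNReal.ofReal (2 * B ^ (1 + e)) * (ENNReal.ofReal (lam ^ (1 + e)) * (∫⁻ τ : ℝ, ‖𝓕 G τ‖ₑ ^ 2) +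
          ENNReal.ofReal (lam ^ (-(1 - e))) * (∫⁻ τ : ℝ, (ENNReal.ofReal (τ ^ 2) * ‖𝓕 G τ‖ₑ ^ 2)))) := by
        rw [lintegral_const_mul' _ _ ENNReal.ofReal_ne_top, lintegral_add_left (mF.const_mul _),
          lintegral_const_mul' _ _ ENNReal.ofReal_ne_top, lintegral_const_mul' _ _ ENNReal.ofReal_ne_top]
    _ ≤ W * (ENNReal.ofReal (2 * B ^ (1 + e)) * (ENNReal.ofReal (lam ^ (1 + e)) * (∫⁻ x, ‖G x‖ₑ ^ 2) +
          ENNReal.ofReal (lam ^ (-(1 - e))) * (∫⁻ x, ‖deriv G x‖ₑ ^ 2))) := by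
        rw [P1]
        gcongr
    _ = _ := by
        rw [ENNReal.ofReal_mul ENNReal.toReal_nonneg, ENNReal.ofReal_toReal hWt, mul_assoc]

end Pool.Agent.N798.G
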