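import Pool.Agent.N798.Win
import Pool.Agent.TH804.MS1

set_option autoImplicit false

/-! A local bound for zeta and its derivative on the critical line by the mean of zeta over a short interval. -/

namespace Pool.Agent.N798.G

open MeasureTheory Filter Topology Set Complex
open Pool.Agent.R303.LM
open Pool.Agent.TH804.MS (F F_diff F_norm F_le le_F refl right z1_ne ne_one_of_im pt_eq)

lemma z1_crude {s : ℂ} (hs : 1 / 2 ≤ s.re) (hs1 : s ≠ 1) : ‖riemannZeta₁ s‖ ≤ ‖s‖ + 2 * ‖s‖ * ‖s - 1‖ := by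
  have hs0 : 0 < s.re := by linarith
  have h0 : s - 1 ≠ 0 := sub_ne_zero.2 hs1
  rw [z1_ne hs1, Pool.Agent.H388LH.zeta_eq hs0 hs1]
  have h1 := Pool.Agent.H388LH.fract_int_bound hs0
  have h2 : 1 / s.re ≤ 2 := by rw [div_le_iff₀ hs0]; linarith
  set J := ∫ u in Ioi (1 : ℝ), ((Int.fract u : ℝ) : ℂ) * (u : ℂ) ^ (-s - 1) with hJ
  have e : (s - 1) * (1 + 1 / (s - 1) - s * J) = s - s * (s - 1) * J := by
    field_simp
    ring
  rw [e]
  refine (norm_sub_le _ _).trans ?_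
  rw [norm_mul, norm_mul]
  have h3 := h1.trans h2
  nlinarith [mul_nonneg (norm_nonneg s) (norm_nonneg (s - 1)), norm_nonneg J]

lemma sq_exp (y : ℝ) : (1 + |y|) ^ 2 * Real.exp (-y ^ 2) ≤ 4 * Real.exp (-(y ^ 2) / 2) := by
  have h1 : 1 + y ^ 2 / 2 ≤ Real.exp (y ^ 2 / 2) := by
    have := Real.add_one_le_exp (y ^ 2 / 2); linarith
  have h2 : (1 + |y|) ^ 2 ≤ 4 * Real.exp (y ^ 2 / 2) := by
    nlinarith [sq_abs y, sq_nonneg (1 - |y|)]
  calc (1 + |y|) ^ 2 * Real.exp (-y ^ 2) ≤ 4 * Real.exp (y ^ 2 / 2) * Real.exp (-y ^ 2) := by gcongr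
    _ = _ := by rw [mul_assoc, ← Real.exp_add]; congr 2; ring

lemma norm_exp_sq (z : ℂ) : ‖cexp (z ^ 2)‖ = Real.exp (z.re ^ 2 - z.im ^ 2) := by
  rw [Complex.norm_exp]
  congr 1
  simp [sq]

lemma strip_crude {t : ℝ} (ht : 1 ≤ t) {z : ℂ} (h0 : 0 ≤ z.re) (h1 : z.re ≤ 1)
    (hz : 1 / 2 + t * I + z ≠ 1) :
    ‖F t z * cexp (z ^ 2)‖ ≤ 3 * (3 + t) ^ 2 / t * Real.exp (z.re ^ 2) * ((1 + |z.im|) ^ 2 * Real.exp (-z.im ^ 2)) := by
  have hre : (1 / 2 + t * I + z : ℂ).re = 1 / 2 + z.re := by simp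
  have him : (1 / 2 + t * I + z : ℂ).im = t + z.im := by simp
  have hc := z1_crude (s := 1 / 2 + t * I + z) (by rw [hre]; linarith) hz
  have hy0 := abs_nonneg z.im
  have ha : |t + z.im| ≤ t + |z.im| := by
    refine (abs_add_le _ _).trans ?_
    rw [abs_of_nonneg (by linarith : (0:ℝ) ≤ t)]
  have hs : ‖(1 / 2 + t * I + z : ℂ)‖ ≤ (3 + t) * (1 + |z.im|) := by
    have := Complex.norm_le_abs_re_add_abs_im (1 / 2 + t * I + z : ℂ)
    rw [hre, him, abs_of_nonneg (by linarith : 0 ≤ 1 / 2 + z.re)] at this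
    nlinarith
  have hs1 : ‖(1 / 2 + t * I + z : ℂ) - 1‖ ≤ (2 + t) * (1 + |z.im|) := by
    have := Complex.norm_le_abs_re_add_abs_im ((1 / 2 + t * I + z : ℂ) - 1)
    rw [Complex.sub_re, Complex.sub_im, hre, him, Complex.one_re, Complex.one_im, sub_zero] at this
    have h3 : |1 / 2 + z.re - 1| ≤ 1 / 2 := by rw [abs_le]; constructor <;> linarith
    nlinarith
  have hprod : ‖riemannZeta₁ (1 / 2 + t * I + z)‖ ≤ 3 * (3 + t) ^ 2 * (1 + |z.im|) ^ 2 := by
    refine hc.trans ?_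
    have h4 : ‖(1 / 2 + t * I + z : ℂ)‖ * ‖(1 / 2 + t * I + z : ℂ) - 1‖ ≤
        ((3 + t) * (1 + |z.im|)) * ((2 + t) * (1 + |z.im|)) :=
      mul_le_mul hs hs1 (norm_nonneg _) (by positivity)
    have h5 : (3 + t) * (1 + |z.im|) ≤ (3 + t) * (1 + |z.im|) * (1 + |z.im|) := by
      have : 0 ≤ (3 + t) * (1 + |z.im|) := by positivity
      nlinarith
    have h6 : 0 ≤ (3 + t) * (1 + |z.im|) ^ 2 := by positivity
    nlinarith
  have hF : ‖F t z‖ ≤ 3 * (3 + t) ^ 2 * (1 + |z.im|) ^ 2 / t := by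
    unfold F
    rw [norm_div, Complex.norm_real, Real.norm_of_nonneg (by linarith)]
    gcongr
  rw [norm_mul, norm_exp_sq, sub_eq_add_neg, Real.exp_add]
  calc ‖F t z‖ * (Real.exp (z.re ^ 2) * Real.exp (-z.im ^ 2))
      ≤ 3 * (3 + t) ^ 2 * (1 + |z.im|) ^ 2 / t * (Real.exp (z.re ^ 2) * Real.exp (-z.im ^ 2)) := by gcongr
    _ = _ := by ring

/-- to the right of the critical line -/
lemma near_right : ∃ C T₀ : ℝ, 1 ≤ C ∧ 8 ≤ T₀ ∧ ∀ t : ℝ, T₀ ≤ t → ∀ M : ℝ, 1 ≤ M →
    (∀ y : ℝ, |y| ≤ Real.log t → Z (t + y) ≤ M) → ∀ z : ℂ, 0 ≤ z.re → z.re ≤ 1 → |z.im| ≤ 1 →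
      ‖riemannZeta (1 / 2 + t * I + z)‖ ≤ C * M := by
  obtain ⟨C₁, hC₁, hr⟩ := right (σ := 3 / 2) (by norm_num)
  refine ⟨2 * ((48 + 12 * C₁) * Real.exp 1), Real.exp 2 + 8, ?_, ?_, fun t ht M hM hZ z hz0 hz1 hzi => ?_⟩
  · have := Real.add_one_le_exp (1:ℝ)
    nlinarith
  · have := Real.exp_pos 2; linarith
  have ht8 : 8 ≤ t := by have := Real.exp_pos 2; linarith
  have ht0 : 0 < t := by linarith
  have hl2 : 2 ≤ Real.log t := by
    rw [Real.le_log_iff_exp_le ht0]; linarith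
  have hlt : Real.log t ≤ t / 2 := by
    have h1 := Real.add_one_le_exp (Real.log t / 2)
    have h2 : Real.exp (Real.log t / 2) ^ 2 = t := by
      rw [← Real.exp_nat_mul]; push_cast; rw [mul_div_cancel₀ _ (two_ne_zero), Real.exp_log ht0]
    nlinarith [sq_nonneg (Real.log t / 2 - 1)]
  have main : ‖F t z * cexp (z ^ 2)‖ ≤ (48 + 12 * C₁) * M := by
    refine PhragmenLindelof.vertical_strip (f := fun w => F t w * cexp (w ^ 2)) (a := 0) (b := 1) ?_ ⟨1, by rw [sub_zero, div_one]; linarith [Real.pi_gt_three],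
      1, ?_⟩ ?_ ?_ hz0 hz1
    · exact ((F_diff t).mul (by fun_prop)).diffContOnCl
    · apply Asymptotics.IsBigO.of_bound (3 * (3 + t) ^ 2 / t * Real.exp 1 * 4)
      have h1 : ∀ᶠ w : ℂ in comap (_root_.abs ∘ im) atTop ⊓ 𝓟 (re ⁻¹' Ioo (0:ℝ) 1), t < |w.im| := by
        apply Filter.Eventually.filter_mono inf_le_left
        rw [eventually_comap]
        filter_upwards [eventually_gt_atTop t] with b hb w hw
        rw [← hw] at hb
        exact hb
      have h2 : ∀ᶠ w : ℂ in comap (_root_.abs ∘ im) atTop ⊓ 𝓟 (re ⁻¹' Ioo (0:ℝ) 1), 0 < w.re ∧ w.re < 1 := by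
        apply Filter.Eventually.filter_mono inf_le_right
        rw [eventually_principal]
        intro w hw
        exact hw
      filter_upwards [h1, h2] with w hw1 hw2
      have hne : (1 / 2 + t * I + w : ℂ) ≠ 1 := by
        intro h
        have := congrArg Complex.im h
        simp at this
        have h3 : w.im = -t := by linarith
        rw [h3, abs_neg, abs_of_pos ht0] at hw1
        exact lt_irrefl _ hw1
      refine (strip_crude (by linarith) hw2.1.le hw2.2.le hne).trans ?_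
      have e1 : Real.exp (w.re ^ 2) ≤ Real.exp 1 := by
        apply Real.exp_le_exp.2; nlinarith [hw2.1, hw2.2]
      have e2 : (1 + |w.im|) ^ 2 * Real.exp (-w.im ^ 2) ≤ 4 := by
        refine (sq_exp _).trans ?_
        have : Real.exp (-(w.im ^ 2) / 2) ≤ 1 := by rw [Real.exp_le_one_iff]; nlinarith [sq_nonneg w.im]
        linarith
      have e3 : (1:ℝ) ≤ ‖Real.exp (1 * Real.exp (1 * |w.im|))‖ := by
        rw [Real.norm_of_nonneg (Real.exp_pos _).le]
        exact Real.one_le_exp (by positivity)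
      calc 3 * (3 + t) ^ 2 / t * Real.exp (w.re ^ 2) * ((1 + |w.im|) ^ 2 * Real.exp (-w.im ^ 2))
          ≤ 3 * (3 + t) ^ 2 / t * Real.exp 1 * 4 := by gcongr
        _ = 3 * (3 + t) ^ 2 / t * Real.exp 1 * 4 * 1 := by ring
        _ ≤ _ := by gcongr
    · intro w hw
      have hne : (1 / 2 + t * I + w : ℂ) ≠ 1 := by
        intro h
        have := congrArg Complex.re h
        simp [hw] at this
      rcases le_or_gt |w.im| (Real.log t) with h | h
      · have h1 := F_le (z := w) ht8 (by rw [hw]; norm_num) (h.trans hlt)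
        have h2 := hZ w.im h
        have e : (1 / 2 + t * I + w : ℂ) = 1 / 2 + ((t + w.im : ℝ) : ℂ) * I := by
          apply Complex.ext <;> simp [hw]
        rw [e] at h1
        unfold Z at h2
        rw [norm_mul, norm_exp_sq, hw]
        have h3 : Real.exp ((0:ℝ) ^ 2 - w.im ^ 2) ≤ 1 := by
          rw [Real.exp_le_one_iff]; nlinarith [sq_nonneg w.im]
        calc ‖F t w‖ * Real.exp ((0:ℝ) ^ 2 - w.im ^ 2) ≤ (2 * M) * 1 := by
              gcongr
              exact h1.trans (by linarith)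
          _ ≤ _ := by nlinarith
      · refine (strip_crude (by linarith) hw.ge (by rw [hw]; norm_num) hne).trans ?_
        have e2 : (1 + |w.im|) ^ 2 * Real.exp (-w.im ^ 2) ≤ 4 / t := by
          refine (sq_exp _).trans ?_
          have h3 : Real.exp (-(w.im ^ 2) / 2) ≤ Real.exp (-Real.log t) := by
            apply Real.exp_le_exp.2
            have h4 : Real.log t ^ 2 ≤ w.im ^ 2 := by
              rw [← sq_abs w.im]; exact pow_le_pow_left₀ (by linarith) h.le 2
            nlinarith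
          rw [Real.exp_neg, Real.exp_log ht0] at h3
          calc 4 * Real.exp (-(w.im ^ 2) / 2) ≤ 4 * t⁻¹ := by gcongr
            _ = _ := by rw [div_eq_mul_inv]
        rw [hw]
        calc 3 * (3 + t) ^ 2 / t * Real.exp ((0:ℝ) ^ 2) * ((1 + |w.im|) ^ 2 * Real.exp (-w.im ^ 2))
            ≤ 3 * (3 + t) ^ 2 / t * Real.exp ((0:ℝ) ^ 2) * (4 / t) := by gcongr
          _ = 12 * ((3 + t) ^ 2 / t ^ 2) := by norm_num; field_simp; ring
          _ ≤ 12 * 4 := by
              gcongr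
              rw [div_le_iff₀ (by positivity)]; nlinarith
          _ ≤ (48 + 12 * C₁) * M := by nlinarith
    · intro w hw
      have e : (1 / 2 + t * I + w : ℂ) = ⟨3 / 2, t + w.im⟩ := by
        apply Complex.ext
        · simp [hw]; norm_num
        · simp
      have hne : (1 / 2 + t * I + w : ℂ) ≠ 1 := by
        intro h
        have := congrArg Complex.re h
        simp [hw] at this
      rw [norm_mul, norm_exp_sq, hw, F_norm ht0 hne]
      have h1 : ‖riemannZeta (1 / 2 + t * I + w)‖ ≤ C₁ := by rw [e]; exact hr _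
      have h2 : ‖(1 / 2 + t * I + w : ℂ) - 1‖ ≤ 2 * t * (1 + |w.im|) := by
        have := Complex.norm_le_abs_re_add_abs_im ((1 / 2 + t * I + w : ℂ) - 1)
        rw [e] at this ⊢
        rw [Complex.sub_re, Complex.sub_im, Complex.one_re, Complex.one_im, sub_zero] at this
        have h3 : |(3:ℝ) / 2 - 1| ≤ 1 / 2 := by norm_num
        have h4 : |t + w.im| ≤ t + |w.im| := by
          refine (abs_add_le _ _).trans ?_
          rw [abs_of_pos ht0]
        simp only at this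
        nlinarith [abs_nonneg w.im]
      have h5 : (1 + |w.im|) * Real.exp (-w.im ^ 2) ≤ 2 := by
        have h6 : 1 + w.im ^ 2 ≤ Real.exp (w.im ^ 2) := by
          have := Real.add_one_le_exp (w.im ^ 2); linarith
        have h7 : 1 + |w.im| ≤ 2 * Real.exp (w.im ^ 2) := by
          nlinarith [sq_abs w.im, sq_nonneg (1 - |w.im|)]
        calc (1 + |w.im|) * Real.exp (-w.im ^ 2) ≤ 2 * Real.exp (w.im ^ 2) * Real.exp (-w.im ^ 2) := by gcongr
          _ = 2 := by rw [mul_assoc, ← Real.exp_add]; simp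
      have h8 : Real.exp (1:ℝ) ≤ 3 := by have := Real.exp_one_lt_d9; linarith
      calc ‖(1 / 2 + t * I + w : ℂ) - 1‖ / t * ‖riemannZeta (1 / 2 + t * I + w)‖ * Real.exp ((1:ℝ) ^ 2 - w.im ^ 2)
          ≤ (2 * t * (1 + |w.im|)) / t * C₁ * Real.exp ((1:ℝ) ^ 2 - w.im ^ 2) := by gcongr
        _ = 2 * C₁ * Real.exp 1 * ((1 + |w.im|) * Real.exp (-w.im ^ 2)) := by
            rw [one_pow, sub_eq_add_neg, Real.exp_add]
            field_simp
        _ ≤ 2 * C₁ * 3 * 2 := by gcongr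
        _ ≤ _ := by nlinarith
  have h1 := le_F (z := z) ht8 (by linarith)
  have h2 : ‖F t z‖ ≤ (48 + 12 * C₁) * M * Real.exp 1 := by
    rw [norm_mul, norm_exp_sq] at main
    have h3 : Real.exp (-1) ≤ Real.exp (z.re ^ 2 - z.im ^ 2) := by
      apply Real.exp_le_exp.2
      have : z.im ^ 2 ≤ 1 := by rw [← sq_abs]; exact pow_le_one₀ (abs_nonneg _) hzi
      nlinarith [sq_nonneg z.re]
    have h4 : ‖F t z‖ * Real.exp (-1) ≤ (48 + 12 * C₁) * M :=
      (mul_le_mul_of_nonneg_left h3 (norm_nonneg _)).trans main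
    rw [Real.exp_neg] at h4
    rwa [← div_eq_mul_inv, div_le_iff₀ (Real.exp_pos _)] at h4
  linarith

end Pool.Agent.N798.G
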