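import Pool.Agent.N798.G3

set_option autoImplicit false

/-! A local bound for zeta and its derivative on the critical line by the mean of zeta over a short interval. -/

namespace Pool.Agent.N798.G

open MeasureTheory Filter Topology Set Complex
open Pool.Agent.R303.LM
open Pool.Agent.TH804.MS (F F_diff F_norm F_le le_F refl right z1_ne ne_one_of_im pt_eq)

lemma log_le_quarter {t : ℝ} (ht : 8 ≤ t) : Real.log t ≤ t / 2 := by
  have ht0 : 0 < t := by linarith
  have h1 := Real.add_one_le_exp (Real.log t / 2)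
  have h2 : Real.exp (Real.log t / 2) ^ 2 = t := by
    rw [← Real.exp_nat_mul]; push_cast; rw [mul_div_cancel₀ _ (two_ne_zero), Real.exp_log ht0]
  nlinarith [sq_nonneg (Real.log t / 2 - 1)]

/-- near the critical line -/
lemma near_line {r : ℝ} (hr0 : 0 < r) (hr1 : r ≤ 1 / 2) : ∃ C T₀ : ℝ, 1 ≤ C ∧ 8 ≤ T₀ ∧ ∀ t : ℝ, T₀ ≤ t → ∀ M : ℝ, 1 ≤ M →
    (∀ y : ℝ, |y| ≤ Real.log t → Z (t + y) ≤ M) → ∀ z : ℂ, ‖z‖ ≤ r →
      ‖riemannZeta (1 / 2 + t * I + z)‖ ≤ C * t ^ r * M := by
  obtain ⟨C, T₀, hC, hT₀, h⟩ := near_right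
  obtain ⟨K, hK, hK2⟩ := refl
  refine ⟨2 * K * C, T₀, by nlinarith, hT₀, fun t ht M hM hZ z hz => ?_⟩
  have ht8 : 8 ≤ t := hT₀.trans ht
  have ht1 : (1:ℝ) ≤ t ^ r := Real.one_le_rpow (by linarith) hr0.le
  have hre : |z.re| ≤ r := (Complex.abs_re_le_norm z).trans hz
  have him : |z.im| ≤ r := (Complex.abs_im_le_norm z).trans hz
  have hre' := abs_le.1 hre
  have him' := abs_le.1 him
  rcases le_or_gt 0 z.re with h0 | h0
  · refine (h t ht M hM hZ z h0 (by linarith) (by linarith)).trans ?_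
    have : C * M * 1 ≤ C * M * t ^ r := mul_le_mul_of_nonneg_left ht1 (by positivity)
    have h3 : 0 ≤ C * M * t ^ r := by positivity
    nlinarith
  · have e1 : (1 / 2 + t * I + z : ℂ) = ⟨1 / 2 - (-z.re), t + z.im⟩ := by
      apply Complex.ext
      · simp
      · simp
    have e2 : (⟨1 / 2 + (-z.re), t + z.im⟩ : ℂ) = 1 / 2 + t * I + ⟨-z.re, z.im⟩ := by
      apply Complex.ext
      · simp
      · simp
    rw [e1]
    refine (hK2 (-z.re) (t + z.im) (by linarith) (by linarith) (by linarith)).trans ?_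
    rw [e2]
    have h4 := h t ht M hM hZ ⟨-z.re, z.im⟩ (by simp; linarith) (by simp; linarith) (by simp; linarith)
    have h5 : (t + z.im) ^ (-z.re) ≤ 2 * t ^ r := by
      calc (t + z.im) ^ (-z.re) ≤ (2 * t) ^ (-z.re) :=
            Real.rpow_le_rpow (by linarith) (by linarith) (by linarith)
        _ = 2 ^ (-z.re) * t ^ (-z.re) := Real.mul_rpow (by norm_num) (by linarith)
        _ ≤ 2 ^ (1:ℝ) * t ^ r := by
            apply mul_le_mul
            · exact Real.rpow_le_rpow_of_exponent_le (by norm_num) (by linarith)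
            · exact Real.rpow_le_rpow_of_exponent_le (by linarith) (by linarith)
            · positivity
            · positivity
        _ = _ := by rw [Real.rpow_one]
    calc K * (t + z.im) ^ (-z.re) * ‖riemannZeta (1 / 2 + t * I + ⟨-z.re, z.im⟩)‖
        ≤ K * (2 * t ^ r) * (C * M) := by gcongr
      _ = _ := by ring

/-- the local bound, with a majorant on a short interval -/
lemma local_max {r : ℝ} (hr0 : 0 < r) (hr1 : r ≤ 1 / 4) : ∃ C T₀ : ℝ, 1 ≤ C ∧ 8 ≤ T₀ ∧ ∀ t : ℝ, T₀ ≤ t →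
    ∀ M : ℝ, 1 ≤ M → (∀ y : ℝ, |y| ≤ Real.log t → Z (t + y) ≤ M) →
      Z t ≤ C * t ^ r * M ∧ ‖deriv riemannZeta (1 / 2 + t * I)‖ ≤ C * t ^ r * M := by
  obtain ⟨C, T₀, hC, hT₀, h⟩ := near_line hr0 (by linarith)
  refine ⟨C / r, T₀, ?_, hT₀, fun t ht M hM hZ => ?_⟩
  · rw [le_div_iff₀ hr0]; linarith
  have ht8 : 8 ≤ t := hT₀.trans ht
  have htr : (1:ℝ) ≤ t ^ r := Real.one_le_rpow (by linarith) hr0.le
  have hCr : C * t ^ r * M ≤ C / r * t ^ r * M := by
    have : C ≤ C / r := by rw [le_div_iff₀ hr0]; nlinarith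
    gcongr
  constructor
  · have := h t ht M hM hZ 0 (by rw [norm_zero]; exact hr0.le)
    rw [add_zero] at this
    exact this.trans hCr
  · have hd : DiffContOnCl ℂ riemannZeta (Metric.ball (1 / 2 + t * I) r) := by
      apply DifferentiableOn.diffContOnCl
      intro s hs
      rw [closure_ball _ hr0.ne', Metric.mem_closedBall, dist_eq_norm] at hs
      apply (differentiableAt_riemannZeta _).differentiableWithinAt
      rintro rfl
      have h1 := (Complex.abs_im_le_norm _).trans hs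
      simp at h1
      rw [abs_of_pos (by linarith)] at h1
      linarith
    have h1 := Complex.norm_deriv_le_of_forall_mem_sphere_norm_le (C := C * t ^ r * M) hr0 hd (by
      intro z hz
      rw [mem_sphere_iff_norm] at hz
      have := h t ht M hM hZ (z - (1 / 2 + t * I)) hz.le
      rwa [add_sub_cancel] at this)
    refine h1.trans (le_of_eq ?_)
    ring

lemma Z_le_triv (t : ℝ) : Z t ≤ 9 * (1 + |t|) := by
  have h := Pool.Agent.H388LH.zeta_growth' (s := 1 / 2 + t * Complex.I) (by simp; norm_num) (by simp; norm_num)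
  have e : (1 / 2 + (t : ℂ) * Complex.I).im = t := by simp
  rw [e] at h
  exact h

/-- **The local bound.** -/
theorem local_mean {ε : ℝ} (hε : 0 < ε) (hε1 : ε ≤ 1) : ∃ C T₀ : ℝ, 1 ≤ C ∧ 8 ≤ T₀ ∧ ∀ t : ℝ, T₀ ≤ t →
    Z t ≤ C * t ^ ε * (1 + ∫ y in (t - 3 * Real.log t)..(t + 3 * Real.log t), Z y) ∧
      ‖deriv riemannZeta (1 / 2 + t * I)‖ ≤
        C * t ^ ε * (1 + ∫ y in (t - 3 * Real.log t)..(t + 3 * Real.log t), Z y) := by
  obtain ⟨C, T₀, hC, hT₀, h⟩ := local_max (r := ε / 4) (by positivity) (by linarith)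
  obtain ⟨W, r, T₁, hW, hr, hr1, hT₁, hwin⟩ := window (ε := ε / 4) (by positivity) (by linarith)
  have hZc : Continuous Z := Z_cont
  refine ⟨C * (1 + 2 / r), T₀ + 2 * T₁ + Real.exp (W + 1), ?_, ?_, fun t ht => ?_⟩
  · have : 0 ≤ 2 / r := by positivity
    nlinarith
  · have := Real.exp_pos (W + 1); linarith
  have hexp := Real.exp_pos (W + 1)
  have ht0 : T₀ ≤ t := by linarith
  have ht8 : 8 ≤ t := by linarith
  have htp : 0 < t := by linarith
  have hlW : W + 1 ≤ Real.log t := by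
    rw [Real.le_log_iff_exp_le htp]; linarith
  have hl0 : 1 ≤ Real.log t := by linarith
  have hlt := log_le_quarter ht8
  set Q : ℝ := ∫ y in (t - 3 * Real.log t)..(t + 3 * Real.log t), Z y with hQ
  have hint : ∀ x y : ℝ, IntervalIntegrable Z volume x y := fun x y => hZc.intervalIntegrable _ _
  have hQ0 : 0 ≤ Q := intervalIntegral.integral_nonneg (by linarith) fun y _ => norm_nonneg _
  obtain ⟨y₀, hy₀, hmax⟩ := (isCompact_Icc (a := t - Real.log t) (b := t + Real.log t)).exists_isMaxOn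
    (nonempty_Icc.2 (by linarith)) hZc.continuousOn
  set M : ℝ := max 1 (Z y₀) with hM
  have hM1 : 1 ≤ M := le_max_left _ _
  have hMy : ∀ y : ℝ, |y| ≤ Real.log t → Z (t + y) ≤ M := by
    intro y hy
    have hy' := abs_le.1 hy
    exact (hmax (show t + y ∈ Icc (t - Real.log t) (t + Real.log t) from ⟨by linarith, by linarith⟩)).trans
      (le_max_right _ _)
  have hMQ : M ≤ (1 + 2 / r) * t ^ (ε / 4) * (1 + Q) := by
    have ht1 : (1:ℝ) ≤ t ^ (ε / 4) := Real.one_le_rpow (by linarith) (by positivity)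
    have hpos : 1 ≤ (1 + 2 / r) * t ^ (ε / 4) * (1 + Q) := by
      have h1 : (1:ℝ) ≤ 1 + 2 / r := by
        have : 0 ≤ 2 / r := by positivity
        linarith
      have h2 : 1 ≤ (1 + 2 / r) * t ^ (ε / 4) := by nlinarith
      nlinarith
    rcases le_or_gt (Z y₀) 1 with h1 | h1
    · rw [hM, max_eq_left h1]; exact hpos
    · rw [hM, max_eq_right h1.le]
      have hy₀t : T₁ ≤ y₀ := by
        have := hy₀.1
        linarith
      obtain ⟨T₂, hT₂, G, hGm, hGs, hGv, hG⟩ := hwin y₀ hy₀t h1.le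
      have hT₂' := abs_le.1 hT₂
      have hsub : G ⊆ Ioc (t - 3 * Real.log t) (t + 3 * Real.log t) := by
        intro x hx
        have h2 := hGs hx
        constructor
        · linarith [h2.1, hy₀.1]
        · linarith [h2.2, hy₀.2]
      have h2 : r * (y₀ ^ (-(ε / 4)) * Z y₀) ≤ Q := by
        rw [hQ, intervalIntegral.integral_of_le (by linarith)]
        have hZint : IntegrableOn Z (Ioc (t - 3 * Real.log t) (t + 3 * Real.log t)) volume :=
          hZc.integrableOn_Ioc
        have h3 : ∫ x in G, Z x ≤ ∫ x in Ioc (t - 3 * Real.log t) (t + 3 * Real.log t), Z x :=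
          setIntegral_mono_set hZint (Eventually.of_forall fun x => norm_nonneg _) (Eventually.of_forall hsub)
        refine le_trans ?_ h3
        have hGfin : volume G ≠ ⊤ := by
          refine ne_top_of_le_ne_top ?_ (measure_mono hGs)
          rw [Real.volume_Icc]; exact ENNReal.ofReal_ne_top
        have h4 : ∫ x in G, (y₀ ^ (-(ε / 4)) * Z y₀) ≤ ∫ x in G, Z x := by
          apply setIntegral_mono_on
          · exact integrableOn_const hGfin
          · exact hZint.mono_set hsub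
          · exact hGm
          · exact hG
        refine le_trans ?_ h4
        rw [setIntegral_const, smul_eq_mul]
        apply mul_le_mul_of_nonneg_right
        · rw [Measure.real, ← ENNReal.toReal_ofReal hr.le]
          exact ENNReal.toReal_mono hGfin hGv
        · have : 0 ≤ Z y₀ := norm_nonneg _
          have hy0 : 0 ≤ y₀ := by linarith
          positivity
      have hy₀p : 0 < y₀ := by linarith
      have h5 : Z y₀ ≤ r⁻¹ * y₀ ^ (ε / 4) * Q := by
        rw [Real.rpow_neg hy₀p.le] at h2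
        have h6 : 0 < y₀ ^ (ε / 4) := Real.rpow_pos_of_pos hy₀p _
        have h7 : r * ((y₀ ^ (ε / 4))⁻¹ * Z y₀) * (r⁻¹ * y₀ ^ (ε / 4)) = Z y₀ := by
          field_simp
        rw [← h7]
        have h8 : 0 ≤ r⁻¹ * y₀ ^ (ε / 4) := by positivity
        calc r * ((y₀ ^ (ε / 4))⁻¹ * Z y₀) * (r⁻¹ * y₀ ^ (ε / 4)) ≤ Q * (r⁻¹ * y₀ ^ (ε / 4)) :=
              mul_le_mul_of_nonneg_right h2 h8
          _ = _ := by ring
      have h9 : y₀ ^ (ε / 4) ≤ 2 * t ^ (ε / 4) := by
        calc y₀ ^ (ε / 4) ≤ (2 * t) ^ (ε / 4) :=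
              Real.rpow_le_rpow hy₀p.le (by linarith [hy₀.2]) (by positivity)
          _ = 2 ^ (ε / 4) * t ^ (ε / 4) := Real.mul_rpow (by norm_num) htp.le
          _ ≤ 2 ^ (1:ℝ) * t ^ (ε / 4) := by
              gcongr
              · norm_num
              · linarith
          _ = _ := by rw [Real.rpow_one]
      calc Z y₀ ≤ r⁻¹ * y₀ ^ (ε / 4) * Q := h5
        _ ≤ r⁻¹ * (2 * t ^ (ε / 4)) * Q := by gcongr
        _ = (2 / r) * t ^ (ε / 4) * Q := by field_simp
        _ ≤ (1 + 2 / r) * t ^ (ε / 4) * (1 + Q) := by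
            gcongr
            · linarith
            · linarith
  obtain ⟨k1, k2⟩ := h t ht0 M hM1 hMy
  have hfin : C * t ^ (ε / 4) * M ≤ C * (1 + 2 / r) * t ^ ε * (1 + Q) := by
    have h1 : t ^ (ε / 4) * t ^ (ε / 4) ≤ t ^ ε := by
      rw [← Real.rpow_add htp]
      exact Real.rpow_le_rpow_of_exponent_le (by linarith) (by linarith)
    calc C * t ^ (ε / 4) * M ≤ C * t ^ (ε / 4) * ((1 + 2 / r) * t ^ (ε / 4) * (1 + Q)) := by gcongr
      _ = C * (1 + 2 / r) * (t ^ (ε / 4) * t ^ (ε / 4)) * (1 + Q) := by ring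
      _ ≤ _ := by gcongr
  exact ⟨k1.trans hfin, k2.trans hfin⟩

end Pool.Agent.N798.G
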