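import Pool.Agent.N798.G2

set_option autoImplicit false

/-! Smooth cut-offs and the variance of the sampling error for functions with mean square bounds. -/

namespace Pool.Agent.N798.G

open MeasureTheory Filter Topology Set
open scoped ENNReal Real

/-- smooth cut-off: `1` on `[2, U]`, `0` below `1` and above `U + L` -/
noncomputable def cut (U L v : ℝ) : ℝ := Real.smoothTransition (v - 1) * Real.smoothTransition ((U + L - v) / L)

lemma cut_nonneg (U L v : ℝ) : 0 ≤ cut U L v :=
  mul_nonneg (Real.smoothTransition.nonneg _) (Real.smoothTransition.nonneg _)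

lemma cut_le_one (U L v : ℝ) : cut U L v ≤ 1 := by
  unfold cut
  exact mul_le_one₀ (Real.smoothTransition.le_one _) (Real.smoothTransition.nonneg _) (Real.smoothTransition.le_one _)

lemma cut_one {U L v : ℝ} (hL : 0 < L) (h2 : 2 ≤ v) (hU : v ≤ U) : cut U L v = 1 := by
  unfold cut
  rw [Real.smoothTransition.one_of_one_le (by linarith), Real.smoothTransition.one_of_one_le, one_mul]
  rw [le_div_iff₀ hL]; linarith

lemma cut_zero_left {U L v : ℝ} (h : v ≤ 1) : cut U L v = 0 := by
  unfold cut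
  rw [Real.smoothTransition.zero_of_nonpos (by linarith), zero_mul]

lemma cut_zero_right {U L v : ℝ} (hL : 0 < L) (h : U + L ≤ v) : cut U L v = 0 := by
  unfold cut
  rw [Real.smoothTransition.zero_of_nonpos (x := (U + L - v) / L), mul_zero]
  exact div_nonpos_of_nonpos_of_nonneg (by linarith) hL.le

lemma cut_contDiff (U L : ℝ) : ContDiff ℝ 1 (cut U L) := by
  unfold cut
  have h1 : ContDiff ℝ 1 Real.smoothTransition := Real.smoothTransition.contDiff
  exact (h1.comp (by fun_prop)).mul (h1.comp (by fun_prop))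

lemma sT_deriv : ∃ K : ℝ, 0 ≤ K ∧ ∀ x, |deriv Real.smoothTransition x| ≤ K := by
  have h1 : ContDiff ℝ 1 Real.smoothTransition := Real.smoothTransition.contDiff
  have h2 : Continuous (deriv Real.smoothTransition) := h1.continuous_deriv le_rfl
  obtain ⟨K, hK⟩ := (isCompact_Icc (a := (-1:ℝ)) (b := 2)).exists_bound_of_continuousOn h2.continuousOn
  refine ⟨|K|, abs_nonneg _, fun x => ?_⟩
  by_cases hx : x ∈ Icc (-1:ℝ) 2
  · exact (hK x hx).trans (le_abs_self K)
  · have h3 : deriv Real.smoothTransition x = 0 := by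
      rw [Set.mem_Icc, not_and_or, not_le, not_le] at hx
      rcases hx with hx | hx
      · have : Real.smoothTransition =ᶠ[𝓝 x] fun _ => 0 := by
          filter_upwards [Iio_mem_nhds hx] with y hy
          exact Real.smoothTransition.zero_of_nonpos (by have : y < -1 := hy; linarith)
        rw [this.deriv_eq, deriv_const]
      · have : Real.smoothTransition =ᶠ[𝓝 x] fun _ => 1 := by
          filter_upwards [Ioi_mem_nhds hx] with y hy
          exact Real.smoothTransition.one_of_one_le (by have : 2 < y := hy; linarith)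
        rw [this.deriv_eq, deriv_const]
    rw [h3, abs_zero]
    exact abs_nonneg _

lemma cut_deriv : ∃ K : ℝ, 0 ≤ K ∧ ∀ U L v, 1 ≤ L → |deriv (cut U L) v| ≤ K := by
  obtain ⟨K, hK, h⟩ := sT_deriv
  refine ⟨K + K, by positivity, fun U L v hL => ?_⟩
  have hd : ∀ x, HasDerivAt Real.smoothTransition (deriv Real.smoothTransition x) x := fun x =>
    ((Real.smoothTransition.contDiff (n := 1)).differentiable one_ne_zero x).hasDerivAt
  have h1 : HasDerivAt (fun v => Real.smoothTransition (v - 1)) (deriv Real.smoothTransition (v - 1)) v := by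
    have := (hd (v - 1)).comp v ((hasDerivAt_id v).sub_const 1)
    rw [mul_one] at this
    exact this
  have h2 : HasDerivAt (fun v => Real.smoothTransition ((U + L - v) / L))
      (deriv Real.smoothTransition ((U + L - v) / L) * (-1 / L)) v := by
    have h3 : HasDerivAt (fun v : ℝ => (U + L - v) / L) (-1 / L) v :=
      ((hasDerivAt_id v).const_sub (U + L)).div_const L
    exact (hd ((U + L - v) / L)).comp v h3
  have h3 : deriv (cut U L) v = _ := (h1.mul h2).deriv
  rw [h3]
  refine (abs_add_le _ _).trans (add_le_add ?_ ?_)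
  · rw [abs_mul, abs_of_nonneg (Real.smoothTransition.nonneg _)]
    calc |deriv Real.smoothTransition (v - 1)| * Real.smoothTransition ((U + L - v) / L) ≤ K * 1 := by
          apply mul_le_mul (h _) (Real.smoothTransition.le_one _) (Real.smoothTransition.nonneg _) hK
      _ = K := mul_one K
  · rw [abs_mul, abs_mul, abs_of_nonneg (Real.smoothTransition.nonneg _), abs_div, abs_neg, abs_one,
      abs_of_pos (by linarith : (0:ℝ) < L)]
    calc Real.smoothTransition (v - 1) * (|deriv Real.smoothTransition ((U + L - v) / L)| * (1 / L))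
        ≤ 1 * (K * 1) := by
          apply mul_le_mul (Real.smoothTransition.le_one _) _ (by positivity) zero_le_one
          apply mul_le_mul (h _) _ (by positivity) hK
          rw [div_le_one (by linarith)]; exact hL
      _ = K := by ring

/-- the sum of the cut-off function over the multiples of `a` -/
noncomputable def Sg (g : ℝ → ℝ) (M : ℕ) (a : ℝ) : ℝ := ∑ n ∈ Finset.Icc 1 M, g (a * n)

lemma tsum_eq_Sg {g : ℝ → ℝ} {a : ℝ} (ha : 0 < a) {M : ℕ} (h1 : ∀ v, v ≤ 1 → g v = 0)
    (h2 : ∀ v, a * M ≤ v → g v = 0) :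
    ∑' n : ℤ, ((g (a * n) : ℝ) : ℂ) = ((Sg g M a : ℝ) : ℂ) := by
  unfold Sg
  have h3 : ∀ n : ℤ, n ∉ (Finset.Icc 1 M).map ⟨fun k : ℕ => (k : ℤ), Nat.cast_injective⟩ →
      ((g (a * n) : ℝ) : ℂ) = 0 := by
    intro n hn
    rw [Finset.mem_map, not_exists] at hn
    have h4 : g (a * n) = 0 := by
      rcases le_or_gt n 0 with hn0 | hn0
      · apply h1
        have : (n:ℝ) ≤ 0 := by exact_mod_cast hn0
        nlinarith
      · obtain ⟨k, rfl⟩ := Int.eq_ofNat_of_zero_le hn0.le
        have h5 := hn k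
        have h6 : ¬ (k ≤ M) := by
          intro hk
          apply h5
          refine ⟨Finset.mem_Icc.2 ⟨by exact_mod_cast hn0, hk⟩, rfl⟩
        apply h2
        have h7 : (M:ℝ) ≤ k := by exact_mod_cast (not_le.1 h6).le
        push_cast
        exact mul_le_mul_of_nonneg_left h7 ha.le
    rw [h4, Complex.ofReal_zero]
  rw [tsum_eq_sum h3, Finset.sum_map]
  push_cast
  rfl

/-- **The variance, for cut-off functions.** -/
theorem var_one {A B : ℝ} (hA : 0 < A) (hAB : A ≤ B) {p q C : ℝ} (hC : 0 ≤ C) (hpq : p ≤ q) (hpq4 : p + q < 4) :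
    ∃ K : ℝ, 0 ≤ K ∧ ∀ (V U L : ℝ) (h : ℝ → ℝ) (M : ℕ), 1 ≤ V → 1 ≤ L → U + L ≤ 3 * V → U + L ≤ A * M →
      ContDiff ℝ 1 h → (∫ v in (1:ℝ)..(3 * V), h v ^ 2) ≤ C * V ^ p →
      (∫ v in (1:ℝ)..(3 * V), deriv h v ^ 2) ≤ C * V ^ q →
      ∫⁻ a in Icc A B, ENNReal.ofReal ((Sg (fun v => h v * cut U L v) M a - a⁻¹ * ∫ v, h v * cut U L v) ^ 2) ≤
        ENNReal.ofReal (K * V ^ (2 - (4 - p - q) / 4)) := by
  set s : ℝ := (4 - p - q) / 4 with hs
  have hs0 : 0 < s := by rw [hs]; linarith
  set e : ℝ := min (1 / 2) (s / (1 + (q - p))) with he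
  have he0 : 0 < e := lt_min (by norm_num) (div_pos hs0 (by linarith))
  have he1 : e < 1 := (min_le_left _ _).trans_lt (by norm_num)
  have hes : e * ((q - p) / 2) ≤ s := by
    have h1 : e * (1 + (q - p)) ≤ s := by
      rw [← le_div_iff₀ (by linarith)]; exact min_le_right _ _
    have h2 : 0 ≤ e * (1 + (q - p)) := mul_nonneg he0.le (by linarith)
    nlinarith
  obtain ⟨K₁, hK₁, hvar⟩ := sampling_var hA hAB he0 he1
  obtain ⟨K₂, hK₂, hcut⟩ := cut_deriv
  refine ⟨K₁ * (C + 2 * (C + K₂ ^ 2 * C)), by positivity, fun V U L h M hV hL hUL hUM hh hi1 hi2 => ?_⟩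
  have hV0 : 0 < V := by linarith
  have hL0 : 0 < L := by linarith
  set g : ℝ → ℝ := fun v => h v * cut U L v with hg
  set G : ℝ → ℂ := fun v => ((g v : ℝ) : ℂ) with hG
  have hgc : ContDiff ℝ 1 g := hh.mul (cut_contDiff U L)
  have hGc : ContDiff ℝ 1 G := Complex.ofRealCLM.contDiff.comp hgc
  have hg1 : ∀ v, v ≤ 1 → g v = 0 := fun v hv => by simp only [hg, cut_zero_left hv, mul_zero]
  have hg2 : ∀ v, U + L ≤ v → g v = 0 := fun v hv => by simp only [hg, cut_zero_right hL0 hv, mul_zero]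
  have hsupp : ∀ v, v ∉ Ioc (1:ℝ) (3 * V) → g v = 0 := by
    intro v hv
    rw [mem_Ioc, not_and_or, not_lt, not_le] at hv
    rcases hv with hv | hv
    · exact hg1 v hv
    · exact hg2 v (by linarith)
  have hGs : HasCompactSupport G := by
    refine HasCompactSupport.of_support_subset_isCompact (isCompact_Icc (a := (1:ℝ)) (b := 3 * V)) ?_
    intro v hv
    by_contra hcon
    apply hv
    have : v ∉ Ioc (1:ℝ) (3 * V) := fun h => hcon ⟨h.1.le, h.2⟩
    simp only [hG, hsupp v this, Complex.ofReal_zero]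
  have hderG : ∀ v, deriv G v = ((deriv g v : ℝ) : ℂ) := by
    intro v
    have h1 : HasDerivAt g (deriv g v) v := (hgc.differentiable one_ne_zero v).hasDerivAt
    exact h1.ofReal_comp.deriv
  have hderg : ∀ v, v ∉ Ioc (1:ℝ) (3 * V) → v ≠ 1 → deriv g v = 0 := by
    intro v hv hv1
    rw [mem_Ioc, not_and_or, not_lt, not_le] at hv
    rcases hv with hv | hv
    · have hlt : v < 1 := lt_of_le_of_ne hv hv1
      have : g =ᶠ[𝓝 v] fun _ => 0 := by
        filter_upwards [Iio_mem_nhds hlt] with y hy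
        exact hg1 y (le_of_lt hy)
      rw [this.deriv_eq, deriv_const]
    · have : g =ᶠ[𝓝 v] fun _ => 0 := by
        filter_upwards [Ioi_mem_nhds hv] with y hy
        exact hg2 y (by have : 3 * V < y := hy; linarith)
      rw [this.deriv_eq, deriv_const]
  -- norms
  have hconv : ∀ f : ℝ → ℝ, Continuous f → (∀ v, v ∉ Ioc (1:ℝ) (3 * V) → v ≠ 1 → f v = 0) →
      ∀ D : ℝ, (∫ v in (1:ℝ)..(3 * V), f v ^ 2) ≤ D → ∫⁻ v, ‖((f v : ℝ) : ℂ)‖ₑ ^ 2 ≤ ENNReal.ofReal D := by
    intro f hf hf0 D hD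
    have e1 : ∀ v, ‖((f v : ℝ) : ℂ)‖ₑ ^ 2 = ENNReal.ofReal (f v ^ 2) := by
      intro v
      rw [← ofReal_norm, ← ENNReal.ofReal_pow (norm_nonneg _), Complex.norm_real, Real.norm_eq_abs, sq_abs]
    simp only [e1]
    have e2 : ∫⁻ v, ENNReal.ofReal (f v ^ 2) = ∫⁻ v in Ioc (1:ℝ) (3 * V), ENNReal.ofReal (f v ^ 2) := by
      rw [← lintegral_indicator measurableSet_Ioc]
      apply lintegral_congr_ae
      have : ∀ᵐ v : ℝ, v ≠ 1 := by
        rw [ae_iff]; simp
      filter_upwards [this] with v hv1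
      rw [Set.indicator]
      split_ifs with h1
      · rfl
      · rw [hf0 v h1 hv1]; simp
    rw [e2, ← ofReal_integral_eq_lintegral_ofReal]
    · rw [← intervalIntegral.integral_of_le (by linarith)]
      exact ENNReal.ofReal_le_ofReal hD
    · exact (hf.pow 2).integrableOn_Ioc
    · exact Eventually.of_forall fun v => sq_nonneg _
  have hhc : Continuous h := hh.continuous
  have hh'c : Continuous (deriv h) := hh.continuous_deriv le_rfl
  have n1 : ∫⁻ v, ‖G v‖ₑ ^ 2 ≤ ENNReal.ofReal (C * V ^ p) := by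
    refine hconv g hgc.continuous (fun v hv _ => hsupp v hv) _ (le_trans ?_ hi1)
    refine intervalIntegral.integral_mono_on (by linarith) (by have := hgc.continuous; exact (this.pow 2).intervalIntegrable _ _)
      ((hhc.pow 2).intervalIntegrable _ _) fun v _ => ?_
    simp only [hg]
    rw [mul_pow]
    have h1 : cut U L v ^ 2 ≤ 1 := pow_le_one₀ (cut_nonneg _ _ _) (cut_le_one _ _ _)
    nlinarith [sq_nonneg (h v)]
  have hdg : ∀ v, deriv g v = deriv h v * cut U L v + h v * deriv (cut U L) v := by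
    intro v
    exact ((hh.differentiable one_ne_zero v).hasDerivAt.mul
      ((cut_contDiff U L).differentiable one_ne_zero v).hasDerivAt).deriv
  have n2 : ∫⁻ v, ‖deriv G v‖ₑ ^ 2 ≤ ENNReal.ofReal (2 * (C + K₂ ^ 2 * C) * V ^ q) := by
    simp only [hderG]
    refine hconv (deriv g) (hgc.continuous_deriv le_rfl) hderg _ ?_
    have i1 : IntervalIntegrable (fun v => deriv h v ^ 2) volume 1 (3 * V) := (hh'c.pow 2).intervalIntegrable _ _
    have i2 : IntervalIntegrable (fun v => h v ^ 2) volume 1 (3 * V) := (hhc.pow 2).intervalIntegrable _ _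
    calc ∫ v in (1:ℝ)..(3 * V), deriv g v ^ 2
        ≤ ∫ v in (1:ℝ)..(3 * V), (2 * deriv h v ^ 2 + 2 * K₂ ^ 2 * h v ^ 2) := by
          refine intervalIntegral.integral_mono_on (by linarith)
            (by have := hgc.continuous_deriv le_rfl; exact (this.pow 2).intervalIntegrable _ _)
            ((i1.const_mul 2).add (i2.const_mul _)) fun v _ => ?_
          rw [hdg]
          have h1 : cut U L v ^ 2 ≤ 1 := pow_le_one₀ (cut_nonneg _ _ _) (cut_le_one _ _ _)
          have h2 : deriv (cut U L) v ^ 2 ≤ K₂ ^ 2 := by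
            rw [← sq_abs]; exact pow_le_pow_left₀ (abs_nonneg _) (hcut U L v hL) 2
          have h3 : (deriv h v * cut U L v) ^ 2 ≤ deriv h v ^ 2 := by
            rw [mul_pow]; nlinarith [sq_nonneg (deriv h v)]
          have h4 : (h v * deriv (cut U L) v) ^ 2 ≤ K₂ ^ 2 * h v ^ 2 := by
            rw [mul_pow]; nlinarith [sq_nonneg (h v)]
          nlinarith [sq_nonneg (deriv h v * cut U L v - h v * deriv (cut U L) v)]
      _ = 2 * (∫ v in (1:ℝ)..(3 * V), deriv h v ^ 2) + 2 * K₂ ^ 2 * ∫ v in (1:ℝ)..(3 * V), h v ^ 2 := by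
          rw [intervalIntegral.integral_add (i1.const_mul 2) (i2.const_mul _), intervalIntegral.integral_const_mul,
            intervalIntegral.integral_const_mul]
      _ ≤ 2 * (C * V ^ q) + 2 * K₂ ^ 2 * (C * V ^ q) := by
          have h5 : V ^ p ≤ V ^ q := Real.rpow_le_rpow_of_exponent_le hV hpq
          have h6 : C * V ^ p ≤ C * V ^ q := mul_le_mul_of_nonneg_left h5 hC
          have h7 := hi1.trans h6
          nlinarith [mul_le_mul_of_nonneg_left h7 (by positivity : (0:ℝ) ≤ 2 * K₂ ^ 2)]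
      _ = _ := by ring
  have key := hvar G hGc hGs (V ^ ((q - p) / 2)) (by positivity)
  have e0 : ∫⁻ a in Icc A B, ENNReal.ofReal ((Sg g M a - a⁻¹ * ∫ v, g v) ^ 2) =
      ∫⁻ a in Icc A B, ‖(∑' n : ℤ, G (a * n)) - ((a⁻¹ : ℝ) : ℂ) * ∫ x, G x‖ₑ ^ 2 := by
    refine setLIntegral_congr_fun measurableSet_Icc fun a ha => ?_
    have ha0 : 0 < a := hA.trans_le ha.1
    have e1 := tsum_eq_Sg (g := g) (M := M) ha0 hg1 (fun v hv => hg2 v (by
      have : A * M ≤ a * M := mul_le_mul_of_nonneg_right ha.1 (Nat.cast_nonneg _)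
      linarith))
    simp only [hG]
    rw [e1, integral_complex_ofReal, ← Complex.ofReal_mul, ← Complex.ofReal_sub, ← ofReal_norm,
      ← ENNReal.ofReal_pow (norm_nonneg _), Complex.norm_real, Real.norm_eq_abs, sq_abs]
  rw [e0]
  refine key.trans ?_
  calc ENNReal.ofReal K₁ * (ENNReal.ofReal ((V ^ ((q - p) / 2)) ^ (1 + e)) * (∫⁻ x, ‖G x‖ₑ ^ 2) +
          ENNReal.ofReal ((V ^ ((q - p) / 2)) ^ (-(1 - e))) * (∫⁻ x, ‖deriv G x‖ₑ ^ 2))
      ≤ ENNReal.ofReal K₁ * (ENNReal.ofReal ((V ^ ((q - p) / 2)) ^ (1 + e)) * ENNReal.ofReal (C * V ^ p) +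
          ENNReal.ofReal ((V ^ ((q - p) / 2)) ^ (-(1 - e))) * ENNReal.ofReal (2 * (C + K₂ ^ 2 * C) * V ^ q)) := by
        gcongr
    _ = ENNReal.ofReal (K₁ * ((V ^ ((q - p) / 2)) ^ (1 + e) * (C * V ^ p) +
          (V ^ ((q - p) / 2)) ^ (-(1 - e)) * (2 * (C + K₂ ^ 2 * C) * V ^ q))) := by
        rw [← ENNReal.ofReal_mul (by positivity), ← ENNReal.ofReal_mul (by positivity),
          ← ENNReal.ofReal_add (by positivity) (by positivity), ← ENNReal.ofReal_mul hK₁]
    _ ≤ _ := by
        apply ENNReal.ofReal_le_ofReal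
        rw [mul_assoc K₁]
        apply mul_le_mul_of_nonneg_left _ hK₁
        have e3 : (V ^ ((q - p) / 2)) ^ (1 + e) * V ^ p ≤ V ^ (2 - s) := by
          rw [← Real.rpow_mul hV0.le, ← Real.rpow_add hV0]
          apply Real.rpow_le_rpow_of_exponent_le hV
          have : (q - p) / 2 * (1 + e) + p = (p + q) / 2 + e * ((q - p) / 2) := by ring
          rw [this]
          have : (p + q) / 2 = 2 - 2 * s := by rw [hs]; ring
          linarith
        have e4 : (V ^ ((q - p) / 2)) ^ (-(1 - e)) * V ^ q ≤ V ^ (2 - s) := by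
          rw [← Real.rpow_mul hV0.le, ← Real.rpow_add hV0]
          apply Real.rpow_le_rpow_of_exponent_le hV
          have : (q - p) / 2 * (-(1 - e)) + q = (p + q) / 2 + e * ((q - p) / 2) := by ring
          rw [this]
          have : (p + q) / 2 = 2 - 2 * s := by rw [hs]; ring
          linarith
        calc (V ^ ((q - p) / 2)) ^ (1 + e) * (C * V ^ p) +
              (V ^ ((q - p) / 2)) ^ (-(1 - e)) * (2 * (C + K₂ ^ 2 * C) * V ^ q)
            = C * ((V ^ ((q - p) / 2)) ^ (1 + e) * V ^ p) +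
              2 * (C + K₂ ^ 2 * C) * ((V ^ ((q - p) / 2)) ^ (-(1 - e)) * V ^ q) := by ring
          _ ≤ C * V ^ (2 - s) + 2 * (C + K₂ ^ 2 * C) * V ^ (2 - s) := by gcongr
          _ = _ := by ring

end Pool.Agent.N798.G
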