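import Pool.Agent.N798.G5

set_option autoImplicit false

/-! The sampling theorem for almost every spacing. -/

namespace Pool.Agent.N798.G

open MeasureTheory Filter Topology Set
open scoped ENNReal Real

lemma bc {A B : ℝ} (D : ℕ → ℝ → ℝ) (hD : ∀ j, Measurable (D j)) (w : ℕ → ℝ) (hw : ∀ j, 0 < w j) {b : ℕ → ℝ}
    (hb : Summable b) (hb0 : ∀ j, 0 ≤ b j)
    (h : ∀ j, ∫⁻ a in Icc A B, ENNReal.ofReal (D j a ^ 2) ≤ ENNReal.ofReal (b j * w j)) :
    ∀ᵐ a ∂(volume.restrict (Icc A B)), ∀ᶠ j in atTop, D j a ^ 2 ≤ w j := by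
  have m : ∀ j, Measurable fun a => ENNReal.ofReal (D j a ^ 2 / w j) := fun j =>
    (((hD j).pow_const 2).div_const _).ennreal_ofReal
  have h1 : ∫⁻ a in Icc A B, ∑' j, ENNReal.ofReal (D j a ^ 2 / w j) ≠ ⊤ := by
    rw [lintegral_tsum fun j => (m j).aemeasurable]
    refine ne_top_of_le_ne_top (hb.tsum_ofReal_ne_top) (ENNReal.tsum_le_tsum fun j => ?_)
    have e : ∀ a, ENNReal.ofReal (D j a ^ 2 / w j) = ENNReal.ofReal (w j)⁻¹ * ENNReal.ofReal (D j a ^ 2) := by
      intro a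
      rw [← ENNReal.ofReal_mul (inv_pos.2 (hw j)).le, div_eq_inv_mul]
    simp only [e]
    rw [lintegral_const_mul' _ _ ENNReal.ofReal_ne_top]
    refine (mul_le_mul_right (h j) _).trans (le_of_eq ?_)
    rw [← ENNReal.ofReal_mul (inv_pos.2 (hw j)).le]
    congr 1
    have := (hw j).ne'
    field_simp
  have h2 := ae_lt_top (Measurable.ennreal_tsum m) h1
  filter_upwards [h2] with a ha
  have h3 := ENNReal.tendsto_atTop_zero_of_tsum_ne_top ha.ne
  filter_upwards [h3.eventually_lt_const zero_lt_one] with j hj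
  have h4 : D j a ^ 2 / w j < 1 := by
    rw [← ENNReal.ofReal_one] at hj
    exact (ENNReal.ofReal_lt_ofReal_iff zero_lt_one).1 hj
  rw [div_lt_one (hw j)] at h4
  exact h4.le

/-- approximation of `H` by continuously differentiable functions with mean square bounds -/
def App (H : ℝ → ℝ) (p q κ C : ℝ) : Prop := ∀ V : ℝ, 1 ≤ V → ∃ h : ℝ → ℝ, ContDiff ℝ 1 h ∧
  (∀ v ∈ Icc (1:ℝ) (3 * V), |H v - h v| ≤ C * V ^ (-κ)) ∧
  (∫ v in (1:ℝ)..(3 * V), h v ^ 2) ≤ C * V ^ p ∧ (∫ v in (1:ℝ)..(3 * V), deriv h v ^ 2) ≤ C * V ^ q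

lemma int_scale {H : ℝ → ℝ} {a : ℝ} (ha : 0 < a) (X : ℝ) :
    a⁻¹ * ∫ v in (0:ℝ)..X, H v = ∫ y in (0:ℝ)..(X / a), H (a * y) := by
  have := intervalIntegral.integral_comp_mul_left (a := 0) (b := X / a) H ha.ne'
  rw [this, mul_zero, mul_div_cancel₀ _ ha.ne', smul_eq_mul]

/-- the integral against a cut-off -/
lemma int_cut {H h : ℝ → ℝ} (hH : Continuous H) (h0 : ∀ v, 0 ≤ H v) (hh : Continuous h) {V U L E : ℝ} (hV : 1 ≤ V)
    (hL : 0 < L) (hUL : U + L ≤ 3 * V) (hE : 0 ≤ E) (h1 : ∀ v ∈ Icc (1:ℝ) (3 * V), |H v - h v| ≤ E) (hUL1 : 1 ≤ U + L) :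
    (∫ v, h v * cut U L v) ≤ (∫ v in (0:ℝ)..(U + L), H v) + E * (3 * V) ∧
      (2 ≤ U → (∫ v in (2:ℝ)..U, H v) - E * (3 * V) ≤ ∫ v, h v * cut U L v) := by
  have hcc : Continuous (cut U L) := (cut_contDiff U L).continuous
  have e1 : ∫ v, h v * cut U L v = ∫ v in (1:ℝ)..(U + L), h v * cut U L v := by
    rw [intervalIntegral.integral_of_le hUL1, ← integral_indicator measurableSet_Ioc]
    congr 1
    funext v
    rw [Set.indicator]
    split_ifs with hv
    · rfl
    · rw [mem_Ioc, not_and_or, not_lt, not_le] at hv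
      rcases hv with hv | hv
      · rw [cut_zero_left hv, mul_zero]
      · rw [cut_zero_right hL hv.le, mul_zero]
  have ii : ∀ x y, IntervalIntegrable (fun v => h v * cut U L v) volume x y := fun x y =>
    (hh.mul hcc).intervalIntegrable _ _
  have iH : ∀ x y, IntervalIntegrable H volume x y := fun x y => hH.intervalIntegrable _ _
  have hb : ∀ v ∈ Icc (1:ℝ) (U + L), |H v - h v| ≤ E := fun v hv => h1 v ⟨hv.1, hv.2.trans hUL⟩
  refine ⟨?_, fun hU => ?_⟩
  · rw [e1]
    have h2 : ∫ v in (1:ℝ)..(U + L), h v * cut U L v ≤ ∫ v in (1:ℝ)..(U + L), (H v + E) := by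
      refine intervalIntegral.integral_mono_on hUL1 (ii _ _) ((iH _ _).add intervalIntegrable_const) fun v hv => ?_
      have h3 := abs_le.1 (hb v hv)
      have h4 := cut_nonneg U L v
      have h5 := cut_le_one U L v
      have h6 := h0 v
      nlinarith [mul_nonneg h6 (sub_nonneg.2 h5), mul_nonneg hE (sub_nonneg.2 h5), h3.1]
    rw [intervalIntegral.integral_add (iH _ _) intervalIntegrable_const, intervalIntegral.integral_const,
      smul_eq_mul] at h2
    have h7 : ∫ v in (1:ℝ)..(U + L), H v ≤ ∫ v in (0:ℝ)..(U + L), H v := by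
      rw [← intervalIntegral.integral_add_adjacent_intervals (iH 0 1) (iH 1 (U + L))]
      have : 0 ≤ ∫ v in (0:ℝ)..1, H v := intervalIntegral.integral_nonneg zero_le_one fun v _ => h0 v
      linarith
    nlinarith
  · rw [e1]
    have h2 : ∫ v in (2:ℝ)..U, (H v - E) ≤ ∫ v in (2:ℝ)..U, h v * cut U L v := by
      refine intervalIntegral.integral_mono_on hU ((iH _ _).sub intervalIntegrable_const) (ii _ _) fun v hv => ?_
      rw [cut_one hL hv.1 hv.2, mul_one]
      have h3 := abs_le.1 (hb v ⟨by linarith [hv.1], by linarith [hv.2]⟩)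
      linarith [h3.2]
    have h3 : ∀ x y : ℝ, 1 ≤ x → x ≤ y → y ≤ U + L → -(E * (y - x)) ≤ ∫ v in x..y, h v * cut U L v := by
      intro x y hx hxy hy
      have h4 : ∫ v in x..y, (-E) ≤ ∫ v in x..y, h v * cut U L v := by
        refine intervalIntegral.integral_mono_on hxy intervalIntegrable_const (ii _ _) fun v hv => ?_
        have h5 := abs_le.1 (hb v ⟨hx.trans hv.1, hv.2.trans hy⟩)
        have h6 := cut_nonneg U L v
        have h7 := cut_le_one U L v
        have h8 := h0 v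
        nlinarith [mul_nonneg h8 h6, mul_nonneg hE (sub_nonneg.2 h7), h5.2]
      rw [intervalIntegral.integral_const, smul_eq_mul] at h4
      linarith
    have h4 := h3 1 2 le_rfl (by norm_num) (by linarith)
    have h5 := h3 U (U + L) (by linarith) (by linarith) le_rfl
    rw [← intervalIntegral.integral_add_adjacent_intervals (ii 1 2) (ii 2 (U + L)),
      ← intervalIntegral.integral_add_adjacent_intervals (ii 2 U) (ii U (U + L))]
    rw [intervalIntegral.integral_sub (iH _ _) intervalIntegrable_const, intervalIntegral.integral_const,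
      smul_eq_mul] at h2
    nlinarith

/-- upper bound for the sum -/
lemma sum_upper {H h : ℝ → ℝ} (h0 : ∀ v, 0 ≤ H v) {V L E KH a : ℝ} (ha : 0 < a)
    (hL : 0 < L) (hUL : V + L ≤ 3 * V) (hE : 0 ≤ E) (h1 : ∀ v ∈ Icc (1:ℝ) (3 * V), |H v - h v| ≤ E)
    (hKH : ∀ v ∈ Icc (0:ℝ) 2, H v ≤ KH) {N M : ℕ} (hNM : N ≤ M) (hN : a * N ≤ V) :
    ∑ n ∈ Finset.Icc 1 N, H (a * n) ≤ Sg (fun v => h v * cut V L v) M a + M * E + KH * (2 / a) := by
  classical
  have hKH0 : 0 ≤ KH := (h0 0).trans (hKH 0 ⟨le_rfl, by norm_num⟩)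
  have hterm : ∀ n : ℕ, 0 ≤ h (a * n) * cut V L (a * n) + E := by
    intro n
    have h6 := cut_nonneg V L (a * n)
    have h7 := cut_le_one V L (a * n)
    rcases le_or_gt (a * n) 1 with h2 | h2
    · rw [cut_zero_left h2, mul_zero, zero_add]; exact hE
    rcases le_or_gt (V + L) (a * n) with h3 | h3
    · rw [cut_zero_right hL h3, mul_zero, zero_add]; exact hE
    have h5 := abs_le.1 (h1 (a * n) ⟨h2.le, by linarith⟩)
    nlinarith [mul_nonneg (h0 (a * n)) h6, mul_nonneg hE (sub_nonneg.2 h7), h5.2]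
  have h2 : ∀ n ∈ Finset.Icc 1 N, H (a * n) ≤ (h (a * n) * cut V L (a * n) + E) + (if a * n ≤ 2 then KH else 0) := by
    intro n hn
    have hn' := Finset.mem_Icc.1 hn
    have hn1 : (n:ℝ) ≤ N := by exact_mod_cast hn'.2
    have hav : a * n ≤ V := (mul_le_mul_of_nonneg_left hn1 ha.le).trans hN
    split_ifs with h3
    · have := hKH (a * n) ⟨by positivity, h3⟩
      linarith [hterm n]
    · rw [cut_one hL (not_le.1 h3).le hav, mul_one, add_zero]
      have h5 := abs_le.1 (h1 (a * n) ⟨by linarith [not_le.1 h3], by linarith⟩)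
      linarith [h5.2]
  calc ∑ n ∈ Finset.Icc 1 N, H (a * n)
      ≤ ∑ n ∈ Finset.Icc 1 N, ((h (a * n) * cut V L (a * n) + E) + (if a * n ≤ 2 then KH else 0)) :=
        Finset.sum_le_sum h2
    _ = ∑ n ∈ Finset.Icc 1 N, (h (a * n) * cut V L (a * n) + E) + ∑ n ∈ Finset.Icc 1 N, (if a * n ≤ 2 then KH else 0) :=
        Finset.sum_add_distrib
    _ ≤ ∑ n ∈ Finset.Icc 1 M, (h (a * n) * cut V L (a * n) + E) + KH * (2 / a) := by
        apply add_le_add
        · exact Finset.sum_le_sum_of_subset_of_nonneg (Finset.Icc_subset_Icc_right hNM) fun n _ _ => hterm n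
        · rw [← Finset.sum_filter, Finset.sum_const, nsmul_eq_mul, mul_comm]
          apply mul_le_mul_of_nonneg_left _ hKH0
          have h4 : ((Finset.Icc 1 N).filter fun n : ℕ => a * n ≤ 2) ⊆ Finset.Icc 1 ⌊2 / a⌋₊ := by
            intro n hn
            rw [Finset.mem_filter, Finset.mem_Icc] at hn
            rw [Finset.mem_Icc]
            refine ⟨hn.1.1, Nat.le_floor ?_⟩
            rw [le_div_iff₀ ha, mul_comm]; exact hn.2
          have h5 := Finset.card_le_card h4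
          rw [Nat.card_Icc, Nat.add_sub_cancel] at h5
          calc (((Finset.Icc 1 N).filter fun n : ℕ => a * n ≤ 2).card : ℝ) ≤ (⌊2 / a⌋₊ : ℝ) := by exact_mod_cast h5
            _ ≤ 2 / a := Nat.floor_le (by positivity)
    _ = _ := by
        rw [Finset.sum_add_distrib, Finset.sum_const, Nat.card_Icc, Nat.add_sub_cancel, nsmul_eq_mul]
        rfl

/-- lower bound for the sum -/
lemma sum_lower {H h : ℝ → ℝ} (h0 : ∀ v, 0 ≤ H v) {V L E a : ℝ} (ha : 0 < a) (hV : 1 ≤ V)
    (hL : 0 < L) (hE : 0 ≤ E) (h1 : ∀ v ∈ Icc (1:ℝ) (3 * V), |H v - h v| ≤ E)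
    {N M : ℕ} (hNM : N ≤ M) (hN : V ≤ a * N) :
    Sg (fun v => h v * cut (V - L) L v) M a - N * E ≤ ∑ n ∈ Finset.Icc 1 N, H (a * n) := by
  have h2 : Sg (fun v => h v * cut (V - L) L v) M a = ∑ n ∈ Finset.Icc 1 N, h (a * n) * cut (V - L) L (a * n) := by
    unfold Sg
    symm
    apply Finset.sum_subset (Finset.Icc_subset_Icc_right hNM)
    intro n hn hn2
    rw [Finset.mem_Icc] at hn
    rw [Finset.mem_Icc, not_and, not_le] at hn2
    have h3 : (N:ℝ) ≤ n := by exact_mod_cast (hn2 hn.1).le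
    rw [cut_zero_right hL, mul_zero]
    have := mul_le_mul_of_nonneg_left h3 ha.le
    linarith
  have h3 : ∀ n ∈ Finset.Icc 1 N, h (a * n) * cut (V - L) L (a * n) - E ≤ H (a * n) := by
    intro n _
    have h6 := cut_nonneg (V - L) L (a * n)
    have h7 := cut_le_one (V - L) L (a * n)
    have h8 := h0 (a * n)
    rcases le_or_gt (a * n) 1 with h2 | h2
    · rw [cut_zero_left h2, mul_zero]; linarith
    rcases le_or_gt V (a * n) with h3 | h3
    · rw [cut_zero_right hL (by linarith), mul_zero]; linarith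
    have h5 := abs_le.1 (h1 (a * n) ⟨h2.le, by linarith⟩)
    nlinarith [mul_nonneg h8 (sub_nonneg.2 h7), mul_nonneg hE (sub_nonneg.2 h7), h5.1]
  have h4 := Finset.sum_le_sum h3
  rw [Finset.sum_sub_distrib, Finset.sum_const, Nat.card_Icc, Nat.add_sub_cancel, nsmul_eq_mul] at h4
  rw [h2]
  exact h4

end Pool.Agent.N798.G
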