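import Pool.Agent.N798.G6

set_option autoImplicit false

/-! The sampling theorem for almost every spacing: the points of a polynomial grid. -/

namespace Pool.Agent.N798.G

open MeasureTheory Filter Topology Set
open scoped ENNReal Real

/-- the grid -/
noncomputable def Vg (r k : ℕ) : ℝ := ((k:ℝ) + 1) ^ r

lemma Vg_one (r k : ℕ) : 1 ≤ Vg r k := one_le_pow₀ (by have : (0:ℝ) ≤ k := Nat.cast_nonneg k; linarith)

lemma Sg_cont {g : ℝ → ℝ} (hg : Continuous g) (M : ℕ) : Continuous fun a => Sg g M a := by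
  unfold Sg
  fun_prop

lemma grid_var {A B : ℝ} (hA : 0 < A) (hAB : A ≤ B) {p q C : ℝ} (hC : 0 ≤ C) (hpq : p ≤ q) (hpq4 : p + q < 4)
    {s : ℝ} (hs : s ≤ (4 - p - q) / 4) {r : ℕ} (hr : 4 ≤ r * s)
    {h : ℕ → ℝ → ℝ} (hh : ∀ k, ContDiff ℝ 1 (h k))
    (h1 : ∀ k, (∫ v in (1:ℝ)..(3 * Vg r k), h k v ^ 2) ≤ C * Vg r k ^ p)
    (h2 : ∀ k, (∫ v in (1:ℝ)..(3 * Vg r k), deriv (h k) v ^ 2) ≤ C * Vg r k ^ q)
    {U L : ℕ → ℝ} {M : ℕ → ℕ} (hL : ∀ k, 1 ≤ L k) (hUL : ∀ k, U k + L k ≤ 3 * Vg r k)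
    (hM : ∀ k, U k + L k ≤ A * M k) :
    ∀ᵐ a ∂(volume.restrict (Icc A B)), ∀ᶠ k in atTop,
      |Sg (fun v => h k v * cut (U k) (L k) v) (M k) a - a⁻¹ * ∫ v, h k v * cut (U k) (L k) v| ≤
        Vg r k ^ (1 - s / 4) := by
  obtain ⟨K, hK, hv⟩ := var_one hA hAB hC hpq hpq4
  have hV : ∀ k, 0 < Vg r k := fun k => zero_lt_one.trans_le (Vg_one r k)
  have hsum : Summable fun k : ℕ => K * Vg r k ^ (-(s / 2)) := by
    apply Summable.mul_left
    have h3 : Summable fun k : ℕ => (((k + 1 : ℕ) : ℝ)) ^ (-(2:ℝ)) :=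
      (summable_nat_add_iff 1).2 (Real.summable_nat_rpow.2 (by norm_num))
    refine Summable.of_nonneg_of_le (fun k => (Real.rpow_pos_of_pos (hV k) _).le) (fun k => ?_) h3
    unfold Vg
    rw [← Real.rpow_natCast, ← Real.rpow_mul (by positivity)]
    push_cast
    apply Real.rpow_le_rpow_of_exponent_le
    · have : (0:ℝ) ≤ k := Nat.cast_nonneg k
      linarith
    · nlinarith
  have key := bc (A := A) (B := B)
    (D := fun k a => Sg (fun v => h k v * cut (U k) (L k) v) (M k) a - a⁻¹ * ∫ v, h k v * cut (U k) (L k) v)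
    (fun k => ((Sg_cont ((hh k).continuous.mul (cut_contDiff _ _).continuous) (M k)).measurable.sub
      (measurable_inv.mul_const _)))
    (w := fun k => Vg r k ^ (2 - s / 2)) (fun k => Real.rpow_pos_of_pos (hV k) _)
    (b := fun k => K * Vg r k ^ (-(s / 2))) hsum
    (fun k => mul_nonneg hK (Real.rpow_pos_of_pos (hV k) _).le)
    (fun k => by
      refine (hv (Vg r k) (U k) (L k) (h k) (M k) (Vg_one r k) (hL k) (hUL k) (hM k) (hh k) (h1 k) (h2 k)).trans ?_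
      apply ENNReal.ofReal_le_ofReal
      rw [mul_assoc, ← Real.rpow_add (hV k)]
      apply mul_le_mul_of_nonneg_left _ hK
      apply Real.rpow_le_rpow_of_exponent_le (Vg_one r k)
      linarith)
  filter_upwards [key] with a ha
  filter_upwards [ha] with k hk
  apply abs_le_of_sq_le_sq _ (Real.rpow_pos_of_pos (hV k) _).le
  refine hk.trans (le_of_eq ?_)
  rw [← Real.rpow_natCast (Vg r k ^ (1 - s / 4)), ← Real.rpow_mul (hV k).le]
  congr 1
  push_cast
  ring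

/-- **Upper and lower bounds at the points of the grid.** -/
theorem grid {H : ℝ → ℝ} (hH : Continuous H) (h0 : ∀ v, 0 ≤ H v) {p q κ C : ℝ} (hC : 0 ≤ C) (hpq : p ≤ q)
    (hpq4 : p + q < 4) (happ : App H p q κ C) {A B : ℝ} (hA : 0 < A) (hAB : A ≤ B) {s θ : ℝ}
    (hs : s ≤ (4 - p - q) / 4) {r : ℕ} (hr : 4 ≤ r * s) (hr2 : 2 ≤ r)
    (hθ0 : 0 < θ) (hθ1 : θ < 1) (hθκ : θ ≤ κ) (hθs : θ ≤ s / 4) :
    ∃ K : ℝ, 0 ≤ K ∧ ∀ᵐ a ∂(volume.restrict (Icc A B)), ∀ᶠ k : ℕ in atTop,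
      (∀ N : ℕ, a * N ≤ Vg r k → ∑ n ∈ Finset.Icc 1 N, H (a * n) ≤
        (∫ y in (0:ℝ)..((Vg r k + Vg r k ^ (1 - θ)) / a), H (a * y)) + K * Vg r k ^ (1 - θ)) ∧
      (∀ N : ℕ, Vg r k ≤ a * N → a * N ≤ 2 ^ r * Vg r k →
        (∫ y in (0:ℝ)..((Vg r k - Vg r k ^ (1 - θ)) / a), H (a * y)) - K * Vg r k ^ (1 - θ) ≤
          ∑ n ∈ Finset.Icc 1 N, H (a * n)) := by
  have hV1 : ∀ k, 1 ≤ Vg r k := Vg_one r
  have hV : ∀ k, 0 < Vg r k := fun k => zero_lt_one.trans_le (hV1 k)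
  choose h hh hHh hi1 hi2 using fun k => happ (Vg r k) (hV1 k)
  obtain ⟨KH, hKH'⟩ := (isCompact_Icc (a := (0:ℝ)) (b := 2)).exists_bound_of_continuousOn hH.continuousOn
  have hKH : ∀ v ∈ Icc (0:ℝ) 2, H v ≤ KH := fun v hv => (le_abs_self _).trans (hKH' v hv)
  have hKH0 : 0 ≤ KH := (h0 0).trans (hKH 0 ⟨le_rfl, by norm_num⟩)
  set L : ℕ → ℝ := fun k => Vg r k ^ (1 - θ) with hLdef
  have hL1 : ∀ k, 1 ≤ L k := fun k => Real.one_le_rpow (hV1 k) (by linarith)
  have hLV : ∀ k, L k ≤ Vg r k := fun k => by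
    have := Real.rpow_le_rpow_of_exponent_le (hV1 k) (show 1 - θ ≤ 1 by linarith)
    rwa [Real.rpow_one] at this
  have hR4 : (4:ℝ) ≤ 2 ^ r := by
    have := pow_le_pow_right₀ (show (1:ℝ) ≤ 2 by norm_num) hr2
    linarith
  set M : ℕ → ℕ := fun k => ⌈2 ^ r * Vg r k / A⌉₊ with hMdef
  have hM : ∀ k, 2 ^ r * Vg r k ≤ A * M k := fun k => by
    have := Nat.le_ceil (2 ^ r * Vg r k / A)
    rw [div_le_iff₀ hA] at this
    linarith
  have hM2 : ∀ k, (M k : ℝ) ≤ (2 ^ r / A + 1) * Vg r k := fun k => by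
    have := (Nat.ceil_lt_add_one (show 0 ≤ 2 ^ r * Vg r k / A by have := hV k; positivity)).le
    refine this.trans ?_
    have h3 := hV1 k
    calc 2 ^ r * Vg r k / A + 1 ≤ 2 ^ r * Vg r k / A + Vg r k := by linarith
      _ = _ := by ring
  have v1 := grid_var hA hAB hC hpq hpq4 hs hr hh hi1 hi2 (U := fun k => Vg r k) (L := L) (M := M) hL1
    (fun k => by have := hLV k; have := hV k; linarith)
    (fun k => by have := hLV k; have := hV k; have := hM k; nlinarith)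
  have v2 := grid_var hA hAB hC hpq hpq4 hs hr hh hi1 hi2 (U := fun k => Vg r k - L k) (L := L) (M := M) hL1
    (fun k => by have := hLV k; have := hV k; linarith)
    (fun k => by have := hLV k; have := hV k; have := hM k; nlinarith)
  have hE0 : ∀ k, 0 ≤ C * Vg r k ^ (-κ) := fun k => mul_nonneg hC (Real.rpow_pos_of_pos (hV k) _).le
  have hEV : ∀ k, Vg r k * (C * Vg r k ^ (-κ)) ≤ C * L k := fun k => by
    have e : Vg r k * (C * Vg r k ^ (-κ)) = C * Vg r k ^ (1 - κ) := by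
      rw [show (1:ℝ) - κ = 1 + -κ by ring, Real.rpow_add (hV k), Real.rpow_one]; ring
    rw [e]
    apply mul_le_mul_of_nonneg_left _ hC
    exact Real.rpow_le_rpow_of_exponent_le (hV1 k) (by linarith)
  have hDL : ∀ k, Vg r k ^ (1 - s / 4) ≤ L k := fun k => Real.rpow_le_rpow_of_exponent_le (hV1 k) (by linarith)
  refine ⟨(2 ^ r / A + 1) * C + KH * (2 / A) + A⁻¹ * (3 * C) + 1, by positivity, ?_⟩
  have hmem : ∀ᵐ a ∂(volume.restrict (Icc A B)), a ∈ Icc A B := ae_restrict_mem measurableSet_Icc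
  filter_upwards [v1, v2, hmem] with a ha1 ha2 haAB
  have ha : 0 < a := hA.trans_le haAB.1
  have hainv : a⁻¹ ≤ A⁻¹ := inv_anti₀ hA haAB.1
  have hainv0 : 0 < a⁻¹ := inv_pos.2 ha
  have hVtop : Tendsto (fun k : ℕ => Vg r k) atTop atTop := by
    unfold Vg
    refine (tendsto_pow_atTop (show r ≠ 0 by omega)).comp ?_
    exact tendsto_atTop_add_const_right _ _ tendsto_natCast_atTop_atTop
  -- eventually 2 ≤ V - L
  have hVL : ∀ᶠ k in atTop, 2 ≤ Vg r k - L k := by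
    have h3 : Tendsto (fun k : ℕ => Vg r k ^ θ) atTop atTop := (tendsto_rpow_atTop hθ0).comp hVtop
    filter_upwards [h3.eventually_ge_atTop 2, hVtop.eventually_ge_atTop 4] with k hk hk2
    have h4 : Vg r k = L k * Vg r k ^ θ := by
      simp only [hLdef]
      rw [← Real.rpow_add (hV k)]; simp
    have h5 : 2 * L k ≤ Vg r k := by
      have := hL1 k
      nlinarith
    linarith
  filter_upwards [ha1, ha2, hVL] with k hk1 hk2 hkVL
  have hd1 := (abs_le.1 (hk1.trans (hDL k))).2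
  have hd2 := (abs_le.1 (hk2.trans (hDL k))).1
  have hLk := hL1 k
  refine ⟨fun N hN => ?_, fun N hN hN2 => ?_⟩
  · have hNM : N ≤ M k := by
      have h3 := hM k
      have h4 : A * (N:ℝ) ≤ A * M k := by
        have h5 : A * (N:ℝ) ≤ a * N := mul_le_mul_of_nonneg_right haAB.1 (Nat.cast_nonneg _)
        have := hV k
        nlinarith
      exact_mod_cast le_of_mul_le_mul_left h4 hA
    have b1 := sum_upper h0 ha (zero_lt_one.trans_le (hL1 k)) (V := Vg r k) (by have := hLV k; have := hV k; linarith)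
      (hE0 k) (hHh k) hKH hNM hN
    have b2 := (int_cut hH h0 (hh k).continuous (hV1 k) (zero_lt_one.trans_le (hL1 k)) (U := Vg r k)
      (by have := hLV k; have := hV k; linarith) (hE0 k) (hHh k) (by have := hV1 k; linarith)).1
    rw [← int_scale ha]
    have b3 := mul_le_mul_of_nonneg_left b2 hainv0.le
    have b4 : (M k : ℝ) * (C * Vg r k ^ (-κ)) ≤ (2 ^ r / A + 1) * C * L k := by
      calc (M k : ℝ) * (C * Vg r k ^ (-κ)) ≤ (2 ^ r / A + 1) * Vg r k * (C * Vg r k ^ (-κ)) :=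
            mul_le_mul_of_nonneg_right (hM2 k) (hE0 k)
        _ = (2 ^ r / A + 1) * (Vg r k * (C * Vg r k ^ (-κ))) := by ring
        _ ≤ (2 ^ r / A + 1) * (C * L k) := mul_le_mul_of_nonneg_left (hEV k) (by positivity)
        _ = _ := by ring
    have b5 : KH * (2 / a) ≤ KH * (2 / A) * L k := by
      have h5 : 2 / a ≤ 2 / A := by rw [div_eq_mul_inv, div_eq_mul_inv]; linarith
      have h6 : KH * (2 / a) ≤ KH * (2 / A) := mul_le_mul_of_nonneg_left h5 hKH0
      have h7 : 0 ≤ KH * (2 / A) := by positivity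
      nlinarith
    have b6 : a⁻¹ * (C * Vg r k ^ (-κ) * (3 * Vg r k)) ≤ A⁻¹ * (3 * C) * L k := by
      have h5 := hEV k
      have h6 : C * Vg r k ^ (-κ) * (3 * Vg r k) ≤ 3 * C * L k := by linarith
      have h7 : 0 ≤ C * Vg r k ^ (-κ) * (3 * Vg r k) := mul_nonneg (hE0 k) (by have := hV k; positivity)
      calc a⁻¹ * (C * Vg r k ^ (-κ) * (3 * Vg r k)) ≤ A⁻¹ * (3 * C * L k) :=
            mul_le_mul hainv h6 h7 (inv_pos.2 hA).le
        _ = _ := by ring
    rw [mul_add] at b3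
    have e : ((2 ^ r / A + 1) * C + KH * (2 / A) + A⁻¹ * (3 * C) + 1) * Vg r k ^ (1 - θ) =
      (2 ^ r / A + 1) * C * L k + KH * (2 / A) * L k + A⁻¹ * (3 * C) * L k + L k := by simp only [hLdef]; ring
    rw [e]
    change _ ≤ a⁻¹ * (∫ v in (0:ℝ)..(Vg r k + L k), H v) + _
    linarith
  · have hNM : N ≤ M k := by
      have h3 := hM k
      have h4 : A * (N:ℝ) ≤ A * M k := by
        have h5 : A * (N:ℝ) ≤ a * N := mul_le_mul_of_nonneg_right haAB.1 (Nat.cast_nonneg _)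
        linarith
      exact_mod_cast le_of_mul_le_mul_left h4 hA
    have b1 := sum_lower h0 ha (hV1 k) (zero_lt_one.trans_le (hL1 k)) (hE0 k) (hHh k) hNM hN
    have b2 := (int_cut hH h0 (hh k).continuous (hV1 k) (zero_lt_one.trans_le (hL1 k)) (U := Vg r k - L k)
      (by have := hLV k; have := hV k; linarith) (hE0 k) (hHh k) (by have := hV1 k; linarith)).2 hkVL
    rw [← int_scale ha]
    have b3 := mul_le_mul_of_nonneg_left b2 hainv0.le
    have b4 : (N : ℝ) * (C * Vg r k ^ (-κ)) ≤ (2 ^ r / A + 1) * C * L k := by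
      have h5 : (N:ℝ) ≤ M k := by exact_mod_cast hNM
      calc (N : ℝ) * (C * Vg r k ^ (-κ)) ≤ (2 ^ r / A + 1) * Vg r k * (C * Vg r k ^ (-κ)) :=
            mul_le_mul_of_nonneg_right (h5.trans (hM2 k)) (hE0 k)
        _ = (2 ^ r / A + 1) * (Vg r k * (C * Vg r k ^ (-κ))) := by ring
        _ ≤ (2 ^ r / A + 1) * (C * L k) := mul_le_mul_of_nonneg_left (hEV k) (by positivity)
        _ = _ := by ring
    have iH : ∀ x y, IntervalIntegrable H volume x y := fun x y => hH.intervalIntegrable _ _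
    have b5 : a⁻¹ * (∫ v in (0:ℝ)..2, H v) ≤ KH * (2 / A) * L k := by
      have h5 : ∫ v in (0:ℝ)..2, H v ≤ ∫ v in (0:ℝ)..2, KH :=
        intervalIntegral.integral_mono_on (by norm_num) (iH _ _) intervalIntegrable_const fun v hv => hKH v hv
      rw [intervalIntegral.integral_const, smul_eq_mul] at h5
      have h6 : 0 ≤ ∫ v in (0:ℝ)..2, H v := intervalIntegral.integral_nonneg (by norm_num) fun v _ => h0 v
      have h7 : 0 ≤ KH * (2 / A) := by positivity
      calc a⁻¹ * (∫ v in (0:ℝ)..2, H v) ≤ A⁻¹ * ((2 - 0) * KH) := mul_le_mul hainv h5 h6 (inv_pos.2 hA).le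
        _ = KH * (2 / A) := by ring
        _ ≤ _ := by nlinarith
    have b6 : a⁻¹ * (C * Vg r k ^ (-κ) * (3 * Vg r k)) ≤ A⁻¹ * (3 * C) * L k := by
      have h5 := hEV k
      have h6 : C * Vg r k ^ (-κ) * (3 * Vg r k) ≤ 3 * C * L k := by linarith
      have h7 : 0 ≤ C * Vg r k ^ (-κ) * (3 * Vg r k) := mul_nonneg (hE0 k) (by have := hV k; positivity)
      calc a⁻¹ * (C * Vg r k ^ (-κ) * (3 * Vg r k)) ≤ A⁻¹ * (3 * C * L k) :=
            mul_le_mul hainv h6 h7 (inv_pos.2 hA).le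
        _ = _ := by ring
    have b7 : ∫ v in (0:ℝ)..(Vg r k - L k), H v = (∫ v in (0:ℝ)..2, H v) + ∫ v in (2:ℝ)..(Vg r k - L k), H v :=
      (intervalIntegral.integral_add_adjacent_intervals (iH _ _) (iH _ _)).symm
    have e : ((2 ^ r / A + 1) * C + KH * (2 / A) + A⁻¹ * (3 * C) + 1) * Vg r k ^ (1 - θ) =
      (2 ^ r / A + 1) * C * L k + KH * (2 / A) * L k + A⁻¹ * (3 * C) * L k + L k := by simp only [hLdef]; ring
    rw [e]
    change a⁻¹ * (∫ v in (0:ℝ)..(Vg r k - L k), H v) - _ ≤ _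
    rw [b7, mul_add]
    rw [mul_sub] at b3
    linarith

end Pool.Agent.N798.G
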