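import Pool.Agent.N798.G7

set_option autoImplicit false

/-! The sampling theorem for almost every spacing. -/

namespace Pool.Agent.N798.G

open MeasureTheory Filter Topology Set
open scoped ENNReal Real

lemma pow_step {x : ℝ} (hx : 1 ≤ x) (r : ℕ) : (x + 1) ^ (r + 1) ≤ x ^ (r + 1) + 3 ^ (r + 1) * x ^ r := by
  induction r with
  | zero => norm_num
  | succ r ih =>
    have h1 : (x + 1) ^ (r + 2) ≤ (x + 1) * (x ^ (r + 1) + 3 ^ (r + 1) * x ^ r) := by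
      rw [pow_succ' (x + 1) (r + 1)]
      exact mul_le_mul_of_nonneg_left ih (by linarith)
    refine h1.trans ?_
    have h2 : x ^ r ≤ x ^ (r + 1) := pow_le_pow_right₀ hx (by omega)
    have h3 : (1:ℝ) ≤ 3 ^ (r + 1) := one_le_pow₀ (by norm_num)
    have h4 : 0 < x ^ r := by positivity
    have e : (x + 1) * (x ^ (r + 1) + 3 ^ (r + 1) * x ^ r) =
      x ^ (r + 1 + 1) + (x ^ (r + 1) + 3 ^ (r + 1) * x ^ (r + 1) + 3 ^ (r + 1) * x ^ r) := by ring
    rw [e, pow_succ 3 (r + 1)]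
    have h5 : x ^ (r + 1) ≤ 3 ^ (r + 1) * x ^ (r + 1) := by
      have : 0 < x ^ (r + 1) := by positivity
      nlinarith
    have h6 : 3 ^ (r + 1) * x ^ r ≤ 3 ^ (r + 1) * x ^ (r + 1) := mul_le_mul_of_nonneg_left h2 (by positivity)
    linarith

lemma Vg_step {r k : ℕ} (hr : 1 ≤ r) {θ : ℝ} (hθ : θ ≤ 1 / r) :
    Vg r (k + 1) ≤ Vg r k + 3 ^ r * Vg r k ^ (1 - θ) := by
  obtain ⟨t, rfl⟩ : ∃ t, r = t + 1 := ⟨r - 1, by omega⟩
  have hk : (1:ℝ) ≤ (k:ℝ) + 1 := by have : (0:ℝ) ≤ k := Nat.cast_nonneg k; linarith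
  have h1 := pow_step hk t
  have h2 : ((k:ℝ) + 1) ^ t ≤ Vg (t + 1) k ^ (1 - θ) := by
    unfold Vg
    rw [← Real.rpow_natCast, ← Real.rpow_natCast, ← Real.rpow_mul (by positivity)]
    apply Real.rpow_le_rpow_of_exponent_le hk
    push_cast at hθ ⊢
    have h3 : (0:ℝ) < (t:ℝ) + 1 := by positivity
    rw [le_div_iff₀ h3] at hθ
    nlinarith
  have h3 : Vg (t + 1) (k + 1) = ((k:ℝ) + 1 + 1) ^ (t + 1) := by
    unfold Vg; push_cast; ring
  rw [h3]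
  refine h1.trans ?_
  have : (0:ℝ) < 3 ^ (t + 1) := by positivity
  unfold Vg at h2 ⊢
  nlinarith

lemma Vg_double (r k : ℕ) : Vg r (k + 1) ≤ 2 ^ r * Vg r k := by
  unfold Vg
  rw [← mul_pow]
  apply pow_le_pow_left₀ (by positivity)
  push_cast
  have : (0:ℝ) ≤ k := Nat.cast_nonneg k
  linarith

lemma Vg_mono (r : ℕ) : Monotone (Vg r) := by
  intro i j hij
  unfold Vg
  apply pow_le_pow_left₀ (by positivity)
  have : (i:ℝ) ≤ j := by exact_mod_cast hij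
  linarith

lemma Vg_tendsto {r : ℕ} (hr : 1 ≤ r) : Tendsto (Vg r) atTop atTop := by
  unfold Vg
  refine (tendsto_pow_atTop (show r ≠ 0 by omega)).comp ?_
  exact tendsto_atTop_add_const_right _ _ tendsto_natCast_atTop_atTop

lemma exists_k {r : ℕ} (hr : 1 ≤ r) {X : ℝ} (hX : 1 ≤ X) : ∃ k, Vg r k ≤ X ∧ X < Vg r (k + 1) := by
  classical
  have h1 : ∃ j, X < Vg r j := ((Vg_tendsto hr).eventually_gt_atTop X).exists
  have h2 := Nat.find_spec h1
  have h3 : Nat.find h1 ≠ 0 := by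
    intro h
    rw [h] at h2
    unfold Vg at h2
    norm_num at h2
    linarith
  obtain ⟨k, hk⟩ := Nat.exists_eq_succ_of_ne_zero h3
  refine ⟨k, ?_, by rw [hk] at h2; exact h2⟩
  exact not_lt.1 (Nat.find_min h1 (by rw [hk]; exact Nat.lt_succ_self k))

lemma int_mono {H : ℝ → ℝ} (hH : Continuous H) (h0 : ∀ v, 0 ≤ H v) {x y : ℝ} (h : x ≤ y) :
    ∫ v in (0:ℝ)..x, H v ≤ ∫ v in (0:ℝ)..y, H v := by
  rw [← intervalIntegral.integral_add_adjacent_intervals (hH.intervalIntegrable 0 x) (hH.intervalIntegrable x y)]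
  have := intervalIntegral.integral_nonneg (μ := volume) h fun v _ => h0 v
  linarith

/-- **The sampling theorem, abstract form.** -/
theorem ast {H : ℝ → ℝ} (hH : Continuous H) (h0 : ∀ v, 0 ≤ H v) {p q κ C : ℝ} (hC : 0 ≤ C) (hpq : p ≤ q)
    (hpq4 : p + q < 4) (hκ : 0 < κ) (happ : App H p q κ C) :
    ∃ η : ℝ, 0 < η ∧ η < 1 ∧ ∀ᵐ a : ℝ, 0 < a → ∀ᶠ N : ℕ in atTop,
      (∫ y in (0:ℝ)..(N - (N:ℝ) ^ (1 - η)), H (a * y)) - (N:ℝ) ^ (1 - η) ≤ ∑ n ∈ Finset.Icc 1 N, H (a * n) ∧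
      ∑ n ∈ Finset.Icc 1 N, H (a * n) ≤ (∫ y in (0:ℝ)..(N + (N:ℝ) ^ (1 - η)), H (a * y)) + (N:ℝ) ^ (1 - η) := by
  set s : ℝ := (4 - p - q) / 4 with hs
  have hs0 : 0 < s := by rw [hs]; linarith
  set r : ℕ := max 2 ⌈4 / s⌉₊ with hr
  have hr2 : 2 ≤ r := le_max_left _ _
  have hr1 : 1 ≤ r := by omega
  have hr0 : (0:ℝ) < r := by exact_mod_cast hr1
  have hrs : 4 ≤ r * s := by
    have h1 : 4 / s ≤ (r:ℝ) := (Nat.le_ceil _).trans (by exact_mod_cast le_max_right 2 _)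
    rwa [div_le_iff₀ hs0] at h1
  set θ : ℝ := min (min (1 / 2) κ) (min (s / 4) (1 / r)) with hθ
  have hθ0 : 0 < θ := lt_min (lt_min (by norm_num) hκ) (lt_min (by linarith) (by positivity))
  have hθ12 : θ ≤ 1 / 2 := (min_le_left _ _).trans (min_le_left _ _)
  have hθκ : θ ≤ κ := (min_le_left _ _).trans (min_le_right _ _)
  have hθs : θ ≤ s / 4 := (min_le_right _ _).trans (min_le_left _ _)
  have hθr : θ ≤ 1 / r := (min_le_right _ _).trans (min_le_right _ _)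
  refine ⟨θ / 2, by linarith, by linarith, ?_⟩
  have main : ∀ m : ℕ, ∀ᵐ a : ℝ, a ∈ Icc (((m:ℝ) + 1)⁻¹) ((m:ℝ) + 1) → ∀ᶠ N : ℕ in atTop,
      (∫ y in (0:ℝ)..(N - (N:ℝ) ^ (1 - θ / 2)), H (a * y)) - (N:ℝ) ^ (1 - θ / 2) ≤ ∑ n ∈ Finset.Icc 1 N, H (a * n) ∧
      ∑ n ∈ Finset.Icc 1 N, H (a * n) ≤
        (∫ y in (0:ℝ)..(N + (N:ℝ) ^ (1 - θ / 2)), H (a * y)) + (N:ℝ) ^ (1 - θ / 2) := by
    intro m
    rw [← ae_restrict_iff' measurableSet_Icc]
    have hm1 : (1:ℝ) ≤ (m:ℝ) + 1 := by have : (0:ℝ) ≤ m := Nat.cast_nonneg m; linarith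
    have hA : (0:ℝ) < ((m:ℝ) + 1)⁻¹ := by positivity
    have hAB : ((m:ℝ) + 1)⁻¹ ≤ (m:ℝ) + 1 := (inv_le_one_of_one_le₀ hm1).trans hm1
    obtain ⟨K, hK, hg⟩ := grid hH h0 hC hpq hpq4 happ hA hAB le_rfl hrs hr2 hθ0 (by linarith) hθκ hθs
    have hmem : ∀ᵐ a ∂(volume.restrict (Icc (((m:ℝ) + 1)⁻¹) ((m:ℝ) + 1))), a ∈ Icc (((m:ℝ) + 1)⁻¹) ((m:ℝ) + 1) :=
      ae_restrict_mem measurableSet_Icc
    filter_upwards [hg, hmem] with a ha haAB
    have ha0 : 0 < a := hA.trans_le haAB.1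
    obtain ⟨k0, hk0⟩ := eventually_atTop.1 ha
    have hN1 : Tendsto (fun N : ℕ => a * (N:ℝ)) atTop atTop := tendsto_natCast_atTop_atTop.const_mul_atTop ha0
    have hN2 : Tendsto (fun N : ℕ => (N:ℝ) ^ (θ / 2)) atTop atTop :=
      (tendsto_rpow_atTop (by linarith)).comp tendsto_natCast_atTop_atTop
    filter_upwards [hN1.eventually_ge_atTop 1, hN1.eventually_ge_atTop (Vg r k0),
      hN2.eventually_ge_atTop ((3 ^ r + 2 ^ r) * (a + 1) / a), hN2.eventually_ge_atTop (K * 2 ^ r * (a + 1)),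
      eventually_ge_atTop 1] with N h1 h2 h3 h3' h4
    have hN0 : (0:ℝ) < N := by exact_mod_cast h4
    have hN1' : (1:ℝ) ≤ N := by exact_mod_cast h4
    obtain ⟨k, hk1, hk2⟩ := exists_k hr1 h1
    have hkk : k0 ≤ k := by
      by_contra hcon
      have h5 : k + 1 ≤ k0 := by omega
      have h6 := Vg_mono r h5
      linarith
    have hb1 := (hk0 k hkk).2 N hk1 (hk2.le.trans (Vg_double r k))
    have hb2 := (hk0 (k + 1) (by omega)).1 N hk2.le
    have hVk := Vg_one r k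
    have hVk0 : 0 < Vg r k := by linarith
    have hVs := Vg_step (k := k) hr1 hθr
    have hVd := Vg_double r k
    -- the length of the smoothing
    have hLk : Vg r k ^ (1 - θ) ≤ (a + 1) * (N:ℝ) ^ (1 - θ) := by
      calc Vg r k ^ (1 - θ) ≤ ((a + 1) * N) ^ (1 - θ) :=
            Real.rpow_le_rpow hVk0.le (by nlinarith) (by linarith)
        _ = (a + 1) ^ (1 - θ) * (N:ℝ) ^ (1 - θ) := Real.mul_rpow (by linarith) hN0.le
        _ ≤ (a + 1) * (N:ℝ) ^ (1 - θ) := by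
            apply mul_le_mul_of_nonneg_right _ (by positivity)
            have := Real.rpow_le_rpow_of_exponent_le (show 1 ≤ a + 1 by linarith) (show 1 - θ ≤ 1 by linarith)
            rwa [Real.rpow_one] at this
    have hLk1 : Vg r (k + 1) ^ (1 - θ) ≤ 2 ^ r * Vg r k ^ (1 - θ) := by
      calc Vg r (k + 1) ^ (1 - θ) ≤ (2 ^ r * Vg r k) ^ (1 - θ) :=
            Real.rpow_le_rpow (by have := Vg_one r (k + 1); linarith) hVd (by linarith)
        _ = (2 ^ r) ^ (1 - θ) * Vg r k ^ (1 - θ) := Real.mul_rpow (by positivity) hVk0.le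
        _ ≤ 2 ^ r * Vg r k ^ (1 - θ) := by
            apply mul_le_mul_of_nonneg_right _ (by positivity)
            have := Real.rpow_le_rpow_of_exponent_le (show (1:ℝ) ≤ 2 ^ r from one_le_pow₀ (by norm_num))
              (show 1 - θ ≤ 1 by linarith)
            rwa [Real.rpow_one] at this
    have eN : (N:ℝ) ^ (1 - θ / 2) = (N:ℝ) ^ (θ / 2) * (N:ℝ) ^ (1 - θ) := by
      rw [← Real.rpow_add hN0]; congr 1; ring
    have hNθ : 0 < (N:ℝ) ^ (1 - θ) := by positivity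
    have h2r : (0:ℝ) < 2 ^ r := by positivity
    have h3r : (0:ℝ) < 3 ^ r := by positivity
    -- bounds
    have hc1 : (3 ^ r + 2 ^ r) * Vg r k ^ (1 - θ) / a ≤ (N:ℝ) ^ (1 - θ / 2) := by
      rw [eN]
      refine le_trans ?_ (mul_le_mul_of_nonneg_right h3 hNθ.le)
      have e : (3 ^ r + 2 ^ r) * (a + 1) / a * (N:ℝ) ^ (1 - θ) = (3 ^ r + 2 ^ r) * ((a + 1) * (N:ℝ) ^ (1 - θ)) / a := by
        ring
      rw [e]
      gcongr
    have hc2 : K * (2 ^ r * Vg r k ^ (1 - θ)) ≤ (N:ℝ) ^ (1 - θ / 2) := by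
      rw [eN]
      refine le_trans ?_ (mul_le_mul_of_nonneg_right h3' hNθ.le)
      have e : K * 2 ^ r * (a + 1) * (N:ℝ) ^ (1 - θ) = K * (2 ^ r * ((a + 1) * (N:ℝ) ^ (1 - θ))) := by ring
      rw [e]
      gcongr
    have hHa : Continuous fun y => H (a * y) := hH.comp (continuous_const.mul continuous_id)
    have hHa0 : ∀ y, 0 ≤ H (a * y) := fun y => h0 _
    have hLk0 : 0 < Vg r k ^ (1 - θ) := by positivity
    have h2r1 : (1:ℝ) ≤ 2 ^ r := one_le_pow₀ (by norm_num)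
    have hL2 : Vg r k ^ (1 - θ) ≤ 2 ^ r * Vg r k ^ (1 - θ) := le_mul_of_one_le_left hLk0.le h2r1
    rw [div_le_iff₀ ha0] at hc1
    constructor
    · refine le_trans ?_ hb1
      have h5 : (N:ℝ) - (N:ℝ) ^ (1 - θ / 2) ≤ (Vg r k - Vg r k ^ (1 - θ)) / a := by
        rw [le_div_iff₀ ha0]
        linarith
      have h6 := int_mono hHa hHa0 h5
      have h7 : K * Vg r k ^ (1 - θ) ≤ (N:ℝ) ^ (1 - θ / 2) := (mul_le_mul_of_nonneg_left hL2 hK).trans hc2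
      linarith
    · refine hb2.trans ?_
      have h5 : (Vg r (k + 1) + Vg r (k + 1) ^ (1 - θ)) / a ≤ (N:ℝ) + (N:ℝ) ^ (1 - θ / 2) := by
        rw [div_le_iff₀ ha0]
        linarith
      have h6 := int_mono hHa hHa0 h5
      have h7 : K * Vg r (k + 1) ^ (1 - θ) ≤ (N:ℝ) ^ (1 - θ / 2) :=
        le_trans (mul_le_mul_of_nonneg_left hLk1 hK) hc2
      linarith
  rw [← ae_all_iff] at main
  filter_upwards [main] with a ha ha0
  obtain ⟨m, hm⟩ := exists_nat_ge (max a a⁻¹)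
  apply ha m
  have h1 := (le_max_left a a⁻¹).trans hm
  have h2 := (le_max_right a a⁻¹).trans hm
  refine ⟨?_, by linarith⟩
  rw [inv_le_comm₀ (by positivity) ha0]
  linarith

end Pool.Agent.N798.G
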