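import Pool.Agent.N798.Mom3

/-!
Moments of zeta along `α a n`: all exponents at once.
-/

set_option autoImplicit false

open Filter Topology Set MeasureTheory

namespace Pool.Agent.N798

open Pool.Agent.R303.LM

lemma Z_triv (t : ℝ) : Z t ≤ 9 * (1 + |t|) := by
  have h := Pool.Agent.H388LH.zeta_growth' (s := 1 / 2 + t * Complex.I) (by simp; norm_num) (by simp; norm_num)
  have e : (1 / 2 + (t : ℂ) * Complex.I).im = t := by simp
  rw [e] at h
  exact h

lemma momExp_mono {p M M' : ℝ} (h : M ≤ M') (hE : MomExp p M) : MomExp p M' := by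
  intro ε hε
  obtain ⟨A, hA⟩ := hE ε hε
  refine ⟨|A|, fun T hT => (hA T hT).trans ?_⟩
  calc A * T ^ (M + ε) ≤ |A| * T ^ (M + ε) := mul_le_mul_of_nonneg_right (le_abs_self A) (by positivity)
    _ ≤ |A| * T ^ (M' + ε) := mul_le_mul_of_nonneg_left
        (Real.rpow_le_rpow_of_exponent_le hT (by linarith)) (abs_nonneg A)

lemma momAlong_mono {t : ℕ → ℝ} {p M M' : ℝ} (h : M ≤ M') (hE : MomAlong t p M) : MomAlong t p M' := by
  intro ε hε
  obtain ⟨A, hA⟩ := hE ε hε
  refine ⟨|A|, fun N hN => (hA N hN).trans ?_⟩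
  have hN1 : (1:ℝ) ≤ N := by exact_mod_cast hN
  calc A * (N:ℝ) ^ (M + ε) ≤ |A| * (N:ℝ) ^ (M + ε) := mul_le_mul_of_nonneg_right (le_abs_self A) (by positivity)
    _ ≤ |A| * (N:ℝ) ^ (M' + ε) := mul_le_mul_of_nonneg_left
        (Real.rpow_le_rpow_of_exponent_le hN1 (by linarith)) (abs_nonneg A)

lemma momExp_closed {p M : ℝ} (h : ∀ q : ℝ, M < q → MomExp p q) : MomExp p M := by
  intro ε hε
  obtain ⟨A, hA⟩ := h (M + ε / 2) (by linarith) (ε / 2) (by linarith)
  exact ⟨A, fun T hT => by rw [show M + ε = M + ε / 2 + ε / 2 by ring]; exact hA T hT⟩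

lemma momAlong_closed {t : ℕ → ℝ} {p M : ℝ} (h : ∀ q : ℝ, M < q → MomAlong t p q) : MomAlong t p M := by
  intro ε hε
  obtain ⟨A, hA⟩ := h (M + ε / 2) (by linarith) (ε / 2) (by linarith)
  exact ⟨A, fun T hT => by rw [show M + ε = M + ε / 2 + ε / 2 by ring]; exact hA T hT⟩

lemma momExp_down {p q M : ℝ} (hp : 0 < p) (hpq : p ≤ q) (hM : 1 ≤ M) (h : MomExp q M) : MomExp p M := by
  intro ε hε
  obtain ⟨A, hA⟩ := h ε hε
  refine ⟨1 + A, fun T hT => ?_⟩
  have hc := Zp_cont hp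
  have hc' := Zp_cont (hp.trans_le hpq)
  have h1 : ∫ t in (1:ℝ)..T, Z t ^ p ≤ ∫ t in (1:ℝ)..T, (1 + Z t ^ q) := by
    apply intervalIntegral.integral_mono_on hT (hc.intervalIntegrable _ _)
      ((continuous_const.add hc').intervalIntegrable _ _)
    intro t _
    show Z t ^ p ≤ 1 + Z t ^ q
    rcases le_total 1 (Z t) with h2 | h2
    · have := Real.rpow_le_rpow_of_exponent_le h2 hpq
      linarith
    · have := Real.rpow_le_one (Z_nonneg t) h2 hp.le
      have := Real.rpow_nonneg (Z_nonneg t) q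
      linarith
  rw [intervalIntegral.integral_add intervalIntegrable_const (hc'.intervalIntegrable _ _),
    intervalIntegral.integral_const, smul_eq_mul, mul_one] at h1
  have h2 := hA T hT
  have h3 : T ≤ T ^ (M + ε) := Real.self_le_rpow_of_one_le hT (by linarith)
  nlinarith

lemma momAlong_down {t : ℕ → ℝ} {p q M : ℝ} (hp : 0 < p) (hpq : p ≤ q) (hM : 1 ≤ M) (h : MomAlong t q M) :
    MomAlong t p M := by
  intro ε hε
  obtain ⟨A, hA⟩ := h ε hε
  refine ⟨1 + A, fun N hN => ?_⟩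
  have hN1 : (1:ℝ) ≤ N := by exact_mod_cast hN
  have h1 : ∑ n ∈ Finset.range N, Z (t n) ^ p ≤ ∑ n ∈ Finset.range N, (1 + Z (t n) ^ q) := by
    refine Finset.sum_le_sum fun n _ => ?_
    rcases le_total 1 (Z (t n)) with h2 | h2
    · have := Real.rpow_le_rpow_of_exponent_le h2 hpq
      linarith
    · have := Real.rpow_le_one (Z_nonneg (t n)) h2 hp.le
      have := Real.rpow_nonneg (Z_nonneg (t n)) q
      linarith
  rw [Finset.sum_add_distrib, Finset.sum_const, Finset.card_range, nsmul_eq_mul, mul_one] at h1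
  have h2 := hA N hN
  have h3 : (N:ℝ) ≤ (N:ℝ) ^ (M + ε) := Real.self_le_rpow_of_one_le hN1 (by linarith)
  nlinarith

lemma momExp_up {p q M : ℝ} (hp : 0 < p) (hpq : p ≤ q) (h : MomExp p M) : MomExp q (M + (q - p)) := by
  intro ε hε
  obtain ⟨A, hA⟩ := h ε hε
  refine ⟨18 ^ (q - p) * A, fun T hT => ?_⟩
  have hT0 : 0 < T := by linarith
  have hc := Zp_cont hp
  have hc' := Zp_cont (hp.trans_le hpq)
  have h1 : ∫ t in (1:ℝ)..T, Z t ^ q ≤ ∫ t in (1:ℝ)..T, (18 ^ (q - p) * T ^ (q - p)) * Z t ^ p := by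
    apply intervalIntegral.integral_mono_on hT (hc'.intervalIntegrable _ _)
      ((continuous_const.mul hc).intervalIntegrable _ _)
    intro t ht
    have h2 : Z t ≤ 18 * T := by
      have := Z_triv t
      rw [abs_of_nonneg (by linarith [ht.1])] at this
      linarith [ht.1, ht.2]
    have h3 : Z t ^ (q - p) ≤ 18 ^ (q - p) * T ^ (q - p) := by
      rw [← Real.mul_rpow (by norm_num) hT0.le]
      exact Real.rpow_le_rpow (Z_nonneg t) h2 (by linarith)
    calc Z t ^ q = Z t ^ (q - p) * Z t ^ p := by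
          rw [← Real.rpow_add_of_nonneg (Z_nonneg t) (by linarith) hp.le]; congr 1; ring
      _ ≤ _ := mul_le_mul_of_nonneg_right h3 (Real.rpow_nonneg (Z_nonneg t) _)
  rw [intervalIntegral.integral_const_mul] at h1
  refine h1.trans ?_
  calc 18 ^ (q - p) * T ^ (q - p) * ∫ t in (1:ℝ)..T, Z t ^ p
      ≤ 18 ^ (q - p) * T ^ (q - p) * (A * T ^ (M + ε)) :=
        mul_le_mul_of_nonneg_left (hA T hT) (by positivity)
    _ = 18 ^ (q - p) * A * (T ^ (q - p) * T ^ (M + ε)) := by ring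
    _ = 18 ^ (q - p) * A * T ^ (M + (q - p) + ε) := by rw [← Real.rpow_add hT0]; congr 2; ring

lemma momAlong_up {a : ℕ → ℝ} {c C : ℝ} (ha : Del a c C) {α : ℝ} (hα : 0 < α) {p q M : ℝ} (hp : 0 < p)
    (hpq : p ≤ q) (h : MomAlong (fun n => α * a n) p M) : MomAlong (fun n => α * a n) q (M + (q - p)) := by
  intro ε hε
  obtain ⟨A, hA⟩ := h ε hε
  have hC' : 0 < a 0 + C := by have := ha.pos; have := ha.hC; positivity
  set D : ℝ := 9 * (1 + α * (a 0 + C)) with hD
  have hD0 : 0 < D := by positivity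
  refine ⟨D ^ (q - p) * A, fun N hN => ?_⟩
  have hN1 : (1:ℝ) ≤ N := by exact_mod_cast hN
  have hN0 : (0:ℝ) < N := by linarith
  have h1 : ∑ n ∈ Finset.range N, Z (α * a n) ^ q ≤
      ∑ n ∈ Finset.range N, (D ^ (q - p) * (N:ℝ) ^ (q - p)) * Z (α * a n) ^ p := by
    refine Finset.sum_le_sum fun n hn => ?_
    have hn1 : (n:ℝ) + 1 ≤ N := by
      have := Finset.mem_range.1 hn
      exact_mod_cast this
    have h2 : Z (α * a n) ≤ D * N := by
      have h3 := Z_triv (α * a n)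
      have h4 := ha.pos' n
      rw [abs_of_pos (mul_pos hα h4)] at h3
      have h5 := ha.upp' n
      have h6 : α * a n ≤ α * (a 0 + C) * N := by
        calc α * a n ≤ α * ((a 0 + C) * (n + 1)) := mul_le_mul_of_nonneg_left h5 hα.le
          _ = α * (a 0 + C) * (n + 1) := by ring
          _ ≤ α * (a 0 + C) * N := mul_le_mul_of_nonneg_left hn1 (by positivity)
      rw [hD]
      nlinarith
    have h3 : Z (α * a n) ^ (q - p) ≤ D ^ (q - p) * (N:ℝ) ^ (q - p) := by
      rw [← Real.mul_rpow hD0.le hN0.le]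
      exact Real.rpow_le_rpow (Z_nonneg _) h2 (by linarith)
    calc Z (α * a n) ^ q = Z (α * a n) ^ (q - p) * Z (α * a n) ^ p := by
          rw [← Real.rpow_add_of_nonneg (Z_nonneg _) (by linarith) hp.le]; congr 1; ring
      _ ≤ _ := mul_le_mul_of_nonneg_right h3 (Real.rpow_nonneg (Z_nonneg _) _)
  rw [← Finset.mul_sum] at h1
  refine h1.trans ?_
  calc D ^ (q - p) * (N:ℝ) ^ (q - p) * ∑ n ∈ Finset.range N, Z (α * a n) ^ p
      ≤ D ^ (q - p) * (N:ℝ) ^ (q - p) * (A * (N:ℝ) ^ (M + ε)) :=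
        mul_le_mul_of_nonneg_left (hA N hN) (by positivity)
    _ = D ^ (q - p) * A * ((N:ℝ) ^ (q - p) * (N:ℝ) ^ (M + ε)) := by ring
    _ = D ^ (q - p) * A * (N:ℝ) ^ (M + (q - p) + ε) := by rw [← Real.rpow_add hN0]; congr 2; ring

/-- **Almost every dilate of a Delone set sees all the moment exponents of zeta.** -/
theorem moments {a : ℕ → ℝ} {c C : ℝ} (ha : Del a c C) : ∀ᵐ α : ℝ, 0 < α →
    ∀ p M : ℝ, 0 < p → 1 ≤ M → (MomExp p M ↔ MomAlong (fun n => α * a n) p M) := by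
  have h1 : ∀ᵐ α : ℝ, ∀ q m : ℚ, (0:ℝ) < q → (1:ℝ) ≤ m → 0 < α →
      (MomExp q m ↔ MomAlong (fun n => α * a n) q m) := by
    rw [ae_all_iff]; intro q
    rw [ae_all_iff]; intro m
    by_cases hq : (0:ℝ) < q ∧ (1:ℝ) ≤ m
    · by_cases hE : MomExp q m
      · filter_upwards [along_of_mom ha hq.1 (by linarith [hq.2]) hE] with α hα _ _ hα0
        exact ⟨fun _ => hα hα0, fun _ => hE⟩
      · filter_upwards [measure_eq_zero_iff_ae_notMem.1 (fail_mom ha hq.1 hq.2 hE)] with α hα _ _ hα0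
        exact ⟨fun h => absurd h hE, fun h => absurd ⟨hα0, h⟩ hα⟩
    · filter_upwards with α h2 h3
      exact absurd ⟨h2, h3⟩ hq
  filter_upwards [h1] with α hα hα0 p M hp hM
  constructor
  · intro h
    apply momAlong_closed
    intro M' hM'
    -- a rational exponent `q` slightly larger than `p`
    obtain ⟨q, hq1, hq2⟩ := exists_rat_btwn (show p < p + (M' - M) / 2 by linarith)
    obtain ⟨m, hm1, hm2⟩ := exists_rat_btwn (show M + (M' - M) / 2 < M' by linarith)
    have h2 : MomExp q m := momExp_mono (by linarith) (momExp_up hp hq1.le h)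
    have h3 := (hα q m (hp.trans hq1) (by linarith) hα0).1 h2
    exact momAlong_mono hm2.le (momAlong_down hp hq1.le (by linarith) h3)
  · intro h
    apply momExp_closed
    intro M' hM'
    obtain ⟨q, hq1, hq2⟩ := exists_rat_btwn (show p < p + (M' - M) / 2 by linarith)
    obtain ⟨m, hm1, hm2⟩ := exists_rat_btwn (show M + (M' - M) / 2 < M' by linarith)
    have h2 : MomAlong (fun n => α * a n) q m := momAlong_mono (by linarith) (momAlong_up ha hα0 hp hq1.le h)
    have h3 := (hα q m (hp.trans hq1) (by linarith) hα0).2 h2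
    exact momExp_mono hm2.le (momExp_down hp hq1.le (by linarith) h3)

/-- bounds for all even moments along a sequence give the exponent zero along it -/
lemma along_zero_of_moments {a : ℕ → ℝ} {c C : ℝ} (ha : Del a c C) {α : ℝ} (hα : 0 < α)
    (h : ∀ k : ℕ, 1 ≤ k → MomAlong (fun n => α * a n) (2 * k) 1) : ExpAlong (fun n => α * a n) 0 := by
  intro ε hε
  obtain ⟨k, hk⟩ := exists_nat_gt (1 / ε)
  have hk0 : (0:ℝ) < k := lt_trans (by positivity) hk
  have hk1 : 1 ≤ k := by exact_mod_cast hk0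
  obtain ⟨A, hA⟩ := h k hk1 1 one_pos
  have hc'0 : 0 < min (a 0) c := lt_min ha.pos ha.hc
  set c' := min (a 0) c with hc'
  set D : ℝ := max 1 (1 / (α * c')) with hD
  have hD1 : 1 ≤ D := le_max_left _ _
  refine ⟨(|A| + 1) ^ (1 / (2 * (k:ℝ))) * D ^ (1 / (k:ℝ)), fun n => ?_⟩
  have h1 := hA (n + 1) (by omega)
  have hpos : 0 < α * a n := mul_pos hα (ha.pos' n)
  have h2 : Z (α * a n) ^ (2 * (k:ℝ)) ≤ A * ((n + 1 : ℕ) : ℝ) ^ (1 + 1 : ℝ) := by
    refine le_trans ?_ h1
    exact Finset.single_le_sum (f := fun n => Z (α * a n) ^ (2 * (k:ℝ)))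
      (fun i _ => Real.rpow_nonneg (Z_nonneg _) _) (Finset.mem_range.2 (Nat.lt_succ_self n))
  have h3 : ((n + 1 : ℕ) : ℝ) ≤ D * (1 + |α * a n|) := by
    rw [abs_of_pos hpos]
    have h4 := ha.low' n
    have h5 : (1 / (α * c')) * (α * a n) ≥ (n:ℝ) + 1 := by
      rw [ge_iff_le, div_mul_eq_mul_div, one_mul, le_div_iff₀ (by positivity)]
      calc ((n:ℝ) + 1) * (α * c') = α * (c' * (n + 1)) := by ring
        _ ≤ α * a n := mul_le_mul_of_nonneg_left h4 hα.le
    push_cast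
    have h6 : (1 / (α * c')) * (α * a n) ≤ D * (α * a n) :=
      mul_le_mul_of_nonneg_right (le_max_right _ _) hpos.le
    nlinarith
  have h4 : Z (α * a n) ^ (2 * (k:ℝ)) ≤ (|A| + 1) * (D * (1 + |α * a n|)) ^ (2:ℝ) := by
    refine h2.trans ?_
    norm_num only
    have h5 : ((n + 1 : ℕ) : ℝ) ^ (2:ℝ) ≤ (D * (1 + |α * a n|)) ^ (2:ℝ) :=
      Real.rpow_le_rpow (Nat.cast_nonneg _) h3 (by norm_num)
    exact mul_le_mul (by linarith [le_abs_self A]) h5 (by positivity) (by positivity)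
  have h5 : Z (α * a n) ≤ ((|A| + 1) * (D * (1 + |α * a n|)) ^ (2:ℝ)) ^ (1 / (2 * (k:ℝ))) := by
    have h6 : Z (α * a n) = (Z (α * a n) ^ (2 * (k:ℝ))) ^ (1 / (2 * (k:ℝ))) := by
      rw [← Real.rpow_mul (Z_nonneg _), mul_one_div_cancel (by positivity), Real.rpow_one]
    rw [h6]
    exact Real.rpow_le_rpow (Real.rpow_nonneg (Z_nonneg _) _) h4 (by positivity)
  refine h5.trans ?_
  rw [Real.mul_rpow (by positivity) (by positivity), ← Real.rpow_mul (by positivity),
    Real.mul_rpow (by positivity) (by positivity)]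
  have e1 : (2:ℝ) * (1 / (2 * (k:ℝ))) = 1 / k := by field_simp
  rw [e1, ← mul_assoc]
  apply mul_le_mul_of_nonneg_left _ (by positivity)
  apply Real.rpow_le_rpow_of_exponent_le (by linarith [abs_nonneg (α * a n)])
  rw [zero_add, div_le_iff₀ hk0]
  rw [div_lt_iff₀ hε] at hk
  linarith

end Pool.Agent.N798
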