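import Pool.Agent.N798.G4
import Pool.Agent.N798.G8
import Pool.Agent.N798.Mom4

set_option autoImplicit false

/-! Moments of the local maxima of zeta and of its derivative. -/

namespace Pool.Agent.N798.G

open MeasureTheory Filter Topology Set
open Pool.Agent.R303.LM
open scoped ENNReal Real

/-- Jensen's inequality on an interval -/
lemma jensen_win {P : ℝ} (hP : 1 ≤ P) {f : ℝ → ℝ} (hf : Continuous f) (h0 : ∀ t, 0 ≤ f t) {a b : ℝ} (hab : a < b) :
    (∫ y in a..b, f y) ^ P ≤ (b - a) ^ (P - 1) * ∫ y in a..b, f y ^ P := by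
  have hba : 0 < b - a := by linarith
  have hc : Continuous fun y => f y ^ P := hf.rpow_const fun _ => Or.inr (by linarith)
  have hv : volume (Ioc a b) = ENNReal.ofReal (b - a) := Real.volume_Ioc
  have hv0 : volume (Ioc a b) ≠ 0 := by rw [hv]; simpa using hba
  have hvt : volume (Ioc a b) ≠ ⊤ := by rw [hv]; exact ENNReal.ofReal_ne_top
  have h1 := (convexOn_rpow hP).map_set_average_le (μ := volume) (t := Ioc a b) (f := f)
    ((Real.continuous_rpow_const (by linarith)).continuousOn) isClosed_Ici hv0 hvt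
    (Eventually.of_forall fun t => h0 t) hf.integrableOn_Ioc hc.integrableOn_Ioc
  have hr : (volume.real (Ioc a b))⁻¹ = (b - a)⁻¹ := by
    rw [Measure.real, hv, ENNReal.toReal_ofReal hba.le]
  rw [setAverage_eq, setAverage_eq, hr, smul_eq_mul, smul_eq_mul] at h1
  rw [intervalIntegral.integral_of_le hab.le, intervalIntegral.integral_of_le hab.le]
  have hI0 : 0 ≤ ∫ y in Ioc a b, f y := setIntegral_nonneg measurableSet_Ioc fun y _ => h0 y
  rw [Real.mul_rpow (inv_nonneg.2 hba.le) hI0, Real.inv_rpow hba.le] at h1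
  have h2 := mul_le_mul_of_nonneg_left h1 (Real.rpow_pos_of_pos hba P).le
  have h3 : 0 < (b - a) ^ P := Real.rpow_pos_of_pos hba P
  rw [mul_inv_cancel_left₀ h3.ne'] at h2
  refine h2.trans (le_of_eq ?_)
  rw [Real.rpow_sub hba, Real.rpow_one]
  ring

/-- the local mean of zeta -/
noncomputable def Gm (t : ℝ) : ℝ := ∫ y in (t - 3 * Real.log t)..(t + 3 * Real.log t), Z y

lemma G_nonneg {t : ℝ} (ht : 1 ≤ t) : 0 ≤ Gm t := by
  have := Real.log_nonneg ht
  exact intervalIntegral.integral_nonneg (by linarith) fun y _ => Z_nonneg y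

lemma G_cont : ContinuousOn Gm (Ioi 0) := by
  have h1 : Continuous fun x : ℝ => ∫ y in (0:ℝ)..x, Z y :=
    intervalIntegral.continuous_primitive (fun a b => Z_cont.intervalIntegrable a b) 0
  have h2 : Gm = fun t => (∫ y in (0:ℝ)..(t + 3 * Real.log t), Z y) - ∫ y in (0:ℝ)..(t - 3 * Real.log t), Z y := by
    funext t
    unfold Gm
    rw [intervalIntegral.integral_interval_sub_left (Z_cont.intervalIntegrable _ _) (Z_cont.intervalIntegrable _ _)]
  have hl : ContinuousOn Real.log (Ioi 0) := Real.continuousOn_log.mono fun x hx => (ne_of_gt hx)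
  rw [h2]
  exact (h1.comp_continuousOn (continuousOn_id.add (continuousOn_const.mul hl))).sub
    (h1.comp_continuousOn (continuousOn_id.sub (continuousOn_const.mul hl)))

lemma par_cont {f : ℝ → ℝ} (hf : Continuous f) (a b : ℝ) : Continuous fun t => ∫ y in a..b, f (t + y) := by
  apply intervalIntegral.continuous_parametric_intervalIntegral_of_continuous' (f := fun t y => f (t + y))
  exact hf.comp (continuous_fst.add continuous_snd)

lemma int_swap {f : ℝ → ℝ} (hf : Continuous f) (a b c d : ℝ) :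
    ∫ t in a..b, ∫ y in c..d, f (t + y) = ∫ y in c..d, ∫ t in a..b, f (t + y) := by
  have hc2 : Continuous fun p : ℝ × ℝ => f (p.1 + p.2) := hf.comp (continuous_fst.add continuous_snd)
  apply intervalIntegral_intervalIntegral_swap
  exact (hc2.continuousOn.integrableOn_compact (isCompact_uIcc.prod isCompact_uIcc)).mono_set
      (Set.prod_mono Set.uIoc_subset_uIcc Set.uIoc_subset_uIcc)

lemma int_even {p : ℝ} (hp : 0 < p) (X : ℝ) : ∫ y in (-X)..X, Z y ^ p = 2 * ∫ y in (0:ℝ)..X, Z y ^ p := by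
  have hc := Zp_cont hp
  rw [← intervalIntegral.integral_add_adjacent_intervals (hc.intervalIntegrable (-X) 0) (hc.intervalIntegrable 0 X)]
  have h1 : ∫ y in (-X)..0, Z y ^ p = ∫ y in (0:ℝ)..X, Z y ^ p := by
    have := intervalIntegral.integral_comp_neg (a := 0) (b := X) (fun y => Z y ^ p)
    rw [neg_zero] at this
    rw [← this]
    exact intervalIntegral.integral_congr fun y _ => by simp only [Z_neg]
  rw [h1]; ring

lemma G_moment {P M : ℝ} (hP : 1 ≤ P) (hM : 1 ≤ M) (h : MomExp P M) {ε : ℝ} (hε : 0 < ε) :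
    ∃ A : ℝ, 0 ≤ A ∧ ∀ T : ℝ, 1 ≤ T → ∫ t in (1:ℝ)..T, Gm t ^ P ≤ A * T ^ (M + ε) := by
  have hP0 : 0 < P := by linarith
  obtain ⟨B, hB, hmom⟩ := mom_zero hP0 (by linarith) h (ε := ε / 2) (by linarith)
  have hcP := Zp_cont hP0
  -- bound for the length
  set δ : ℝ := ε / 2 / P with hδ
  have hδ0 : 0 < δ := by positivity
  set D : ℝ := 2 * (3 / δ + 1) with hD
  have hD0 : 0 < D := by positivity
  refine ⟨D ^ P * (2 * (B * 6 ^ (M + ε / 2))), by positivity, fun T hT => ?_⟩
  have hT0 : 0 < T := by linarith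
  set R : ℝ := 3 * Real.log T + 1 with hR
  have hl0 := Real.log_nonneg hT
  have hR0 : 0 < R := by linarith
  have hRT : R ≤ 4 * T := by
    have := Real.log_le_self hT0.le
    linarith
  have hRD : 2 * R ≤ D * T ^ δ := by
    have h1 : Real.log T ≤ T ^ δ / δ := Real.log_le_rpow_div hT0.le hδ0
    have h2 : 1 ≤ T ^ δ := Real.one_le_rpow hT hδ0.le
    have e : D * T ^ δ = 6 * (T ^ δ / δ) + 2 * T ^ δ := by rw [hD]; ring
    rw [e]; linarith
  have hZc : Continuous Z := Z_cont
  -- pointwise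
  have h1 : ∀ t ∈ Icc (1:ℝ) T, Gm t ^ P ≤ (2 * R) ^ (P - 1) * ∫ y in (-R)..R, Z (t + y) ^ P := by
    intro t ht
    have hlt : Real.log t ≤ Real.log T := Real.log_le_log (by linarith [ht.1]) ht.2
    have hlt0 := Real.log_nonneg ht.1
    have h2 : Gm t ≤ ∫ y in (t - R)..(t + R), Z y := by
      unfold Gm
      apply intervalIntegral.integral_mono_interval (by linarith) (by linarith) (by linarith)
        (Eventually.of_forall fun y => Z_nonneg y) (hZc.intervalIntegrable _ _)
    have h3 := jensen_win hP hZc Z_nonneg (show t - R < t + R by linarith)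
    have h4 : Gm t ^ P ≤ (∫ y in (t - R)..(t + R), Z y) ^ P := Real.rpow_le_rpow (G_nonneg ht.1) h2 hP0.le
    refine h4.trans (h3.trans (le_of_eq ?_))
    rw [show t + R - (t - R) = 2 * R by ring]
    congr 1
    rw [intervalIntegral.integral_comp_add_left (fun y => Z y ^ P) t]
    congr 1
  have hGi : IntervalIntegrable (fun t => Gm t ^ P) volume 1 T := by
    apply ContinuousOn.intervalIntegrable
    rw [uIcc_of_le hT]
    exact (G_cont.mono fun x hx => show 0 < x by linarith [hx.1]).rpow_const fun _ _ => Or.inr hP0.le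
  have h2 : ∫ t in (1:ℝ)..T, Gm t ^ P ≤ ∫ t in (1:ℝ)..T, (2 * R) ^ (P - 1) * ∫ y in (-R)..R, Z (t + y) ^ P :=
    intervalIntegral.integral_mono_on hT hGi
      ((continuous_const.mul (par_cont hcP _ _)).intervalIntegrable _ _) h1
  have h3 : ∫ y in (-R)..R, ∫ t in (1:ℝ)..T, Z (t + y) ^ P ≤ ∫ y in (-R)..R, 2 * (B * (1 + (T + R)) ^ (M + ε / 2)) := by
    refine intervalIntegral.integral_mono_on (by linarith) (Continuous.intervalIntegrable ?_ _ _)
      intervalIntegrable_const fun y hy => ?_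
    · have := par_cont hcP 1 T
      simpa only [add_comm] using this
    · rw [intervalIntegral.integral_comp_add_right (fun t => Z t ^ P) y]
      have h4 : ∫ t in (1 + y)..(T + y), Z t ^ P ≤ ∫ t in (-(T + R))..(T + R), Z t ^ P := by
        apply intervalIntegral.integral_mono_interval (by linarith [hy.1]) (by linarith) (by linarith [hy.2])
          (Eventually.of_forall fun y => Real.rpow_nonneg (Z_nonneg y) _) (hcP.intervalIntegrable _ _)
      rw [int_even hP0] at h4
      have h5 := hmom (T + R) (by linarith)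
      linarith
  rw [intervalIntegral.integral_const_mul, int_swap hcP] at h2
  refine h2.trans ?_
  have hRP0 : 0 ≤ (2 * R) ^ (P - 1) := by positivity
  refine (mul_le_mul_of_nonneg_left h3 hRP0).trans ?_
  rw [intervalIntegral.integral_const, smul_eq_mul]
  have e1 : (2 * R) ^ (P - 1) * ((R - -R) * (2 * (B * (1 + (T + R)) ^ (M + ε / 2)))) =
      (2 * R) ^ P * (2 * (B * (1 + (T + R)) ^ (M + ε / 2))) := by
    have e0 : (2 * R) ^ P = (2 * R) ^ (P - 1) * (2 * R) := by
      rw [Real.rpow_sub (by positivity), Real.rpow_one]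
      field_simp
    rw [e0]
    ring
  rw [e1]
  have e2 : (2 * R) ^ P ≤ D ^ P * T ^ (ε / 2) := by
    calc (2 * R) ^ P ≤ (D * T ^ δ) ^ P := Real.rpow_le_rpow (by linarith) hRD hP0.le
      _ = D ^ P * T ^ (ε / 2) := by
          rw [Real.mul_rpow hD0.le (by positivity), ← Real.rpow_mul hT0.le, hδ, div_mul_cancel₀ _ hP0.ne']
  have e3 : (1 + (T + R)) ^ (M + ε / 2) ≤ 6 ^ (M + ε / 2) * T ^ (M + ε / 2) := by
    rw [← Real.mul_rpow (by norm_num) hT0.le]
    exact Real.rpow_le_rpow (by linarith) (by linarith) (by linarith)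
  calc (2 * R) ^ P * (2 * (B * (1 + (T + R)) ^ (M + ε / 2)))
      ≤ (D ^ P * T ^ (ε / 2)) * (2 * (B * (6 ^ (M + ε / 2) * T ^ (M + ε / 2)))) := by gcongr
    _ = D ^ P * (2 * (B * 6 ^ (M + ε / 2))) * (T ^ (M + ε / 2) * T ^ (ε / 2)) := by ring
    _ = _ := by rw [← Real.rpow_add hT0]; congr 2; ring

end Pool.Agent.N798.G
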