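import Pool.Agent.N798.Win

/-!
The growth exponent of zeta on the critical line along almost every sequence `a n + α b n`.
-/

set_option autoImplicit false

open Filter Topology Set MeasureTheory

namespace Pool.Agent.N798

open Pool.Agent.R303.LM

/-- the bound `O(t^(κ + ε))` at the points of a sequence -/
def ExpAlong (t : ℕ → ℝ) (κ : ℝ) : Prop := ∀ ε : ℝ, 0 < ε → ∃ C : ℝ, ∀ n : ℕ, Z (t n) ≤ C * (1 + |t n|) ^ (κ + ε)

lemma volume_affine {a b : ℝ} (hb : 0 < b) (G : Set ℝ) :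
    volume {α : ℝ | a + α * b ∈ G} = ENNReal.ofReal b⁻¹ * volume G := by
  have e : {α : ℝ | a + α * b ∈ G} = (fun α => α * b) ⁻¹' ((fun y => a + y) ⁻¹' G) := rfl
  rw [e, Real.volume_preimage_mul_right hb.ne', measure_preimage_add, abs_of_pos (inv_pos.2 hb)]

lemma measurable_affine {a b : ℝ} {G : Set ℝ} (hG : MeasurableSet G) : MeasurableSet {α : ℝ | a + α * b ∈ G} := by
  have : Measurable fun α : ℝ => a + α * b := by fun_prop
  exact this hG

lemma Z_nonneg (t : ℝ) : 0 ≤ Z t := norm_nonneg _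

lemma fail_null_M {a b : ℕ → ℝ} (hb : Tendsto b atTop atTop) {κ ε : ℝ} (hκ : 0 ≤ κ) (hε : 0 < ε)
    (hbig : ∀ T₀ : ℝ, ∃ t : ℝ, T₀ ≤ t ∧ t ^ (κ + ε) < Z t) (M : ℕ) :
    volume {α : ℝ | Tendsto (fun n => a n + α * b n) atTop atTop ∧
      (∃ C : ℝ, ∀ n, |(a (n + 1) + α * b (n + 1)) - (a n + α * b n)| ≤ C) ∧
      ∀ n, Z (a n + α * b n) ≤ M * (1 + |a n + α * b n|) ^ (κ + ε / 4)} = 0 := by
  apply null_of_holes
  rintro x ⟨hx1, ⟨C, hx2⟩, hx3⟩
  set e : ℝ := min (ε / 2) 1 with he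
  have he0 : 0 < e := lt_min (by linarith) one_pos
  have he1 : e ≤ 1 := min_le_right _ _
  have he2 : e ≤ ε / 2 := min_le_left _ _
  obtain ⟨W, r, T₁, hW, hr0, hr1, hT₁, hwin⟩ := window he0 he1
  have hC0 : 0 ≤ C := (abs_nonneg _).trans (hx2 0)
  refine ⟨r / (r + C + 1), by positivity, fun δ hδ => ?_⟩
  obtain ⟨K, hK⟩ := (hb.eventually_gt_atTop (max ((r + C + 1) / δ) 1)).exists_forall_of_atTop
  -- a bound for the first terms
  obtain ⟨L, hL⟩ : ∃ L : ℝ, ∀ i ≤ K, a i + x * b i ≤ L := by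
    refine ⟨∑ i ∈ Finset.range (K + 1), |a i + x * b i|, fun i hi => ?_⟩
    refine (le_abs_self _).trans ?_
    exact Finset.single_le_sum (f := fun i => |a i + x * b i|) (fun j _ => abs_nonneg _)
      (Finset.mem_range.2 (by omega))
  -- choice of `T`
  have hlim : Tendsto (fun T : ℝ => T ^ (ε / 4)) atTop atTop := tendsto_rpow_atTop (by positivity)
  obtain ⟨T₂, hT₂⟩ := eventually_atTop.1 (hlim.eventually_gt_atTop ((M : ℝ) * 2 ^ (κ + ε / 4)))
  obtain ⟨T, hT, hTZ⟩ := hbig (T₁ + |T₂| + |L| + W + r + 2)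
  have hL' := le_abs_self L
  have hL'' := abs_nonneg L
  have hT₂' := le_abs_self T₂
  have hT₂'' := abs_nonneg T₂
  have hT1 : 1 ≤ T := by linarith
  have hT0 : 0 < T := by linarith
  have hZ1 : 1 ≤ Z T := (Real.one_le_rpow hT1 (by linarith)).trans hTZ.le
  obtain ⟨T₀, h1, G, hGm, hGs, hGv, hGZ⟩ := hwin T (by linarith) hZ1
  have h1' := abs_le.1 h1
  have hex : ∃ n, T₀ ≤ a n + x * b n := by
    obtain ⟨n, hn⟩ := (hx1.eventually_ge_atTop T₀).exists
    exact ⟨n, hn⟩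
  classical
  set n := Nat.find hex with hn
  have hn1 : T₀ ≤ a n + x * b n := Nat.find_spec hex
  have hnK : K < n := by
    by_contra hcon
    push Not at hcon
    have := hL n hcon
    linarith
  obtain ⟨k, hk⟩ : ∃ k, n = k + 1 := ⟨n - 1, by omega⟩
  have hn2 : a k + x * b k < T₀ := by
    by_contra hcon
    push Not at hcon
    have := Nat.find_min' hex hcon
    omega
  have hn3 : a n + x * b n ≤ T₀ + C := by
    have := (abs_le.1 (hx2 k)).2
    rw [← hk] at this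
    linarith
  have hbn := hK n hnK.le
  have hbn1 : 1 < b n := lt_of_le_of_lt (le_max_right _ _) hbn
  have hbn2 : (r + C + 1) / δ < b n := lt_of_le_of_lt (le_max_left _ _) hbn
  have hbn0 : 0 < b n := by linarith
  refine ⟨(r + C + 1) / b n, by positivity, ?_, {α : ℝ | a n + α * b n ∈ G}, measurable_affine hGm, ?_, ?_, ?_⟩
  · rw [div_lt_iff₀ hδ] at hbn2
    rw [div_lt_iff₀ hbn0]
    linarith
  · intro α hα
    have h2 := hGs hα
    rw [Metric.mem_closedBall, Real.dist_eq, le_div_iff₀ hbn0, ← abs_of_pos hbn0, ← abs_mul]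
    have h3 : (α - x) * b n = (a n + α * b n) - (a n + x * b n) := by ring
    rw [h3, abs_le]
    constructor <;> linarith [h2.1, h2.2]
  · rw [Set.disjoint_left]
    rintro α hα ⟨-, -, hα3⟩
    have h2 := hGs hα
    have h3 := hGZ _ hα
    have h4 := hα3 n
    set t := a n + α * b n with ht
    have ht1 : |t| ≤ T + W + r := by
      rw [abs_le]; constructor <;> linarith [h2.1, h2.2]
    have ht2 : 1 + |t| ≤ 2 * T := by linarith
    have h5 : (1 + |t|) ^ (κ + ε / 4) ≤ 2 ^ (κ + ε / 4) * T ^ (κ + ε / 4) := by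
      rw [← Real.mul_rpow (by norm_num) hT0.le]
      exact Real.rpow_le_rpow (by positivity) ht2 (by linarith)
    have h6 : T ^ (κ + ε / 2) < T ^ (-e) * Z T := by
      have h7 : T ^ (κ + ε / 2) ≤ T ^ (-e) * T ^ (κ + ε) := by
        rw [← Real.rpow_add hT0]
        exact Real.rpow_le_rpow_of_exponent_le hT1 (by linarith)
      exact lt_of_le_of_lt h7 (mul_lt_mul_of_pos_left hTZ (Real.rpow_pos_of_pos hT0 _))
    have h8 := hT₂ T (by linarith)
    have h9 : (M : ℝ) * (1 + |t|) ^ (κ + ε / 4) ≤ T ^ (κ + ε / 2) := by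
      calc (M : ℝ) * (1 + |t|) ^ (κ + ε / 4) ≤ M * (2 ^ (κ + ε / 4) * T ^ (κ + ε / 4)) :=
            mul_le_mul_of_nonneg_left h5 (Nat.cast_nonneg _)
        _ = (M * 2 ^ (κ + ε / 4)) * T ^ (κ + ε / 4) := by ring
        _ ≤ T ^ (ε / 4) * T ^ (κ + ε / 4) :=
            mul_le_mul_of_nonneg_right h8.le (Real.rpow_nonneg hT0.le _)
        _ = T ^ (κ + ε / 2) := by rw [← Real.rpow_add hT0]; congr 1; ring
    linarith
  · rw [volume_affine hbn0]
    have h2 : r / (r + C + 1) * ((r + C + 1) / b n) = (b n)⁻¹ * r := by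
      have : r + C + 1 ≠ 0 := by positivity
      field_simp
    rw [h2, ENNReal.ofReal_mul (inv_nonneg.2 hbn0.le)]
    exact mul_le_mul_right hGv _

lemma exponent_mono {κ κ' : ℝ} (h : κ ≤ κ') (hE : Exponent κ) : Exponent κ' := by
  intro ε hε
  obtain ⟨C, hC⟩ := hE ε hε
  refine ⟨|C|, fun t => (hC t).trans ?_⟩
  have h1 : 1 ≤ 1 + |t| := by linarith [abs_nonneg t]
  calc C * (1 + |t|) ^ (κ + ε) ≤ |C| * (1 + |t|) ^ (κ + ε) :=
        mul_le_mul_of_nonneg_right (le_abs_self C) (by positivity)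
    _ ≤ |C| * (1 + |t|) ^ (κ' + ε) := mul_le_mul_of_nonneg_left
        (Real.rpow_le_rpow_of_exponent_le h1 (by linarith)) (abs_nonneg C)

lemma along_mono {t : ℕ → ℝ} {κ κ' : ℝ} (h : κ ≤ κ') (hE : ExpAlong t κ) : ExpAlong t κ' := by
  intro ε hε
  obtain ⟨C, hC⟩ := hE ε hε
  refine ⟨|C|, fun n => (hC n).trans ?_⟩
  have h1 : 1 ≤ 1 + |t n| := by linarith [abs_nonneg (t n)]
  calc C * (1 + |t n|) ^ (κ + ε) ≤ |C| * (1 + |t n|) ^ (κ + ε) :=
        mul_le_mul_of_nonneg_right (le_abs_self C) (by positivity)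
    _ ≤ |C| * (1 + |t n|) ^ (κ' + ε) := mul_le_mul_of_nonneg_left
        (Real.rpow_le_rpow_of_exponent_le h1 (by linarith)) (abs_nonneg C)

lemma along_of_exponent {t : ℕ → ℝ} {κ : ℝ} (hE : Exponent κ) : ExpAlong t κ := by
  intro ε hε
  obtain ⟨C, hC⟩ := hE ε hε
  exact ⟨C, fun n => hC _⟩

lemma exponent_closed {κ : ℝ} (h : ∀ q : ℚ, κ < q → Exponent q) : Exponent κ := by
  intro ε hε
  obtain ⟨q, hq1, hq2⟩ := exists_rat_btwn (show κ < κ + ε by linarith)
  obtain ⟨C, hC⟩ := h q hq1 (κ + ε - q) (by linarith)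
  exact ⟨C, fun t => by rw [show κ + ε = q + (κ + ε - q) by ring]; exact hC t⟩

lemma fail_null {a b : ℕ → ℝ} (hb : Tendsto b atTop atTop) {κ : ℝ} (hκ : 0 ≤ κ) (hE : ¬ Exponent κ) :
    volume {α : ℝ | Tendsto (fun n => a n + α * b n) atTop atTop ∧
      (∃ C : ℝ, ∀ n, |(a (n + 1) + α * b (n + 1)) - (a n + α * b n)| ≤ C) ∧
      ExpAlong (fun n => a n + α * b n) κ} = 0 := by
  have h1 : ∃ ε : ℝ, 0 < ε ∧ ∀ T₀ : ℝ, ∃ t : ℝ, T₀ ≤ t ∧ t ^ (κ + ε) < Z t := by
    by_contra hcon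
    push Not at hcon
    exact hE (exponent_of_large hκ hcon)
  obtain ⟨ε, hε, hbig⟩ := h1
  have h2 := measure_iUnion_null (fun M : ℕ => fail_null_M (a := a) hb hκ hε hbig M)
  refine measure_mono_null ?_ h2
  rintro α ⟨hα1, hα2, hα3⟩
  obtain ⟨C, hC⟩ := hα3 (ε / 4) (by positivity)
  obtain ⟨M, hM⟩ := exists_nat_ge C
  rw [mem_iUnion]
  refine ⟨M, hα1, hα2, fun n => (hC n).trans ?_⟩
  exact mul_le_mul_of_nonneg_right hM (by positivity)

/-- **The growth exponent is attained along almost every sequence `a n + α b n`.** -/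
theorem pointwise {a b : ℕ → ℝ} (hb : Tendsto b atTop atTop) : ∀ᵐ α : ℝ,
    Tendsto (fun n => a n + α * b n) atTop atTop →
    (∃ C : ℝ, ∀ n, |(a (n + 1) + α * b (n + 1)) - (a n + α * b n)| ≤ C) →
    ∀ κ : ℝ, 0 ≤ κ → (Exponent κ ↔ ExpAlong (fun n => a n + α * b n) κ) := by
  have h1 : ∀ᵐ α : ℝ, ∀ q : ℚ, (0:ℝ) ≤ q → ¬ Exponent q →
      ¬ (Tendsto (fun n => a n + α * b n) atTop atTop ∧
      (∃ C : ℝ, ∀ n, |(a (n + 1) + α * b (n + 1)) - (a n + α * b n)| ≤ C) ∧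
      ExpAlong (fun n => a n + α * b n) q) := by
    rw [ae_all_iff]
    intro q
    by_cases h : (0:ℝ) ≤ q ∧ ¬ Exponent q
    · have := fail_null (a := a) hb h.1 h.2
      filter_upwards [measure_eq_zero_iff_ae_notMem.1 this] with α hα _ _
      exact hα
    · filter_upwards with α h1 h2
      exact absurd ⟨h1, h2⟩ h
  filter_upwards [h1] with α hα ht hg κ hκ
  refine ⟨fun h => along_of_exponent h, fun h => exponent_closed fun q hq => ?_⟩
  by_contra hcon
  exact hα q (hκ.trans hq.le) hcon ⟨ht, hg, along_mono hq.le h⟩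

end Pool.Agent.N798
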