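import Pool.Agent.N798.Sp7
import Pool.Agent.N798.Pt

/-!
Large values of zeta on the critical line and its values along the sequences `α n^c`.
-/

set_option autoImplicit false

open MeasureTheory Set Filter Topology

namespace Pool.Agent.N798.Ls

open Pool.Agent.N798 Pool.Agent.N798.Sp Pool.Agent.R303.LM

/-- the measure of the set of the `t` in `[0, T]` with `|ζ(1/2+it)| ≥ T^(κ+ε)` is `O(T^(r+ε))` -/
def LV (κ r : ℝ) : Prop := ∀ ε : ℝ, 0 < ε → ∃ C : ℝ, ∀ T : ℝ, 1 ≤ T →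
  volume.real {t : ℝ | 0 ≤ t ∧ t ≤ T ∧ T ^ (κ + ε) ≤ Z t} ≤ C * T ^ (r + ε)

/-- the large values -/
def Ek (κ : ℝ) : Set ℝ := {t | 1 ≤ t ∧ t ^ κ ≤ Z t}

lemma Ek_meas (κ : ℝ) : MeasurableSet (Ek κ) := by
  have h1 : Measurable fun t : ℝ => t ^ κ := by fun_prop
  exact (measurableSet_le measurable_const measurable_id).inter (measurableSet_le h1 Z_cont.measurable)

lemma Ek_anti {κ κ' : ℝ} (h : κ ≤ κ') : Ek κ' ⊆ Ek κ := by
  rintro t ⟨h1, h2⟩
  exact ⟨h1, (Real.rpow_le_rpow_of_exponent_le h1 h).trans h2⟩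

lemma lv_iff {κ r : ℝ} (hκ : 0 ≤ κ) (hr : 0 ≤ r) : LV κ r ↔ ∀ ε : ℝ, 0 < ε → SizeLe (Ek (κ + ε)) (r + ε) := by
  constructor
  · intro h ε hε
    by_contra hcon
    obtain ⟨C, hC⟩ := h (ε / 4) (by linarith)
    have hlim : Tendsto (fun L : ℝ => Real.exp (ε / 4 * L)) atTop atTop :=
      Real.tendsto_exp_atTop.comp (tendsto_id.const_mul_atTop (by linarith))
    obtain ⟨L₁, hL₁⟩ := eventually_atTop.1 ((hlim.eventually_gt_atTop (C * Real.exp (r + ε / 4))).and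
      (eventually_ge_atTop ((κ + ε) / (ε / 2))))
    obtain ⟨N, hN⟩ := exists_nat_ge L₁
    obtain ⟨L, hL, hbig⟩ := big_blocks (r := r + ε) (by linarith) (r' := r + ε / 2) (by linarith) hcon N
    have hLN : L₁ ≤ L := hN.trans (by exact_mod_cast hL)
    obtain ⟨g1, g2⟩ := hL₁ L hLN
    rw [div_le_iff₀ (by linarith)] at g2
    set T : ℝ := Real.exp (L + 1) with hT
    have hL0 : (0:ℝ) ≤ L := Nat.cast_nonneg L
    have hT1 : 1 ≤ T := by rw [hT]; exact Real.one_le_exp (by linarith)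
    have hsub : Ek (κ + ε) ∩ Icc (Real.exp L) (Real.exp (L + 1)) ⊆ {t : ℝ | 0 ≤ t ∧ t ≤ T ∧ T ^ (κ + ε / 4) ≤ Z t} := by
      rintro t ⟨⟨h1, h2⟩, h3, h4⟩
      refine ⟨by linarith, h4, le_trans ?_ h2⟩
      have h5 : Real.exp L ^ (κ + ε) ≤ t ^ (κ + ε) := Real.rpow_le_rpow (Real.exp_pos _).le h3 (by linarith)
      refine le_trans ?_ h5
      rw [hT, ← Real.exp_mul, ← Real.exp_mul]
      apply Real.exp_le_exp.2
      nlinarith
    have hfin : volume {t : ℝ | 0 ≤ t ∧ t ≤ T ∧ T ^ (κ + ε / 4) ≤ Z t} ≠ ⊤ := by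
      refine ne_top_of_le_ne_top (b := volume (Icc 0 T)) ?_ (measure_mono fun t ht => ⟨ht.1, ht.2.1⟩)
      rw [Real.volume_Icc]; exact ENNReal.ofReal_ne_top
    have h1 := (measureReal_mono hsub hfin).trans (hC T hT1)
    have h2 : C * T ^ (r + ε / 4) < Real.exp ((r + ε / 2) * L) := by
      rw [hT, ← Real.exp_mul]
      have e1 : (L + 1) * (r + ε / 4) = (r + ε / 4) * L + (r + ε / 4) := by ring
      have e2 : (r + ε / 2) * L = (r + ε / 4) * L + ε / 4 * L := by ring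
      rw [e1, e2, Real.exp_add ((r + ε / 4) * L) (r + ε / 4), Real.exp_add ((r + ε / 4) * L) (ε / 4 * L)]
      have h3 : 0 < Real.exp ((r + ε / 4) * L) := Real.exp_pos _
      calc C * (Real.exp ((r + ε / 4) * L) * Real.exp (r + ε / 4)) =
            Real.exp ((r + ε / 4) * L) * (C * Real.exp (r + ε / 4)) := by ring
        _ < Real.exp ((r + ε / 4) * L) * Real.exp (ε / 4 * L) := mul_lt_mul_of_pos_left g1 h3
    linarith
  · intro h ε hε
    obtain ⟨C, hC⟩ := h ε hε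
    refine ⟨1 + C, fun T hT => ?_⟩
    have hsub : {t : ℝ | 0 ≤ t ∧ t ≤ T ∧ T ^ (κ + ε) ≤ Z t} ⊆ Icc 0 1 ∪ (Ek (κ + ε) ∩ Icc 0 T) := by
      rintro t ⟨h0, h1, h2⟩
      by_cases ht : t ≤ 1
      · exact Or.inl ⟨h0, ht⟩
      · right
        push Not at ht
        refine ⟨⟨ht.le, le_trans ?_ h2⟩, h0, h1⟩
        exact Real.rpow_le_rpow (by linarith) h1 (by linarith)
    have hf1 : volume (Icc (0:ℝ) 1) ≠ ⊤ := by rw [Real.volume_Icc]; exact ENNReal.ofReal_ne_top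
    have h1 := (measureReal_mono hsub (measure_union_ne_top hf1 (fin_Icc _ _ _))).trans (measureReal_union_le _ _)
    rw [Real.volume_real_Icc_of_le (by norm_num)] at h1
    have h2 := hC T hT
    have h3 : 1 ≤ T ^ (r + ε) := Real.one_le_rpow hT (by linarith)
    linarith

/-- the heights `α n^c` -/
noncomputable def hts (α c : ℝ) (n : ℕ) : ℝ := α * (n:ℝ) ^ c

lemma hts_tendsto {α c : ℝ} (hα : 0 < α) (hc : 0 < c) : Tendsto (hts α c) atTop atTop :=
  ((tendsto_rpow_atTop hc).comp tendsto_natCast_atTop_atTop).const_mul_atTop hα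

lemma hts_nonneg {α c : ℝ} (hα : 0 < α) (n : ℕ) : 0 ≤ hts α c n := by unfold hts; positivity

lemma along_iff {α c κ : ℝ} (hα : 0 < α) (hc : 0 < c) (hκ : 0 ≤ κ) :
    ExpAlong (hts α c) κ ↔ ∀ k : ℕ, Fin' (Ek (κ + 1 / ((k:ℝ) + 1))) α c := by
  constructor
  · intro h k
    set ε : ℝ := 1 / ((k:ℝ) + 1) with hε
    have hε0 : 0 < ε := by positivity
    obtain ⟨C, hC⟩ := h (ε / 2) (by linarith)
    have hlim : Tendsto (fun n => (hts α c n) ^ (ε / 2)) atTop atTop :=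
      (tendsto_rpow_atTop (by linarith)).comp (hts_tendsto hα hc)
    obtain ⟨m, hm⟩ := eventually_atTop.1 ((hlim.eventually_gt_atTop (C * 2 ^ (κ + ε / 2))).and
      ((hts_tendsto hα hc).eventually_ge_atTop 1))
    refine ⟨m, fun n hn hmem => ?_⟩
    obtain ⟨g1, g2⟩ := hm n hn
    obtain ⟨h1, h2⟩ := hmem
    have h3 := hC n
    set x : ℝ := hts α c n with hx
    have e0 : α * (n:ℝ) ^ c = x := rfl
    rw [e0] at h1 h2
    rw [abs_of_nonneg (by linarith)] at h3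
    have hx0 : 0 < x := by linarith
    have hC0 : 0 ≤ C := by
      by_contra hneg
      push Not at hneg
      have h4 := Z_nonneg x
      have h5 : 0 < (1 + x) ^ (κ + ε / 2) := by positivity
      nlinarith
    have h4 : (1 + x) ^ (κ + ε / 2) ≤ 2 ^ (κ + ε / 2) * x ^ (κ + ε / 2) := by
      rw [← Real.mul_rpow (by norm_num) hx0.le]
      exact Real.rpow_le_rpow (by linarith) (by linarith) (by linarith)
    have h5 : x ^ (κ + ε) = x ^ (κ + ε / 2) * x ^ (ε / 2) := by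
      rw [← Real.rpow_add hx0]; congr 1; ring
    have h6 : x ^ (κ + ε / 2) * x ^ (ε / 2) ≤ C * (2 ^ (κ + ε / 2) * x ^ (κ + ε / 2)) := by
      rw [← h5]
      exact h2.trans (h3.trans (mul_le_mul_of_nonneg_left h4 hC0))
    have h7 : 0 < x ^ (κ + ε / 2) := by positivity
    nlinarith
  · intro h ε hε
    obtain ⟨k, hk⟩ := exists_nat_one_div_lt hε
    obtain ⟨m, hm⟩ := h k
    set δ : ℝ := 1 / ((k:ℝ) + 1) with hδ
    have hδ0 : 0 < δ := by positivity
    -- constant for the first terms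
    obtain ⟨m', hm'⟩ := eventually_atTop.1 ((hts_tendsto hα hc).eventually_ge_atTop 1)
    refine ⟨1 + ∑ i ∈ Finset.range (m + m'), Z (hts α c i), fun n => ?_⟩
    have hS : 0 ≤ ∑ i ∈ Finset.range (m + m'), Z (hts α c i) := Finset.sum_nonneg fun i _ => Z_nonneg _
    have hx0 := hts_nonneg (c := c) hα n
    have h1 : 1 ≤ (1 + |hts α c n|) ^ (κ + ε) :=
      Real.one_le_rpow (by linarith [abs_nonneg (hts α c n)]) (by linarith)
    by_cases hn : n < m + m'
    · have h2 : Z (hts α c n) ≤ ∑ i ∈ Finset.range (m + m'), Z (hts α c i) :=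
        Finset.single_le_sum (f := fun i => Z (hts α c i)) (fun i _ => Z_nonneg _) (Finset.mem_range.2 hn)
      nlinarith
    · have h2 := hm n (by omega)
      have h3 := hm' n (by omega)
      have h4 : Z (hts α c n) < (hts α c n) ^ (κ + δ) := by
        by_contra hcon
        push Not at hcon
        exact h2 ⟨h3, hcon⟩
      have h5 : (hts α c n) ^ (κ + δ) ≤ (1 + |hts α c n|) ^ (κ + ε) := by
        rw [abs_of_nonneg hx0]
        calc (hts α c n) ^ (κ + δ) ≤ (1 + hts α c n) ^ (κ + δ) :=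
              Real.rpow_le_rpow hx0 (by linarith) (by linarith)
          _ ≤ (1 + hts α c n) ^ (κ + ε) := Real.rpow_le_rpow_of_exponent_le (by linarith) (by linarith)
      nlinarith

lemma one_lt_of {r c : ℝ} (hr : 0 ≤ r) (hr1 : r < 1) (h : 1 / (1 - r) < c) : 1 < c :=
  lt_of_le_of_lt (by rw [le_div_iff₀ (by linarith)]; linarith) h

/-- Large values and the sequences `α n^c`. -/
theorem large {κ r : ℝ} (hκ : 0 ≤ κ) (hr : 0 ≤ r) (hr1 : r < 1) :
    List.TFAE [LV κ r,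
      ∀ c : ℝ, 1 / (1 - r) < c → ∀ᵐ α : ℝ, 0 < α → ExpAlong (hts α c) κ,
      ∀ᵐ p : ℝ × ℝ, 0 < p.1 → 1 / (1 - r) < p.2 → ExpAlong (hts p.1 p.2) κ,
      ∀ a b : ℝ, 1 / (1 - r) < a → a < b →
        volume {p : ℝ × ℝ | 0 < p.1 ∧ a < p.2 ∧ p.2 < b ∧ ExpAlong (hts p.1 p.2) κ} ≠ 0] := by
  have key : LV κ r ↔ ∀ k : ℕ, ∀ ε : ℝ, 0 < ε → SizeLe (Ek (κ + 1 / ((k:ℝ) + 1))) (r + ε) := by
    rw [lv_iff hκ hr]
    constructor
    · intro h k ε hε
      have hk : 0 < 1 / ((k:ℝ) + 1) := by positivity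
      have h1 := h (min ε (1 / ((k:ℝ) + 1))) (lt_min hε hk)
      refine (h1.mono (by linarith [min_le_left ε (1 / ((k:ℝ) + 1))])).subset (Ek_anti ?_)
      linarith [min_le_right ε (1 / ((k:ℝ) + 1))]
    · intro h ε hε
      obtain ⟨k, hk⟩ := exists_nat_one_div_lt hε
      exact (h k ε hε).subset (Ek_anti (by linarith))
  have tf := fun k : ℕ => tfae_set (Ek_meas (κ + 1 / ((k:ℝ) + 1))) hr hr1
  tfae_have 1 → 2 := by
    intro h c hc
    have hc0 : 0 < c := by linarith [one_lt_of hr hr1 hc]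
    have h1 : ∀ k : ℕ, ∀ᵐ α : ℝ, 0 < α → Fin' (Ek (κ + 1 / ((k:ℝ) + 1))) α c := by
      intro k
      have h2 := (tf k).out 0 1
      exact h2.1 (key.1 h k) c hc
    filter_upwards [ae_all_iff.2 h1] with α hα h0
    exact (along_iff h0 hc0 hκ).2 fun k => hα k h0
  tfae_have 1 → 3 := by
    intro h
    have h1 : ∀ k : ℕ, ∀ᵐ p : ℝ × ℝ, 0 < p.1 → 1 / (1 - r) < p.2 → Fin' (Ek (κ + 1 / ((k:ℝ) + 1))) p.1 p.2 := by
      intro k
      have h2 := (tf k).out 0 2
      exact h2.1 (key.1 h k)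
    filter_upwards [ae_all_iff.2 h1] with p hp h0 h3
    have hc0 : 0 < p.2 := by linarith [one_lt_of hr hr1 h3]
    exact (along_iff h0 hc0 hκ).2 fun k => hp k h0 h3
  tfae_have 2 → 1 := by
    intro h
    refine key.2 fun k => ?_
    have h2 := (tf k).out 0 1
    refine h2.2 fun c hc => ?_
    have hc0 : 0 < c := by linarith [one_lt_of hr hr1 hc]
    filter_upwards [h c hc] with α hα h0
    exact (along_iff h0 hc0 hκ).1 (hα h0) k
  tfae_have 3 → 4 := by
    intro h a b ha hab h0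
    apply rect_pos hab
    have h2 : ∀ᵐ p : ℝ × ℝ, ¬ (0 < p.1 ∧ a < p.2 ∧ p.2 < b ∧ ExpAlong (hts p.1 p.2) κ) := by
      rw [ae_iff]
      simpa using h0
    have h3 : ∀ᵐ p : ℝ × ℝ, ¬ (0 < p.1 ∧ a < p.2 ∧ p.2 < b) := by
      filter_upwards [h, h2] with p hp1 hp2 hp3
      exact hp2 ⟨hp3.1, hp3.2.1, hp3.2.2, hp1 hp3.1 (ha.trans hp3.2.1)⟩
    rw [ae_iff] at h3
    simpa using h3
  tfae_have 4 → 1 := by
    intro h
    refine key.2 fun k => ?_
    have h2 := (tf k).out 0 3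
    refine h2.2 fun a b ha hab h0 => ?_
    refine h a b ha hab (measure_mono_null ?_ h0)
    rintro p ⟨h4, h5, h6, h7⟩
    have hc0 : 0 < p.2 := by linarith [one_lt_of hr hr1 ha]
    exact ⟨h4, h5, h6, (along_iff h4 hc0 hκ).1 h7 k⟩
  tfae_finish

end Pool.Agent.N798.Ls
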