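import Pool.Agent.N798.Pt

/-!
Moments of zeta along `α a n`: the easy direction.
-/

set_option autoImplicit false

open Filter Topology Set MeasureTheory

namespace Pool.Agent.N798

open Pool.Agent.R303.LM

/-- the moment bound `O(T^(M + ε))` -/
def MomExp (p M : ℝ) : Prop := ∀ ε : ℝ, 0 < ε → ∃ A : ℝ, ∀ T : ℝ, 1 ≤ T → ∫ t in (1:ℝ)..T, Z t ^ p ≤ A * T ^ (M + ε)

/-- the discrete moment bound `O(N^(M + ε))` along a sequence -/
def MomAlong (t : ℕ → ℝ) (p M : ℝ) : Prop := ∀ ε : ℝ, 0 < ε → ∃ A : ℝ, ∀ N : ℕ, 1 ≤ N →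
  ∑ n ∈ Finset.range N, Z (t n) ^ p ≤ A * (N : ℝ) ^ (M + ε)

lemma Zp_cont {p : ℝ} (hp : 0 < p) : Continuous fun t => Z t ^ p :=
  Z_cont.rpow_const fun _ => Or.inr hp.le

/-- a set of positive reals which is a Delone set -/
structure Del (a : ℕ → ℝ) (c C : ℝ) : Prop where
  hc : 0 < c
  pos : 0 < a 0
  low : ∀ n, c ≤ a (n + 1) - a n
  upp : ∀ n, a (n + 1) - a n ≤ C

lemma Del.hC {a : ℕ → ℝ} {c C : ℝ} (h : Del a c C) : 0 < C := h.hc.trans_le ((h.low 0).trans (h.upp 0))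

lemma Del.lower {a : ℕ → ℝ} {c C : ℝ} (h : Del a c C) (n : ℕ) : a 0 + c * n ≤ a n := by
  induction n with
  | zero => simp
  | succ n ih =>
    have := h.low n
    push_cast
    linarith

lemma Del.upper {a : ℕ → ℝ} {c C : ℝ} (h : Del a c C) (n : ℕ) : a n ≤ a 0 + C * n := by
  induction n with
  | zero => simp
  | succ n ih =>
    have := h.upp n
    push_cast
    linarith

lemma Del.low' {a : ℕ → ℝ} {c C : ℝ} (h : Del a c C) (n : ℕ) : min (a 0) c * (n + 1) ≤ a n := by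
  have h1 := h.lower n
  have h2 := min_le_left (a 0) c
  have h3 := min_le_right (a 0) c
  have h4 : (0:ℝ) ≤ n := Nat.cast_nonneg n
  nlinarith

lemma Del.upp' {a : ℕ → ℝ} {c C : ℝ} (h : Del a c C) (n : ℕ) : a n ≤ (a 0 + C) * (n + 1) := by
  have h1 := h.upper n
  have h2 := h.pos
  have h3 := h.hC
  have h4 : (0:ℝ) ≤ n := Nat.cast_nonneg n
  nlinarith

lemma Del.pos' {a : ℕ → ℝ} {c C : ℝ} (h : Del a c C) (n : ℕ) : 0 < a n := by
  have := h.lower n
  have h2 := h.pos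
  have h3 : 0 ≤ c * n := mul_nonneg h.hc.le (Nat.cast_nonneg n)
  linarith

lemma Del.tendsto {a : ℕ → ℝ} {c C : ℝ} (h : Del a c C) : Tendsto a atTop atTop := by
  apply tendsto_atTop_mono h.lower
  apply tendsto_atTop_add_const_left
  exact Tendsto.const_mul_atTop h.hc tendsto_natCast_atTop_atTop

/-- the integral from zero -/
lemma mom_zero {p M : ℝ} (hp : 0 < p) (hM : 0 ≤ M) (h : MomExp p M) {ε : ℝ} (hε : 0 < ε) :
    ∃ A : ℝ, 0 ≤ A ∧ ∀ T : ℝ, 0 ≤ T → ∫ t in (0:ℝ)..T, Z t ^ p ≤ A * (1 + T) ^ (M + ε) := by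
  obtain ⟨A, hA⟩ := h ε hε
  have hc := Zp_cont hp
  have hint : ∀ x y : ℝ, IntervalIntegrable (fun t => Z t ^ p) volume x y := fun x y => hc.intervalIntegrable _ _
  have hnn : ∀ t, 0 ≤ Z t ^ p := fun t => Real.rpow_nonneg (Z_nonneg t) _
  set B : ℝ := ∫ t in (0:ℝ)..1, Z t ^ p with hB
  have hB0 : 0 ≤ B := intervalIntegral.integral_nonneg (by norm_num) fun t _ => hnn t
  refine ⟨B + |A|, by positivity, fun T hT => ?_⟩
  have h1 : 1 ≤ (1 + T) ^ (M + ε) := Real.one_le_rpow (by linarith) (by linarith)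
  rcases le_total T 1 with h2 | h2
  · have h3 : ∫ t in (0:ℝ)..T, Z t ^ p ≤ B := by
      rw [hB]
      apply intervalIntegral.integral_mono_interval le_rfl hT h2
      · exact Eventually.of_forall fun t => hnn t
      · exact hint _ _
    calc ∫ t in (0:ℝ)..T, Z t ^ p ≤ B := h3
      _ ≤ (B + |A|) * 1 := by linarith [abs_nonneg A]
      _ ≤ (B + |A|) * (1 + T) ^ (M + ε) := mul_le_mul_of_nonneg_left h1 (by positivity)
  · rw [← intervalIntegral.integral_add_adjacent_intervals (hint 0 1) (hint 1 T)]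
    have h3 := hA T h2
    have h4 : T ^ (M + ε) ≤ (1 + T) ^ (M + ε) := Real.rpow_le_rpow (by linarith) (by linarith) (by linarith)
    calc B + ∫ t in (1:ℝ)..T, Z t ^ p ≤ B * 1 + |A| * T ^ (M + ε) := by
          have : A * T ^ (M + ε) ≤ |A| * T ^ (M + ε) :=
            mul_le_mul_of_nonneg_right (le_abs_self A) (by positivity)
          linarith
      _ ≤ B * (1 + T) ^ (M + ε) + |A| * (1 + T) ^ (M + ε) :=
          add_le_add (mul_le_mul_of_nonneg_left h1 hB0) (mul_le_mul_of_nonneg_left h4 (abs_nonneg A))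
      _ = _ := by ring

lemma lint_scale {p : ℝ} (hp : 0 < p) {b : ℝ} (hb : 0 < b) {v : ℝ} (hv : 0 ≤ v) :
    ∫⁻ α in Icc 0 v, ENNReal.ofReal (Z (α * b) ^ p) ≤
      ENNReal.ofReal (b⁻¹ * ∫ t in (0:ℝ)..(v * b), Z t ^ p) := by
  have hc := Zp_cont hp
  have hc' : Continuous fun α : ℝ => Z (α * b) ^ p := hc.comp (by fun_prop : Continuous fun α : ℝ => α * b)
  have hnn : ∀ t, 0 ≤ Z t ^ p := fun t => Real.rpow_nonneg (Z_nonneg t) _
  rw [← ofReal_integral_eq_lintegral_ofReal]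
  · apply ENNReal.ofReal_le_ofReal
    rw [integral_Icc_eq_integral_Ioc, ← intervalIntegral.integral_of_le hv,
      intervalIntegral.integral_comp_mul_right (fun t => Z t ^ p) hb.ne', zero_mul, smul_eq_mul]
  · exact (hc'.integrableOn_Icc)
  · exact Eventually.of_forall fun α => hnn _

lemma finite_series {a : ℕ → ℝ} {c C : ℝ} (ha : Del a c C) {p M : ℝ} (hp : 0 < p) (hM : 0 ≤ M)
    (h : MomExp p M) {ε : ℝ} (hε : 0 < ε) {v : ℝ} (hv : 0 ≤ v) :
    ∫⁻ α in Icc 0 v, ∑' n : ℕ, ENNReal.ofReal (Z (α * a n) ^ p) * ENNReal.ofReal (((n:ℝ) + 1) ^ (-(M + 2 * ε))) < ⊤ := by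
  obtain ⟨A, hA0, hA⟩ := mom_zero hp hM h hε
  have hc := Zp_cont hp
  have hmeas : ∀ n : ℕ, Measurable fun α : ℝ => ENNReal.ofReal (Z (α * a n) ^ p) := by
    intro n
    have hc' : Continuous fun α : ℝ => Z (α * a n) ^ p :=
      hc.comp (by fun_prop : Continuous fun α : ℝ => α * a n)
    exact hc'.measurable.ennreal_ofReal
  rw [lintegral_tsum fun n => ((hmeas n).mul_const _).aemeasurable]
  have hc'0 : 0 < min (a 0) c := lt_min ha.pos ha.hc
  set c' := min (a 0) c with hc'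
  set C' := a 0 + C with hC'
  have hC'0 : 0 < C' := by have := ha.pos; have := ha.hC; positivity
  set B : ℝ := A * (1 + v * C') ^ (M + ε) * c'⁻¹ with hB
  have hB0 : 0 ≤ B := by positivity
  have key : ∀ n : ℕ, ∫⁻ α in Icc 0 v, ENNReal.ofReal (Z (α * a n) ^ p) *
      ENNReal.ofReal (((n:ℝ) + 1) ^ (-(M + 2 * ε))) ≤ ENNReal.ofReal (B * ((n:ℝ) + 1) ^ (-(1 + ε))) := by
    intro n
    have hn1 : (0:ℝ) < (n:ℝ) + 1 := by positivity
    rw [lintegral_mul_const _ (hmeas n)]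
    have h1 := lint_scale hp (ha.pos' n) hv
    refine (mul_le_mul_left h1 _).trans ?_
    rw [← ENNReal.ofReal_mul (by
      have : 0 ≤ ∫ t in (0:ℝ)..(v * a n), Z t ^ p := intervalIntegral.integral_nonneg
        (mul_nonneg hv (ha.pos' n).le) fun t _ => Real.rpow_nonneg (Z_nonneg t) _
      have := inv_nonneg.2 (ha.pos' n).le
      positivity)]
    apply ENNReal.ofReal_le_ofReal
    have h2 := hA (v * a n) (mul_nonneg hv (ha.pos' n).le)
    have h3 : 1 + v * a n ≤ (1 + v * C') * ((n:ℝ) + 1) := by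
      have := mul_le_mul_of_nonneg_left (ha.upp' n) hv
      have h4 : (0:ℝ) ≤ n := Nat.cast_nonneg n
      nlinarith
    have h4 : (1 + v * a n) ^ (M + ε) ≤ (1 + v * C') ^ (M + ε) * ((n:ℝ) + 1) ^ (M + ε) := by
      rw [← Real.mul_rpow (by positivity) hn1.le]
      exact Real.rpow_le_rpow (by have := (ha.pos' n).le; positivity) h3 (by linarith)
    have h5 : (a n)⁻¹ ≤ c'⁻¹ * ((n:ℝ) + 1)⁻¹ := by
      rw [← mul_inv]
      exact inv_anti₀ (by positivity) (ha.low' n)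
    have hapos := ha.pos' n
    have hI0 : 0 ≤ ∫ t in (0:ℝ)..(v * a n), Z t ^ p := intervalIntegral.integral_nonneg
      (mul_nonneg hv (ha.pos' n).le) fun t _ => Real.rpow_nonneg (Z_nonneg t) _
    calc (a n)⁻¹ * (∫ t in (0:ℝ)..(v * a n), Z t ^ p) * ((n:ℝ) + 1) ^ (-(M + 2 * ε))
        ≤ (c'⁻¹ * ((n:ℝ) + 1)⁻¹) * (A * ((1 + v * C') ^ (M + ε) * ((n:ℝ) + 1) ^ (M + ε))) *
          ((n:ℝ) + 1) ^ (-(M + 2 * ε)) := by
          refine mul_le_mul_of_nonneg_right ?_ (by positivity)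
          exact mul_le_mul h5 (h2.trans (mul_le_mul_of_nonneg_left h4 hA0)) hI0 (by positivity)
      _ = B * (((n:ℝ) + 1)⁻¹ * ((n:ℝ) + 1) ^ (M + ε) * ((n:ℝ) + 1) ^ (-(M + 2 * ε))) := by
          rw [hB]; ring
      _ = B * ((n:ℝ) + 1) ^ (-(1 + ε)) := by
          rw [← Real.rpow_neg_one, ← Real.rpow_add hn1, ← Real.rpow_add hn1]
          congr 2; ring
  refine lt_of_le_of_lt (ENNReal.tsum_le_tsum key) ?_
  have hsum : Summable fun n : ℕ => B * ((n:ℝ) + 1) ^ (-(1 + ε)) := by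
    apply Summable.mul_left
    have h1 : Summable fun n : ℕ => (n:ℝ) ^ (-(1 + ε)) := Real.summable_nat_rpow.2 (by linarith)
    have h2 := (summable_nat_add_iff 1).2 h1
    simpa using h2
  exact hsum.tsum_ofReal_lt_top

lemma along_of_mom {a : ℕ → ℝ} {c C : ℝ} (ha : Del a c C) {p M : ℝ} (hp : 0 < p) (hM : 0 ≤ M)
    (h : MomExp p M) : ∀ᵐ α : ℝ, 0 < α → MomAlong (fun n => α * a n) p M := by
  have hmeas : ∀ n : ℕ, Measurable fun α : ℝ => ENNReal.ofReal (Z (α * a n) ^ p) := by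
    intro n
    have hc' : Continuous fun α : ℝ => Z (α * a n) ^ p :=
      (Zp_cont hp).comp (by fun_prop : Continuous fun α : ℝ => α * a n)
    exact hc'.measurable.ennreal_ofReal
  have h1 : ∀ᵐ α : ℝ, ∀ k v : ℕ, α ∈ Icc (0:ℝ) v →
      ∑' n : ℕ, ENNReal.ofReal (Z (α * a n) ^ p) *
        ENNReal.ofReal (((n:ℝ) + 1) ^ (-(M + 2 * (1 / ((k:ℝ) + 1))))) < ⊤ := by
    rw [ae_all_iff]; intro k
    rw [ae_all_iff]; intro v
    have h2 := finite_series ha hp hM h (ε := 1 / ((k:ℝ) + 1)) (by positivity) (Nat.cast_nonneg v)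
    have h3 := ae_lt_top (Measurable.tsum fun n => (hmeas n).mul_const _) h2.ne
    exact (ae_restrict_iff' measurableSet_Icc).1 h3
  filter_upwards [h1] with α hα hα0
  intro ε hε
  obtain ⟨k, hk⟩ := exists_nat_one_div_lt (show 0 < ε / 2 by linarith)
  obtain ⟨v, hv⟩ := exists_nat_ge α
  have h2 := hα k v ⟨hα0.le, hv⟩
  set s : ℝ := M + 2 * (1 / ((k:ℝ) + 1)) with hs
  have hk0 : (0:ℝ) < 1 / ((k:ℝ) + 1) := by positivity
  have hs0 : 0 ≤ s := by linarith
  set S := ∑' n : ℕ, ENNReal.ofReal (Z (α * a n) ^ p) * ENNReal.ofReal (((n:ℝ) + 1) ^ (-s)) with hS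
  refine ⟨S.toReal, fun N hN => ?_⟩
  have hN1 : (1:ℝ) ≤ N := by exact_mod_cast hN
  have hN0 : (0:ℝ) < N := by linarith
  have h3 : ∑ n ∈ Finset.range N, Z (α * a n) ^ p * ((n:ℝ) + 1) ^ (-s) ≤ S.toReal := by
    rw [← ENNReal.ofReal_le_iff_le_toReal h2.ne, ENNReal.ofReal_sum_of_nonneg]
    · calc ∑ n ∈ Finset.range N, ENNReal.ofReal (Z (α * a n) ^ p * ((n:ℝ) + 1) ^ (-s))
          = ∑ n ∈ Finset.range N, ENNReal.ofReal (Z (α * a n) ^ p) * ENNReal.ofReal (((n:ℝ) + 1) ^ (-s)) := by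
            refine Finset.sum_congr rfl fun n _ => ?_
            rw [ENNReal.ofReal_mul (Real.rpow_nonneg (Z_nonneg _) _)]
        _ ≤ S := ENNReal.sum_le_tsum _
    · intro n _
      exact mul_nonneg (Real.rpow_nonneg (Z_nonneg _) _) (by positivity)
  calc ∑ n ∈ Finset.range N, Z (α * a n) ^ p
      ≤ ∑ n ∈ Finset.range N, (N:ℝ) ^ s * (Z (α * a n) ^ p * ((n:ℝ) + 1) ^ (-s)) := by
        refine Finset.sum_le_sum fun n hn => ?_
        have hn1 : (n:ℝ) + 1 ≤ N := by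
          have := Finset.mem_range.1 hn
          exact_mod_cast this
        have hn0 : (0:ℝ) < (n:ℝ) + 1 := by positivity
        have h4 : 1 ≤ (N:ℝ) ^ s * ((n:ℝ) + 1) ^ (-s) := by
          rw [Real.rpow_neg hn0.le, ← div_eq_mul_inv, one_le_div (Real.rpow_pos_of_pos hn0 _)]
          exact Real.rpow_le_rpow hn0.le hn1 hs0
        have h5 : 0 ≤ Z (α * a n) ^ p := Real.rpow_nonneg (Z_nonneg _) _
        calc Z (α * a n) ^ p ≤ Z (α * a n) ^ p * ((N:ℝ) ^ s * ((n:ℝ) + 1) ^ (-s)) :=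
              le_mul_of_one_le_right h5 h4
          _ = _ := by ring
    _ = (N:ℝ) ^ s * ∑ n ∈ Finset.range N, Z (α * a n) ^ p * ((n:ℝ) + 1) ^ (-s) := by
        rw [Finset.mul_sum]
    _ ≤ (N:ℝ) ^ (M + ε) * S.toReal := by
        apply mul_le_mul _ h3 _ (by positivity)
        · exact Real.rpow_le_rpow_of_exponent_le hN1 (by linarith)
        · exact Finset.sum_nonneg fun n _ => mul_nonneg (Real.rpow_nonneg (Z_nonneg _) _) (by positivity)
    _ = S.toReal * (N:ℝ) ^ (M + ε) := by ring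

end Pool.Agent.N798
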