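import Pool.Agent.N798.Ls1
import Pool.Agent.N798.Mom1

/-!
Moments of zeta on the critical line and its values along the sequences `α n^c`.
-/

set_option autoImplicit false

open MeasureTheory Set Filter Topology

namespace Pool.Agent.N798.Ls

open Pool.Agent.N798 Pool.Agent.N798.Sp Pool.Agent.R303.LM

/-- Chebyshev -/
lemma lv_of_mom {p M κ : ℝ} (hp : 0 < p) (hM : 0 ≤ M) (hr : 0 ≤ M - p * κ) (h : MomExp p M) :
    LV κ (M - p * κ) := by
  intro ε hε
  obtain ⟨A, hA0, hA⟩ := mom_zero hp hM h hε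
  refine ⟨A * 2 ^ (M + ε), fun T hT => ?_⟩
  have hT0 : 0 < T := by linarith
  have h1 := hA T hT0.le
  set S : Set ℝ := {t : ℝ | 0 ≤ t ∧ t ≤ T ∧ T ^ (κ + ε) ≤ Z t} with hS
  have hSm : MeasurableSet S :=
    (measurableSet_le measurable_const measurable_id).inter ((measurableSet_le measurable_id measurable_const).inter
      (measurableSet_le measurable_const Z_cont.measurable))
  have hSs : S ⊆ Icc 0 T := fun t ht => ⟨ht.1, ht.2.1⟩
  have hint : IntegrableOn (fun t => Z t ^ p) (Icc 0 T) := (Zp_cont hp).integrableOn_Icc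
  have h2 : (T ^ (κ + ε)) ^ p * volume.real S ≤ ∫ t in S, Z t ^ p := by
    have h3 : ∫ _ in S, (T ^ (κ + ε)) ^ p ≤ ∫ t in S, Z t ^ p := by
      apply setIntegral_mono_on _ (hint.mono_set hSs) hSm
      · intro t ht
        exact Real.rpow_le_rpow (by positivity) ht.2.2 hp.le
      · exact integrableOn_const
          (ne_top_of_le_ne_top (by rw [Real.volume_Icc]; exact ENNReal.ofReal_ne_top) (measure_mono hSs))
    rw [setIntegral_const, smul_eq_mul] at h3
    linarith
  have h3 : ∫ t in S, Z t ^ p ≤ ∫ t in (0:ℝ)..T, Z t ^ p := by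
    rw [intervalIntegral.integral_of_le hT0.le, ← integral_Icc_eq_integral_Ioc]
    apply setIntegral_mono_set hint
    · exact Eventually.of_forall fun t => Real.rpow_nonneg (Z_nonneg t) _
    · exact LE.le.eventuallyLE hSs
  have h4 : (1 + T) ^ (M + ε) ≤ 2 ^ (M + ε) * T ^ (M + ε) := by
    rw [← Real.mul_rpow (by norm_num) hT0.le]
    exact Real.rpow_le_rpow (by linarith) (by linarith) (by linarith)
  have h5 : (T ^ (κ + ε)) ^ p * volume.real S ≤ A * (2 ^ (M + ε) * T ^ (M + ε)) :=
    (h2.trans (h3.trans h1)).trans (mul_le_mul_of_nonneg_left h4 hA0)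
  have e1 : (T ^ (κ + ε)) ^ p = T ^ (p * κ + p * ε) := by
    rw [← Real.rpow_mul hT0.le]; congr 1; ring
  rw [e1] at h5
  have hpos : 0 < T ^ (p * κ + p * ε) := by positivity
  have h6 : volume.real S ≤ A * (2 ^ (M + ε) * T ^ (M + ε)) / T ^ (p * κ + p * ε) := by
    rw [le_div_iff₀ hpos]; linarith
  refine h6.trans ?_
  have e2 : A * (2 ^ (M + ε) * T ^ (M + ε)) / T ^ (p * κ + p * ε) =
      A * 2 ^ (M + ε) * T ^ (M - p * κ + ε - p * ε) := by
    have : T ^ (M - p * κ + ε - p * ε) = T ^ (M + ε) / T ^ (p * κ + p * ε) := by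
      rw [← Real.rpow_sub hT0]; congr 1; ring
    rw [this]; ring
  rw [e2]
  apply mul_le_mul_of_nonneg_left _ (by positivity)
  apply Real.rpow_le_rpow_of_exponent_le hT
  nlinarith

/-- the pointwise bound from the moment -/
lemma exponent_of_mom {p M : ℝ} (hp : 0 < p) (hM : 0 ≤ M) (h : MomExp p M) : Exponent (M / p) := by
  apply exponent_of_large (by positivity)
  intro ε hε
  by_contra hcon
  push Not at hcon
  set e : ℝ := min (ε / 2) 1 with he
  have he0 : 0 < e := lt_min (by linarith) one_pos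
  have he1 : e ≤ 1 := min_le_right _ _
  have he2 : e ≤ ε / 2 := min_le_left _ _
  obtain ⟨W, r, T₁, hW, hr0, hr1, hT₁, hwin⟩ := window he0 he1
  obtain ⟨A, hA0, hA⟩ := mom_zero hp hM h (ε := p * ε / 4) (by positivity)
  have hlim : Tendsto (fun T : ℝ => T ^ (p * ε / 4)) atTop atTop := tendsto_rpow_atTop (by positivity)
  obtain ⟨T₂, hT₂⟩ := eventually_atTop.1 (hlim.eventually_gt_atTop (A * 2 ^ (M + p * ε / 4) / r))
  obtain ⟨T, hT, hTZ⟩ := hcon (T₁ + |T₂| + W + 3)
  have hT₂' := le_abs_self T₂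
  have hT₂'' := abs_nonneg T₂
  have hT1 : 1 ≤ T := by linarith
  have hT0 : 0 < T := by linarith
  have hZ1 : 1 ≤ Z T := (Real.one_le_rpow hT1 (by positivity)).trans hTZ.le
  obtain ⟨T₀, hTT₀, G, hGm, hGs, hGv, hGZ⟩ := hwin T (by linarith) hZ1
  rw [abs_le] at hTT₀
  have hGs2 : G ⊆ Icc 0 (2 * T - 1) := fun t ht => by
    have := hGs ht
    exact ⟨by linarith [this.1], by linarith [this.2]⟩
  have hGfin : volume G ≠ ⊤ :=
    ne_top_of_le_ne_top (by rw [Real.volume_Icc]; exact ENNReal.ofReal_ne_top) (measure_mono hGs)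
  have hGr : r ≤ volume.real G := by
    rw [measureReal_def]
    have := ENNReal.toReal_mono hGfin hGv
    rwa [ENNReal.toReal_ofReal hr0.le] at this
  have hint : IntegrableOn (fun t => Z t ^ p) (Icc 0 (2 * T - 1)) := (Zp_cont hp).integrableOn_Icc
  set v : ℝ := T ^ (M / p + ε / 2) with hv
  have hv0 : 0 < v := by positivity
  have hvZ : ∀ t ∈ G, v ≤ Z t := by
    intro t ht
    refine le_trans ?_ (hGZ t ht)
    calc v ≤ T ^ (-e) * T ^ (M / p + ε) := by
          rw [hv, ← Real.rpow_add hT0]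
          exact Real.rpow_le_rpow_of_exponent_le hT1 (by linarith)
      _ ≤ T ^ (-e) * Z T := mul_le_mul_of_nonneg_left hTZ.le (by positivity)
  have h2 : v ^ p * volume.real G ≤ ∫ t in G, Z t ^ p := by
    have h3 : ∫ _ in G, v ^ p ≤ ∫ t in G, Z t ^ p := by
      apply setIntegral_mono_on _ (hint.mono_set hGs2) hGm
      · intro t ht
        exact Real.rpow_le_rpow hv0.le (hvZ t ht) hp.le
      · exact integrableOn_const hGfin
    rw [setIntegral_const, smul_eq_mul] at h3
    linarith
  have h3 : ∫ t in G, Z t ^ p ≤ ∫ t in (0:ℝ)..(2 * T - 1), Z t ^ p := by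
    rw [intervalIntegral.integral_of_le (by linarith), ← integral_Icc_eq_integral_Ioc]
    apply setIntegral_mono_set hint
    · exact Eventually.of_forall fun t => Real.rpow_nonneg (Z_nonneg t) _
    · exact LE.le.eventuallyLE hGs2
  have h4 := hA (2 * T - 1) (by linarith)
  rw [show 1 + (2 * T - 1) = 2 * T by ring] at h4
  have e1 : v ^ p = T ^ (M + p * ε / 4) * T ^ (p * ε / 4) := by
    rw [hv, ← Real.rpow_mul hT0.le, ← Real.rpow_add hT0]
    congr 1
    field_simp
    ring
  have h5 : v ^ p * r ≤ A * (2 * T) ^ (M + p * ε / 4) :=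
    (mul_le_mul_of_nonneg_left hGr (by positivity)).trans (h2.trans (h3.trans h4))
  rw [e1, Real.mul_rpow (by norm_num) hT0.le] at h5
  have h6 := hT₂ T (by linarith)
  rw [div_lt_iff₀ hr0] at h6
  have h7 : 0 < T ^ (M + p * ε / 4) := by positivity
  nlinarith

/-- the moment from the large values -/
lemma mom_of_lv {p M : ℝ} (hp : 0 < p) (hM : 1 ≤ M) (hE : Exponent (M / p))
    (h : ∀ κ : ℝ, (M - 1) / p < κ → κ ≤ M / p → LV κ (M - p * κ)) : MomExp p M := by
  intro ε hε
  -- the parameters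
  obtain ⟨J, hJ⟩ := exists_nat_gt (4 / ε)
  have hJ0 : (0:ℝ) < J := lt_trans (by positivity) hJ
  have hJ1 : 1 ≤ J := by
    have : 0 < J := by exact_mod_cast hJ0
    omega
  set δ : ℝ := min (ε / (4 * p)) (ε / 4) with hδ
  have hδ0 : 0 < δ := lt_min (by positivity) (by positivity)
  have hδ1 : p * δ ≤ ε / 4 := by
    have h1 : δ ≤ ε / (4 * p) := min_le_left _ _
    calc p * δ ≤ p * (ε / (4 * p)) := mul_le_mul_of_nonneg_left h1 hp.le
      _ = ε / 4 := by field_simp
  have hδ2 : δ ≤ ε / 4 := min_le_right _ _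
  set k : ℕ → ℝ := fun j => (M - 1) / p + j / (p * J) with hk
  have hkp : ∀ j : ℕ, p * k j = M - 1 + j / J := by
    intro j; simp only [hk]; field_simp
  have hkp' : ∀ j : ℕ, p * k (j + 1) = p * k j + 1 / J := by
    intro j; rw [hkp, hkp]; push_cast; ring
  have hk0 : ∀ j, 0 ≤ k j := by
    intro j; simp only [hk]
    have : 0 ≤ (M - 1) / p := div_nonneg (by linarith) hp.le
    positivity
  have hkJ : k J = M / p := by
    simp only [hk]; field_simp; ring
  have hlv : ∀ j : ℕ, ∃ C : ℝ, j ≤ J → ∀ T : ℝ, 1 ≤ T →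
      volume.real {t : ℝ | 0 ≤ t ∧ t ≤ T ∧ T ^ (k j + δ) ≤ Z t} ≤ C * T ^ (M - p * k j + δ) := by
    intro j
    by_cases hj : j ≤ J
    swap
    · exact ⟨0, fun h => absurd h hj⟩
    have hjr : (j:ℝ) ≤ J := by exact_mod_cast hj
    rcases Nat.eq_zero_or_pos j with h0 | h0
    · refine ⟨1, fun _ T hT => ?_⟩
      have h1 : volume.real {t : ℝ | 0 ≤ t ∧ t ≤ T ∧ T ^ (k j + δ) ≤ Z t} ≤ volume.real (Icc 0 T) := by
        apply measureReal_mono
        · exact fun t ht => ⟨ht.1, ht.2.1⟩
        · rw [Real.volume_Icc]; exact ENNReal.ofReal_ne_top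
      rw [Real.volume_real_Icc_of_le (by linarith)] at h1
      have h2 : M - p * k j + δ = 1 + δ := by rw [hkp, h0]; push_cast; ring
      rw [h2]
      have h3 : T ^ (1:ℝ) ≤ T ^ (1 + δ) := Real.rpow_le_rpow_of_exponent_le hT (by linarith)
      rw [Real.rpow_one] at h3
      linarith
    · have h1 : (M - 1) / p < k j := by
        simp only [hk]
        have : (0:ℝ) < j := by exact_mod_cast h0
        have : 0 < (j:ℝ) / (p * J) := by positivity
        linarith
      have h2 : k j ≤ M / p := by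
        rw [← hkJ]; simp only [hk]
        gcongr
      obtain ⟨C, hC⟩ := h (k j) h1 h2 δ hδ0
      exact ⟨C, fun _ => hC⟩
  choose C hC using hlv
  obtain ⟨D, hD⟩ := hE δ hδ0
  set D' : ℝ := max 1 (D * 2 ^ (M / p + δ)) with hD'
  have hD1 : 1 ≤ D' := le_max_left _ _
  refine ⟨D' ^ p * (1 + ∑ j ∈ Finset.range (J + 1), |C j|), fun T hT => ?_⟩
  have hT0 : 0 < T := by linarith
  set S : ℕ → Set ℝ := fun j => {t : ℝ | 0 ≤ t ∧ t ≤ T ∧ T ^ (k j + δ) ≤ Z t} with hS
  have hSm : ∀ j, MeasurableSet (S j) := fun j =>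
    (measurableSet_le measurable_const measurable_id).inter ((measurableSet_le measurable_id measurable_const).inter
      (measurableSet_le measurable_const Z_cont.measurable))
  set lam : ℕ → ℝ := fun j => T ^ (k j + δ) with hlam
  have hlam0 : ∀ j, 0 < lam j := fun j => by simp only [hlam]; positivity
  -- the pointwise bound
  have hpt : ∀ t ∈ Icc 1 T, Z t ^ p ≤ D' ^ p * (lam 0 ^ p +
      ∑ j ∈ Finset.range (J + 1), lam (j + 1) ^ p * (S j).indicator (fun _ => (1:ℝ)) t) := by
    intro t ht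
    have ht0 : 0 ≤ t := by linarith [ht.1]
    have hDp : 1 ≤ D' ^ p := Real.one_le_rpow hD1 hp.le
    have hnn : ∀ j ∈ Finset.range (J + 1), 0 ≤ lam (j + 1) ^ p * (S j).indicator (fun _ => (1:ℝ)) t := by
      intro j _
      apply mul_nonneg (Real.rpow_nonneg (hlam0 _).le _)
      exact indicator_nonneg (fun _ _ => zero_le_one) _
    have hsum0 := Finset.sum_nonneg hnn
    by_cases h0 : Z t < lam 0
    · have h1 : Z t ^ p ≤ lam 0 ^ p := Real.rpow_le_rpow (Z_nonneg t) h0.le hp.le
      have h2 : 0 ≤ lam 0 ^ p := Real.rpow_nonneg (hlam0 0).le _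
      nlinarith
    · push Not at h0
      -- the largest `j` with `lam j ≤ Z t`
      obtain ⟨j, hjJ, hj1, hj2⟩ : ∃ j : ℕ, j ≤ J ∧ lam j ≤ Z t ∧ (j < J → Z t < lam (j + 1)) := by
        by_contra hcon
        push Not at hcon
        have h1 : ∀ j : ℕ, j ≤ J → lam j ≤ Z t := by
          intro j
          induction j with
          | zero => intro _; exact h0
          | succ j ih =>
            intro hj
            exact (hcon j (by omega) (ih (by omega))).2
        have h2 := (hcon J le_rfl (h1 J le_rfl)).1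
        omega
      have hmem : t ∈ S j := ⟨ht0, ht.2, hj1⟩
      have h1 : Z t ≤ D' * lam (j + 1) := by
        rcases hjJ.lt_or_eq with h3 | h3
        · have h4 := hj2 h3
          nlinarith [hlam0 (j + 1)]
        · have h4 := hD t
          rw [abs_of_nonneg ht0] at h4
          have h5 : Z t ≤ D' * T ^ (M / p + δ) := by
            have hM0 : 0 ≤ M / p + δ := by positivity
            have h6 : (1 + t) ^ (M / p + δ) ≤ 2 ^ (M / p + δ) * T ^ (M / p + δ) := by
              rw [← Real.mul_rpow (by norm_num) hT0.le]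
              exact Real.rpow_le_rpow (by linarith) (by linarith [ht.2]) hM0
            rcases le_total 0 D with hD0 | hD0
            · calc Z t ≤ D * (1 + t) ^ (M / p + δ) := h4
                _ ≤ D * (2 ^ (M / p + δ) * T ^ (M / p + δ)) := mul_le_mul_of_nonneg_left h6 hD0
                _ = D * 2 ^ (M / p + δ) * T ^ (M / p + δ) := by ring
                _ ≤ D' * T ^ (M / p + δ) := mul_le_mul_of_nonneg_right (le_max_right _ _) (by positivity)
            · have h7 : D * (1 + t) ^ (M / p + δ) ≤ 0 :=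
                mul_nonpos_of_nonpos_of_nonneg hD0 (by positivity)
              have h8 : 0 ≤ D' * T ^ (M / p + δ) := by positivity
              linarith
          refine h5.trans (mul_le_mul_of_nonneg_left ?_ (by linarith))
          simp only [hlam]
          apply Real.rpow_le_rpow_of_exponent_le hT
          have h9 : k J ≤ k (j + 1) := by
            rw [h3]; simp only [hk]; gcongr; push_cast; linarith
          rw [hkJ] at h9
          linarith
      have h2 : Z t ^ p ≤ D' ^ p * lam (j + 1) ^ p := by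
        rw [← Real.mul_rpow (by linarith) (hlam0 _).le]
        exact Real.rpow_le_rpow (Z_nonneg t) h1 hp.le
      refine h2.trans (mul_le_mul_of_nonneg_left ?_ (by linarith))
      have h3 := Finset.single_le_sum hnn (Finset.mem_range.2 (by omega : j < J + 1))
      rw [indicator_of_mem hmem, mul_one] at h3
      have h4 : 0 ≤ lam 0 ^ p := Real.rpow_nonneg (hlam0 0).le _
      linarith
  -- integration
  have hfin : volume (Icc 1 T : Set ℝ) ≠ ⊤ := by rw [Real.volume_Icc]; exact ENNReal.ofReal_ne_top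
  have hIf : IsFiniteMeasure (volume.restrict (Icc 1 T : Set ℝ)) :=
    ⟨by rw [Measure.restrict_apply_univ]; exact lt_top_iff_ne_top.2 hfin⟩
  have hi1 : ∀ j, Integrable (fun t => lam (j + 1) ^ p * (S j).indicator (fun _ => (1:ℝ)) t)
      (volume.restrict (Icc 1 T)) := fun j => ((integrable_const (1:ℝ)).indicator (hSm j)).const_mul _
  have h1 : ∫ t in (1:ℝ)..T, Z t ^ p ≤ ∫ t in Icc 1 T, D' ^ p * (lam 0 ^ p +
      ∑ j ∈ Finset.range (J + 1), lam (j + 1) ^ p * (S j).indicator (fun _ => (1:ℝ)) t) := by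
    rw [intervalIntegral.integral_of_le hT, ← integral_Icc_eq_integral_Ioc]
    apply setIntegral_mono_on (Zp_cont hp).integrableOn_Icc _ measurableSet_Icc hpt
    exact ((integrable_const _).add (integrable_finsetSum _ fun j _ => hi1 j)).const_mul _
  have h2 : ∫ t in Icc 1 T, D' ^ p * (lam 0 ^ p +
      ∑ j ∈ Finset.range (J + 1), lam (j + 1) ^ p * (S j).indicator (fun _ => (1:ℝ)) t) =
      D' ^ p * (lam 0 ^ p * (T - 1) + ∑ j ∈ Finset.range (J + 1), lam (j + 1) ^ p * volume.real (S j ∩ Icc 1 T)) := by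
    rw [integral_const_mul, integral_add (integrable_const _) (integrable_finsetSum _ fun j _ => hi1 j),
      integral_finsetSum _ fun j _ => hi1 j, setIntegral_const, Real.volume_real_Icc_of_le hT, smul_eq_mul]
    congr 1
    congr 1
    · ring
    · refine Finset.sum_congr rfl fun j _ => ?_
      rw [integral_const_mul, integral_indicator_const _ (hSm j), smul_eq_mul, mul_one, measureReal_def,
        Measure.restrict_apply (hSm j), measureReal_def]
  rw [h2] at h1
  refine h1.trans ?_
  have hDp0 : 0 ≤ D' ^ p := by positivity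
  rw [mul_assoc]
  apply mul_le_mul_of_nonneg_left _ hDp0
  have hε0 : 0 < M + ε := by linarith
  have hlamp : ∀ j, lam j ^ p = T ^ (p * k j + p * δ) := by
    intro j; simp only [hlam]
    rw [← Real.rpow_mul hT0.le]; congr 1; ring
  have h3 : lam 0 ^ p * (T - 1) ≤ T ^ (M + ε) := by
    rw [hlamp, hkp]
    push_cast
    calc T ^ (M - 1 + 0 / (J:ℝ) + p * δ) * (T - 1) ≤ T ^ (M - 1 + 0 / (J:ℝ) + p * δ) * T ^ (1:ℝ) := by
          rw [Real.rpow_one]
          exact mul_le_mul_of_nonneg_left (by linarith) (by positivity)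
      _ = T ^ (M - 1 + 0 / (J:ℝ) + p * δ + 1) := by rw [← Real.rpow_add hT0]
      _ ≤ T ^ (M + ε) := by
          apply Real.rpow_le_rpow_of_exponent_le hT
          rw [zero_div]
          linarith
  have h4 : ∀ j ∈ Finset.range (J + 1), lam (j + 1) ^ p * volume.real (S j ∩ Icc 1 T) ≤ |C j| * T ^ (M + ε) := by
    intro j hj
    rw [Finset.mem_range] at hj
    have h5 : volume.real (S j ∩ Icc 1 T) ≤ |C j| * T ^ (M - p * k j + δ) := by
      have h6 : volume.real (S j ∩ Icc 1 T) ≤ volume.real (S j) := by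
        exact measureReal_mono inter_subset_left (ne_top_of_le_ne_top (b := volume (Icc 0 T))
          (by rw [Real.volume_Icc]; exact ENNReal.ofReal_ne_top) (measure_mono fun t ht => ⟨ht.1, ht.2.1⟩))
      refine h6.trans ((hC j (by omega) T hT).trans ?_)
      exact mul_le_mul_of_nonneg_right (le_abs_self _) (by positivity)
    rw [hlamp, hkp']
    have h7 : T ^ (p * k j + 1 / (J:ℝ) + p * δ) * volume.real (S j ∩ Icc 1 T) ≤
        T ^ (p * k j + 1 / (J:ℝ) + p * δ) * (|C j| * T ^ (M - p * k j + δ)) :=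
      mul_le_mul_of_nonneg_left h5 (by positivity)
    refine h7.trans ?_
    have e1 : T ^ (p * k j + 1 / (J:ℝ) + p * δ) * (|C j| * T ^ (M - p * k j + δ)) =
        |C j| * T ^ (M + 1 / (J:ℝ) + p * δ + δ) := by
      have : T ^ (M + 1 / (J:ℝ) + p * δ + δ) = T ^ (p * k j + 1 / (J:ℝ) + p * δ) * T ^ (M - p * k j + δ) := by
        rw [← Real.rpow_add hT0]; congr 1; ring
      rw [this]; ring
    rw [e1]
    apply mul_le_mul_of_nonneg_left _ (abs_nonneg _)
    apply Real.rpow_le_rpow_of_exponent_le hT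
    have h8 : 1 / (J:ℝ) ≤ ε / 4 := by
      rw [div_le_div_iff₀ hJ0 (by norm_num)]
      rw [div_lt_iff₀ hε] at hJ
      linarith
    linarith
  calc lam 0 ^ p * (T - 1) + ∑ j ∈ Finset.range (J + 1), lam (j + 1) ^ p * volume.real (S j ∩ Icc 1 T)
      ≤ T ^ (M + ε) + ∑ j ∈ Finset.range (J + 1), |C j| * T ^ (M + ε) := add_le_add h3 (Finset.sum_le_sum h4)
    _ = (1 + ∑ j ∈ Finset.range (J + 1), |C j|) * T ^ (M + ε) := by rw [← Finset.sum_mul]; ring

end Pool.Agent.N798.Ls
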