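import Pool.Agent.N798.Ls2

/-!
Moments of zeta on the critical line and its values along the sequences `α n^c`: the equivalence.
-/

set_option autoImplicit false

open MeasureTheory Set Filter Topology

namespace Pool.Agent.N798.Ls

open Pool.Agent.N798 Pool.Agent.N798.Sp Pool.Agent.R303.LM

/-- the pointwise bound along `α n^c` that corresponds to the moment of order `p` with exponent `M` -/
def MomPt (p M α c : ℝ) : Prop := ∀ ε : ℝ, 0 < ε → ∃ C : ℝ, ∀ n : ℕ,
  Z (α * (n:ℝ) ^ c) ≤ C * (1 + (n:ℝ)) ^ ((1 + c * (M - 1)) / p + ε)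

lemma exists_pos_of_ae {P : ℝ → Prop} (h : ∀ᵐ α : ℝ, P α) : ∃ α : ℝ, 0 < α ∧ P α := by
  by_contra hcon
  push Not at hcon
  have h1 : volume (Ioi (0:ℝ)) = 0 := measure_mono_null (fun α hα => hcon α hα) (ae_iff.1 h)
  rw [Real.volume_Ioi] at h1
  exact ENNReal.top_ne_zero h1

lemma momPt_iff {p M α c : ℝ} (hα : 0 < α) (hc : 1 ≤ c) (hp : 0 < p) (hM : 1 ≤ M) :
    MomPt p M α c ↔ ExpAlong (hts α c) ((M - 1 + 1 / c) / p) := by
  have hc0 : 0 < c := by linarith
  set κ : ℝ := (M - 1 + 1 / c) / p with hκ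
  have hκ0 : 0 ≤ κ := by
    rw [hκ]; apply div_nonneg _ hp.le
    have : 0 < 1 / c := by positivity
    linarith
  have hcκ : (1 + c * (M - 1)) / p = c * κ := by rw [hκ]; field_simp; ring
  constructor
  · intro h ε hε
    obtain ⟨C, hC⟩ := h (c * ε) (by positivity)
    set B : ℝ := 2 ^ c * (1 + 1 / α) with hB
    have hB0 : 0 < B := by positivity
    refine ⟨|C| * B ^ (κ + ε), fun n => ?_⟩
    have h1 := hC n
    have hx0 := hts_nonneg (c := c) hα n
    rw [abs_of_nonneg hx0]
    have e1 : Z (hts α c n) = Z (α * (n:ℝ) ^ c) := rfl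
    rw [e1]
    refine h1.trans ?_
    have hn0 : (0:ℝ) ≤ n := Nat.cast_nonneg n
    have h2 : (1 + (n:ℝ)) ^ c ≤ B * (1 + hts α c n) := by
      have h2c : (1:ℝ) ≤ 2 ^ c := Real.one_le_rpow (by norm_num) hc0.le
      rcases Nat.eq_zero_or_pos n with h0 | h0
      · subst h0
        have h3 : hts α c 0 = 0 := by
          unfold hts
          rw [Nat.cast_zero, Real.zero_rpow hc0.ne', mul_zero]
        rw [h3, Nat.cast_zero, add_zero, Real.one_rpow, mul_one, hB]
        have : 0 < 1 / α := by positivity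
        nlinarith
      · have hn1 : (1:ℝ) ≤ n := by exact_mod_cast h0
        calc (1 + (n:ℝ)) ^ c ≤ (2 * n) ^ c := Real.rpow_le_rpow (by linarith) (by linarith) hc0.le
          _ = 2 ^ c * (n:ℝ) ^ c := Real.mul_rpow (by norm_num) hn0
          _ = 2 ^ c * (1 / α) * (hts α c n) := by unfold hts; field_simp
          _ ≤ B * (1 + hts α c n) := by
              apply mul_le_mul _ (by linarith) hx0 hB0.le
              rw [hB]
              apply mul_le_mul_of_nonneg_left (by linarith) (by positivity)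
    have h3 : (1 + (n:ℝ)) ^ ((1 + c * (M - 1)) / p + c * ε) ≤ B ^ (κ + ε) * (1 + hts α c n) ^ (κ + ε) := by
      rw [hcκ, ← Real.mul_rpow hB0.le (by linarith)]
      rw [show c * κ + c * ε = c * (κ + ε) by ring, Real.rpow_mul (by linarith)]
      exact Real.rpow_le_rpow (by positivity) h2 (by linarith)
    calc C * (1 + (n:ℝ)) ^ ((1 + c * (M - 1)) / p + c * ε) ≤ |C| * (1 + (n:ℝ)) ^ ((1 + c * (M - 1)) / p + c * ε) :=
          mul_le_mul_of_nonneg_right (le_abs_self C) (by positivity)
      _ ≤ |C| * (B ^ (κ + ε) * (1 + hts α c n) ^ (κ + ε)) := mul_le_mul_of_nonneg_left h3 (abs_nonneg C)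
      _ = _ := by ring
  · intro h ε hε
    obtain ⟨C, hC⟩ := h (ε / c) (by positivity)
    refine ⟨|C| * (1 + α) ^ (κ + ε / c), fun n => ?_⟩
    have h1 := hC n
    have hx0 := hts_nonneg (c := c) hα n
    rw [abs_of_nonneg hx0] at h1
    have e1 : Z (hts α c n) = Z (α * (n:ℝ) ^ c) := rfl
    rw [e1] at h1
    refine h1.trans ?_
    have hn0 : (0:ℝ) ≤ n := Nat.cast_nonneg n
    have hε' : 0 < ε / c := by positivity
    have h2 : 1 + hts α c n ≤ (1 + α) * (1 + (n:ℝ)) ^ c := by
      have h3 : (n:ℝ) ^ c ≤ (1 + (n:ℝ)) ^ c := Real.rpow_le_rpow hn0 (by linarith) hc0.le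
      have h4 : 1 ≤ (1 + (n:ℝ)) ^ c := Real.one_le_rpow (by linarith) hc0.le
      unfold hts
      nlinarith
    have h3 : (1 + hts α c n) ^ (κ + ε / c) ≤ (1 + α) ^ (κ + ε / c) * (1 + (n:ℝ)) ^ (c * κ + ε) := by
      calc (1 + hts α c n) ^ (κ + ε / c) ≤ ((1 + α) * (1 + (n:ℝ)) ^ c) ^ (κ + ε / c) :=
            Real.rpow_le_rpow (by linarith) h2 (by linarith)
        _ = (1 + α) ^ (κ + ε / c) * (1 + (n:ℝ)) ^ (c * κ + ε) := by
            rw [Real.mul_rpow (by linarith) (by positivity), ← Real.rpow_mul (by linarith)]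
            congr 2
            field_simp
    rw [hcκ]
    calc C * (1 + hts α c n) ^ (κ + ε / c) ≤ |C| * (1 + hts α c n) ^ (κ + ε / c) :=
          mul_le_mul_of_nonneg_right (le_abs_self C) (by positivity)
      _ ≤ |C| * ((1 + α) ^ (κ + ε / c) * (1 + (n:ℝ)) ^ (c * κ + ε)) := mul_le_mul_of_nonneg_left h3 (abs_nonneg C)
      _ = _ := by ring

/-- **Moments and the sequences `α n^c`.** -/
theorem moments_sparse {p M : ℝ} (hp : 0 < p) (hM : 1 ≤ M) :
    MomExp p M ↔ ∀ c : ℝ, 1 ≤ c → ∀ᵐ α : ℝ, 0 < α → MomPt p M α c := by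
  constructor
  · intro h c hc
    have hc0 : 0 < c := by linarith
    rcases hc.eq_or_lt with h1 | h1
    · filter_upwards with α hα
      rw [momPt_iff hα hc hp hM]
      have e : (M - 1 + 1 / c) / p = M / p := by rw [← h1]; congr 1; ring
      rw [e]
      exact along_of_exponent (exponent_of_mom hp (by linarith) h)
    · have hc1 : 0 < 1 - 1 / c := by
        have : 1 / c < 1 := by rw [div_lt_one hc0]; exact h1
        linarith
      have h2 : ∀ k : ℕ, ∀ᵐ α : ℝ, 0 < α →
          ExpAlong (hts α c) ((M - 1 + 1 / c) / p + (1 - 1 / c) / (p * ((k:ℝ) + 1))) := by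
        intro k
        set η : ℝ := (1 - 1 / c) / (p * ((k:ℝ) + 1)) with hη
        have hη0 : 0 < η := by positivity
        have hpη : p * η = (1 - 1 / c) / ((k:ℝ) + 1) := by rw [hη]; field_simp
        have hpη1 : p * η ≤ 1 - 1 / c := by
          rw [hpη]
          apply div_le_self hc1.le
          linarith [Nat.cast_nonneg (α := ℝ) k]
        have hpη0 : 0 < p * η := by positivity
        set κ : ℝ := (M - 1 + 1 / c) / p + η with hκ
        have hκ0 : 0 ≤ κ := by
          have : 0 ≤ (M - 1 + 1 / c) / p := by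
            apply div_nonneg _ hp.le
            have : 0 < 1 / c := by positivity
            linarith
          linarith
        have hr : M - p * κ = 1 - 1 / c - p * η := by
          rw [hκ]; field_simp; ring
        have h3 := lv_of_mom hp (by linarith) (κ := κ) (by rw [hr]; linarith) h
        rw [hr] at h3
        have h4 : 0 < 1 / c := by positivity
        have h5 := (large hκ0 (r := 1 - 1 / c - p * η) (by linarith) (by linarith)).out 0 1
        refine h5.1 h3 c ?_
        rw [div_lt_iff₀ (by linarith)]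
        have : c * (1 - (1 - 1 / c - p * η)) = 1 + c * (p * η) := by field_simp; ring
        rw [this]
        have : 0 < c * (p * η) := by positivity
        linarith
      filter_upwards [ae_all_iff.2 h2] with α hα h0
      rw [momPt_iff h0 hc hp hM]
      intro ε hε
      obtain ⟨k, hk⟩ := exists_nat_gt ((1 - 1 / c) / (p * (ε / 2)))
      have hkε : (1 - 1 / c) / (p * ((k:ℝ) + 1)) ≤ ε / 2 := by
        rw [div_lt_iff₀ (by positivity)] at hk
        rw [div_le_iff₀ (by positivity)]
        have : 0 < p * (ε / 2) := by positivity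
        nlinarith
      obtain ⟨C, hC⟩ := hα k h0 (ε - (1 - 1 / c) / (p * ((k:ℝ) + 1))) (by linarith)
      refine ⟨C, fun n => (hC n).trans (le_of_eq ?_)⟩
      congr 2; ring
  · intro h
    apply mom_of_lv hp hM
    · -- `c = 1`
      have h1 := h 1 le_rfl
      have h2 := pointwise (a := fun _ => 0) (b := fun n => (n:ℝ)) tendsto_natCast_atTop_atTop
      obtain ⟨α, hα, h3, h4⟩ := exists_pos_of_ae (h1.and h2)
      have h5 := (momPt_iff hα le_rfl hp hM).1 (h3 hα)
      have e : (M - 1 + 1 / 1) / p = M / p := by congr 1; ring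
      rw [e] at h5
      have e2 : hts α 1 = fun n : ℕ => (0:ℝ) + α * n := by
        funext n; unfold hts; rw [Real.rpow_one, zero_add]
      rw [e2] at h5
      refine (h4 ?_ ⟨|α|, fun n => ?_⟩ (M / p) (by positivity)).2 h5
      · simp only [zero_add]
        exact tendsto_natCast_atTop_atTop.const_mul_atTop hα
      · push_cast
        rw [show (0 + α * ((n:ℝ) + 1)) - (0 + α * n) = α by ring]
    · intro κ hκ1 hκ2
      have hκ0 : 0 ≤ κ := le_trans (div_nonneg (by linarith) hp.le) hκ1.le
      rw [div_lt_iff₀ hp] at hκ1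
      rw [le_div_iff₀ hp] at hκ2
      have h5 := (large hκ0 (r := M - p * κ) (by linarith) (by linarith)).out 0 1
      refine h5.2 fun c hc => ?_
      have hc1 : 1 < c := one_lt_of (by linarith) (by linarith) hc
      have hc0 : 0 < c := by linarith
      filter_upwards [h c hc1.le] with α hα h0
      have h6 := (momPt_iff h0 hc1.le hp hM).1 (hα h0)
      refine along_mono ?_ h6
      rw [div_le_iff₀ hp]
      rw [div_lt_iff₀ (by linarith)] at hc
      have h7 : 1 / c < 1 - (M - p * κ) := by rw [div_lt_iff₀ hc0]; linarith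
      linarith

end Pool.Agent.N798.Ls
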