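import Pool.Agent.H221R2.FB_VdcGen

set_option autoImplicit false

/-! Derivatives of the logarithm of a generalised polynomial (adapted from `H619R2/FB_LogChain.lean`). -/

namespace Pool.Agent.N798.M

open Finset

variable {k : ℕ}

/-- the generalised polynomial `t^γ + ∑ b_i t^(c_i)` -/
noncomputable def gp (γ : ℝ) (c b : Fin k → ℝ) (t : ℝ) : ℝ := t ^ γ + ∑ i : Fin k, b i * t ^ (c i)

/-- the region of positivity -/
def U (γ : ℝ) (c : Fin k → ℝ) : Set ((Fin k → ℝ) × ℝ) := {x | 0 < x.2} ∩ {x | 0 < gp γ c x.1 x.2}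

lemma half_open : IsOpen {x : (Fin k → ℝ) × ℝ | 0 < x.2} := isOpen_lt continuous_const continuous_snd

lemma gp_contDiffOn (γ : ℝ) (c : Fin k → ℝ) (n : ℕ) :
    ContDiffOn ℝ n (fun x : (Fin k → ℝ) × ℝ => gp γ c x.1 x.2) {x | 0 < x.2} := by
  intro x hx
  have hx0 : (x.2 : ℝ) ≠ 0 := (show 0 < x.2 from hx).ne'
  refine ContDiffAt.contDiffWithinAt ?_
  unfold gp
  refine (contDiffAt_snd.rpow_const_of_ne hx0).add (ContDiffAt.sum fun i _ => ?_)
  exact ((contDiff_apply ℝ ℝ i).contDiffAt.comp x contDiffAt_fst).mul (contDiffAt_snd.rpow_const_of_ne hx0)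

lemma U_open (γ : ℝ) (c : Fin k → ℝ) : IsOpen (U γ c) :=
  (gp_contDiffOn γ c 0).continuousOn.isOpen_inter_preimage half_open isOpen_Ioi

/-- iterated derivatives in the last variable -/
noncomputable def Gm (γ : ℝ) (c : Fin k → ℝ) : ℕ → (Fin k → ℝ) × ℝ → ℝ
  | 0 => fun x => Real.log (gp γ c x.1 x.2)
  | m + 1 => fun x => fderiv ℝ (Gm γ c m) x (0, 1)

lemma Gm_contDiffOn (γ : ℝ) (c : Fin k → ℝ) (m : ℕ) : ∀ n : ℕ, ContDiffOn ℝ n (Gm γ c m) (U γ c) := by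
  induction m with
  | zero =>
    intro n
    show ContDiffOn ℝ n (fun x : (Fin k → ℝ) × ℝ => Real.log (gp γ c x.1 x.2)) (U γ c)
    refine ContDiffOn.log ((gp_contDiffOn γ c n).mono fun x hx => hx.1) fun x hx => ?_
    exact (show (0 : ℝ) < _ from hx.2).ne'
  | succ m ih =>
    intro n
    have h := ih (n + 1)
    have h2 : ContDiffOn ℝ n (fderiv ℝ (Gm γ c m)) (U γ c) :=
      h.fderiv_of_isOpen (U_open γ c) (by exact_mod_cast le_refl _)
    exact h2.clm_apply contDiffOn_const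

lemma Gm_hasDerivAt (γ : ℝ) (c : Fin k → ℝ) (m : ℕ) (β : Fin k → ℝ) (s : ℝ) (h : (β, s) ∈ U γ c) :
    HasDerivAt (fun s => Gm γ c m (β, s)) (Gm γ c (m + 1) (β, s)) s := by
  have h1 : DifferentiableAt ℝ (Gm γ c m) (β, s) :=
    (((Gm_contDiffOn γ c m 1).contDiffAt ((U_open γ c).mem_nhds h)).differentiableAt (by norm_num))
  have h2 : HasDerivAt (fun s : ℝ => ((β, s) : (Fin k → ℝ) × ℝ)) (0, 1) s :=
    (hasDerivAt_const s β).prodMk (hasDerivAt_id s)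
  exact h1.hasFDerivAt.comp_hasDerivAt s h2

lemma gp_zero (γ : ℝ) (c : Fin k → ℝ) (s : ℝ) : gp γ c (0 : Fin k → ℝ) s = s ^ γ := by
  simp [gp]

lemma mem_U_zero (γ : ℝ) (c : Fin k → ℝ) (s : ℝ) (hs : 0 < s) : ((0 : Fin k → ℝ), s) ∈ U γ c := by
  refine ⟨hs, ?_⟩
  show 0 < gp γ c (0 : Fin k → ℝ) s
  rw [gp_zero]
  positivity

lemma Gm_zero (γ : ℝ) (c : Fin k → ℝ) (m : ℕ) : ∀ s : ℝ, 0 < s → Gm γ c (m + 1) ((0 : Fin k → ℝ), s) =
    (-1) ^ m * (γ * (m.factorial : ℝ)) * (s ^ (m + 1))⁻¹ := by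
  induction m with
  | zero =>
    intro s hs
    have h1 := Gm_hasDerivAt γ c 0 0 s (mem_U_zero γ c s hs)
    have h2 : HasDerivAt (fun s => Gm γ c 0 ((0 : Fin k → ℝ), s)) (γ * s⁻¹) s := by
      have h3 : HasDerivAt (fun s => γ * Real.log s) (γ * s⁻¹) s := (Real.hasDerivAt_log hs.ne').const_mul _
      refine h3.congr_of_eventuallyEq ?_
      filter_upwards [lt_mem_nhds hs] with s' hs'
      show Real.log (gp γ c (0 : Fin k → ℝ) s') = _
      rw [gp_zero, Real.log_rpow hs']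
    rw [h1.unique h2]
    simp
  | succ m ih =>
    intro s hs
    have h1 := Gm_hasDerivAt γ c (m + 1) 0 s (mem_U_zero γ c s hs)
    have h2 : HasDerivAt (fun s : ℝ => (-1) ^ m * (γ * (m.factorial : ℝ)) * (s ^ (m + 1))⁻¹)
        ((-1) ^ m * (γ * (m.factorial : ℝ)) *
          (-(((m + 1 : ℕ) : ℝ) * s ^ m) / (s ^ (m + 1)) ^ 2)) s := by
      have h3 : HasDerivAt (fun s : ℝ => s ^ (m + 1)) (((m + 1 : ℕ) : ℝ) * s ^ m) s := by
        simpa using hasDerivAt_pow (m + 1) s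
      exact (h3.inv (by positivity)).const_mul _
    have h4 : HasDerivAt (fun s => Gm γ c (m + 1) ((0 : Fin k → ℝ), s))
        ((-1) ^ m * (γ * (m.factorial : ℝ)) *
          (-(((m + 1 : ℕ) : ℝ) * s ^ m) / (s ^ (m + 1)) ^ 2)) s := by
      refine h2.congr_of_eventuallyEq ?_
      filter_upwards [lt_mem_nhds hs] with s' hs'
      exact ih s' hs'
    rw [h1.unique h4, Nat.factorial_succ]
    push_cast
    field_simp
    ring

/-- the good set -/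
def V (γ : ℝ) (c : Fin k → ℝ) (M : ℕ) (c0 C0 : ℝ) : Set ((Fin k → ℝ) × ℝ) :=
  ⋂ m ∈ Finset.range M, (U γ c ∩ Gm γ c (m + 1) ⁻¹' {y | c0 < (-1) ^ m * y ∧ (-1) ^ m * y < C0})

lemma V_open (γ : ℝ) (c : Fin k → ℝ) (M : ℕ) (c0 C0 : ℝ) : IsOpen (V γ c M c0 C0) := by
  refine isOpen_biInter_finset fun m _ => ?_
  refine (Gm_contDiffOn γ c (m + 1) 0).continuousOn.isOpen_inter_preimage (U_open γ c) ?_
  exact (isOpen_lt continuous_const (continuous_const.mul continuous_id)).inter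
    (isOpen_lt (continuous_const.mul continuous_id) continuous_const)

/-- Derivatives of the logarithm of a generalised polynomial. -/
theorem log_chain {γ : ℝ} (hγ : 0 < γ) (c : Fin k → ℝ) (M : ℕ) : ∃ κ : ℝ, 0 < κ ∧
    ∀ (J : ℕ) (b : Fin k → ℝ), 1 ≤ J → (∀ i, |b i| ≤ κ * (J : ℝ) ^ (γ - c i)) → ∃ φ : ℕ → ℝ → ℝ,
    (∀ t ∈ Set.Icc (J : ℝ) (3 * J), 0 < gp γ c b t ∧ φ 0 t = Real.log (gp γ c b t)) ∧
    (∀ m ≤ M, ∀ t ∈ Set.Icc (J : ℝ) (3 * J), HasDerivAt (φ m) (φ (m + 1) t) t) ∧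
    (∀ m, 1 ≤ m → m ≤ M → ∀ t ∈ Set.Icc (J : ℝ) (3 * J),
      γ * ((3 : ℝ) ^ M)⁻¹ / 2 ≤ (-1) ^ (m + 1) * φ m t * (J : ℝ) ^ m ∧
      (-1) ^ (m + 1) * φ m t * (J : ℝ) ^ m ≤ γ * (M.factorial : ℝ) + 1) := by
  set c0 : ℝ := γ * ((3 : ℝ) ^ M)⁻¹ / 2 with hc0
  set C0 : ℝ := γ * (M.factorial : ℝ) + 1 with hC0
  have hc0pos : 0 < c0 := by positivity
  -- the compact set
  have hsub : ({0} : Set (Fin k → ℝ)) ×ˢ Set.Icc (1 : ℝ) 3 ⊆ U γ c ∩ V γ c M c0 C0 := by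
    rintro ⟨β, s⟩ ⟨hβ, hs⟩
    have hβ0 : β = 0 := hβ
    subst hβ0
    have hs0 : 0 < s := lt_of_lt_of_le one_pos hs.1
    have hU := mem_U_zero γ c s hs0
    refine ⟨hU, ?_⟩
    unfold V
    rw [Set.mem_iInter₂]
    intro m hm
    rw [Finset.mem_range] at hm
    refine ⟨hU, ?_⟩
    show c0 < (-1) ^ m * Gm γ c (m + 1) ((0 : Fin k → ℝ), s) ∧
      (-1) ^ m * Gm γ c (m + 1) ((0 : Fin k → ℝ), s) < C0
    have hval : (-1 : ℝ) ^ m * Gm γ c (m + 1) ((0 : Fin k → ℝ), s) =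
        (γ * (m.factorial : ℝ)) * (s ^ (m + 1))⁻¹ := by
      rw [Gm_zero γ c m s hs0]
      have : (-1 : ℝ) ^ m * (-1) ^ m = 1 := by
        rw [← mul_pow]; norm_num
      calc (-1 : ℝ) ^ m * ((-1) ^ m * (γ * (m.factorial : ℝ)) * (s ^ (m + 1))⁻¹)
          = ((-1 : ℝ) ^ m * (-1) ^ m) * ((γ * (m.factorial : ℝ)) * (s ^ (m + 1))⁻¹) := by ring
        _ = _ := by rw [this, one_mul]
    rw [hval]
    have hf1 : (1 : ℝ) ≤ (m.factorial : ℝ) := by exact_mod_cast Nat.factorial_pos m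
    constructor
    · have h1 : ((3 : ℝ) ^ M)⁻¹ ≤ (s ^ (m + 1))⁻¹ := by
        apply inv_anti₀ (by positivity)
        calc s ^ (m + 1) ≤ 3 ^ (m + 1) := pow_le_pow_left₀ hs0.le hs.2 _
          _ ≤ 3 ^ M := pow_le_pow_right₀ (by norm_num) hm
      have h2 : γ ≤ γ * m.factorial := le_mul_of_one_le_right hγ.le hf1
      have h3 : 0 < ((3 : ℝ) ^ M)⁻¹ := by positivity
      calc c0 < γ * ((3 : ℝ) ^ M)⁻¹ := by rw [hc0]; exact half_lt_self (by positivity)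
        _ ≤ (γ * m.factorial) * (s ^ (m + 1))⁻¹ := mul_le_mul h2 h1 h3.le (by positivity)
    · have h1 : (s ^ (m + 1))⁻¹ ≤ 1 := inv_le_one_of_one_le₀ (one_le_pow₀ hs.1)
      have h2 : (m.factorial : ℝ) ≤ (M.factorial : ℝ) := by
        exact_mod_cast Nat.factorial_le hm.le
      calc (γ * (m.factorial : ℝ)) * (s ^ (m + 1))⁻¹ ≤ (γ * (m.factorial : ℝ)) * 1 :=
            mul_le_mul_of_nonneg_left h1 (by positivity)
        _ ≤ γ * (M.factorial : ℝ) := by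
            rw [mul_one]; exact mul_le_mul_of_nonneg_left h2 (by positivity)
        _ < C0 := by rw [hC0]; linarith
  obtain ⟨u, v, hu, -, h0u, hv, huv⟩ := generalized_tube_lemma isCompact_singleton isCompact_Icc
    ((U_open γ c).inter (V_open γ c M c0 C0)) hsub
  obtain ⟨κ', hκ', hball⟩ := Metric.isOpen_iff.1 hu 0 (h0u rfl)
  refine ⟨κ' / 2, by positivity, ?_⟩
  intro J b hJ hb
  have hJR : (1 : ℝ) ≤ J := by exact_mod_cast hJ
  have hJ0 : (0 : ℝ) < J := by linarith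
  set β : Fin k → ℝ := fun i => b i / (J : ℝ) ^ (γ - c i) with hβ
  have hβu : β ∈ u := by
    apply hball
    rw [Metric.mem_ball, dist_zero_right]
    refine lt_of_le_of_lt ((pi_norm_le_iff_of_nonneg (by positivity)).2 fun i => ?_)
      (half_lt_self hκ')
    rw [hβ, Real.norm_eq_abs, abs_div, abs_of_pos (by positivity : (0:ℝ) < (J : ℝ) ^ (γ - c i)),
      div_le_iff₀ (by positivity)]
    exact hb i
  have hmem : ∀ t ∈ Set.Icc (J : ℝ) (3 * J), (β, t / J) ∈ U γ c ∩ V γ c M c0 C0 := by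
    intro t ht
    apply huv
    refine ⟨hβu, hv ⟨?_, ?_⟩⟩
    · rw [le_div_iff₀ hJ0]; linarith [ht.1]
    · rw [div_le_iff₀ hJ0]; exact ht.2
  have hscale : ∀ t : ℝ, 0 < t → gp γ c b t = (J : ℝ) ^ γ * gp γ c β (t / J) := by
    intro t ht
    unfold gp
    rw [mul_add, Real.div_rpow ht.le hJ0.le, mul_div_cancel₀ _ (by positivity), Finset.mul_sum]
    congr 1
    refine Finset.sum_congr rfl fun i _ => ?_
    rw [hβ]
    dsimp only
    rw [Real.div_rpow ht.le hJ0.le, Real.rpow_sub hJ0]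
    field_simp
  refine ⟨fun m t => (if m = 0 then γ * Real.log J else 0) + Gm γ c m (β, t / J) / (J : ℝ) ^ m,
    ?_, ?_, ?_⟩
  · intro t ht
    have hpos : 0 < gp γ c β (t / J) := (hmem t ht).1.2
    have ht0 : 0 < t := by linarith [ht.1]
    constructor
    · rw [hscale t ht0]; positivity
    show (if (0 : ℕ) = 0 then γ * Real.log J else 0) + Real.log (gp γ c β (t / J)) / (J : ℝ) ^ 0 = _
    rw [if_pos rfl, pow_zero, div_one, hscale t ht0, Real.log_mul (by positivity) hpos.ne',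
      Real.log_rpow hJ0]
  · intro m hm t ht
    have h1 := Gm_hasDerivAt γ c m β (t / J) (hmem t ht).1
    have h2 : HasDerivAt (fun t : ℝ => t / J) (1 / J) t := (hasDerivAt_id t).div_const _
    have h3 := (HasDerivAt.comp t h1 h2).div_const ((J : ℝ) ^ m)
    have h4 := h3.const_add (if m = 0 then γ * Real.log J else 0)
    refine h4.congr_deriv ?_
    show Gm γ c (m + 1) (β, t / J) * (1 / J) / (J : ℝ) ^ m =
      (if m + 1 = 0 then γ * Real.log J else 0) + Gm γ c (m + 1) (β, t / J) / (J : ℝ) ^ (m + 1)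
    rw [if_neg (Nat.succ_ne_zero m), zero_add, pow_succ]
    field_simp
  · intro m hm1 hm2 t ht
    obtain ⟨m, rfl⟩ : ∃ m', m = m' + 1 := ⟨m - 1, by omega⟩
    have h1 := (hmem t ht).2
    unfold V at h1
    rw [Set.mem_iInter₂] at h1
    have h2 := (h1 m (Finset.mem_range.2 (by omega))).2
    have h3 : c0 < (-1) ^ m * Gm γ c (m + 1) (β, t / J) ∧
      (-1) ^ m * Gm γ c (m + 1) (β, t / J) < C0 := h2
    have e1 : (-1 : ℝ) ^ (m + 1 + 1) * ((if m + 1 = 0 then γ * Real.log J else 0) +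
        Gm γ c (m + 1) (β, t / J) / (J : ℝ) ^ (m + 1)) * (J : ℝ) ^ (m + 1) =
        (-1) ^ m * Gm γ c (m + 1) (β, t / J) := by
      rw [if_neg (Nat.succ_ne_zero m), zero_add, pow_add, pow_add]
      field_simp
    show c0 ≤ (-1 : ℝ) ^ (m + 1 + 1) * ((if m + 1 = 0 then γ * Real.log J else 0) +
        Gm γ c (m + 1) (β, t / J) / (J : ℝ) ^ (m + 1)) * (J : ℝ) ^ (m + 1) ∧
      (-1 : ℝ) ^ (m + 1 + 1) * ((if m + 1 = 0 then γ * Real.log J else 0) +
        Gm γ c (m + 1) (β, t / J) / (J : ℝ) ^ (m + 1)) * (J : ℝ) ^ (m + 1) ≤ C0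
    rw [e1]
    exact ⟨h3.1.le, h3.2.le⟩

end Pool.Agent.N798.M
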