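import Mathlib

set_option autoImplicit false

/-! Hausdorff dimension of limsup sets which are stable at small scales. -/

namespace Pool.Agent.N798.M

open Finset MeasureTheory MeasureTheory.Measure Filter
open scoped ENNReal NNReal

/-- the cell of index `m` -/
def cell (a0 : ℝ) (n m : ℕ) : Set ℝ := Set.Ico (a0 + m / n) (a0 + (m + 1) / n)

lemma cell_vol (a0 : ℝ) (n m : ℕ) : volume (cell a0 n m) = ENNReal.ofReal (1 / n) := by
  unfold cell
  rw [Real.volume_Ico]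
  congr 1
  ring

lemma cell_sub {a0 : ℝ} {n m : ℕ} (hn : 1 ≤ n) (hm : m < n) : cell a0 n m ⊆ Set.Ico a0 (a0 + 1) := by
  have hn0 : (0:ℝ) < n := by exact_mod_cast hn
  have hm1 : (m:ℝ) + 1 ≤ n := by exact_mod_cast hm
  have hm0 : (0:ℝ) ≤ m := Nat.cast_nonneg m
  intro a ha
  constructor
  · have : 0 ≤ (m:ℝ) / n := by positivity
    linarith [ha.1]
  · have : ((m:ℝ) + 1) / n ≤ 1 := by rw [div_le_one hn0]; exact hm1
    linarith [ha.2]

lemma cell_disj {a0 : ℝ} {n : ℕ} (hn : 1 ≤ n) {m m' : ℕ} (h : m ≠ m') : Disjoint (cell a0 n m) (cell a0 n m') := by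
  have hn0 : (0:ℝ) < n := by exact_mod_cast hn
  rw [Set.disjoint_left]
  intro a ha ha'
  have key : ∀ p q : ℕ, a ∈ cell a0 n p → a ∈ cell a0 n q → p ≤ q := by
    intro p q hp hq
    have h1 : (p:ℝ) / n < ((q:ℝ) + 1) / n := by linarith [hp.1, hq.2]
    have h2 := (div_lt_div_iff_of_pos_right hn0).mp h1
    have h3 : p < q + 1 := by exact_mod_cast h2
    omega
  exact h (le_antisymm (key m m' ha ha') (key m' m ha' ha))

lemma cell_mem {a0 a : ℝ} {n : ℕ} (hn : 1 ≤ n) (ha : a ∈ Set.Ico a0 (a0 + 1)) : ∃ m < n, a ∈ cell a0 n m := by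
  have hn0 : (0:ℝ) < n := by exact_mod_cast hn
  have h0 : 0 ≤ (a - a0) * n := mul_nonneg (by linarith [ha.1]) hn0.le
  refine ⟨⌊(a - a0) * n⌋₊, ?_, ?_, ?_⟩
  · rw [Nat.floor_lt h0]
    have : a - a0 < 1 := by linarith [ha.2]
    nlinarith
  · have h1 := Nat.floor_le h0
    have : ((⌊(a - a0) * n⌋₊ : ℕ) : ℝ) / n ≤ a - a0 := by rw [div_le_iff₀ hn0]; exact h1
    linarith
  · have h1 := Nat.lt_floor_add_one ((a - a0) * n)
    have : a - a0 < (((⌊(a - a0) * n⌋₊ : ℕ) : ℝ) + 1) / n := by rw [lt_div_iff₀ hn0]; exact h1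
    linarith

/-- the number of cells meeting `E` -/
lemma bad_cells {a0 : ℝ} {n : ℕ} (hn : 1 ≤ n) {E E' : Set ℝ}
    (h1 : ∀ a ∈ Set.Ico a0 (a0 + 1), ∀ a' ∈ Set.Ico a0 (a0 + 1), |a - a'| ≤ 1 / n → a ∈ E → a' ∈ E')
    (S : Finset ℕ) (hS : ∀ m ∈ S, m < n ∧ (cell a0 n m ∩ E).Nonempty) :
    (S.card : ℝ≥0∞) * ENNReal.ofReal (1 / n) ≤ volume (E' ∩ Set.Ico a0 (a0 + 1)) := by
  have hn0 : (0:ℝ) < n := by exact_mod_cast hn
  have h2 : volume (⋃ m ∈ S, cell a0 n m) = ∑ m ∈ S, volume (cell a0 n m) := by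
    refine measure_biUnion_finset ?_ fun m _ => measurableSet_Ico
    intro m _ m' _ hmm
    exact cell_disj hn hmm
  have h3 : ∑ m ∈ S, volume (cell a0 n m) = (S.card : ℝ≥0∞) * ENNReal.ofReal (1 / n) := by
    simp_rw [cell_vol]
    rw [sum_const, nsmul_eq_mul]
  rw [← h3, ← h2]
  refine measure_mono ?_
  intro a' ha'
  simp only [Set.mem_iUnion] at ha'
  obtain ⟨m, hm, ham⟩ := ha'
  obtain ⟨hmn, a, ham', haE⟩ := hS m hm
  refine ⟨h1 a (cell_sub hn hmn ham') a' (cell_sub hn hmn ham) ?_ haE, cell_sub hn hmn ham⟩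
  have e1 : ((m:ℝ) + 1) / n = m / n + 1 / n := by ring
  have b1 := ham.1
  have b2 := ham.2
  have b3 := ham'.1
  have b4 := ham'.2
  rw [abs_le]
  constructor <;> linarith

/-- Hausdorff dimension of a limsup set -/
theorem dim_limsup {a0 : ℝ} {n : ℕ → ℕ} (hn : ∀ k, 1 ≤ n k) (hmono : Monotone n) (htop : Tendsto n atTop atTop)
    {E E' : ℕ → Set ℝ} {g : ℕ → ℝ} {s : ℝ≥0} (hs : 0 < s)
    (h1 : ∀ᶠ k in atTop, ∀ a ∈ Set.Ico a0 (a0 + 1), ∀ a' ∈ Set.Ico a0 (a0 + 1), |a - a'| ≤ 1 / n k → a ∈ E k → a' ∈ E' k)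
    (h2 : ∀ᶠ k in atTop, volume (E' k ∩ Set.Ico a0 (a0 + 1)) ≤ ENNReal.ofReal (g k))
    (h3 : Summable fun k => g k * (n k : ℝ) ^ (1 - (s:ℝ))) :
    dimH {a | a ∈ Set.Ico a0 (a0 + 1) ∧ ∃ᶠ k in atTop, a ∈ E k} ≤ s := by
  classical
  refine dimH_le_of_hausdorffMeasure_ne_top ?_
  set A : Set ℝ := {a | a ∈ Set.Ico a0 (a0 + 1) ∧ ∃ᶠ k in atTop, a ∈ E k} with hA
  obtain ⟨K0, hK0⟩ := eventually_atTop.mp (h1.and h2)
  set t : ∀ K : ℕ, ℕ × ℕ → Set ℝ := fun K p =>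
    if p.2 < n (p.1 + K) ∧ (cell a0 (n (p.1 + K)) p.2 ∩ E (p.1 + K)).Nonempty then cell a0 (n (p.1 + K)) p.2 else ∅ with ht
  set G : ℕ → ℝ≥0∞ := fun k => ENNReal.ofReal (g k * (n k : ℝ) ^ (1 - (s:ℝ))) with hG
  have hGs : ∑' k, G k ≠ ⊤ := h3.tsum_ofReal_ne_top
  have hle : ∀ᶠ K : ℕ in atTop, ∑' p, Metric.ediam (t K p) ^ (s:ℝ) ≤ ∑' i, G (i + K) := by
    filter_upwards [eventually_ge_atTop K0] with K hK
    rw [ENNReal.tsum_prod' (f := fun p : ℕ × ℕ => Metric.ediam (t K p) ^ (s:ℝ))]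
    refine ENNReal.tsum_le_tsum fun i => ?_
    obtain ⟨q1, q2⟩ := hK0 (i + K) (by omega)
    set k := i + K with hk
    have hnk : (0:ℝ) < n k := by exact_mod_cast hn k
    set S : Finset ℕ := (range (n k)).filter fun m => (cell a0 (n k) m ∩ E k).Nonempty with hS
    have hdiam : ∀ m : ℕ, Metric.ediam (t K (i, m)) ^ (s:ℝ) = if m ∈ S then ENNReal.ofReal (1 / n k) ^ (s:ℝ) else 0 := by
      intro m
      simp only [ht, ← hk]
      by_cases hm : m ∈ S
      · rw [if_pos hm]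
        rw [hS, mem_filter, mem_range] at hm
        rw [if_pos hm]
        unfold cell
        rw [Real.ediam_Ico]
        congr 2
        ring
      · rw [if_neg hm]
        rw [hS, mem_filter, mem_range] at hm
        rw [if_neg hm, Metric.ediam_empty, ENNReal.zero_rpow_of_pos (by exact_mod_cast hs)]
    simp_rw [hdiam]
    rw [tsum_eq_sum (s := S) (fun m hm => if_neg hm), sum_congr rfl (fun m hm => if_pos hm), sum_const, nsmul_eq_mul]
    have hb := (bad_cells (hn k) q1 S (fun m hm => by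
      rw [hS, mem_filter, mem_range] at hm
      exact hm)).trans q2
    have hpos : 0 < (1:ℝ) / n k := by positivity
    have e1 : ENNReal.ofReal (1 / n k) ^ (s:ℝ) = ENNReal.ofReal (1 / n k) * ENNReal.ofReal ((n k : ℝ) ^ (1 - (s:ℝ))) := by
      rw [ENNReal.ofReal_rpow_of_pos hpos, ← ENNReal.ofReal_mul hpos.le]
      congr 1
      rw [one_div, Real.inv_rpow hnk.le, Real.rpow_sub hnk, Real.rpow_one]
      field_simp
    rw [e1, ← mul_assoc]
    simp only [hG]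
    rw [ENNReal.ofReal_mul' (by positivity)]
    gcongr
  have hr : Tendsto (fun K => ENNReal.ofReal (1 / n K)) atTop (nhds 0) := by
    have h4 : Tendsto (fun K => (1:ℝ) / n K) atTop (nhds 0) :=
      tendsto_const_div_atTop_nhds_zero_nat 1 |>.comp htop
    have := ENNReal.tendsto_ofReal h4
    rwa [ENNReal.ofReal_zero] at this
  have hmain := hausdorffMeasure_le_liminf_tsum (s:ℝ) A (l := atTop) (fun K => ENNReal.ofReal (1 / n K)) hr t
    (Eventually.of_forall fun K p => by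
      simp only [ht]
      split_ifs with hc
      · unfold cell
        rw [Real.ediam_Ico]
        refine ENNReal.ofReal_le_ofReal ?_
        have h5 : (n K : ℝ) ≤ n (p.1 + K) := by exact_mod_cast hmono (Nat.le_add_left K p.1)
        have h6 : (0:ℝ) < n K := by exact_mod_cast hn K
        calc a0 + ((p.2:ℝ) + 1) / (n (p.1 + K)) - (a0 + p.2 / (n (p.1 + K))) = 1 / (n (p.1 + K)) := by ring
          _ ≤ 1 / n K := one_div_le_one_div_of_le h6 h5
      · rw [Metric.ediam_empty]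
        exact zero_le)
    (Eventually.of_forall fun K a ha => by
      obtain ⟨ha1, ha2⟩ := ha
      obtain ⟨k, hk, hak⟩ := (frequently_atTop.mp ha2) K
      obtain ⟨m, hm, ham⟩ := cell_mem (hn k) ha1
      obtain ⟨i, rfl⟩ := Nat.exists_eq_add_of_le' hk
      simp only [Set.mem_iUnion]
      refine ⟨(i, m), ?_⟩
      simp only [ht]
      rw [if_pos ⟨hm, a, ham, hak⟩]
      exact ham)
  have htail := ENNReal.tendsto_sum_nat_add G hGs
  have h0 : liminf (fun K => ∑' p, Metric.ediam (t K p) ^ (s:ℝ)) atTop ≤ 0 := by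
    rw [← htail.liminf_eq]
    exact liminf_le_liminf hle
  have : μH[(s:ℝ)] A ≤ 0 := hmain.trans h0
  exact ne_top_of_le_ne_top ENNReal.zero_ne_top this

end Pool.Agent.N798.M
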