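import Pool.Agent.N798.M5

set_option autoImplicit false

/-! Near integer counts and the variation of the block error. -/

namespace Pool.Agent.N798.M

open Finset MeasureTheory Filter
open scoped ENNReal

/-- `1` if `y` is within `ρ` of an integer -/
noncomputable def chi (ρ y : ℝ) : ℝ≥0∞ := if |y - round y| ≤ ρ then 1 else 0

lemma chi_measurable (ρ : ℝ) : Measurable (chi ρ) := by
  unfold chi
  refine Measurable.ite ?_ measurable_const measurable_const
  refine measurableSet_le ?_ measurable_const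
  simp_rw [round_eq]
  have h1 : Measurable fun x : ℝ => ((⌊x + 1 / 2⌋ : ℤ) : ℝ) :=
    (measurable_from_top (f := fun m : ℤ => (m:ℝ))).comp (Int.measurable_floor.comp (measurable_id.add_const _))
  exact continuous_abs.measurable.comp (measurable_id.sub h1)

lemma chi_of_floor_ne {y y' ρ : ℝ} (hy : 0 ≤ y) (hy' : 0 ≤ y') (hd : |y - y'| ≤ ρ) (h : ⌊y'⌋₊ ≠ ⌊y⌋₊) : chi ρ y = 1 := by
  unfold chi
  rw [if_pos]
  obtain ⟨h1, h2⟩ := abs_le.mp hd
  rcases lt_or_gt_of_ne h with hlt | hgt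
  · have h3 : y' < (⌊y⌋₊ : ℕ) := (Nat.floor_lt hy').mp hlt
    have h4 : ((⌊y⌋₊ : ℕ) : ℝ) ≤ y := Nat.floor_le hy
    refine (round_le y ((⌊y⌋₊ : ℕ) : ℤ)).trans ?_
    push_cast
    rw [abs_of_nonneg (by linarith)]
    linarith
  · have h3 : y < (⌊y'⌋₊ : ℕ) := (Nat.floor_lt hy).mp hgt
    have h4 : ((⌊y'⌋₊ : ℕ) : ℝ) ≤ y' := Nat.floor_le hy'
    refine (round_le y ((⌊y'⌋₊ : ℕ) : ℤ)).trans ?_
    push_cast
    rw [abs_of_nonpos (by linarith)]
    linarith

lemma chi_mono {y y' ρ : ℝ} (hd : |y - y'| ≤ ρ / 2) : chi (ρ / 2) y ≤ chi ρ y' := by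
  unfold chi
  by_cases h : |y - round y| ≤ ρ / 2
  · rw [if_pos h, if_pos]
    refine (round_le y' (round y)).trans ?_
    have h1 : y' - round y = -(y - y') + (y - round y) := by ring
    rw [h1]
    refine (abs_add_le _ _).trans ?_
    rw [abs_neg]
    linarith
  · rw [if_neg h]
    exact zero_le

lemma exp_lip {x y M : ℝ} (hx : x ≤ M) (hy : y ≤ M) : |Real.exp x - Real.exp y| ≤ Real.exp M * |x - y| := by
  wlog h : y ≤ x generalizing x y
  · rw [abs_sub_comm, abs_sub_comm x]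
    exact this hy hx (le_of_not_ge h)
  have h1 : Real.exp y = Real.exp x * Real.exp (y - x) := by rw [← Real.exp_add]; congr 1; ring
  have h2 := Real.add_one_le_exp (y - x)
  have h3 : Real.exp y ≤ Real.exp x := Real.exp_le_exp.mpr h
  rw [abs_of_nonneg (by linarith), abs_of_nonneg (by linarith)]
  have h4 : Real.exp x ≤ Real.exp M := Real.exp_le_exp.mpr hx
  have h5 : 0 < Real.exp x := Real.exp_pos x
  calc Real.exp x - Real.exp y = Real.exp x * (1 - Real.exp (y - x)) := by rw [h1]; ring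
    _ ≤ Real.exp x * (x - y) := by
        refine mul_le_mul_of_nonneg_left ?_ h5.le
        linarith
    _ ≤ Real.exp M * (x - y) := mul_le_mul_of_nonneg_right h4 (by linarith)

/-- the near integer count of a block -/
noncomputable def Nc (ρ : ℝ) (φ : ℝ → ℝ) (J : ℕ) (a : ℝ) : ℝ≥0∞ :=
  (∑ n ∈ range J, chi ρ (Real.exp (a + φ (J + n)))) + ∫⁻ t in Set.Ioc (J:ℝ) (2 * J), chi ρ (Real.exp (a + φ t))

section

variable {φ : ℝ → ℝ} {J : ℕ} {a0 B ρ δ a a' : ℝ}

lemma dist_small (hB : ∀ t ∈ Set.Icc (J:ℝ) (3 * J), Real.exp (a0 + 1 + φ t) ≤ B) (hδ : B * δ ≤ ρ / 2)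
    (ha : a ≤ a0 + 1) (ha' : a' ≤ a0 + 1) (haa : |a - a'| ≤ δ) {t : ℝ} (ht : t ∈ Set.Icc (J:ℝ) (3 * J)) :
    |Real.exp (a + φ t) - Real.exp (a' + φ t)| ≤ ρ / 2 := by
  have h1 := exp_lip (x := a + φ t) (y := a' + φ t) (M := a0 + 1 + φ t) (by linarith) (by linarith)
  rw [show a + φ t - (a' + φ t) = a - a' by ring] at h1
  have h2 := hB t ht
  have hB0 : 0 ≤ B := (Real.exp_pos _).le.trans h2
  calc _ ≤ Real.exp (a0 + 1 + φ t) * |a - a'| := h1
    _ ≤ B * δ := by gcongr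
    _ ≤ ρ / 2 := hδ

lemma Nc_mono (hB : ∀ t ∈ Set.Icc (J:ℝ) (3 * J), Real.exp (a0 + 1 + φ t) ≤ B) (hδ : B * δ ≤ ρ / 2)
    (ha : a ≤ a0 + 1) (ha' : a' ≤ a0 + 1) (haa : |a - a'| ≤ δ) : Nc (ρ / 2) φ J a ≤ Nc ρ φ J a' := by
  have hJ : (0:ℝ) ≤ J := Nat.cast_nonneg J
  unfold Nc
  refine add_le_add (sum_le_sum fun n hn => ?_) ?_
  · have hn' : (n:ℝ) ≤ J := by exact_mod_cast (mem_range.mp hn).le
    have h0 : (0:ℝ) ≤ n := Nat.cast_nonneg n
    exact chi_mono (dist_small hB hδ ha ha' haa ⟨by linarith, by linarith⟩)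
  · refine setLIntegral_mono' measurableSet_Ioc fun t ht => ?_
    exact chi_mono (dist_small hB hδ ha ha' haa ⟨ht.1.le, by linarith [ht.2]⟩)

lemma Blk_var {f : ℕ → ℂ} {F : ℝ} (hφ : Measurable φ) (hF0 : 0 ≤ F) (hF : ∀ m : ℕ, (m:ℝ) ≤ B → ‖f m‖ ≤ F)
    (hB : ∀ t ∈ Set.Icc (J:ℝ) (3 * J), Real.exp (a0 + 1 + φ t) ≤ B) (hδ : B * δ ≤ ρ / 2)
    (ha : a ≤ a0 + 1) (ha' : a' ≤ a0 + 1) (haa : |a - a'| ≤ δ) {L : ℕ} (hL : L ≤ J) :
    ‖Blk f φ J L a' - Blk f φ J L a‖ₑ ≤ ENNReal.ofReal (2 * F) * Nc (ρ / 2) φ J a := by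
  have hJ : (0:ℝ) ≤ J := Nat.cast_nonneg J
  have hL0 : (0:ℝ) ≤ L := Nat.cast_nonneg L
  have hLJ : (L:ℝ) ≤ J := by exact_mod_cast hL
  have hfb : ∀ x : ℝ, x ≤ a0 + 1 → ∀ t ∈ Set.Icc (J:ℝ) (3 * J), ‖f ⌊Real.exp (x + φ t)⌋₊‖ ≤ F := by
    intro x hx t ht
    refine hF _ ((Nat.floor_le (Real.exp_pos _).le).trans (le_trans ?_ (hB t ht)))
    exact Real.exp_le_exp.mpr (by linarith)
  have hpt : ∀ t ∈ Set.Icc (J:ℝ) (3 * J), ‖f ⌊Real.exp (a' + φ t)⌋₊ - f ⌊Real.exp (a + φ t)⌋₊‖ₑ ≤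
      ENNReal.ofReal (2 * F) * chi (ρ / 2) (Real.exp (a + φ t)) := by
    intro t ht
    by_cases h : ⌊Real.exp (a' + φ t)⌋₊ = ⌊Real.exp (a + φ t)⌋₊
    · rw [h, sub_self, enorm_zero]
      exact zero_le
    · rw [chi_of_floor_ne (Real.exp_pos _).le (Real.exp_pos _).le (dist_small hB hδ ha ha' haa ht) h, mul_one, ← ofReal_norm]
      refine ENNReal.ofReal_le_ofReal ((norm_sub_le _ _).trans ?_)
      have := hfb a' ha' t ht
      have := hfb a ha t ht
      linarith
  have hii : ∀ x : ℝ, x ≤ a0 + 1 → IntervalIntegrable (fun t => f ⌊Real.exp (x + φ t)⌋₊) volume (J:ℝ) (J + L) := by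
    intro x hx
    rw [intervalIntegrable_iff_integrableOn_Ioc_of_le (by linarith)]
    refine Measure.integrableOn_of_bounded (M := F) (by simp) ((step_measurable f).comp (hφ.const_add x)).aestronglyMeasurable ?_
    rw [ae_restrict_iff' measurableSet_Ioc]
    exact Eventually.of_forall fun t ht => hfb x hx t ⟨ht.1.le, by linarith [ht.2]⟩
  have hdec : Blk f φ J L a' - Blk f φ J L a = (∑ n ∈ range L, (f ⌊Real.exp (a' + φ (J + n))⌋₊ - f ⌊Real.exp (a + φ (J + n))⌋₊)) -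
      ∫ t in (J:ℝ)..(J + L), (f ⌊Real.exp (a' + φ t)⌋₊ - f ⌊Real.exp (a + φ t)⌋₊) := by
    unfold Blk
    rw [intervalIntegral.integral_sub (hii a' ha') (hii a ha), sum_sub_distrib]
    ring
  rw [hdec]
  unfold Nc
  rw [mul_add, mul_sum]
  refine (enorm_sub_le).trans (add_le_add ?_ ?_)
  · refine (enorm_sum_le _ _).trans ?_
    have h1 : ∀ n ∈ range L, ‖f ⌊Real.exp (a' + φ (J + n))⌋₊ - f ⌊Real.exp (a + φ (J + n))⌋₊‖ₑ ≤
        ENNReal.ofReal (2 * F) * chi (ρ / 2) (Real.exp (a + φ (J + n))) := by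
      intro n hn
      have hn' : (n:ℝ) ≤ L := by exact_mod_cast (mem_range.mp hn).le
      have h0 : (0:ℝ) ≤ n := Nat.cast_nonneg n
      exact hpt _ ⟨by linarith, by linarith⟩
    refine (sum_le_sum h1).trans ?_
    exact sum_le_sum_of_subset (range_mono hL)
  · have hcm : Measurable fun t => chi (ρ / 2) (Real.exp (a + φ t)) :=
      (chi_measurable _).comp (Real.measurable_exp.comp (hφ.const_add a))
    rw [intervalIntegral.integral_of_le (by linarith), ← lintegral_const_mul _ hcm]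
    refine (enorm_integral_le_lintegral_enorm _).trans ?_
    refine (setLIntegral_mono' measurableSet_Ioc fun t ht => hpt t ⟨ht.1.le, by linarith [ht.2]⟩).trans ?_
    refine lintegral_mono_set ?_
    exact Set.Ioc_subset_Ioc_right (by linarith)

end

/-- the measure of the parameters with a near integer value -/
lemma near_vol {a0 p ρ : ℝ} (hY : 1 ≤ Real.exp (a0 + p)) (hρ : 0 < ρ) (hρ1 : ρ ≤ 1 / 4) :
    ∫⁻ a in Set.Ico a0 (a0 + 1), chi ρ (Real.exp (a + p)) ≤ ENNReal.ofReal (30 * ρ) := by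
  set Y := Real.exp (a0 + p) with hYd
  have hY0 : 0 < Y := by linarith
  set M : ℕ := ⌊3 * Y + 1⌋₊ with hM
  set T : Finset ℕ := (range (M + 1)).filter fun m => 1 ≤ m ∧ Y / 2 ≤ (m:ℝ) with hT
  set U : Set ℝ := ⋃ m ∈ T, Set.Icc (Real.log (m - ρ) - p) (Real.log (m + ρ) - p) with hU
  have h1 : ∀ a ∈ Set.Ico a0 (a0 + 1), chi ρ (Real.exp (a + p)) ≤ U.indicator (fun _ => 1) a := by
    intro a ha
    unfold chi
    split_ifs with hc
    · rw [Set.indicator_of_mem]
      set y := Real.exp (a + p) with hy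
      have hyY : Y ≤ y := Real.exp_le_exp.mpr (by linarith [ha.1])
      have hyY2 : y ≤ 3 * Y := by
        have e1 : y ≤ Real.exp 1 * Y := by
          rw [hYd, ← Real.exp_add]
          exact Real.exp_le_exp.mpr (by linarith [ha.2])
        have e2 := Real.exp_one_lt_d9
        nlinarith
      obtain ⟨c1, c2⟩ := abs_le.mp hc
      have c3 : (0:ℝ) < (round y : ℤ) := by linarith
      have c4 : 0 < round y := by exact_mod_cast c3
      obtain ⟨m, hm⟩ := Int.eq_ofNat_of_zero_le c4.le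
      have hmr : ((round y : ℤ) : ℝ) = m := by rw [hm]; simp
      rw [hmr] at c1 c2
      have hm1 : 1 ≤ m := by
        have : (0:ℤ) < m := by rw [hm] at c4; simpa using c4
        exact_mod_cast this
      have hm1' : (1:ℝ) ≤ m := by exact_mod_cast hm1
      simp only [hU, Set.mem_iUnion]
      refine ⟨m, ?_, ?_, ?_⟩
      · rw [hT, mem_filter, mem_range, Nat.lt_succ_iff]
        refine ⟨?_, hm1, by linarith⟩
        rw [hM, Nat.le_floor_iff (by positivity)]
        linarith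
      · have : Real.log (m - ρ) ≤ a + p := by
          rw [Real.log_le_iff_le_exp (by linarith)]
          linarith
        linarith
      · have : a + p ≤ Real.log (m + ρ) := by
          rw [Real.le_log_iff_exp_le (by linarith)]
          linarith
        linarith
    · exact zero_le
  have hUm : MeasurableSet U := by
    rw [hU]
    exact Finset.measurableSet_biUnion _ fun m _ => measurableSet_Icc
  calc ∫⁻ a in Set.Ico a0 (a0 + 1), chi ρ (Real.exp (a + p)) ≤ ∫⁻ a in Set.Ico a0 (a0 + 1), U.indicator (fun _ => 1) a :=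
        setLIntegral_mono' measurableSet_Ico h1
    _ ≤ ∫⁻ a, U.indicator (fun _ => 1) a := setLIntegral_le_lintegral _ _
    _ = volume U := by rw [lintegral_indicator hUm]; simp
    _ ≤ ∑ m ∈ T, volume (Set.Icc (Real.log (m - ρ) - p) (Real.log (m + ρ) - p)) := by
        rw [hU]
        exact measure_biUnion_finset_le _ _
    _ ≤ ∑ m ∈ T, ENNReal.ofReal (6 * ρ / Y) := by
        refine sum_le_sum fun m hm => ?_
        rw [hT, mem_filter] at hm
        obtain ⟨-, hm1, hm2⟩ := hm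
        have hm1' : (1:ℝ) ≤ m := by exact_mod_cast hm1
        rw [Real.volume_Icc]
        refine ENNReal.ofReal_le_ofReal ?_
        have hp1 : 0 < (m:ℝ) - ρ := by linarith
        have hp2 : 0 < (m:ℝ) + ρ := by linarith
        have e1 : Real.log (m + ρ) - p - (Real.log (m - ρ) - p) = Real.log ((m + ρ) / (m - ρ)) := by
          rw [Real.log_div hp2.ne' hp1.ne']
          ring
        rw [e1]
        have e2 := Real.log_le_sub_one_of_pos (div_pos hp2 hp1)
        have e3 : (m + ρ) / (m - ρ) - 1 = 2 * ρ / (m - ρ) := by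
          field_simp
          ring
        rw [e3] at e2
        refine e2.trans ?_
        rw [div_le_div_iff₀ hp1 hY0]
        nlinarith
    _ = ENNReal.ofReal (T.card * (6 * ρ / Y)) := by
        rw [sum_const, nsmul_eq_mul, ENNReal.ofReal_mul (Nat.cast_nonneg _), ENNReal.ofReal_natCast]
    _ ≤ ENNReal.ofReal (30 * ρ) := by
        refine ENNReal.ofReal_le_ofReal ?_
        have e1 : (T.card : ℝ) ≤ 5 * Y := by
          have e2 : T.card ≤ M + 1 := (card_filter_le _ _).trans (by rw [card_range])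
          have e3 : (T.card : ℝ) ≤ M + 1 := by exact_mod_cast e2
          have e4 : (M:ℝ) ≤ 3 * Y + 1 := Nat.floor_le (by positivity)
          linarith
        calc (T.card : ℝ) * (6 * ρ / Y) ≤ 5 * Y * (6 * ρ / Y) := by gcongr
          _ = 30 * ρ := by field_simp; ring

/-- the mean near integer count -/
lemma Nc_mean {φ : ℝ → ℝ} (hφ : Measurable φ) {J : ℕ} {a0 ρ : ℝ} (hY : ∀ t ∈ Set.Icc (J:ℝ) (3 * J), 1 ≤ Real.exp (a0 + φ t))
    (hρ : 0 < ρ) (hρ1 : ρ ≤ 1 / 4) : ∫⁻ a in Set.Ico a0 (a0 + 1), Nc ρ φ J a ≤ ENNReal.ofReal (60 * ρ * J) := by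
  have hJ : (0:ℝ) ≤ J := Nat.cast_nonneg J
  have hcm : ∀ t : ℝ, Measurable fun a : ℝ => chi ρ (Real.exp (a + φ t)) := fun t =>
    (chi_measurable ρ).comp (Real.measurable_exp.comp (measurable_id.add_const _))
  unfold Nc
  rw [lintegral_add_left (Finset.measurable_sum _ fun n _ => hcm _), lintegral_finsetSum _ fun n _ => hcm _]
  have h1 : ∑ n ∈ range J, ∫⁻ a in Set.Ico a0 (a0 + 1), chi ρ (Real.exp (a + φ (J + n))) ≤ ENNReal.ofReal (30 * ρ * J) := by
    have h2 : ∀ n ∈ range J, ∫⁻ a in Set.Ico a0 (a0 + 1), chi ρ (Real.exp (a + φ (J + n))) ≤ ENNReal.ofReal (30 * ρ) := by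
      intro n hn
      have hn' : (n:ℝ) ≤ J := by exact_mod_cast (mem_range.mp hn).le
      have h0 : (0:ℝ) ≤ n := Nat.cast_nonneg n
      exact near_vol (hY _ ⟨by linarith, by linarith⟩) hρ hρ1
    refine (sum_le_sum h2).trans (le_of_eq ?_)
    rw [sum_const, card_range, nsmul_eq_mul, mul_comm (30 * ρ), ENNReal.ofReal_mul hJ, ENNReal.ofReal_natCast]
  have h3 : ∫⁻ a in Set.Ico a0 (a0 + 1), ∫⁻ t in Set.Ioc (J:ℝ) (2 * J), chi ρ (Real.exp (a + φ t)) ≤ ENNReal.ofReal (30 * ρ * J) := by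
    rw [lintegral_lintegral_swap]
    · have h4 : ∀ t ∈ Set.Ioc (J:ℝ) (2 * J), ∫⁻ a in Set.Ico a0 (a0 + 1), chi ρ (Real.exp (a + φ t)) ≤ ENNReal.ofReal (30 * ρ) := by
        intro t ht
        exact near_vol (hY _ ⟨ht.1.le, by linarith [ht.2]⟩) hρ hρ1
      refine (setLIntegral_mono' measurableSet_Ioc h4).trans (le_of_eq ?_)
      rw [lintegral_const, Measure.restrict_apply MeasurableSet.univ, Set.univ_inter, Real.volume_Ioc,
        ← ENNReal.ofReal_mul (by positivity)]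
      congr 1
      ring
    · refine Measurable.aemeasurable ?_
      exact (chi_measurable ρ).comp (Real.measurable_exp.comp (measurable_fst.add (hφ.comp measurable_snd)))
  refine (add_le_add h1 h3).trans (le_of_eq ?_)
  rw [← ENNReal.ofReal_add (by positivity) (by positivity)]
  congr 1
  ring

end Pool.Agent.N798.M
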