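import Pool.Agent.N798.M8
import Pool.Agent.N798.M10
import Pool.Agent.N798.M11

set_option autoImplicit false

/-! The exceptional parameters have dimension less than one. -/

namespace Pool.Agent.N798.M

open Finset MeasureTheory Filter
open scoped ENNReal NNReal

variable {k : ℕ}

lemma gp_top {γ : ℝ} (hγ : 0 < γ) {c : Fin k → ℝ} (hc : ∀ i, c i < γ) (b : Fin k → ℝ) : Tendsto (gp γ c b) atTop atTop := by
  have h1 : Tendsto (fun u : ℝ => (gp γ c b u / u ^ γ) * u ^ γ) atTop atTop :=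
    (gp_ratio hc b).pos_mul_atTop one_pos (tendsto_rpow_atTop hγ)
  refine h1.congr' ?_
  filter_upwards [eventually_gt_atTop 0] with u hu
  have h3 : 0 < u ^ γ := Real.rpow_pos_of_pos hu _
  rw [div_mul_cancel₀ _ h3.ne']

lemma Nc_measurable {φ : ℝ → ℝ} (hφ : Measurable φ) (ρ : ℝ) (J : ℕ) : Measurable (Nc ρ φ J) := by
  unfold Nc
  refine Measurable.add (Finset.measurable_sum _ fun n _ => ?_) ?_
  · exact (chi_measurable ρ).comp (Real.measurable_exp.comp (measurable_id.add_const _))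
  · have hm : Measurable (Function.uncurry fun (a t : ℝ) => chi ρ (Real.exp (a + φ t))) :=
      (chi_measurable ρ).comp (Real.measurable_exp.comp (measurable_fst.add (hφ.comp measurable_snd)))
    exact hm.lintegral_prod_right'

theorem prefix_dim {γ : ℝ} (hγ : 0 < γ) : ∃ τ : ℝ, 0 < τ ∧ τ ≤ 1 / 2 ∧ ∃ s : ℝ≥0, (s:ℝ) < 1 ∧
    ∀ (q : ℕ), 4 / τ ≤ q → ∀ (k : ℕ) (c : Fin k → ℝ), (∀ i, c i < γ) →
    ∀ (b : Fin k → ℝ) (f : ℤ → ℂ), (∀ ε : ℝ, 0 < ε → ∃ C : ℝ, ∀ m : ℤ, ‖f m‖ ≤ C * (1 + |(m:ℝ)|) ^ ε) → ∀ (a0 : ℝ),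
    dimH {a | a ∈ Set.Ico a0 (a0 + 1) ∧ ¬ ∀ᶠ n : ℕ in atTop, ∀ j ≤ 2 ^ (n / q),
      ‖Blk (fun m : ℕ => f m) (fun t => Real.log (gp γ c b t)) ((2 ^ n : ℕ) : ℝ) (j * 2 ^ (n - n / q)) a‖ ≤ ((2:ℝ) ^ n) ^ (1 - τ / 2)} ≤ s := by
  obtain ⟨τ, hτ, hτ2, hblk⟩ := gp_block hγ
  have hγ1 : 0 < γ + 1 := by linarith
  have hd0 : 0 < τ / (8 * (γ + 1)) := by positivity
  have hd1 : τ / (8 * (γ + 1)) ≤ 1 / 2 := by
    rw [div_le_iff₀ (by positivity)]
    nlinarith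
  set s : ℝ≥0 := ⟨1 - τ / (8 * (γ + 1)), by linarith⟩ with hs
  have hsr : (s:ℝ) = 1 - τ / (8 * (γ + 1)) := rfl
  refine ⟨τ, hτ, hτ2, s, by rw [hsr]; linarith, fun q hq k c hc b f hf a0 => ?_⟩
  obtain ⟨C0, hC0, J0, hJ0, hb⟩ := hblk k c hc b a0
  obtain ⟨C1, hC1, hg⟩ := growth hf hC0 hγ (show 0 < τ / 8 by positivity)
  have hq0 : 0 < q := by
    rcases Nat.eq_zero_or_pos q with h | h
    · rw [h] at hq
      have : 0 < 4 / τ := by positivity
      simp at hq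
      linarith
    · exact h
  set φ : ℝ → ℝ := fun t => Real.log (gp γ c b t) with hφ
  have hφm : Measurable φ := Real.measurable_log.comp (gp_measurable γ c b)
  set nn : ℕ → ℕ := fun n => ⌈2 * C0 * ((2:ℝ) ^ n) ^ (γ + τ)⌉₊ + 1 with hnn
  have hnn1 : ∀ n, 1 ≤ nn n := fun n => Nat.le_add_left _ _
  have hnnmono : Monotone nn := by
    intro m n hmn
    simp only [hnn]
    have h1 : (2:ℝ) ^ m ≤ (2:ℝ) ^ n := pow_le_pow_right₀ (by norm_num) hmn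
    have h2 : ⌈2 * C0 * ((2:ℝ) ^ m) ^ (γ + τ)⌉₊ ≤ ⌈2 * C0 * ((2:ℝ) ^ n) ^ (γ + τ)⌉₊ := by
      refine Nat.ceil_mono ?_
      have : ((2:ℝ) ^ m) ^ (γ + τ) ≤ ((2:ℝ) ^ n) ^ (γ + τ) := Real.rpow_le_rpow (by positivity) h1 (by linarith)
      gcongr
    omega
  have h2top : Tendsto (fun n : ℕ => (2:ℝ) ^ n) atTop atTop := tendsto_pow_atTop_atTop_of_one_lt (by norm_num)
  have hnntop : Tendsto nn atTop atTop := by
    have h1 : Tendsto (fun n : ℕ => 2 * C0 * ((2:ℝ) ^ n) ^ (γ + τ)) atTop atTop :=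
      ((tendsto_rpow_atTop (by linarith : 0 < γ + τ)).comp h2top).const_mul_atTop (by positivity)
    have h2 : Tendsto (fun n : ℕ => ⌈2 * C0 * ((2:ℝ) ^ n) ^ (γ + τ)⌉₊) atTop atTop := tendsto_nat_ceil_atTop.comp h1
    exact tendsto_atTop_mono (fun n => Nat.le_succ _) h2
  set E : ℕ → Set ℝ := fun n => {a | ENNReal.ofReal (((2:ℝ) ^ n) ^ (1 - 3 * τ / 4)) < Nc (((2:ℝ) ^ n) ^ (-τ) / 2) φ (2 ^ n) a} ∪
    {a | ∃ j ≤ 2 ^ (n / q), ((2:ℝ) ^ n) ^ (1 - τ / 2) < ‖Blk (fun m : ℕ => f m) φ ((2 ^ n : ℕ) : ℝ) (j * 2 ^ (n - n / q)) a‖} with hE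
  set E' : ℕ → Set ℝ := fun n => {a | ENNReal.ofReal (((2:ℝ) ^ n) ^ (1 - 3 * τ / 4)) < Nc (((2:ℝ) ^ n) ^ (-τ)) φ (2 ^ n) a} ∪
    {a | ∃ j ≤ 2 ^ (n / q), ((2:ℝ) ^ n) ^ (1 - τ / 2) / 2 < ‖Blk (fun m : ℕ => f m) φ ((2 ^ n : ℕ) : ℝ) (j * 2 ^ (n - n / q)) a‖} with hE'
  -- eventual conditions
  have hevJ : ∀ᶠ n : ℕ in atTop, J0 ≤ 2 ^ n :=
    (tendsto_pow_atTop_atTop_of_one_lt (by norm_num : 1 < 2)).eventually (eventually_ge_atTop J0)
  have hevC : ∀ᶠ n : ℕ in atTop, 4 * C1 ≤ ((2:ℝ) ^ n) ^ (τ / 8) :=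
    ((tendsto_rpow_atTop (by positivity : 0 < τ / 8)).comp h2top).eventually_ge_atTop _
  have hevρ : ∀ᶠ n : ℕ in atTop, ((2:ℝ) ^ n) ^ (-τ) ≤ 1 / 4 :=
    ((tendsto_rpow_neg_atTop hτ).comp h2top).eventually (ge_mem_nhds (by norm_num))
  have hevY : ∀ᶠ n : ℕ in atTop, ∀ t, (2:ℝ) ^ n ≤ t → 1 ≤ Real.exp a0 * gp γ c b t := by
    have h1 : ∀ᶠ u : ℝ in atTop, ∀ t, u ≤ t → 1 ≤ Real.exp a0 * gp γ c b t := by
      obtain ⟨u1, hu1⟩ := eventually_atTop.mp (((gp_top hγ hc b).const_mul_atTop (Real.exp_pos a0)).eventually_ge_atTop 1)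
      filter_upwards [eventually_ge_atTop u1] with u hu t ht
      exact hu1 t (hu.trans ht)
    exact h2top.eventually h1
  have hBlk : ∀ᶠ n : ℕ in atTop, (∀ t ∈ Set.Icc ((2 ^ n : ℕ):ℝ) (3 * (2 ^ n : ℕ)), Real.exp (a0 + 1 + φ t) ≤ C0 * ((2:ℝ) ^ n) ^ γ) ∧
      (∀ t ∈ Set.Icc ((2 ^ n : ℕ):ℝ) (3 * (2 ^ n : ℕ)), 1 ≤ Real.exp (a0 + φ t)) := by
    filter_upwards [hevJ, hevY] with n h1 h2
    have hcast : ((2 ^ n : ℕ) : ℝ) = (2:ℝ) ^ n := by push_cast; rfl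
    obtain ⟨g1, -⟩ := hb (2 ^ n) h1
    refine ⟨fun t ht => ?_, fun t ht => ?_⟩
    · have := g1 t ht
      rw [hcast] at this
      simp only [hφ]
      rw [Real.exp_add (a0 + 1), Real.exp_log this.1]
      exact this.2
    · have hp := (g1 t ht).1
      simp only [hφ]
      rw [Real.exp_add, Real.exp_log hp]
      refine h2 t ?_
      rw [← hcast]
      exact ht.1
  have hsub : {a | a ∈ Set.Ico a0 (a0 + 1) ∧ ¬ ∀ᶠ n : ℕ in atTop, ∀ j ≤ 2 ^ (n / q),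
      ‖Blk (fun m : ℕ => f m) φ ((2 ^ n : ℕ) : ℝ) (j * 2 ^ (n - n / q)) a‖ ≤ ((2:ℝ) ^ n) ^ (1 - τ / 2)} ⊆
      {a | a ∈ Set.Ico a0 (a0 + 1) ∧ ∃ᶠ n in atTop, a ∈ E n} := by
    rintro a ⟨ha1, ha2⟩
    refine ⟨ha1, ?_⟩
    rw [not_eventually] at ha2
    refine ha2.mono fun n hn => ?_
    push Not at hn
    exact Or.inr hn
  refine (dimH_mono hsub).trans ?_
  refine dim_limsup (E := E) (E' := E') (n := nn) (g := fun n => (60 + 8 * C0 * C1 ^ 2) * ((2:ℝ) ^ n) ^ (-(τ / 4))) hnn1 hnnmono hnntop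
    (by rw [← NNReal.coe_pos, hsr]; linarith) ?_ ?_ ?_
  · -- stability
    filter_upwards [hevJ, hevC, hBlk] with n hn1 hn2 hn3 a ha a' ha' haa haE
    obtain ⟨hB, -⟩ := hn3
    have hJ1n : 1 ≤ 2 ^ n := hJ0.trans hn1
    have hcast : ((2 ^ n : ℕ) : ℝ) = (2:ℝ) ^ n := by push_cast; rfl
    set J : ℝ := (2:ℝ) ^ n with hJ
    have hJr : 1 ≤ J := by rw [← hcast]; exact_mod_cast hJ1n
    have hJp : 0 < J := by linarith
    have hδ : C0 * J ^ γ * (1 / (nn n : ℝ)) ≤ J ^ (-τ) / 2 := by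
      have h1 : 2 * C0 * J ^ (γ + τ) ≤ nn n := by
        simp only [hnn]
        push_cast
        have := Nat.le_ceil (2 * C0 * J ^ (γ + τ))
        linarith
      have h2 : 0 < 2 * C0 * J ^ (γ + τ) := by positivity
      have h3 : C0 * J ^ γ * (1 / (nn n : ℝ)) ≤ C0 * J ^ γ * (1 / (2 * C0 * J ^ (γ + τ))) := by gcongr
      refine h3.trans (le_of_eq ?_)
      rw [Real.rpow_add hJp, Real.rpow_neg hJp.le]
      field_simp
    have hF : ∀ m : ℕ, (m:ℝ) ≤ C0 * J ^ γ → ‖f m‖ ≤ C1 * J ^ (τ / 8) := by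
      intro m hm
      have := hg (2 ^ n) hJ1n m (by rw [hcast]; exact hm)
      rwa [hcast] at this
    by_cases hN : ENNReal.ofReal (J ^ (1 - 3 * τ / 4)) < Nc (J ^ (-τ) / 2) φ (2 ^ n) a
    · exact Or.inl (hN.trans_le (Nc_mono (a0 := a0) hB hδ ha.2.le ha'.2.le haa))
    · rcases haE with h | h
      · exact absurd h hN
      · obtain ⟨j, hj, hjB⟩ := h
        refine Or.inr ⟨j, hj, ?_⟩
        have hL : j * 2 ^ (n - n / q) ≤ 2 ^ n := by
          calc j * 2 ^ (n - n / q) ≤ 2 ^ (n / q) * 2 ^ (n - n / q) := Nat.mul_le_mul_right _ hj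
            _ = 2 ^ n := by rw [← pow_add, Nat.add_sub_cancel' (Nat.div_le_self n q)]
        have hv := Blk_var (f := fun m : ℕ => f m) (F := C1 * J ^ (τ / 8)) hφm (by positivity) hF (a0 := a0) hB hδ ha.2.le ha'.2.le haa hL
        have hv2 : ‖Blk (fun m : ℕ => f m) φ ((2 ^ n : ℕ) : ℝ) (j * 2 ^ (n - n / q)) a' - Blk (fun m : ℕ => f m) φ ((2 ^ n : ℕ) : ℝ) (j * 2 ^ (n - n / q)) a‖ ≤
            2 * (C1 * J ^ (τ / 8)) * J ^ (1 - 3 * τ / 4) := by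
          have h3 := hv.trans (mul_le_mul_right (not_lt.mp hN) (ENNReal.ofReal (2 * (C1 * J ^ (τ / 8)))))
          rw [← ENNReal.ofReal_mul (by positivity), ← ofReal_norm] at h3
          exact (ENNReal.ofReal_le_ofReal_iff (by positivity)).mp h3
        have hv3 : 2 * (C1 * J ^ (τ / 8)) * J ^ (1 - 3 * τ / 4) ≤ J ^ (1 - τ / 2) / 2 := by
          have e1 : J ^ (1 - τ / 2) = J ^ (τ / 8) * (J ^ (τ / 8) * J ^ (1 - 3 * τ / 4)) := by
            rw [← Real.rpow_add hJp, ← Real.rpow_add hJp]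
            congr 1
            ring
          rw [e1]
          have e2 : 0 < J ^ (τ / 8) * J ^ (1 - 3 * τ / 4) := by positivity
          nlinarith
        have hv4 := norm_sub_norm_le (Blk (fun m : ℕ => f m) φ ((2 ^ n : ℕ) : ℝ) (j * 2 ^ (n - n / q)) a)
          (Blk (fun m : ℕ => f m) φ ((2 ^ n : ℕ) : ℝ) (j * 2 ^ (n - n / q)) a')
        rw [norm_sub_rev] at hv4
        linarith
  · -- measure
    filter_upwards [hevJ, hevρ, hBlk] with n hn1 hn2 hn3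
    obtain ⟨-, hY⟩ := hn3
    obtain ⟨-, hb2⟩ := hb (2 ^ n) hn1
    have hJ1n : 1 ≤ 2 ^ n := hJ0.trans hn1
    have hcast : ((2 ^ n : ℕ) : ℝ) = (2:ℝ) ^ n := by push_cast; rfl
    set J : ℝ := (2:ℝ) ^ n with hJ
    have hJr : 1 ≤ J := by rw [← hcast]; exact_mod_cast hJ1n
    have hJp : 0 < J := by linarith
    have hρ0 : 0 < J ^ (-τ) := by positivity
    set μ := volume.restrict (Set.Ico a0 (a0 + 1)) with hμ
    have hpart1 : μ {a | ENNReal.ofReal (J ^ (1 - 3 * τ / 4)) < Nc (J ^ (-τ)) φ (2 ^ n) a} ≤ ENNReal.ofReal (60 * J ^ (-(τ / 4))) := by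
      have h1 := Nc_mean hφm hY hρ0 hn2
      have h2 := meas_ge_le_lintegral_div (μ := μ) (f := Nc (J ^ (-τ)) φ (2 ^ n)) (Nc_measurable hφm _ _).aemeasurable
        (ε := ENNReal.ofReal (J ^ (1 - 3 * τ / 4))) (by rw [ne_eq, ENNReal.ofReal_eq_zero, not_le]; positivity) ENNReal.ofReal_ne_top
      have h3 : μ {a | ENNReal.ofReal (J ^ (1 - 3 * τ / 4)) < Nc (J ^ (-τ)) φ (2 ^ n) a} ≤
          μ {a | ENNReal.ofReal (J ^ (1 - 3 * τ / 4)) ≤ Nc (J ^ (-τ)) φ (2 ^ n) a} :=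
        measure_mono (Set.ofPred_subset_ofPred.mpr fun a ha => le_of_lt ha)
      refine h3.trans (h2.trans ?_)
      refine (ENNReal.div_le_div_right h1 _).trans ?_
      rw [← ENNReal.ofReal_div_of_pos (by positivity)]
      refine ENNReal.ofReal_le_ofReal (le_of_eq ?_)
      rw [hcast, div_eq_iff (by positivity), mul_assoc 60 (J ^ (-(τ / 4))), ← Real.rpow_add hJp, mul_assoc]
      congr 1
      nth_rewrite 2 [← Real.rpow_one J]
      rw [← Real.rpow_add hJp]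
      congr 1
      ring
    have hpart2 : μ {a | ∃ j ≤ 2 ^ (n / q), J ^ (1 - τ / 2) / 2 < ‖Blk (fun m : ℕ => f m) φ ((2 ^ n : ℕ) : ℝ) (j * 2 ^ (n - n / q)) a‖} ≤
        ENNReal.ofReal (8 * C0 * C1 ^ 2 * J ^ (-(τ / 4))) := by
      have hterm : ∀ j ∈ range (2 ^ (n / q) + 1), μ {a | J ^ (1 - τ / 2) / 2 < ‖Blk (fun m : ℕ => f m) φ ((2 ^ n : ℕ) : ℝ) (j * 2 ^ (n - n / q)) a‖} ≤
          ENNReal.ofReal (4 * C0 * C1 ^ 2 * J ^ (-(3 * τ / 4))) := by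
        intro j hj
        rw [mem_range, Nat.lt_succ_iff] at hj
        have hL : j * 2 ^ (n - n / q) ≤ 2 ^ n := by
          calc j * 2 ^ (n - n / q) ≤ 2 ^ (n / q) * 2 ^ (n - n / q) := Nat.mul_le_mul_right _ hj
            _ = 2 ^ n := by rw [← pow_add, Nat.add_sub_cancel' (Nat.div_le_self n q)]
        have h1 := hb2 (fun m : ℕ => f m) (C1 * J ^ (τ / 8)) (by positivity) (fun m hm => by
          have := hg (2 ^ n) hJ1n m hm
          rwa [hcast] at this) _ hL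
        have h1' : ∫⁻ a, ‖Blk (fun m : ℕ => f m) φ ((2 ^ n : ℕ) : ℝ) (j * 2 ^ (n - n / q)) a‖ₑ ^ 2 ∂μ ≤
            ENNReal.ofReal (C0 * (C1 * J ^ (τ / 8)) ^ 2 * ((2 ^ n : ℕ) : ℝ) ^ (2 - 2 * τ)) :=
          (lintegral_mono_set Set.Ico_subset_Icc_self).trans h1
        have h2 := meas_ge_le_lintegral_div (μ := μ) (f := fun a => ‖Blk (fun m : ℕ => f m) φ ((2 ^ n : ℕ) : ℝ) (j * 2 ^ (n - n / q)) a‖ₑ ^ 2)
          ((blk_measurable _ hφm _ _).enorm.pow_const 2).aemeasurable (ε := ENNReal.ofReal ((J ^ (1 - τ / 2) / 2) ^ 2))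
          (by rw [ne_eq, ENNReal.ofReal_eq_zero, not_le]; positivity) ENNReal.ofReal_ne_top
        refine (measure_mono ?_).trans (h2.trans ?_)
        · intro a ha
          show ENNReal.ofReal ((J ^ (1 - τ / 2) / 2) ^ 2) ≤ ‖Blk (fun m : ℕ => f m) φ ((2 ^ n : ℕ) : ℝ) (j * 2 ^ (n - n / q)) a‖ₑ ^ 2
          rw [← ofReal_norm, ← ENNReal.ofReal_pow (norm_nonneg _)]
          have ha' : J ^ (1 - τ / 2) / 2 < ‖Blk (fun m : ℕ => f m) φ ((2 ^ n : ℕ) : ℝ) (j * 2 ^ (n - n / q)) a‖ := ha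
          exact ENNReal.ofReal_le_ofReal (pow_le_pow_left₀ (by positivity) ha'.le 2)
        refine (ENNReal.div_le_div_right h1' _).trans ?_
        rw [← ENNReal.ofReal_div_of_pos (by positivity)]
        refine ENNReal.ofReal_le_ofReal (le_of_eq ?_)
        rw [hcast, div_eq_iff (by positivity)]
        have p1 : (C1 * J ^ (τ / 8)) ^ 2 = C1 ^ 2 * J ^ (τ / 4) := by
          rw [mul_pow, ← Real.rpow_natCast (J ^ (τ / 8)), ← Real.rpow_mul hJp.le]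
          congr 2
          push_cast; ring
        have p2 : (J ^ (1 - τ / 2) / 2) ^ 2 = J ^ (2 - τ) / 4 := by
          rw [div_pow, ← Real.rpow_natCast (J ^ (1 - τ / 2)), ← Real.rpow_mul hJp.le]
          norm_num
          congr 1
          ring
        rw [p1, p2]
        rw [show C0 * (C1 ^ 2 * J ^ (τ / 4)) * J ^ (2 - 2 * τ) = C0 * C1 ^ 2 * (J ^ (τ / 4) * J ^ (2 - 2 * τ)) by ring,
          ← Real.rpow_add hJp, show 4 * C0 * C1 ^ 2 * J ^ (-(3 * τ / 4)) * (J ^ (2 - τ) / 4) = C0 * C1 ^ 2 * (J ^ (-(3 * τ / 4)) * J ^ (2 - τ)) by ring,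
          ← Real.rpow_add hJp]
        congr 2
        ring
      calc μ {a | ∃ j ≤ 2 ^ (n / q), J ^ (1 - τ / 2) / 2 < ‖Blk (fun m : ℕ => f m) φ ((2 ^ n : ℕ) : ℝ) (j * 2 ^ (n - n / q)) a‖}
          ≤ μ (⋃ j ∈ range (2 ^ (n / q) + 1), {a | J ^ (1 - τ / 2) / 2 < ‖Blk (fun m : ℕ => f m) φ ((2 ^ n : ℕ) : ℝ) (j * 2 ^ (n - n / q)) a‖}) := by
            refine measure_mono ?_
            rintro a ⟨j, hj, hja⟩
            simp only [Set.mem_iUnion, mem_range]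
            exact ⟨j, by omega, hja⟩
        _ ≤ ∑ j ∈ range (2 ^ (n / q) + 1), μ {a | J ^ (1 - τ / 2) / 2 < ‖Blk (fun m : ℕ => f m) φ ((2 ^ n : ℕ) : ℝ) (j * 2 ^ (n - n / q)) a‖} :=
            measure_biUnion_finset_le _ _
        _ ≤ ∑ j ∈ range (2 ^ (n / q) + 1), ENNReal.ofReal (4 * C0 * C1 ^ 2 * J ^ (-(3 * τ / 4))) := sum_le_sum hterm
        _ = ENNReal.ofReal ((2 ^ (n / q) + 1 : ℕ) * (4 * C0 * C1 ^ 2 * J ^ (-(3 * τ / 4)))) := by
            rw [sum_const, card_range, nsmul_eq_mul, ENNReal.ofReal_mul (Nat.cast_nonneg _), ENNReal.ofReal_natCast]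
        _ ≤ _ := by
            refine ENNReal.ofReal_le_ofReal ?_
            have r1 : (((2 ^ (n / q) + 1 : ℕ)) : ℝ) ≤ 2 * J ^ (τ / 4) := by
              push_cast
              have r2 : (2:ℝ) ^ (n / q) ≤ J ^ (τ / 4) := by
                rw [hJ, ← Real.rpow_natCast, ← Real.rpow_natCast, ← Real.rpow_mul (by norm_num)]
                refine Real.rpow_le_rpow_of_exponent_le (by norm_num) ?_
                have r3 : ((n / q : ℕ) : ℝ) ≤ (n:ℝ) / q := Nat.cast_div_le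
                refine r3.trans ?_
                rw [div_eq_mul_inv]
                refine mul_le_mul_of_nonneg_left ?_ (Nat.cast_nonneg n)
                have hq1 : (0:ℝ) < q := by exact_mod_cast hq0
                rw [inv_le_comm₀ hq1 (by positivity), inv_div]
                exact hq
              have r4 : 1 ≤ J ^ (τ / 4) := Real.one_le_rpow hJr (by positivity)
              linarith
            have r5 : J ^ (-(τ / 2)) ≤ J ^ (-(τ / 4)) := Real.rpow_le_rpow_of_exponent_le hJr (by linarith)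
            calc ((2 ^ (n / q) + 1 : ℕ) : ℝ) * (4 * C0 * C1 ^ 2 * J ^ (-(3 * τ / 4))) ≤ 2 * J ^ (τ / 4) * (4 * C0 * C1 ^ 2 * J ^ (-(3 * τ / 4))) := by
                  gcongr
              _ = 8 * C0 * C1 ^ 2 * (J ^ (τ / 4) * J ^ (-(3 * τ / 4))) := by ring
              _ = 8 * C0 * C1 ^ 2 * J ^ (-(τ / 2)) := by
                  rw [← Real.rpow_add hJp]
                  congr 2
                  ring
              _ ≤ _ := by gcongr
    have hvol : volume (E' n ∩ Set.Ico a0 (a0 + 1)) ≤ μ (E' n) := by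
      rw [hμ]
      exact Measure.le_restrict_apply _ _
    refine hvol.trans ?_
    refine (measure_union_le _ _).trans ?_
    refine (add_le_add hpart1 hpart2).trans (le_of_eq ?_)
    rw [← ENNReal.ofReal_add (by positivity) (by positivity)]
    congr 1
    ring
  · -- summability
    have hsum := (geo_summable (show 0 < τ / 8 by positivity)).mul_left ((60 + 8 * C0 * C1 ^ 2) * (2 * C0 + 2) ^ (1 - (s:ℝ)))
    have h1s : 0 < 1 - (s:ℝ) := by rw [hsr]; linarith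
    refine Summable.of_nonneg_of_le (fun n => by positivity) (fun n => ?_) hsum
    set J : ℝ := (2:ℝ) ^ n with hJ
    have hJr : 1 ≤ J := one_le_pow₀ (by norm_num)
    have hJp : 0 < J := by linarith
    have h1 : (nn n : ℝ) ≤ (2 * C0 + 2) * J ^ (γ + 1) := by
      simp only [hnn]
      push_cast
      have h2 := Nat.ceil_lt_add_one (show 0 ≤ 2 * C0 * J ^ (γ + τ) by positivity)
      have h3 : J ^ (γ + τ) ≤ J ^ (γ + 1) := Real.rpow_le_rpow_of_exponent_le hJr (by linarith)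
      have h4 : 1 ≤ J ^ (γ + 1) := Real.one_le_rpow hJr (by linarith)
      nlinarith
    have h5 : (nn n : ℝ) ^ (1 - (s:ℝ)) ≤ (2 * C0 + 2) ^ (1 - (s:ℝ)) * J ^ (τ / 8) := by
      refine (Real.rpow_le_rpow (Nat.cast_nonneg _) h1 h1s.le).trans (le_of_eq ?_)
      rw [Real.mul_rpow (by positivity) (by positivity), ← Real.rpow_mul hJp.le]
      congr 2
      rw [hsr]
      field_simp
      ring
    calc (60 + 8 * C0 * C1 ^ 2) * J ^ (-(τ / 4)) * (nn n : ℝ) ^ (1 - (s:ℝ))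
        ≤ (60 + 8 * C0 * C1 ^ 2) * J ^ (-(τ / 4)) * ((2 * C0 + 2) ^ (1 - (s:ℝ)) * J ^ (τ / 8)) := by gcongr
      _ = (60 + 8 * C0 * C1 ^ 2) * (2 * C0 + 2) ^ (1 - (s:ℝ)) * (J ^ (-(τ / 4)) * J ^ (τ / 8)) := by ring
      _ = _ := by
          rw [← Real.rpow_add hJp]
          congr 2
          ring

end Pool.Agent.N798.M
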