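import Pool.Agent.N798.M9
import Pool.Agent.N798.M12

set_option autoImplicit false

/-! The exceptional multiples have dimension less than one. -/

namespace Pool.Agent.N798.M

open Finset MeasureTheory Filter
open scoped ENNReal NNReal

/-- dimension of the exceptional set, in the parameter `a` -/
theorem err_dim {γ : ℝ} (hγ : 0 < γ) : ∃ δ : ℝ, 0 < δ ∧ δ < 1 ∧ ∃ s : ℝ≥0, (s:ℝ) < 1 ∧ ∀ (k : ℕ) (c : Fin k → ℝ), (∀ i, c i < γ) →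
    ∀ (b : Fin k → ℝ) (f : ℤ → ℂ), (∀ ε : ℝ, 0 < ε → ∃ C : ℝ, ∀ m : ℤ, ‖f m‖ ≤ C * (1 + |(m:ℝ)|) ^ ε) →
    dimH {a : ℝ | ¬ ∃ C : ℝ, ∀ N : ℕ, 1 ≤ N → ‖Err (smp f γ c b a) N‖ ≤ C * (N:ℝ) ^ (1 - δ)} ≤ s := by
  obtain ⟨τ, hτ, hτ2, s, hs, hpre⟩ := prefix_dim hγ
  set q : ℕ := ⌈4 / τ⌉₊ with hq
  have hqle : 4 / τ ≤ q := Nat.le_ceil _
  have hq8 : (8:ℝ) ≤ q := by
    refine le_trans ?_ hqle
    rw [le_div_iff₀ hτ]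
    linarith
  have hq0 : (0:ℝ) < q := by linarith
  refine ⟨min (τ / 2) (1 / (2 * (q:ℝ))), lt_min (by positivity) (by positivity), (min_le_left _ _).trans_lt (by linarith), s, hs,
    fun k c hc b f hf => ?_⟩
  have hsub : {a : ℝ | ¬ ∃ C : ℝ, ∀ N : ℕ, 1 ≤ N → ‖Err (smp f γ c b a) N‖ ≤ C * (N:ℝ) ^ (1 - min (τ / 2) (1 / (2 * (q:ℝ))))} ⊆
      ⋃ m : ℤ, {a | a ∈ Set.Ico (m:ℝ) (m + 1) ∧ ¬ ∀ᶠ n : ℕ in atTop, ∀ j ≤ 2 ^ (n / q),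
        ‖Blk (fun m : ℕ => f m) (fun t => Real.log (gp γ c b t)) ((2 ^ n : ℕ) : ℝ) (j * 2 ^ (n - n / q)) a‖ ≤ ((2:ℝ) ^ n) ^ (1 - τ / 2)} := by
    intro a ha
    rw [Set.mem_iUnion]
    refine ⟨⌊a⌋, ⟨Int.floor_le a, Int.lt_floor_add_one a⟩, fun hcon => ?_⟩
    exact ha (err_of_prefix hγ hτ hτ2 hqle hc b hf (a0 := ⌊a⌋) ⟨Int.floor_le a, (Int.lt_floor_add_one a).le⟩ hcon)
  refine (dimH_mono hsub).trans ?_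
  rw [dimH_iUnion]
  exact iSup_le fun m => hpre q hqle k c hc b f hf m

/-- dimension of the exceptional set, in the parameter `α` -/
theorem alpha_dim {γ : ℝ} (hγ : 0 < γ) : ∃ δ : ℝ, 0 < δ ∧ ∃ s : ℝ≥0, (s:ℝ) < 1 ∧ ∀ (A : ℝ) (k : ℕ) (b c : Fin k → ℝ), 0 < A →
    (∀ i, c i < γ) → ∀ f : ℤ → ℂ, (∀ ε : ℝ, 0 < ε → ∃ C : ℝ, ∀ m : ℤ, ‖f m‖ ≤ C * (1 + |(m:ℝ)|) ^ ε) →
    dimH {α : ℝ | 0 < α ∧ ¬ ∃ C : ℝ, ∀ N : ℕ, 1 ≤ N →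
      ‖(∑ n ∈ Icc 1 N, f ⌊α * (A * (n:ℝ) ^ γ + ∑ i, b i * (n:ℝ) ^ c i)⌋) - ∫ u in (1:ℝ)..N, f ⌊α * (A * u ^ γ + ∑ i, b i * u ^ c i)⌋‖ ≤
      C * (N:ℝ) ^ (1 - δ)} ≤ s := by
  obtain ⟨δ, hδ, hδ1, s, hs, h⟩ := err_dim hγ
  refine ⟨δ, hδ, s, hs, fun A k b c hA hc f hf => ?_⟩
  have h1 := h k c hc (fun i => b i / A) f hf
  set Z : Set ℝ := {a : ℝ | ¬ ∃ C : ℝ, ∀ N : ℕ, 1 ≤ N → ‖Err (smp f γ c (fun i => b i / A) a) N‖ ≤ C * (N:ℝ) ^ (1 - δ)} with hZ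
  have hsub : {α : ℝ | 0 < α ∧ ¬ ∃ C : ℝ, ∀ N : ℕ, 1 ≤ N →
      ‖(∑ n ∈ Icc 1 N, f ⌊α * (A * (n:ℝ) ^ γ + ∑ i, b i * (n:ℝ) ^ c i)⌋) - ∫ u in (1:ℝ)..N, f ⌊α * (A * u ^ γ + ∑ i, b i * u ^ c i)⌋‖ ≤
      C * (N:ℝ) ^ (1 - δ)} ⊆ (fun z : ℝ => Real.exp (z - Real.log A)) '' Z := by
    rintro α ⟨hα, hbad⟩
    refine ⟨Real.log α + Real.log A, ?_, ?_⟩
    · intro hcon
      exact hbad (alpha_of_err hγ hδ1 hA hc hf hα hcon)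
    · beta_reduce
      rw [add_sub_cancel_right, Real.exp_log hα]
  refine (dimH_mono hsub).trans (le_trans ?_ h1)
  have hcd : ContDiff ℝ 1 (fun z : ℝ => Real.exp (z - Real.log A)) := by fun_prop
  exact hcd.contDiffOn.dimH_image_le convex_univ (Set.subset_univ _)

/-- dimension of the exceptional set for the primes -/
theorem primes_dim {γ : ℝ} (hγ : 0 < γ) : ∃ s : ℝ≥0, (s:ℝ) < 1 ∧ ∀ (A : ℝ) (k : ℕ) (b c : Fin k → ℝ), 0 < A →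
    (∀ i, c i < γ) →
    dimH {α : ℝ | 0 < α ∧ ¬ Tendsto (fun N : ℕ => ((#((Icc 1 N).filter fun n : ℕ => (⌊α * (A * (n:ℝ) ^ γ + ∑ i, b i * (n:ℝ) ^ c i)⌋₊).Prime) : ℕ) : ℝ) /
      (N / (γ * Real.log N))) atTop (nhds 1)} ≤ s := by
  obtain ⟨δ, hδ, s, hs, h⟩ := alpha_dim hγ
  refine ⟨s, hs, fun A k b c hA hc => ?_⟩
  refine (dimH_mono ?_).trans (h A k b c hA hc fP fP_small)
  rintro α ⟨hα, hbad⟩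
  exact ⟨hα, fun hcon => hbad (primes_of_err hγ hδ hA hc hα hcon)⟩

end Pool.Agent.N798.M
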