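import Pool.Agent.N798.M1

set_option autoImplicit false

/-! The Fourier kernel of a block: van der Corput for the sum, first derivative test for the integral. -/

namespace Pool.Agent.N798.M

open Finset MeasureTheory Filter
open Pool.Agent.H469R2.NK (e norm_e)

lemma e_sub_le (x y : ℝ) : ‖e x - e y‖ ≤ 2 * Real.pi * |x - y| := by
  have h1 : e x - e y = e y * (Complex.exp (Complex.I * ((2 * Real.pi * (x - y) : ℝ) : ℂ)) - 1) := by
    unfold e
    rw [mul_sub, ← Complex.exp_add, mul_one]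
    congr 2
    push_cast
    ring
  rw [h1, norm_mul, norm_e, one_mul]
  refine (Real.norm_exp_I_mul_ofReal_sub_one_le).trans (le_of_eq ?_)
  rw [Real.norm_eq_abs, abs_mul, abs_of_pos (by positivity)]

lemma e_hasDeriv {φ : ℝ → ℝ} {φ' ξ t : ℝ} (h : HasDerivAt φ φ' t) :
    HasDerivAt (fun s => e (ξ * φ s)) (e (ξ * φ t) * (((2 * Real.pi * ξ * φ' : ℝ) : ℂ) * Complex.I)) t := by
  unfold e
  have h1 : HasDerivAt (fun s : ℝ => (((2 * Real.pi * (ξ * φ s) : ℝ) : ℂ)) * Complex.I)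
      (((2 * Real.pi * ξ * φ' : ℝ) : ℂ) * Complex.I) t := by
    have h2 : HasDerivAt (fun s => 2 * Real.pi * (ξ * φ s)) (2 * Real.pi * ξ * φ') t := by
      refine ((h.const_mul ξ).const_mul (2 * Real.pi)).congr_deriv ?_
      ring
    exact h2.ofReal_comp.mul_const _
  exact h1.cexp

/-- the kernel -/
noncomputable def Ker (φ : ℝ → ℝ) (u : ℝ) (L : ℕ) (ξ : ℝ) : ℂ :=
  (∑ n ∈ range L, e (ξ * φ (u + n))) - ∫ t in u..(u + L), e (ξ * φ t)

/-- the first derivative test -/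
lemma int_bound {φ : ℕ → ℝ → ℝ} {J c0 C0 u v ξ : ℝ} (hJ : 1 ≤ J) (hc0 : 0 < c0) (hC0 : 0 ≤ C0)
    (hder : ∀ m ≤ 2, ∀ t ∈ Set.Icc J (3 * J), HasDerivAt (φ m) (φ (m + 1) t) t)
    (h1 : ∀ t ∈ Set.Icc J (3 * J), c0 ≤ φ 1 t * J) (h2 : ∀ t ∈ Set.Icc J (3 * J), |φ 2 t| * J ^ 2 ≤ C0)
    (hu : J ≤ u) (huv : u ≤ v) (hv : v ≤ 3 * J) (hξ : 0 < |ξ|) :
    ‖∫ t in u..v, e (ξ * φ 0 t)‖ ≤ (2 / c0 + 2 * C0 / c0 ^ 2) * (J / |ξ|) := by
  have hJ0 : 0 < J := by linarith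
  have hsub : Set.uIcc u v ⊆ Set.Icc J (3 * J) := by
    rw [Set.uIcc_of_le huv]
    exact fun t ht => ⟨hu.trans ht.1, ht.2.trans hv⟩
  have hpos : ∀ t ∈ Set.Icc J (3 * J), 0 < φ 1 t := by
    intro t ht
    have := h1 t ht
    exact (pos_iff_pos_of_mul_pos (by linarith : 0 < φ 1 t * J)).mpr hJ0
  have hinv : ∀ t ∈ Set.Icc J (3 * J), (φ 1 t)⁻¹ ≤ J / c0 := by
    intro t ht
    have h3 := h1 t ht
    have h4 := hpos t ht
    rw [inv_eq_one_div, div_le_div_iff₀ h4 hc0]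
    linarith
  set G : ℝ → ℂ := fun t => e (ξ * φ 0 t) * (((φ 1 t)⁻¹ : ℝ) : ℂ) with hG
  set r : ℝ → ℂ := fun t => e (ξ * φ 0 t) * ((φ 2 t / φ 1 t ^ 2 : ℝ) : ℂ) with hr
  have hGd : ∀ t ∈ Set.uIcc u v, HasDerivAt G (e (ξ * φ 0 t) * (((2 * Real.pi * ξ : ℝ) : ℂ) * Complex.I) - r t) t := by
    intro t ht
    have ht' := hsub ht
    have d0 := e_hasDeriv (ξ := ξ) (hder 0 (by omega) t ht')
    have d1 : HasDerivAt (fun s => (((φ 1 s)⁻¹ : ℝ) : ℂ)) ((-(φ 2 t) / φ 1 t ^ 2 : ℝ) : ℂ) t := by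
      have := (hder 1 (by omega) t ht').inv (hpos t ht').ne'
      exact this.ofReal_comp
    refine (d0.mul d1).congr_deriv ?_
    have hp := (hpos t ht').ne'
    have hp' : ((φ 1 t : ℝ) : ℂ) ≠ 0 := by exact_mod_cast hp
    simp only [hr, zero_add]
    push_cast
    field_simp
    ring
  have hcφ : ∀ m ≤ 2, ContinuousOn (φ m) (Set.uIcc u v) := fun m hm t ht =>
    (hder m hm t (hsub ht)).continuousAt.continuousWithinAt
  have hce : ContinuousOn (fun t => e (ξ * φ 0 t)) (Set.uIcc u v) := by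
    intro t ht
    exact (e_hasDeriv (ξ := ξ) (hder 0 (by omega) t (hsub ht))).continuousAt.continuousWithinAt
  have hcr : ContinuousOn r (Set.uIcc u v) := by
    refine hce.mul (Complex.continuous_ofReal.comp_continuousOn ?_)
    refine (hcφ 2 le_rfl).div ((hcφ 1 (by omega)).pow 2) fun t ht => ?_
    exact pow_ne_zero _ (hpos t (hsub ht)).ne'
  have hc3 : ContinuousOn (fun t => e (ξ * φ 0 t) * (((2 * Real.pi * ξ : ℝ) : ℂ) * Complex.I)) (Set.uIcc u v) :=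
    hce.mul continuousOn_const
  have hFTC := intervalIntegral.integral_eq_sub_of_hasDerivAt hGd
    ((hc3.sub hcr).intervalIntegrable)
  rw [intervalIntegral.integral_sub hc3.intervalIntegrable hcr.intervalIntegrable,
    intervalIntegral.integral_mul_const] at hFTC
  have e1 : (∫ t in u..v, e (ξ * φ 0 t)) * (((2 * Real.pi * ξ : ℝ) : ℂ) * Complex.I) =
      G v - G u + ∫ t in u..v, r t := by rw [← hFTC]; ring
  have n1 : ∀ t ∈ Set.Icc J (3 * J), ‖G t‖ ≤ J / c0 := by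
    intro t ht
    simp only [hG]
    rw [norm_mul, norm_e, one_mul, Complex.norm_real, Real.norm_of_nonneg (inv_pos.mpr (hpos t ht)).le]
    exact hinv t ht
  have n2 : ‖∫ t in u..v, r t‖ ≤ C0 / c0 ^ 2 * (v - u) := by
    have := intervalIntegral.norm_integral_le_of_norm_le_const (a := u) (b := v) (f := r) (C := C0 / c0 ^ 2) (by
      intro t ht
      have ht' := hsub (Set.uIoc_subset_uIcc ht)
      simp only [hr]
      rw [norm_mul, norm_e, one_mul, Complex.norm_real, Real.norm_eq_abs, abs_div, abs_of_pos (pow_pos (hpos t ht') 2)]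
      have a1 := h2 t ht'
      have a2 := h1 t ht'
      have a3 := hpos t ht'
      rw [div_le_div_iff₀ (by positivity) (by positivity)]
      have a4 : c0 ^ 2 ≤ (φ 1 t * J) ^ 2 := pow_le_pow_left₀ hc0.le a2 2
      have a5 : 0 ≤ |φ 2 t| := abs_nonneg _
      calc |φ 2 t| * c0 ^ 2 ≤ |φ 2 t| * (φ 1 t * J) ^ 2 := mul_le_mul_of_nonneg_left a4 a5
        _ = (|φ 2 t| * J ^ 2) * φ 1 t ^ 2 := by ring
        _ ≤ C0 * φ 1 t ^ 2 := mul_le_mul_of_nonneg_right a1 (by positivity))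
    rwa [abs_of_nonneg (by linarith)] at this
  have n3 : ‖(∫ t in u..v, e (ξ * φ 0 t)) * (((2 * Real.pi * ξ : ℝ) : ℂ) * Complex.I)‖ =
      ‖∫ t in u..v, e (ξ * φ 0 t)‖ * (2 * Real.pi * |ξ|) := by
    rw [norm_mul, norm_mul, Complex.norm_I, mul_one, Complex.norm_real, Real.norm_eq_abs, abs_mul, abs_of_pos (by positivity)]
  have n4 : ‖∫ t in u..v, e (ξ * φ 0 t)‖ * (2 * Real.pi * |ξ|) ≤ J / c0 + J / c0 + C0 / c0 ^ 2 * (2 * J) := by
    rw [← n3, e1]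
    have b1 := n1 v ⟨hu.trans huv, hv⟩
    have b2 := n1 u ⟨hu, huv.trans hv⟩
    calc ‖G v - G u + ∫ t in u..v, r t‖ ≤ ‖G v‖ + ‖G u‖ + ‖∫ t in u..v, r t‖ :=
          (norm_add_le _ _).trans (add_le_add (norm_sub_le _ _) le_rfl)
      _ ≤ J / c0 + J / c0 + C0 / c0 ^ 2 * (v - u) := by linarith
      _ ≤ _ := by
          have : v - u ≤ 2 * J := by linarith
          gcongr
  have hpi : 1 ≤ 2 * Real.pi := by linarith [Real.pi_gt_three]
  rw [← mul_div_assoc, le_div_iff₀ hξ]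
  have n5 : ‖∫ t in u..v, e (ξ * φ 0 t)‖ * |ξ| ≤ ‖∫ t in u..v, e (ξ * φ 0 t)‖ * (2 * Real.pi * |ξ|) := by
    refine mul_le_mul_of_nonneg_left ?_ (norm_nonneg _)
    nlinarith
  calc _ ≤ J / c0 + J / c0 + C0 / c0 ^ 2 * (2 * J) := n5.trans n4
    _ = _ := by ring

/-- comparison for small frequencies -/
lemma small_freq {φ : ℝ → ℝ} {φ' : ℝ → ℝ} {B u : ℝ} {L : ℕ} (hB : 0 ≤ B)
    (hd : ∀ t ∈ Set.Icc u (u + L), HasDerivAt φ (φ' t) t) (hb : ∀ t ∈ Set.Icc u (u + L), |φ' t| ≤ B) (ξ : ℝ) :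
    ‖Ker φ u L ξ‖ ≤ L * (2 * Real.pi * |ξ| * B) := by
  have hlip : ∀ s ∈ Set.Icc u (u + L), ∀ t ∈ Set.Icc u (u + L), |φ s - φ t| ≤ B * |s - t| := by
    intro s hs t ht
    have := (convex_Icc u (u + L)).norm_image_sub_le_of_norm_hasDerivWithin_le (f := φ) (f' := φ') (C := B)
      (fun z hz => (hd z hz).hasDerivWithinAt) (fun z hz => by rw [Real.norm_eq_abs]; exact hb z hz) ht hs
    simpa [Real.norm_eq_abs] using this
  have hce : ContinuousOn (fun t => e (ξ * φ t)) (Set.Icc u (u + L)) := by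
    intro t ht
    exact (e_hasDeriv (ξ := ξ) (hd t ht)).continuousAt.continuousWithinAt
  have hii : ∀ n : ℕ, n < L → IntervalIntegrable (fun t => e (ξ * φ t)) volume (u + n) (u + (n + 1 : ℕ)) := by
    intro n hn
    refine ContinuousOn.intervalIntegrable (hce.mono ?_)
    have h1 : ((n : ℝ) + 1) ≤ L := by exact_mod_cast hn
    have h0 : (0:ℝ) ≤ n := Nat.cast_nonneg n
    rw [Set.uIcc_of_le (by push_cast; linarith)]
    intro t ht
    have := ht.2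
    push_cast at this
    exact ⟨by linarith [ht.1], by linarith⟩
  have hsum := intervalIntegral.sum_integral_adjacent_intervals (f := fun t => e (ξ * φ t)) (a := fun n : ℕ => u + n)
    (μ := volume) (n := L) hii
  unfold Ker
  simp only [Nat.cast_zero, add_zero] at hsum
  rw [← hsum, ← sum_sub_distrib]
  refine (norm_sum_le _ _).trans ?_
  have hterm : ∀ n ∈ range L, ‖e (ξ * φ (u + n)) - ∫ t in (u + n)..(u + (n + 1 : ℕ)), e (ξ * φ t)‖ ≤
      2 * Real.pi * |ξ| * B := by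
    intro n hn
    have hn' := mem_range.mp hn
    have h1 : ((n : ℝ) + 1) ≤ L := by exact_mod_cast hn'
    have h0 : (0:ℝ) ≤ n := Nat.cast_nonneg n
    have e1 : e (ξ * φ (u + n)) - ∫ t in (u + n)..(u + (n + 1 : ℕ)), e (ξ * φ t) =
        ∫ t in (u + n)..(u + (n + 1 : ℕ)), (e (ξ * φ (u + n)) - e (ξ * φ t)) := by
      rw [intervalIntegral.integral_sub intervalIntegrable_const (hii n hn'), intervalIntegral.integral_const]
      push_cast
      rw [show u + (n + 1) - (u + (n:ℝ)) = 1 by ring, one_smul]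
    rw [e1]
    have h2 := intervalIntegral.norm_integral_le_of_norm_le_const (a := u + n) (b := u + (n + 1 : ℕ))
      (f := fun t => e (ξ * φ (u + n)) - e (ξ * φ t)) (C := 2 * Real.pi * |ξ| * B) (by
        intro t ht
        rw [Set.uIoc_of_le (by push_cast; linarith)] at ht
        have ht2 := ht.2
        push_cast at ht2
        have m1 : u + n ∈ Set.Icc u (u + L) := ⟨by linarith, by linarith⟩
        have m2 : t ∈ Set.Icc u (u + L) := ⟨by linarith [ht.1], by linarith⟩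
        refine (e_sub_le _ _).trans ?_
        rw [← mul_sub, abs_mul]
        have h3 := hlip _ m1 _ m2
        have h4 : |u + n - t| ≤ 1 := by rw [abs_le]; constructor <;> linarith [ht.1]
        have h5 : |φ (u + n) - φ t| ≤ B := h3.trans (mul_le_of_le_one_right hB h4)
        calc 2 * Real.pi * (|ξ| * |φ (u + n) - φ t|) ≤ 2 * Real.pi * (|ξ| * B) := by
              have := Real.pi_pos
              gcongr
          _ = _ := by ring)
    refine h2.trans (le_of_eq ?_)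
    push_cast
    rw [show u + (n + 1) - (u + (n:ℝ)) = 1 by ring, abs_one, mul_one]
  refine (sum_le_sum hterm).trans (le_of_eq ?_)
  rw [sum_const, card_range, nsmul_eq_mul]

variable {k : ℕ}

/-- the kernel bound -/
theorem ker_bound {γ : ℝ} (hγ : 0 < γ) : ∃ M : ℕ, 2 * γ + 3 ≤ M ∧ ∃ η C : ℝ, 0 < η ∧ η ≤ 1 / 2 ∧ 0 < C ∧
    ∀ (k : ℕ) (c : Fin k → ℝ), ∃ κ : ℝ, 0 < κ ∧ ∀ (J : ℕ) (b : Fin k → ℝ), 1 ≤ J →
      (∀ i, |b i| ≤ κ * (J : ℝ) ^ (γ - c i)) →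
      (∀ t ∈ Set.Icc (J : ℝ) (3 * J), 0 < gp γ c b t ∧
        Real.log (gp γ c b J) ≤ Real.log (gp γ c b t) ∧ Real.log (gp γ c b t) ≤ Real.log (gp γ c b J) + C) ∧
      (∀ s ∈ Set.Icc (J : ℝ) (3 * J), ∀ t ∈ Set.Icc (J : ℝ) (3 * J), s ≤ t → gp γ c b s ≤ gp γ c b t) ∧
      ContinuousOn (fun t => Real.log (gp γ c b t)) (Set.Icc (J : ℝ) (3 * J)) ∧
      ∀ (u : ℝ) (L : ℕ), (J : ℝ) ≤ u → L ≤ J → u + L ≤ 3 * J → ∀ ξ : ℝ, |ξ| ≤ (J : ℝ) ^ M →
        ‖Ker (fun t => Real.log (gp γ c b t)) u L ξ‖ ≤ C * (J : ℝ) ^ (1 - η) := by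
  set M : ℕ := ⌈2 * γ + 3⌉₊ with hM
  set c0 : ℝ := γ * ((3 : ℝ) ^ (M + 4))⁻¹ / 2 with hc0
  set C0 : ℝ := γ * ((M + 4).factorial : ℝ) + 1 with hC0
  have hc0p : 0 < c0 := by positivity
  have hC0p : 0 < C0 := by positivity
  obtain ⟨η, hη, hη1, C, hC, hv⟩ := Pool.Agent.H221R2.FB.vdc_gen M c0 C0 hc0p
  set η' := min η (1 / 2) with hη'
  have hη'0 : 0 < η' := lt_min hη (by norm_num)
  have hη'1 : η' ≤ η := min_le_left _ _
  have hη'2 : η' ≤ 1 / 2 := min_le_right _ _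
  set K : ℝ := 2 * C0 + 2 * Real.pi * C0 + 2 * C + (2 / c0 + 2 * C0 / c0 ^ 2) with hK
  have hpi := Real.pi_pos
  refine ⟨M, Nat.le_ceil _, η', K, hη'0, hη'2, by positivity, fun k c => ?_⟩
  obtain ⟨κ, hκ, hch⟩ := log_chain hγ c (M + 4)
  refine ⟨κ, hκ, fun J b hJ hb => ?_⟩
  obtain ⟨φ, hφ0, hφd, hφb⟩ := hch J b hJ hb
  have hJ1 : (1 : ℝ) ≤ J := by exact_mod_cast hJ
  have hJ0 : (0 : ℝ) < J := by linarith
  have hJm : (J : ℝ) ∈ Set.Icc (J : ℝ) (3 * J) := ⟨le_rfl, by linarith⟩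
  have hd1 : ∀ t ∈ Set.Icc (J : ℝ) (3 * J), c0 ≤ φ 1 t * J ∧ φ 1 t * J ≤ C0 := by
    intro t ht
    have := hφb 1 le_rfl (by omega) t ht
    simpa using this
  have hd2 : ∀ t ∈ Set.Icc (J : ℝ) (3 * J), |φ 2 t| * (J : ℝ) ^ 2 ≤ C0 := by
    intro t ht
    have h := hφb 2 (by omega) (by omega) t ht
    have e1 : (-1 : ℝ) ^ (2 + 1) * φ 2 t * (J : ℝ) ^ 2 = -(φ 2 t * (J : ℝ) ^ 2) := by ring
    rw [e1] at h
    have e2 : |φ 2 t| * (J : ℝ) ^ 2 = |φ 2 t * (J : ℝ) ^ 2| := by rw [abs_mul, abs_of_pos (by positivity : (0:ℝ) < (J : ℝ) ^ 2)]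
    rw [e2, abs_le]
    constructor <;> linarith [h.1, h.2]
  have hφ1pos : ∀ t ∈ Set.Icc (J : ℝ) (3 * J), 0 < φ 1 t := by
    intro t ht
    have := (hd1 t ht).1
    exact (pos_iff_pos_of_mul_pos (by linarith : 0 < φ 1 t * J)).mpr hJ0
  have hφ1le : ∀ t ∈ Set.Icc (J : ℝ) (3 * J), |φ 1 t| ≤ C0 / J := by
    intro t ht
    rw [abs_of_pos (hφ1pos t ht), le_div_iff₀ hJ0]
    exact (hd1 t ht).2
  have hcont : ContinuousOn (φ 0) (Set.Icc (J : ℝ) (3 * J)) := fun t ht =>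
    (hφd 0 (by omega) t ht).continuousAt.continuousWithinAt
  have hmono : MonotoneOn (φ 0) (Set.Icc (J : ℝ) (3 * J)) := by
    refine monotoneOn_of_deriv_nonneg (convex_Icc _ _) hcont ?_ ?_
    · intro t ht
      exact (hφd 0 (by omega) t (interior_subset ht)).differentiableAt.differentiableWithinAt
    · intro t ht
      rw [(hφd 0 (by omega) t (interior_subset ht)).deriv]
      exact (hφ1pos t (interior_subset ht)).le
  have hlogeq : ∀ t ∈ Set.Icc (J : ℝ) (3 * J), Real.log (gp γ c b t) = φ 0 t := fun t ht => (hφ0 t ht).2.symm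
  refine ⟨fun t ht => ⟨(hφ0 t ht).1, ?_, ?_⟩, ?_, ?_, ?_⟩
  · rw [hlogeq t ht, hlogeq J hJm]
    exact hmono hJm ht ht.1
  · rw [hlogeq t ht, hlogeq J hJm]
    have h1 := (convex_Icc (J : ℝ) (3 * J)).norm_image_sub_le_of_norm_hasDerivWithin_le (f := φ 0) (f' := φ 1) (C := C0 / J)
      (fun z hz => (hφd 0 (by omega) z hz).hasDerivWithinAt) (fun z hz => by rw [Real.norm_eq_abs]; exact hφ1le z hz) hJm ht
    rw [Real.norm_eq_abs, Real.norm_eq_abs, abs_of_nonneg (by linarith [ht.1] : 0 ≤ t - J)] at h1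
    have h2 : C0 / J * (t - J) ≤ 2 * C0 := by
      rw [div_mul_eq_mul_div, div_le_iff₀ hJ0]
      nlinarith [ht.2]
    have h3 := (le_abs_self _).trans (h1.trans h2)
    have h4 : 2 * C0 ≤ K := by
      rw [hK]
      have : 0 ≤ 2 * Real.pi * C0 + 2 * C + (2 / c0 + 2 * C0 / c0 ^ 2) := by positivity
      linarith
    linarith
  · intro s hs t ht hst
    have h1 := hmono hs ht hst
    rw [← hlogeq s hs, ← hlogeq t ht] at h1
    exact (Real.log_le_log_iff (hφ0 s hs).1 (hφ0 t ht).1).mp h1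
  · exact hcont.congr fun t ht => hlogeq t ht
  intro u L hu hL huL ξ hξ
  have hL1 : (L : ℝ) ≤ J := by exact_mod_cast hL
  have hsub : ∀ t ∈ Set.Icc u (u + L), t ∈ Set.Icc (J : ℝ) (3 * J) := fun t ht => ⟨hu.trans ht.1, ht.2.trans huL⟩
  have hKer : Ker (fun t => Real.log (gp γ c b t)) u L ξ = Ker (φ 0) u L ξ := by
    unfold Ker
    congr 1
    · refine sum_congr rfl fun n hn => ?_
      have hn' : (n:ℝ) ≤ L := by exact_mod_cast (mem_range.mp hn).le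
      have h0 : (0:ℝ) ≤ n := Nat.cast_nonneg n
      beta_reduce
      rw [hlogeq _ (hsub _ ⟨by linarith, by linarith⟩)]
    · refine intervalIntegral.integral_congr fun t ht => ?_
      rw [Set.uIcc_of_le (by have : (0:ℝ) ≤ L := Nat.cast_nonneg L; linarith)] at ht
      beta_reduce
      rw [hlogeq _ (hsub _ ht)]
  rw [hKer]
  have hJη : (J : ℝ) ^ ((1:ℝ) / 2) ≤ (J : ℝ) ^ (1 - η') := Real.rpow_le_rpow_of_exponent_le hJ1 (by linarith)
  have hJη2 : (J : ℝ) ^ (1 - η) ≤ (J : ℝ) ^ (1 - η') := Real.rpow_le_rpow_of_exponent_le hJ1 (by linarith)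
  have hP0 : 0 < (J : ℝ) ^ (1 - η') := by positivity
  rcases le_or_gt |ξ| ((J : ℝ) ^ ((1:ℝ) / 2)) with hs | hs
  · have h1 := small_freq (φ := φ 0) (φ' := φ 1) (B := C0 / J) (u := u) (L := L) (by positivity)
      (fun t ht => hφd 0 (by omega) t (hsub t ht)) (fun t ht => hφ1le t (hsub t ht)) ξ
    refine h1.trans ?_
    calc (L : ℝ) * (2 * Real.pi * |ξ| * (C0 / J)) ≤ J * (2 * Real.pi * (J : ℝ) ^ ((1:ℝ) / 2) * (C0 / J)) := by gcongr
      _ = 2 * Real.pi * C0 * (J : ℝ) ^ ((1:ℝ) / 2) := by field_simp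
      _ ≤ 2 * Real.pi * C0 * (J : ℝ) ^ (1 - η') := by gcongr
      _ ≤ K * (J : ℝ) ^ (1 - η') := by
          refine mul_le_mul_of_nonneg_right ?_ hP0.le
          rw [hK]
          have : 0 ≤ 2 * C0 + 2 * C + (2 / c0 + 2 * C0 / c0 ^ 2) := by positivity
          linarith
  · have hξ1 : 1 ≤ |ξ| := (Real.one_le_rpow hJ1 (by norm_num)).trans hs.le
    have hξ0 : 0 < |ξ| := by linarith
    have h1 := hv J L u ξ φ hJ hu hL huL (fun m hm t ht => hφd m hm t ht) (fun m h1 h2 t ht => hφb m h1 h2 t ht) hξ1 hξ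
    have h2 := int_bound (φ := φ) (u := u) (v := u + L) (ξ := ξ) hJ1 hc0p hC0p.le (fun m hm t ht => hφd m (by omega) t ht)
      (fun t ht => (hd1 t ht).1) hd2 hu (by have : (0:ℝ) ≤ L := Nat.cast_nonneg L; linarith) huL hξ0
    have h3 : (J : ℝ) / |ξ| ≤ (J : ℝ) ^ ((1:ℝ) / 2) := by
      rw [div_le_iff₀ hξ0]
      calc (J : ℝ) = (J : ℝ) ^ ((1:ℝ) / 2) * (J : ℝ) ^ ((1:ℝ) / 2) := by
            rw [← Real.rpow_add hJ0]; norm_num
        _ ≤ _ := mul_le_mul_of_nonneg_left hs.le (by positivity)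
    unfold Ker
    calc _ ≤ ‖∑ n ∈ range L, e (ξ * φ 0 (u + n))‖ + ‖∫ t in u..(u + L), e (ξ * φ 0 t)‖ := norm_sub_le _ _
      _ ≤ C * ((J : ℝ) ^ (1 - η) + J / |ξ|) + (2 / c0 + 2 * C0 / c0 ^ 2) * (J / |ξ|) := add_le_add h1 h2
      _ ≤ C * ((J : ℝ) ^ (1 - η') + (J : ℝ) ^ (1 - η')) + (2 / c0 + 2 * C0 / c0 ^ 2) * (J : ℝ) ^ (1 - η') := by
          gcongr
          · exact h3.trans hJη
          · exact h3.trans hJη
      _ = (2 * C + (2 / c0 + 2 * C0 / c0 ^ 2)) * (J : ℝ) ^ (1 - η') := by ring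
      _ ≤ K * (J : ℝ) ^ (1 - η') := by
          refine mul_le_mul_of_nonneg_right ?_ hP0.le
          rw [hK]
          have : 0 ≤ 2 * C0 + 2 * Real.pi * C0 := by positivity
          linarith

end Pool.Agent.N798.M
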