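import Pool.Agent.N798.M2
import Pool.Agent.H153R4.Pl

set_option autoImplicit false

/-! Plancherel for the sampling error of a step function. -/

namespace Pool.Agent.N798.M

open Finset MeasureTheory Filter FourierTransform
open scoped ENNReal
open Pool.Agent.H469R2.NK (e norm_e)

lemma e_add (x y : ℝ) : e (x + y) = e x * e y := by
  unfold e
  rw [← Complex.exp_add]
  congr 1
  push_cast
  ring

lemma e_continuous : Continuous e := by
  unfold e
  fun_prop

lemma fourier_eq (h : ℝ → ℂ) (ξ : ℝ) : 𝓕 h ξ = ∫ z, e (-(z * ξ)) * h z := by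
  rw [Real.fourier_real_eq_integral_exp_smul]
  refine integral_congr_ae (Eventually.of_forall fun z => ?_)
  simp only [smul_eq_mul, e]
  congr 3
  push_cast
  ring

lemma fourier_shift (h : ℝ → ℂ) (s ξ : ℝ) : ∫ a, e (-(a * ξ)) * h (a + s) = e (ξ * s) * 𝓕 h ξ := by
  rw [fourier_eq, ← integral_const_mul, ← integral_add_right_eq_self (fun z => e (ξ * s) * (e (-(z * ξ)) * h z)) s]
  refine integral_congr_ae (Eventually.of_forall fun z => ?_)
  simp only
  rw [← mul_assoc, ← e_add]
  congr 2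
  ring

/-- the sampling error -/
noncomputable def Dev (H : ℝ → ℂ) (φ : ℝ → ℝ) (u : ℝ) (L : ℕ) (a : ℝ) : ℂ :=
  (∑ n ∈ range L, H (a + φ (u + n))) - ∫ t in u..(u + L), H (a + φ t)

section

variable {H : ℝ → ℂ} {φ : ℝ → ℝ} {F : ℝ}

lemma prod_integrable (hHi : Integrable H) (hH : Measurable H) (hφ : Measurable φ) (u : ℝ) (L : ℕ) :
    Integrable (Function.uncurry fun (a t : ℝ) => H (a + φ t)) (volume.prod (volume.restrict (Set.Ioc u (u + L)))) := by
  have hm : Measurable (Function.uncurry fun (a t : ℝ) => H (a + φ t)) := by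
    have : (Function.uncurry fun (a t : ℝ) => H (a + φ t)) = fun p : ℝ × ℝ => H (p.1 + φ p.2) := rfl
    rw [this]
    exact hH.comp (measurable_fst.add (hφ.comp measurable_snd))
  rw [integrable_prod_iff' hm.aestronglyMeasurable]
  constructor
  · refine Eventually.of_forall fun t => ?_
    exact hHi.comp_add_right (φ t)
  · have : (fun t : ℝ => ∫ a, ‖Function.uncurry (fun (a t : ℝ) => H (a + φ t)) (a, t)‖) = fun _ => ∫ z, ‖H z‖ := by
      funext t
      exact integral_add_right_eq_self (fun z => ‖H z‖) (φ t)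
    rw [this]
    exact integrable_const _

lemma dev_integrable (hHi : Integrable H) (hH : Measurable H) (hφ : Measurable φ) (u : ℝ) (L : ℕ) :
    Integrable (Dev H φ u L) := by
  unfold Dev
  refine Integrable.sub (integrable_finsetSum _ fun n _ => hHi.comp_add_right _) ?_
  have h1 := (prod_integrable hHi hH hφ u L).integral_prod_left
  refine h1.congr (Eventually.of_forall fun a => ?_)
  have hL : (0:ℝ) ≤ L := Nat.cast_nonneg L
  simp only [Function.uncurry]
  rw [intervalIntegral.integral_of_le (by linarith)]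

lemma fourier_dev (hHi : Integrable H) (hH : Measurable H) (hφ : Measurable φ) (u : ℝ) (L : ℕ) (ξ : ℝ) :
    𝓕 (Dev H φ u L) ξ = 𝓕 H ξ * Ker φ u L ξ := by
  have hL : (0:ℝ) ≤ L := Nat.cast_nonneg L
  have hem : ∀ g : ℝ → ℂ, Integrable g → Integrable fun a => e (-(a * ξ)) * g a := by
    intro g hg
    refine hg.bdd_mul (c := 1) (e_continuous.comp (by fun_prop)).aestronglyMeasurable (Eventually.of_forall fun a => ?_)
    rw [norm_e]
  have hpi := prod_integrable hHi hH hφ u L
  have hW : Integrable (fun a => ∫ t in u..(u + L), H (a + φ t)) := by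
    refine hpi.integral_prod_left.congr (Eventually.of_forall fun a => ?_)
    simp only [Function.uncurry]
    rw [intervalIntegral.integral_of_le (by linarith)]
  rw [fourier_eq]
  unfold Dev Ker
  simp_rw [mul_sub]
  rw [integral_sub (hem _ (integrable_finsetSum _ fun n _ => hHi.comp_add_right _)) (hem _ hW)]
  congr 1
  · simp_rw [mul_sum]
    rw [integral_finsetSum (range L) fun (n : ℕ) _ => hem _ (hHi.comp_add_right (φ (u + n)))]
    refine sum_congr rfl fun n _ => ?_
    rw [fourier_shift, mul_comm]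
  · have hpe : Integrable (Function.uncurry fun (a t : ℝ) => e (-(a * ξ)) * H (a + φ t))
        (volume.prod (volume.restrict (Set.Ioc u (u + L)))) := by
      refine hpi.bdd_mul (f := fun p : ℝ × ℝ => e (-(p.1 * ξ))) (c := 1) ?_ (Eventually.of_forall fun a => ?_)
      · exact (e_continuous.comp (by fun_prop)).aestronglyMeasurable
      · rw [norm_e]
    calc ∫ a, e (-(a * ξ)) * ∫ t in u..(u + L), H (a + φ t)
        = ∫ a, ∫ t in Set.Ioc u (u + L), e (-(a * ξ)) * H (a + φ t) := by
          refine integral_congr_ae (Eventually.of_forall fun a => ?_)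
          simp only
          rw [intervalIntegral.integral_of_le (by linarith), integral_const_mul]
      _ = ∫ t in Set.Ioc u (u + L), ∫ a, e (-(a * ξ)) * H (a + φ t) := integral_integral_swap hpe
      _ = ∫ t in Set.Ioc u (u + L), e (ξ * φ t) * 𝓕 H ξ := by
          refine integral_congr_ae (Eventually.of_forall fun t => ?_)
          exact fourier_shift _ _ _
      _ = _ := by rw [integral_mul_const, intervalIntegral.integral_of_le (by linarith), mul_comm]

lemma ker_trivial (φ : ℝ → ℝ) (u : ℝ) (L : ℕ) (ξ : ℝ) : ‖Ker φ u L ξ‖ ≤ 2 * L := by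
  unfold Ker
  refine (norm_sub_le _ _).trans ?_
  have h1 : ‖∑ n ∈ range L, e (ξ * φ (u + n))‖ ≤ L := by
    refine (norm_sum_le _ _).trans ?_
    simp [norm_e]
  have h2 : ‖∫ t in u..(u + L), e (ξ * φ t)‖ ≤ L := by
    have := intervalIntegral.norm_integral_le_of_norm_le_const (a := u) (b := u + L) (f := fun t => e (ξ * φ t)) (C := 1)
      (fun t _ => by rw [norm_e])
    simpa using this
  linarith

/-- Plancherel -/
lemma dev_L2 (hHi : Integrable H) (hH : Measurable H) (hF : ∀ z, ‖H z‖ ≤ F) (hφ : Measurable φ) (u : ℝ) (L : ℕ)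
    {X K V : ℝ} (hX : 0 < X) (hK : ∀ ξ, |ξ| ≤ X → ‖Ker φ u L ξ‖ ≤ K) (hV : ∀ ξ : ℝ, 0 < |ξ| → ‖𝓕 H ξ‖ ≤ V / |ξ|)
    (hV0 : 0 ≤ V) (hK0 : 0 ≤ K) :
    ∫⁻ a, ‖Dev H φ u L a‖ₑ ^ 2 ≤ ENNReal.ofReal (K ^ 2) * (∫⁻ z, ‖H z‖ₑ ^ 2) +
      ENNReal.ofReal ((2 * L * V) ^ 2) * ENNReal.ofReal (2 / X) := by
  have hF0 : 0 ≤ F := (norm_nonneg _).trans (hF 0)
  have hmem : ∀ (g : ℝ → ℂ) (B : ℝ), Integrable g → (∀ z, ‖g z‖ ≤ B) → MemLp g 2 := by
    intro g B hg hB
    rw [memLp_two_iff_integrable_sq_norm hg.aestronglyMeasurable]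
    refine (hg.norm.const_mul B).mono' (hg.aestronglyMeasurable.norm.pow 2) (Eventually.of_forall fun z => ?_)
    rw [Real.norm_of_nonneg (by positivity)]
    have := hB z
    have := norm_nonneg (g z)
    nlinarith
  have hDb : ∀ a, ‖Dev H φ u L a‖ ≤ L * F + F * L := by
    intro a
    unfold Dev
    refine (norm_sub_le _ _).trans (add_le_add ?_ ?_)
    · refine (norm_sum_le _ _).trans ?_
      refine (sum_le_sum fun (n : ℕ) _ => hF (a + φ (u + n))).trans ?_
      simp
    · have := intervalIntegral.norm_integral_le_of_norm_le_const (a := u) (b := u + L) (f := fun t => H (a + φ t)) (C := F)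
        (fun t _ => hF _)
      simpa using this
  rw [← Pool.Agent.H153R4.plancherel _ (dev_integrable hHi hH hφ u L) (hmem _ _ (dev_integrable hHi hH hφ u L) hDb),
    ← Pool.Agent.H153R4.plancherel _ hHi (hmem _ _ hHi hF)]
  have hmF : Measurable (𝓕 H) := by
    have : Continuous (𝓕 H) := VectorFourier.fourierIntegral_continuous (L := innerₗ ℝ) Real.continuous_fourierChar continuous_inner hHi
    exact this.measurable
  -- the weight 1/ξ²
  have hw : ∫⁻ ξ in {ξ : ℝ | X < |ξ|}, ENNReal.ofReal (1 / ξ ^ 2) ≤ ENNReal.ofReal (2 / X) := by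
    have hset : {ξ : ℝ | X < |ξ|} ⊆ Set.Ioi X ∪ Set.Iio (-X) := by
      intro ξ hξ
      have hξ' : X < |ξ| := hξ
      rcases lt_abs.mp hξ' with h | h
      · exact Or.inl h
      · exact Or.inr (by show ξ < -X; linarith)
    have h1 : ∫⁻ ξ in Set.Ioi X, ENNReal.ofReal (1 / ξ ^ 2) = ENNReal.ofReal (1 / X) := by
      have hi := integrableOn_Ioi_rpow_of_lt (show (-2:ℝ) < -1 by norm_num) hX
      have hv := integral_Ioi_rpow_of_lt (show (-2:ℝ) < -1 by norm_num) hX
      have e1 : ∀ ξ ∈ Set.Ioi X, ENNReal.ofReal (1 / ξ ^ 2) = ENNReal.ofReal (ξ ^ (-2:ℝ)) := by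
        intro ξ hξ
        have : 0 < ξ := hX.trans hξ
        rw [Real.rpow_neg this.le]
        norm_num
      rw [setLIntegral_congr_fun measurableSet_Ioi e1, ← ofReal_integral_eq_lintegral_ofReal hi
        ((ae_restrict_iff' measurableSet_Ioi).mpr (Eventually.of_forall fun ξ hξ => by
          have : 0 < ξ := hX.trans hξ
          positivity)), hv]
      congr 1
      norm_num
      rw [Real.rpow_neg hX.le, Real.rpow_one]
    have h2 : ∫⁻ ξ in Set.Iio (-X), ENNReal.ofReal (1 / ξ ^ 2) = ∫⁻ ξ in Set.Ioi X, ENNReal.ofReal (1 / ξ ^ 2) := by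
      have hmp := (Measure.measurePreserving_neg (volume : Measure ℝ)).setLIntegral_comp_preimage_emb
        (MeasurableEquiv.neg ℝ).measurableEmbedding (fun ξ => ENNReal.ofReal (1 / ξ ^ 2)) (Set.Ioi X)
      rw [← hmp]
      have e1 : (Neg.neg ⁻¹' Set.Ioi X : Set ℝ) = Set.Iio (-X) := by
        ext z
        simp only [Set.mem_preimage, Set.mem_Ioi, Set.mem_Iio]
        constructor <;> intro h <;> linarith
      rw [e1]
      simp
    calc _ ≤ ∫⁻ ξ in Set.Ioi X ∪ Set.Iio (-X), ENNReal.ofReal (1 / ξ ^ 2) := lintegral_mono_set hset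
      _ ≤ _ := lintegral_union_le _ _ _
      _ = ENNReal.ofReal (1 / X) + ENNReal.ofReal (1 / X) := by rw [h2, h1]
      _ = ENNReal.ofReal (2 / X) := by
          rw [← ENNReal.ofReal_add (by positivity) (by positivity)]
          congr 1
          ring
  have hpt : ∀ ξ, ‖𝓕 (Dev H φ u L) ξ‖ₑ ^ 2 ≤ ENNReal.ofReal (K ^ 2) * ‖𝓕 H ξ‖ₑ ^ 2 +
      ENNReal.ofReal ((2 * L * V) ^ 2) * {ξ : ℝ | X < |ξ|}.indicator (fun ξ => ENNReal.ofReal (1 / ξ ^ 2)) ξ := by
    intro ξ
    rw [fourier_dev hHi hH hφ, enorm_mul, mul_pow]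
    rcases le_or_gt |ξ| X with h | h
    · refine le_trans ?_ le_self_add
      rw [mul_comm]
      gcongr
      rw [← ofReal_norm, ← ENNReal.ofReal_pow (norm_nonneg _)]
      exact ENNReal.ofReal_le_ofReal (pow_le_pow_left₀ (norm_nonneg _) (hK ξ h) 2)
    · refine le_trans ?_ le_add_self
      rw [Set.indicator_of_mem (by exact h)]
      have hξ0 : 0 < |ξ| := hX.trans h
      rw [← ofReal_norm, ← ofReal_norm, ← ENNReal.ofReal_pow (norm_nonneg _), ← ENNReal.ofReal_pow (norm_nonneg _),
        ← ENNReal.ofReal_mul (by positivity), ← ENNReal.ofReal_mul (by positivity)]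
      refine ENNReal.ofReal_le_ofReal ?_
      have a1 := hV ξ hξ0
      have a2 := ker_trivial φ u L ξ
      calc ‖𝓕 H ξ‖ ^ 2 * ‖Ker φ u L ξ‖ ^ 2 ≤ (V / |ξ|) ^ 2 * (2 * L) ^ 2 := by gcongr
        _ = (2 * L * V) ^ 2 * (1 / ξ ^ 2) := by rw [div_pow, sq_abs]; ring
  refine (lintegral_mono hpt).trans ?_
  rw [lintegral_add_left ((hmF.enorm.pow_const 2).const_mul _), lintegral_const_mul _ (hmF.enorm.pow_const 2)]
  refine add_le_add le_rfl ?_
  rw [lintegral_const_mul']
  · refine mul_le_mul_right ?_ _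
    rw [lintegral_indicator (measurableSet_lt measurable_const continuous_abs.measurable)]
    exact hw
  · exact ENNReal.ofReal_ne_top

end

end Pool.Agent.N798.M
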