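import Pool.Agent.N798.M3

set_option autoImplicit false

/-! Step functions and the block bound. -/

namespace Pool.Agent.N798.M

open Finset MeasureTheory Filter FourierTransform
open scoped ENNReal
open Pool.Agent.H469R2.NK (e norm_e)

/-- the step function `z ↦ f ⌊e^z⌋` cut to `[A, B)` -/
noncomputable def Hf (f : ℕ → ℂ) (A B : ℝ) : ℝ → ℂ := (Set.Ico A B).indicator (fun z => f ⌊Real.exp z⌋₊)

lemma step_measurable (f : ℕ → ℂ) : Measurable fun z : ℝ => f ⌊Real.exp z⌋₊ :=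
  (measurable_from_top (f := f)).comp (Nat.measurable_floor.comp Real.measurable_exp)

lemma Hf_measurable (f : ℕ → ℂ) (A B : ℝ) : Measurable (Hf f A B) :=
  (step_measurable f).indicator measurableSet_Ico

variable {f : ℕ → ℂ} {A B F : ℝ}

lemma Hf_bound (hF0 : 0 ≤ F) (hF : ∀ m : ℕ, (m:ℝ) ≤ Real.exp B → ‖f m‖ ≤ F) (z : ℝ) : ‖Hf f A B z‖ ≤ F := by
  unfold Hf
  by_cases hz : z ∈ Set.Ico A B
  · rw [Set.indicator_of_mem hz]
    refine hF _ ((Nat.floor_le (Real.exp_pos z).le).trans ?_)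
    exact Real.exp_le_exp.mpr hz.2.le
  · rw [Set.indicator_of_notMem hz, norm_zero]
    exact hF0

lemma Hf_integrable (hF0 : 0 ≤ F) (hF : ∀ m : ℕ, (m:ℝ) ≤ Real.exp B → ‖f m‖ ≤ F) : Integrable (Hf f A B) := by
  unfold Hf
  rw [integrable_indicator_iff measurableSet_Ico]
  refine Measure.integrableOn_of_bounded (M := F) (by simp) (step_measurable f).aestronglyMeasurable ?_
  rw [ae_restrict_iff' measurableSet_Ico]
  refine Eventually.of_forall fun z hz => ?_
  refine hF _ ((Nat.floor_le (Real.exp_pos z).le).trans ?_)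
  exact Real.exp_le_exp.mpr hz.2.le

lemma Hf_L2 (hF0 : 0 ≤ F) (hF : ∀ m : ℕ, (m:ℝ) ≤ Real.exp B → ‖f m‖ ≤ F) (hAB : A ≤ B) :
    ∫⁻ z, ‖Hf f A B z‖ₑ ^ 2 ≤ ENNReal.ofReal (F ^ 2 * (B - A)) := by
  have h1 : ∀ z, ‖Hf f A B z‖ₑ ^ 2 ≤ (Set.Ico A B).indicator (fun _ => ENNReal.ofReal (F ^ 2)) z := by
    intro z
    by_cases hz : z ∈ Set.Ico A B
    · rw [Set.indicator_of_mem hz, ← ofReal_norm, ← ENNReal.ofReal_pow (norm_nonneg _)]
      exact ENNReal.ofReal_le_ofReal (pow_le_pow_left₀ (norm_nonneg _) (Hf_bound hF0 hF z) 2)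
    · rw [Set.indicator_of_notMem hz]
      unfold Hf
      rw [Set.indicator_of_notMem hz]
      simp
  refine (lintegral_mono h1).trans ?_
  rw [lintegral_indicator measurableSet_Ico, lintegral_const, Measure.restrict_apply MeasurableSet.univ, Set.univ_inter,
    Real.volume_Ico, ← ENNReal.ofReal_mul (by positivity)]

/-- the pieces -/
lemma piece (m : ℕ) : ∃ p q : ℝ, ∀ z, z ∈ Set.Ico p q ↔ (z ∈ Set.Ico A B ∧ ⌊Real.exp z⌋₊ = m) := by
  rcases Nat.eq_zero_or_pos m with rfl | hm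
  · refine ⟨A, min B 0, fun z => ?_⟩
    rw [Nat.floor_eq_zero]
    simp only [Set.mem_Ico, lt_min_iff, Real.exp_lt_one_iff]
    tauto
  · refine ⟨max A (Real.log m), min B (Real.log (m + 1)), fun z => ?_⟩
    have hm' : (0:ℝ) < m := by exact_mod_cast hm
    rw [Nat.floor_eq_iff (Real.exp_pos z).le]
    simp only [Set.mem_Ico, lt_min_iff, max_le_iff]
    rw [Real.log_le_iff_le_exp hm', Real.lt_log_iff_exp_lt (by positivity)]
    tauto

lemma piece_int (p q : ℝ) {ξ : ℝ} (hξ : 0 < |ξ|) : ‖∫ z in Set.Ico p q, e (-(z * ξ))‖ ≤ 1 / |ξ| := by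
  rcases le_or_gt q p with h | h
  · rw [Set.Ico_eq_empty (not_lt.mpr h)]
    simp
  · rw [integral_Ico_eq_integral_Ioc, ← intervalIntegral.integral_of_le h.le]
    have hξ' : ξ ≠ 0 := by
      intro h0
      rw [h0, abs_zero] at hξ
      exact lt_irrefl _ hξ
    set c : ℂ := ((-(2 * Real.pi * ξ) : ℝ) : ℂ) * Complex.I with hc
    have hpi := Real.pi_pos
    have hc0 : c ≠ 0 := by
      rw [hc]
      refine mul_ne_zero ?_ Complex.I_ne_zero
      norm_cast
      have : 2 * Real.pi * ξ ≠ 0 := by positivity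
      exact neg_ne_zero.mpr this
    have e1 : ∀ z : ℝ, e (-(z * ξ)) = Complex.exp (c * z) := by
      intro z
      unfold e
      congr 1
      rw [hc]
      push_cast
      ring
    simp_rw [e1]
    rw [integral_exp_mul_complex hc0, norm_div, ← e1, ← e1]
    have h1 : ‖c‖ = 2 * Real.pi * |ξ| := by
      rw [hc, norm_mul, Complex.norm_I, mul_one, Complex.norm_real, Real.norm_eq_abs, abs_neg, abs_mul,
        abs_of_pos (by positivity : 0 < 2 * Real.pi)]
    rw [h1, div_le_div_iff₀ (by positivity) hξ]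
    have h2 : ‖e (-(q * ξ)) - e (-(p * ξ))‖ ≤ 2 := by
      refine (norm_sub_le _ _).trans ?_
      rw [norm_e, norm_e]
      norm_num
    have h3 := Real.pi_gt_three
    nlinarith

lemma Hf_fourier (hF : ∀ m : ℕ, (m:ℝ) ≤ Real.exp B → ‖f m‖ ≤ F) {ξ : ℝ} (hξ : 0 < |ξ|) :
    ‖𝓕 (Hf f A B) ξ‖ ≤ (F * (Real.exp B + 1)) / |ξ| := by
  choose p q hpq using fun m => piece (A := A) (B := B) m
  set N := ⌊Real.exp B⌋₊ with hN
  have hrep : ∀ z, e (-(z * ξ)) * Hf f A B z =
      ∑ m ∈ range (N + 1), (Set.Ico (p m) (q m)).indicator (fun z => f m * e (-(z * ξ))) z := by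
    intro z
    by_cases hz : z ∈ Set.Ico A B
    · have hle : ⌊Real.exp z⌋₊ ∈ range (N + 1) := by
        rw [mem_range, Nat.lt_succ_iff]
        exact Nat.floor_mono (Real.exp_le_exp.mpr hz.2.le)
      rw [sum_eq_single_of_mem _ hle]
      · rw [Set.indicator_of_mem ((hpq _ z).mpr ⟨hz, rfl⟩)]
        unfold Hf
        rw [Set.indicator_of_mem hz, mul_comm]
      · intro m _ hm
        rw [Set.indicator_of_notMem]
        intro h
        exact hm ((hpq m z).mp h).2.symm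
    · rw [sum_eq_zero]
      · unfold Hf
        rw [Set.indicator_of_notMem hz, mul_zero]
      · intro m _
        rw [Set.indicator_of_notMem]
        intro h
        exact hz ((hpq m z).mp h).1
  rw [fourier_eq]
  simp_rw [hrep]
  rw [integral_finsetSum]
  · refine (norm_sum_le _ _).trans ?_
    have h1 : ∀ m ∈ range (N + 1), ‖∫ z, (Set.Ico (p m) (q m)).indicator (fun z => f m * e (-(z * ξ))) z‖ ≤ F * (1 / |ξ|) := by
      intro m hm
      rw [integral_indicator measurableSet_Ico, integral_const_mul, norm_mul]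
      have h2 : ‖f m‖ ≤ F := by
        refine hF m ?_
        rw [mem_range, Nat.lt_succ_iff] at hm
        exact (Nat.le_floor_iff (Real.exp_pos B).le).mp hm
      have h3 := piece_int (p m) (q m) hξ
      have h4 : 0 ≤ F := (norm_nonneg _).trans h2
      gcongr
    refine (sum_le_sum h1).trans ?_
    rw [sum_const, card_range, nsmul_eq_mul]
    have h5 : ((N + 1 : ℕ) : ℝ) ≤ Real.exp B + 1 := by
      push_cast
      have := Nat.floor_le (Real.exp_pos B).le
      linarith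
    have h6 : 0 ≤ F := (norm_nonneg _).trans (hF 0 (by push_cast; exact (Real.exp_pos B).le))
    calc ((N + 1 : ℕ) : ℝ) * (F * (1 / |ξ|)) ≤ (Real.exp B + 1) * (F * (1 / |ξ|)) := by gcongr
      _ = _ := by ring
  · intro m _
    rw [integrable_indicator_iff measurableSet_Ico]
    exact (ContinuousOn.integrableOn_Icc (Continuous.continuousOn (by
      exact continuous_const.mul (e_continuous.comp (by fun_prop))))).mono_set Set.Ico_subset_Icc_self

/-- the block error -/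
noncomputable def Blk (f : ℕ → ℂ) (φ : ℝ → ℝ) (u : ℝ) (L : ℕ) (a : ℝ) : ℂ :=
  (∑ n ∈ range L, f ⌊Real.exp (a + φ (u + n))⌋₊) - ∫ t in u..(u + L), f ⌊Real.exp (a + φ t)⌋₊

lemma blk_eq {φ : ℝ → ℝ} {u : ℝ} {L : ℕ} {a : ℝ} (h : ∀ t ∈ Set.Icc u (u + L), a + φ t ∈ Set.Ico A B) :
    Dev (Hf f A B) φ u L a = Blk f φ u L a := by
  unfold Dev Blk
  congr 1
  · refine sum_congr rfl fun n hn => ?_
    have hn' : (n:ℝ) ≤ L := by exact_mod_cast (mem_range.mp hn).le
    have h0 : (0:ℝ) ≤ n := Nat.cast_nonneg n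
    unfold Hf
    rw [Set.indicator_of_mem (h _ ⟨by linarith, by linarith⟩)]
  · refine intervalIntegral.integral_congr fun t ht => ?_
    rw [Set.uIcc_of_le (by have : (0:ℝ) ≤ L := Nat.cast_nonneg L; linarith)] at ht
    unfold Hf
    beta_reduce
    rw [Set.indicator_of_mem (h _ ht)]

/-- the block bound in abstract form -/
theorem blk_L2 {φ : ℝ → ℝ} (hφ : Measurable φ) {a0 lo hi X K : ℝ} {u : ℝ} {L : ℕ} (hlh : lo ≤ hi)
    (hr : ∀ t ∈ Set.Icc u (u + L), lo ≤ φ t ∧ φ t ≤ hi) (hX : 0 < X) (hK0 : 0 ≤ K) (hK : ∀ ξ, |ξ| ≤ X → ‖Ker φ u L ξ‖ ≤ K)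
    (hF0 : 0 ≤ F) (hF : ∀ m : ℕ, (m:ℝ) ≤ Real.exp (a0 + hi + 2) → ‖f m‖ ≤ F) :
    ∫⁻ a in Set.Icc a0 (a0 + 1), ‖Blk f φ u L a‖ₑ ^ 2 ≤
      ENNReal.ofReal (F ^ 2 * (K ^ 2 * (hi - lo + 2) + (2 * L * (Real.exp (a0 + hi + 2) + 1)) ^ 2 * (2 / X))) := by
  set A := a0 + lo with hA
  set B := a0 + hi + 2 with hB
  have hAB : A ≤ B := by rw [hA, hB]; linarith
  have h1 : ∫⁻ a in Set.Icc a0 (a0 + 1), ‖Blk f φ u L a‖ₑ ^ 2 = ∫⁻ a in Set.Icc a0 (a0 + 1), ‖Dev (Hf f A B) φ u L a‖ₑ ^ 2 := by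
    refine setLIntegral_congr_fun measurableSet_Icc fun a ha => ?_
    beta_reduce
    rw [blk_eq]
    intro t ht
    have := hr t ht
    exact ⟨by rw [hA]; linarith [ha.1, this.1], by rw [hB]; linarith [ha.2, this.2]⟩
  rw [h1]
  refine (setLIntegral_le_lintegral _ _).trans ?_
  have h2 := dev_L2 (F := F) (Hf_integrable (A := A) hF0 hF) (Hf_measurable f A B) (Hf_bound hF0 hF) hφ u L hX hK
    (fun ξ hξ => Hf_fourier hF hξ) (by positivity) hK0
  refine h2.trans ?_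
  have h3 := Hf_L2 (f := f) hF0 hF hAB
  calc ENNReal.ofReal (K ^ 2) * (∫⁻ z, ‖Hf f A B z‖ₑ ^ 2) +
      ENNReal.ofReal ((2 * L * (F * (Real.exp B + 1))) ^ 2) * ENNReal.ofReal (2 / X)
      ≤ ENNReal.ofReal (K ^ 2) * ENNReal.ofReal (F ^ 2 * (B - A)) +
      ENNReal.ofReal ((2 * L * (F * (Real.exp B + 1))) ^ 2) * ENNReal.ofReal (2 / X) := by gcongr
    _ = _ := by
      rw [← ENNReal.ofReal_mul (by positivity), ← ENNReal.ofReal_mul (by positivity), ← ENNReal.ofReal_add]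
      · congr 1
        rw [hA, hB]
        ring
      · have : 0 ≤ B - A := by linarith
        positivity
      · positivity

end Pool.Agent.N798.M
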