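import Pool.Agent.N798.M4

set_option autoImplicit false

/-! The block bound for generalised polynomials and the Borel-Cantelli step. -/

namespace Pool.Agent.N798.M

open Finset MeasureTheory Filter FourierTransform
open scoped ENNReal
open Pool.Agent.H469R2.NK (e norm_e)

lemma geo_summable {τ : ℝ} (hτ : 0 < τ) : Summable fun k : ℕ => ((2:ℝ) ^ k) ^ (-τ) := by
  have h1 : ∀ k : ℕ, ((2:ℝ) ^ k) ^ (-τ) = ((2:ℝ) ^ (-τ)) ^ k := by
    intro k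
    rw [← Real.rpow_natCast, ← Real.rpow_natCast, ← Real.rpow_mul (by norm_num), ← Real.rpow_mul (by norm_num)]
    congr 1; ring
  simp_rw [h1]
  refine summable_geometric_of_lt_one (by positivity) ?_
  exact Real.rpow_lt_one_of_one_lt_of_neg (by norm_num) (by linarith)

lemma big_pow (K : ℝ) {s : ℝ} (hs : 0 < s) : ∀ᶠ N : ℕ in atTop, K ≤ (N:ℝ) ^ s :=
  ((tendsto_rpow_atTop hs).comp tendsto_natCast_atTop_atTop).eventually_ge_atTop K

lemma gp_measurable {k : ℕ} (γ : ℝ) (c b : Fin k → ℝ) : Measurable (gp γ c b) := by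
  unfold gp
  fun_prop

lemma blk_measurable (f : ℕ → ℂ) {φ : ℝ → ℝ} (hφ : Measurable φ) (u : ℝ) (L : ℕ) : Measurable (Blk f φ u L) := by
  have hL : (0:ℝ) ≤ L := Nat.cast_nonneg L
  unfold Blk
  refine Measurable.sub (Finset.measurable_sum _ fun n _ => ?_) ?_
  · exact (step_measurable f).comp (measurable_id.add_const _)
  · have hm : Measurable (Function.uncurry fun (a t : ℝ) => f ⌊Real.exp (a + φ t)⌋₊) := by
      exact (step_measurable f).comp (measurable_fst.add (hφ.comp measurable_snd))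
    have h2 := (hm.stronglyMeasurable.integral_prod_right (ν := volume.restrict (Set.Ioc u (u + L)))).measurable
    have h3 : (fun a => ∫ t in u..(u + L), f ⌊Real.exp (a + φ t)⌋₊) =
        fun a => ∫ t in Set.Ioc u (u + L), f ⌊Real.exp (a + φ t)⌋₊ := by
      funext a
      rw [intervalIntegral.integral_of_le (by linarith)]
    rw [h3]
    exact h2

/-- the block bound for generalised polynomials -/
theorem gp_block {γ : ℝ} (hγ : 0 < γ) : ∃ τ : ℝ, 0 < τ ∧ τ ≤ 1 / 2 ∧ ∀ (k : ℕ) (c : Fin k → ℝ), (∀ i, c i < γ) →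
    ∀ (b : Fin k → ℝ) (a0 : ℝ), ∃ C0 : ℝ, 0 < C0 ∧ ∃ J0 : ℕ, 1 ≤ J0 ∧ ∀ J : ℕ, J0 ≤ J →
      (∀ t ∈ Set.Icc (J : ℝ) (3 * J), 0 < gp γ c b t ∧ Real.exp (a0 + 1) * gp γ c b t ≤ C0 * (J : ℝ) ^ γ) ∧
      ∀ (f : ℕ → ℂ) (F : ℝ), 0 ≤ F → (∀ m : ℕ, (m:ℝ) ≤ C0 * (J : ℝ) ^ γ → ‖f m‖ ≤ F) → ∀ L : ℕ, L ≤ J →
        ∫⁻ a in Set.Icc a0 (a0 + 1), ‖Blk f (fun t => Real.log (gp γ c b t)) J L a‖ₑ ^ 2 ≤
          ENNReal.ofReal (C0 * F ^ 2 * (J : ℝ) ^ (2 - 2 * τ)) := by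
  obtain ⟨M, hM, η, C, hη, hη2, hC, hker⟩ := ker_bound hγ
  refine ⟨η, hη, hη2, fun k c hc b a0 => ?_⟩
  obtain ⟨κ, hκ, hk⟩ := hker k c
  set sb : ℝ := ∑ i, |b i| with hsb
  have hsb0 : 0 ≤ sb := sum_nonneg fun i _ => abs_nonneg _
  set E : ℝ := Real.exp (a0 + C + 2) * (1 + sb) with hE
  have hE0 : 0 < E := by positivity
  set C0 : ℝ := E + (C ^ 2 * (C + 2) + 8 * (E + 1) ^ 2) with hC0
  have hev : ∀ᶠ J : ℕ in atTop, ∀ i, |b i| ≤ κ * (J : ℝ) ^ (γ - c i) := by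
    rw [eventually_all]
    intro i
    filter_upwards [big_pow (|b i| / κ) (sub_pos.mpr (hc i))] with J hJ
    rwa [div_le_iff₀' hκ] at hJ
  obtain ⟨J1, hJ1⟩ := eventually_atTop.mp hev
  refine ⟨C0, by positivity, max J1 1, le_max_right _ _, fun J hJ => ?_⟩
  have hJn : 1 ≤ J := (le_max_right _ _).trans hJ
  obtain ⟨h1, h2, h3, h4⟩ := hk J b hJn (hJ1 J ((le_max_left _ _).trans hJ))
  have hJ1' : (1:ℝ) ≤ J := by exact_mod_cast hJn
  have hJ0 : (0:ℝ) < J := by linarith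
  have hJm : (J : ℝ) ∈ Set.Icc (J : ℝ) (3 * J) := ⟨le_rfl, by linarith⟩
  have hgJ : gp γ c b J ≤ (1 + sb) * (J : ℝ) ^ γ := by
    unfold gp
    have : ∑ i, b i * (J : ℝ) ^ (c i) ≤ ∑ i, |b i| * (J : ℝ) ^ γ := by
      refine sum_le_sum fun i _ => ?_
      refine mul_le_mul (le_abs_self _) (Real.rpow_le_rpow_of_exponent_le hJ1' (hc i).le) (by positivity) (abs_nonneg _)
    rw [← sum_mul, ← hsb] at this
    linarith
  have hexpJ : Real.exp (Real.log (gp γ c b J)) = gp γ c b J := Real.exp_log (h1 J hJm).1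
  have hEb : Real.exp (a0 + (Real.log (gp γ c b J) + C) + 2) ≤ E * (J : ℝ) ^ γ := by
    rw [show a0 + (Real.log (gp γ c b J) + C) + 2 = (a0 + C + 2) + Real.log (gp γ c b J) by ring, Real.exp_add, hexpJ, hE,
      mul_assoc]
    gcongr
  have hEC : E ≤ C0 := by
    rw [hC0]
    have : 0 ≤ C ^ 2 * (C + 2) + 8 * (E + 1) ^ 2 := by positivity
    linarith
  refine ⟨fun t ht => ⟨(h1 t ht).1, ?_⟩, fun f F hF0 hF L hL => ?_⟩
  · have e1 : Real.exp (a0 + 1) * gp γ c b t = Real.exp (a0 + 1 + Real.log (gp γ c b t)) := by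
      rw [Real.exp_add (a0 + 1), Real.exp_log (h1 t ht).1]
    rw [e1]
    calc Real.exp (a0 + 1 + Real.log (gp γ c b t)) ≤ Real.exp (a0 + (Real.log (gp γ c b J) + C) + 2) := by
          apply Real.exp_le_exp.mpr
          have := (h1 t ht).2.2
          linarith
      _ ≤ E * (J : ℝ) ^ γ := hEb
      _ ≤ C0 * (J : ℝ) ^ γ := by gcongr
  · have hL' : (L:ℝ) ≤ J := by exact_mod_cast hL
    have hφm : Measurable fun t => Real.log (gp γ c b t) := Real.measurable_log.comp (gp_measurable γ c b)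
    have hX : (0:ℝ) < (J : ℝ) ^ M := by positivity
    have hmain := blk_L2 (f := f) (F := F) hφm (a0 := a0) (lo := Real.log (gp γ c b J)) (hi := Real.log (gp γ c b J) + C)
      (X := (J : ℝ) ^ M) (K := C * (J : ℝ) ^ (1 - η)) (u := J) (L := L) (by linarith)
      (fun t ht => by
        have ht' : t ∈ Set.Icc (J : ℝ) (3 * J) := ⟨ht.1, ht.2.trans (by linarith)⟩
        exact ⟨(h1 t ht').2.1, (h1 t ht').2.2⟩)
      hX (by positivity) (fun ξ hξ => h4 J L le_rfl hL (by linarith) ξ hξ) hF0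
      (fun m hm => hF m (hm.trans (hEb.trans (by gcongr))))
    refine hmain.trans (ENNReal.ofReal_le_ofReal ?_)
    have hP : (C * (J : ℝ) ^ (1 - η)) ^ 2 = C ^ 2 * (J : ℝ) ^ (2 - 2 * η) := by
      rw [mul_pow, ← Real.rpow_natCast ((J : ℝ) ^ (1 - η)), ← Real.rpow_mul hJ0.le]
      congr 2
      push_cast
      ring
    have hJγ : 1 ≤ (J : ℝ) ^ γ := Real.one_le_rpow hJ1' hγ.le
    have hQ : (2 * L * (Real.exp (a0 + (Real.log (gp γ c b J) + C) + 2) + 1)) ^ 2 * (2 / (J : ℝ) ^ M) ≤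
        8 * (E + 1) ^ 2 * (J : ℝ) ^ (2 - 2 * η) := by
      have q1 : 2 * L * (Real.exp (a0 + (Real.log (gp γ c b J) + C) + 2) + 1) ≤ 2 * J * ((E + 1) * (J : ℝ) ^ γ) := by
        gcongr
        linarith
      have q2 : (2 * L * (Real.exp (a0 + (Real.log (gp γ c b J) + C) + 2) + 1)) ^ 2 ≤ (2 * J * ((E + 1) * (J : ℝ) ^ γ)) ^ 2 :=
        pow_le_pow_left₀ (by positivity) q1 2
      have q3 : (2 * J * ((E + 1) * (J : ℝ) ^ γ)) ^ 2 * (2 / (J : ℝ) ^ M) = 8 * (E + 1) ^ 2 * ((J:ℝ) ^ 2 * ((J : ℝ) ^ γ) ^ 2 / (J : ℝ) ^ M) := by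
        ring
      have q4 : (J:ℝ) ^ 2 * ((J : ℝ) ^ γ) ^ 2 / (J : ℝ) ^ M = (J : ℝ) ^ (2 + 2 * γ - M) := by
        rw [← Real.rpow_natCast (J:ℝ) M, ← Real.rpow_natCast ((J : ℝ) ^ γ) 2, ← Real.rpow_natCast (J:ℝ) 2, ← Real.rpow_mul hJ0.le,
          ← Real.rpow_add hJ0, ← Real.rpow_sub hJ0]
        congr 1
        push_cast
        ring
      have q5 : (J : ℝ) ^ (2 + 2 * γ - M) ≤ (J : ℝ) ^ (2 - 2 * η) :=
        Real.rpow_le_rpow_of_exponent_le hJ1' (by linarith)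
      calc _ ≤ (2 * J * ((E + 1) * (J : ℝ) ^ γ)) ^ 2 * (2 / (J : ℝ) ^ M) := by gcongr
        _ = 8 * (E + 1) ^ 2 * (J : ℝ) ^ (2 + 2 * γ - M) := by rw [q3, q4]
        _ ≤ _ := by gcongr
    rw [show Real.log (gp γ c b J) + C - Real.log (gp γ c b J) + 2 = C + 2 by ring, hP]
    calc F ^ 2 * (C ^ 2 * (J : ℝ) ^ (2 - 2 * η) * (C + 2) +
          (2 * L * (Real.exp (a0 + (Real.log (gp γ c b J) + C) + 2) + 1)) ^ 2 * (2 / (J : ℝ) ^ M))
        ≤ F ^ 2 * (C ^ 2 * (J : ℝ) ^ (2 - 2 * η) * (C + 2) + 8 * (E + 1) ^ 2 * (J : ℝ) ^ (2 - 2 * η)) := by gcongr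
      _ = (C ^ 2 * (C + 2) + 8 * (E + 1) ^ 2) * F ^ 2 * (J : ℝ) ^ (2 - 2 * η) := by ring
      _ ≤ C0 * F ^ 2 * (J : ℝ) ^ (2 - 2 * η) := by
          gcongr
          rw [hC0]
          linarith

/-- the growth bound in a block -/
lemma growth {f : ℤ → ℂ} (hf : ∀ ε : ℝ, 0 < ε → ∃ C : ℝ, ∀ m : ℤ, ‖f m‖ ≤ C * (1 + |(m:ℝ)|) ^ ε) {C0 γ ε : ℝ}
    (hC0 : 0 < C0) (hγ : 0 < γ) (hε : 0 < ε) :
    ∃ C : ℝ, 0 < C ∧ ∀ J : ℕ, 1 ≤ J → ∀ m : ℕ, (m:ℝ) ≤ C0 * (J:ℝ) ^ γ → ‖f m‖ ≤ C * (J:ℝ) ^ ε := by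
  obtain ⟨C, hC⟩ := hf (ε / γ) (by positivity)
  have hCp : 0 ≤ C := by
    have := hC 0
    have h0 := norm_nonneg (f 0)
    simp only [Int.cast_zero, abs_zero, add_zero, Real.one_rpow, mul_one] at this
    linarith
  refine ⟨C * (1 + C0) ^ (ε / γ) + 1, by positivity, fun J hJ m hm => ?_⟩
  have hJ1 : (1:ℝ) ≤ J := by exact_mod_cast hJ
  have h1 := hC m
  have h2 : |((m:ℤ):ℝ)| = m := by
    push_cast
    exact abs_of_nonneg (Nat.cast_nonneg m)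
  rw [h2] at h1
  have hJγ : 1 ≤ (J : ℝ) ^ γ := Real.one_le_rpow hJ1 hγ.le
  calc ‖f m‖ ≤ C * (1 + (m:ℝ)) ^ (ε / γ) := h1
    _ ≤ C * ((1 + C0) * (J:ℝ) ^ γ) ^ (ε / γ) := by
        gcongr
        nlinarith
    _ = C * (1 + C0) ^ (ε / γ) * (J:ℝ) ^ ε := by
        rw [Real.mul_rpow (by positivity) (by positivity), ← Real.rpow_mul (by positivity), mul_div_cancel₀ _ hγ.ne']
        ring
    _ ≤ _ := by
        have : 0 ≤ (J:ℝ) ^ ε := by positivity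
        nlinarith

end Pool.Agent.N798.M
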