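import Pool.Agent.N798.M5

set_option autoImplicit false

/-! From blocks to the full error term. -/

namespace Pool.Agent.N798.M

open Finset MeasureTheory Filter
open scoped ENNReal

variable {k : ℕ}

/-- the sampled function -/
noncomputable def smp (f : ℤ → ℂ) (γ : ℝ) (c b : Fin k → ℝ) (a t : ℝ) : ℂ := f ⌊Real.exp a * gp γ c b t⌋

/-- the error term -/
noncomputable def Err (g : ℝ → ℂ) (N : ℕ) : ℂ := (∑ n ∈ Ico 1 N, g n) - ∫ t in (1:ℝ)..N, g t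

lemma gp_abs {γ : ℝ} {c : Fin k → ℝ} (hc : ∀ i, c i < γ) (b : Fin k → ℝ) {t : ℝ} (ht : 1 ≤ t) :
    |gp γ c b t| ≤ (1 + ∑ i, |b i|) * t ^ γ := by
  have ht0 : 0 < t := by linarith
  unfold gp
  refine (abs_add_le _ _).trans ?_
  have h1 : |∑ i, b i * t ^ c i| ≤ (∑ i, |b i|) * t ^ γ := by
    refine (abs_sum_le_sum_abs _ _).trans ?_
    rw [sum_mul]
    refine sum_le_sum fun i _ => ?_
    rw [abs_mul, abs_of_pos (Real.rpow_pos_of_pos ht0 _)]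
    exact mul_le_mul_of_nonneg_left (Real.rpow_le_rpow_of_exponent_le ht (hc i).le) (abs_nonneg _)
  rw [abs_of_pos (Real.rpow_pos_of_pos ht0 _)]
  linarith

lemma smp_measurable (f : ℤ → ℂ) (γ : ℝ) (c b : Fin k → ℝ) (a : ℝ) : Measurable (smp f γ c b a) := by
  unfold smp
  exact (measurable_from_top (f := f)).comp (Int.measurable_floor.comp ((gp_measurable γ c b).const_mul _))

lemma smp_bdd (f : ℤ → ℂ) {γ : ℝ} (hγ : 0 < γ) {c : Fin k → ℝ} (hc : ∀ i, c i < γ) (b : Fin k → ℝ) (a : ℝ) {y : ℝ} (hy : 1 ≤ y) :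
    ∃ B : ℝ, 0 ≤ B ∧ ∀ t ∈ Set.Icc 1 y, ‖smp f γ c b a t‖ ≤ B := by
  set R : ℝ := Real.exp a * ((1 + ∑ i, |b i|) * y ^ γ) with hR
  have hs0 : 0 ≤ ∑ i, |b i| := sum_nonneg fun i _ => abs_nonneg _
  refine ⟨∑ m ∈ Icc ⌊-R⌋ ⌊R⌋, ‖f m‖, sum_nonneg fun _ _ => norm_nonneg _, fun t ht => ?_⟩
  have h1 := gp_abs hc b ht.1
  have h2 : |Real.exp a * gp γ c b t| ≤ R := by
    rw [abs_mul, abs_of_pos (Real.exp_pos a), hR]
    have h3 : t ^ γ ≤ y ^ γ := Real.rpow_le_rpow (by linarith [ht.1]) ht.2 hγ.le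
    have h4 : |gp γ c b t| ≤ (1 + ∑ i, |b i|) * y ^ γ := h1.trans (by gcongr)
    gcongr
  have h5 := abs_le.mp h2
  unfold smp
  exact single_le_sum (f := fun m : ℤ => ‖f m‖) (fun _ _ => norm_nonneg _)
    (mem_Icc.mpr ⟨Int.floor_mono h5.1, Int.floor_mono h5.2⟩)

lemma smp_ii (f : ℤ → ℂ) {γ : ℝ} (hγ : 0 < γ) {c : Fin k → ℝ} (hc : ∀ i, c i < γ) (b : Fin k → ℝ) (a : ℝ) {x y : ℝ} (hx : 1 ≤ x) (hxy : x ≤ y) :
    IntervalIntegrable (smp f γ c b a) volume x y := by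
  obtain ⟨B, hB0, hB⟩ := smp_bdd f hγ hc b a (hx.trans hxy)
  rw [intervalIntegrable_iff_integrableOn_Ioc_of_le hxy]
  refine Measure.integrableOn_of_bounded (M := B) (by simp) (smp_measurable f γ c b a).aestronglyMeasurable ?_
  rw [ae_restrict_iff' measurableSet_Ioc]
  exact Eventually.of_forall fun t ht => hB t ⟨hx.trans ht.1.le, ht.2⟩

lemma err_diff {g : ℝ → ℂ} (hg : ∀ x y : ℝ, 1 ≤ x → x ≤ y → IntervalIntegrable g volume x y) {J : ℕ} (hJ : 1 ≤ J) (r : ℕ) :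
    Err g (J + r) - Err g J = (∑ n ∈ range r, g (J + n)) - ∫ t in (J:ℝ)..(J + r), g t := by
  have hJ1 : (1:ℝ) ≤ J := by exact_mod_cast hJ
  have hr : (0:ℝ) ≤ r := Nat.cast_nonneg r
  unfold Err
  have h1 := intervalIntegral.integral_add_adjacent_intervals (hg 1 J le_rfl hJ1) (hg J (J + r) hJ1 (by linarith))
  have h2 : ∑ n ∈ Ico 1 (J + r), g n = (∑ n ∈ Ico 1 J, g n) + ∑ n ∈ range r, g (J + n) := by
    rw [← sum_Ico_consecutive _ hJ (by omega : J ≤ J + r), sum_Ico_eq_sum_range (fun n : ℕ => g n) J (J + r)]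
    congr 1
    rw [Nat.add_sub_cancel_left]
    refine sum_congr rfl fun n _ => ?_
    push_cast
    rfl
  rw [h2]
  push_cast
  rw [← h1]
  ring

lemma blk_smp (f : ℤ → ℂ) {γ : ℝ} {c b : Fin k → ℝ} {a : ℝ} {J : ℕ} {L : ℕ} (hL : L ≤ J) (hpos : ∀ t ∈ Set.Icc (J:ℝ) (3 * J), 0 < gp γ c b t) :
    Blk (fun m : ℕ => f m) (fun t => Real.log (gp γ c b t)) (J:ℝ) L a =
      (∑ n ∈ range L, smp f γ c b a (J + n)) - ∫ t in (J:ℝ)..(J + L), smp f γ c b a t := by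
  have hL' : (L:ℝ) ≤ J := by exact_mod_cast hL
  have hL0 : (0:ℝ) ≤ L := Nat.cast_nonneg L
  have key : ∀ t ∈ Set.Icc (J:ℝ) (J + L), f ((⌊Real.exp (a + Real.log (gp γ c b t))⌋₊ : ℕ) : ℤ) = smp f γ c b a t := by
    intro t ht
    have hp := hpos t ⟨ht.1, by linarith [ht.2]⟩
    unfold smp
    rw [Real.exp_add, Real.exp_log hp, Int.natCast_floor_eq_floor (mul_pos (Real.exp_pos a) hp).le]
  unfold Blk
  congr 1
  · refine sum_congr rfl fun n hn => ?_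
    have hn' : (n:ℝ) ≤ L := by exact_mod_cast (mem_range.mp hn).le
    have h0 : (0:ℝ) ≤ n := Nat.cast_nonneg n
    exact key _ ⟨by linarith, by linarith⟩
  · refine intervalIntegral.integral_congr fun t ht => ?_
    rw [Set.uIcc_of_le (by linarith)] at ht
    exact key t ht

/-- dyadic summation -/
lemma dyadic {S : ℕ → ℂ} {δ C : ℝ} (hδ : 0 < δ) (hδ1 : δ < 1) (hC : 0 ≤ C) {k0 : ℕ}
    (h : ∀ n, k0 ≤ n → ∀ r ≤ 2 ^ n, ‖S (2 ^ n + r) - S (2 ^ n)‖ ≤ C * ((2:ℝ) ^ n) ^ (1 - δ)) :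
    ∃ C' : ℝ, ∀ N : ℕ, 1 ≤ N → ‖S N‖ ≤ C' * (N:ℝ) ^ (1 - δ) := by
  set θ : ℝ := (2:ℝ) ^ (1 - δ) with hθ
  have hθ1 : 1 < θ := Real.one_lt_rpow (by norm_num) (by linarith)
  set C1 : ℝ := ‖S (2 ^ k0)‖ + C / (θ - 1) with hC1
  have hC1' : C ≤ C1 * (θ - 1) := by
    rw [hC1, add_mul, div_mul_cancel₀ _ (by linarith)]
    have : 0 ≤ ‖S (2 ^ k0)‖ * (θ - 1) := mul_nonneg (norm_nonneg _) (by linarith)
    linarith
  have hC10 : 0 ≤ C1 := by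
    have : 0 ≤ C / (θ - 1) := div_nonneg hC (by linarith)
    positivity
  have hpw : ∀ n : ℕ, ((2:ℝ) ^ (n + 1)) ^ (1 - δ) = θ * ((2:ℝ) ^ n) ^ (1 - δ) := by
    intro n
    rw [pow_succ, Real.mul_rpow (by positivity) (by norm_num), hθ, mul_comm]
  have hone : ∀ n : ℕ, 1 ≤ ((2:ℝ) ^ n) ^ (1 - δ) := fun n =>
    Real.one_le_rpow (one_le_pow₀ (by norm_num)) (by linarith)
  have key : ∀ n, k0 ≤ n → ‖S (2 ^ n)‖ ≤ C1 * ((2:ℝ) ^ n) ^ (1 - δ) := by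
    intro n hn
    induction n, hn using Nat.le_induction with
    | base =>
      have h1 := hone k0
      have h2 : ‖S (2 ^ k0)‖ ≤ C1 := by
        rw [hC1]
        have : 0 ≤ C / (θ - 1) := div_nonneg hC (by linarith)
        linarith
      nlinarith
    | succ n hn ih =>
      have h1 := h n hn (2 ^ n) le_rfl
      rw [← two_mul, ← pow_succ'] at h1
      have h2 : ‖S (2 ^ (n + 1))‖ ≤ ‖S (2 ^ (n + 1)) - S (2 ^ n)‖ + ‖S (2 ^ n)‖ := by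
        simpa using norm_add_le (S (2 ^ (n + 1)) - S (2 ^ n)) (S (2 ^ n))
      rw [hpw]
      have h3 : 0 ≤ ((2:ℝ) ^ n) ^ (1 - δ) := by positivity
      nlinarith
  refine ⟨(C1 + C) + ∑ N ∈ range (2 ^ k0), ‖S N‖, fun N hN => ?_⟩
  have hN1 : (1:ℝ) ≤ N := by exact_mod_cast hN
  have hNp : 1 ≤ (N:ℝ) ^ (1 - δ) := Real.one_le_rpow hN1 (by linarith)
  have hsum0 : 0 ≤ ∑ N ∈ range (2 ^ k0), ‖S N‖ := sum_nonneg fun _ _ => norm_nonneg _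
  rcases lt_or_ge N (2 ^ k0) with hlt | hge
  · have h1 : ‖S N‖ ≤ ∑ N ∈ range (2 ^ k0), ‖S N‖ :=
      single_le_sum (f := fun N => ‖S N‖) (fun _ _ => norm_nonneg _) (mem_range.mpr hlt)
    have h2 : 0 ≤ C1 + C := by positivity
    nlinarith
  · obtain ⟨n, h1, h2, h3⟩ : ∃ n, 2 ^ n ≤ N ∧ N < 2 ^ (n + 1) ∧ k0 ≤ n :=
      ⟨Nat.log 2 N, Nat.pow_log_le_self 2 (by omega), Nat.lt_pow_succ_log_self (by norm_num) N,
        Nat.le_log_of_pow_le (by norm_num) hge⟩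
    obtain ⟨r, rfl⟩ := Nat.exists_eq_add_of_le h1
    have h4 : r ≤ 2 ^ n := by rw [pow_succ] at h2; omega
    have h5 := h n h3 r h4
    have h6 := key n h3
    have h7 : ‖S (2 ^ n + r)‖ ≤ ‖S (2 ^ n + r) - S (2 ^ n)‖ + ‖S (2 ^ n)‖ := by
      simpa using norm_add_le (S (2 ^ n + r) - S (2 ^ n)) (S (2 ^ n))
    have h8 : ((2:ℝ) ^ n) ^ (1 - δ) ≤ ((2 ^ n + r : ℕ) : ℝ) ^ (1 - δ) := by
      refine Real.rpow_le_rpow (by positivity) ?_ (by linarith)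
      push_cast
      have : (0:ℝ) ≤ r := Nat.cast_nonneg r
      linarith
    have h9 : (C1 + C) * ((2:ℝ) ^ n) ^ (1 - δ) ≤ (C1 + C) * ((2 ^ n + r : ℕ) : ℝ) ^ (1 - δ) := by gcongr
    have h10 : 0 ≤ (∑ N ∈ range (2 ^ k0), ‖S N‖) * ((2 ^ n + r : ℕ) : ℝ) ^ (1 - δ) := by positivity
    rw [add_mul]
    linarith

/-- good prefixes give a small error term -/
theorem err_of_prefix {γ : ℝ} (hγ : 0 < γ) {τ : ℝ} (hτ : 0 < τ) (hτ2 : τ ≤ 1 / 2) {q : ℕ} (hqle : 4 / τ ≤ q)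
    {c : Fin k → ℝ} (hc : ∀ i, c i < γ) (b : Fin k → ℝ) {f : ℤ → ℂ}
    (hf : ∀ ε : ℝ, 0 < ε → ∃ C : ℝ, ∀ m : ℤ, ‖f m‖ ≤ C * (1 + |(m:ℝ)|) ^ ε) {a0 a : ℝ} (haI : a ∈ Set.Icc a0 (a0 + 1))
    (ha : ∀ᶠ n : ℕ in atTop, ∀ j ≤ 2 ^ (n / q),
      ‖Blk (fun m : ℕ => f m) (fun t => Real.log (gp γ c b t)) ((2 ^ n : ℕ) : ℝ) (j * 2 ^ (n - n / q)) a‖ ≤ ((2:ℝ) ^ n) ^ (1 - τ / 2)) :
    ∃ C : ℝ, ∀ N : ℕ, 1 ≤ N → ‖Err (smp f γ c b a) N‖ ≤ C * (N:ℝ) ^ (1 - min (τ / 2) (1 / (2 * (q:ℝ)))) := by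
  obtain ⟨τ', hτ', hτ2', hblk⟩ := gp_block hγ
  have hq8 : (8:ℝ) ≤ q := by
    refine le_trans ?_ hqle
    rw [le_div_iff₀ hτ]
    linarith
  have hq0 : (0:ℝ) < q := by linarith
  have hqn : 0 < q := by exact_mod_cast hq0
  set δ : ℝ := min (τ / 2) (1 / (2 * (q:ℝ))) with hδ
  have hδ0 : 0 < δ := lt_min (by positivity) (by positivity)
  have hδ1 : δ ≤ τ / 2 := min_le_left _ _
  have hδ2 : δ ≤ 1 / (2 * q) := min_le_right _ _
  obtain ⟨C0, hC0, J0, hJ0, hb⟩ := hblk k c hc b a0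
  obtain ⟨C1, hC1, hg⟩ := growth hf hC0 hγ (show 0 < 1 / (2 * (q:ℝ)) by positivity)
  obtain ⟨n1, hn1⟩ := eventually_atTop.mp ha
  obtain ⟨n2, hn2⟩ := eventually_atTop.mp
    ((tendsto_pow_atTop_atTop_of_one_lt (by norm_num : 1 < 2)).eventually (eventually_ge_atTop J0))
  refine dyadic (C := 1 + 4 * C1) (k0 := max n1 n2) hδ0 (by linarith) (by positivity) fun n hn r hr => ?_
  have hJn : J0 ≤ 2 ^ n := hn2 n ((le_max_right _ _).trans hn)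
  have hJ1 : 1 ≤ 2 ^ n := hJ0.trans hJn
  obtain ⟨hb1, -⟩ := hb (2 ^ n) hJn
  have hcast : ((2 ^ n : ℕ) : ℝ) = (2:ℝ) ^ n := by push_cast; rfl
  set J : ℝ := (2:ℝ) ^ n with hJ
  have hJr : 1 ≤ J := by rw [← hcast]; exact_mod_cast hJ1
  have hJp : 0 < J := by linarith
  have hg1 : ∀ x y : ℝ, 1 ≤ x → x ≤ y → IntervalIntegrable (smp f γ c b a) volume x y := fun x y hx hxy => smp_ii f hγ hc b a hx hxy
  -- decomposition
  set ℓ : ℕ := 2 ^ (n - n / q) with hℓ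
  have hℓ0 : 0 < ℓ := by positivity
  set j := r / ℓ with hj
  set s := r % ℓ with hs
  have hrjs : r = j * ℓ + s := by rw [hj, hs]; exact (Nat.div_add_mod' r ℓ).symm
  have hsl : s < ℓ := Nat.mod_lt _ hℓ0
  have hjle : j ≤ 2 ^ (n / q) := by
    have h1 : 2 ^ n = 2 ^ (n / q) * ℓ := by rw [hℓ, ← pow_add, Nat.add_sub_cancel' (Nat.div_le_self n q)]
    rw [hj]
    calc r / ℓ ≤ (2 ^ (n / q) * ℓ) / ℓ := Nat.div_le_div_right (hr.trans h1.le)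
      _ = _ := Nat.mul_div_cancel _ hℓ0
  have hjl : j * ℓ ≤ 2 ^ n := (by omega : j * ℓ ≤ r).trans hr
  have hB := hn1 n ((le_max_left _ _).trans hn) j hjle
  rw [blk_smp f hjl (fun t ht => (hb1 t ht).1), ← err_diff hg1 hJ1] at hB
  have hsplit : Err (smp f γ c b a) (2 ^ n + r) - Err (smp f γ c b a) (2 ^ n) =
      (Err (smp f γ c b a) (2 ^ n + j * ℓ) - Err (smp f γ c b a) (2 ^ n)) +
      (Err (smp f γ c b a) ((2 ^ n + j * ℓ) + s) - Err (smp f γ c b a) (2 ^ n + j * ℓ)) := by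
    rw [show (2 ^ n + j * ℓ) + s = 2 ^ n + r by omega]
    ring
  -- pointwise bound
  have hF : ∀ t ∈ Set.Icc ((2 ^ n : ℕ):ℝ) (3 * (2 ^ n : ℕ)), ‖smp f γ c b a t‖ ≤ C1 * J ^ (1 / (2 * (q:ℝ))) := by
    intro t ht
    obtain ⟨hp, hle⟩ := hb1 t ht
    have hp2 : 0 < Real.exp a * gp γ c b t := mul_pos (Real.exp_pos a) hp
    unfold smp
    rw [← Int.natCast_floor_eq_floor hp2.le, ← hcast]
    refine hg (2 ^ n) hJ1 _ ((Nat.floor_le hp2.le).trans (le_trans ?_ hle))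
    have : Real.exp a ≤ Real.exp (a0 + 1) := Real.exp_le_exp.mpr haI.2
    gcongr
  have htail : ‖Err (smp f γ c b a) ((2 ^ n + j * ℓ) + s) - Err (smp f γ c b a) (2 ^ n + j * ℓ)‖ ≤
      4 * C1 * J ^ (1 - δ) := by
    rw [err_diff hg1 (by omega)]
    have hjl' : (((2 ^ n + j * ℓ : ℕ)) : ℝ) ≤ 2 * J := by
      rw [← hcast]
      have : 2 ^ n + j * ℓ ≤ 2 * 2 ^ n := by omega
      exact_mod_cast this
    have hjl2 : J ≤ (((2 ^ n + j * ℓ : ℕ)) : ℝ) := by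
      rw [← hcast]
      exact_mod_cast Nat.le_add_right _ _
    have hsJ : (s:ℝ) ≤ J := by
      rw [← hcast]
      have : s ≤ 2 ^ n := by omega
      exact_mod_cast this
    have h1 : ‖∑ m ∈ range s, smp f γ c b a ((2 ^ n + j * ℓ : ℕ) + m)‖ ≤ s * (C1 * J ^ (1 / (2 * (q:ℝ)))) := by
      refine (norm_sum_le _ _).trans ?_
      have : ∀ m ∈ range s, ‖smp f γ c b a ((2 ^ n + j * ℓ : ℕ) + m)‖ ≤ C1 * J ^ (1 / (2 * (q:ℝ))) := by
        intro m hm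
        have hm' : (m:ℝ) ≤ s := by exact_mod_cast (mem_range.mp hm).le
        have h0 : (0:ℝ) ≤ m := Nat.cast_nonneg m
        exact hF _ ⟨by rw [hcast]; linarith, by rw [hcast]; linarith⟩
      refine (sum_le_sum this).trans ?_
      rw [sum_const, card_range, nsmul_eq_mul]
    have h2 : ‖∫ t in ((2 ^ n + j * ℓ : ℕ) : ℝ)..((2 ^ n + j * ℓ : ℕ) + s), smp f γ c b a t‖ ≤ (C1 * J ^ (1 / (2 * (q:ℝ)))) * s := by
      have hs0 : (0:ℝ) ≤ s := Nat.cast_nonneg s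
      have := intervalIntegral.norm_integral_le_of_norm_le_const (a := ((2 ^ n + j * ℓ : ℕ) : ℝ)) (b := ((2 ^ n + j * ℓ : ℕ) : ℝ) + s)
        (f := smp f γ c b a) (C := C1 * J ^ (1 / (2 * (q:ℝ)))) (by
          intro t ht
          rw [Set.uIoc_of_le (by linarith)] at ht
          exact hF _ ⟨by rw [hcast]; linarith [ht.1], by rw [hcast]; linarith [ht.2]⟩)
      rwa [add_sub_cancel_left, abs_of_nonneg hs0] at this
    have h3 : (s:ℝ) ≤ 2 * J ^ (1 - 1 / (q:ℝ)) := by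
      have h4 : (s:ℝ) ≤ ℓ := by exact_mod_cast hsl.le
      refine h4.trans ?_
      have h5 : (ℓ:ℝ) = (2:ℝ) ^ ((n:ℝ) - (n / q : ℕ)) := by
        rw [hℓ]
        push_cast
        rw [← Real.rpow_natCast, Nat.cast_sub (Nat.div_le_self n q)]
      have h6 : J ^ (1 - 1 / (q:ℝ)) = (2:ℝ) ^ ((n:ℝ) * (1 - 1 / q)) := by
        rw [hJ, ← Real.rpow_natCast, ← Real.rpow_mul (by norm_num)]
      rw [h5, h6]
      have h7 : (2:ℝ) * (2:ℝ) ^ ((n:ℝ) * (1 - 1 / q)) = (2:ℝ) ^ (1 + (n:ℝ) * (1 - 1 / q)) := by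
        rw [Real.rpow_add (by norm_num), Real.rpow_one]
      rw [h7]
      refine Real.rpow_le_rpow_of_exponent_le (by norm_num) ?_
      have h8 : (n:ℝ) / q < (n / q : ℕ) + 1 := by
        rw [div_lt_iff₀ hq0]
        have := Nat.lt_div_mul_add (a := n) hqn
        have h9 : (n:ℝ) < (n / q : ℕ) * q + q := by exact_mod_cast this
        linarith
      have h10 : (n:ℝ) * (1 - 1 / q) = n - n / q := by ring
      rw [h10]
      linarith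
    have h11 : J ^ (1 - 1 / (q:ℝ)) * J ^ (1 / (2 * (q:ℝ))) ≤ J ^ (1 - δ) := by
      rw [← Real.rpow_add hJp]
      refine Real.rpow_le_rpow_of_exponent_le hJr ?_
      have : 1 / (q:ℝ) = 1 / (2 * q) + 1 / (2 * q) := by field_simp; norm_num
      linarith
    calc _ ≤ s * (C1 * J ^ (1 / (2 * (q:ℝ)))) + (C1 * J ^ (1 / (2 * (q:ℝ)))) * s := (norm_sub_le _ _).trans (add_le_add h1 h2)
      _ = 2 * C1 * J ^ (1 / (2 * (q:ℝ))) * s := by ring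
      _ ≤ 2 * C1 * J ^ (1 / (2 * (q:ℝ))) * (2 * J ^ (1 - 1 / (q:ℝ))) := by gcongr
      _ = 4 * C1 * (J ^ (1 - 1 / (q:ℝ)) * J ^ (1 / (2 * (q:ℝ)))) := by ring
      _ ≤ _ := by gcongr
  rw [hsplit]
  have hhead : J ^ (1 - τ / 2) ≤ J ^ (1 - δ) := Real.rpow_le_rpow_of_exponent_le hJr (by linarith)
  calc _ ≤ J ^ (1 - τ / 2) + 4 * C1 * J ^ (1 - δ) := (norm_add_le _ _).trans (add_le_add hB htail)
    _ ≤ (1 + 4 * C1) * J ^ (1 - δ) := by linarith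

end Pool.Agent.N798.M
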