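import Pool.Agent.N798.M6
import Pool.Agent.Cov.PNT

set_option autoImplicit false

/-! The main term for the primes. -/

namespace Pool.Agent.N798.M

open Finset MeasureTheory Filter

/-- indicator of the primes -/
noncomputable def ind (m : ℕ) : ℝ := if m.Prime then 1 else 0

lemma ind_nonneg (m : ℕ) : 0 ≤ ind m := by unfold ind; split_ifs <;> norm_num
lemma ind_le (m : ℕ) : ind m ≤ 1 := by unfold ind; split_ifs <;> norm_num

lemma ind_meas : Measurable fun s : ℝ => ind ⌊s⌋₊ := (measurable_from_top (f := ind)).comp Nat.measurable_floor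

lemma ind_ii (x y : ℝ) : IntervalIntegrable (fun s : ℝ => ind ⌊s⌋₊) volume x y := by
  rw [intervalIntegrable_iff]
  refine Measure.integrableOn_of_bounded (M := 1) (by rw [Set.uIoc]; simp) ind_meas.aestronglyMeasurable ?_
  refine Eventually.of_forall fun s => ?_
  rw [Real.norm_of_nonneg (ind_nonneg _)]
  exact ind_le _

/-- continuous prime counting function -/
noncomputable def P1 (v : ℝ) : ℝ := ∫ s in (0:ℝ)..v, ind ⌊s⌋₊

lemma P1_continuous : Continuous P1 := intervalIntegral.continuous_primitive (fun x y => ind_ii x y) 0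

lemma P1_right {v : ℝ} (hv : 0 ≤ v) : HasDerivWithinAt P1 (ind ⌊v⌋₊) (Set.Ici v) v := by
  refine intervalIntegral.integral_hasDerivWithinAt_right (ind_ii 0 v) (s := Set.Ici v) (t := Set.Ioi v) ?_ ?_
  · exact ind_meas.stronglyMeasurable.stronglyMeasurableAtFilter
  · have h1 : (fun s : ℝ => ind ⌊s⌋₊) =ᶠ[nhdsWithin v (Set.Ioi v)] fun _ => ind ⌊v⌋₊ := by
      have h2 : Set.Ioo v (⌊v⌋₊ + 1) ∈ nhdsWithin v (Set.Ioi v) := Ioo_mem_nhdsGT (Nat.lt_floor_add_one v)
      filter_upwards [h2] with s hs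
      have : ⌊s⌋₊ = ⌊v⌋₊ := by
        rw [Nat.floor_eq_iff (hv.trans hs.1.le)]
        exact ⟨(Nat.floor_le hv).trans hs.1.le, hs.2⟩
      rw [this]
    exact (continuousWithinAt_const (b := ind ⌊v⌋₊)).congr_of_eventuallyEq h1 rfl

lemma P1_nat (n : ℕ) : P1 n = (Nat.primeCounting' n : ℝ) := by
  have h1 : ∀ m : ℕ, m < n → IntervalIntegrable (fun s : ℝ => ind ⌊s⌋₊) volume (m:ℝ) ((m + 1 : ℕ):ℝ) := fun m _ => ind_ii _ _
  have h2 := intervalIntegral.sum_integral_adjacent_intervals (f := fun s : ℝ => ind ⌊s⌋₊) (a := fun m : ℕ => (m:ℝ)) (μ := volume) (n := n) h1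
  simp only [Nat.cast_zero] at h2
  unfold P1
  rw [← h2]
  have h3 : ∀ m ∈ range n, ∫ s in (m:ℝ)..((m + 1 : ℕ):ℝ), ind ⌊s⌋₊ = ind m := by
    intro m _
    have h4 : ∫ s in (m:ℝ)..((m + 1 : ℕ):ℝ), ind ⌊s⌋₊ = ∫ s in (m:ℝ)..((m + 1 : ℕ):ℝ), ind m := by
      rw [intervalIntegral.integral_of_le (by push_cast; linarith), intervalIntegral.integral_of_le (by push_cast; linarith),
        ← integral_Ico_eq_integral_Ioc, ← integral_Ico_eq_integral_Ioc]
      refine setIntegral_congr_fun measurableSet_Ico fun s hs => ?_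
      have hs2 := hs.2
      push_cast at hs2
      have : ⌊s⌋₊ = m := by
        rw [Nat.floor_eq_iff ((Nat.cast_nonneg m).trans hs.1)]
        exact ⟨hs.1, hs2⟩
      beta_reduce
      rw [this]
    rw [h4, intervalIntegral.integral_const]
    push_cast
    simp
  rw [sum_congr rfl h3]
  unfold ind Nat.primeCounting'
  rw [Nat.count_eq_card_filter_range, sum_boole]

lemma P1_near {v : ℝ} (hv : 0 ≤ v) : |P1 v - (Nat.primeCounting ⌊v⌋₊ : ℝ)| ≤ 1 := by
  set n := ⌊v⌋₊ with hn
  have h1 : (n:ℝ) ≤ v := Nat.floor_le hv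
  have h2 : v < n + 1 := Nat.lt_floor_add_one v
  have mono : ∀ x y : ℝ, x ≤ y → P1 x ≤ P1 y := by
    intro x y hxy
    have h3 := intervalIntegral.integral_add_adjacent_intervals (ind_ii 0 x) (ind_ii x y)
    have h4 : 0 ≤ ∫ s in x..y, ind ⌊s⌋₊ := intervalIntegral.integral_nonneg hxy fun s _ => ind_nonneg _
    unfold P1
    linarith
  have h3 := mono _ _ h1
  have h4 := mono v ((n + 1 : ℕ) : ℝ) (by push_cast; exact h2.le)
  rw [P1_nat] at h3 h4
  have h5 : Nat.primeCounting n = Nat.primeCounting' (n + 1) := rfl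
  have h6 : Nat.primeCounting' (n + 1) ≤ Nat.primeCounting' n + 1 := by
    unfold Nat.primeCounting'
    rw [Nat.count_succ]
    split_ifs <;> omega
  have h7 : ((Nat.primeCounting' (n + 1) : ℕ) : ℝ) ≤ Nat.primeCounting' n + 1 := by exact_mod_cast h6
  rw [h5, abs_le]
  constructor <;> linarith

lemma P1_asymp : Tendsto (fun v : ℝ => P1 v * Real.log v / v) atTop (nhds 1) := by
  have h1 := Pool.Agent.Cov.PNT.pi_tendsto
  have h2 : Tendsto (fun v : ℝ => Real.log v / v) atTop (nhds 0) := Real.isLittleO_log_id_atTop.tendsto_div_nhds_zero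
  have h3 : Tendsto (fun v : ℝ => P1 v * Real.log v / v - (Nat.primeCounting ⌊v⌋₊ : ℝ) * Real.log v / v) atTop (nhds 0) := by
    refine squeeze_zero_norm' ?_ h2
    filter_upwards [eventually_ge_atTop 1] with v hv
    have hl : 0 ≤ Real.log v := Real.log_nonneg hv
    have e1 : P1 v * Real.log v / v - (Nat.primeCounting ⌊v⌋₊ : ℝ) * Real.log v / v =
        (P1 v - (Nat.primeCounting ⌊v⌋₊ : ℝ)) * (Real.log v / v) := by ring
    rw [e1, norm_mul, Real.norm_eq_abs, Real.norm_of_nonneg (by positivity)]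
    exact mul_le_of_le_one_left (by positivity) (P1_near (by linarith))
  simpa using h1.add h3

/-- weights tending to a limit -/
lemma weight_lim {g m : ℝ → ℝ} {u0 ℓ c : ℝ} (hg0 : ∀ u, u0 ≤ u → 0 ≤ g u) (hgi : ∀ x y : ℝ, u0 ≤ x → x ≤ y → IntervalIntegrable g volume x y)
    (hgm : ∀ x y : ℝ, u0 ≤ x → x ≤ y → IntervalIntegrable (fun u => g u * m u) volume x y) (hm : Tendsto m atTop (nhds ℓ))
    (hc : Tendsto (fun N : ℕ => Real.log N / N * ∫ u in u0..N, g u) atTop (nhds c)) :
    Tendsto (fun N : ℕ => Real.log N / N * ∫ u in u0..N, g u * m u) atTop (nhds (ℓ * c)) := by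
  have hA : Tendsto (fun N : ℕ => Real.log N / N) atTop (nhds 0) :=
    (Real.isLittleO_log_id_atTop.tendsto_div_nhds_zero).comp tendsto_natCast_atTop_atTop
  have hdiff : Tendsto (fun N : ℕ => Real.log N / N * (∫ u in u0..N, g u * m u) - ℓ * (Real.log N / N * ∫ u in u0..N, g u)) atTop (nhds 0) := by
    rw [Metric.tendsto_atTop']
    intro ε hε
    set ε' : ℝ := ε / (2 * (|c| + 2)) with hε'
    have hε'0 : 0 < ε' := by positivity
    obtain ⟨u1, hu1⟩ := eventually_atTop.mp ((Metric.tendsto_nhds.mp hm) ε' hε'0)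
    set u2 := max u1 u0 with hu2
    have hu20 : u0 ≤ u2 := le_max_right _ _
    have hdi : ∀ x y : ℝ, u0 ≤ x → x ≤ y → IntervalIntegrable (fun u => g u * (m u - ℓ)) volume x y := by
      intro x y hx hxy
      have := (hgm x y hx hxy).sub ((hgi x y hx hxy).mul_const ℓ)
      refine this.congr fun u _ => ?_
      ring
    set K : ℝ := |∫ u in u0..u2, g u * (m u - ℓ)| with hK
    have e1 : ∀ᶠ N : ℕ in atTop, Real.log N / N * K < ε / 2 := by
      have := hA.mul_const K
      rw [zero_mul] at this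
      exact this.eventually (gt_mem_nhds (by positivity))
    have e2 : ∀ᶠ N : ℕ in atTop, Real.log N / N * (∫ u in u0..N, g u) < |c| + 1 := by
      exact hc.eventually (gt_mem_nhds (by have := le_abs_self c; linarith))
    obtain ⟨N0, hN0⟩ := eventually_atTop.mp (e1.and (e2.and ((tendsto_natCast_atTop_atTop (R := ℝ)).eventually (eventually_ge_atTop (max u2 1)))))
    refine ⟨N0, fun N hN => ?_⟩
    obtain ⟨f1, f2, f3⟩ := hN0 N hN.le
    have hN2 : u2 ≤ (N:ℝ) := (le_max_left _ _).trans f3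
    have hN1 : 1 ≤ (N:ℝ) := (le_max_right _ _).trans f3
    have hAN : 0 ≤ Real.log N / N := div_nonneg (Real.log_nonneg hN1) (by linarith)
    have h1 : (∫ u in u0..N, g u * m u) - ℓ * (∫ u in u0..N, g u) = ∫ u in u0..N, g u * (m u - ℓ) := by
      rw [mul_comm ℓ, ← intervalIntegral.integral_mul_const, ← intervalIntegral.integral_sub (hgm u0 N le_rfl (hu20.trans hN2))
        ((hgi u0 N le_rfl (hu20.trans hN2)).mul_const ℓ)]
      refine intervalIntegral.integral_congr fun u _ => ?_
      ring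
    have h2 := intervalIntegral.integral_add_adjacent_intervals (hdi u0 u2 le_rfl hu20) (hdi u2 N hu20 hN2)
    have h3 : |∫ u in u2..N, g u * (m u - ℓ)| ≤ ε' * ∫ u in u0..N, g u := by
      have h4 : |∫ u in u2..N, g u * (m u - ℓ)| ≤ ∫ u in u2..N, |g u * (m u - ℓ)| :=
        intervalIntegral.abs_integral_le_integral_abs hN2
      have h5 : ∫ u in u2..N, |g u * (m u - ℓ)| ≤ ∫ u in u2..N, ε' * g u := by
        refine intervalIntegral.integral_mono_on hN2 (hdi u2 N hu20 hN2).abs ((hgi u2 N hu20 hN2).const_mul ε') fun u hu => ?_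
        have h6 := hu1 u ((le_max_left _ _).trans hu.1)
        rw [Real.dist_eq] at h6
        rw [abs_mul, abs_of_nonneg (hg0 u (hu20.trans hu.1)), mul_comm]
        exact mul_le_mul_of_nonneg_right h6.le (hg0 u (hu20.trans hu.1))
      rw [intervalIntegral.integral_const_mul] at h5
      have h7 := intervalIntegral.integral_add_adjacent_intervals (hgi u0 u2 le_rfl hu20) (hgi u2 N hu20 hN2)
      have h8 : 0 ≤ ∫ u in u0..u2, g u := intervalIntegral.integral_nonneg hu20 fun u hu => hg0 u hu.1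
      refine h4.trans (h5.trans ?_)
      rw [← h7]
      nlinarith
    rw [Real.dist_eq, sub_zero]
    have h9 : Real.log N / N * (∫ u in u0..N, g u * m u) - ℓ * (Real.log N / N * ∫ u in u0..N, g u) =
        Real.log N / N * (∫ u in u0..N, g u * (m u - ℓ)) := by
      rw [← h1]; ring
    rw [h9, abs_mul, abs_of_nonneg hAN, ← h2]
    calc Real.log N / N * |(∫ u in u0..u2, g u * (m u - ℓ)) + ∫ u in u2..N, g u * (m u - ℓ)|
        ≤ Real.log N / N * (K + ε' * ∫ u in u0..N, g u) := by
          refine mul_le_mul_of_nonneg_left ?_ hAN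
          exact (abs_add_le _ _).trans (add_le_add le_rfl h3)
      _ = Real.log N / N * K + ε' * (Real.log N / N * ∫ u in u0..N, g u) := by ring
      _ < ε / 2 + ε' * (|c| + 2) := by
          have h10 : ε' * (Real.log N / N * ∫ u in u0..N, g u) ≤ ε' * (|c| + 2) := by
            refine mul_le_mul_of_nonneg_left ?_ hε'0.le
            linarith
          linarith
      _ = ε := by
          rw [hε']
          field_simp
          ring
  have := hdiff.add (hc.const_mul ℓ)
  simpa using this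

lemma base_int {u0 : ℝ} (hu0 : 3 ≤ u0) :
    Tendsto (fun N : ℕ => Real.log N / N * ∫ u in u0..N, ((Real.log u)⁻¹ - ((Real.log u)⁻¹) ^ 2)) atTop (nhds 1) := by
  have hA : Tendsto (fun N : ℕ => Real.log N / N) atTop (nhds 0) :=
    (Real.isLittleO_log_id_atTop.tendsto_div_nhds_zero).comp tendsto_natCast_atTop_atTop
  have h1 : Tendsto (fun N : ℕ => 1 - Real.log N / N * (u0 * (Real.log u0)⁻¹)) atTop (nhds (1 - 0 * (u0 * (Real.log u0)⁻¹))) :=
    tendsto_const_nhds.sub (hA.mul_const _)
  rw [zero_mul, sub_zero] at h1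
  refine h1.congr' ?_
  filter_upwards [(tendsto_natCast_atTop_atTop (R := ℝ)).eventually (eventually_ge_atTop u0)] with N hN
  have hpos : ∀ u, u0 ≤ u → 0 < Real.log u := fun u hu => Real.log_pos (by linarith)
  have hd : ∀ u ∈ Set.uIcc u0 (N:ℝ), HasDerivAt (fun u => u * (Real.log u)⁻¹) ((Real.log u)⁻¹ - ((Real.log u)⁻¹) ^ 2) u := by
    intro u hu
    rw [Set.uIcc_of_le hN] at hu
    have hu0' : 0 < u := by linarith [hu.1]
    have hl := hpos u hu.1
    refine ((hasDerivAt_id u).mul ((Real.hasDerivAt_log hu0'.ne').inv hl.ne')).congr_deriv ?_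
    simp only [id, Pi.inv_apply]
    field_simp
    ring
  have hcont : ContinuousOn (fun u => (Real.log u)⁻¹ - ((Real.log u)⁻¹) ^ 2) (Set.uIcc u0 (N:ℝ)) := by
    rw [Set.uIcc_of_le hN]
    have hl : ContinuousOn (fun u => (Real.log u)⁻¹) (Set.Icc u0 (N:ℝ)) := by
      refine ContinuousOn.inv₀ (Real.continuousOn_log.mono fun u hu => ?_) fun u hu => (hpos u hu.1).ne'
      have : 0 < u := by linarith [hu.1]
      exact this.ne'
    exact hl.sub (hl.pow 2)
  rw [intervalIntegral.integral_eq_sub_of_hasDerivAt hd hcont.intervalIntegrable]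
  have hlN := hpos N hN
  have hN0 : (0:ℝ) < N := by linarith
  field_simp

lemma log_weight {h : ℝ → ℝ} {u0 c : ℝ} (hu0 : 3 ≤ u0) (hh : Tendsto (fun u => h u * Real.log u) atTop (nhds c))
    (hi : ∀ x y : ℝ, u0 ≤ x → x ≤ y → IntervalIntegrable h volume x y) :
    Tendsto (fun N : ℕ => Real.log N / N * ∫ u in u0..N, h u) atTop (nhds c) := by
  set g : ℝ → ℝ := fun u => (Real.log u)⁻¹ - ((Real.log u)⁻¹) ^ 2 with hg
  have hlog1 : ∀ u, u0 ≤ u → 1 < Real.log u := by
    intro u hu
    rw [Real.lt_log_iff_exp_lt (by linarith)]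
    have := Real.exp_one_lt_d9
    linarith
  have hgpos : ∀ u, u0 ≤ u → 0 < g u := by
    intro u hu
    have h1 := hlog1 u hu
    have h2 : 0 < (Real.log u)⁻¹ := by positivity
    have h3 : (Real.log u)⁻¹ < 1 := inv_lt_one_of_one_lt₀ h1
    simp only [hg]
    nlinarith
  have hgi : ∀ x y : ℝ, u0 ≤ x → x ≤ y → IntervalIntegrable g volume x y := by
    intro x y hx hxy
    refine ContinuousOn.intervalIntegrable ?_
    rw [Set.uIcc_of_le hxy]
    have hl : ContinuousOn (fun u => (Real.log u)⁻¹) (Set.Icc x y) := by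
      refine ContinuousOn.inv₀ (Real.continuousOn_log.mono fun u hu => ?_) fun u hu => ?_
      · have : 0 < u := by linarith [hu.1]
        exact this.ne'
      · have := hlog1 u (hx.trans hu.1)
        linarith
    exact hl.sub (hl.pow 2)
  have heq : ∀ u, u0 ≤ u → g u * (h u / g u) = h u := by
    intro u hu
    have := (hgpos u hu).ne'
    field_simp
  have hm : Tendsto (fun u => h u / g u) atTop (nhds c) := by
    have h1 : Tendsto (fun u => (h u * Real.log u) / (1 - (Real.log u)⁻¹)) atTop (nhds (c / (1 - 0))) :=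
      hh.div (tendsto_const_nhds.sub (tendsto_inv_atTop_zero.comp Real.tendsto_log_atTop)) (by norm_num)
    rw [sub_zero, div_one] at h1
    refine h1.congr' ?_
    filter_upwards [eventually_ge_atTop u0] with u hu
    have h2 := hlog1 u hu
    have h3 : 0 < Real.log u := by linarith
    have h4 : (1 - (Real.log u)⁻¹) ≠ 0 := by
      have : (Real.log u)⁻¹ < 1 := inv_lt_one_of_one_lt₀ h2
      linarith
    have h5 : g u = (1 - (Real.log u)⁻¹) / Real.log u := by
      simp only [hg]
      field_simp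
    rw [h5, div_div_eq_mul_div]
  have h1 := weight_lim (g := g) (m := fun u => h u / g u) (fun u hu => (hgpos u hu).le) hgi (fun x y hx hxy => by
    refine (hi x y hx hxy).congr fun u hu => ?_
    rw [Set.uIoc_of_le hxy] at hu
    exact (heq u (hx.trans hu.1.le)).symm) hm (base_int hu0)
  rw [mul_one] at h1
  refine h1.congr' ?_
  filter_upwards [(tendsto_natCast_atTop_atTop (R := ℝ)).eventually (eventually_ge_atTop u0)] with N hN
  congr 1
  refine intervalIntegral.integral_congr fun u hu => ?_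
  rw [Set.uIcc_of_le hN] at hu
  exact heq u hu.1

end Pool.Agent.N798.M
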