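import Pool.Agent.N798.M7

set_option autoImplicit false

/-! Asymptotics of generalised polynomials and the count of the primes. -/

namespace Pool.Agent.N798.M

open Finset MeasureTheory Filter

variable {k : ℕ}

/-- `u ↦ u P'(u)` -/
noncomputable def gpD (γ : ℝ) (c b : Fin k → ℝ) (u : ℝ) : ℝ := γ * u ^ γ + ∑ i, b i * (c i * u ^ (c i))

lemma gp_hasDeriv (γ : ℝ) (c b : Fin k → ℝ) {u : ℝ} (hu : 0 < u) : HasDerivAt (gp γ c b) (gpD γ c b u / u) u := by
  have h0 : ∀ p : ℝ, HasDerivAt (fun x : ℝ => x ^ p) (p * u ^ p / u) u := by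
    intro p
    refine (Real.hasDerivAt_rpow_const (Or.inl hu.ne')).congr_deriv ?_
    rw [Real.rpow_sub_one hu.ne']
    ring
  have h1 : HasDerivAt (fun x => ∑ i, b i * x ^ c i) (∑ i, b i * (c i * u ^ c i / u)) u :=
    HasDerivAt.fun_sum fun i _ => (h0 (c i)).const_mul (b i)
  have h2 := (h0 γ).add h1
  unfold gp
  refine h2.congr_deriv ?_
  unfold gpD
  rw [add_div, sum_div]
  congr 1
  refine sum_congr rfl fun i _ => ?_
  ring

lemma pow_small {c γ : ℝ} (h : c < γ) : Tendsto (fun u : ℝ => u ^ c / u ^ γ) atTop (nhds 0) := by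
  have h1 := tendsto_rpow_neg_atTop (show 0 < γ - c by linarith)
  refine h1.congr' ?_
  filter_upwards [eventually_gt_atTop 0] with u hu
  rw [← Real.rpow_sub hu]
  congr 1
  ring

lemma gp_ratio {γ : ℝ} {c : Fin k → ℝ} (hc : ∀ i, c i < γ) (b : Fin k → ℝ) :
    Tendsto (fun u => gp γ c b u / u ^ γ) atTop (nhds 1) := by
  have h1 : Tendsto (fun u : ℝ => 1 + ∑ i, b i * (u ^ c i / u ^ γ)) atTop (nhds (1 + ∑ i, b i * 0)) :=
    tendsto_const_nhds.add (tendsto_finsetSum _ fun i _ => (pow_small (hc i)).const_mul (b i))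
  simp only [mul_zero, sum_const_zero, add_zero] at h1
  refine h1.congr' ?_
  filter_upwards [eventually_gt_atTop 0] with u hu
  have hp : 0 < u ^ γ := Real.rpow_pos_of_pos hu _
  unfold gp
  rw [add_div, div_self hp.ne', sum_div]
  congr 1
  refine sum_congr rfl fun i _ => ?_
  ring

lemma gpD_ratio {γ : ℝ} {c : Fin k → ℝ} (hc : ∀ i, c i < γ) (b : Fin k → ℝ) :
    Tendsto (fun u => gpD γ c b u / u ^ γ) atTop (nhds γ) := by
  have h1 : Tendsto (fun u : ℝ => γ + ∑ i, b i * c i * (u ^ c i / u ^ γ)) atTop (nhds (γ + ∑ i, b i * c i * 0)) :=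
    tendsto_const_nhds.add (tendsto_finsetSum _ fun i _ => (pow_small (hc i)).const_mul (b i * c i))
  simp only [mul_zero, sum_const_zero, add_zero] at h1
  refine h1.congr' ?_
  filter_upwards [eventually_gt_atTop 0] with u hu
  have hp : 0 < u ^ γ := Real.rpow_pos_of_pos hu _
  unfold gpD
  rw [add_div, mul_div_cancel_right₀ _ hp.ne', sum_div]
  congr 1
  refine sum_congr rfl fun i _ => ?_
  ring

/-- the main term for the primes -/
theorem prime_main {γ : ℝ} (hγ : 0 < γ) {c : Fin k → ℝ} (hc : ∀ i, c i < γ) (b : Fin k → ℝ) (a : ℝ) :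
    Tendsto (fun N : ℕ => Real.log N / N * ∫ t in (1:ℝ)..N, ind ⌊Real.exp a * gp γ c b t⌋₊) atTop (nhds (1 / γ)) := by
  have hA : Tendsto (fun N : ℕ => Real.log N / N) atTop (nhds 0) :=
    (Real.isLittleO_log_id_atTop.tendsto_div_nhds_zero).comp tendsto_natCast_atTop_atTop
  have hq1 := gp_ratio hc b
  have hq2 := gpD_ratio hc b
  obtain ⟨u1, hu1⟩ := eventually_atTop.mp ((hq1.eventually (lt_mem_nhds (show (0:ℝ) < 1 by norm_num))).and
    (hq2.eventually (lt_mem_nhds hγ)))
  set u0 : ℝ := max u1 3 with hu0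
  have hu03 : 3 ≤ u0 := le_max_right _ _
  have hgp : ∀ u, u0 ≤ u → 0 < gp γ c b u := by
    intro u hu
    have h1 := (hu1 u ((le_max_left _ _).trans hu)).1
    have h2 : 0 < u ^ γ := Real.rpow_pos_of_pos (by linarith) _
    exact (div_pos_iff_of_pos_right h2).mp h1
  have hgD : ∀ u, u0 ≤ u → 0 < gpD γ c b u := by
    intro u hu
    have h1 := (hu1 u ((le_max_left _ _).trans hu)).2
    have h2 : 0 < u ^ γ := Real.rpow_pos_of_pos (by linarith) _
    exact (div_pos_iff_of_pos_right h2).mp h1
  set G : ℝ → ℝ := fun u => Real.exp a * gp γ c b u with hG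
  have hGpos : ∀ u, u0 ≤ u → 0 < G u := fun u hu => mul_pos (Real.exp_pos a) (hgp u hu)
  set r : ℝ → ℝ := fun u => gpD γ c b u / gp γ c b u with hr
  have hrpos : ∀ u, u0 ≤ u → 0 < r u := fun u hu => div_pos (hgD u hu) (hgp u hu)
  have hrlim : Tendsto r atTop (nhds γ) := by
    have h1 := hq2.div hq1 one_ne_zero
    rw [div_one] at h1
    refine h1.congr' ?_
    filter_upwards [eventually_ge_atTop u0] with u hu
    have h2 : 0 < u ^ γ := Real.rpow_pos_of_pos (by linarith) _
    simp only [hr, Pi.div_apply]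
    rw [div_div_div_cancel_right₀ h2.ne']
  have hGd : ∀ u, u0 ≤ u → HasDerivAt G (G u * r u / u) u := by
    intro u hu
    have hup : 0 < u := by linarith
    refine ((gp_hasDeriv γ c b hup).const_mul (Real.exp a)).congr_deriv ?_
    have := (hgp u hu).ne'
    simp only [hG, hr]
    field_simp
  have hGc : ContinuousOn G (Set.Ici u0) := fun u hu => (hGd u hu).continuousAt.continuousWithinAt
  have hrc : ContinuousOn r (Set.Ici u0) := by
    have h1 : ContinuousOn (gp γ c b) (Set.Ici u0) := fun u hu =>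
      (gp_hasDeriv γ c b (by have h : u0 ≤ u := hu; linarith)).continuousAt.continuousWithinAt
    have h2 : ContinuousOn (gpD γ c b) (Set.Ici u0) := by
      unfold gpD
      refine ContinuousOn.add (continuousOn_const.mul ?_) (continuousOn_finsetSum _ fun i _ => continuousOn_const.mul (continuousOn_const.mul ?_))
      · exact fun u hu => (Real.continuousAt_rpow_const u _ (Or.inl (by have h : u0 ≤ u := hu; linarith))).continuousWithinAt
      · exact fun u hu => (Real.continuousAt_rpow_const u _ (Or.inl (by have h : u0 ≤ u := hu; linarith))).continuousWithinAt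
    exact h2.div h1 fun u hu => (hgp u hu).ne'
  have hGmono : MonotoneOn G (Set.Ici u0) := by
    refine monotoneOn_of_deriv_nonneg (convex_Ici _) hGc ?_ ?_
    · intro u hu
      exact (hGd u (interior_subset hu)).differentiableAt.differentiableWithinAt
    · intro u hu
      have h : u0 ≤ u := interior_subset hu
      rw [(hGd u h).deriv]
      have h1 := hGpos u h
      have h2 := hrpos u h
      have h3 : 0 < u := by linarith
      positivity
  have hGtop : Tendsto G atTop atTop := by
    have h1 : Tendsto (fun u : ℝ => (gp γ c b u / u ^ γ) * u ^ γ) atTop atTop :=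
      hq1.pos_mul_atTop one_pos (tendsto_rpow_atTop hγ)
    have h2 : Tendsto (fun u : ℝ => Real.exp a * ((gp γ c b u / u ^ γ) * u ^ γ)) atTop atTop :=
      h1.const_mul_atTop (Real.exp_pos a)
    refine h2.congr' ?_
    filter_upwards [eventually_gt_atTop 0] with u hu
    have h3 : 0 < u ^ γ := Real.rpow_pos_of_pos hu _
    simp only [hG]
    rw [div_mul_cancel₀ _ h3.ne']
  have hloglim : Tendsto (fun u => Real.log (G u) / Real.log u) atTop (nhds γ) := by
    have h1 : Tendsto (fun u : ℝ => (a + Real.log (gp γ c b u / u ^ γ)) * (Real.log u)⁻¹ + γ) atTop (nhds ((a + Real.log 1) * 0 + γ)) :=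
      ((tendsto_const_nhds.add (hq1.log one_ne_zero)).mul (tendsto_inv_atTop_zero.comp Real.tendsto_log_atTop)).add_const γ
    rw [mul_zero, zero_add] at h1
    refine h1.congr' ?_
    filter_upwards [eventually_ge_atTop u0] with u hu
    have hup : 0 < u := by linarith
    have hl : 0 < Real.log u := Real.log_pos (by linarith)
    have h3 : 0 < u ^ γ := Real.rpow_pos_of_pos hup _
    simp only [hG]
    rw [Real.log_mul (Real.exp_pos a).ne' (hgp u hu).ne', Real.log_exp, Real.log_div (hgp u hu).ne' h3.ne', Real.log_rpow hup]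
    field_simp
    ring
  -- the weight w
  set w : ℝ → ℝ := fun u => P1 (G u) / G u with hw
  have hwlim : Tendsto (fun u => w u * Real.log u) atTop (nhds (1 / γ)) := by
    have h1 : Tendsto (fun u => P1 (G u) * Real.log (G u) / G u) atTop (nhds 1) := P1_asymp.comp hGtop
    have h2 := h1.div hloglim hγ.ne'
    refine h2.congr' ?_
    filter_upwards [eventually_ge_atTop u0, hGtop.eventually (eventually_gt_atTop 1)] with u hu hG1
    have hl : 0 < Real.log u := Real.log_pos (by linarith)
    have hl2 : 0 < Real.log (G u) := Real.log_pos hG1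
    have hGp := hGpos u hu
    simp only [hw, Pi.div_apply]
    field_simp
  set Q : ℝ → ℝ := fun u => w u * (u / γ) with hQ
  set g1 : ℝ → ℝ := fun u => ind ⌊G u⌋₊ * (r u / γ) with hg1
  set h : ℝ → ℝ := fun u => w u * (1 - r u) / γ with hh
  have hwc : ContinuousOn w (Set.Ici u0) := (P1_continuous.comp_continuousOn hGc).div hGc fun u hu => (hGpos u hu).ne'
  have hQc : ContinuousOn Q (Set.Ici u0) := hwc.mul (continuousOn_id.div_const γ)
  have hhc : ContinuousOn h (Set.Ici u0) := (hwc.mul (continuousOn_const.sub hrc)).div_const γ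
  have hQd : ∀ u, u0 ≤ u → HasDerivWithinAt Q (g1 u + h u) (Set.Ioi u) u := by
    intro u hu
    have hup : 0 < u := by linarith
    have hGp := hGpos u hu
    have d1 : HasDerivWithinAt (P1 ∘ G) (ind ⌊G u⌋₊ * (G u * r u / u)) (Set.Ioi u) u := by
      refine (P1_right hGp.le).comp u (hGd u hu).hasDerivWithinAt ?_
      intro v hv
      have hv' : u < v := hv
      exact hGmono hu (hu.trans hv'.le) hv'.le
    have d2 := d1.div (hGd u hu).hasDerivWithinAt hGp.ne'
    have d3 := d2.mul (((hasDerivAt_id u).div_const γ).hasDerivWithinAt (s := Set.Ioi u))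
    refine d3.congr_deriv ?_
    simp only [hg1, hh, hw, Function.comp, Pi.div_apply, id]
    field_simp
    ring
  have hiind : ∀ x y : ℝ, IntervalIntegrable (fun u => ind ⌊G u⌋₊) volume x y := by
    intro x y
    rw [intervalIntegrable_iff]
    refine Measure.integrableOn_of_bounded (M := 1) (by rw [Set.uIoc]; simp)
      (ind_meas.comp ((gp_measurable γ c b).const_mul (Real.exp a))).aestronglyMeasurable ?_
    refine Eventually.of_forall fun s => ?_
    rw [Real.norm_of_nonneg (ind_nonneg _)]
    exact ind_le _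
  have hig1 : ∀ x y : ℝ, u0 ≤ x → x ≤ y → IntervalIntegrable g1 volume x y := by
    intro x y hx hxy
    refine (hiind x y).mul_continuousOn ?_
    rw [Set.uIcc_of_le hxy]
    exact (hrc.div_const γ).mono fun u hu => hx.trans hu.1
  have hih : ∀ x y : ℝ, u0 ≤ x → x ≤ y → IntervalIntegrable h volume x y := by
    intro x y hx hxy
    refine ContinuousOn.intervalIntegrable ?_
    rw [Set.uIcc_of_le hxy]
    exact hhc.mono fun u hu => hx.trans hu.1
  have hhlim : Tendsto (fun u => h u * Real.log u) atTop (nhds ((1 / γ) * (1 - γ) / γ)) := by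
    have h1 := (hwlim.mul (tendsto_const_nhds (x := (1:ℝ)) |>.sub hrlim)).div_const γ
    refine h1.congr fun u => ?_
    simp only [hh]
    ring
  have hih2 := log_weight hu03 hhlim hih
  have hFTC : ∀ N : ℕ, u0 ≤ N → ∫ u in u0..N, g1 u = Q N - Q u0 - ∫ u in u0..N, h u := by
    intro N hN
    have h1 := intervalIntegral.integral_eq_sub_of_hasDeriv_right (a := u0) (b := N) (f := Q) (f' := fun u => g1 u + h u)
      (hQc.mono (by rw [Set.uIcc_of_le hN]; exact fun u hu => hu.1))
      (by
        intro u hu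
        rw [min_eq_left hN, max_eq_right hN] at hu
        exact hQd u hu.1.le)
      ((hig1 u0 N le_rfl hN).add (hih u0 N le_rfl hN))
    rw [intervalIntegral.integral_add (hig1 u0 N le_rfl hN) (hih u0 N le_rfl hN)] at h1
    linarith
  have hQlim : Tendsto (fun N : ℕ => Real.log N / N * Q N) atTop (nhds (1 / γ / γ)) := by
    have h1 := (hwlim.comp (tendsto_natCast_atTop_atTop (R := ℝ))).div_const γ
    refine h1.congr' ?_
    filter_upwards [eventually_ge_atTop 1] with N hN
    have hN0 : (0:ℝ) < N := by exact_mod_cast hN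
    simp only [Function.comp, hQ]
    field_simp
  have hg1lim : Tendsto (fun N : ℕ => Real.log N / N * ∫ u in u0..N, g1 u) atTop (nhds (1 / γ)) := by
    have h1 := (hQlim.sub (hA.mul_const (Q u0))).sub hih2
    have e1 : 1 / γ / γ - 0 * Q u0 - 1 / γ * (1 - γ) / γ = 1 / γ := by
      field_simp
      ring
    rw [e1] at h1
    refine h1.congr' ?_
    filter_upwards [(tendsto_natCast_atTop_atTop (R := ℝ)).eventually (eventually_ge_atTop u0)] with N hN
    rw [hFTC N hN]
    ring
  have hmlim : Tendsto (fun u => γ / r u) atTop (nhds 1) := by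
    have := (tendsto_const_nhds (x := γ)).div hrlim hγ.ne'
    rwa [div_self hγ.ne'] at this
  have heq : ∀ u, u0 ≤ u → g1 u * (γ / r u) = ind ⌊G u⌋₊ := by
    intro u hu
    have := (hrpos u hu).ne'
    simp only [hg1]
    field_simp
  have h2 := weight_lim (g := g1) (m := fun u => γ / r u) (u0 := u0) (fun u hu => by
      have := hrpos u hu
      have := ind_nonneg ⌊G u⌋₊
      simp only [hg1]
      positivity) hig1 (fun x y hx hxy => by
      refine (hiind x y).congr fun u hu => ?_
      rw [Set.uIoc_of_le hxy] at hu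
      exact (heq u (hx.trans hu.1.le)).symm) hmlim hg1lim
  rw [one_mul] at h2
  have h3 := h2.add (hA.mul_const (∫ u in (1:ℝ)..u0, ind ⌊G u⌋₊))
  rw [zero_mul, add_zero] at h3
  refine h3.congr' ?_
  filter_upwards [(tendsto_natCast_atTop_atTop (R := ℝ)).eventually (eventually_ge_atTop u0)] with N hN
  have h4 := intervalIntegral.integral_add_adjacent_intervals (hiind 1 u0) (hiind u0 N)
  have h5 : ∫ u in u0..N, g1 u * (γ / r u) = ∫ u in u0..N, ind ⌊G u⌋₊ := by
    refine intervalIntegral.integral_congr fun u hu => ?_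
    rw [Set.uIcc_of_le hN] at hu
    exact heq u hu.1
  rw [h5]
  simp only [hG] at h4 ⊢
  rw [← h4]
  ring

end Pool.Agent.N798.M
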