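import Pool.Agent.N798.M8

set_option autoImplicit false

/-! Back to the parameter `α` (deterministic part). -/

namespace Pool.Agent.N798.M

open Finset MeasureTheory Filter

variable {k : ℕ}

lemma scale_eq {A : ℝ} (hA : 0 < A) (γ : ℝ) (b c : Fin k → ℝ) (a t : ℝ) :
    Real.exp (a + Real.log A) * gp γ c (fun i => b i / A) t = Real.exp a * (A * t ^ γ + ∑ i, b i * t ^ c i) := by
  unfold gp
  rw [Real.exp_add, Real.exp_log hA, mul_assoc, mul_add, mul_sum]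
  congr 2
  refine sum_congr rfl fun i _ => ?_
  field_simp

/-- the full error term, for the sum over `1 ≤ n ≤ N` -/
theorem alpha_of_err {γ δ : ℝ} (hγ : 0 < γ) (hδ1 : δ < 1) {A : ℝ} {b c : Fin k → ℝ} (hA : 0 < A) (hc : ∀ i, c i < γ)
    {f : ℤ → ℂ} (hf : ∀ ε : ℝ, 0 < ε → ∃ C : ℝ, ∀ m : ℤ, ‖f m‖ ≤ C * (1 + |(m:ℝ)|) ^ ε) {α : ℝ} (hα : 0 < α)
    (h : ∃ C : ℝ, ∀ N : ℕ, 1 ≤ N → ‖Err (smp f γ c (fun i => b i / A) (Real.log α + Real.log A)) N‖ ≤ C * (N:ℝ) ^ (1 - δ)) :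
    ∃ C : ℝ, ∀ N : ℕ, 1 ≤ N →
    ‖(∑ n ∈ Icc 1 N, f ⌊α * (A * (n:ℝ) ^ γ + ∑ i, b i * (n:ℝ) ^ c i)⌋) - ∫ u in (1:ℝ)..N, f ⌊α * (A * u ^ γ + ∑ i, b i * u ^ c i)⌋‖ ≤
      C * (N:ℝ) ^ (1 - δ) := by
  set a := Real.log α with hadef
  have hexpa : Real.exp a = α := Real.exp_log hα
  rw [← hexpa]
  obtain ⟨C, hC⟩ := h
  obtain ⟨C2, hC2⟩ := hf ((1 - δ) / γ) (div_pos (by linarith) hγ)
  have hC20 : 0 ≤ C2 := by
    have := hC2 0
    have h0 := norm_nonneg (f 0)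
    simp only [Int.cast_zero, abs_zero, add_zero, Real.one_rpow, mul_one] at this
    linarith
  set R : ℝ := Real.exp (a + Real.log A) * (1 + ∑ i, |b i / A|) with hR
  have hR0 : 0 ≤ R := by
    have : 0 ≤ ∑ i, |b i / A| := sum_nonneg fun i _ => abs_nonneg _
    positivity
  refine ⟨C + C2 * (2 + R) ^ ((1 - δ) / γ), fun N hN => ?_⟩
  have hN1 : (1:ℝ) ≤ N := by exact_mod_cast hN
  have e1 : ∀ t : ℝ, smp f γ c (fun i => b i / A) (a + Real.log A) t = f ⌊Real.exp a * (A * t ^ γ + ∑ i, b i * t ^ c i)⌋ := by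
    intro t
    unfold smp
    rw [scale_eq hA]
  have h3 := hC N hN
  have h4 : ‖smp f γ c (fun i => b i / A) (a + Real.log A) N‖ ≤ C2 * (2 + R) ^ ((1 - δ) / γ) * (N:ℝ) ^ (1 - δ) := by
    unfold smp
    set x : ℝ := Real.exp (a + Real.log A) * gp γ c (fun i => b i / A) N with hx
    have h5 : |x| ≤ R * (N:ℝ) ^ γ := by
      rw [hx, abs_mul, abs_of_pos (Real.exp_pos _), hR, mul_assoc]
      exact mul_le_mul_of_nonneg_left (gp_abs hc _ hN1) (Real.exp_pos _).le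
    have h6 : |((⌊x⌋ : ℤ) : ℝ)| ≤ |x| + 1 := by
      have a1 := Int.floor_le x
      have a2 := Int.lt_floor_add_one x
      have a3 := le_abs_self x
      have a4 := neg_abs_le x
      rw [abs_le]
      constructor <;> linarith
    have h7 : 1 ≤ (N:ℝ) ^ γ := Real.one_le_rpow hN1 hγ.le
    refine (hC2 ⌊x⌋).trans ?_
    have h8 : 1 + |((⌊x⌋ : ℤ) : ℝ)| ≤ (2 + R) * (N:ℝ) ^ γ := by nlinarith
    calc C2 * (1 + |((⌊x⌋ : ℤ) : ℝ)|) ^ ((1 - δ) / γ) ≤ C2 * ((2 + R) * (N:ℝ) ^ γ) ^ ((1 - δ) / γ) := by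
          refine mul_le_mul_of_nonneg_left (Real.rpow_le_rpow (by positivity) h8 ?_) hC20
          exact div_nonneg (by linarith) hγ.le
      _ = _ := by
          rw [Real.mul_rpow (by positivity) (by positivity), ← Real.rpow_mul (by positivity), mul_div_cancel₀ _ hγ.ne', mul_assoc]
  have h9 : (∑ n ∈ Icc 1 N, f ⌊Real.exp a * (A * (n:ℝ) ^ γ + ∑ i, b i * (n:ℝ) ^ c i)⌋) -
      ∫ u in (1:ℝ)..N, f ⌊Real.exp a * (A * u ^ γ + ∑ i, b i * u ^ c i)⌋ =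
      Err (smp f γ c (fun i => b i / A) (a + Real.log A)) N + smp f γ c (fun i => b i / A) (a + Real.log A) N := by
    unfold Err
    rw [← Finset.Ico_insert_right hN, sum_insert (by simp)]
    simp_rw [e1]
    ring
  rw [h9]
  calc _ ≤ C * (N:ℝ) ^ (1 - δ) + C2 * (2 + R) ^ ((1 - δ) / γ) * (N:ℝ) ^ (1 - δ) := (norm_add_le _ _).trans (add_le_add h3 h4)
    _ = _ := by ring

/-- the function used for the primes -/
noncomputable def fP : ℤ → ℂ := fun m => ((ind m.toNat : ℝ) : ℂ)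

lemma fP_small : ∀ ε : ℝ, 0 < ε → ∃ C : ℝ, ∀ m : ℤ, ‖fP m‖ ≤ C * (1 + |(m:ℝ)|) ^ ε := by
  intro ε hε
  refine ⟨1, fun m => ?_⟩
  unfold fP
  rw [Complex.norm_real, Real.norm_of_nonneg (ind_nonneg _), one_mul]
  refine (ind_le _).trans (Real.one_le_rpow ?_ hε.le)
  have := abs_nonneg (m:ℝ)
  linarith

/-- the count of the primes -/
theorem primes_of_err {γ δ : ℝ} (hγ : 0 < γ) (hδ : 0 < δ) {A : ℝ} (hA : 0 < A) {b c : Fin k → ℝ} (hc : ∀ i, c i < γ)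
    {α : ℝ} (hα0 : 0 < α) (h : ∃ C : ℝ, ∀ N : ℕ, 1 ≤ N →
    ‖(∑ n ∈ Icc 1 N, fP ⌊α * (A * (n:ℝ) ^ γ + ∑ i, b i * (n:ℝ) ^ c i)⌋) - ∫ u in (1:ℝ)..N, fP ⌊α * (A * u ^ γ + ∑ i, b i * u ^ c i)⌋‖ ≤
      C * (N:ℝ) ^ (1 - δ)) :
    Tendsto (fun N : ℕ => ((#((Icc 1 N).filter fun n : ℕ => (⌊α * (A * (n:ℝ) ^ γ + ∑ i, b i * (n:ℝ) ^ c i)⌋₊).Prime) : ℕ) : ℝ) /
      (N / (γ * Real.log N))) atTop (nhds 1) := by
  obtain ⟨C, hC⟩ := h
  set P : ℝ → ℝ := fun u => A * u ^ γ + ∑ i, b i * u ^ c i with hP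
  have hmain := prime_main hγ hc (fun i => b i / A) (Real.log α + Real.log A)
  have e1 : ∀ t : ℝ, ind ⌊Real.exp (Real.log α + Real.log A) * gp γ c (fun i => b i / A) t⌋₊ = ind ⌊α * P t⌋₊ := by
    intro t
    rw [scale_eq hA, Real.exp_log hα0]
  simp_rw [e1] at hmain
  -- the sum
  have hcount : ∀ N : ℕ, ((#((Icc 1 N).filter fun n : ℕ => (⌊α * P n⌋₊).Prime) : ℕ) : ℝ) = ∑ n ∈ Icc 1 N, ind ⌊α * P n⌋₊ := by
    intro N
    unfold ind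
    rw [sum_boole]
  have hdiff : Tendsto (fun N : ℕ => Real.log N / N * ((∑ n ∈ Icc 1 N, ind ⌊α * P n⌋₊) - ∫ t in (1:ℝ)..N, ind ⌊α * P t⌋₊)) atTop (nhds 0) := by
    have h1 : Tendsto (fun N : ℕ => C * (Real.log N / (N:ℝ) ^ δ)) atTop (nhds (C * 0)) :=
      (((isLittleO_log_rpow_atTop hδ).tendsto_div_nhds_zero).comp tendsto_natCast_atTop_atTop).const_mul C
    rw [mul_zero] at h1
    refine squeeze_zero_norm' ?_ h1
    filter_upwards [eventually_ge_atTop 1] with N hN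
    have hN1 : (1:ℝ) ≤ N := by exact_mod_cast hN
    have hN0 : (0:ℝ) < N := by linarith
    have hl : 0 ≤ Real.log N := Real.log_nonneg hN1
    have h2 := hC N hN
    have h3 : (∑ n ∈ Icc 1 N, fP ⌊α * (A * (n:ℝ) ^ γ + ∑ i, b i * (n:ℝ) ^ c i)⌋) - ∫ u in (1:ℝ)..N, fP ⌊α * (A * u ^ γ + ∑ i, b i * u ^ c i)⌋ =
        (((∑ n ∈ Icc 1 N, ind ⌊α * P n⌋₊) - ∫ t in (1:ℝ)..N, ind ⌊α * P t⌋₊ : ℝ) : ℂ) := by
      push_cast
      rw [← intervalIntegral.integral_ofReal]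
      simp only [fP, Int.floor_toNat, hP]
    rw [h3, Complex.norm_real] at h2
    rw [norm_mul, Real.norm_of_nonneg (by positivity)]
    calc Real.log N / N * ‖(∑ n ∈ Icc 1 N, ind ⌊α * P n⌋₊) - ∫ t in (1:ℝ)..N, ind ⌊α * P t⌋₊‖
        ≤ Real.log N / N * (C * (N:ℝ) ^ (1 - δ)) := by gcongr
      _ = _ := by
        rw [Real.rpow_sub hN0, Real.rpow_one]
        field_simp
  have h4 := (hdiff.add hmain).const_mul γ
  rw [zero_add, mul_one_div_cancel hγ.ne'] at h4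
  refine h4.congr fun N => ?_
  rw [hcount]
  rcases Nat.eq_zero_or_pos N with rfl | hN
  · simp
  · have hN0 : (0:ℝ) < N := by exact_mod_cast hN
    rw [div_div_eq_mul_div]
    field_simp
    ring

end Pool.Agent.N798.M
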