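import Pool.Agent.N798.Mom1

/-!
Moments of zeta along `α a n`: if the moment bound fails for zeta it fails along almost every sequence.
-/

set_option autoImplicit false

open Filter Topology Set MeasureTheory

namespace Pool.Agent.N798

open Pool.Agent.R303.LM

lemma exists_peak (m : ℕ) : ∃ τ : ℝ, (m:ℝ) ≤ τ ∧ τ ≤ m + 1 ∧ ∀ t ∈ Icc (m:ℝ) (m + 1), Z t ≤ Z τ := by
  obtain ⟨τ, h1, h2⟩ := (isCompact_Icc (a := (m:ℝ)) (b := (m:ℝ) + 1)).exists_isMaxOn
    (nonempty_Icc.2 (by linarith)) Z_cont.continuousOn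
  exact ⟨τ, h1.1, h1.2, fun t ht => h2 ht⟩

/-- the point of `[m, m + 1]` at which zeta is largest -/
noncomputable def pk (m : ℕ) : ℝ := (exists_peak m).choose

lemma pk_low (m : ℕ) : (m:ℝ) ≤ pk m := (exists_peak m).choose_spec.1
lemma pk_upp (m : ℕ) : pk m ≤ m + 1 := (exists_peak m).choose_spec.2.1
lemma pk_max (m : ℕ) {t : ℝ} (ht : t ∈ Icc (m:ℝ) (m + 1)) : Z t ≤ Z (pk m) :=
  (exists_peak m).choose_spec.2.2 t ht

open Classical in
/-- the members of the block `[2^k, 2^(k+1))` with a value at least one -/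
noncomputable def blk (k : ℕ) : Finset ℕ := (Finset.Ico (2 ^ k) (2 ^ (k + 1))).filter fun m => 1 ≤ Z (pk m)

lemma int_block {p : ℝ} (hp : 0 < p) (u v : ℕ) (huv : u ≤ v) :
    ∫ t in (u:ℝ)..v, Z t ^ p ≤ ∑ m ∈ Finset.Ico u v, Z (pk m) ^ p := by
  have hc := Zp_cont hp
  have hint : ∀ x y : ℝ, IntervalIntegrable (fun t => Z t ^ p) volume x y := fun x y => hc.intervalIntegrable _ _
  rw [← intervalIntegral.sum_integral_adjacent_intervals_Ico huv (fun k _ => hint _ _)]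
  refine Finset.sum_le_sum fun m _ => ?_
  have h1 : ∫ t in (m:ℝ)..((m + 1 : ℕ) : ℝ), Z t ^ p ≤ ∫ _t in (m:ℝ)..((m + 1 : ℕ) : ℝ), Z (pk m) ^ p := by
    apply intervalIntegral.integral_mono_on (by push_cast; linarith) (hint _ _) intervalIntegrable_const
    intro t ht
    rw [Nat.cast_add, Nat.cast_one] at ht
    exact Real.rpow_le_rpow (Z_nonneg _) (pk_max m ht) hp.le
  refine h1.trans ?_
  rw [intervalIntegral.integral_const, smul_eq_mul]
  push_cast
  linarith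

lemma int_dyadic {p : ℝ} (hp : 0 < p) (k : ℕ) :
    ∫ t in ((2 ^ k : ℕ) : ℝ)..((2 ^ (k + 1) : ℕ) : ℝ), Z t ^ p ≤ (2:ℝ) ^ k + ∑ m ∈ blk k, Z (pk m) ^ p := by
  classical
  refine (int_block hp _ _ (Nat.pow_le_pow_right (by norm_num) (by omega))).trans ?_
  have h1 : ∀ m ∈ Finset.Ico (2 ^ k) (2 ^ (k + 1)), Z (pk m) ^ p ≤
      1 + (if 1 ≤ Z (pk m) then Z (pk m) ^ p else 0) := by
    intro m _
    split_ifs with h
    · linarith
    · push Not at h
      have := Real.rpow_le_one (Z_nonneg (pk m)) h.le hp.le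
      linarith
  refine (Finset.sum_le_sum h1).trans ?_
  rw [Finset.sum_add_distrib, Finset.sum_const, Nat.card_Ico, nsmul_eq_mul, mul_one, ← Finset.sum_filter]
  have h2 : (2 ^ (k + 1) - 2 ^ k : ℕ) = 2 ^ k := by rw [pow_succ]; omega
  rw [h2]
  push_cast
  exact le_rfl

lemma blocks {p M : ℝ} (hp : 0 < p) (hM : 1 ≤ M) (h : ¬ MomExp p M) : ∃ ε : ℝ, 0 < ε ∧ ∀ K : ℕ, ∃ k : ℕ,
    K ≤ k ∧ ((2:ℝ) ^ k) ^ (M + ε) ≤ ∑ m ∈ blk k, Z (pk m) ^ p := by
  unfold MomExp at h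
  push Not at h
  obtain ⟨ε₀, hε₀, h⟩ := h
  refine ⟨ε₀ / 2, by positivity, fun K => ?_⟩
  by_contra hcon
  push Not at hcon
  have hc := Zp_cont hp
  have hint : ∀ x y : ℝ, IntervalIntegrable (fun t => Z t ^ p) volume x y := fun x y => hc.intervalIntegrable _ _
  have hnn : ∀ t, 0 ≤ Z t ^ p := fun t => Real.rpow_nonneg (Z_nonneg t) _
  set s : ℝ := M + ε₀ / 2 with hs
  have hs1 : 1 ≤ s := by linarith
  have h2k : ∀ k : ℕ, (1:ℝ) ≤ 2 ^ k := fun k => one_le_pow₀ (by norm_num)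
  have hblk : ∀ k : ℕ, K ≤ k → ∫ t in ((2 ^ k : ℕ) : ℝ)..((2 ^ (k + 1) : ℕ) : ℝ), Z t ^ p ≤ 2 * ((2:ℝ) ^ k) ^ s := by
    intro k hk
    refine (int_dyadic hp k).trans ?_
    have h1 := (hcon k hk).le
    have h2 : (2:ℝ) ^ k ≤ ((2:ℝ) ^ k) ^ s := Real.self_le_rpow_of_one_le (h2k k) hs1
    linarith
  set I₀ : ℝ := ∫ t in (1:ℝ)..((2 ^ K : ℕ) : ℝ), Z t ^ p with hI₀
  have hI₀0 : 0 ≤ I₀ := intervalIntegral.integral_nonneg (by exact_mod_cast Nat.one_le_two_pow) fun t _ => hnn t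
  have hcum : ∀ j : ℕ, ∫ t in (1:ℝ)..((2 ^ (K + j) : ℕ) : ℝ), Z t ^ p ≤ I₀ + 2 * j * ((2:ℝ) ^ (K + j)) ^ s := by
    intro j
    induction j with
    | zero => simp [hI₀]
    | succ j ih =>
      rw [← intervalIntegral.integral_add_adjacent_intervals (hint 1 ((2 ^ (K + j) : ℕ) : ℝ))
        (hint ((2 ^ (K + j) : ℕ) : ℝ) _)]
      have h1 := hblk (K + j) (by omega)
      have h2 : ((2:ℝ) ^ (K + j)) ^ s ≤ ((2:ℝ) ^ (K + (j + 1))) ^ s :=
        Real.rpow_le_rpow (by positivity) (pow_le_pow_right₀ (by norm_num) (by omega)) (by linarith)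
      have h3 : (K + (j + 1)) = K + j + 1 := by ring
      rw [h3] at h2 ⊢
      push_cast at h1 ih ⊢
      have h4 : (0:ℝ) ≤ j := Nat.cast_nonneg j
      nlinarith
  -- the bound for all `T`
  obtain ⟨A, hA⟩ : ∃ A : ℝ, ∀ T : ℝ, 1 ≤ T → ∫ t in (1:ℝ)..T, Z t ^ p ≤ A * T ^ (M + ε₀) := by
    refine ⟨I₀ + 2 * (1 + 2 / ε₀ / Real.log 2) * ((2:ℝ) ^ (K + 1)) ^ s, fun T hT => ?_⟩
    obtain ⟨n, hn1, hn2⟩ := exists_nat_pow_near hT (by norm_num : (1:ℝ) < 2)
    have hT0 : 0 < T := by linarith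
    have h1 : ∫ t in (1:ℝ)..T, Z t ^ p ≤ ∫ t in (1:ℝ)..((2 ^ (K + (n + 1)) : ℕ) : ℝ), Z t ^ p := by
      apply intervalIntegral.integral_mono_interval le_rfl hT
      · push_cast
        refine hn2.le.trans (pow_le_pow_right₀ (by norm_num) (by omega))
      · exact Eventually.of_forall fun t => hnn t
      · exact hint _ _
    refine h1.trans ((hcum (n + 1)).trans ?_)
    have hl2 : 0 < Real.log 2 := Real.log_pos (by norm_num)
    have h2 : (n:ℝ) ≤ 2 / ε₀ / Real.log 2 * T ^ (ε₀ / 2) := by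
      have h3 : (n:ℝ) * Real.log 2 ≤ Real.log T := by
        rw [← Real.log_pow]
        exact Real.log_le_log (by positivity) hn1
      have h4 : Real.log T ≤ T ^ (ε₀ / 2) / (ε₀ / 2) := Real.log_le_rpow_div hT0.le (by positivity)
      rw [div_mul_eq_mul_div, le_div_iff₀ hl2]
      refine h3.trans (h4.trans (le_of_eq ?_))
      field_simp
    have h3 : ((2:ℝ) ^ (K + (n + 1))) ^ s ≤ ((2:ℝ) ^ (K + 1)) ^ s * T ^ s := by
      rw [← Real.mul_rpow (by positivity) hT0.le]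
      apply Real.rpow_le_rpow (by positivity) _ (by linarith)
      rw [show K + (n + 1) = (K + 1) + n by ring, pow_add]
      exact mul_le_mul_of_nonneg_left hn1 (by positivity)
    have h5 : 1 ≤ T ^ (ε₀ / 2) := Real.one_le_rpow hT (by positivity)
    have h6 : (((n + 1 : ℕ)) : ℝ) ≤ (1 + 2 / ε₀ / Real.log 2) * T ^ (ε₀ / 2) := by
      push_cast
      linarith
    have h7 : 1 ≤ T ^ (M + ε₀) := Real.one_le_rpow hT (by linarith)
    calc I₀ + 2 * ((n + 1 : ℕ) : ℝ) * ((2:ℝ) ^ (K + (n + 1))) ^ s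
        ≤ I₀ * T ^ (M + ε₀) + 2 * ((1 + 2 / ε₀ / Real.log 2) * T ^ (ε₀ / 2)) * (((2:ℝ) ^ (K + 1)) ^ s * T ^ s) := by
          refine add_le_add (le_mul_of_one_le_right hI₀0 h7) ?_
          refine mul_le_mul (by linarith) h3 (by positivity) (by positivity)
      _ = I₀ * T ^ (M + ε₀) + 2 * (1 + 2 / ε₀ / Real.log 2) * ((2:ℝ) ^ (K + 1)) ^ s * (T ^ (ε₀ / 2) * T ^ s) := by ring
      _ = (I₀ + 2 * (1 + 2 / ε₀ / Real.log 2) * ((2:ℝ) ^ (K + 1)) ^ s) * T ^ (M + ε₀) := by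
          rw [← Real.rpow_add hT0, show ε₀ / 2 + s = M + ε₀ by rw [hs]; ring]; ring
  obtain ⟨T, hT1, hT2⟩ := h A
  exact absurd (hA T hT1) (not_le.2 hT2)

lemma card_le {S : Finset ℕ} {y L : ℝ} (hy : 0 ≤ y) (hL : 0 ≤ L) (h : ∀ m ∈ S, y ≤ m ∧ (m:ℝ) ≤ y + L) :
    (S.card : ℝ) ≤ L + 1 := by
  have h1 : S ⊆ Finset.Icc ⌈y⌉₊ ⌊y + L⌋₊ := by
    intro m hm
    obtain ⟨h2, h3⟩ := h m hm
    exact Finset.mem_Icc.2 ⟨Nat.ceil_le.2 h2, Nat.le_floor h3⟩
  have h2 := Finset.card_le_card h1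
  rw [Nat.card_Icc] at h2
  have h3 : (⌊y + L⌋₊ : ℝ) ≤ y + L := Nat.floor_le (by linarith)
  have h4 : y ≤ (⌈y⌉₊ : ℝ) := Nat.le_ceil y
  have h5 : ((⌊y + L⌋₊ + 1 - ⌈y⌉₊ : ℕ) : ℝ) ≤ L + 1 := by
    rcases le_total ⌈y⌉₊ (⌊y + L⌋₊ + 1) with h6 | h6
    · rw [Nat.cast_sub h6]; push_cast; linarith
    · rw [Nat.sub_eq_zero_of_le h6]; push_cast; linarith
  exact (Nat.cast_le.2 h2).trans h5

/-- the second moment style argument: a weighted family of subsets of a ball -/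
lemma big_set {S : Finset ℕ} {w : ℕ → ℝ} (hw : ∀ m ∈ S, 0 ≤ w m) (hS : 0 < ∑ m ∈ S, w m) {H : ℕ → Set ℝ}
    (hHm : ∀ m ∈ S, MeasurableSet (H m)) {x ρ q θ : ℝ} (hρ : 0 < ρ) (hq : 0 ≤ q) (hθ : 0 ≤ θ)
    (hH : ∀ m ∈ S, H m ⊆ Metric.closedBall x ρ) (hv : ∀ m ∈ S, ENNReal.ofReal q ≤ volume (H m))
    (hθq : 4 * θ * ρ ≤ q) :
    ∃ E : Set ℝ, MeasurableSet E ∧ E ⊆ Metric.closedBall x ρ ∧ ENNReal.ofReal (q / 2) ≤ volume E ∧
      ∀ α ∈ E, ∃ S' : Finset ℕ, S' ⊆ S ∧ (∀ m ∈ S', α ∈ H m) ∧ θ * ∑ m ∈ S, w m ≤ ∑ m ∈ S', w m := by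
  classical
  set Y : ℝ → ENNReal := fun α => ∑ m ∈ S, (H m).indicator (fun _ => ENNReal.ofReal (w m)) α with hY
  have hYm : Measurable Y := by
    apply Finset.measurable_fun_sum
    intro m hm
    exact measurable_const.indicator (hHm m hm)
  set Sg : ℝ := ∑ m ∈ S, w m with hSg
  have hSge : ENNReal.ofReal Sg = ∑ m ∈ S, ENNReal.ofReal (w m) := ENNReal.ofReal_sum_of_nonneg hw
  set E : Set ℝ := Metric.closedBall x ρ ∩ {α | ENNReal.ofReal (θ * Sg) ≤ Y α} with hE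
  have hEm : MeasurableSet E := Metric.isClosed_closedBall.measurableSet.inter
    (measurableSet_le measurable_const hYm)
  refine ⟨E, hEm, inter_subset_left, ?_, ?_⟩
  · have h1 : ∫⁻ α, Y α = ∑ m ∈ S, ENNReal.ofReal (w m) * volume (H m) := by
      rw [lintegral_finset_sum' _ (fun m hm => (measurable_const.indicator (hHm m hm)).aemeasurable)]
      refine Finset.sum_congr rfl fun m hm => ?_
      rw [lintegral_indicator_const (hHm m hm)]
    have h2 : ENNReal.ofReal Sg * ENNReal.ofReal q ≤ ∫⁻ α, Y α := by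
      rw [h1, hSge, Finset.sum_mul]
      exact Finset.sum_le_sum fun m hm => mul_le_mul_right (hv m hm) _
    have h3 : ∀ α, Y α ≤ E.indicator (fun _ => ENNReal.ofReal Sg) α +
        (Metric.closedBall x ρ).indicator (fun _ => ENNReal.ofReal (θ * Sg)) α := by
      intro α
      by_cases hα : α ∈ Metric.closedBall x ρ
      · by_cases hα2 : ENNReal.ofReal (θ * Sg) ≤ Y α
        · rw [indicator_of_mem (show α ∈ E from ⟨hα, hα2⟩)]
          refine le_trans ?_ le_self_add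
          rw [hSge, hY]
          refine Finset.sum_le_sum fun m _ => ?_
          exact indicator_le_self' (fun _ _ => bot_le) _ 
        · rw [indicator_of_mem hα]
          push Not at hα2
          exact hα2.le.trans le_add_self
      · have h4 : Y α = 0 := by
          rw [hY]
          refine Finset.sum_eq_zero fun m hm => ?_
          exact indicator_of_notMem (fun h => hα (hH m hm h)) _
        rw [h4]
        exact bot_le
    have h4 : ∫⁻ α, Y α ≤ ENNReal.ofReal Sg * volume E + ENNReal.ofReal (θ * Sg) * ENNReal.ofReal (2 * ρ) := by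
      refine (lintegral_mono h3).trans ?_
      rw [lintegral_add_left (measurable_const.indicator hEm), lintegral_indicator_const hEm,
        lintegral_indicator_const Metric.isClosed_closedBall.measurableSet, Real.volume_closedBall]
    have h5 := h2.trans h4
    rw [ENNReal.ofReal_mul hθ, mul_comm (ENNReal.ofReal θ), mul_assoc, ← mul_add,
      ENNReal.mul_le_mul_iff_right (by simpa using hS) ENNReal.ofReal_ne_top, ← ENNReal.ofReal_mul hθ] at h5
    have h6 : ENNReal.ofReal q = ENNReal.ofReal (q / 2) + ENNReal.ofReal (q / 2) := by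
      rw [← ENNReal.ofReal_add (by positivity) (by positivity)]; congr 1; ring
    rw [h6] at h5
    have h7 : ENNReal.ofReal (θ * (2 * ρ)) ≤ ENNReal.ofReal (q / 2) := ENNReal.ofReal_le_ofReal (by linarith)
    have h8 := h5.trans (add_le_add le_rfl h7)
    exact (ENNReal.add_le_add_iff_right ENNReal.ofReal_ne_top).1 h8
  · rintro α ⟨-, hα⟩
    refine ⟨S.filter fun m => α ∈ H m, Finset.filter_subset _ _, fun m hm => (Finset.mem_filter.1 hm).2, ?_⟩
    have h1 : Y α = ENNReal.ofReal (∑ m ∈ S.filter fun m => α ∈ H m, w m) := by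
      rw [ENNReal.ofReal_sum_of_nonneg fun m hm => hw m (Finset.mem_filter.1 hm).1, Finset.sum_filter]
      refine Finset.sum_congr rfl fun m _ => ?_
      simp [indicator_apply]
    have h2 : ENNReal.ofReal (θ * Sg) ≤ Y α := hα
    rw [h1] at h2
    exact (ENNReal.ofReal_le_ofReal_iff (Finset.sum_nonneg fun m hm => hw m (Finset.mem_filter.1 hm).1)).1 h2

end Pool.Agent.N798
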