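import Pool.Agent.N798.Mom2

/-!
Moments of zeta along `α a n`: if the moment bound fails for zeta it fails along almost every sequence.
-/

set_option autoImplicit false

open Filter Topology Set MeasureTheory

namespace Pool.Agent.N798

open Pool.Agent.R303.LM

lemma eventually_big (D s : ℝ) (hs : 0 < s) : ∀ᶠ k : ℕ in atTop, D < ((2:ℝ) ^ k) ^ s := by
  have h1 : Tendsto (fun k : ℕ => (2:ℝ) ^ k) atTop atTop := tendsto_pow_atTop_atTop_of_one_lt (by norm_num)
  exact ((tendsto_rpow_atTop hs).comp h1).eventually_gt_atTop D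

lemma eventually_big' (D : ℝ) : ∀ᶠ k : ℕ in atTop, D < (2:ℝ) ^ k :=
  (tendsto_pow_atTop_atTop_of_one_lt (by norm_num : (1:ℝ) < 2)).eventually_gt_atTop D

lemma fail_mom_M {a : ℕ → ℝ} {c C : ℝ} (ha : Del a c C) {p M ε : ℝ} (hp : 0 < p) (hM : 1 ≤ M) (hε : 0 < ε)
    (hblk : ∀ K : ℕ, ∃ k : ℕ, K ≤ k ∧ ((2:ℝ) ^ k) ^ (M + ε) ≤ ∑ m ∈ blk k, Z (pk m) ^ p) (A : ℕ) :
    volume {α : ℝ | 0 < α ∧ ∀ N : ℕ, 1 ≤ N →
      ∑ n ∈ Finset.range N, Z (α * a n) ^ p ≤ A * (N : ℝ) ^ (M + ε / 4)} = 0 := by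
  apply null_of_holes
  rintro x ⟨hx0, hx⟩
  have hc := ha.hc
  have hC := ha.hC
  set e : ℝ := min (ε / (8 * p)) 1 with he
  have he0 : 0 < e := lt_min (by positivity) one_pos
  have he1 : e ≤ 1 := min_le_right _ _
  have he2 : e * p ≤ ε / 8 := by
    have h1 : e ≤ ε / (8 * p) := min_le_left _ _
    calc e * p ≤ ε / (8 * p) * p := mul_le_mul_of_nonneg_right h1 hp.le
      _ = ε / 8 := by field_simp
  obtain ⟨W, r, T₁, hW, hr0, hr1, hT₁, hwin⟩ := window he0 he1
  set B : ℝ := r + x * C + 1 with hB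
  have hxC : 0 < x * C := mul_pos hx0 hC
  have hB0 : 0 < B := by positivity
  set θ : ℝ := r / (32 * B) with hθ
  have hθ0 : 0 < θ := by positivity
  set Q : ℝ := x * C + 2 * W + 2 with hQ
  have hQ0 : 0 < Q := by positivity
  set D : ℝ := 4 / (x * c) + 1 with hD
  have hD0 : 0 < D := by positivity
  refine ⟨r / (16 * B), by positivity, fun δ hδ => ?_⟩
  -- the choice of the block
  obtain ⟨K₁, hK₁⟩ := (eventually_big' (T₁ + x * a 0 + 2 * W + x * C + 2 + 2 * x * B / δ)).exists_forall_of_atTop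
  obtain ⟨K₂, hK₂⟩ := (eventually_big (2 ^ (e * p) * Q * A * D ^ (M + ε / 4) / θ) (5 * ε / 8)
    (by positivity)).exists_forall_of_atTop
  obtain ⟨k, hk, hsum⟩ := hblk (max K₁ K₂)
  have hk1 := hK₁ k ((le_max_left _ _).trans hk)
  have hk2 := hK₂ k ((le_max_right _ _).trans hk)
  set X : ℝ := (2:ℝ) ^ k with hX
  have hxa : 0 < x * a 0 := mul_pos hx0 ha.pos
  have hδB : 0 < 2 * x * B / δ := by positivity
  have hX1 : 1 ≤ X := one_le_pow₀ (by norm_num)
  have hX0 : 0 < X := by linarith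
  have hmem : ∀ m ∈ blk k, X ≤ m ∧ (m:ℝ) + 1 ≤ 2 * X ∧ 1 ≤ Z (pk m) := by
    intro m hm
    classical
    obtain ⟨h1, h2⟩ := Finset.mem_filter.1 hm
    obtain ⟨h3, h4⟩ := Finset.mem_Ico.1 h1
    refine ⟨?_, ?_, h2⟩
    · have : ((2 ^ k : ℕ) : ℝ) ≤ m := by exact_mod_cast h3
      push_cast at this
      exact this
    · have : (m:ℝ) + 1 ≤ ((2 ^ (k + 1) : ℕ) : ℝ) := by exact_mod_cast h4
      push_cast at this
      rw [pow_succ] at this
      linarith
  -- windows
  have hwin' : ∀ m ∈ blk k, ∃ T₀ : ℝ, |T₀ - pk m| ≤ W ∧ ∃ G : Set ℝ, MeasurableSet G ∧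
      G ⊆ Icc (T₀ - r) (T₀ + r) ∧ ENNReal.ofReal r ≤ volume G ∧ ∀ t ∈ G, pk m ^ (-e) * Z (pk m) ≤ Z t := by
    intro m hm
    obtain ⟨h1, h2, h3⟩ := hmem m hm
    exact hwin (pk m) (by have := pk_low m; linarith) h3
  choose! τ hτ G hGm hGs hGv hGZ using hwin'
  have hτ' : ∀ m ∈ blk k, (m:ℝ) - W ≤ τ m ∧ τ m ≤ m + 1 + W := by
    intro m hm
    have h1 := abs_le.1 (hτ m hm)
    have h2 := pk_low m
    have h3 := pk_upp m
    constructor <;> linarith [h1.1, h1.2]
  -- the indices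
  have hidx : ∀ m ∈ blk k, ∃ n : ℕ, τ m ≤ x * a n ∧ x * a n ≤ τ m + x * C := by
    intro m hm
    obtain ⟨h1, h2, h3⟩ := hmem m hm
    have h4 := hτ' m hm
    have hex : ∃ n, τ m ≤ x * a n := by
      have := (Tendsto.const_mul_atTop hx0 ha.tendsto).eventually_ge_atTop (τ m)
      exact this.exists
    classical
    have h5 := Nat.find_spec hex
    obtain ⟨j, hj⟩ : ∃ j, Nat.find hex = j + 1 := by
      refine ⟨Nat.find hex - 1, ?_⟩
      have : Nat.find hex ≠ 0 := by
        intro h0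
        rw [h0] at h5
        linarith
      omega
    refine ⟨Nat.find hex, h5, ?_⟩
    have h6 : x * a j < τ m := by
      by_contra hcon
      push Not at hcon
      have := Nat.find_min' hex hcon
      omega
    rw [hj]
    have h7 := mul_le_mul_of_nonneg_left (ha.upp j) hx0.le
    rw [mul_sub] at h7
    linarith
  choose! ν hν1 hν2 using hidx
  have hav : ∀ m ∈ blk k, X / (2 * x) ≤ a (ν m) ∧ a (ν m) ≤ 4 * X / x := by
    intro m hm
    obtain ⟨h1, h2, h3⟩ := hmem m hm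
    have h4 := hτ' m hm
    have h5 := hν1 m hm
    have h6 := hν2 m hm
    constructor
    · rw [div_le_iff₀ (by positivity)]
      linarith
    · rw [le_div_iff₀ hx0]
      linarith
  set ρ : ℝ := 2 * x * B / X with hρ
  have hρ0 : 0 < ρ := by positivity
  have hρδ : ρ < δ := by
    rw [hρ, div_lt_iff₀ hX0]
    have : 2 * x * B / δ < X := by linarith
    rw [div_lt_iff₀ hδ] at this
    linarith
  set H : ℕ → Set ℝ := fun m => {α : ℝ | 0 + α * a (ν m) ∈ G m} with hH
  obtain ⟨E, hEm, hEs, hEv, hE⟩ := big_set (S := blk k) (w := fun m => Z (pk m) ^ p)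
    (fun m _ => Real.rpow_nonneg (Z_nonneg _) _)
    (lt_of_lt_of_le (Real.rpow_pos_of_pos hX0 _) hsum) (H := H)
    (fun m hm => measurable_affine (hGm m hm)) (x := x) (ρ := ρ) (q := r * x / (4 * X)) (θ := θ) hρ0
    (by positivity) hθ0.le
    (by
      intro m hm α hα
      have h1 := hGs m hm hα
      rw [zero_add] at h1
      obtain ⟨h2, -⟩ := hav m hm
      have h3 := hν1 m hm
      have h4 := hν2 m hm
      have hapos := ha.pos' (ν m)
      have h5 : |α - x| * a (ν m) ≤ r + x * C := by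
        rw [← abs_of_pos hapos, ← abs_mul, sub_mul, abs_le]
        constructor <;> linarith [h1.1, h1.2]
      rw [Metric.mem_closedBall, Real.dist_eq, hρ, le_div_iff₀ hX0]
      have h6 : X ≤ 2 * x * a (ν m) := by
        rw [div_le_iff₀ (by positivity)] at h2
        linarith
      calc |α - x| * X ≤ |α - x| * (2 * x * a (ν m)) := mul_le_mul_of_nonneg_left h6 (abs_nonneg _)
        _ = 2 * x * (|α - x| * a (ν m)) := by ring
        _ ≤ 2 * x * B := by
            apply mul_le_mul_of_nonneg_left _ (by positivity)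
            rw [hB]; linarith)
    (by
      intro m hm
      have hapos := ha.pos' (ν m)
      obtain ⟨-, h2⟩ := hav m hm
      rw [volume_affine hapos]
      have h3 : r * x / (4 * X) ≤ (a (ν m))⁻¹ * r := by
        rw [le_div_iff₀ hx0] at h2
        rw [inv_mul_eq_div, div_le_div_iff₀ (by positivity) hapos]
        nlinarith
      refine (ENNReal.ofReal_le_ofReal h3).trans ?_
      rw [ENNReal.ofReal_mul (inv_nonneg.2 hapos.le)]
      exact mul_le_mul_right (hGv m hm) _)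
    (by
      rw [hθ, hρ]
      apply le_of_eq
      field_simp
      ring)
  refine ⟨ρ, hρ0, hρδ, E, hEm, hEs, ?_, ?_⟩
  · rw [Set.disjoint_left]
    rintro α hα ⟨hα0, hα2⟩
    obtain ⟨S', hS', hS'H, hS'w⟩ := hE α hα
    obtain ⟨N, hN1, hN2, hNν⟩ : ∃ N : ℕ, 1 ≤ N ∧ (N:ℝ) ≤ D * X ∧ ∀ m ∈ S', ν m ∈ Finset.range N := by
      refine ⟨⌊4 * X / (x * c)⌋₊ + 1, by omega, ?_, ?_⟩
      · push_cast
        have h1 : (⌊4 * X / (x * c)⌋₊ : ℝ) ≤ 4 * X / (x * c) := Nat.floor_le (by positivity)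
        have h2 : D * X = 4 * X / (x * c) + X := by rw [hD]; ring
        rw [h2]
        linarith
      · intro m hm
        rw [Finset.mem_range, Nat.lt_succ_iff]
        apply Nat.le_floor
        obtain ⟨-, h2⟩ := hav m (hS' hm)
        have h3 := ha.lower (ν m)
        have h4 := ha.pos
        rw [le_div_iff₀ hx0] at h2
        rw [le_div_iff₀ (by positivity)]
        nlinarith
    have h1 := hα2 N hN1
    have hval : ∀ m ∈ S', Z (pk m) ^ p ≤ (2 * X) ^ (e * p) * Z (α * a (ν m)) ^ p := by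
      intro m hm
      have h2 := hGZ m (hS' hm) _ (hS'H m hm)
      rw [zero_add] at h2
      obtain ⟨h3, h4, h5⟩ := hmem m (hS' hm)
      have h6 := pk_low m
      have h7 := pk_upp m
      have hpk0 : 0 < pk m := by linarith
      have h8 : Z (pk m) ≤ pk m ^ e * Z (α * a (ν m)) := by
        have h9 : pk m ^ e * (pk m ^ (-e) * Z (pk m)) = Z (pk m) := by
          rw [← mul_assoc, ← Real.rpow_add hpk0]; simp
        rw [← h9]
        exact mul_le_mul_of_nonneg_left h2 (Real.rpow_nonneg hpk0.le _)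
      have h9 : pk m ^ e ≤ (2 * X) ^ e := Real.rpow_le_rpow hpk0.le (by linarith) he0.le
      have h10 : Z (pk m) ≤ (2 * X) ^ e * Z (α * a (ν m)) :=
        h8.trans (mul_le_mul_of_nonneg_right h9 (Z_nonneg _))
      calc Z (pk m) ^ p ≤ ((2 * X) ^ e * Z (α * a (ν m))) ^ p :=
            Real.rpow_le_rpow (Z_nonneg _) h10 hp.le
        _ = (2 * X) ^ (e * p) * Z (α * a (ν m)) ^ p := by
            rw [Real.mul_rpow (by positivity) (Z_nonneg _), ← Real.rpow_mul (by positivity)]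
    have hfib : ∑ m ∈ S', Z (α * a (ν m)) ^ p ≤ Q * ∑ n ∈ Finset.range N, Z (α * a n) ^ p := by
      classical
      rw [← Finset.sum_fiberwise_of_maps_to hNν, Finset.mul_sum]
      refine Finset.sum_le_sum fun n _ => ?_
      have h2 : ∑ m ∈ S'.filter (fun m => ν m = n), Z (α * a (ν m)) ^ p =
          ((S'.filter fun m => ν m = n).card : ℝ) * Z (α * a n) ^ p := by
        rw [Finset.sum_congr rfl (fun m hm => by rw [(Finset.mem_filter.1 hm).2] :
          ∀ m ∈ S'.filter (fun m => ν m = n), Z (α * a (ν m)) ^ p = Z (α * a n) ^ p),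
          Finset.sum_const, nsmul_eq_mul]
      rw [h2]
      apply mul_le_mul_of_nonneg_right _ (Real.rpow_nonneg (Z_nonneg _) _)
      rcases (S'.filter fun m => ν m = n).eq_empty_or_nonempty with h3 | ⟨m₀, h3⟩
      · rw [h3]; simpa using hQ0.le
      · have h4 : (((S'.filter fun m => ν m = n).card : ℕ) : ℝ) ≤ (x * C + 2 * W + 1) + 1 := by
          apply card_le (y := x * a n - x * C - W - 1)
          · obtain ⟨h5, h6⟩ := Finset.mem_filter.1 h3
            have h7 := hν1 m₀ (hS' h5)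
            have h8 := hτ' m₀ (hS' h5)
            have h9 := hmem m₀ (hS' h5)
            rw [h6] at h7
            linarith [h8.1, h9.1]
          · positivity
          · intro m hm
            obtain ⟨h5, h6⟩ := Finset.mem_filter.1 hm
            have h7 := hν1 m (hS' h5)
            have h7' := hν2 m (hS' h5)
            have h8 := hτ' m (hS' h5)
            rw [h6] at h7 h7'
            constructor <;> linarith [h8.1, h8.2]
        refine h4.trans (le_of_eq ?_)
        rw [hQ]; ring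
    have hmain : θ * X ^ (M + ε) ≤ (2 * X) ^ (e * p) * (Q * (A * (D * X) ^ (M + ε / 4))) := by
      calc θ * X ^ (M + ε) ≤ θ * ∑ m ∈ blk k, Z (pk m) ^ p := mul_le_mul_of_nonneg_left hsum hθ0.le
        _ ≤ ∑ m ∈ S', Z (pk m) ^ p := hS'w
        _ ≤ ∑ m ∈ S', (2 * X) ^ (e * p) * Z (α * a (ν m)) ^ p := Finset.sum_le_sum hval
        _ = (2 * X) ^ (e * p) * ∑ m ∈ S', Z (α * a (ν m)) ^ p := by rw [Finset.mul_sum]
        _ ≤ (2 * X) ^ (e * p) * (Q * (A * (D * X) ^ (M + ε / 4))) := by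
            apply mul_le_mul_of_nonneg_left _ (by positivity)
            refine hfib.trans (mul_le_mul_of_nonneg_left (h1.trans ?_) hQ0.le)
            apply mul_le_mul_of_nonneg_left _ (Nat.cast_nonneg _)
            exact Real.rpow_le_rpow (Nat.cast_nonneg _) hN2 (by linarith)
    have h5 : (2 * X) ^ (e * p) ≤ 2 ^ (e * p) * X ^ (ε / 8) := by
      rw [Real.mul_rpow (by norm_num) hX0.le]
      exact mul_le_mul_of_nonneg_left (Real.rpow_le_rpow_of_exponent_le hX1 he2) (by positivity)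
    have h6 : (D * X) ^ (M + ε / 4) = D ^ (M + ε / 4) * X ^ (M + ε / 4) := Real.mul_rpow hD0.le hX0.le
    have h7 : θ * X ^ (M + ε) ≤ (2 ^ (e * p) * Q * A * D ^ (M + ε / 4)) * X ^ (M + 3 * ε / 8) := by
      refine hmain.trans ?_
      rw [h6]
      calc (2 * X) ^ (e * p) * (Q * (A * (D ^ (M + ε / 4) * X ^ (M + ε / 4))))
          ≤ (2 ^ (e * p) * X ^ (ε / 8)) * (Q * (A * (D ^ (M + ε / 4) * X ^ (M + ε / 4)))) :=
            mul_le_mul_of_nonneg_right h5 (by positivity)
        _ = (2 ^ (e * p) * Q * A * D ^ (M + ε / 4)) * (X ^ (ε / 8) * X ^ (M + ε / 4)) := by ring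
        _ = (2 ^ (e * p) * Q * A * D ^ (M + ε / 4)) * X ^ (M + 3 * ε / 8) := by
            rw [← Real.rpow_add hX0]; congr 2; ring
    have h8 : X ^ (M + ε) = X ^ (5 * ε / 8) * X ^ (M + 3 * ε / 8) := by
      rw [← Real.rpow_add hX0]; congr 1; ring
    rw [h8, ← mul_assoc] at h7
    have h9 := le_of_mul_le_mul_right h7 (Real.rpow_pos_of_pos hX0 _)
    rw [div_lt_iff₀ hθ0] at hk2
    linarith
  · refine le_trans (ENNReal.ofReal_le_ofReal (le_of_eq ?_)) hEv
    rw [hρ]
    field_simp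
    ring

lemma fail_mom {a : ℕ → ℝ} {c C : ℝ} (ha : Del a c C) {p M : ℝ} (hp : 0 < p) (hM : 1 ≤ M)
    (h : ¬ MomExp p M) : volume {α : ℝ | 0 < α ∧ MomAlong (fun n => α * a n) p M} = 0 := by
  obtain ⟨ε, hε, hblk⟩ := blocks hp hM h
  have h2 := measure_iUnion_null (fun A : ℕ => fail_mom_M ha hp hM hε hblk A)
  refine measure_mono_null ?_ h2
  rintro α ⟨hα1, hα2⟩
  obtain ⟨A₀, hA₀⟩ := hα2 (ε / 4) (by positivity)
  obtain ⟨A, hA⟩ := exists_nat_ge A₀
  rw [mem_iUnion]
  refine ⟨A, hα1, fun N hN => (hA₀ N hN).trans ?_⟩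
  exact mul_le_mul_of_nonneg_right hA (by positivity)

end Pool.Agent.N798
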