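import Pool.Agent.N798.V2

set_option autoImplicit false

/-! Plancherel's theorem for Laplace transforms that are continued analytically from the line `Re s = 2` to the
strip `1/2 < Re s < 2`, with continuous boundary values on the line `Re s = 1/2`. -/

namespace Pool.Agent.N798.P

open Complex MeasureTheory Filter Topology FourierTransform
open Pool.Agent.N798.V
open scoped ENNReal Real

lemma sl_integrable {H : ℂ → ℂ} {a b K δ : ℝ} (hδ : 0 < δ)
    (hd : ContinuousOn H {z : ℂ | z.im ∈ Set.uIcc a b})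
    (hb : ∀ z : ℂ, z.im ∈ Set.uIcc a b → ‖H z‖ ≤ K * Real.exp (-δ * z.re ^ 2)) {c : ℝ}
    (hc : c ∈ Set.uIcc a b) : Integrable (fun t : ℝ => H (t + c * I)) := by
  have him : ∀ t : ℝ, ((t : ℂ) + c * I).im = c := by intro t; simp
  have hre : ∀ t : ℝ, ((t : ℂ) + c * I).re = t := by intro t; simp
  have hcont : Continuous (fun t : ℝ => H (t + c * I)) :=
    hd.comp_continuous (by fun_prop) fun t => by
      show ((t : ℂ) + c * I).im ∈ Set.uIcc a b
      rw [him]; exact hc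
  refine ((integrable_exp_neg_mul_sq hδ).const_mul K).mono' hcont.aestronglyMeasurable
    (Eventually.of_forall fun t => ?_)
  have h1 := hb ((t : ℂ) + c * I) (by rw [him]; exact hc)
  rwa [hre] at h1

/-- Shift of a horizontal line of integration. -/
theorem sl {H : ℂ → ℂ} {a b K δ : ℝ} (hδ : 0 < δ)
    (hc : ContinuousOn H {z : ℂ | z.im ∈ Set.uIcc a b})
    (hd : ∀ z : ℂ, z.im ∈ Set.Ioo (min a b) (max a b) → DifferentiableAt ℂ H z)
    (hb : ∀ z : ℂ, z.im ∈ Set.uIcc a b → ‖H z‖ ≤ K * Real.exp (-δ * z.re ^ 2)) :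
    ∫ t : ℝ, H (t + a * I) = ∫ t : ℝ, H (t + b * I) := by
  have hrect : ∀ T : ℝ, (∫ x in (-T)..T, H (x + a * I)) - (∫ x in (-T)..T, H (x + b * I)) +
      I • (∫ y in a..b, H (T + y * I)) - I • (∫ y in a..b, H (((-T : ℝ) : ℂ) + y * I)) = 0 := by
    intro T
    have h1 := Complex.integral_boundary_rect_eq_zero_of_continuousOn_of_differentiableOn H
      (((-T : ℝ) : ℂ) + a * I) ((T : ℂ) + b * I) (by
        refine hc.mono fun z hz => ?_
        have h2 := hz.2
        show z.im ∈ Set.uIcc a b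
        simpa using h2) (by
        intro z hz
        apply (hd z _).differentiableWithinAt
        have h2 := hz.2
        simpa using h2)
    simpa using h1
  have hA : Tendsto (fun T : ℝ => ∫ x in (-T)..T, H (x + a * I)) atTop
      (𝓝 (∫ t : ℝ, H (t + a * I))) :=
    intervalIntegral_tendsto_integral (sl_integrable hδ hc hb Set.left_mem_uIcc)
      tendsto_neg_atTop_atBot tendsto_id
  have hB : Tendsto (fun T : ℝ => ∫ x in (-T)..T, H (x + b * I)) atTop
      (𝓝 (∫ t : ℝ, H (t + b * I))) :=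
    intervalIntegral_tendsto_integral (sl_integrable hδ hc hb Set.right_mem_uIcc)
      tendsto_neg_atTop_atBot tendsto_id
  have hE : Tendsto (fun T : ℝ => K * Real.exp (-δ * T ^ 2) * |b - a|) atTop (𝓝 0) := by
    have h1 : Tendsto (fun T : ℝ => -δ * T ^ 2) atTop atBot :=
      (tendsto_pow_atTop two_ne_zero).const_mul_atTop_of_neg (by linarith)
    have h2 := Real.tendsto_exp_atBot.comp h1
    have h3 := (h2.const_mul K).mul_const |b - a|
    simpa using h3
  have hV1 : Tendsto (fun T : ℝ => I • (∫ y in a..b, H (T + y * I))) atTop (𝓝 0) := by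
    apply squeeze_zero_norm (fun T => ?_) hE
    rw [norm_smul, norm_I, one_mul]
    exact Pool.Agent.Helper242.KK.shift_line_vert hb T
  have hV2 : Tendsto (fun T : ℝ => I • (∫ y in a..b, H (((-T : ℝ) : ℂ) + y * I))) atTop (𝓝 0) := by
    apply squeeze_zero_norm (fun T => ?_) hE
    rw [norm_smul, norm_I, one_mul]
    have h1 := Pool.Agent.Helper242.KK.shift_line_vert hb (-T)
    rw [neg_sq] at h1
    exact h1
  have hlim := ((hA.sub hB).add hV1).sub hV2
  simp only [hrect] at hlim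
  have h0 := tendsto_nhds_unique hlim tendsto_const_nhds
  rw [add_zero, sub_zero] at h0
  exact sub_eq_zero.1 h0

/-- **Plancherel with continuation.** -/
theorem engine {D : ℝ → ℂ} {G : ℂ → ℂ} {C b K : ℝ} {A : ℕ}
    (mD : Measurable D) (b0 : 0 ≤ b)
    (hb : ∀ u, ‖D u‖ ≤ C * Real.exp (b * |u|))
    (hc : ∀ᵐ u, ContinuousAt D u)
    (iD : Integrable (fun u : ℝ => ‖D u‖ * Real.exp (-((2:ℝ) * u))))
    (tD : ∀ t : ℝ, ∫ v : ℝ, D v * cexp (-((((2:ℝ) : ℂ) + t * I) * v)) = G (((2:ℝ) : ℂ) + t * I))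
    (hGc : ContinuousOn G {z : ℂ | 1 / 2 ≤ z.re ∧ z.re ≤ 2})
    (hG : ∀ z : ℂ, 1 / 2 < z.re → z.re < 2 → DifferentiableAt ℂ G z)
    (hGb : ∀ z : ℂ, 1 / 2 ≤ z.re → z.re ≤ 2 → ‖G z‖ ≤ K * (1 + |z.im|) ^ A) :
    ∫⁻ u, ENNReal.ofReal (Real.exp (-u)) * ‖D u‖ₑ ^ 2 =
      ENNReal.ofReal (1 / (2 * π)) * ∫⁻ t : ℝ, ‖G (((1 / 2 : ℝ) : ℂ) + t * I)‖ₑ ^ 2 := by
  have hK : 0 ≤ K := by
    have := (norm_nonneg _).trans (hGb 1 (by norm_num) (by norm_num))
    simpa using this
  -- the transform on the line 1/2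
  set Φ : ℝ → ℝ → ℂ := fun c t => G (((1 / 2 : ℝ) : ℂ) + t * I) *
    cexp ((c : ℂ) ^ 2 / 2 * (((1 / 2 : ℝ) : ℂ) + t * I) ^ 2) with hΦd
  have hGl : Continuous (fun t : ℝ => G (((1 / 2 : ℝ) : ℂ) + t * I)) :=
    hGc.comp_continuous (by fun_prop) fun t => by
      constructor <;> simp
      norm_num
  have hΦc : ∀ c : ℝ, Continuous (Φ c) := by
    intro c
    simp only [hΦd]
    exact hGl.mul (by fun_prop)
  have hnexp : ∀ c t : ℝ, ‖cexp ((c : ℂ) ^ 2 / 2 * (((1 / 2 : ℝ) : ℂ) + t * I) ^ 2)‖ =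
      Real.exp (c ^ 2 / 8) * Real.exp (-(c ^ 2 / 2) * t ^ 2) := by
    intro c t
    have := norm_cexp_line c (1 / 2) 0 t
    rw [Complex.ofReal_zero, mul_zero, add_zero] at this
    rw [this]
    congr 2; ring
  have hG1 : ∀ t : ℝ, ‖G (((1 / 2 : ℝ) : ℂ) + t * I)‖ ≤ K * (1 + |t|) ^ A := by
    intro t
    have h1 := hGb (((1 / 2 : ℝ) : ℂ) + t * I) (by simp) (by simp; norm_num)
    have him : ((((1 / 2 : ℝ) : ℂ) + t * I)).im = t := by simp
    rwa [him] at h1
  have hΦb : ∀ c : ℝ, 0 < c → ∃ K' : ℝ, ∀ t, ‖Φ c t‖ ≤ K' * Real.exp (-(c ^ 2 / 4) * t ^ 2) := by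
    intro c hc
    obtain ⟨K', hK', h⟩ := poly_gauss K (by positivity) A (η := c ^ 2 / 2) (by positivity)
    refine ⟨Real.exp (c ^ 2 / 8) * K', fun t => ?_⟩
    simp only [hΦd]
    rw [norm_mul, hnexp]
    calc ‖G (((1 / 2 : ℝ) : ℂ) + t * I)‖ * (Real.exp (c ^ 2 / 8) * Real.exp (-(c ^ 2 / 2) * t ^ 2))
        ≤ (K * (1 + |t|) ^ A) * (Real.exp (c ^ 2 / 8) * Real.exp (-(c ^ 2 / 2) * t ^ 2)) := by
          gcongr; exact hG1 t
      _ = Real.exp (c ^ 2 / 8) * (K * (1 + |t|) ^ A * Real.exp (-(c ^ 2 / 2) * t ^ 2)) := by ring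
      _ ≤ Real.exp (c ^ 2 / 8) * (K' * Real.exp (-(c ^ 2 / 2 / 2) * t ^ 2)) :=
          mul_le_mul_of_nonneg_left (h t) (by positivity)
      _ = _ := by rw [← mul_assoc]; congr 3; ring
  -- representation of the smoothed function
  have hW : ∀ c : ℝ, 0 < c → ∀ u : ℝ, ((2 * π : ℝ) : ℂ) * W c D u =
      ∫ t : ℝ, Φ c t * cexp (((1 / 2 : ℝ) + t * I) * u) := by
    intro c hc u
    have r₁ := line_rep hc mD iD u
    simp only [tD] at r₁
    -- shift of the line
    set H : ℂ → ℂ := fun z => G (I * z) * cexp ((c : ℂ) ^ 2 / 2 * (I * z) ^ 2 + (I * z) * u) with hH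
    obtain ⟨K₁, hK₁, hK₁b⟩ := poly_gauss K hK A (η := c ^ 2 / 2) (by positivity)
    have hre : ∀ z : ℂ, z.im ∈ Set.uIcc (-2 : ℝ) (-(1 / 2)) → 1 / 2 ≤ (I * z).re ∧ (I * z).re ≤ 2 := by
      intro z hz
      rw [Set.uIcc_of_le (by norm_num)] at hz
      simp only [Complex.mul_re, Complex.I_re, Complex.I_im, zero_mul, one_mul, zero_sub]
      constructor <;> linarith [hz.1, hz.2]
    have sh := sl (H := H) (a := -2) (b := -(1 / 2)) (δ := c ^ 2 / 4)
      (K := K₁ * Real.exp (2 * c ^ 2 + 2 * |u|)) (by positivity) (by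
        have h1 : ContinuousOn (fun z : ℂ => G (I * z)) {z : ℂ | z.im ∈ Set.uIcc (-2 : ℝ) (-(1 / 2))} :=
          hGc.comp (by fun_prop) fun z hz => hre z hz
        exact h1.mul (by fun_prop)) (by
        intro z hz
        have h12 : 1 / 2 < (I * z).re ∧ (I * z).re < 2 := by
          rw [min_eq_left (by norm_num), max_eq_right (by norm_num)] at hz
          simp only [Complex.mul_re, Complex.I_re, Complex.I_im, zero_mul, one_mul, zero_sub]
          constructor <;> linarith [hz.1, hz.2]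
        have := hG (I * z) h12.1 h12.2
        have h3 : DifferentiableAt ℂ (fun z : ℂ => G (I * z)) z :=
          DifferentiableAt.comp (g := G) (f := fun z : ℂ => I * z) z this (by fun_prop)
        exact h3.mul (by fun_prop)) (by
        intro z hz
        obtain ⟨h1, h2⟩ := hre z hz
        have h3 := hGb (I * z) h1 h2
        have him : (I * z).im = z.re := by simp
        rw [him] at h3
        have h4 : I * z = (((I * z).re : ℝ) : ℂ) + ((z.re : ℝ) : ℂ) * I := by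
          apply Complex.ext <;> simp
        simp only [hH]
        rw [norm_mul]
        have h5 : ‖cexp ((c : ℂ) ^ 2 / 2 * (I * z) ^ 2 + (I * z) * u)‖ =
            Real.exp (c ^ 2 / 2 * (I * z).re ^ 2 + (I * z).re * u) * Real.exp (-(c ^ 2 / 2) * z.re ^ 2) := by
          conv_lhs => rw [h4]
          exact norm_cexp_line c _ u _
        rw [h5]
        have h6 : c ^ 2 / 2 * (I * z).re ^ 2 + (I * z).re * u ≤ 2 * c ^ 2 + 2 * |u| := by
          have a1 : (I * z).re ^ 2 ≤ 2 ^ 2 := by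
            apply pow_le_pow_left₀ (by linarith) h2
          have a2 : (I * z).re * u ≤ 2 * |u| := by
            calc (I * z).re * u ≤ (I * z).re * |u| := by
                  apply mul_le_mul_of_nonneg_left (le_abs_self u) (by linarith)
              _ ≤ 2 * |u| := by apply mul_le_mul_of_nonneg_right h2 (abs_nonneg _)
          nlinarith [sq_nonneg c]
        calc ‖G (I * z)‖ * (Real.exp (c ^ 2 / 2 * (I * z).re ^ 2 + (I * z).re * u) * Real.exp (-(c ^ 2 / 2) * z.re ^ 2))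
            ≤ (K * (1 + |z.re|) ^ A) * (Real.exp (2 * c ^ 2 + 2 * |u|) * Real.exp (-(c ^ 2 / 2) * z.re ^ 2)) := by
              gcongr
          _ = Real.exp (2 * c ^ 2 + 2 * |u|) * (K * (1 + |z.re|) ^ A * Real.exp (-(c ^ 2 / 2) * z.re ^ 2)) := by ring
          _ ≤ Real.exp (2 * c ^ 2 + 2 * |u|) * (K₁ * Real.exp (-(c ^ 2 / 2 / 2) * z.re ^ 2)) :=
              mul_le_mul_of_nonneg_left (hK₁b _) (by positivity)
          _ = _ := by
              rw [show -(c ^ 2 / 4) * z.re ^ 2 = -(c ^ 2 / 2 / 2) * z.re ^ 2 by ring]; ring)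
    have e₁ : ∀ t : ℝ, H (t + ((-2 : ℝ) : ℂ) * I) = G (((2:ℝ) : ℂ) + t * I) *
        cexp ((c : ℂ) ^ 2 / 2 * (((2 : ℝ) : ℂ) + t * I) ^ 2 + (((2 : ℝ) : ℂ) + t * I) * u) := by
      intro t
      have : I * ((t : ℂ) + ((-2 : ℝ) : ℂ) * I) = ((2 : ℝ) : ℂ) + t * I := by
        push_cast
        ring_nf
        rw [I_sq]
        ring
      simp only [hH, this]
    have e₂ : ∀ t : ℝ, H (t + ((-(1 / 2) : ℝ) : ℂ) * I) = G (((1 / 2 : ℝ) : ℂ) + t * I) *
        cexp ((c : ℂ) ^ 2 / 2 * (((1 / 2 : ℝ) : ℂ) + t * I) ^ 2 + (((1 / 2 : ℝ) : ℂ) + t * I) * u) := by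
      intro t
      have : I * ((t : ℂ) + ((-(1 / 2) : ℝ) : ℂ) * I) = ((1 / 2 : ℝ) : ℂ) + t * I := by
        push_cast
        ring_nf
        rw [I_sq]
        ring
      simp only [hH, this]
    simp only [e₁, e₂] at sh
    rw [sh] at r₁
    rw [r₁]
    congr 1; funext t
    simp only [hΦd]
    rw [mul_assoc, ← Complex.exp_add]
  have hP : ∀ c : ℝ, 0 < c → ∫⁻ u, ENNReal.ofReal (Real.exp (-u)) * ‖W c D u‖ₑ ^ 2 =
      ENNReal.ofReal (1 / (2 * π)) * ∫⁻ t, ‖Φ c t‖ₑ ^ 2 := by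
    intro c hc
    obtain ⟨K', hK'⟩ := hΦb c hc
    exact W_plancherel (hΦc c) (η := c ^ 2 / 4) (by positivity) hK' (hW c hc)
  -- the sequence of smoothing parameters
  set c : ℕ → ℝ := fun n => 1 / ((n : ℝ) + 1) with hcd
  have cpos : ∀ n, 0 < c n := fun n => by simp only [hcd]; positivity
  have cle : ∀ n, c n ≤ 1 := fun n => by
    simp only [hcd]
    rw [div_le_one (by positivity)]
    linarith [Nat.cast_nonneg (α := ℝ) n]
  have c0 : Tendsto c atTop (𝓝 0) := tendsto_one_div_add_atTop_nhds_zero_nat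
  have cexp0 : ∀ a : ℝ, Tendsto (fun n => ENNReal.ofReal (Real.exp (c n ^ 2 * a))) atTop (𝓝 1) := by
    intro a
    have h1 : Tendsto (fun n => c n ^ 2 * a) atTop (𝓝 0) := by
      have := (c0.pow 2).mul_const a
      simpa using this
    have h2 := ENNReal.tendsto_ofReal ((Real.continuous_exp.tendsto 0).comp h1)
    simpa [Function.comp_def] using h2
  have mW : ∀ c : ℝ, Measurable (W c D) := by
    intro c
    unfold W
    apply StronglyMeasurable.measurable
    apply StronglyMeasurable.integral_prod_right (f := fun u v => D v * ((c⁻¹ * gd ((u - v) / c) : ℝ) : ℂ))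
    apply Measurable.stronglyMeasurable
    simp only [Function.uncurry_def]
    fun_prop
  set X : ℝ≥0∞ := ∫⁻ u, ENNReal.ofReal (Real.exp (-u)) * ‖D u‖ₑ ^ 2 with hX
  set Y : ℝ≥0∞ := ∫⁻ t : ℝ, ‖G (((1 / 2 : ℝ) : ℂ) + t * I)‖ₑ ^ 2 with hY
  apply le_antisymm
  · -- Fatou for D
    have f1 : X ≤ liminf (fun n => ∫⁻ u, ENNReal.ofReal (Real.exp (-u)) * ‖W (c n) D u‖ₑ ^ 2) atTop := by
      refine le_trans ?_ (lintegral_liminf_le fun n => ?_)
      · apply lintegral_mono_ae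
        filter_upwards [hc] with u hu
        have h1 := W_tendsto mD hb b0 hu cpos cle c0
        have h2 : Tendsto (fun n => ENNReal.ofReal (Real.exp (-u)) * ‖W (c n) D u‖ₑ ^ 2) atTop
            (𝓝 (ENNReal.ofReal (Real.exp (-u)) * ‖D u‖ₑ ^ 2)) := by
          apply ENNReal.Tendsto.const_mul _ (Or.inr ENNReal.ofReal_ne_top)
          exact ENNReal.Tendsto.pow (continuous_enorm.tendsto _ |>.comp h1)
        rw [h2.liminf_eq]
      · have := mW (c n)
        fun_prop
    refine f1.trans ?_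
    have f2 : ∀ n, ∫⁻ u, ENNReal.ofReal (Real.exp (-u)) * ‖W (c n) D u‖ₑ ^ 2 ≤
        ENNReal.ofReal (Real.exp (c n ^ 2 * (1 / 4))) * (ENNReal.ofReal (1 / (2 * π)) * Y) := by
      intro n
      rw [hP _ (cpos n), mul_left_comm]
      gcongr
      rw [hY, ← lintegral_const_mul' _ _ ENNReal.ofReal_ne_top]
      apply lintegral_mono
      intro t
      simp only [hΦd]
      rw [enorm_mul, mul_pow, mul_comm]
      gcongr
      rw [← ofReal_norm, hnexp, ← ENNReal.ofReal_pow (by positivity)]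
      apply ENNReal.ofReal_le_ofReal
      rw [mul_pow, ← Real.exp_nat_mul]
      have h1 : Real.exp (-(c n ^ 2 / 2) * t ^ 2) ^ 2 ≤ 1 := by
        apply pow_le_one₀ (Real.exp_pos _).le
        rw [Real.exp_le_one_iff]
        nlinarith [sq_nonneg (c n), sq_nonneg t, mul_nonneg (sq_nonneg (c n)) (sq_nonneg t)]
      calc Real.exp (↑(2:ℕ) * (c n ^ 2 / 8)) * Real.exp (-(c n ^ 2 / 2) * t ^ 2) ^ 2
          ≤ Real.exp (↑(2:ℕ) * (c n ^ 2 / 8)) * 1 := by gcongr
        _ = _ := by rw [mul_one]; congr 1; push_cast; ring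
    have f3 : Tendsto (fun n => ENNReal.ofReal (Real.exp (c n ^ 2 * (1 / 4))) * (ENNReal.ofReal (1 / (2 * π)) * Y)) atTop
        (𝓝 (1 * (ENNReal.ofReal (1 / (2 * π)) * Y))) :=
      ENNReal.Tendsto.mul_const (cexp0 _) (Or.inl one_ne_zero)
    rw [one_mul] at f3
    calc _ ≤ liminf (fun n => ENNReal.ofReal (Real.exp (c n ^ 2 * (1 / 4))) * (ENNReal.ofReal (1 / (2 * π)) * Y)) atTop :=
          liminf_le_liminf (Eventually.of_forall f2)
      _ = _ := f3.liminf_eq
  · -- Fatou for the transform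
    have f1 : Y ≤ liminf (fun n => ∫⁻ t, ‖Φ (c n) t‖ₑ ^ 2) atTop := by
      refine le_trans ?_ (lintegral_liminf_le fun n => ?_)
      · apply lintegral_mono
        intro t
        have h1 : Tendsto (fun n => Φ (c n) t) atTop (𝓝 (G (((1 / 2 : ℝ) : ℂ) + t * I))) := by
          simp only [hΦd]
          have h2 : Continuous (fun x : ℝ => G (((1 / 2 : ℝ) : ℂ) + t * I) *
            cexp ((x : ℂ) ^ 2 / 2 * (((1 / 2 : ℝ) : ℂ) + t * I) ^ 2)) := by fun_prop
          have h3 := (h2.tendsto 0).comp c0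
          simpa [Function.comp_def] using h3
        have h2 : Tendsto (fun n => ‖Φ (c n) t‖ₑ ^ 2) atTop
            (𝓝 (‖G (((1 / 2 : ℝ) : ℂ) + t * I)‖ₑ ^ 2)) :=
          ENNReal.Tendsto.pow (continuous_enorm.tendsto _ |>.comp h1)
        simp only
        rw [h2.liminf_eq]
      · have := (hΦc (c n)).measurable
        fun_prop
    have f2 : ENNReal.ofReal (1 / (2 * π)) * Y ≤
        liminf (fun n => ENNReal.ofReal (1 / (2 * π)) * ∫⁻ t, ‖Φ (c n) t‖ₑ ^ 2) atTop := by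
      calc ENNReal.ofReal (1 / (2 * π)) * Y
          ≤ ENNReal.ofReal (1 / (2 * π)) * liminf (fun n => ∫⁻ t, ‖Φ (c n) t‖ₑ ^ 2) atTop := by gcongr
        _ ≤ _ := by
            rw [ENNReal.liminf_const_mul_of_ne_top ENNReal.ofReal_ne_top]
    refine f2.trans ?_
    have f3 : Tendsto (fun n => ENNReal.ofReal (Real.exp (c n ^ 2 * (1 / 2))) * X) atTop (𝓝 (1 * X)) :=
      ENNReal.Tendsto.mul_const (cexp0 _) (Or.inl one_ne_zero)
    rw [one_mul] at f3
    calc _ ≤ liminf (fun n => ENNReal.ofReal (Real.exp (c n ^ 2 * (1 / 2))) * X) atTop := by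
          refine liminf_le_liminf (Eventually.of_forall fun n => ?_)
          rw [← hP _ (cpos n)]
          refine (W_jensen mD (cpos n)).trans (le_of_eq ?_)
          congr 3; ring
      _ = _ := f3.liminf_eq

end Pool.Agent.N798.P
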