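import Pool.Agent.N798.P8

set_option autoImplicit false

/-! A finite mean square forces the orders of the zeros. -/

namespace Pool.Agent.N798.P

open Complex MeasureTheory Filter Topology Set Metric
open Pool.Agent.N798.V
open scoped ENNReal Real

lemma mul_deriv_order {f : ℂ → ℂ} {z : ℂ} (hf : AnalyticAt ℂ f z) (hf0 : analyticOrderAt f z ≠ ⊤) :
    ∃ f₁ : ℂ → ℂ, AnalyticAt ℂ f₁ z ∧ f₁ z ≠ 0 ∧ (∀ᶠ w in 𝓝 z, f w = (w - z) ^ analyticOrderNatAt f z * f₁ w) ∧
      ∀ᶠ w in 𝓝 z, (w - z) * deriv f w = (w - z) ^ analyticOrderNatAt f z *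
        (analyticOrderNatAt f z * f₁ w + (w - z) * deriv f₁ w) := by
  obtain ⟨f₁, h1, h2, h3⟩ := hf.analyticOrderAt_ne_top.1 hf0
  simp only [smul_eq_mul] at h3
  set m := analyticOrderNatAt f z with hm
  refine ⟨f₁, h1, h2, h3, ?_⟩
  filter_upwards [h3.eventually_nhds, h1.eventually_analyticAt] with w hw1 hw2
  have h4 : deriv f w = deriv (fun y => (y - z) ^ m * f₁ y) w := Filter.EventuallyEq.deriv_eq hw1
  have h5 : HasDerivAt (fun y : ℂ => (y - z) ^ m) (m * (w - z) ^ (m - 1)) w := by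
    have := ((hasDerivAt_id w).sub_const z).fun_pow m
    simpa using this
  have h6 : HasDerivAt (fun y => (y - z) ^ m * f₁ y) (m * (w - z) ^ (m - 1) * f₁ w + (w - z) ^ m * deriv f₁ w) w :=
    h5.mul hw2.differentiableAt.hasDerivAt
  rw [h4, h6.deriv]
  by_cases hm0 : m = 0
  · rw [hm0]; simp
  · have h7 : (w - z) ^ m = (w - z) ^ (m - 1) * (w - z) := by
      rw [← pow_succ]; congr 1; omega
    rw [h7]
    ring

/-- logarithmic derivatives and orders -/
lemma order_of_deriv {κ : ℝ} {f g : ℂ → ℂ} {z : ℂ} (hf : AnalyticAt ℂ f z) (hg : AnalyticAt ℂ g z)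
    (hf0 : analyticOrderAt f z ≠ ⊤) (hg0 : analyticOrderAt g z ≠ ⊤)
    (h : ∀ᶠ w in 𝓝 z, deriv g w * f w = κ * (deriv f w * g w)) :
    κ * analyticOrderNatAt f z = analyticOrderNatAt g z := by
  obtain ⟨f₁, hf1, hf2, hf3, hf4⟩ := mul_deriv_order hf hf0
  obtain ⟨g₁, hg1, hg2, hg3, hg4⟩ := mul_deriv_order hg hg0
  set m := analyticOrderNatAt f z with hm
  set n := analyticOrderNatAt g z with hn
  have h1 : ∀ᶠ w in 𝓝[≠] z, ((n : ℂ) * g₁ w + (w - z) * deriv g₁ w) * f₁ w =
      κ * (((m : ℂ) * f₁ w + (w - z) * deriv f₁ w) * g₁ w) := by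
    filter_upwards [nhdsWithin_le_nhds h, nhdsWithin_le_nhds hf3, nhdsWithin_le_nhds hf4, nhdsWithin_le_nhds hg3,
      nhdsWithin_le_nhds hg4, self_mem_nhdsWithin] with w a1 a2 a3 a4 a5 a6
    have hne : w - z ≠ 0 := sub_ne_zero.2 a6
    have hpow : (w - z) ^ (n + m) ≠ 0 := pow_ne_zero _ hne
    apply mul_left_cancel₀ hpow
    have a7 : (w - z) * (deriv g w * f w) = (w - z) * (κ * (deriv f w * g w)) := by rw [a1]
    calc (w - z) ^ (n + m) * (((n : ℂ) * g₁ w + (w - z) * deriv g₁ w) * f₁ w)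
        = ((w - z) ^ n * ((n : ℂ) * g₁ w + (w - z) * deriv g₁ w)) * ((w - z) ^ m * f₁ w) := by rw [pow_add]; ring
      _ = ((w - z) * deriv g w) * f w := by rw [← a5, ← a2]
      _ = κ * (((w - z) * deriv f w) * g w) := by linear_combination a7
      _ = _ := by rw [a3, a4, pow_add]; ring
  have c1 : ContinuousAt (fun w => ((n : ℂ) * g₁ w + (w - z) * deriv g₁ w) * f₁ w) z := by
    have := hf1.continuousAt
    have := hg1.continuousAt
    have := hg1.deriv.continuousAt
    fun_prop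
  have c2 : ContinuousAt (fun w => κ * (((m : ℂ) * f₁ w + (w - z) * deriv f₁ w) * g₁ w)) z := by
    have := hf1.continuousAt
    have := hg1.continuousAt
    have := hf1.deriv.continuousAt
    fun_prop
  have t1 := c1.tendsto.mono_left (nhdsWithin_le_nhds (s := {z}ᶜ))
  have t2 := c2.tendsto.mono_left (nhdsWithin_le_nhds (s := {z}ᶜ))
  have h2 := tendsto_nhds_unique t1 (t2.congr' (by filter_upwards [h1] with w hw; exact hw.symm))
  simp only [sub_self, zero_mul, add_zero] at h2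
  have h3 : (n : ℂ) = κ * m := by
    apply mul_right_cancel₀ (mul_ne_zero hg2 hf2)
    linear_combination h2
  have h4 : ((κ * m : ℝ) : ℂ) = ((n : ℝ) : ℂ) := by push_cast; exact h3.symm
  exact_mod_cast h4

/-- **A finite mean square forces the orders of the zeros.** -/
theorem Dat.orders {κ : ℝ} {f g₀ q : ℂ → ℂ} {D : ℝ → ℂ} {M b : ℝ} (H : Dat g₀ q D M b)
    (hf : ∀ z : ℂ, 0 < z.re → DifferentiableAt ℂ f z)
    (hn₀ : ∀ z : ℂ, 1 < z.re → ‖g₀ z‖ = ‖f z‖ ^ κ) (hf₀ : ∀ z : ℂ, 1 < z.re → f z ≠ 0)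
    (hq : Differentiable ℂ q) (hq0 : ∀ z : ℂ, 1 / 2 < z.re → q z ≠ 0)
    (fin : ∫⁻ u, ENNReal.ofReal (Real.exp (-u)) * ‖D u‖ₑ ^ 2 ≠ ⊤) {z : ℂ} (hz : 1 / 2 < z.re) :
    ∃ k : ℕ, κ * analyticOrderNatAt f z = k := by
  set h : ℂ → ℂ := fun w => ∫ u : ℝ, D u * cexp (-(w * u)) with hh
  set g : ℂ → ℂ := fun w => h w * w / q w with hg
  set U : Set ℂ := {w : ℂ | 1 / 2 < w.re} with hU
  have hUo : IsOpen U := isOpen_lt continuous_const Complex.continuous_re
  have hUc : Convex ℝ U := convex_halfSpace_re_gt _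
  have hgd : ∀ w ∈ U, DifferentiableAt ℂ g w := by
    intro w hw
    exact ((lap_diff H.mD H.b0 H.supp fin hw).mul differentiableAt_id).div (hq w) (hq0 w hw)
  have hgan : AnalyticOnNhd ℂ g U := DifferentiableOn.analyticOnNhd (fun w hw => (hgd w hw).differentiableWithinAt) hUo
  have hfan : AnalyticOnNhd ℂ f U := DifferentiableOn.analyticOnNhd
    (fun w hw => (hf w (by have : 1 / 2 < w.re := hw; linarith)).differentiableWithinAt) hUo
  have hgg : ∀ w : ℂ, 3 / 2 < w.re → g w = g₀ w := by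
    intro w hw
    have h1 : h w = q w * (g₀ w / w) := H.tr w hw
    have h2 : q w ≠ 0 := hq0 w (by linarith)
    have h3 : w ≠ 0 := by intro h; rw [h] at hw; simp at hw; norm_num at hw
    simp only [hg]
    rw [h1]
    field_simp
  have h2U : (2:ℂ) ∈ U := by show (1:ℝ) / 2 < (2:ℂ).re; norm_num
  have hball : ∀ w ∈ ball (2:ℂ) (1 / 2), 3 / 2 < w.re := by
    intro w hw
    rw [mem_ball, dist_eq_norm] at hw
    have h1 := (Complex.abs_re_le_norm _).trans hw.le
    rw [Complex.sub_re, abs_le] at h1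
    have h2 := h1.1
    have h3 : ((2:ℂ)).re = 2 := by norm_num
    rw [h3] at h2
    by_contra hcon
    have h4 : |w.re - 2| < 1 / 2 := by
      have := (Complex.abs_re_le_norm (w - 2)).trans_lt hw
      rwa [Complex.sub_re, h3] at this
    rw [abs_lt] at h4
    linarith [h4.1]
  -- the identity of logarithmic derivatives near 2
  have hnear : ∀ᶠ w in 𝓝 (2:ℂ), deriv g w * f w - κ * (deriv f w * g w) = 0 := by
    obtain ⟨L, hL, hLf⟩ := exists_log (f := f) (c := 2) (r := 1 / 2) (by norm_num)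
      (fun w hw => (hf w (by have := hball w hw; linarith)).differentiableWithinAt)
      (fun w hw => hf₀ w (by have := hball w hw; linarith))
    have hexp : DifferentiableOn ℂ (fun z => cexp (κ * L z)) (ball (2:ℂ) (1 / 2)) := (hL.const_mul _).cexp
    obtain ⟨c, _, hc⟩ := const_of_norm_eq (V := ball (2:ℂ) (1 / 2)) (z₀ := 2) isOpen_ball (convex_ball _ _).isPreconnected
      (mem_ball_self (by norm_num)) (a := g) (b := fun w => cexp (κ * L w))
      (fun w hw => (hgd w (by show 1 / 2 < w.re; have := hball w hw; linarith)).differentiableWithinAt) hexp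
      (fun w hw => by
        rw [hgg w (hball w hw), hn₀ w (by have := hball w hw; linarith), norm_exp_pow (hLf w hw)])
      (fun w _ => Complex.exp_ne_zero _)
    filter_upwards [isOpen_ball.mem_nhds (mem_ball_self (x := (2:ℂ)) (ε := 1 / 2) (by norm_num))] with w hw
    have hwn : ball (2:ℂ) (1 / 2) ∈ 𝓝 w := isOpen_ball.mem_nhds hw
    have dL : HasDerivAt L (deriv L w) w := (hL.differentiableAt hwn).hasDerivAt
    have e1 : deriv g w = c * (cexp (κ * L w) * (κ * deriv L w)) := by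
      have h1 : g =ᶠ[𝓝 w] fun w => c * cexp (κ * L w) := by
        filter_upwards [hwn] with y hy
        exact hc y hy
      rw [h1.deriv_eq]
      exact (((dL.const_mul _).cexp).const_mul c).deriv
    have e2 : deriv f w = cexp (L w) * deriv L w := by
      have h1 : f =ᶠ[𝓝 w] fun w => cexp (L w) := by
        filter_upwards [hwn] with y hy
        exact (hLf y hy).symm
      rw [h1.deriv_eq]
      exact dL.cexp.deriv
    rw [e1, e2, hc w hw, ← hLf w hw]
    ring
  -- the identity everywhere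
  have hE : AnalyticOnNhd ℂ (fun w => deriv g w * f w - κ * (deriv f w * g w)) U := fun w hw =>
    ((hgan.deriv w hw).mul (hfan w hw)).sub (analyticAt_const.mul ((hfan.deriv w hw).mul (hgan w hw)))
  have hE0 := hE.eqOn_zero_of_preconnected_of_eventuallyEq_zero hUc.isPreconnected h2U hnear
  have hfin : ∀ F : ℂ → ℂ, AnalyticOnNhd ℂ F U → F 2 ≠ 0 → analyticOrderAt F z ≠ ⊤ := by
    intro F hF hF2 ht
    rw [analyticOrderAt_eq_top] at ht
    exact hF2 (hF.eqOn_zero_of_preconnected_of_eventuallyEq_zero hUc.isPreconnected hz ht h2U)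
  refine ⟨analyticOrderNatAt g z, order_of_deriv (hfan z hz) (hgan z hz) (hfin f hfan (hf₀ 2 (by norm_num)))
    (hfin g hgan ?_) ?_⟩
  · rw [hgg 2 (by norm_num), ← norm_ne_zero_iff, hn₀ 2 (by norm_num)]
    exact (Real.rpow_pos_of_pos (norm_pos_iff.2 (hf₀ 2 (by norm_num))) _).ne'
  · filter_upwards [hUo.mem_nhds hz] with w hw
    exact sub_eq_zero.1 (hE0 hw)

end Pool.Agent.N798.P
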