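import Pool.Agent.N798.V9

set_option autoImplicit false

/-! Equivalence of the asymptotics of mean values and of the corresponding quadratic functionals. -/

namespace Pool.Agent.N798.V

open MeasureTheory Filter Topology Set
open scoped ENNReal Real

/-- the cosine functional determines the mean value (Tauberian direction) -/
theorem dir_taub {f L : ℝ → ℝ} (S : SV L) (hf : Continuous f) (f0 : ∀ t, 0 ≤ f t) (fe : ∀ t, f (-t) = f t) {c : ℝ}
    (hc : 0 ≤ c) (ig : Integrable (fun t => f t * g₀ t))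
    (hU : Tendsto (fun T => T * UU (fun t => f t * g₀ t) (1 / T) / L T) atTop (𝓝 (π * c))) :
    Tendsto (fun T => (∫ t in Ioc 0 T, f t) / (T * L T)) atTop (𝓝 c) := by
  have h := tauberian S ig (fun t => mul_nonneg (f0 t) (g₀_pos t).le) (fun t => by rw [fe]; unfold g₀; rw [neg_sq]) hc hU
  have h2 := h.div_const 2
  have e : 2 * c / 2 = c := by ring
  rw [e] at h2
  refine h2.congr' ?_
  filter_upwards [eventually_ge_atTop 0] with T hT
  have e1 : ∀ t : ℝ, f t * g₀ t * (1 / 4 + t ^ 2) = f t := by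
    intro t
    unfold g₀
    rw [mul_assoc, inv_mul_cancel₀ (by positivity), mul_one]
  simp only [e1]
  have e2 : ∫ t in Icc (-T) T, f t = 2 * ∫ t in Ioc 0 T, f t := by
    rw [integral_Icc_eq_integral_Ioc, ← intervalIntegral.integral_of_le (by linarith),
      ← intervalIntegral.integral_of_le hT]
    have h3 : ∫ t in (-T)..T, f t = (∫ t in (-T)..0, f t) + ∫ t in (0:ℝ)..T, f t :=
      (intervalIntegral.integral_add_adjacent_intervals (hf.intervalIntegrable _ _) (hf.intervalIntegrable _ _)).symm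
    have h4 : ∫ t in (-T)..0, f t = ∫ t in (0:ℝ)..T, f t := by
      have h5 := intervalIntegral.integral_comp_neg (a := (0:ℝ)) (b := T) f
      rw [neg_zero] at h5
      rw [← h5]
      simp only [fe]
    rw [h3, h4]; ring
  rw [e2]
  ring

/-- the mean value determines the cosine functional (Abelian direction) -/
theorem dir_abel {f L : ℝ → ℝ} (S : SV L) (hf : Continuous f) (f0 : ∀ t, 0 ≤ f t) (fe : ∀ t, f (-t) = f t) {c : ℝ}
    (hF : Tendsto (fun T => (∫ t in Ioc 0 T, f t) / (T * L T)) atTop (𝓝 c)) :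
    Integrable (fun t => f t * g₀ t) ∧
      Tendsto (fun T => T * UU (fun t => f t * g₀ t) (1 / T) / L T) atTop (𝓝 (π * c)) := by
  have hfi : ∀ X : ℝ, IntegrableOn f (Ioc 0 X) := fun X =>
    (hf.integrableOn_Icc (a := 0) (b := X)).mono_set Ioc_subset_Icc_self
  -- integrability
  have A := abc (K := fun v => rg 1 v) (K' := fun v => rg' 1 v) (B := 8)
      S hf.measurable (by unfold rg'; fun_prop) f0 hfi hF (fun x _ => rg_deriv 1 x) (by
        have h1 : Tendsto (fun v : ℝ => (1 + v ^ 2)⁻¹) atTop (𝓝 0) := by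
          apply Tendsto.inv_tendsto_atTop
          exact tendsto_atTop_add_const_left _ _ (tendsto_pow_atTop two_ne_zero)
        refine h1.congr fun v => ?_
        unfold rg; norm_num) (by
        intro v hv
        have h4 := rg'_le one_pos le_rfl hv
        calc |rg' 1 v| ≤ 2 * ((1:ℝ) ^ 2)⁻¹ * v * ((1 + v ^ 2)⁻¹) ^ 2 := h4
          _ ≤ 2 * ((1:ℝ) ^ 2)⁻¹ * (1 + v) * (4 * (1 + v)⁻¹ ^ 4) := by
              gcongr
              · linarith
              · exact jb hv
          _ = 8 * (1 + v)⁻¹ ^ 3 := by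
              have : (1 + v) * (1 + v)⁻¹ = 1 := mul_inv_cancel₀ (by positivity)
              calc 2 * ((1:ℝ) ^ 2)⁻¹ * (1 + v) * (4 * (1 + v)⁻¹ ^ 4) =
                  8 * ((1 + v) * (1 + v)⁻¹) * (1 + v)⁻¹ ^ 3 := by ring
                _ = _ := by rw [this]; ring
          _ = _ := by rw [rpow3 hv])
  obtain ⟨T₀, hT₀1, hT₀⟩ := ((eventually_ge_atTop (1:ℝ)).and A.1).exists
  have ig1 : IntegrableOn (fun t => f t * g₀ t) (Ioi 0) := by
    refine (hT₀.const_mul 4).mono' ((hf.mul g₀_cont).aestronglyMeasurable) (Eventually.of_forall fun t => ?_)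
    rw [Real.norm_of_nonneg (mul_nonneg (f0 t) (g₀_pos t).le)]
    have h1 : g₀ t ≤ 4 * rg 1 (t / T₀) := by
      refine (g₀_le t).trans ?_
      unfold rg
      gcongr
      rw [one_pow, one_mul, div_pow]
      exact div_le_self (sq_nonneg t) (one_le_pow₀ hT₀1)
    calc f t * g₀ t ≤ f t * (4 * rg 1 (t / T₀)) := mul_le_mul_of_nonneg_left h1 (f0 t)
      _ = _ := by ring
  have ge : ∀ t, f (-t) * g₀ (-t) = f t * g₀ t := fun t => by rw [fe]; unfold g₀; rw [neg_sq]
  have ig : Integrable (fun t => f t * g₀ t) := by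
    rw [← integrableOn_univ, ← Iic_union_Ioi (a := (0:ℝ))]
    refine IntegrableOn.union ?_ ig1
    rw [integrableOn_Iic_iff_integrableOn_Iio]
    have h0 : IntegrableOn (fun t => f t * g₀ t) (Ioi (-(0:ℝ))) := by rw [neg_zero]; exact ig1
    have h1 : IntegrableOn (fun t => f (-t) * g₀ (-t)) (Iio (0:ℝ)) := IntegrableOn.comp_neg_Iio h0
    exact h1.congr_fun (fun t _ => ge t) measurableSet_Iio
  refine ⟨ig, ?_⟩
  set g : ℝ → ℝ := fun t => f t * g₀ t with hg
  have g0 : ∀ t, 0 ≤ g t := fun t => mul_nonneg (f0 t) (g₀_pos t).le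
  have hgc : Continuous g := hf.mul g₀_cont
  -- the modified function
  set f' : ℝ → ℝ := fun t => g t * t ^ 2 with hf'
  have hf'c : Continuous f' := hgc.mul (continuous_pow 2)
  have hf'0 : ∀ t, 0 ≤ f' t := fun t => mul_nonneg (g0 t) (sq_nonneg t)
  have hf'i : ∀ X : ℝ, IntegrableOn f' (Ioc 0 X) := fun X =>
    (hf'c.integrableOn_Icc (a := 0) (b := X)).mono_set Ioc_subset_Icc_self
  have hsplit : ∀ t, f t = f' t + g t * (1 / 4) := by
    intro t
    have h1 : g₀ t * (1 / 4 + t ^ 2) = 1 := by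
      unfold g₀
      exact inv_mul_cancel₀ (by positivity)
    have h2 : f' t = f t * g₀ t * t ^ 2 := rfl
    have h3 : g t = f t * g₀ t := rfl
    rw [h2, h3]
    linear_combination (-(f t)) * h1
  have hTL : ∀ᶠ T in atTop, 0 < T * L T := by
    filter_upwards [eventually_ge_atTop S.T0] with T hT
    have h1 := S.low T hT
    have h2 := S.hc
    have h3 := S.hT0
    exact mul_pos (by linarith) (by linarith)
  have hlow : Tendsto (fun T : ℝ => (∫ t in Ioc 0 T, g t * (1 / 4)) / (T * L T)) atTop (𝓝 0) := by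
    have h1 : Tendsto (fun T : ℝ => ((∫ t, g t) * (1 / 4)) / (T * S.c)) atTop (𝓝 0) := by
      apply Tendsto.div_atTop tendsto_const_nhds
      exact tendsto_id.atTop_mul_const S.hc
    refine squeeze_zero' ?_ ?_ h1
    · filter_upwards [hTL] with T hT
      exact div_nonneg (integral_nonneg fun t => mul_nonneg (g0 t) (by norm_num)) hT.le
    · filter_upwards [hTL, eventually_ge_atTop S.T0] with T hT hT0
      have h2 := S.low T hT0
      have h3 := S.hc
      have h4 : 0 < T := by linarith [S.hT0]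
      apply div_le_div₀
      · exact mul_nonneg (integral_nonneg g0) (by norm_num)
      · rw [integral_mul_const]
        apply mul_le_mul_of_nonneg_right _ (by norm_num)
        exact setIntegral_le_integral ig (Eventually.of_forall g0)
      · positivity
      · gcongr
  have hF' : Tendsto (fun T => (∫ t in Ioc 0 T, f' t) / (T * L T)) atTop (𝓝 c) := by
    have h1 := hF.sub hlow
    rw [sub_zero] at h1
    refine h1.congr fun T => ?_
    rw [← sub_div]
    congr 1
    have h2 : ∫ t in Ioc 0 T, f t = (∫ t in Ioc 0 T, f' t) + ∫ t in Ioc 0 T, g t * (1 / 4) := by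
      rw [← integral_add (hf'i T) (ig.integrableOn.mul_const _)]
      congr 1; funext t
      exact hsplit t
    rw [h2]; ring
  have hA := (abelian_fk S hf'c.measurable hf'0 hf'i hF').2
  have h2 := hA.const_mul 2
  have e : 2 * (c * (π / 2)) = π * c := by ring
  rw [e] at h2
  refine h2.congr' ?_
  filter_upwards [eventually_gt_atTop 0] with T hT
  have e1 : ∫ t in Ioi (0:ℝ), f' t * fk (t / T) = T ^ 2 * ∫ t in Ioi (0:ℝ), (1 - Real.cos (1 / T * t)) * g t := by
    rw [← integral_const_mul]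
    apply setIntegral_congr_fun measurableSet_Ioi
    intro t ht
    have ht : 0 < t := ht
    simp only [hf']
    unfold fk
    rw [show 1 / T * t = t / T by ring]
    field_simp
  have e2 : UU g (1 / T) = 2 * ∫ t in Ioi (0:ℝ), (1 - Real.cos (1 / T * t)) * g t := by
    unfold UU
    have h3 := integral_comp_abs (f := fun t => (1 - Real.cos (1 / T * t)) * g t)
    rw [← h3]
    congr 1; funext t
    rcases abs_cases t with ⟨h, _⟩ | ⟨h, _⟩
    · rw [h]
    · rw [h, mul_neg, Real.cos_neg]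
      congr 1
      exact (ge t).symm
  rw [e1, e2]
  field_simp

/-- the quadratic functional -/
noncomputable def VV (Φ : ℝ → ℂ) (h : ℝ) : ℝ≥0∞ :=
  ENNReal.ofReal (1 / (2 * π)) * ∫⁻ t : ℝ, ‖(Complex.exp ((((1 / 2 : ℝ) : ℂ) + t * Complex.I) * h) - 1) * Φ t‖ₑ ^ 2

lemma exp_sq (h t : ℝ) : ‖Complex.exp ((((1 / 2 : ℝ) : ℂ) + t * Complex.I) * h) - 1‖ ^ 2 =
    (Real.exp (h / 2) - 1) ^ 2 + 2 * Real.exp (h / 2) * (1 - Real.cos (h * t)) := by
  have e : (((1 / 2 : ℝ) : ℂ) + t * Complex.I) * h = ((h / 2 : ℝ) : ℂ) + ((h * t : ℝ) : ℂ) * Complex.I := by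
    push_cast; ring
  rw [e, Complex.exp_add, Complex.exp_mul_I, ← Complex.ofReal_exp, ← Complex.ofReal_cos, ← Complex.ofReal_sin,
    ← Complex.normSq_eq_norm_sq, Complex.normSq_apply]
  simp only [Complex.sub_re, Complex.sub_im, Complex.mul_re, Complex.mul_im, Complex.add_re, Complex.add_im,
    Complex.ofReal_re, Complex.ofReal_im, Complex.I_re, Complex.I_im, Complex.one_re, Complex.one_im]
  have := Real.sin_sq_add_cos_sq (h * t)
  linear_combination (Real.exp (h / 2) ^ 2) * this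

lemma VV_eq {Φ : ℝ → ℂ} {g : ℝ → ℝ} (hg : ∀ t, ‖Φ t‖ ^ 2 = g t) (h : ℝ) :
    VV Φ h = ENNReal.ofReal (1 / (2 * π)) * ∫⁻ t : ℝ, ENNReal.ofReal
      (((Real.exp (h / 2) - 1) ^ 2 + 2 * Real.exp (h / 2) * (1 - Real.cos (h * t))) * g t) := by
  unfold VV
  congr 1
  apply lintegral_congr
  intro t
  rw [← ofReal_norm, ← ENNReal.ofReal_pow (norm_nonneg _), norm_mul, mul_pow, exp_sq, hg]

lemma VV_int {Φ : ℝ → ℂ} {g : ℝ → ℝ} (hg : ∀ t, ‖Φ t‖ ^ 2 = g t) (ig : Integrable g) (h : ℝ) :
    VV Φ h = ENNReal.ofReal (1 / (2 * π) * ((Real.exp (h / 2) - 1) ^ 2 * (∫ t, g t) +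
      2 * Real.exp (h / 2) * UU g h)) := by
  have g0 : ∀ t, 0 ≤ g t := fun t => by rw [← hg]; positivity
  rw [VV_eq hg, ENNReal.ofReal_mul (by positivity)]
  congr 1
  have hi : Integrable (fun t => ((Real.exp (h / 2) - 1) ^ 2 + 2 * Real.exp (h / 2) * (1 - Real.cos (h * t))) * g t) := by
    have := (ig.const_mul ((Real.exp (h / 2) - 1) ^ 2)).add ((UU_int ig h).const_mul (2 * Real.exp (h / 2)))
    refine this.congr (Eventually.of_forall fun t => ?_)
    simp only [Pi.add_apply]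
    ring
  rw [← ofReal_integral_eq_lintegral_ofReal hi]
  · congr 1
    unfold UU
    rw [← integral_const_mul, ← integral_const_mul, ← integral_add (ig.const_mul _) ((UU_int ig h).const_mul _)]
    congr 1; funext t; ring
  · refine Eventually.of_forall fun t => ?_
    have := Real.cos_le_one (h * t)
    have := Real.exp_pos (h / 2)
    exact mul_nonneg (by have : 0 ≤ 1 - Real.cos (h * t) := by linarith
                         positivity) (g0 t)

lemma VV_fin {Φ : ℝ → ℂ} {g : ℝ → ℝ} (hgc : Continuous g) (hg : ∀ t, ‖Φ t‖ ^ 2 = g t) {h : ℝ} (hh : 0 < h)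
    (hV : VV Φ h ≠ ⊤) : Integrable g := by
  have g0 : ∀ t, 0 ≤ g t := fun t => by rw [← hg]; positivity
  rw [VV_eq hg] at hV
  have h1 : ∫⁻ t : ℝ, ENNReal.ofReal
      (((Real.exp (h / 2) - 1) ^ 2 + 2 * Real.exp (h / 2) * (1 - Real.cos (h * t))) * g t) ≠ ⊤ := by
    intro h2
    rw [h2] at hV
    apply hV
    rw [ENNReal.mul_top]
    simp
    positivity
  have ha : 0 < (Real.exp (h / 2) - 1) ^ 2 := by
    have : 1 < Real.exp (h / 2) := Real.one_lt_exp_iff.2 (by linarith)
    have : 0 < Real.exp (h / 2) - 1 := by linarith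
    positivity
  have h2 : ∫⁻ t : ℝ, ENNReal.ofReal ((Real.exp (h / 2) - 1) ^ 2 * g t) ≠ ⊤ := by
    refine ne_top_of_le_ne_top h1 (lintegral_mono fun t => ?_)
    apply ENNReal.ofReal_le_ofReal
    apply mul_le_mul_of_nonneg_right _ (g0 t)
    have := Real.cos_le_one (h * t)
    have h3 := Real.exp_pos (h / 2)
    nlinarith
  have h3 : Integrable (fun t => (Real.exp (h / 2) - 1) ^ 2 * g t) := by
    refine ⟨(continuous_const.mul hgc).aestronglyMeasurable, ?_⟩
    rw [hasFiniteIntegral_iff_ofReal (Eventually.of_forall fun t => mul_nonneg ha.le (g0 t))]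
    exact h2.lt_top
  have h4 := h3.const_mul (((Real.exp (h / 2) - 1) ^ 2)⁻¹)
  refine h4.congr (Eventually.of_forall fun t => ?_)
  simp only
  rw [← mul_assoc, inv_mul_cancel₀ ha.ne', one_mul]

/-- small terms -/
lemma small_tendsto {L : ℝ → ℝ} (S : SV L) (m : ℝ) :
    Tendsto (fun T : ℝ => T * ((Real.exp (1 / T / 2) - 1) ^ 2 * m) / L T) atTop (𝓝 0) := by
  have h1 : Tendsto (fun T : ℝ => |m| / (T * S.c)) atTop (𝓝 0) := by
    apply Tendsto.div_atTop tendsto_const_nhds
    exact tendsto_id.atTop_mul_const S.hc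
  refine squeeze_zero_norm' ?_ h1
  filter_upwards [eventually_ge_atTop S.T0] with T hT
  have h2 := S.low T hT
  have h3 := S.hc
  have h4 : 1 ≤ T := S.hT0.trans hT
  have h5 : 0 < T := by linarith
  have h6 : Real.exp (1 / T / 2) - 1 ≤ 1 / T := by
    have h7 : 1 / T / 2 ≤ 1 / 2 := by
      have : 1 / T ≤ 1 := by rw [div_le_one h5]; exact h4
      linarith
    have h8 : 0 ≤ 1 / T / 2 := by positivity
    have h9 := Real.exp_bound_div_one_sub_of_interval h8 (by linarith : 1 / T / 2 < 1)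
    have h10 : 1 / (1 - 1 / T / 2) ≤ 1 + 1 / T := by
      rw [div_le_iff₀ (by linarith)]
      have : 1 / T ≤ 1 := by rw [div_le_one h5]; exact h4
      have h11 : 0 < 1 / T := by positivity
      nlinarith
    linarith
  have h7 : 0 ≤ Real.exp (1 / T / 2) - 1 := by
    have := Real.add_one_le_exp (1 / T / 2)
    have : 0 ≤ 1 / T / 2 := by positivity
    linarith
  rw [Real.norm_eq_abs, abs_div, abs_mul, abs_mul, abs_of_pos h5, abs_of_pos (by linarith : 0 < L T),
    abs_of_nonneg (sq_nonneg _)]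
  calc T * ((Real.exp (1 / T / 2) - 1) ^ 2 * |m|) / L T ≤ T * ((1 / T) ^ 2 * |m|) / S.c := by
        gcongr
    _ = _ := by field_simp

/-- the equivalence between the cosine functional and the quadratic functional -/
theorem VV_iff {L : ℝ → ℝ} (S : SV L) {Φ : ℝ → ℂ} {g : ℝ → ℝ} (hgc : Continuous g) (hg : ∀ t, ‖Φ t‖ ^ 2 = g t) {c : ℝ}
    (hc : 0 ≤ c) :
    (Integrable g ∧ Tendsto (fun T => T * UU g (1 / T) / L T) atTop (𝓝 (π * c))) ↔
      Tendsto (fun h => VV Φ h / ENNReal.ofReal (h * L (1 / h))) (𝓝[>] 0) (𝓝 (ENNReal.ofReal c)) := by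
  have g0 : ∀ t, 0 ≤ g t := fun t => by rw [← hg]; positivity
  have hinv : Tendsto (fun T : ℝ => 1 / T) atTop (𝓝[>] 0) := by
    simp only [one_div]; exact tendsto_inv_atTop_nhdsGT_zero
  have hinv' : Tendsto (fun h : ℝ => 1 / h) (𝓝[>] 0) atTop := by
    simp only [one_div]; exact tendsto_inv_nhdsGT_zero
  have hexp : Tendsto (fun T : ℝ => Real.exp (1 / T / 2)) atTop (𝓝 1) := by
    have h1 : Tendsto (fun T : ℝ => 1 / T / 2) atTop (𝓝 0) := by
      have := (tendsto_nhdsWithin_iff.1 hinv).1.div_const 2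
      simpa using this
    have := (Real.continuous_exp.tendsto 0).comp h1
    simpa [Function.comp_def] using this
  have hLpos : ∀ T, S.T0 ≤ T → 0 < L T := fun T hT => S.hc.trans_le (S.low T hT)
  constructor
  · rintro ⟨ig, hU⟩
    have h1 : Tendsto (fun T : ℝ => 1 / (2 * π) * (T * ((Real.exp (1 / T / 2) - 1) ^ 2 * (∫ t, g t)) / L T +
        2 * Real.exp (1 / T / 2) * (T * UU g (1 / T) / L T))) atTop (𝓝 (1 / (2 * π) * (0 + 2 * 1 * (π * c)))) :=
      ((small_tendsto S _).add ((hexp.const_mul 2).mul hU)).const_mul _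
    have e1 : 1 / (2 * π) * (0 + 2 * 1 * (π * c)) = c := by
      have := Real.pi_ne_zero
      field_simp
      ring
    rw [e1] at h1
    have h2 := ENNReal.tendsto_ofReal h1
    have h3 := h2.comp hinv'
    refine h3.congr' ?_
    filter_upwards [hinv'.eventually_ge_atTop S.T0, eventually_mem_nhdsWithin] with h hh hpos
    have hpos : 0 < h := hpos
    have hL := hLpos _ hh
    rw [VV_int hg ig, ← ENNReal.ofReal_div_of_pos (by positivity)]
    simp only [Function.comp]
    congr 1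
    have e2 : 1 / (1 / h) = h := by field_simp
    rw [e2]
    generalize L (1 / h) = ℓ at hL ⊢
    field_simp
  · intro h1
    have h2 : ∀ᶠ h in 𝓝[>] (0:ℝ), VV Φ h / ENNReal.ofReal (h * L (1 / h)) < ⊤ :=
      h1.eventually (gt_mem_nhds ENNReal.ofReal_lt_top)
    obtain ⟨h, ⟨hlt, hh⟩, hpos⟩ := ((h2.and (hinv'.eventually_ge_atTop S.T0)).and eventually_mem_nhdsWithin).exists
    have hpos : 0 < h := hpos
    have hV : VV Φ h ≠ ⊤ := by
      intro hV
      rw [hV, ENNReal.top_div_of_ne_top ENNReal.ofReal_ne_top] at hlt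
      exact lt_irrefl _ hlt
    have ig := VV_fin hgc hg hpos hV
    refine ⟨ig, ?_⟩
    have h3 := h1.comp hinv
    have h4 : Tendsto (fun T : ℝ => (VV Φ (1 / T) / ENNReal.ofReal (1 / T * L (1 / (1 / T)))).toReal) atTop (𝓝 c) := by
      have := (ENNReal.tendsto_toReal (a := ENNReal.ofReal c) ENNReal.ofReal_ne_top).comp h3
      rw [ENNReal.toReal_ofReal hc] at this
      exact this
    have h5 : Tendsto (fun T : ℝ => (2 * Real.exp (1 / T / 2))⁻¹ * ((2 * π) * (VV Φ (1 / T) / ENNReal.ofReal (1 / T * L (1 / (1 / T)))).toReal -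
        T * ((Real.exp (1 / T / 2) - 1) ^ 2 * (∫ t, g t)) / L T)) atTop (𝓝 ((2 * 1)⁻¹ * ((2 * π) * c - 0))) :=
      ((hexp.const_mul 2).inv₀ (by norm_num)).mul ((h4.const_mul _).sub (small_tendsto S _))
    have e1 : (2 * 1)⁻¹ * ((2 * π) * c - 0) = π * c := by ring
    rw [e1] at h5
    refine h5.congr' ?_
    filter_upwards [eventually_ge_atTop S.T0] with T hT
    have hL := hLpos _ hT
    have hT0 : 0 < T := by linarith [S.hT0]
    have e2 : 1 / (1 / T) = T := by field_simp
    have hnn : 0 ≤ 1 / (2 * π) * ((Real.exp (1 / T / 2) - 1) ^ 2 * (∫ t, g t) + 2 * Real.exp (1 / T / 2) * UU g (1 / T)) := by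
      have := UU_nonneg g0 (1 / T)
      have : 0 ≤ ∫ t, g t := integral_nonneg g0
      positivity
    rw [VV_int hg ig, e2, ENNReal.toReal_div, ENNReal.toReal_ofReal hnn, ENNReal.toReal_ofReal (by positivity)]
    have := Real.exp_pos (1 / T / 2)
    have := Real.pi_ne_zero
    field_simp
    ring

/-- **The equivalence of mean value asymptotics and variance asymptotics.** -/
theorem mean_iff {L : ℝ → ℝ} (S : SV L) {Φ : ℝ → ℂ} {f : ℝ → ℝ} (hf : Continuous f) (fe : ∀ t, f (-t) = f t)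
    (hΦ : ∀ t, ‖Φ t‖ ^ 2 = f t * g₀ t) {c : ℝ} (hc : 0 ≤ c) :
    Tendsto (fun T => (∫ t in Ioc 0 T, f t) / (T * L T)) atTop (𝓝 c) ↔
      Tendsto (fun h => VV Φ h / ENNReal.ofReal (h * L (1 / h))) (𝓝[>] 0) (𝓝 (ENNReal.ofReal c)) := by
  have f0 : ∀ t, 0 ≤ f t := by
    intro t
    have h1 : 0 ≤ f t * g₀ t := by rw [← hΦ]; positivity
    exact nonneg_of_mul_nonneg_left h1 (g₀_pos t)
  rw [← VV_iff S (hf.mul g₀_cont) hΦ hc]
  constructor
  · intro h
    exact dir_abel S hf f0 fe h
  · rintro ⟨h1, h2⟩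
    exact dir_taub S hf f0 fe hc h1 h2

end Pool.Agent.N798.V
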