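import Pool.Agent.N798.V5
import Pool.Agent.N798.V10
import Pool.Agent.H388LH.ZG

set_option autoImplicit false

/-! The remainder in the Piltz divisor problem on short multiplicative intervals and the moments of zeta. -/

namespace Pool.Agent.N798.V

open Complex MeasureTheory Filter Topology Set
open scoped ENNReal Real

/-- `d_k(n)`, the number of ordered `k`-tuples of positive integers with product `n`. -/
def dk (k n : ℕ) : ℕ := (ArithmeticFunction.zeta ^ k : ArithmeticFunction ℕ) n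

/-- The remainder `Σ_{n ≤ x} d_k(n) - Res_{s = 1} ζ(s)^k x^s / s`. -/
noncomputable def Delta (k : ℕ) (x : ℝ) : ℂ :=
  (∑ n ∈ Finset.Icc 1 ⌊x⌋₊, (dk k n : ℂ)) - (2 * π * I)⁻¹ * ∮ s in C(1, 1 / 4), riemannZeta s ^ k * (x : ℂ) ^ s / s

/-- The variance `∫_0^∞ |Δ_k(x e^h) - Δ_k(x)|^2 dx / x^2`. -/
noncomputable def Var (k : ℕ) (h : ℝ) : ℝ≥0∞ :=
  ∫⁻ x in Ioi (0:ℝ), ENNReal.ofReal (‖Delta k (x * Real.exp h) - Delta k x‖ ^ 2 / x ^ 2)

/-- `ζ(s)^k / s` -/
noncomputable def Fz (k : ℕ) (s : ℂ) : ℂ := riemannZeta s ^ k / s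

lemma dk_summable_series (k : ℕ) {s : ℂ} (hs : 1 < s.re) :
    LSeriesSummable (fun n => (dk k n : ℂ)) s ∧ LSeries (fun n => (dk k n : ℂ)) s = riemannZeta s ^ k := by
  have hcast : ∀ k : ℕ, (fun n => (dk k n : ℂ)) = fun n => ((((ArithmeticFunction.zeta : ArithmeticFunction ℕ) : ArithmeticFunction ℂ) ^ k : ArithmeticFunction ℂ) n) := by
    intro k
    funext n
    have h : ((ArithmeticFunction.zeta ^ k : ArithmeticFunction ℕ) : ArithmeticFunction ℂ) =
        ((ArithmeticFunction.zeta : ArithmeticFunction ℕ) : ArithmeticFunction ℂ) ^ k := by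
      induction k with
      | zero => rw [pow_zero, pow_zero, ArithmeticFunction.natCoe_one]
      | succ k ih => rw [pow_succ, pow_succ, ArithmeticFunction.natCoe_mul, ih]
    rw [← h]
    rfl
  rw [hcast k]
  induction k with
  | zero =>
    have e : (fun n => ((((ArithmeticFunction.zeta : ArithmeticFunction ℕ) : ArithmeticFunction ℂ) ^ 0 : ArithmeticFunction ℂ) n)) =
        LSeries.delta := by
      funext n
      rw [pow_zero, ArithmeticFunction.one_apply]
      rfl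
    rw [e]
    refine ⟨?_, ?_⟩
    · have : LSeriesHasSum LSeries.delta s 1 := by
        have h1 : LSeries.term LSeries.delta s = fun n => if n = 1 then 1 else 0 := by
          funext n
          rw [LSeries.term_delta]
        unfold LSeriesHasSum
        rw [h1]
        exact hasSum_ite_eq 1 1
      exact this.LSeriesSummable
    · rw [pow_zero, LSeries_delta]; rfl
  | succ k ih =>
    have hz : LSeriesSummable (fun n => (((ArithmeticFunction.zeta : ArithmeticFunction ℕ) : ArithmeticFunction ℂ) n)) s := by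
      have := (ArithmeticFunction.LSeriesSummable_zeta_iff (s := s)).2 hs
      exact this
    have hz2 : LSeries (fun n => (((ArithmeticFunction.zeta : ArithmeticFunction ℕ) : ArithmeticFunction ℂ) n)) s = riemannZeta s :=
      ArithmeticFunction.LSeries_zeta_eq_riemannZeta hs
    rw [pow_succ, pow_succ]
    refine ⟨ArithmeticFunction.LSeriesSummable_mul ih.1 hz, ?_⟩
    rw [ArithmeticFunction.LSeries_mul' ih.1 hz, ih.2, hz2]

lemma zeta_growth_strip {s : ℂ} (h1 : 1 / 2 ≤ s.re) (h2 : s.re ≤ 2) (h3 : 1 / 4 < ‖s - 1‖) :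
    ‖riemannZeta s‖ ≤ 9 * (1 + |s.im|) := by
  have hs0 : 0 < s.re := by linarith
  have hs1 : s ≠ 1 := by
    intro h; rw [h, sub_self, norm_zero] at h3; linarith
  rw [Pool.Agent.H388LH.zeta_eq hs0 hs1]
  have h4 := Pool.Agent.H388LH.fract_int_bound hs0
  have h5 : ‖1 / (s - 1)‖ ≤ 4 := by
    rw [norm_div, norm_one, div_le_iff₀ (by linarith)]
    linarith
  have h6 : 1 / s.re ≤ 2 := by
    rw [div_le_iff₀ hs0]; linarith
  have h7 : ‖s‖ ≤ 2 + |s.im| := by
    have := Complex.norm_le_abs_re_add_abs_im s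
    rw [abs_of_pos hs0] at this
    linarith
  calc ‖1 + 1 / (s - 1) - s * ∫ u in Ioi (1 : ℝ), ((Int.fract u : ℝ) : ℂ) * (u : ℂ) ^ (-s - 1)‖
      ≤ ‖(1:ℂ)‖ + ‖1 / (s - 1)‖ + ‖s‖ * ‖∫ u in Ioi (1 : ℝ), ((Int.fract u : ℝ) : ℂ) * (u : ℂ) ^ (-s - 1)‖ := by
        rw [← norm_mul]
        exact (norm_sub_le _ _).trans (add_le_add_left (norm_add_le _ _) _)
    _ ≤ 1 + 4 + (2 + |s.im|) * 2 := by
        rw [norm_one]
        have := h4.trans h6
        gcongr
    _ ≤ _ := by linarith [abs_nonneg s.im]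

lemma Fz_diff (k : ℕ) {z : ℂ} (h0 : z ≠ 0) (h1 : z ≠ 1) : DifferentiableAt ℂ (Fz k) z := by
  unfold Fz
  exact ((differentiableAt_riemannZeta h1).pow k).div differentiableAt_id h0

lemma Fz_bound (k : ℕ) {z : ℂ} (h1 : 1 / 2 ≤ z.re) (h2 : z.re ≤ 2) (h3 : 1 / 4 < ‖z - 1‖) :
    ‖Fz k z‖ ≤ (2 * 9 ^ k) * (1 + |z.im|) ^ k := by
  unfold Fz
  have h4 := zeta_growth_strip h1 h2 h3
  have h5 : 1 / 2 ≤ ‖z‖ := h1.trans (Complex.re_le_norm z)
  rw [norm_div, norm_pow, div_le_iff₀ (by linarith)]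
  calc ‖riemannZeta z‖ ^ k ≤ (9 * (1 + |z.im|)) ^ k := by gcongr
    _ = 9 ^ k * (1 + |z.im|) ^ k * 1 := by rw [mul_pow, mul_one]
    _ ≤ 9 ^ k * (1 + |z.im|) ^ k * (2 * ‖z‖) := by
        gcongr
        linarith
    _ = _ := by ring

/-- the variance as an integral over `u = log x` -/
lemma Var_eq (k : ℕ) (h : ℝ) : Var k h =
    ∫⁻ u, ENNReal.ofReal (Real.exp (-u)) * ‖Del (fun n => (dk k n : ℂ)) (Fz k) {1} (1 / 4) (u + h) -
      Del (fun n => (dk k n : ℂ)) (Fz k) {1} (1 / 4) u‖ₑ ^ 2 := by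
  have hD : ∀ u : ℝ, Delta k (Real.exp u) = Del (fun n => (dk k n : ℂ)) (Fz k) {1} (1 / 4) u := by
    intro u
    unfold Delta Del SS
    rw [Finset.sum_singleton]
    congr 1
    unfold rho Fz
    congr 1
    apply circleIntegral.integral_congr (by norm_num)
    intro s _
    simp only
    rw [Complex.cpow_def_of_ne_zero (by exact_mod_cast (Real.exp_pos u).ne'), ← Complex.ofReal_log (Real.exp_pos u).le,
      Real.log_exp, mul_comm s, div_mul_eq_mul_div]
  unfold Var
  have h1 := lintegral_image_eq_lintegral_abs_deriv_mul (s := univ) (f := Real.exp) (f' := Real.exp) MeasurableSet.univ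
    (fun x _ => (Real.hasDerivAt_exp x).hasDerivWithinAt) (Real.exp_injective.injOn)
    (fun x => ENNReal.ofReal (‖Delta k (x * Real.exp h) - Delta k x‖ ^ 2 / x ^ 2))
  rw [image_univ, Real.range_exp, setLIntegral_univ] at h1
  rw [h1]
  apply lintegral_congr
  intro u
  rw [abs_of_pos (Real.exp_pos u), ← Real.exp_add, hD, hD, ← ofReal_norm, ← ENNReal.ofReal_pow (norm_nonneg _),
    ← ENNReal.ofReal_mul (Real.exp_pos _).le, ← ENNReal.ofReal_mul (Real.exp_pos _).le]
  congr 1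
  rw [Real.exp_neg]
  have := Real.exp_pos u
  field_simp

/-- the exact formula -/
theorem Var_formula (k : ℕ) (h : ℝ) : Var k h = VV (fun t : ℝ => Fz k (((1 / 2 : ℝ) : ℂ) + t * I)) h := by
  rw [Var_eq]
  have h2 : ((1 / 2 : ℝ)) < 1 := by norm_num
  exact parseval (a := fun n => (dk k n : ℂ)) (F := Fz k) (P := {1}) (r := 1 / 4) (K := 2 * 9 ^ k) (A := k)
    (by norm_num) (by norm_num) (by simp) (by
      intro p hp q hq hpq
      rw [Finset.mem_singleton] at hp hq
      exact absurd (hp.trans hq.symm) hpq)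
    (dk_summable_series k (s := 3 / 2) (by norm_num)).1
    (fun z h1 _ hz => Fz_diff k (by intro h; rw [h] at h1; norm_num at h1) (by simpa using hz))
    (fun w hw => by
      rw [(dk_summable_series k (s := w) (by rw [hw]; norm_num)).2]; rfl)
    (fun z h1 h2 hz => Fz_bound k h1 h2 (hz 1 (by simp))) h

lemma norm_Fz (k : ℕ) (t : ℝ) : ‖Fz k (((1 / 2 : ℝ) : ℂ) + t * I)‖ ^ 2 =
    ‖riemannZeta (1 / 2 + t * I)‖ ^ (2 * k) * g₀ t := by
  have e : (((1 / 2 : ℝ) : ℂ) + t * I) = 1 / 2 + t * I := by push_cast; ring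
  have e2 : ‖(1 / 2 + t * I : ℂ)‖ ^ 2 = 1 / 4 + t ^ 2 := by
    rw [← Complex.normSq_eq_norm_sq, Complex.normSq_apply]
    simp
    ring
  unfold Fz g₀
  rw [e, norm_div, div_pow, norm_pow, e2, ← pow_mul, mul_comm k 2, div_eq_mul_inv]

lemma zf_cont (k : ℕ) : Continuous (fun t : ℝ => ‖riemannZeta (1 / 2 + t * I)‖ ^ (2 * k)) := by
  have h : Continuous (fun t : ℝ => riemannZeta (1 / 2 + t * I)) := by
    rw [continuous_iff_continuousAt]
    intro t
    have h1 : ContinuousAt riemannZeta (1 / 2 + t * I) := by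
      apply (differentiableAt_riemannZeta _).continuousAt
      intro h
      have := congrArg Complex.re h
      simp at this
    exact ContinuousAt.comp (g := riemannZeta) (f := fun t : ℝ => (1 / 2 + t * I : ℂ)) h1 (by fun_prop)
  fun_prop

lemma zf_even (k : ℕ) (t : ℝ) : ‖riemannZeta (1 / 2 + ((-t : ℝ) : ℂ) * I)‖ ^ (2 * k) = ‖riemannZeta (1 / 2 + t * I)‖ ^ (2 * k) := by
  have h : (1 / 2 + ((-t : ℝ) : ℂ) * I : ℂ) = (starRingEnd ℂ) (1 / 2 + t * I) := by
    simp [Complex.ext_iff]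
  rw [h, riemannZeta_conj, Complex.norm_conj]

/-- moments and variances -/
theorem moment_iff {L : ℝ → ℝ} (S : SV L) (k : ℕ) {c : ℝ} (hc : 0 ≤ c) :
    Tendsto (fun T : ℝ => (∫ t : ℝ in Ioc 0 T, ‖riemannZeta (1 / 2 + t * I)‖ ^ (2 * k)) / (T * L T)) atTop (𝓝 c) ↔
      Tendsto (fun h => Var k h / ENNReal.ofReal (h * L (1 / h))) (𝓝[>] 0) (𝓝 (ENNReal.ofReal c)) := by
  simp only [Var_formula]
  exact mean_iff S (zf_cont k) (zf_even k) (norm_Fz k) hc

end Pool.Agent.N798.V
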