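import Pool.Agent.N798.P6
import Pool.Agent.N798.P9
import Pool.Agent.N798.V11

set_option autoImplicit false

/-! The function `(s-1) ζ(s)/s`, its powers, and the sums of `d_κ(n)` weighted with the Laguerre function. -/

namespace Pool.Agent.N798.P

open Complex MeasureTheory Filter Topology Set Metric
open Pool.Agent.N798.V
open scoped ENNReal Real

/-- `(s - 1) ζ(s) / s` -/
noncomputable def Xf (s : ℂ) : ℂ := riemannZeta₁ s / s

lemma zeta1_eq {s : ℂ} (hs : s ≠ 1) : riemannZeta₁ s = (s - 1) * riemannZeta s := by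
  have h := riemannZeta_eq_inv_sub_mul hs
  rw [h]
  have : s - 1 ≠ 0 := sub_ne_zero.2 hs
  field_simp

lemma ne_zero_of_re {s : ℂ} (hs : 0 < s.re) : s ≠ 0 := by
  intro h; rw [h] at hs; simp at hs

lemma ne_one_of_re {s : ℂ} (hs : 1 < s.re) : s ≠ 1 := by
  intro h; rw [h] at hs; simp at hs

lemma Xf_diff {z : ℂ} (hz : 0 < z.re) : DifferentiableAt ℂ Xf z :=
  (differentiable_riemannZeta₁ z).div differentiableAt_id (ne_zero_of_re hz)

lemma Xf_eq {z : ℂ} (hz : 1 < z.re) : Xf z = (1 - z⁻¹) * riemannZeta z := by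
  unfold Xf
  rw [zeta1_eq (ne_one_of_re hz)]
  have := ne_zero_of_re (show 0 < z.re by linarith)
  field_simp

lemma Xf_ne {z : ℂ} (hz : 1 < z.re) : Xf z ≠ 0 := by
  unfold Xf
  rw [zeta1_eq (ne_one_of_re hz)]
  exact div_ne_zero (mul_ne_zero (sub_ne_zero.2 (ne_one_of_re hz)) (riemannZeta_ne_zero_of_one_lt_re hz))
    (ne_zero_of_re (by linarith))

lemma norm_inv_lt {z : ℂ} (hz : 1 < z.re) : ‖z⁻¹‖ < 1 := by
  rw [norm_inv]
  exact inv_lt_one_of_one_lt₀ (hz.trans_le (Complex.re_le_norm z))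

lemma Xf_bound : ∃ K : ℝ, ∀ z : ℂ, 1 / 2 ≤ z.re → z.re ≤ 2 → ‖Xf z‖ ≤ K * (1 + |z.im|) ^ 1 := by
  obtain ⟨C, hC⟩ := (isCompact_closedBall (1:ℂ) (1 / 4)).exists_bound_of_continuousOn
    differentiable_riemannZeta₁.continuous.continuousOn
  have hC0 : 0 ≤ C := (norm_nonneg _).trans (hC 1 (mem_closedBall_self (by norm_num)))
  refine ⟨27 + 2 * C, fun z h1 h2 => ?_⟩
  have h3 : 1 / 2 ≤ ‖z‖ := h1.trans (Complex.re_le_norm z)
  have h4 := abs_nonneg z.im
  rw [pow_one]
  unfold Xf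
  rw [norm_div, div_le_iff₀ (by linarith)]
  by_cases hz : 1 / 4 < ‖z - 1‖
  · have hz1 : z ≠ 1 := by intro h; rw [h, sub_self, norm_zero] at hz; linarith
    rw [zeta1_eq hz1, norm_mul]
    have h5 := zeta_growth_strip h1 h2 hz
    have h6 : ‖z - 1‖ ≤ 3 * ‖z‖ := by
      have := norm_sub_le z 1
      rw [norm_one] at this
      linarith
    calc ‖z - 1‖ * ‖riemannZeta z‖ ≤ (3 * ‖z‖) * (9 * (1 + |z.im|)) := by gcongr
      _ = 27 * (1 + |z.im|) * ‖z‖ := by ring
      _ ≤ (27 + 2 * C) * (1 + |z.im|) * ‖z‖ := by gcongr; linarith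
  · have h5 := hC z (by rw [mem_closedBall, dist_eq_norm]; exact not_lt.1 hz)
    have h6 : 1 / 2 ≤ (1 + |z.im|) * ‖z‖ := by nlinarith
    calc ‖riemannZeta₁ z‖ ≤ C := h5
      _ ≤ (27 + 2 * C) * ((1 + |z.im|) * ‖z‖) := by nlinarith
      _ = _ := by ring

lemma Xf_line (t : ℝ) : ‖Xf (((1 / 2 : ℝ) : ℂ) + t * I)‖ = ‖riemannZeta (1 / 2 + t * I)‖ := by
  have e : (((1 / 2 : ℝ) : ℂ) + t * I) = 1 / 2 + t * I := by push_cast; ring
  have hne : (1 / 2 + t * I : ℂ) ≠ 1 := by
    intro h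
    have := congrArg Complex.re h
    simp at this
  have h0 : 0 < ‖(1 / 2 + t * I : ℂ)‖ := by
    rw [norm_pos_iff]
    intro h
    have := congrArg Complex.re h
    simp at this
  have h1 : ‖(1 / 2 + t * I : ℂ) - 1‖ = ‖(1 / 2 + t * I : ℂ)‖ := by
    rw [← sq_eq_sq₀ (norm_nonneg _) (norm_nonneg _), ← Complex.normSq_eq_norm_sq, ← Complex.normSq_eq_norm_sq,
      Complex.normSq_apply, Complex.normSq_apply]
    simp
    ring
  unfold Xf
  rw [e, zeta1_eq hne, norm_div, norm_mul, h1, mul_div_cancel_left₀ _ h0.ne']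

/-- zeros of `(s-1)ζ(s)/s` -/
lemma Xf_order {z : ℂ} (hz : 1 / 2 < z.re) (h1 : z ≠ 1) : analyticOrderNatAt Xf z = analyticOrderNatAt riemannZeta z := by
  have hz0 : z ≠ 0 := ne_zero_of_re (by linarith)
  have e : Xf =ᶠ[𝓝 z] fun s => ((s - 1) / s) * riemannZeta s := by
    filter_upwards [isOpen_ne.mem_nhds h1, isOpen_ne.mem_nhds hz0] with s hs hs0
    unfold Xf
    rw [zeta1_eq hs]
    have : s ≠ 0 := hs0
    field_simp
  have hza : AnalyticAt ℂ riemannZeta z := by
    rw [Complex.analyticAt_iff_eventually_differentiableAt]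
    filter_upwards [isOpen_ne.mem_nhds h1] with s hs
    exact differentiableAt_riemannZeta hs
  have hua : AnalyticAt ℂ (fun s : ℂ => (s - 1) / s) z :=
    ((analyticAt_id).sub analyticAt_const).div analyticAt_id hz0
  have hu0 : analyticOrderAt (fun s : ℂ => (s - 1) / s) z = 0 := by
    rw [analyticOrderAt_eq_zero]
    right
    exact div_ne_zero (sub_ne_zero.2 h1) hz0
  have h2 : analyticOrderAt Xf z = analyticOrderAt riemannZeta z := by
    rw [analyticOrderAt_congr e]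
    have := analyticOrderAt_mul hua hza
    rw [hu0, zero_add] at this
    exact this
  unfold analyticOrderNatAt
  rw [h2]

/-- The condition on the multiplicities of the zeros of `ζ` to the right of the critical line. -/
def Zc (κ : ℝ) : Prop := ∀ ρ : ℂ, 1 / 2 < ρ.re → riemannZeta ρ = 0 →
  ∃ k : ℕ, κ * (analyticOrderNatAt riemannZeta ρ : ℝ) = k

lemma Xf_orders {κ : ℝ} : Zc κ ↔ ∀ z : ℂ, 1 / 2 < z.re → ∃ k : ℕ, κ * (analyticOrderNatAt Xf z : ℝ) = k := by
  constructor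
  · intro h z hz
    by_cases h1 : z = 1
    · refine ⟨0, ?_⟩
      have : analyticOrderAt Xf z = 0 := by
        rw [analyticOrderAt_eq_zero]
        right
        rw [h1]; unfold Xf; rw [riemannZeta₁_one]; simp
      unfold analyticOrderNatAt
      rw [this]; simp
    · by_cases h0 : riemannZeta z = 0
      · rw [Xf_order hz h1]; exact h z hz h0
      · refine ⟨0, ?_⟩
        have : analyticOrderAt riemannZeta z = 0 := by
          rw [analyticOrderAt_eq_zero]; right; exact h0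
        rw [Xf_order hz h1]
        unfold analyticOrderNatAt
        rw [this]; simp
  · intro h z hz h0
    have h1 : z ≠ 1 := by
      intro h1
      rw [h1] at h0
      exact riemannZeta_one_ne_zero h0
    rw [← Xf_order hz h1]
    exact h z hz

/-- the transform of the weighted sums, up to the factor `1/s` -/
noncomputable def g0 (κ : ℝ) (s : ℂ) : ℂ := Zk κ s * cexp ((κ : ℂ) * Complex.log (1 - s⁻¹))

lemma g0_diff {κ : ℝ} (hκ : 0 ≤ κ) {z : ℂ} (hz : 1 < z.re) : DifferentiableAt ℂ (g0 κ) z := by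
  have hz0 : z ≠ 0 := ne_zero_of_re (by linarith)
  have h1 : 1 - z⁻¹ ∈ slitPlane := by
    left
    have := (Complex.re_le_norm z⁻¹).trans_lt (norm_inv_lt hz)
    rw [Complex.sub_re, Complex.one_re]
    linarith
  have h2 : DifferentiableAt ℂ (fun s : ℂ => Complex.log (1 - s⁻¹)) z :=
    ((differentiableAt_const (1:ℂ)).sub (differentiableAt_inv hz0)).clog h1
  exact (Zk_diff hκ hz).mul (h2.const_mul _).cexp

lemma g0_norm {κ : ℝ} (hκ : 0 ≤ κ) {z : ℂ} (hz : 1 < z.re) : ‖g0 κ z‖ = ‖Xf z‖ ^ κ := by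
  unfold g0
  rw [Xf_eq hz, norm_mul, norm_mul, norm_Zk hκ hz, norm_exp_pow (Complex.exp_log (one_sub_ne (norm_inv_lt hz))),
    Real.mul_rpow (norm_nonneg _) (norm_nonneg _), mul_comm]

/-- the weighted sums as functions of `u = log x` -/
noncomputable def Ru (κ u : ℝ) : ℂ := WS (fun n => (dr κ n : ℂ)) (fun v => (Lg κ v : ℂ)) u

lemma Ru_dat {κ : ℝ} (hκ : 0 ≤ κ) : ∃ M : ℝ, Dat (g0 κ) (fun _ => 1) (Ru κ) M 0 := by
  obtain ⟨B, hB0, hB⟩ := Lg_bound κ
  have hsum : LSeriesSummable (fun n => (dr κ n : ℂ)) (3 / 2) := dr_summable hκ (by norm_num)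
  obtain ⟨M, hM0, hM⟩ := WS_bound hsum (ℓ := fun v => (Lg κ v : ℂ)) hB0 (fun v hv => by
    rw [Complex.norm_real, Real.norm_eq_abs]; exact hB v hv)
  have hcont : Continuous (fun v : ℝ => (Lg κ v : ℂ)) := Complex.continuous_ofReal.comp (Lg_cont κ)
  refine ⟨M, ⟨WS_meas _ hcont, hM0, le_rfl, fun u hu => WS_neg _ _ (by linarith), hM, WS_ae _ hcont, fun w hw => ?_⟩⟩
  obtain ⟨h1, h2⟩ := Lg_trans κ hw
  unfold Ru
  rw [WS_trans (dr_summable hκ (by linarith)) h1, h2]
  unfold g0 Zk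
  ring

/-- the difference of the weighted sums -/
lemma Du_dat {κ : ℝ} (hκ : 0 ≤ κ) (h : ℝ) :
    ∃ M : ℝ, Dat (g0 κ) (fun w => cexp (w * h) - 1) (fun u => Ru κ (u + h) - Ru κ u) M |h| := by
  obtain ⟨M, H⟩ := Ru_dat hκ
  have hM := H.M0
  refine ⟨M * Real.exp (3 / 2 * h) + M, ⟨?_, by positivity, abs_nonneg h, fun u hu => ?_, fun u => ?_, ?_, fun w hw => ?_⟩⟩
  · exact (H.mD.comp (measurable_id.add_const h)).sub H.mD
  · have h1 : u + h < -0 := by
      rw [neg_zero]
      have := le_abs_self h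
      linarith
    have h2 : u < -0 := by
      rw [neg_zero]
      have := abs_nonneg h
      linarith
    rw [H.supp _ h1, H.supp _ h2, sub_zero]
  · refine (norm_sub_le _ _).trans ?_
    have h1 := H.gr (u + h)
    have h2 := H.gr u
    have h3 : Real.exp (3 / 2 * (u + h)) = Real.exp (3 / 2 * h) * Real.exp (3 / 2 * u) := by
      rw [← Real.exp_add]; ring_nf
    rw [h3] at h1
    nlinarith
  · have h1 : ∀ᵐ u : ℝ, ContinuousAt (Ru κ) (u + h) := by
      have := (measurePreserving_add_right volume h).quasiMeasurePreserving.ae H.ae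
      exact this
    filter_upwards [H.ae, h1] with u hu1 hu2
    have h2 : ContinuousAt (fun u => Ru κ (u + h)) u :=
      ContinuousAt.comp (g := Ru κ) (f := fun u => u + h) hu2 (by fun_prop)
    exact h2.sub hu1
  · have i1 := H.int hw
    obtain ⟨i2, e2⟩ := shift_trans i1 h
    have h1 : ∀ u : ℝ, (Ru κ (u + h) - Ru κ u) * cexp (-(w * u)) = Ru κ (u + h) * cexp (-(w * u)) - Ru κ u * cexp (-(w * u)) :=
      fun u => by ring
    simp only [h1]
    rw [integral_sub i2 i1, e2, H.tr w hw]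
    ring

end Pool.Agent.N798.P
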