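import Pool.Agent.N798.P10

set_option autoImplicit false

/-! Mean squares of the weighted sums of `d_κ(n)`, and the moments of zeta. -/

namespace Pool.Agent.N798.P

open Complex MeasureTheory Filter Topology Set Metric
open Pool.Agent.N798.V
open scoped ENNReal Real

/-- `R_κ(x) = Σ_{n ≤ x} d_κ(n) L_κ(log(x/n))` -/
noncomputable def Rk (κ x : ℝ) : ℝ := ∑ n ∈ Finset.Icc 1 ⌊x⌋₊, dr κ n * Lg κ (Real.log (x / n))

/-- `∫_0^∞ |R_κ(x e^h) - R_κ(x)|² dx/x²` -/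
noncomputable def Vk (κ h : ℝ) : ℝ≥0∞ :=
  ∫⁻ x in Ioi (0:ℝ), ENNReal.ofReal ((Rk κ (x * Real.exp h) - Rk κ x) ^ 2 / x ^ 2)

/-- `∫_0^∞ |R_κ(x)|² dx/x²` -/
noncomputable def Wk (κ : ℝ) : ℝ≥0∞ := ∫⁻ x in Ioi (0:ℝ), ENNReal.ofReal ((Rk κ x) ^ 2 / x ^ 2)

lemma Rk_exp (κ u : ℝ) : (Rk κ (Real.exp u) : ℂ) = Ru κ u := by
  unfold Rk Ru WS
  push_cast
  apply Finset.sum_congr rfl
  intro n hn
  have hn1 := (Finset.mem_Icc.1 hn).1
  have hn0 : (n : ℝ) ≠ 0 := by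
    have : n ≠ 0 := by omega
    exact_mod_cast this
  rw [Real.log_div (Real.exp_pos u).ne' hn0, Real.log_exp]

lemma lint_exp (F : ℝ → ℝ) : ∫⁻ x in Ioi (0:ℝ), ENNReal.ofReal (F x ^ 2 / x ^ 2) =
    ∫⁻ u, ENNReal.ofReal (Real.exp (-u)) * ‖((F (Real.exp u) : ℝ) : ℂ)‖ₑ ^ 2 := by
  have h1 := lintegral_image_eq_lintegral_abs_deriv_mul (s := univ) (f := Real.exp) (f' := Real.exp) MeasurableSet.univ
    (fun x _ => (Real.hasDerivAt_exp x).hasDerivWithinAt) (Real.exp_injective.injOn)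
    (fun x => ENNReal.ofReal (F x ^ 2 / x ^ 2))
  rw [image_univ, Real.range_exp, setLIntegral_univ] at h1
  rw [h1]
  apply lintegral_congr
  intro u
  rw [abs_of_pos (Real.exp_pos u), ← ofReal_norm, ← ENNReal.ofReal_pow (norm_nonneg _),
    ← ENNReal.ofReal_mul (Real.exp_pos _).le, ← ENNReal.ofReal_mul (Real.exp_pos _).le]
  congr 1
  rw [Real.exp_neg, Complex.norm_real, Real.norm_eq_abs, sq_abs]
  have := Real.exp_pos u
  field_simp

lemma Vk_eq (κ h : ℝ) : Vk κ h = ∫⁻ u, ENNReal.ofReal (Real.exp (-u)) * ‖Ru κ (u + h) - Ru κ u‖ₑ ^ 2 := by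
  unfold Vk
  rw [lint_exp (fun x => Rk κ (x * Real.exp h) - Rk κ x)]
  apply lintegral_congr
  intro u
  rw [← Real.exp_add, Complex.ofReal_sub, Rk_exp, Rk_exp]

lemma Wk_eq (κ : ℝ) : Wk κ = ∫⁻ u, ENNReal.ofReal (Real.exp (-u)) * ‖Ru κ u‖ₑ ^ 2 := by
  unfold Wk
  rw [lint_exp (fun x => Rk κ x)]
  apply lintegral_congr
  intro u
  rw [Rk_exp]

/-- the boundary function -/
noncomputable def Ph (κ t : ℝ) : ℂ := ((‖riemannZeta (1 / 2 + t * I)‖ ^ κ / ‖((1 / 2 : ℝ) : ℂ) + t * I‖ : ℝ) : ℂ)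

lemma one_lt_exp {z : ℂ} {h : ℝ} (hh : 0 < h) (hz : 0 < z.re) : cexp (z * h) - 1 ≠ 0 := by
  intro h0
  rw [sub_eq_zero] at h0
  have h1 := congrArg norm h0
  rw [Complex.norm_exp, norm_one, mul_comm, Complex.re_ofReal_mul, Real.exp_eq_one_iff] at h1
  have : 0 < h * z.re := mul_pos hh hz
  linarith

/-- **The formula for the variance.** -/
theorem Vk_formula {κ : ℝ} (hκ : 0 < κ) (hZ : Zc κ) (h : ℝ) : Vk κ h = VV (Ph κ) h := by
  obtain ⟨M, H⟩ := Du_dat hκ.le h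
  obtain ⟨K, hK⟩ := Xf_bound
  rw [Vk_eq, H.formula hκ (fun z hz => Xf_diff hz) (Xf_orders.1 hZ) (fun z hz => g0_diff hκ.le hz)
    (fun z hz => g0_norm hκ.le hz) (fun z hz => Xf_ne hz) hK (by fun_prop) (Q := Real.exp (2 * |h|) + 1) (by
      intro z h1 h2
      refine (norm_sub_le _ _).trans ?_
      rw [norm_one, Complex.norm_exp, mul_comm, Complex.re_ofReal_mul]
      have h3 : h * z.re ≤ 2 * |h| := by
        calc h * z.re ≤ |h| * z.re := mul_le_mul_of_nonneg_right (le_abs_self h) (by linarith)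
          _ ≤ |h| * 2 := mul_le_mul_of_nonneg_left h2 (abs_nonneg h)
          _ = _ := mul_comm _ _
      linarith [Real.exp_le_exp.2 h3])]
  unfold VV
  congr 1
  apply lintegral_congr
  intro t
  have e : (((1 / 2 : ℝ) : ℂ) + t * I) * h = (((1 / 2 : ℝ) : ℂ) + t * I) * h := rfl
  rw [Xf_line, ← ofReal_norm, ← ENNReal.ofReal_pow (norm_nonneg _), norm_mul, mul_pow]
  unfold Ph
  rw [Complex.norm_real, Real.norm_eq_abs, sq_abs]

/-- **The formula for the mean square.** -/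
theorem Wk_formula {κ : ℝ} (hκ : 0 < κ) (hZ : Zc κ) : Wk κ = ENNReal.ofReal (1 / (2 * π)) *
    ∫⁻ t : ℝ, ENNReal.ofReal (‖riemannZeta (1 / 2 + t * I)‖ ^ (2 * κ) * g₀ t) := by
  obtain ⟨M, H⟩ := Ru_dat hκ.le
  obtain ⟨K, hK⟩ := Xf_bound
  rw [Wk_eq, H.formula hκ (fun z hz => Xf_diff hz) (Xf_orders.1 hZ) (fun z hz => g0_diff hκ.le hz)
    (fun z hz => g0_norm hκ.le hz) (fun z hz => Xf_ne hz) hK (by fun_prop) (Q := 1) (by
      intro z _ _
      rw [norm_one])]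
  congr 1
  apply lintegral_congr
  intro t
  rw [Xf_line, norm_one, one_pow, one_mul, div_pow]
  congr 1
  have e2 : ‖((1 / 2 : ℝ) : ℂ) + t * I‖ ^ 2 = 1 / 4 + t ^ 2 := by
    rw [← Complex.normSq_eq_norm_sq, Complex.normSq_apply]
    simp
    ring
  unfold g₀
  rw [e2, ← Real.rpow_natCast (‖riemannZeta (1 / 2 + t * I)‖ ^ κ) 2, ← Real.rpow_mul (norm_nonneg _), div_eq_mul_inv]
  congr 2
  push_cast
  ring

/-- a finite variance forces the condition on the multiplicities -/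
theorem Zc_of_Vk {κ : ℝ} (hκ : 0 < κ) {h : ℝ} (hh : 0 < h) (hV : Vk κ h ≠ ⊤) : Zc κ := by
  obtain ⟨M, H⟩ := Du_dat hκ.le h
  rw [Vk_eq] at hV
  exact Xf_orders.2 fun z hz => H.orders (fun z hz => Xf_diff hz) (fun z hz => g0_norm hκ.le hz) (fun z hz => Xf_ne hz)
    (by fun_prop) (fun z hz => one_lt_exp hh (by linarith)) hV hz

theorem Zc_of_Wk {κ : ℝ} (hκ : 0 < κ) (hW : Wk κ ≠ ⊤) : Zc κ := by
  obtain ⟨M, H⟩ := Ru_dat hκ.le
  rw [Wk_eq] at hW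
  exact Xf_orders.2 fun z hz => H.orders (fun z hz => Xf_diff hz) (fun z hz => g0_norm hκ.le hz) (fun z hz => Xf_ne hz)
    (by fun_prop) (fun z hz => one_ne_zero) hW hz

lemma Ph_norm (κ t : ℝ) : ‖Ph κ t‖ ^ 2 = ‖riemannZeta (1 / 2 + t * I)‖ ^ (2 * κ) * g₀ t := by
  have e2 : ‖((1 / 2 : ℝ) : ℂ) + t * I‖ ^ 2 = 1 / 4 + t ^ 2 := by
    rw [← Complex.normSq_eq_norm_sq, Complex.normSq_apply]
    simp
    ring
  unfold Ph g₀
  rw [Complex.norm_real, Real.norm_eq_abs, sq_abs, div_pow, e2, ← Real.rpow_natCast (‖riemannZeta (1 / 2 + t * I)‖ ^ κ) 2,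
    ← Real.rpow_mul (norm_nonneg _), div_eq_mul_inv]
  congr 2
  push_cast
  ring

lemma zr_cont {p : ℝ} (hp : 0 ≤ p) : Continuous (fun t : ℝ => ‖riemannZeta (1 / 2 + t * I)‖ ^ p) := by
  have h : Continuous (fun t : ℝ => riemannZeta (1 / 2 + t * I)) := by
    rw [continuous_iff_continuousAt]
    intro t
    have h1 : ContinuousAt riemannZeta (1 / 2 + t * I) := by
      apply (differentiableAt_riemannZeta _).continuousAt
      intro h
      have := congrArg Complex.re h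
      simp at this
    exact ContinuousAt.comp (g := riemannZeta) (f := fun t : ℝ => (1 / 2 + t * I : ℂ)) h1 (by fun_prop)
  exact h.norm.rpow_const fun _ => Or.inr hp

lemma zr_even (p t : ℝ) : ‖riemannZeta (1 / 2 + ((-t : ℝ) : ℂ) * I)‖ ^ p = ‖riemannZeta (1 / 2 + t * I)‖ ^ p := by
  have h : (1 / 2 + ((-t : ℝ) : ℂ) * I : ℂ) = (starRingEnd ℂ) (1 / 2 + t * I) := by
    simp [Complex.ext_iff]
  rw [h, riemannZeta_conj, Complex.norm_conj]

/-- **Moments and variances.** -/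
theorem moment_iff_real {L : ℝ → ℝ} (S : SV L) {κ : ℝ} (hκ : 0 < κ) {c : ℝ} (hc : 0 ≤ c) :
    Tendsto (fun h => Vk κ h / ENNReal.ofReal (h * L (1 / h))) (𝓝[>] 0) (𝓝 (ENNReal.ofReal c)) ↔
      Zc κ ∧ Tendsto (fun T : ℝ => (∫ t : ℝ in Ioc 0 T, ‖riemannZeta (1 / 2 + t * I)‖ ^ (2 * κ)) / (T * L T)) atTop (𝓝 c) := by
  have key := mean_iff S (zr_cont (p := 2 * κ) (by linarith)) (zr_even (2 * κ)) (Ph_norm κ) hc
  constructor
  · intro h1
    have h2 : ∀ᶠ h in 𝓝[>] (0:ℝ), Vk κ h / ENNReal.ofReal (h * L (1 / h)) < ⊤ :=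
      h1.eventually (gt_mem_nhds ENNReal.ofReal_lt_top)
    obtain ⟨h, hlt, hpos⟩ := (h2.and eventually_mem_nhdsWithin).exists
    have hV : Vk κ h ≠ ⊤ := by
      intro hV
      rw [hV, ENNReal.top_div_of_ne_top ENNReal.ofReal_ne_top] at hlt
      exact lt_irrefl _ hlt
    have hZ := Zc_of_Vk hκ hpos hV
    refine ⟨hZ, key.2 ?_⟩
    simpa only [Vk_formula hκ hZ] using h1
  · rintro ⟨hZ, h1⟩
    simpa only [Vk_formula hκ hZ] using key.1 h1

end Pool.Agent.N798.P
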