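import Pool.Agent.N798.P11
import Pool.Agent.N798.G13

set_option autoImplicit false

/-! Real powers of the logarithm; finiteness of the mean square; the condition on the zeros. -/

namespace Pool.Agent.N798.P

open Complex MeasureTheory Filter Topology Set Metric
open Pool.Agent.N798.V
open scoped ENNReal Real

/-- powers of the logarithm are slowly varying -/
noncomputable def svLogR (A : ℝ) (hA : 0 ≤ A) : SV (fun T => Real.log T ^ A) where
  T0 := Real.exp 1
  C := (1 + 2 * A) ^ A
  c := 1
  hT0 := by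
    have := Real.add_one_le_exp (1:ℝ)
    linarith
  hC := by positivity
  hc := one_pos
  low := fun T hT => by
    have h1 : 1 ≤ Real.log T := by
      rw [← Real.log_exp 1]
      exact Real.log_le_log (Real.exp_pos 1) hT
    exact Real.one_le_rpow h1 hA
  pot := fun T x hT hx hxT => by
    have he := Real.exp_pos 1
    have hT1 : 0 < T := he.trans_le hT
    have h1 : 1 ≤ Real.log T := by
      rw [← Real.log_exp 1]
      exact Real.log_le_log he hT
    have h2 : 1 ≤ Real.log (x * T) := by
      rw [← Real.log_exp 1]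
      exact Real.log_le_log he hxT
    rcases hA.eq_or_lt with hA0 | hA'
    · rw [← hA0]
      have : (1:ℝ) ≤ (1 + x) ^ (1 / 2 : ℝ) := Real.one_le_rpow (by linarith) (by norm_num)
      simpa using this
    have h3 : Real.log (1 + x) ≤ (1 + x) ^ (1 / (2 * A)) * (2 * A) := by
      have := Real.log_le_rpow_div (x := 1 + x) (by linarith) (ε := 1 / (2 * A)) (by positivity)
      rw [div_div_eq_mul_div, div_one] at this
      exact this
    have h4 : (1:ℝ) ≤ (1 + x) ^ (1 / (2 * A)) := Real.one_le_rpow (by linarith) (by positivity)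
    have h5 : Real.log (x * T) ≤ (1 + 2 * A) * (1 + x) ^ (1 / (2 * A)) * Real.log T := by
      have h6 : Real.log (x * T) ≤ Real.log (1 + x) + Real.log T := by
        rw [← Real.log_mul (by positivity) (by positivity)]
        apply Real.log_le_log (by positivity)
        nlinarith
      have h7 : 0 ≤ Real.log (1 + x) := Real.log_nonneg (by linarith)
      nlinarith [mul_nonneg h7 (by linarith : (0:ℝ) ≤ Real.log T - 1)]
    calc Real.log (x * T) ^ A ≤ ((1 + 2 * A) * (1 + x) ^ (1 / (2 * A)) * Real.log T) ^ A :=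
          Real.rpow_le_rpow (by linarith) h5 hA
      _ = (1 + 2 * A) ^ A * (1 + x) ^ (1 / 2 : ℝ) * Real.log T ^ A := by
          rw [Real.mul_rpow (by positivity) (by linarith), Real.mul_rpow (by positivity) (by positivity),
            ← Real.rpow_mul (by linarith)]
          congr 3
          field_simp
  slow := fun x hx => by
    have h1 : Tendsto (fun T : ℝ => Real.log x / Real.log T + 1) atTop (𝓝 (0 + 1)) :=
      (Tendsto.div_atTop tendsto_const_nhds Real.tendsto_log_atTop).add_const 1
    have h2 := h1.rpow_const (p := A) (Or.inr hA)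
    rw [zero_add, Real.one_rpow] at h2
    refine h2.congr' ?_
    filter_upwards [eventually_gt_atTop 1, eventually_gt_atTop (1 / x)] with T hT hT2
    have hT1 : 0 < Real.log T := Real.log_pos hT
    have h3 : 0 ≤ Real.log (x * T) := by
      apply Real.log_nonneg
      rw [div_lt_iff₀ hx] at hT2
      linarith
    rw [← Real.div_rpow h3 hT1.le, Real.log_mul hx.ne' (by linarith)]
    congr 1
    field_simp

/-- convergence of the weighted mean square from a bound for the moments -/
lemma fin_of_mom {f : ℝ → ℝ} (hf : Continuous f) (f0 : ∀ t, 0 ≤ f t) (fe : ∀ t, f (-t) = f t) {θ : ℝ} (hθ : θ < 2) {A : ℝ}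
    (hA : 0 ≤ A) (h : ∀ T : ℝ, 0 ≤ T → ∫ t in (0:ℝ)..T, f t ≤ A * (1 + T) ^ θ) :
    ∫⁻ t : ℝ, ENNReal.ofReal (f t * g₀ t) ≠ ⊤ := by
  have hcont : Continuous (fun t => ENNReal.ofReal (f t * g₀ t)) := ENNReal.continuous_ofReal.comp (hf.mul g₀_cont)
  -- the right half
  have hright : ∫⁻ t in Ici (0:ℝ), ENNReal.ofReal (f t * g₀ t) ≠ ⊤ := by
    set B : ℕ → Set ℝ := fun k => Ico ((2:ℝ) ^ k - 1) (2 ^ (k + 1) - 1) with hB
    have hcov : Ici (0:ℝ) ⊆ ⋃ k, B k := by
      intro t ht
      have ht : 0 ≤ t := ht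
      obtain ⟨k, h1, h2⟩ := exists_nat_pow_near (x := 1 + t) (by linarith) (by norm_num : (1:ℝ) < 2)
      exact mem_iUnion.2 ⟨k, by constructor <;> linarith⟩
    have hblk : ∀ k, ∫⁻ t in B k, ENNReal.ofReal (f t * g₀ t) ≤ ENNReal.ofReal (8 * A * 2 ^ θ * ((2:ℝ) ^ (θ - 2)) ^ k) := by
      intro k
      have h2k : (1:ℝ) ≤ 2 ^ k := one_le_pow₀ (by norm_num)
      have h1 : ∀ t ∈ B k, ENNReal.ofReal (f t * g₀ t) ≤ ENNReal.ofReal (8 / (2 ^ k) ^ 2 * f t) := by
        intro t ht
        apply ENNReal.ofReal_le_ofReal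
        rw [mul_comm]
        apply mul_le_mul_of_nonneg_right _ (f0 t)
        have ht1 : (2:ℝ) ^ k ≤ 1 + t := by linarith [ht.1]
        unfold g₀
        rw [inv_eq_one_div, div_le_div_iff₀ (by positivity) (by positivity)]
        nlinarith [sq_nonneg (1 - t)]
      have hint : IntegrableOn f (B k) := hf.locallyIntegrable.integrableOn_isCompact isCompact_Icc |>.mono_set Ico_subset_Icc_self
      calc ∫⁻ t in B k, ENNReal.ofReal (f t * g₀ t) ≤ ∫⁻ t in B k, ENNReal.ofReal (8 / (2 ^ k) ^ 2 * f t) :=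
            setLIntegral_mono' measurableSet_Ico h1
        _ = ENNReal.ofReal (∫ t in B k, 8 / (2 ^ k) ^ 2 * f t) := by
            rw [ofReal_integral_eq_lintegral_ofReal (hint.const_mul _)]
            exact Eventually.of_forall fun t => by have := f0 t; positivity
        _ ≤ _ := by
            apply ENNReal.ofReal_le_ofReal
            rw [integral_const_mul]
            have h2 : ∫ t in B k, f t ≤ ∫ t in (0:ℝ)..(2 ^ (k + 1) - 1), f t := by
              rw [intervalIntegral.integral_of_le (by rw [pow_succ]; linarith), ← integral_Ico_eq_integral_Ioc]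
              apply setIntegral_mono_set
              · exact hf.locallyIntegrable.integrableOn_isCompact isCompact_Icc |>.mono_set Ico_subset_Icc_self
              · exact Eventually.of_forall fun t => f0 t
              · exact (Ico_subset_Ico_left (by linarith)).eventuallyLE
            have h3 := h (2 ^ (k + 1) - 1) (by rw [pow_succ]; linarith)
            have h4 : (1 + ((2:ℝ) ^ (k + 1) - 1)) ^ θ = 2 ^ θ * ((2:ℝ) ^ θ) ^ k := by
              rw [show (1 + ((2:ℝ) ^ (k + 1) - 1)) = 2 ^ (k + 1) by ring, ← Real.rpow_natCast, ← Real.rpow_mul (by norm_num),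
                ← Real.rpow_natCast, ← Real.rpow_mul (by norm_num), ← Real.rpow_add (by norm_num)]
              congr 1
              push_cast
              ring
            have h5 : ((2:ℝ) ^ (θ - 2)) ^ k = ((2:ℝ) ^ θ) ^ k / (2 ^ k) ^ 2 := by
              rw [Real.rpow_sub (by norm_num), div_pow]
              congr 1
              rw [← pow_mul, mul_comm k 2, pow_mul]
              norm_num
            calc 8 / (2 ^ k) ^ 2 * ∫ t in B k, f t ≤ 8 / (2 ^ k) ^ 2 * (A * (1 + ((2:ℝ) ^ (k + 1) - 1)) ^ θ) := by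
                  gcongr
                  exact h2.trans h3
              _ = _ := by rw [h4, h5]; ring
    have hr : (2:ℝ) ^ (θ - 2) < 1 := Real.rpow_lt_one_of_one_lt_of_neg (by norm_num) (by linarith)
    have hsum : Summable (fun k : ℕ => 8 * A * 2 ^ θ * ((2:ℝ) ^ (θ - 2)) ^ k) :=
      (summable_geometric_of_lt_one (by positivity) hr).mul_left _
    refine ne_top_of_le_ne_top ?_ ((lintegral_mono_set hcov).trans ((lintegral_iUnion_le _ _).trans (ENNReal.tsum_le_tsum hblk)))
    rw [← ENNReal.ofReal_tsum_of_nonneg (fun k => by positivity) hsum]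
    exact ENNReal.ofReal_ne_top
  have hleft : ∫⁻ t in Iio (0:ℝ), ENNReal.ofReal (f t * g₀ t) ≠ ⊤ := by
    have h1 : ∫⁻ t in Iio (0:ℝ), ENNReal.ofReal (f t * g₀ t) = ∫⁻ t in Ioi (0:ℝ), ENNReal.ofReal (f t * g₀ t) := by
      have h2 := (Measure.measurePreserving_neg (volume : Measure ℝ)).setLIntegral_comp_preimage (s := Ioi (0:ℝ)) measurableSet_Ioi
        hcont.measurable
      have h3 : (fun t : ℝ => -t) ⁻¹' Ioi (0:ℝ) = Iio 0 := by ext t; simp
      have h4 : (Neg.neg : ℝ → ℝ) ⁻¹' Ioi (0:ℝ) = Iio 0 := by ext t; simp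
      rw [h4] at h2
      rw [← h2]
      apply lintegral_congr
      intro t
      rw [fe]
      unfold g₀
      rw [neg_sq]
    rw [h1]
    exact ne_top_of_le_ne_top hright (lintegral_mono_set Ioi_subset_Ici_self)
  have h1 := lintegral_add_compl (μ := volume) (fun t : ℝ => ENNReal.ofReal (f t * g₀ t)) (measurableSet_Ici (a := (0:ℝ)))
  rw [compl_Ici] at h1
  rw [← h1]
  exact ENNReal.add_ne_top.2 ⟨hright, hleft⟩

/-- **The mean square is finite for `κ < 5` if and only if the condition on the zeros holds.** -/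
theorem Wk_iff {κ : ℝ} (hκ : 0 < κ) (h5 : κ < 5) : Wk κ ≠ ⊤ ↔ Zc κ := by
  refine ⟨Zc_of_Wk hκ, fun hZ => ?_⟩
  rw [Wk_formula hκ hZ]
  have hmom := Pool.Agent.N798.G.mom_uncond hκ
  have hM2 : max 1 ((κ + 1) / 3) < 2 := max_lt (by norm_num) (by linarith)
  have hM0 : 0 ≤ max 1 ((κ + 1) / 3) := le_trans zero_le_one (le_max_left _ _)
  obtain ⟨A, hA, hb⟩ := Pool.Agent.N798.mom_zero (by linarith) hM0 hmom (ε := (2 - max 1 ((κ + 1) / 3)) / 2) (by linarith)
  apply ENNReal.mul_ne_top ENNReal.ofReal_ne_top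
  refine fin_of_mom (zr_cont (p := 2 * κ) (by linarith)) (fun t => by positivity) (zr_even _)
    (θ := max 1 ((κ + 1) / 3) + (2 - max 1 ((κ + 1) / 3)) / 2) (by linarith) hA ?_
  intro T hT
  exact hb T hT

end Pool.Agent.N798.P
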