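import Pool.Agent.N798.P12

set_option autoImplicit false

/-! The condition on the multiplicities of the zeros: integers, half-integers, irrational numbers. -/

namespace Pool.Agent.N798.P

open Complex MeasureTheory Filter Topology Set Metric
open Pool.Agent.N798.V
open scoped ENNReal Real

/-- the multiplicity of a zero is positive -/
lemma mult_pos {ρ : ℂ} (h1 : 1 / 2 < ρ.re) (h0 : riemannZeta ρ = 0) : analyticOrderNatAt riemannZeta ρ ≠ 0 := by
  have hne : ρ ≠ 1 := by
    intro h
    rw [h] at h0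
    exact riemannZeta_one_ne_zero h0
  rw [← Xf_order h1 hne]
  have hU : IsOpen {z : ℂ | 0 < z.re} := isOpen_lt continuous_const Complex.continuous_re
  have han : AnalyticOnNhd ℂ Xf {z : ℂ | 0 < z.re} :=
    DifferentiableOn.analyticOnNhd (fun z hz => (Xf_diff hz).differentiableWithinAt) hU
  have hρ : ρ ∈ {z : ℂ | 0 < z.re} := by show 0 < ρ.re; linarith
  have hX : Xf ρ = 0 := by
    unfold Xf
    rw [zeta1_eq hne, h0, mul_zero, zero_div]
  have ht : analyticOrderAt Xf ρ ≠ ⊤ := by
    intro ht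
    rw [analyticOrderAt_eq_top] at ht
    have := han.eqOn_zero_of_preconnected_of_eventuallyEq_zero (convex_halfSpace_re_gt 0).isPreconnected hρ ht
    exact Xf_ne (z := 2) (by norm_num) (this (show (0:ℝ) < (2:ℂ).re by norm_num))
  have h2 : analyticOrderAt Xf ρ ≠ 0 := by
    rw [analyticOrderAt_ne_zero]
    exact ⟨han ρ hρ, hX⟩
  intro h
  have h3 := Nat.cast_analyticOrderNatAt ht
  rw [h] at h3
  exact h2 (by rw [← h3]; rfl)

/-- RH and the half-plane -/
lemma rh_iff : RiemannHypothesis ↔ ∀ ρ : ℂ, 1 / 2 < ρ.re → riemannZeta ρ ≠ 0 := by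
  constructor
  · intro h ρ hρ h0
    have h1 := h ρ h0 (by
      rintro ⟨n, hn⟩
      rw [hn] at hρ
      simp only [Complex.mul_re, Complex.neg_re, Complex.add_re, Complex.neg_im, Complex.add_im] at hρ
      norm_num at hρ
      have : (0:ℝ) ≤ n := Nat.cast_nonneg n
      linarith) (by
      intro h
      rw [h] at h0
      exact riemannZeta_one_ne_zero h0)
    linarith
  · intro h s hs ht h1
    by_contra hre
    rcases lt_or_gt_of_ne hre with hlt | hgt
    · have hs0 : s ≠ 0 := by
        intro h0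
        rw [h0, riemannZeta_zero] at hs
        norm_num at hs
      have hG : s.Gammaℝ ≠ 0 := by
        intro hG
        rw [Complex.Gammaℝ_eq_zero_iff] at hG
        obtain ⟨n, hn⟩ := hG
        cases n with
        | zero => simp at hn; exact hs0 hn
        | succ n =>
          apply ht
          refine ⟨n, ?_⟩
          rw [hn]; push_cast; ring
      have h2 := riemannZeta_def_of_ne_zero hs0
      rw [hs] at h2
      have h3 : completedRiemannZeta s = 0 := by
        rcases div_eq_zero_iff.1 h2.symm with h | h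
        · exact h
        · exact absurd h hG
      have h4 : (1 - s) ≠ 0 := sub_ne_zero.2 (Ne.symm h1)
      have h5 := riemannZeta_def_of_ne_zero h4
      rw [completedRiemannZeta_one_sub, h3, zero_div] at h5
      exact h (1 - s) (by rw [Complex.sub_re, Complex.one_re]; linarith) h5
    · exact h s hgt hs

lemma Zc_nat (k : ℕ) : Zc k := by
  intro ρ _ _
  exact ⟨k * analyticOrderNatAt riemannZeta ρ, by push_cast; rfl⟩

lemma Zc_even {k : ℕ} (hk : Even k) : Zc ((k : ℝ) / 2) := by
  obtain ⟨m, hm⟩ := hk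
  have : (k : ℝ) / 2 = m := by rw [hm]; push_cast; ring
  rw [this]
  exact Zc_nat m

lemma Zc_odd {k : ℕ} (hk : ¬ Even k) : Zc ((k : ℝ) / 2) ↔
    ∀ ρ : ℂ, 1 / 2 < ρ.re → riemannZeta ρ = 0 → Even (analyticOrderNatAt riemannZeta ρ) := by
  constructor
  · intro h ρ hρ h0
    obtain ⟨j, hj⟩ := h ρ hρ h0
    have h1 : ((k * analyticOrderNatAt riemannZeta ρ : ℕ) : ℝ) = ((2 * j : ℕ) : ℝ) := by
      push_cast
      linarith
    have h2 : k * analyticOrderNatAt riemannZeta ρ = 2 * j := by exact_mod_cast h1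
    have h3 : Even (k * analyticOrderNatAt riemannZeta ρ) := ⟨j, by rw [h2]; ring⟩
    rcases Nat.even_mul.1 h3 with h4 | h4
    · exact absurd h4 hk
    · exact h4
  · intro h ρ hρ h0
    obtain ⟨j, hj⟩ := h ρ hρ h0
    refine ⟨k * j, ?_⟩
    rw [hj]
    push_cast
    ring

lemma Zc_irr {κ : ℝ} (hκ : Irrational κ) : Zc κ ↔ RiemannHypothesis := by
  rw [rh_iff]
  constructor
  · intro h ρ hρ h0
    obtain ⟨j, hj⟩ := h ρ hρ h0
    have hm : (analyticOrderNatAt riemannZeta ρ : ℝ) ≠ 0 := by exact_mod_cast mult_pos hρ h0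
    apply hκ
    refine ⟨(j : ℚ) / (analyticOrderNatAt riemannZeta ρ : ℚ), ?_⟩
    push_cast
    rw [div_eq_iff hm]
    exact hj.symm
  · intro h ρ hρ h0
    exact absurd h0 (h ρ hρ)

end Pool.Agent.N798.P
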