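import Mathlib

set_option autoImplicit false

/-! Real powers of an analytic function on a half-plane. -/

namespace Pool.Agent.N798.P

open Complex Filter Topology Set Metric

/-- logarithm on a disc -/
lemma exists_log {f : ℂ → ℂ} {c : ℂ} {r : ℝ} (hr : 0 < r) (hf : DifferentiableOn ℂ f (ball c r))
    (h0 : ∀ z ∈ ball c r, f z ≠ 0) :
    ∃ L : ℂ → ℂ, DifferentiableOn ℂ L (ball c r) ∧ ∀ z ∈ ball c r, cexp (L z) = f z := by
  have hc : c ∈ ball c r := mem_ball_self hr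
  have hd : DifferentiableOn ℂ (deriv f) (ball c r) := hf.deriv isOpen_ball
  have hg : DifferentiableOn ℂ (fun z => deriv f z / f z) (ball c r) := hd.div hf h0
  obtain ⟨L, hL0, hL⟩ := hg.isExactOn_ball.with_val_at c (Complex.log (f c))
  refine ⟨L, fun z hz => (hL z hz).differentiableAt.differentiableWithinAt, fun w hw => ?_⟩
  have hF : ∀ z ∈ ball c r, HasDerivAt (fun z => f z * cexp (-L z)) 0 z := by
    intro z hz
    have h1 : HasDerivAt f (deriv f z) z := (hf.differentiableAt (isOpen_ball.mem_nhds hz)).hasDerivAt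
    have h2 : HasDerivAt (fun z => cexp (-L z)) (cexp (-L z) * (-(deriv f z / f z))) z := (hL z hz).neg.cexp
    have h3 := h1.mul h2
    refine h3.congr_deriv ?_
    have := h0 z hz
    field_simp
    ring
  have h4 : ∀ z ∈ ball c r, f z * cexp (-L z) = f c * cexp (-L c) := by
    intro z hz
    exact (convex_ball c r).is_const_of_fderivWithin_eq_zero (𝕜 := ℂ) (f := fun y => f y * cexp (-L y))
      (fun x hx => (hF x hx).differentiableAt.differentiableWithinAt)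
      (fun x hx => by
        rw [fderivWithin_of_isOpen isOpen_ball hx]
        have := (hF x hx).hasFDerivAt.fderiv
        rw [this]
        ext; simp) hz hc
  have h5 := h4 w hw
  rw [hL0, Complex.exp_neg (Complex.log (f c)), Complex.exp_log (h0 c hc), mul_inv_cancel₀ (h0 c hc)] at h5
  calc cexp (L w) = cexp (L w) * (f w * cexp (-L w)) := by rw [h5, mul_one]
    _ = f w * (cexp (L w) * cexp (-L w)) := by ring
    _ = f w := by rw [← Complex.exp_add, add_neg_cancel, Complex.exp_zero, mul_one]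

lemma norm_exp_pow {L w : ℂ} {κ : ℝ} (h : cexp L = w) : ‖cexp (κ * L)‖ = ‖w‖ ^ κ := by
  rw [← h, Complex.norm_exp, Complex.norm_exp, ← Real.exp_mul, Complex.re_ofReal_mul, mul_comm]

/-- the power of a function with finitely many zeros of suitable orders on a disc -/
lemma root_ball {κ : ℝ} {c : ℂ} {r : ℝ} (hr : 0 < r) : ∀ (n : ℕ) (f : ℂ → ℂ),
    DifferentiableOn ℂ f (ball c r) → (∀ z ∈ ball c r, analyticOrderAt f z ≠ ⊤) →
    (ball c r ∩ {z | f z = 0}).Finite → (ball c r ∩ {z | f z = 0}).ncard = n →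
    (∀ z ∈ ball c r, ∃ k : ℕ, κ * analyticOrderNatAt f z = k) →
    ∃ g : ℂ → ℂ, DifferentiableOn ℂ g (ball c r) ∧ ∀ z ∈ ball c r, ‖g z‖ = ‖f z‖ ^ κ := by
  intro n
  induction n with
  | zero =>
    intro f hf _ hfin hcard _
    rw [ncard_eq_zero hfin] at hcard
    have h0 : ∀ z ∈ ball c r, f z ≠ 0 := fun z hz h => by
      have : z ∈ ball c r ∩ {z | f z = 0} := ⟨hz, h⟩
      rw [hcard] at this
      exact this
    obtain ⟨L, hL, hL2⟩ := exists_log hr hf h0
    exact ⟨fun z => cexp (κ * L z), ((differentiableOn_const _).mul hL).cexp, fun z hz => norm_exp_pow (hL2 z hz)⟩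
  | succ n ih =>
    intro f hf hord hfin hcard hk
    have hne : (ball c r ∩ {z | f z = 0}).Nonempty := by
      rw [nonempty_iff_ne_empty]
      intro h
      rw [h, ncard_empty] at hcard
      omega
    obtain ⟨ρ, hρ, hρ0⟩ := hne
    have han : ∀ z ∈ ball c r, AnalyticAt ℂ f z := fun z hz => hf.analyticAt (isOpen_ball.mem_nhds hz)
    obtain ⟨h, hh, hhρ, hfh⟩ := ((han ρ hρ).analyticOrderNatAt_eq_iff (hord ρ hρ) (n := analyticOrderNatAt f ρ)).1 rfl
    set m := analyticOrderNatAt f ρ with hm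
    set f₁ : ℂ → ℂ := fun z => if z = ρ then h ρ else f z / (z - ρ) ^ m with hf₁
    have hf₁ρ : f₁ =ᶠ[𝓝 ρ] h := by
      filter_upwards [hfh] with z hz
      simp only [hf₁]
      split_ifs with hzρ
      · rw [hzρ]
      · rw [hz, smul_eq_mul]
        have : (z - ρ) ^ m ≠ 0 := pow_ne_zero _ (sub_ne_zero.2 hzρ)
        field_simp
    have hfac : ∀ z ∈ ball c r, f z = (z - ρ) ^ m * f₁ z := by
      intro z _
      simp only [hf₁]
      split_ifs with hzρ
      · have := hfh.self_of_nhds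
        rw [smul_eq_mul] at this
        rw [hzρ]; exact this
      · have : (z - ρ) ^ m ≠ 0 := pow_ne_zero _ (sub_ne_zero.2 hzρ)
        field_simp
    have hd₁ : ∀ z ∈ ball c r, DifferentiableAt ℂ f₁ z := by
      intro z hz
      by_cases hzρ : z = ρ
      · rw [hzρ]
        exact hh.differentiableAt.congr_of_eventuallyEq hf₁ρ
      · have h1 : f₁ =ᶠ[𝓝 z] fun z => f z / (z - ρ) ^ m := by
          filter_upwards [isOpen_ne.mem_nhds hzρ] with y hy
          simp only [hf₁]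
          rw [if_neg hy]
        have h2 : DifferentiableAt ℂ (fun z => f z / (z - ρ) ^ m) z :=
          (hf.differentiableAt (isOpen_ball.mem_nhds hz)).div (by fun_prop)
            (pow_ne_zero _ (sub_ne_zero.2 hzρ))
        exact h2.congr_of_eventuallyEq h1
    have hf₁ρ0 : f₁ ρ ≠ 0 := by rw [hf₁ρ.self_of_nhds]; exact hhρ
    have hf₁d : DifferentiableOn ℂ f₁ (ball c r) := fun z hz => (hd₁ z hz).differentiableWithinAt
    have han₁ : ∀ z ∈ ball c r, AnalyticAt ℂ f₁ z := fun z hz => hf₁d.analyticAt (isOpen_ball.mem_nhds hz)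
    have hzero : ball c r ∩ {z | f₁ z = 0} = (ball c r ∩ {z | f z = 0}) \ {ρ} := by
      ext z
      simp only [mem_inter_iff, Set.mem_ofPred_eq, Set.mem_sdiff, mem_singleton_iff]
      constructor
      · rintro ⟨hz, hz0⟩
        refine ⟨⟨hz, by rw [hfac z hz, hz0, mul_zero]⟩, fun h => hf₁ρ0 (h ▸ hz0)⟩
      · rintro ⟨⟨hz, hz0⟩, hzρ⟩
        refine ⟨hz, ?_⟩
        rw [hfac z hz] at hz0
        rcases mul_eq_zero.1 hz0 with h1 | h1
        · exact absurd h1 (pow_ne_zero _ (sub_ne_zero.2 hzρ))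
        · exact h1
    have horder : ∀ z ∈ ball c r, z ≠ ρ → analyticOrderAt f₁ z = analyticOrderAt f z := by
      intro z hz hzρ
      have h1 : f =ᶠ[𝓝 z] (fun z => (z - ρ) ^ m) * f₁ := by
        filter_upwards [isOpen_ball.mem_nhds hz] with y hy
        rw [hfac y hy]; rfl
      have h2 : AnalyticAt ℂ (fun z : ℂ => (z - ρ) ^ m) z := by fun_prop
      rw [analyticOrderAt_congr h1, analyticOrderAt_mul h2 (han₁ z hz)]
      rw [h2.analyticOrderAt_eq_zero.2 (pow_ne_zero _ (sub_ne_zero.2 hzρ)), zero_add]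
    have horder0 : analyticOrderAt f₁ ρ = 0 := (han₁ ρ hρ).analyticOrderAt_eq_zero.2 hf₁ρ0
    have hcard₁ : (ball c r ∩ {z | f₁ z = 0}).ncard = n := by
      have h1 := Set.ncard_sdiff_singleton_of_mem (s := ball c r ∩ {z | f z = 0}) (a := ρ) (show _ ∧ _ from ⟨hρ, hρ0⟩)
      rw [hzero, h1, hcard]
      rfl
    obtain ⟨g₁, hg₁, hg₁n⟩ := ih f₁ hf₁d (fun z hz => by
        by_cases hzρ : z = ρ
        · rw [hzρ, horder0]; exact ENat.zero_ne_top
        · rw [horder z hz hzρ]; exact hord z hz) (by rw [hzero]; exact hfin.sdiff) hcard₁ (fun z hz => by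
        by_cases hzρ : z = ρ
        · refine ⟨0, ?_⟩
          rw [hzρ, analyticOrderNatAt, horder0]; simp
        · obtain ⟨k, hk⟩ := hk z hz
          refine ⟨k, ?_⟩
          rw [analyticOrderNatAt, horder z hz hzρ]; exact hk)
    obtain ⟨k, hk⟩ := hk ρ hρ
    refine ⟨fun z => (z - ρ) ^ k * g₁ z, (by fun_prop : DifferentiableOn ℂ (fun z : ℂ => (z - ρ) ^ k) (ball c r)).mul hg₁,
      fun z hz => ?_⟩
    rw [hfac z hz, norm_mul, norm_mul, norm_pow, norm_pow, Real.mul_rpow (by positivity) (norm_nonneg _), hg₁n z hz]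
    congr 1
    rw [← Real.rpow_natCast _ m, ← Real.rpow_mul (norm_nonneg _), mul_comm (m : ℝ), hk, Real.rpow_natCast]

/-- two analytic functions with the same absolute value -/
lemma const_of_norm_eq {V : Set ℂ} (hV : IsOpen V) (hVc : IsPreconnected V) {z₀ : ℂ} (hz₀ : z₀ ∈ V) {a b : ℂ → ℂ}
    (ha : DifferentiableOn ℂ a V) (hb : DifferentiableOn ℂ b V) (hn : ∀ z ∈ V, ‖a z‖ = ‖b z‖) (hb0 : ∀ z ∈ V, b z ≠ 0) :
    ∃ w : ℂ, ‖w‖ = 1 ∧ ∀ z ∈ V, a z = w * b z := by
  have h1 : ∀ z ∈ V, ‖a z / b z‖ = 1 := fun z hz => by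
    rw [norm_div, hn z hz, div_self (norm_ne_zero_iff.2 (hb0 z hz))]
  have h2 := Complex.eqOn_of_isPreconnected_of_isMaxOn_norm (f := fun z => a z / b z) hVc hV (ha.div hb hb0) hz₀
    (fun z hz => by
      simp only [Set.mem_ofPred_eq, Function.comp_apply]
      rw [h1 z hz, h1 z₀ hz₀])
  refine ⟨a z₀ / b z₀, h1 z₀ hz₀, fun z hz => ?_⟩
  have h3 : a z / b z = a z₀ / b z₀ := h2 hz
  rw [← h3, div_mul_cancel₀ _ (hb0 z hz)]

/-- the discs which exhaust the half-plane -/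
def Bn (n : ℕ) : Set ℂ := ball (((n : ℝ) + 7 / 2 : ℝ) : ℂ) ((n : ℝ) + 3 - 1 / ((n : ℝ) + 1))

lemma Bn_r (n : ℕ) : 0 < (n : ℝ) + 3 - 1 / ((n : ℝ) + 1) := by
  have h1 : (0:ℝ) ≤ n := Nat.cast_nonneg n
  have h2 : 1 / ((n : ℝ) + 1) ≤ 1 := by rw [div_le_one (by positivity)]; linarith
  linarith

lemma closedBn_re {n : ℕ} {z : ℂ} (hz : z ∈ closedBall (((n : ℝ) + 7 / 2 : ℝ) : ℂ) ((n : ℝ) + 3 - 1 / ((n : ℝ) + 1))) :
    1 / 2 < z.re := by
  rw [mem_closedBall, dist_eq_norm] at hz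
  have h1 := (Complex.abs_re_le_norm _).trans hz
  rw [Complex.sub_re, Complex.ofReal_re] at h1
  have h2 := (abs_le.1 h1).1
  have h3 : (0:ℝ) < 1 / ((n : ℝ) + 1) := by positivity
  linarith

lemma Bn_re {n : ℕ} {z : ℂ} (hz : z ∈ Bn n) : 1 / 2 < z.re := closedBn_re (ball_subset_closedBall hz)

lemma Bn_succ (n : ℕ) : Bn n ⊆ Bn (n + 1) := by
  intro z hz
  unfold Bn at hz ⊢
  rw [mem_ball, dist_eq_norm] at hz ⊢
  push_cast at hz ⊢
  have h1 : ‖z - ((n : ℂ) + 1 + 7 / 2)‖ ≤ ‖z - ((n : ℂ) + 7 / 2)‖ + 1 := by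
    have e : z - ((n : ℂ) + 1 + 7 / 2) = (z - ((n : ℂ) + 7 / 2)) - 1 := by ring
    rw [e]
    refine (norm_sub_le _ _).trans ?_
    rw [norm_one]
  have h2 : 1 / ((n : ℝ) + 1 + 1) ≤ 1 / ((n : ℝ) + 1) := by
    apply one_div_le_one_div_of_le (by positivity); linarith
  linarith

lemma Bn_mono {n m : ℕ} (h : n ≤ m) : Bn n ⊆ Bn m := by
  induction h with
  | refl => exact subset_rfl
  | step _ ih => exact ih.trans (Bn_succ _)

lemma Bn_two (n : ℕ) : (2:ℂ) ∈ Bn n := by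
  unfold Bn
  rw [mem_ball, dist_eq_norm]
  have e : (2:ℂ) - (((n : ℝ) + 7 / 2 : ℝ) : ℂ) = ((-((n:ℝ) + 3 / 2) : ℝ) : ℂ) := by push_cast; ring
  rw [e, Complex.norm_real, norm_neg, Real.norm_of_nonneg (by positivity)]
  have h1 : (0:ℝ) ≤ n := Nat.cast_nonneg n
  have h2 : 1 / ((n : ℝ) + 1) ≤ 1 := by rw [div_le_one (by positivity)]; linarith
  linarith

lemma Bn_exhaust {z : ℂ} (hz : 1 / 2 < z.re) : ∃ n, z ∈ Bn n := by
  set x : ℝ := z.re - 1 / 2 with hx
  have hx0 : 0 < x := by rw [hx]; linarith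
  obtain ⟨n, hn⟩ := exists_nat_gt ((x ^ 2 + z.im ^ 2 + 2) / (2 * x))
  refine ⟨n, ?_⟩
  unfold Bn
  rw [mem_ball, dist_eq_norm]
  rw [div_lt_iff₀ (by positivity)] at hn
  have h1 : (0:ℝ) ≤ n := Nat.cast_nonneg n
  have h2 : 0 < 1 / ((n : ℝ) + 1) := by positivity
  have h3 := Bn_r n
  apply lt_of_pow_lt_pow_left₀ 2 h3.le
  rw [← Complex.normSq_eq_norm_sq, Complex.normSq_apply]
  simp only [Complex.sub_re, Complex.ofReal_re, Complex.sub_im, Complex.ofReal_im, sub_zero]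
  have e : z.re = x + 1 / 2 := by rw [hx]; ring
  rw [e]
  have h4 : (n:ℝ) + 3 ≤ 3 * ((n:ℝ) + 1) := by linarith
  have h5 : ((n : ℝ) + 3) * (1 / ((n : ℝ) + 1)) ≤ 3 := by
    rw [mul_one_div, div_le_iff₀ (by positivity)]; exact h4
  have h6 : ((n : ℝ) + 3) * (1 / ((n : ℝ) + 1)) = 1 + 2 * (1 / ((n : ℝ) + 1)) := by field_simp; ring
  have h7 : 0 ≤ (1 / ((n : ℝ) + 1)) ^ 2 := by positivity
  by_cases h8 : 2 * x * 3 ≥ 4
  · nlinarith
  · have h9 : 1 / ((n : ℝ) + 1) ≤ 1 := by rw [div_le_one (by positivity)]; linarith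
    nlinarith

end Pool.Agent.N798.P
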