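import Pool.Agent.N798.P2

set_option autoImplicit false

/-! Real powers of an analytic function on a half-plane: the power on the half-plane and its boundary values. -/

namespace Pool.Agent.N798.P

open Complex Filter Topology Set Metric

lemma Bn_open (n : ℕ) : IsOpen (Bn n) := isOpen_ball
lemma Bn_convex (n : ℕ) : Convex ℝ (Bn n) := convex_ball _ _

/-- **The power of an analytic function on the half-plane.** -/
theorem root_half {κ : ℝ} {f : ℂ → ℂ} (hf : ∀ z : ℂ, 0 < z.re → DifferentiableAt ℂ f z)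
    (hk : ∀ z : ℂ, 1 / 2 < z.re → ∃ k : ℕ, κ * analyticOrderNatAt f z = k)
    {g₀ : ℂ → ℂ} (hg₀ : ∀ z : ℂ, 1 < z.re → DifferentiableAt ℂ g₀ z) (hn₀ : ∀ z : ℂ, 1 < z.re → ‖g₀ z‖ = ‖f z‖ ^ κ)
    (hf₀ : ∀ z : ℂ, 1 < z.re → f z ≠ 0) :
    ∃ g : ℂ → ℂ, (∀ z : ℂ, 1 / 2 < z.re → DifferentiableAt ℂ g z) ∧ (∀ z : ℂ, 1 / 2 < z.re → ‖g z‖ = ‖f z‖ ^ κ) ∧
      ∀ z : ℂ, 1 < z.re → g z = g₀ z := by
  classical
  have hU : IsOpen {z : ℂ | 0 < z.re} := isOpen_lt continuous_const Complex.continuous_re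
  have hfd : DifferentiableOn ℂ f {z : ℂ | 0 < z.re} := fun z hz => (hf z hz).differentiableWithinAt
  have han : ∀ z : ℂ, 0 < z.re → AnalyticAt ℂ f z := fun z hz => hfd.analyticAt (hU.mem_nhds hz)
  have hconv : Convex ℝ {z : ℂ | 0 < z.re} := convex_halfSpace_re_gt 0
  -- finite order
  have hord : ∀ z : ℂ, 0 < z.re → analyticOrderAt f z ≠ ⊤ := by
    intro z hz h
    rw [analyticOrderAt_eq_top] at h
    have h1 : AnalyticOnNhd ℂ f {z : ℂ | 0 < z.re} := fun w hw => han w hw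
    have h2 := h1.eqOn_zero_of_preconnected_of_eventuallyEq_zero hconv.isPreconnected hz h
    exact hf₀ 2 (by norm_num) (h2 (show (0:ℝ) < (2:ℂ).re by norm_num))
  have hVopen : IsOpen {z : ℂ | 1 < z.re} := isOpen_lt continuous_const Complex.continuous_re
  have hVconv : Convex ℝ {z : ℂ | 1 < z.re} := convex_halfSpace_re_gt 1
  -- the power on each disc
  have hBn : ∀ n : ℕ, ∃ g : ℂ → ℂ, DifferentiableOn ℂ g (Bn n) ∧ (∀ z ∈ Bn n, ‖g z‖ = ‖f z‖ ^ κ) ∧
      ∀ z ∈ Bn n ∩ {z : ℂ | 1 < z.re}, g z = g₀ z := by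
    intro n
    have hre : ∀ z ∈ Bn n, 0 < z.re := fun z hz => by have := Bn_re hz; linarith
    have hfin : (Bn n ∩ {z | f z = 0}).Finite := by
      set K : Set ℂ := closedBall (((n : ℝ) + 7 / 2 : ℝ) : ℂ) ((n : ℝ) + 3 - 1 / ((n : ℝ) + 1)) with hK
      have hKc : IsCompact K := isCompact_closedBall _ _
      by_contra hinf
      have hinf' : (K ∩ {z | f z = 0}).Infinite := fun h => hinf (h.subset (inter_subset_inter_left _ ball_subset_closedBall))
      obtain ⟨w, hwK, hw⟩ := hinf'.exists_accPt_of_subset_isCompact hKc inter_subset_left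
      have hwre : 0 < w.re := by have := closedBn_re hwK; linarith
      have h1 : ∃ᶠ z in 𝓝[≠] w, f z = 0 := by
        rw [accPt_iff_frequently] at hw
        rw [frequently_nhdsWithin_iff]
        exact hw.mono fun z hz => ⟨hz.2.2, hz.1⟩
      have h2 := (han w hwre).frequently_zero_iff_eventually_zero.1 h1
      exact hord w hwre (analyticOrderAt_eq_top.2 h2)
    obtain ⟨g, hg, hgn⟩ := root_ball (κ := κ) (Bn_r n) _ f (fun z hz => (hf z (hre z hz)).differentiableWithinAt)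
      (fun z hz => hord z (hre z hz)) hfin rfl (fun z hz => hk z (Bn_re hz))
    have hV : IsOpen (Bn n ∩ {z : ℂ | 1 < z.re}) := (Bn_open n).inter hVopen
    obtain ⟨w, hw1, hw⟩ := const_of_norm_eq (z₀ := 2) hV ((Bn_convex n).inter hVconv).isPreconnected
      ⟨Bn_two n, by show (1:ℝ) < (2:ℂ).re; norm_num⟩ (a := g₀) (b := g)
      (fun z hz => (hg₀ z hz.2).differentiableWithinAt) (hg.mono inter_subset_left)
      (fun z hz => by rw [hn₀ z hz.2, hgn z hz.1]) (fun z hz => by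
        rw [← norm_ne_zero_iff, hgn z hz.1]
        exact (Real.rpow_pos_of_pos (norm_pos_iff.2 (hf₀ z hz.2)) _).ne')
    refine ⟨fun z => w * g z, hg.const_mul w, fun z hz => ?_, fun z hz => (hw z hz).symm⟩
    rw [norm_mul, hw1, one_mul, hgn z hz]
  choose gs hgs hgsn hgs0 using hBn
  have hsame : ∀ n m : ℕ, n ≤ m → ∀ z ∈ Bn n, gs m z = gs n z := by
    intro n m hnm
    have h1 : AnalyticOnNhd ℂ (gs m) (Bn n) := ((hgs m).mono (Bn_mono hnm)).analyticOnNhd (Bn_open n)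
    have h2 : AnalyticOnNhd ℂ (gs n) (Bn n) := (hgs n).analyticOnNhd (Bn_open n)
    apply h1.eqOn_of_preconnected_of_eventuallyEq h2 (Bn_convex n).isPreconnected (Bn_two n)
    have hV : IsOpen (Bn n ∩ {z : ℂ | 1 < z.re}) := (Bn_open n).inter hVopen
    filter_upwards [hV.mem_nhds (show (2:ℂ) ∈ Bn n ∩ {z : ℂ | 1 < z.re} from
      ⟨Bn_two n, by show (1:ℝ) < (2:ℂ).re; norm_num⟩)] with z hz
    rw [hgs0 m z ⟨Bn_mono hnm hz.1, hz.2⟩, hgs0 n z hz]
  set g : ℂ → ℂ := fun z => if h : ∃ n, z ∈ Bn n then gs (Nat.find h) z else 0 with hg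
  have hgeq : ∀ n, ∀ z ∈ Bn n, g z = gs n z := by
    intro n z hz
    have h : ∃ n, z ∈ Bn n := ⟨n, hz⟩
    simp only [hg]
    rw [dif_pos h]
    exact (hsame _ n (Nat.find_min' h hz) z (Nat.find_spec h)).symm
  refine ⟨g, fun z hz => ?_, fun z hz => ?_, fun z hz => ?_⟩
  · obtain ⟨n, hn⟩ := Bn_exhaust hz
    have h1 : g =ᶠ[𝓝 z] gs n := by
      filter_upwards [(Bn_open n).mem_nhds hn] with y hy
      exact hgeq n y hy
    exact ((hgs n).differentiableAt ((Bn_open n).mem_nhds hn)).congr_of_eventuallyEq h1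
  · obtain ⟨n, hn⟩ := Bn_exhaust hz
    rw [hgeq n z hn, hgsn n z hn]
  · obtain ⟨n, hn⟩ := Bn_exhaust (show 1 / 2 < z.re by linarith)
    rw [hgeq n z hn, hgs0 n z ⟨hn, hz⟩]

/-- **Boundary values.** -/
theorem boundary {κ : ℝ} (hκ : 0 < κ) {f g : ℂ → ℂ} (hf : ∀ z : ℂ, 0 < z.re → DifferentiableAt ℂ f z)
    (hg : ∀ z : ℂ, 1 / 2 < z.re → DifferentiableAt ℂ g z) (hn : ∀ z : ℂ, 1 / 2 < z.re → ‖g z‖ = ‖f z‖ ^ κ) :
    ∃ G : ℂ → ℂ, ContinuousOn G {z : ℂ | 1 / 2 ≤ z.re} ∧ (∀ z : ℂ, 1 / 2 < z.re → G z = g z) ∧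
      ∀ z : ℂ, 1 / 2 ≤ z.re → ‖G z‖ = ‖f z‖ ^ κ := by
  set A : Set ℂ := {z : ℂ | 1 / 2 < z.re} with hA
  have hAo : IsOpen A := isOpen_lt continuous_const Complex.continuous_re
  have hAc : Convex ℝ A := convex_halfSpace_re_gt _
  have hB : {z : ℂ | 1 / 2 ≤ z.re} ⊆ closure A := by
    intro z hz
    rw [Metric.mem_closure_iff]
    intro ε hε
    refine ⟨z + (ε / 2 : ℝ), ?_, ?_⟩
    · show 1 / 2 < (z + (ε / 2 : ℝ)).re
      rw [Complex.add_re, Complex.ofReal_re]
      have : 1 / 2 ≤ z.re := hz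
      linarith
    · rw [dist_eq_norm, show z - (z + ((ε / 2 : ℝ) : ℂ)) = ((-(ε / 2) : ℝ) : ℂ) by push_cast; ring,
        Complex.norm_real, norm_neg, Real.norm_of_nonneg (by positivity)]
      linarith
  have hlim : ∀ x ∈ {z : ℂ | 1 / 2 ≤ z.re}, ∃ y, Tendsto g (𝓝[A] x) (𝓝 y) := by
    intro x hx
    have hx' : 1 / 2 ≤ x.re := hx
    have hx0 : 0 < x.re := by linarith
    have hfx : ContinuousAt f x := (hf x hx0).continuousAt
    by_cases hfx0 : f x = 0
    · refine ⟨0, ?_⟩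
      rw [tendsto_zero_iff_norm_tendsto_zero]
      have h1 : Tendsto (fun z => ‖f z‖ ^ κ) (𝓝[A] x) (𝓝 0) := by
        have h2 : Tendsto (fun z => ‖f z‖ ^ κ) (𝓝 x) (𝓝 (‖f x‖ ^ κ)) :=
          (hfx.norm).tendsto.rpow_const (Or.inr hκ.le)
        rw [hfx0, norm_zero, Real.zero_rpow hκ.ne'] at h2
        exact h2.mono_left nhdsWithin_le_nhds
      refine h1.congr' ?_
      filter_upwards [self_mem_nhdsWithin] with z hz
      exact (hn z hz).symm
    · obtain ⟨r, hr, hrf⟩ := Metric.eventually_nhds_iff_ball.1 (hfx.eventually_ne hfx0)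
      set ρ : ℝ := min r (1 / 4) with hρ
      have hρ0 : 0 < ρ := lt_min hr (by norm_num)
      have hre : ∀ z ∈ ball x ρ, 0 < z.re := by
        intro z hz
        rw [mem_ball, dist_eq_norm] at hz
        have h1 := (Complex.abs_re_le_norm _).trans hz.le
        rw [Complex.sub_re] at h1
        have h2 := (abs_le.1 h1).1
        have h3 : ρ ≤ 1 / 4 := min_le_right _ _
        linarith
      obtain ⟨L, hL, hLf⟩ := exists_log (f := f) hρ0 (fun z hz => (hf z (hre z hz)).differentiableWithinAt)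
        (fun z hz => hrf z (ball_subset_ball (min_le_left _ _) hz))
      set V : Set ℂ := ball x ρ ∩ A with hV
      have hVo : IsOpen V := isOpen_ball.inter hAo
      have hVc : IsPreconnected V := ((convex_ball x ρ).inter hAc).isPreconnected
      have hz₀ : x + ((ρ / 2 : ℝ) : ℂ) ∈ V := by
        constructor
        · rw [mem_ball, dist_eq_norm, add_sub_cancel_left, Complex.norm_real, Real.norm_of_nonneg (by positivity)]
          linarith
        · show 1 / 2 < (x + ((ρ / 2 : ℝ) : ℂ)).re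
          rw [Complex.add_re, Complex.ofReal_re]
          linarith
      have hexp : DifferentiableOn ℂ (fun z => cexp (κ * L z)) (ball x ρ) := (hL.const_mul _).cexp
      obtain ⟨w, _, hw⟩ := const_of_norm_eq hVo hVc hz₀ (a := g) (b := fun z => cexp (κ * L z))
        (fun z hz => (hg z hz.2).differentiableWithinAt) (hexp.mono inter_subset_left)
        (fun z hz => by rw [hn z hz.2, norm_exp_pow (hLf z hz.1)]) (fun z _ => Complex.exp_ne_zero _)
      refine ⟨w * cexp (κ * L x), ?_⟩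
      have h1 : ContinuousAt (fun z => w * cexp (κ * L z)) x :=
        ((hexp.differentiableAt (isOpen_ball.mem_nhds (mem_ball_self hρ0))).const_mul w).continuousAt
      have h2 : Tendsto (fun z => w * cexp (κ * L z)) (𝓝[A] x) (𝓝 (w * cexp (κ * L x))) :=
        h1.tendsto.mono_left nhdsWithin_le_nhds
      refine h2.congr' ?_
      filter_upwards [self_mem_nhdsWithin, nhdsWithin_le_nhds (isOpen_ball.mem_nhds (mem_ball_self hρ0))] with z hz hz2
      exact (hw z ⟨hz2, hz⟩).symm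
  have hcont := continuousOn_extendFrom hB hlim
  have hgc : ∀ z ∈ A, ContinuousAt g z := fun z hz => (hg z hz).continuousAt
  have hext : ∀ z : ℂ, 1 / 2 < z.re → extendFrom A g z = g z := by
    intro z hz
    exact extendFrom_eq (hB (le_of_lt hz)) ((hgc z hz).tendsto.mono_left nhdsWithin_le_nhds)
  refine ⟨extendFrom A g, hcont, hext, fun z hz => ?_⟩
  have h1 : Tendsto (extendFrom A g) (𝓝[A] z) (𝓝 (extendFrom A g z)) :=
    (hcont z hz).mono (fun w (hw : 1 / 2 < w.re) => (show 1 / 2 ≤ w.re from hw.le))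
  have h2 : Tendsto (fun w => ‖f w‖ ^ κ) (𝓝[A] z) (𝓝 ‖extendFrom A g z‖) := by
    refine h1.norm.congr' ?_
    filter_upwards [self_mem_nhdsWithin] with w hw
    rw [hext w hw, hn w hw]
  have hz' : 1 / 2 ≤ z.re := hz
  have h3 : Tendsto (fun w => ‖f w‖ ^ κ) (𝓝[A] z) (𝓝 (‖f z‖ ^ κ)) :=
    (((hf z (by linarith)).continuousAt.norm).tendsto.rpow_const (Or.inr hκ.le)).mono_left nhdsWithin_le_nhds
  have hne : (𝓝[A] z).NeBot := mem_closure_iff_nhdsWithin_neBot.1 (hB hz)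
  exact tendsto_nhds_unique h2 h3

end Pool.Agent.N798.P
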