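import Pool.Agent.N798.P3
import Mathlib.Analysis.Analytic.Binomial

set_option autoImplicit false

/-! The coefficients `d_κ(n)` of `ζ^κ`, their Euler product and their Dirichlet series. -/

namespace Pool.Agent.N798.P

open Complex Filter Topology Set Metric

/-- The binomial coefficient `C(κ + j - 1, j)`. -/
noncomputable def bc (κ : ℝ) (j : ℕ) : ℝ := ∏ i ∈ Finset.range j, (κ + i) / (i + 1)

lemma bc_zero (κ : ℝ) : bc κ 0 = 1 := by simp [bc]

lemma bc_succ (κ : ℝ) (j : ℕ) : bc κ (j + 1) = bc κ j * ((κ + j) / (j + 1)) := by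
  unfold bc; rw [Finset.prod_range_succ]

lemma bc_nonneg {κ : ℝ} (h : 0 ≤ κ) (j : ℕ) : 0 ≤ bc κ j :=
  Finset.prod_nonneg fun i _ => by positivity

lemma bc_multichoose (κ : ℝ) (j : ℕ) : (bc κ j : ℂ) = Ring.multichoose (κ : ℂ) j := by
  have h : ∀ j : ℕ, (j.factorial : ℂ) * (bc κ j : ℂ) = (j.factorial : ℂ) * Ring.multichoose (κ : ℂ) j := by
    intro j
    rw [← nsmul_eq_mul, ← nsmul_eq_mul, Ring.factorial_nsmul_multichoose_eq_ascPochhammer,
      Polynomial.ascPochhammer_smeval_eq_eval]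
    induction j with
    | zero => simp [bc_zero]
    | succ j ih =>
      rw [ascPochhammer_succ_eval, ← ih, bc_succ, Nat.factorial_succ, nsmul_eq_mul, nsmul_eq_mul]
      push_cast
      have : (j : ℂ) + 1 ≠ 0 := by exact_mod_cast j.succ_ne_zero
      field_simp
  exact mul_left_cancel₀ (by exact_mod_cast j.factorial_ne_zero) (h j)

/-- The binomial series. -/
lemma binom_hasSum (κ : ℝ) {z : ℂ} (hz : ‖z‖ < 1) :
    HasSum (fun j : ℕ => (bc κ j : ℂ) * z ^ j) (cexp (((-κ : ℝ) : ℂ) * Complex.log (1 - z))) := by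
  have h := Complex.one_div_one_sub_cpow_hasFPowerSeriesOnBall_zero (κ : ℂ)
  have h1 := h.hasSum (y := z) (by
    have : ‖z‖₊ < 1 := hz
    simpa [Metric.mem_eball, enorm_eq_nnnorm] using this)
  have hne : 1 - z ≠ 0 := by
    intro h0
    rw [sub_eq_zero] at h0
    rw [← h0, norm_one] at hz
    exact lt_irrefl _ hz
  simp only [zero_add, FormalMultilinearSeries.ofScalars_apply_eq] at h1
  rw [one_div, ← Complex.cpow_neg, Complex.cpow_def_of_ne_zero hne, mul_comm (Complex.log _)] at h1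
  have h2 : ((-κ : ℝ) : ℂ) = -(κ : ℂ) := by push_cast; rfl
  rw [h2]
  refine h1.congr_fun ?_
  intro j
  rw [bc_multichoose, Ring.multichoose_eq, smul_eq_mul]

lemma one_sub_ne {z : ℂ} (hz : ‖z‖ < 1) : 1 - z ≠ 0 := by
  intro h0
  rw [sub_eq_zero] at h0
  rw [← h0, norm_one] at hz
  exact lt_irrefl _ hz

lemma norm_binom (κ : ℝ) {z : ℂ} (hz : ‖z‖ < 1) : ‖cexp (((-κ : ℝ) : ℂ) * Complex.log (1 - z))‖ = ‖(1 - z)⁻¹‖ ^ κ := by
  rw [norm_exp_pow (w := 1 - z) (Complex.exp_log (one_sub_ne hz)), norm_inv, Real.inv_rpow (norm_nonneg _),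
    Real.rpow_neg (norm_nonneg _)]

/-- The coefficients `d_κ(n)` of `ζ^κ`: multiplicative, `d_κ(p^j) = C(κ + j - 1, j)`. -/
noncomputable def dr (κ : ℝ) (n : ℕ) : ℝ := if n = 0 then 0 else n.factorization.prod fun _ j => bc κ j

lemma dr_zero (κ : ℝ) : dr κ 0 = 0 := by simp [dr]

lemma dr_one (κ : ℝ) : dr κ 1 = 1 := by simp [dr]

lemma dr_nonneg {κ : ℝ} (h : 0 ≤ κ) (n : ℕ) : 0 ≤ dr κ n := by
  unfold dr
  split_ifs
  · exact le_rfl
  · exact Finset.prod_nonneg fun _ _ => bc_nonneg h _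

lemma dr_mul (κ : ℝ) {m n : ℕ} (h : Nat.Coprime m n) : dr κ (m * n) = dr κ m * dr κ n := by
  unfold dr
  by_cases hm : m = 0
  · simp [hm]
  by_cases hn : n = 0
  · simp [hn]
  rw [if_neg (mul_ne_zero hm hn), if_neg hm, if_neg hn, Nat.factorization_mul hm hn,
    Finsupp.prod_add_index_of_disjoint (Nat.Coprime.disjoint_primeFactors h)]

lemma dr_pow (κ : ℝ) {p : ℕ} (hp : p.Prime) (j : ℕ) : dr κ (p ^ j) = bc κ j := by
  unfold dr
  rw [if_neg (pow_ne_zero _ hp.ne_zero), hp.factorization_pow]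
  exact Finsupp.prod_single_index (h := fun _ j => bc κ j) (bc_zero κ)

/-- the terms of the Dirichlet series -/
noncomputable def tm (κ : ℝ) (s : ℂ) (n : ℕ) : ℂ := (dr κ n : ℂ) * (n : ℂ) ^ (-s)

lemma tm_zero (κ : ℝ) (s : ℂ) : tm κ s 0 = 0 := by simp [tm, dr_zero]
lemma tm_one (κ : ℝ) (s : ℂ) : tm κ s 1 = 1 := by simp [tm, dr_one]

lemma tm_mul (κ : ℝ) (s : ℂ) {m n : ℕ} (h : Nat.Coprime m n) : tm κ s (m * n) = tm κ s m * tm κ s n := by
  unfold tm
  rw [dr_mul κ h, Nat.cast_mul, Complex.natCast_mul_natCast_cpow]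
  push_cast
  ring

lemma tm_pow (κ : ℝ) (s : ℂ) {p : ℕ} (hp : p.Prime) (j : ℕ) : tm κ s (p ^ j) = (bc κ j : ℂ) * ((p : ℂ) ^ (-s)) ^ j := by
  unfold tm
  rw [dr_pow κ hp, Nat.cast_pow]
  congr 1
  rw [← Complex.natCast_cpow_natCast_mul, Complex.cpow_nat_mul]

lemma norm_pms {p : ℕ} (hp : p.Prime) {s : ℂ} (hs : 0 < s.re) : ‖(p : ℂ) ^ (-s)‖ < 1 := by
  rw [Complex.norm_natCast_cpow_of_pos hp.pos, Complex.neg_re]
  exact Real.rpow_lt_one_of_one_lt_of_neg (by exact_mod_cast hp.one_lt) (by linarith)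

lemma tm_hasSum (κ : ℝ) {s : ℂ} (hs : 0 < s.re) {p : ℕ} (hp : p.Prime) :
    HasSum (fun j : ℕ => tm κ s (p ^ j)) (cexp (((-κ : ℝ) : ℂ) * Complex.log (1 - (p : ℂ) ^ (-s)))) := by
  have h := binom_hasSum κ (norm_pms hp hs)
  exact h.congr_fun fun j => tm_pow κ s hp j

lemma norm_tm {κ : ℝ} (hκ : 0 ≤ κ) (s : ℂ) (n : ℕ) : (‖tm κ s n‖ : ℂ) = tm κ (s.re : ℂ) n := by
  unfold tm
  by_cases hn : n = 0
  · simp [hn, dr_zero]
  · rw [norm_mul, Complex.norm_real, Real.norm_of_nonneg (dr_nonneg hκ n),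
      Complex.norm_natCast_cpow_of_pos (Nat.pos_of_ne_zero hn), Complex.neg_re]
    push_cast
    rw [Complex.ofReal_cpow (Nat.cast_nonneg n)]
    push_cast
    rfl

/-- the Dirichlet series of `d_κ` converges absolutely for `Re s > 1` -/
lemma tm_summable {κ : ℝ} (hκ : 0 ≤ κ) {s : ℂ} (hs : 1 < s.re) : Summable (fun n => ‖tm κ s n‖) := by
  set σ : ℂ := (s.re : ℂ) with hσ
  have hσre : σ.re = s.re := by rw [hσ, Complex.ofReal_re]
  have hσ1 : 1 < σ.re := by rw [hσre]; exact hs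
  set f : ℕ → ℝ := fun n => ‖tm κ s n‖ with hf
  have hfC : ∀ n, (f n : ℂ) = tm κ σ n := fun n => norm_tm hκ s n
  have hf0 : ∀ n, 0 ≤ f n := fun n => norm_nonneg _
  have hf1 : f 1 = 1 := by simp [hf, tm_one]
  have hfmul : ∀ {m n : ℕ}, Nat.Coprime m n → f (m * n) = f m * f n := by
    intro m n h
    simp only [hf]
    rw [tm_mul κ s h, norm_mul]
  -- the local factors
  have hloc : ∀ {p : ℕ}, p.Prime → HasSum (fun j : ℕ => f (p ^ j)) (‖(1 - (p : ℂ) ^ (-σ))⁻¹‖ ^ κ) := by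
    intro p hp
    have h1 := tm_hasSum κ (s := σ) (by linarith) hp
    have h2 := Complex.hasSum_re h1
    have h3 : ∀ j, (tm κ σ (p ^ j)).re = f (p ^ j) := by
      intro j; rw [← hfC, Complex.ofReal_re]
    simp only [h3] at h2
    have h4 := Complex.hasSum_ofReal.2 h2
    simp only [hfC] at h4
    have h5 := h1.unique h4
    rw [← norm_binom κ (norm_pms hp (by linarith)), h5, Complex.norm_real, Real.norm_of_nonneg (h2.nonneg fun j => hf0 _)]
    exact h2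
  have hsm := fun N => EulerProduct.summable_and_hasSum_smoothNumbers_prod_primesBelow_tsum hf1 hfmul
    (fun {p} hp => by
      have := (hloc hp).summable
      simpa only [Real.norm_of_nonneg (hf0 _)] using this) N
  -- boundedness of the partial products
  have hprod : ∀ N : ℕ, ∏ p ∈ N.primesBelow, ∑' n : ℕ, f (p ^ n) = ‖∏ p ∈ N.primesBelow, (1 - (p : ℂ) ^ (-σ))⁻¹‖ ^ κ := by
    intro N
    rw [norm_prod, ← Real.finsetProd_rpow _ _ fun _ _ => norm_nonneg _]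
    exact Finset.prod_congr rfl fun p hp => (hloc (Nat.prime_of_mem_primesBelow hp)).tsum_eq
  have hlim : Tendsto (fun N : ℕ => ∏ p ∈ N.primesBelow, ∑' n : ℕ, f (p ^ n)) atTop (𝓝 (‖riemannZeta σ‖ ^ κ)) := by
    simp only [hprod]
    exact (riemannZeta_eulerProduct hσ1).norm.rpow_const (Or.inr hκ)
  obtain ⟨C, hC⟩ := hlim.bddAbove_range
  apply summable_of_sum_le hf0 (c := C)
  intro u
  set N : ℕ := u.sup id + 1 with hN
  have h1 := (hasSum_subtype_iff_indicator (f := f) (s := (N.smoothNumbers : Set ℕ))).1 (hsm N).2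
  have h2 : ∑ n ∈ u, f n = ∑ n ∈ u, (N.smoothNumbers.indicator f) n := by
    apply Finset.sum_congr rfl
    intro n hn
    by_cases hn0 : n = 0
    · have h3 : n ∉ N.smoothNumbers := fun h => Nat.ne_zero_of_mem_smoothNumbers h hn0
      rw [Set.indicator_of_notMem h3, hn0]
      simp [hf, tm_zero]
    · have h3 : n ∈ N.smoothNumbers := Nat.mem_smoothNumbers_of_lt (Nat.pos_of_ne_zero hn0)
        (Nat.lt_succ_of_le (Finset.le_sup (f := id) hn))
      rw [Set.indicator_of_mem h3]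
  rw [h2]
  refine (sum_le_hasSum u (fun n _ => Set.indicator_nonneg (fun n _ => hf0 n) n) h1).trans ?_
  exact hC (mem_range_self N)

/-- the modulus of the Dirichlet series of `d_κ` -/
lemma norm_tsum_tm {κ : ℝ} (hκ : 0 ≤ κ) {s : ℂ} (hs : 1 < s.re) : ‖∑' n, tm κ s n‖ = ‖riemannZeta s‖ ^ κ := by
  have h1 := EulerProduct.eulerProduct (tm_one κ s) (fun {m n} h => tm_mul κ s h) (tm_summable hκ hs) (tm_zero κ s)
  have h2 : ∀ N : ℕ, ‖∏ p ∈ N.primesBelow, ∑' e : ℕ, tm κ s (p ^ e)‖ = ‖∏ p ∈ N.primesBelow, (1 - (p : ℂ) ^ (-s))⁻¹‖ ^ κ := by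
    intro N
    rw [norm_prod, norm_prod, ← Real.finsetProd_rpow _ _ fun _ _ => norm_nonneg _]
    refine Finset.prod_congr rfl fun p hp => ?_
    have hp' := Nat.prime_of_mem_primesBelow hp
    rw [(tm_hasSum κ (by linarith) hp').tsum_eq, norm_binom κ (norm_pms hp' (by linarith))]
  have h3 := h1.norm
  simp only [h2] at h3
  exact tendsto_nhds_unique h3 ((riemannZeta_eulerProduct hs).norm.rpow_const (Or.inr hκ))

lemma term_dr (κ : ℝ) (s : ℂ) : LSeries.term (fun n => (dr κ n : ℂ)) s = tm κ s := by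
  funext n
  unfold tm
  by_cases hn : n = 0
  · rw [hn, LSeries.term_zero, dr_zero]; simp
  · rw [LSeries.term_of_ne_zero hn, Complex.cpow_neg, div_eq_mul_inv]

lemma dr_summable {κ : ℝ} (hκ : 0 ≤ κ) {s : ℂ} (hs : 1 < s.re) : LSeriesSummable (fun n => (dr κ n : ℂ)) s := by
  unfold LSeriesSummable
  rw [term_dr]
  exact (tm_summable hκ hs).of_norm

/-- The Dirichlet series of `d_κ`. -/
noncomputable def Zk (κ : ℝ) (s : ℂ) : ℂ := LSeries (fun n => (dr κ n : ℂ)) s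

lemma norm_Zk {κ : ℝ} (hκ : 0 ≤ κ) {s : ℂ} (hs : 1 < s.re) : ‖Zk κ s‖ = ‖riemannZeta s‖ ^ κ := by
  unfold Zk LSeries
  rw [term_dr, norm_tsum_tm hκ hs]

lemma Zk_diff {κ : ℝ} (hκ : 0 ≤ κ) {s : ℂ} (hs : 1 < s.re) : DifferentiableAt ℂ (Zk κ) s := by
  have h1 : LSeries.abscissaOfAbsConv (fun n => (dr κ n : ℂ)) ≤ 1 := by
    apply LSeries.abscissaOfAbsConv_le_of_forall_lt_LSeriesSummable
    intro y hy
    exact dr_summable hκ (by simpa using hy)
  have h2 : LSeries.abscissaOfAbsConv (fun n => (dr κ n : ℂ)) < s.re := by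
    refine h1.trans_lt ?_
    exact_mod_cast hs
  exact (LSeries_hasDerivAt h2).differentiableAt

end Pool.Agent.N798.P
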