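import Pool.Agent.N798.V3

set_option autoImplicit false

/-! Laplace transforms of the main terms and of the coefficient sums. -/

namespace Pool.Agent.N798.V

open Complex MeasureTheory Filter Topology Metric
open scoped ENNReal Real

/-- The main term `(2πi)⁻¹ ∮ F(s) e^{su} ds` that belongs to the pole `p`. -/
noncomputable def rho (F : ℂ → ℂ) (r : ℝ) (p : ℂ) (u : ℝ) : ℂ :=
  (2 * π * I)⁻¹ * ∮ s in C(p, r), F s * cexp (s * u)

/-- the integrand of the double integral -/
lemma fub {F : ℂ → ℂ} {p w : ℂ} {r : ℝ} (hr : 0 ≤ r) (hF : ContinuousOn F (sphere p r)) {S : Set ℝ}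
    (mS : MeasurableSet S) {g : ℝ → ℝ} (hg : IntegrableOn g S)
    (hb : ∀ θ, ∀ u ∈ S, ‖cexp ((circleMap p r θ - w) * (u : ℂ))‖ ≤ g u) :
    IntegrableOn (fun u : ℝ => rho F r p u * cexp (-(w * u))) S ∧
      ∫ u in S, rho F r p u * cexp (-(w * u)) =
        (2 * π * I)⁻¹ * ∮ s in C(p, r), F s * ∫ u in S, cexp ((s - w) * (u : ℂ)) := by
  obtain ⟨M, hM⟩ : ∃ M, ∀ s ∈ sphere p r, ‖F s‖ ≤ M := (isCompact_sphere p r).exists_bound_of_continuousOn hF
  have hmem : ∀ θ, circleMap p r θ ∈ sphere p r := fun θ => circleMap_mem_sphere p hr θ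
  have hM0 : 0 ≤ M := (norm_nonneg _).trans (hM _ (hmem 0))
  have hfc : Continuous (fun θ : ℝ => F (circleMap p r θ)) :=
    hF.comp_continuous (continuous_circleMap p r) hmem
  have hcm : Continuous (fun θ : ℝ => circleMap p r θ) := continuous_circleMap p r
  have hdc : Continuous (fun θ : ℝ => deriv (circleMap p r) θ) := by
    simp only [deriv_circleMap]
    exact (continuous_circleMap 0 r).mul continuous_const
  have hdn : ∀ θ, ‖deriv (circleMap p r) θ‖ = r := by
    intro θ
    rw [deriv_circleMap, norm_mul, norm_I, mul_one]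
    simp [circleMap, abs_of_nonneg hr]
  have hpi : (0:ℝ) ≤ 2 * π := by positivity
  -- the double integrand
  set k : ℝ → ℝ → ℂ := fun u θ => deriv (circleMap p r) θ * (F (circleMap p r θ) * cexp ((circleMap p r θ - w) * (u : ℂ)))
    with hk
  have hkint : Integrable (Function.uncurry k) ((volume.restrict S).prod (volume.restrict (Set.Ioc 0 (2 * π)))) := by
    have h1 : Integrable (fun z : ℝ × ℝ => g z.1 * (r * M)) ((volume.restrict S).prod (volume.restrict (Set.Ioc 0 (2 * π)))) :=
      hg.mul_prod (integrable_const (r * M))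
    refine h1.mono' ?_ ?_
    · apply Continuous.aestronglyMeasurable
      simp only [Function.uncurry_def, hk]
      exact (hdc.comp continuous_snd).mul ((hfc.comp continuous_snd).mul
        (Complex.continuous_exp.comp (((hcm.comp continuous_snd).sub continuous_const).mul
          (Complex.continuous_ofReal.comp continuous_fst))))
    · have h2 : ∀ᵐ z ∂((volume.restrict S).prod (volume.restrict (Set.Ioc 0 (2 * π)))), z.1 ∈ S := by
        rw [Measure.prod_restrict]
        filter_upwards [ae_restrict_mem (mS.prod measurableSet_Ioc)] with z hz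
        exact hz.1
      filter_upwards [h2] with z hz
      simp only [Function.uncurry_def, hk]
      rw [norm_mul, norm_mul, hdn]
      have h3 := hM _ (hmem z.2)
      have h4 := hb z.2 z.1 hz
      calc r * (‖F (circleMap p r z.2)‖ * ‖cexp ((circleMap p r z.2 - w) * (z.1 : ℂ))‖) ≤ r * (M * g z.1) := by
            gcongr
        _ = _ := by ring
  have e1 : ∀ u : ℝ, rho F r p u * cexp (-(w * u)) = (2 * π * I)⁻¹ * ∫ θ in Set.Ioc 0 (2 * π), k u θ := by
    intro u
    unfold rho circleIntegral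
    rw [intervalIntegral.integral_of_le hpi, mul_assoc, ← integral_mul_const]
    congr 1
    apply integral_congr_ae
    refine Eventually.of_forall fun θ => ?_
    simp only [hk, smul_eq_mul]
    rw [mul_assoc, mul_assoc, ← Complex.exp_add]
    congr 3
    ring
  have i1 : Integrable (fun u => ∫ θ in Set.Ioc 0 (2 * π), k u θ) (volume.restrict S) := hkint.integral_prod_left
  constructor
  · simp only [e1]
    exact i1.const_mul _
  · simp only [e1]
    rw [integral_const_mul, integral_integral_swap hkint]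
    unfold circleIntegral
    rw [intervalIntegral.integral_of_le hpi]
    congr 1
    apply integral_congr_ae
    refine Eventually.of_forall fun θ => ?_
    simp only [hk, smul_eq_mul]
    rw [integral_const_mul, integral_const_mul]

lemma re_bound {p : ℂ} {r : ℝ} (hr : 0 ≤ r) (hp : p.re = 1) (θ : ℝ) :
    1 - r ≤ (circleMap p r θ).re ∧ (circleMap p r θ).re ≤ 1 + r := by
  have h1 : ‖circleMap p r θ - p‖ = r := by simp [circleMap, abs_of_nonneg hr]
  have h2 := Complex.abs_re_le_norm (circleMap p r θ - p)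
  rw [h1, Complex.sub_re, hp, abs_le] at h2
  constructor <;> linarith [h2.1, h2.2]

/-- transform on the right of the pole -/
lemma rho_right {F : ℂ → ℂ} {p w : ℂ} {r : ℝ} (hr : 0 ≤ r) (hr2 : r < 1 / 2) (hp : p.re = 1) (hw : w.re = 2)
    (hF : ContinuousOn F (sphere p r)) :
    IntegrableOn (fun u : ℝ => rho F r p u * cexp (-(w * u))) (Set.Ioi 0) ∧
      ∫ u in Set.Ioi (0:ℝ), rho F r p u * cexp (-(w * u)) = Cau F p r w := by
  have hneg : ∀ s ∈ sphere p r, (s - w).re < 0 := by
    intro s hs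
    obtain ⟨θ, rfl⟩ : ∃ θ, circleMap p r θ = s := by
      have := range_circleMap p r
      rw [abs_of_nonneg hr] at this
      rw [← this] at hs
      exact hs
    rw [Complex.sub_re, hw]
    linarith [(re_bound hr hp θ).2]
  have h := fub (w := w) hr hF (S := Set.Ioi 0) measurableSet_Ioi (g := fun u => Real.exp (-(1 / 2) * u))
    (integrableOn_exp_mul_Ioi (by norm_num) 0) (fun θ u hu => by
      rw [Complex.norm_exp]
      apply Real.exp_le_exp.2
      have h1 := (re_bound hr hp θ).2
      have hu : 0 < u := hu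
      rw [mul_comm, Complex.re_ofReal_mul, Complex.sub_re, hw]
      nlinarith)
  refine ⟨h.1, h.2.trans ?_⟩
  unfold Cau
  congr 1
  apply circleIntegral.integral_congr hr
  intro s hs
  have h1 := hneg s hs
  have h2 : s - w ≠ 0 := by
    intro h; rw [h] at h1; simp at h1
  have h3 : w - s ≠ 0 := by
    intro h; apply h2; rw [← neg_sub, h, neg_zero]
  simp only
  rw [integral_exp_mul_complex_Ioi h1]
  simp only [Complex.ofReal_zero, mul_zero, Complex.exp_zero]
  rw [← neg_sub w s, div_neg, neg_div, neg_neg]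
  ring

/-- transform on the left of the pole -/
lemma rho_left {F : ℂ → ℂ} {p w : ℂ} {r : ℝ} (hr : 0 ≤ r) (hr2 : r < 1 / 2) (hp : p.re = 1) (hw : w.re = 1 / 2)
    (hF : ContinuousOn F (sphere p r)) :
    IntegrableOn (fun u : ℝ => rho F r p u * cexp (-(w * u))) (Set.Iic 0) ∧
      ∫ u in Set.Iic (0:ℝ), rho F r p u * cexp (-(w * u)) = -Cau F p r w := by
  have hpos : ∀ s ∈ sphere p r, 0 < (s - w).re := by
    intro s hs
    obtain ⟨θ, rfl⟩ : ∃ θ, circleMap p r θ = s := by
      have := range_circleMap p r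
      rw [abs_of_nonneg hr] at this
      rw [← this] at hs
      exact hs
    rw [Complex.sub_re, hw]
    linarith [(re_bound hr hp θ).1]
  have h := fub (w := w) hr hF (S := Set.Iic 0) measurableSet_Iic (g := fun u => Real.exp ((1 / 2 - r) * u))
    (integrableOn_exp_mul_Iic (by linarith) 0) (fun θ u hu => by
      rw [Complex.norm_exp]
      apply Real.exp_le_exp.2
      have h1 := (re_bound hr hp θ).1
      have hu : u ≤ 0 := hu
      rw [mul_comm, Complex.re_ofReal_mul, Complex.sub_re, hw]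
      nlinarith)
  refine ⟨h.1, h.2.trans ?_⟩
  unfold Cau
  rw [← mul_neg, ← neg_one_mul (∮ s in C(p, r), F s / (w - s)),
    ← circleIntegral.integral_const_mul (-1) (fun s => F s / (w - s))]
  congr 1
  apply circleIntegral.integral_congr hr
  intro s hs
  have h1 := hpos s hs
  have h2 : s - w ≠ 0 := by
    intro h; rw [h] at h1; simp at h1
  simp only
  rw [integral_exp_mul_complex_Iic h1]
  simp only [Complex.ofReal_zero, mul_zero, Complex.exp_zero]
  rw [← neg_sub s w, div_neg]
  ring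

/-- growth of the main term -/
lemma rho_growth {F : ℂ → ℂ} {p : ℂ} {r : ℝ} (hr : 0 ≤ r) (hr2 : r < 1 / 2) (hp : p.re = 1)
    (hF : ContinuousOn F (sphere p r)) : ∃ C : ℝ, ∀ u, ‖rho F r p u‖ ≤ C * Real.exp (2 * |u|) := by
  obtain ⟨M, hM⟩ : ∃ M, ∀ s ∈ sphere p r, ‖F s‖ ≤ M := (isCompact_sphere p r).exists_bound_of_continuousOn hF
  refine ⟨r * M, fun u => ?_⟩
  have h := circleIntegral.norm_two_pi_i_inv_smul_integral_le_of_norm_le_const (f := fun s => F s * cexp (s * u))
    (c := p) (R := r) (C := M * Real.exp (2 * |u|)) hr (fun s hs => ?_)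
  · rw [smul_eq_mul] at h
    unfold rho
    rw [mul_assoc r M]
    exact h
  · have h0 : 0 ≤ M := (norm_nonneg _).trans (hM s hs)
    obtain ⟨θ, rfl⟩ : ∃ θ, circleMap p r θ = s := by
      have := range_circleMap p r
      rw [abs_of_nonneg hr] at this
      rw [← this] at hs
      exact hs
    rw [norm_mul, Complex.norm_exp, mul_comm (circleMap p r θ), Complex.re_ofReal_mul]
    have h1 := re_bound hr hp θ
    have h2 : u * (circleMap p r θ).re ≤ 2 * |u| := by
      calc u * (circleMap p r θ).re ≤ |u| * (circleMap p r θ).re :=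
            mul_le_mul_of_nonneg_right (le_abs_self u) (by linarith [h1.1])
        _ ≤ |u| * 2 := mul_le_mul_of_nonneg_left (by linarith [h1.2]) (abs_nonneg u)
        _ = _ := by ring
    have h3 := hM _ hs
    gcongr

/-- continuity of the main term -/
lemma rho_continuous {F : ℂ → ℂ} {p : ℂ} {r : ℝ} (hr : 0 ≤ r) (hF : ContinuousOn F (sphere p r)) :
    Continuous (rho F r p) := by
  have hmem : ∀ θ, circleMap p r θ ∈ sphere p r := fun θ => circleMap_mem_sphere p hr θ
  have hfc : Continuous (fun θ : ℝ => F (circleMap p r θ)) :=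
    hF.comp_continuous (continuous_circleMap p r) hmem
  have hcm : Continuous (fun θ : ℝ => circleMap p r θ) := continuous_circleMap p r
  have hdc : Continuous (fun θ : ℝ => deriv (circleMap p r) θ) := by
    simp only [deriv_circleMap]
    exact (continuous_circleMap 0 r).mul continuous_const
  unfold rho circleIntegral
  apply continuous_const.mul
  apply intervalIntegral.continuous_parametric_intervalIntegral_of_continuous'
  simp only [Function.uncurry_def, smul_eq_mul]
  exact (hdc.comp continuous_snd).mul ((hfc.comp continuous_snd).mul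
    (Complex.continuous_exp.comp ((hcm.comp continuous_snd).mul (Complex.continuous_ofReal.comp continuous_fst))))

/-! ### coefficient sums -/

/-- the sum of the coefficients `a n` with `1 ≤ n ≤ e^u` -/
noncomputable def SS (a : ℕ → ℂ) (u : ℝ) : ℂ := ∑ k ∈ Finset.Icc 1 ⌊Real.exp u⌋₊, a k

lemma SS_meas (a : ℕ → ℂ) : Measurable (SS a) := by
  unfold SS
  exact (measurable_from_nat (f := fun n : ℕ => ∑ k ∈ Finset.Icc 1 n, a k)).comp (Nat.measurable_floor.comp Real.measurable_exp)

lemma SS_neg (a : ℕ → ℂ) {u : ℝ} (hu : u < 0) : SS a u = 0 := by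
  unfold SS
  have : ⌊Real.exp u⌋₊ = 0 := by
    rw [Nat.floor_eq_zero]
    rw [Real.exp_lt_one_iff]; exact hu
  rw [this]
  simp

lemma sum_bound {a : ℕ → ℂ} (ha : LSeriesSummable a (3 / 2)) :
    ∃ M : ℝ, 0 ≤ M ∧ ∀ n : ℕ, ‖∑ k ∈ Finset.Icc 1 n, a k‖ ≤ M * (n : ℝ) ^ (3 / 2 : ℝ) := by
  have hs : Summable (fun n => ‖LSeries.term a (3 / 2) n‖) := ha.norm
  refine ⟨∑' n, ‖LSeries.term a (3 / 2) n‖, tsum_nonneg fun _ => norm_nonneg _, fun n => ?_⟩
  calc ‖∑ k ∈ Finset.Icc 1 n, a k‖ ≤ ∑ k ∈ Finset.Icc 1 n, ‖a k‖ := norm_sum_le _ _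
    _ ≤ ∑ k ∈ Finset.Icc 1 n, ‖LSeries.term a (3 / 2) k‖ * (n : ℝ) ^ (3 / 2 : ℝ) := by
        apply Finset.sum_le_sum
        intro k hk
        obtain ⟨hk1, hk2⟩ := Finset.mem_Icc.1 hk
        have hk0 : k ≠ 0 := by omega
        rw [LSeries.norm_term_eq, if_neg hk0]
        have h1 : ((3 / 2 : ℂ)).re = 3 / 2 := by norm_num
        rw [h1]
        have h2 : (0:ℝ) < (k : ℝ) ^ (3 / 2 : ℝ) := Real.rpow_pos_of_pos (by exact_mod_cast hk1) _
        have h3 : (k : ℝ) ^ (3 / 2 : ℝ) ≤ (n : ℝ) ^ (3 / 2 : ℝ) :=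
          Real.rpow_le_rpow (Nat.cast_nonneg _) (by exact_mod_cast hk2) (by norm_num)
        rw [div_mul_eq_mul_div, le_div_iff₀ h2]
        exact mul_le_mul_of_nonneg_left h3 (norm_nonneg _)
    _ = (∑ k ∈ Finset.Icc 1 n, ‖LSeries.term a (3 / 2) k‖) * (n : ℝ) ^ (3 / 2 : ℝ) := by rw [Finset.sum_mul]
    _ ≤ _ := by
        gcongr
        exact hs.sum_le_tsum _ (fun _ _ => norm_nonneg _)

lemma SS_bound {a : ℕ → ℂ} (ha : LSeriesSummable a (3 / 2)) :
    ∃ M : ℝ, 0 ≤ M ∧ ∀ u : ℝ, ‖SS a u‖ ≤ M * Real.exp (3 / 2 * u) := by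
  obtain ⟨M, hM, h⟩ := sum_bound ha
  refine ⟨M, hM, fun u => (h _).trans ?_⟩
  have h1 : ((⌊Real.exp u⌋₊ : ℕ) : ℝ) ^ (3 / 2 : ℝ) ≤ (Real.exp u) ^ (3 / 2 : ℝ) :=
    Real.rpow_le_rpow (Nat.cast_nonneg _) (Nat.floor_le (Real.exp_pos u).le) (by norm_num)
  rw [← Real.exp_mul] at h1
  calc M * ((⌊Real.exp u⌋₊ : ℕ) : ℝ) ^ (3 / 2 : ℝ) ≤ M * Real.exp (u * (3 / 2)) := by gcongr
    _ = _ := by ring_nf

/-- transform of the coefficient sums -/
lemma SS_trans {a : ℕ → ℂ} (ha : LSeriesSummable a (3 / 2)) {w : ℂ} (hw : w.re = 2) :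
    IntegrableOn (fun u : ℝ => SS a u * cexp (-(w * u))) (Set.Ioi 0) ∧
      ∫ u in Set.Ioi (0:ℝ), SS a u * cexp (-(w * u)) = LSeries a w / w := by
  constructor
  · obtain ⟨M, hM, h⟩ := SS_bound ha
    have h1 : IntegrableOn (fun u : ℝ => M * Real.exp (-(1 / 2) * u)) (Set.Ioi 0) :=
      (integrableOn_exp_mul_Ioi (by norm_num) 0).const_mul M
    refine h1.mono' ?_ (Eventually.of_forall fun u => ?_)
    · apply Measurable.aestronglyMeasurable
      have := SS_meas a
      fun_prop
    · rw [norm_mul, Complex.norm_exp]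
      have h2 : (-(w * (u : ℂ))).re = -(2 * u) := by
        rw [Complex.neg_re, mul_comm, Complex.re_ofReal_mul, hw]; ring
      rw [h2]
      calc ‖SS a u‖ * Real.exp (-(2 * u)) ≤ M * Real.exp (3 / 2 * u) * Real.exp (-(2 * u)) := by
            gcongr; exact h u
        _ = _ := by rw [mul_assoc, ← Real.exp_add]; congr 2; ring
  · obtain ⟨M, hM, h⟩ := sum_bound ha
    have hsum : LSeriesSummable a w := ha.of_re_le_re (by rw [hw]; norm_num)
    have h1 := LSeries_eq_mul_integral a (r := 3 / 2) (by norm_num) (s := w) (by rw [hw]; norm_num) hsum (by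
      apply Asymptotics.IsBigO.of_bound M
      refine Eventually.of_forall fun n => ?_
      rw [Real.norm_of_nonneg (Real.rpow_nonneg (Nat.cast_nonneg _) _)]
      exact h n)
    have hw0 : w ≠ 0 := by
      intro h; rw [h] at hw; simp at hw
    rw [h1, mul_div_cancel_left₀ _ hw0]
    have h2 := integral_comp_exp_Ioi (fun t : ℝ => (∑ k ∈ Finset.Icc 1 ⌊t⌋₊, a k) * (t : ℂ) ^ (-(w + 1))) 0
    rw [Real.exp_zero] at h2
    rw [← h2]
    apply setIntegral_congr_fun measurableSet_Ioi
    intro u _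
    simp only
    have hexp : ((Real.exp u : ℝ) : ℂ) ^ (-(w + 1)) = cexp (-(w * u)) * cexp (-(u : ℂ)) := by
      rw [Complex.cpow_def_of_ne_zero (by exact_mod_cast (Real.exp_pos u).ne'), ← Complex.ofReal_log (Real.exp_pos u).le,
        Real.log_exp, ← Complex.exp_add]
      congr 1; ring
    rw [hexp, Complex.real_smul, Complex.ofReal_exp]
    unfold SS
    have h3 : cexp (u : ℂ) * cexp (-(u : ℂ)) = 1 := by rw [← Complex.exp_add]; simp
    linear_combination (-(∑ k ∈ Finset.Icc 1 ⌊Real.exp u⌋₊, a k) * cexp (-(w * u))) * h3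

/-- the coefficient sums are continuous almost everywhere -/
lemma SS_ae (a : ℕ → ℂ) : ∀ᵐ u : ℝ, ContinuousAt (SS a) u := by
  have hc : (Set.range (fun n : ℕ => Real.log n)).Countable := Set.countable_range _
  filter_upwards [hc.ae_notMem volume] with u hu
  have h1 : ∀ n : ℕ, Real.exp u ≠ n := by
    intro n h
    apply hu
    exact ⟨n, by simp only; rw [← h, Real.log_exp]⟩
  set m := ⌊Real.exp u⌋₊ with hm
  have h2 : (m : ℝ) < Real.exp u := lt_of_le_of_ne (Nat.floor_le (Real.exp_pos u).le) (h1 m).symm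
  have h3 : Real.exp u < m + 1 := Nat.lt_floor_add_one _
  have h4 : ∀ᶠ v in 𝓝 u, SS a v = SS a u := by
    have a1 : ∀ᶠ v in 𝓝 u, (m : ℝ) < Real.exp v := continuousAt_const.eventually_lt Real.continuous_exp.continuousAt h2
    have a2 : ∀ᶠ v in 𝓝 u, Real.exp v < m + 1 := Real.continuous_exp.continuousAt.eventually_lt continuousAt_const h3
    filter_upwards [a1, a2] with v hv1 hv2
    unfold SS
    have : ⌊Real.exp v⌋₊ = m := (Nat.floor_eq_iff (Real.exp_pos v).le).2 ⟨hv1.le, hv2⟩
    rw [this, ← hm]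
  exact (continuousAt_const (y := SS a u)).congr (by filter_upwards [h4] with v hv; exact hv.symm)

end Pool.Agent.N798.V
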