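import Pool.Agent.N798.V2
import Pool.Agent.N798.V4

set_option autoImplicit false

/-! The Parseval identity for the remainder of a coefficient sum on short multiplicative intervals. -/

namespace Pool.Agent.N798.V

open Complex MeasureTheory Filter Topology Metric
open scoped ENNReal Real

/-- the remainder, as a function of `u = log x` -/
noncomputable def Del (a : ℕ → ℂ) (F : ℂ → ℂ) (P : Finset ℂ) (r : ℝ) (u : ℝ) : ℂ :=
  SS a u - ∑ p ∈ P, rho F r p u

/-- shift of a Laplace transform -/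
lemma shift_trans {f : ℝ → ℂ} {w : ℂ} (hf : Integrable (fun u : ℝ => f u * cexp (-(w * u)))) (h : ℝ) :
    Integrable (fun u : ℝ => f (u + h) * cexp (-(w * u))) ∧
      ∫ u : ℝ, f (u + h) * cexp (-(w * u)) = cexp (w * h) * ∫ u : ℝ, f u * cexp (-(w * u)) := by
  have e : ∀ u : ℝ, f (u + h) * cexp (-(w * u)) = cexp (w * h) * (f (u + h) * cexp (-(w * (u + h : ℝ)))) := by
    intro u
    rw [mul_left_comm, ← Complex.exp_add]
    congr 2
    push_cast; ring
  simp only [e]
  refine ⟨(hf.comp_add_right h).const_mul _, ?_⟩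
  rw [integral_const_mul]
  congr 1
  exact integral_add_right_eq_self (fun u : ℝ => f u * cexp (-(w * u))) h

theorem parseval {a : ℕ → ℂ} {F : ℂ → ℂ} {P : Finset ℂ} {r K : ℝ} {A : ℕ} (hr : 0 < r) (hr2 : r < 1 / 2)
    (hP : ∀ p ∈ P, p.re = 1) (hsep : ∀ p ∈ P, ∀ q ∈ P, p ≠ q → 2 * r < ‖p - q‖)
    (ha : LSeriesSummable a (3 / 2))
    (hF : ∀ z : ℂ, 1 / 2 ≤ z.re → z.re ≤ 2 → z ∉ P → DifferentiableAt ℂ F z)
    (hF2 : ∀ w : ℂ, w.re = 2 → F w = LSeries a w / w)
    (hK : ∀ z : ℂ, 1 / 2 ≤ z.re → z.re ≤ 2 → (∀ p ∈ P, r < ‖z - p‖) → ‖F z‖ ≤ K * (1 + |z.im|) ^ A) (h : ℝ) :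
    ∫⁻ u, ENNReal.ofReal (Real.exp (-u)) * ‖Del a F P r (u + h) - Del a F P r u‖ₑ ^ 2 =
      ENNReal.ofReal (1 / (2 * π)) * ∫⁻ t : ℝ,
        ‖(cexp ((((1 / 2 : ℝ) : ℂ) + t * I) * h) - 1) * F (((1 / 2 : ℝ) : ℂ) + t * I)‖ₑ ^ 2 := by
  classical
  obtain ⟨R, hrR, hR2, hsepR⟩ := exists_radius hsep hr2
  have hball : ∀ p ∈ P, ∀ z ∈ closedBall p R, 1 / 2 ≤ z.re ∧ z.re ≤ 2 := by
    intro p hp z hz
    rw [mem_closedBall, dist_eq_norm] at hz
    have h1 := (Complex.abs_re_le_norm (z - p)).trans hz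
    rw [Complex.sub_re, hP p hp, abs_le] at h1
    constructor <;> linarith [h1.1, h1.2]
  have hFR : ∀ p ∈ P, ∀ z ∈ closedBall p R, z ≠ p → DifferentiableAt ℂ F z := by
    intro p hp z hz hzp
    obtain ⟨h1, h2⟩ := hball p hp z hz
    apply hF z h1 h2
    intro hzP
    have h3 := hsepR p hp z hzP (Ne.symm hzp)
    rw [mem_closedBall, dist_eq_norm, norm_sub_rev] at hz
    linarith
  have hFc : ∀ p ∈ P, ContinuousOn F (sphere p r) := by
    intro p hp z hz
    refine (hFR p hp z ?_ ?_).continuousAt.continuousWithinAt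
    · rw [mem_sphere] at hz; rw [mem_closedBall, hz]; exact hrR.le
    · intro h
      rw [mem_sphere, h, dist_self] at hz
      linarith
  obtain ⟨K', hK'⟩ := Reg_bound (S := {z : ℂ | 1 / 2 ≤ z.re ∧ z.re ≤ 2}) (A := A) hr hrR hsepR hFR
    (fun z hz hzp => hK z hz.1 hz.2 hzp)
  have hdist : ∀ z : ℂ, z.re = 1 / 2 ∨ z.re = 2 → ∀ p ∈ P, r < ‖z - p‖ := by
    intro z hz p hp
    have h1 := Complex.abs_re_le_norm (z - p)
    rw [Complex.sub_re, hP p hp] at h1
    refine lt_of_lt_of_le ?_ h1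
    rcases hz with hz | hz
    · rw [hz, abs_of_nonpos (by norm_num)]; linarith
    · rw [hz, abs_of_nonneg (by norm_num)]; linarith
  have hK'0 : 0 ≤ K' := by
    have := (norm_nonneg _).trans (hK' 1 ⟨by norm_num, by norm_num⟩)
    simpa using this
  -- the two parts
  set Dl := Del a F P r with hDl
  set f₁ : ℝ → ℂ := (Set.Ici (0:ℝ)).indicator Dl with hf₁
  set f₂ : ℝ → ℂ := (Set.Iio (0:ℝ)).indicator Dl with hf₂
  have hsum : ∀ u, f₁ u + f₂ u = Dl u := by
    intro u
    simp only [hf₁, hf₂]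
    by_cases hu : 0 ≤ u
    · rw [Set.indicator_of_mem (Set.mem_Ici.2 hu), Set.indicator_of_notMem (by simpa using hu), add_zero]
    · rw [Set.indicator_of_notMem (by simpa using hu), Set.indicator_of_mem (Set.mem_Iio.2 (not_le.1 hu)), zero_add]
  have mRho : ∀ p ∈ P, Continuous (rho F r p) := fun p hp => rho_continuous hr.le (hFc p hp)
  have cSum : Continuous (fun u => ∑ p ∈ P, rho F r p u) := continuous_finsetSum _ mRho
  have mDl : Measurable Dl := (SS_meas a).sub cSum.measurable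
  have mf₁ : Measurable f₁ := mDl.indicator measurableSet_Ici
  have mf₂ : Measurable f₂ := mDl.indicator measurableSet_Iio
  -- transforms
  have T₁ : ∀ w : ℂ, w.re = 2 → Integrable (fun u : ℝ => f₁ u * cexp (-(w * u))) ∧
      ∫ u : ℝ, f₁ u * cexp (-(w * u)) = Reg F P r R w := by
    intro w hw
    have e : (fun u : ℝ => f₁ u * cexp (-(w * u))) = (Set.Ici (0:ℝ)).indicator (fun u : ℝ => Dl u * cexp (-(w * u))) := by
      funext u
      simp only [hf₁, Set.indicator]
      split_ifs <;> simp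
    have h1 := SS_trans ha hw
    have h2 : ∀ p ∈ P, _ := fun p hp => rho_right hr.le hr2 (hP p hp) hw (hFc p hp)
    have h3 : (fun u : ℝ => Dl u * cexp (-(w * u))) =
        fun u : ℝ => SS a u * cexp (-(w * u)) - ∑ p ∈ P, rho F r p u * cexp (-(w * u)) := by
      funext u
      simp only [hDl, Del]
      rw [sub_mul, Finset.sum_mul]
    have h4 : IntegrableOn (fun u : ℝ => ∑ p ∈ P, rho F r p u * cexp (-(w * u))) (Set.Ioi 0) :=
      integrable_finsetSum _ fun p hp => (h2 p hp).1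
    rw [e, h3, integrable_indicator_iff measurableSet_Ici, integral_indicator measurableSet_Ici,
      integral_Ici_eq_integral_Ioi, integrableOn_Ici_iff_integrableOn_Ioi]
    refine ⟨h1.1.sub h4, ?_⟩
    rw [integral_sub h1.1 h4, h1.2, integral_finsetSum _ (fun p hp => (h2 p hp).1), Reg_off (hdist w (Or.inr hw)),
      hF2 w hw]
    congr 1
    exact Finset.sum_congr rfl fun p hp => (h2 p hp).2
  have T₂ : ∀ w : ℂ, w.re = 1 / 2 → Integrable (fun u : ℝ => f₂ u * cexp (-(w * u))) ∧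
      ∫ u : ℝ, f₂ u * cexp (-(w * u)) = ∑ p ∈ P, Cau F p r w := by
    intro w hw
    have e : (fun u : ℝ => f₂ u * cexp (-(w * u))) =
        (Set.Iio (0:ℝ)).indicator (fun u : ℝ => -∑ p ∈ P, rho F r p u * cexp (-(w * u))) := by
      funext u
      simp only [hf₂, Set.indicator]
      split_ifs with hu
      · simp only [hDl, Del, SS_neg a hu]
        rw [sub_mul, Finset.sum_mul, zero_mul, zero_sub]
      · simp
    have h2 : ∀ p ∈ P, _ := fun p hp => rho_left hr.le hr2 (hP p hp) hw (hFc p hp)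
    have h4 : IntegrableOn (fun u : ℝ => ∑ p ∈ P, rho F r p u * cexp (-(w * u))) (Set.Iic 0) :=
      integrable_finsetSum _ fun p hp => (h2 p hp).1
    rw [e, integrable_indicator_iff measurableSet_Iio, integral_indicator measurableSet_Iio,
      ← integral_Iic_eq_integral_Iio, ← integrableOn_Iic_iff_integrableOn_Iio]
    refine ⟨h4.neg, ?_⟩
    rw [integral_neg, integral_finsetSum _ (fun p hp => (h2 p hp).1), ← Finset.sum_neg_distrib]
    refine Finset.sum_congr rfl fun p hp => ?_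
    rw [(h2 p hp).2, neg_neg]
  -- growth of the remainder
  obtain ⟨C, hC⟩ : ∃ C : ℝ, ∀ u, ‖Dl u‖ ≤ C * Real.exp (2 * |u|) := by
    have h1 : ∀ p ∈ P, ∃ C : ℝ, ∀ u, ‖rho F r p u‖ ≤ C * Real.exp (2 * |u|) :=
      fun p hp => rho_growth hr.le hr2 (hP p hp) (hFc p hp)
    choose! C hC using h1
    obtain ⟨M, hM, h2⟩ := SS_bound ha
    refine ⟨M + ∑ p ∈ P, C p, fun u => ?_⟩
    simp only [hDl, Del]
    rw [add_mul, Finset.sum_mul]
    refine (norm_sub_le _ _).trans (add_le_add ?_ ?_)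
    · refine (h2 u).trans (mul_le_mul_of_nonneg_left (Real.exp_le_exp.2 ?_) hM)
      linarith [le_abs_self u, abs_nonneg u]
    · exact (norm_sum_le _ _).trans (Finset.sum_le_sum fun p hp => hC p hp u)
  have hC0 : 0 ≤ C := by
    have := (norm_nonneg _).trans (hC 0)
    simpa using this
  -- the differences
  set D₁ : ℝ → ℂ := fun u => f₁ (u + h) - f₁ u with hD₁
  set D₂ : ℝ → ℂ := fun u => f₂ (u + h) - f₂ u with hD₂
  have hD : ∀ u, D₁ u + D₂ u = Dl (u + h) - Dl u := by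
    intro u
    rw [← hsum (u + h), ← hsum u]
    simp only [hD₁, hD₂]
    ring
  have mD₁ : Measurable D₁ := (mf₁.comp (measurable_id.add_const h)).sub mf₁
  have mD₂ : Measurable D₂ := (mf₂.comp (measurable_id.add_const h)).sub mf₂
  have U₁ : ∀ w : ℂ, w.re = 2 → Integrable (fun u : ℝ => D₁ u * cexp (-(w * u))) ∧
      ∫ u : ℝ, D₁ u * cexp (-(w * u)) = (cexp (w * h) - 1) * Reg F P r R w := by
    intro w hw
    obtain ⟨i1, i2⟩ := T₁ w hw
    obtain ⟨j1, j2⟩ := shift_trans i1 h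
    have e : (fun u : ℝ => D₁ u * cexp (-(w * u))) =
        fun u : ℝ => f₁ (u + h) * cexp (-(w * u)) - f₁ u * cexp (-(w * u)) := by
      funext u; simp only [hD₁]; ring
    rw [e]
    refine ⟨j1.sub i1, ?_⟩
    rw [integral_sub j1 i1, j2, i2]; ring
  have U₂ : ∀ w : ℂ, w.re = 1 / 2 → Integrable (fun u : ℝ => D₂ u * cexp (-(w * u))) ∧
      ∫ u : ℝ, D₂ u * cexp (-(w * u)) = (cexp (w * h) - 1) * ∑ p ∈ P, Cau F p r w := by
    intro w hw
    obtain ⟨i1, i2⟩ := T₂ w hw
    obtain ⟨j1, j2⟩ := shift_trans i1 h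
    have e : (fun u : ℝ => D₂ u * cexp (-(w * u))) =
        fun u : ℝ => f₂ (u + h) * cexp (-(w * u)) - f₂ u * cexp (-(w * u)) := by
      funext u; simp only [hD₂]; ring
    rw [e]
    refine ⟨j1.sub i1, ?_⟩
    rw [integral_sub j1 i1, j2, i2]; ring
  have hnorm : ∀ (σ : ℝ) (g : ℝ → ℂ), Integrable (fun u : ℝ => g u * cexp (-((σ : ℂ) * u))) →
      Integrable (fun u : ℝ => ‖g u‖ * Real.exp (-(σ * u))) := by
    intro σ g hg
    refine hg.norm.congr (Eventually.of_forall fun u => ?_)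
    simp only
    rw [norm_mul, ← Complex.ofReal_mul, ← Complex.ofReal_neg, Complex.norm_exp_ofReal]
  have hre : ∀ (σ t : ℝ), (((σ : ℝ) : ℂ) + t * I).re = σ := by intro σ t; simp
  have hcont2 : Continuous (fun t : ℝ => (cexp ((((1 / 2 : ℝ) : ℂ) + t * I) * h) - 1) *
      ∑ p ∈ P, Cau F p r (((1 / 2 : ℝ) : ℂ) + t * I)) := by
    apply Continuous.mul (by fun_prop)
    refine continuous_finsetSum _ fun p hp => ?_
    rw [continuous_iff_continuousAt]
    intro t
    have h1 : ContinuousAt (Cau F p r) (((1 / 2 : ℝ) : ℂ) + t * I) :=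
      (Cau_diff hr.le (hFc p hp) (hdist _ (Or.inl (hre _ _)) p hp).ne').continuousAt
    exact ContinuousAt.comp (g := Cau F p r) (f := fun t : ℝ => ((1 / 2 : ℝ) : ℂ) + t * I) h1 (by fun_prop)
  have key := engine (D₁ := D₁) (D₂ := D₂) (G := fun z => (cexp (z * h) - 1) * Reg F P r R z)
    (g₂ := fun t => (cexp ((((1 / 2 : ℝ) : ℂ) + t * I) * h) - 1) * ∑ p ∈ P, Cau F p r (((1 / 2 : ℝ) : ℂ) + t * I))
    (C := C * Real.exp (2 * |h|) + C) (b := 2) (K := (Real.exp (2 * |h|) + 1) * K') (A := A) mD₁ mD₂ (by norm_num)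
    ?_ ?_ ?_ ?_ ?_ ?_ hcont2 ?_ ?_
  · simp only [hD] at key
    rw [key]
    congr 1
    apply lintegral_congr
    intro t
    have h1 := Reg_off (F := F) (P := P) (r := r) (R := R) (w := ((1 / 2 : ℝ) : ℂ) + t * I) (hdist _ (Or.inl (hre _ _)))
    simp only [h1]
    congr 2
    ring
  · intro u
    rw [hD]
    refine (norm_sub_le _ _).trans ?_
    have h1 := hC (u + h)
    have h2 := hC u
    have h3 : Real.exp (2 * |u + h|) ≤ Real.exp (2 * |h|) * Real.exp (2 * |u|) := by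
      rw [← Real.exp_add]
      apply Real.exp_le_exp.2
      linarith [abs_add_le u h]
    nlinarith [mul_le_mul_of_nonneg_left h3 hC0]
  · simp only [hD]
    have h1 : ∀ᵐ u : ℝ, ContinuousAt Dl u := by
      filter_upwards [SS_ae a] with u hu
      exact hu.sub cSum.continuousAt
    have h2 : ∀ᵐ u : ℝ, ContinuousAt Dl (u + h) := by
      have hq : Measure.QuasiMeasurePreserving (fun u : ℝ => u + h) volume volume :=
        (measurePreserving_add_right volume h).quasiMeasurePreserving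
      exact hq.ae h1
    filter_upwards [h1, h2] with u hu1 hu2
    have h3 : ContinuousAt (fun u => Dl (u + h)) u :=
      ContinuousAt.comp (g := Dl) (f := fun u : ℝ => u + h) hu2 (by fun_prop)
    exact h3.sub hu1
  · apply hnorm
    exact (U₁ ((2:ℝ) : ℂ) (by simp)).1
  · apply hnorm
    exact (U₂ (((1 / 2 : ℝ)) : ℂ) (by simp)).1
  · intro t
    exact (U₁ _ (hre _ _)).2
  · intro t
    exact (U₂ _ (hre _ _)).2
  · intro z h1 h2
    exact ((by fun_prop : DifferentiableAt ℂ (fun z : ℂ => cexp (z * h) - 1) z)).mul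
      (Reg_diff hr hrR hsepR hFR (hF z h1 h2))
  · intro z h1 h2
    rw [norm_mul, mul_assoc]
    apply mul_le_mul _ (hK' z ⟨h1, h2⟩) (norm_nonneg _) (by positivity)
    refine (norm_sub_le _ _).trans ?_
    rw [norm_one, Complex.norm_exp, mul_comm, Complex.re_ofReal_mul]
    have h3 : Real.exp (h * z.re) ≤ Real.exp (2 * |h|) := by
      apply Real.exp_le_exp.2
      calc h * z.re ≤ |h| * z.re := mul_le_mul_of_nonneg_right (le_abs_self h) (by linarith)
        _ ≤ |h| * 2 := mul_le_mul_of_nonneg_left h2 (abs_nonneg h)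
        _ = _ := by ring
    linarith

end Pool.Agent.N798.V
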