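import Pool.Agent.N798.P1
import Pool.Agent.N798.V5

set_option autoImplicit false

/-! Weighted coefficient sums `Σ_{n ≤ e^u} a(n) ℓ(u - log n)`: growth, measurability, continuity almost everywhere and
Laplace transform. -/

namespace Pool.Agent.N798.P

open Complex MeasureTheory Filter Topology
open Pool.Agent.N798.V
open scoped ENNReal Real

/-- the weighted sum of the coefficients `a n` with `1 ≤ n ≤ e^u` -/
noncomputable def WS (a : ℕ → ℂ) (ℓ : ℝ → ℂ) (u : ℝ) : ℂ :=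
  ∑ k ∈ Finset.Icc 1 ⌊Real.exp u⌋₊, a k * ℓ (u - Real.log k)

lemma WS_meas (a : ℕ → ℂ) {ℓ : ℝ → ℂ} (hℓ : Continuous ℓ) : Measurable (WS a ℓ) := by
  have h1 : Measurable (fun p : ℕ × ℝ => ∑ k ∈ Finset.Icc 1 p.1, a k * ℓ (p.2 - Real.log k)) := by
    apply measurable_from_prod_countable_right
    intro m
    have : Continuous (fun u : ℝ => ∑ k ∈ Finset.Icc 1 m, a k * ℓ (u - Real.log k)) := by fun_prop
    exact this.measurable
  exact h1.comp ((Nat.measurable_floor.comp Real.measurable_exp).prodMk measurable_id)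

lemma WS_neg (a : ℕ → ℂ) (ℓ : ℝ → ℂ) {u : ℝ} (hu : u < 0) : WS a ℓ u = 0 := by
  unfold WS
  have : ⌊Real.exp u⌋₊ = 0 := by
    rw [Nat.floor_eq_zero]
    rw [Real.exp_lt_one_iff]; exact hu
  rw [this]
  simp

lemma WS_bound {a : ℕ → ℂ} (ha : LSeriesSummable a (3 / 2)) {ℓ : ℝ → ℂ} {B : ℝ} (hB0 : 0 ≤ B)
    (hB : ∀ v, 0 ≤ v → ‖ℓ v‖ ≤ B * Real.exp (3 / 2 * v)) :
    ∃ M : ℝ, 0 ≤ M ∧ ∀ u : ℝ, ‖WS a ℓ u‖ ≤ M * Real.exp (3 / 2 * u) := by
  have hs : Summable (fun n => ‖LSeries.term a (3 / 2) n‖) := ha.norm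
  refine ⟨B * ∑' n, ‖LSeries.term a (3 / 2) n‖, mul_nonneg hB0 (tsum_nonneg fun _ => norm_nonneg _), fun u => ?_⟩
  calc ‖WS a ℓ u‖ ≤ ∑ k ∈ Finset.Icc 1 ⌊Real.exp u⌋₊, ‖a k * ℓ (u - Real.log k)‖ := norm_sum_le _ _
    _ ≤ ∑ k ∈ Finset.Icc 1 ⌊Real.exp u⌋₊, ‖LSeries.term a (3 / 2) k‖ * (B * Real.exp (3 / 2 * u)) := by
        apply Finset.sum_le_sum
        intro k hk
        obtain ⟨hk1, hk2⟩ := Finset.mem_Icc.1 hk
        have hk0 : k ≠ 0 := by omega
        have hkpos : (0:ℝ) < k := by exact_mod_cast hk1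
        have hle : (k : ℝ) ≤ Real.exp u := (Nat.le_floor_iff (Real.exp_pos u).le).1 hk2
        have hlog : Real.log k ≤ u := (Real.log_le_iff_le_exp hkpos).2 hle
        rw [LSeries.norm_term_eq, if_neg hk0]
        have h1 : ((3 / 2 : ℂ)).re = 3 / 2 := by norm_num
        rw [h1, norm_mul]
        have h2 : (k : ℝ) ^ (3 / 2 : ℝ) = Real.exp (3 / 2 * Real.log k) := by
          rw [Real.rpow_def_of_pos hkpos]; ring_nf
        rw [h2, div_mul_eq_mul_div, le_div_iff₀ (Real.exp_pos _)]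
        calc ‖a k‖ * ‖ℓ (u - Real.log k)‖ * Real.exp (3 / 2 * Real.log k)
            ≤ ‖a k‖ * (B * Real.exp (3 / 2 * (u - Real.log k))) * Real.exp (3 / 2 * Real.log k) := by
              gcongr
              exact hB _ (by linarith)
          _ = ‖a k‖ * B * (Real.exp (3 / 2 * (u - Real.log k)) * Real.exp (3 / 2 * Real.log k)) := by ring
          _ = _ := by rw [← Real.exp_add]; ring_nf
    _ = (∑ k ∈ Finset.Icc 1 ⌊Real.exp u⌋₊, ‖LSeries.term a (3 / 2) k‖) * (B * Real.exp (3 / 2 * u)) := by rw [Finset.sum_mul]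
    _ ≤ (∑' n, ‖LSeries.term a (3 / 2) n‖) * (B * Real.exp (3 / 2 * u)) := by
        gcongr
        exact hs.sum_le_tsum _ (fun _ _ => norm_nonneg _)
    _ = _ := by ring

/-- the weighted sums are continuous almost everywhere -/
lemma WS_ae (a : ℕ → ℂ) {ℓ : ℝ → ℂ} (hℓ : Continuous ℓ) : ∀ᵐ u : ℝ, ContinuousAt (WS a ℓ) u := by
  have hc : (Set.range (fun n : ℕ => Real.log n)).Countable := Set.countable_range _
  filter_upwards [hc.ae_notMem volume] with u hu
  have h1 : ∀ n : ℕ, Real.exp u ≠ n := by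
    intro n h
    apply hu
    exact ⟨n, by simp only; rw [← h, Real.log_exp]⟩
  set m := ⌊Real.exp u⌋₊ with hm
  have h2 : (m : ℝ) < Real.exp u := lt_of_le_of_ne (Nat.floor_le (Real.exp_pos u).le) (h1 m).symm
  have h3 : Real.exp u < m + 1 := Nat.lt_floor_add_one _
  have h4 : ∀ᶠ v in 𝓝 u, (∑ k ∈ Finset.Icc 1 m, a k * ℓ (v - Real.log k)) = WS a ℓ v := by
    have a1 : ∀ᶠ v in 𝓝 u, (m : ℝ) < Real.exp v := continuousAt_const.eventually_lt Real.continuous_exp.continuousAt h2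
    have a2 : ∀ᶠ v in 𝓝 u, Real.exp v < m + 1 := Real.continuous_exp.continuousAt.eventually_lt continuousAt_const h3
    filter_upwards [a1, a2] with v hv1 hv2
    unfold WS
    have : ⌊Real.exp v⌋₊ = m := (Nat.floor_eq_iff (Real.exp_pos v).le).2 ⟨hv1.le, hv2⟩
    rw [this]
  have h5 : Continuous (fun v : ℝ => ∑ k ∈ Finset.Icc 1 m, a k * ℓ (v - Real.log k)) := by fun_prop
  exact h5.continuousAt.congr h4

/-- **Laplace transform of the weighted sums.** -/
lemma WS_trans {a : ℕ → ℂ} {ℓ : ℝ → ℂ} {w : ℂ} (ha : LSeriesSummable a w)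
    (hi : IntegrableOn (fun v : ℝ => ℓ v * cexp (-(w * v))) (Set.Ici 0)) :
    ∫ u : ℝ, WS a ℓ u * cexp (-(w * u)) = LSeries a w * ∫ v in Set.Ici (0:ℝ), ℓ v * cexp (-(w * v)) := by
  set Ψ : ℝ → ℂ := (Set.Ici (0:ℝ)).indicator (fun v : ℝ => ℓ v * cexp (-(w * v))) with hΨ
  have iΨ : Integrable Ψ := (integrable_indicator_iff measurableSet_Ici).2 hi
  set F : ℕ → ℝ → ℂ := fun n u => LSeries.term a w n * Ψ (u - Real.log n) with hF
  have hint : ∀ n, Integrable (F n) := fun n => (iΨ.comp_sub_right _).const_mul _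
  have hnorm : ∀ n, ∫ u, ‖F n u‖ = ‖LSeries.term a w n‖ * ∫ v, ‖Ψ v‖ := by
    intro n
    simp only [hF, norm_mul]
    rw [integral_const_mul, integral_sub_right_eq_self (fun v => ‖Ψ v‖)]
  have hsum : Summable (fun n => ∫ u, ‖F n u‖) := by
    simp only [hnorm]
    exact (Summable.norm ha).mul_right _
  have h1 := hasSum_integral_of_summable_integral_norm hint hsum
  have h2 : ∀ n, ∫ u, F n u = LSeries.term a w n * ∫ v, Ψ v := by
    intro n
    simp only [hF]
    rw [integral_const_mul, integral_sub_right_eq_self (fun v => Ψ v)]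
  have h3 : ∀ u : ℝ, HasSum (fun n => F n u) (WS a ℓ u * cexp (-(w * u))) := by
    intro u
    have h4 : WS a ℓ u * cexp (-(w * u)) = ∑ n ∈ Finset.Icc 1 ⌊Real.exp u⌋₊, F n u := by
      unfold WS
      rw [Finset.sum_mul]
      apply Finset.sum_congr rfl
      intro n hn
      obtain ⟨hn1, hn2⟩ := Finset.mem_Icc.1 hn
      have hn0 : n ≠ 0 := by omega
      have hnpos : (0:ℝ) < n := by exact_mod_cast hn1
      have hle : (n : ℝ) ≤ Real.exp u := (Nat.le_floor_iff (Real.exp_pos u).le).1 hn2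
      have hlog : Real.log n ≤ u := (Real.log_le_iff_le_exp hnpos).2 hle
      simp only [hF, hΨ]
      rw [Set.indicator_of_mem (show u - Real.log n ∈ Set.Ici (0:ℝ) from sub_nonneg.2 hlog), LSeries.term_of_ne_zero hn0,
        Complex.cpow_def_of_ne_zero (by exact_mod_cast hn0), ← Complex.natCast_log, div_eq_mul_inv, ← Complex.exp_neg]
      have h5 : cexp (-(w * u)) = cexp (-(Real.log n * w)) * cexp (-(w * ((u - Real.log n : ℝ) : ℂ))) := by
        rw [← Complex.exp_add]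
        congr 1
        push_cast
        ring
      rw [h5]
      ring
    rw [h4]
    apply hasSum_sum_of_ne_finset_zero
    intro n hn
    simp only [hF]
    by_cases hn0 : n = 0
    · rw [hn0, LSeries.term_zero, zero_mul]
    · have hnpos : (0:ℝ) < n := by exact_mod_cast Nat.pos_of_ne_zero hn0
      have h5 : ¬ (u - Real.log n ∈ Set.Ici (0:ℝ)) := by
        intro h
        apply hn
        rw [Finset.mem_Icc]
        refine ⟨Nat.pos_of_ne_zero hn0, ?_⟩
        rw [Nat.le_floor_iff (Real.exp_pos u).le]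
        exact (Real.log_le_iff_le_exp hnpos).1 (sub_nonneg.1 h)
      simp only [hΨ]
      rw [Set.indicator_of_notMem h5, mul_zero]
  have h6 : ∀ u, ∑' n, F n u = WS a ℓ u * cexp (-(w * u)) := fun u => (h3 u).tsum_eq
  simp only [h6, h2] at h1
  have h7 : HasSum (fun n => LSeries.term a w n * ∫ v, Ψ v) (LSeries a w * ∫ v, Ψ v) := ha.hasSum.mul_right _
  rw [h1.unique h7, hΨ, integral_indicator measurableSet_Ici]

end Pool.Agent.N798.P
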