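import Pool.Agent.N798.P4

set_option autoImplicit false

/-! The Laguerre function `L_κ(v) = Σ_j C(j - κ - 1, j) v^j / j!` and its Laplace transform `(1 - 1/w)^κ / w`. -/

namespace Pool.Agent.N798.P

open Complex MeasureTheory Filter Topology Set
open scoped Real

/-- The Laguerre function `L_κ(v) = Σ_j (-κ)(1-κ)⋯(j-1-κ)/(j!)^2 v^j`. -/
noncomputable def Lg (κ v : ℝ) : ℝ := ∑' j : ℕ, bc (-κ) j * v ^ j / j.factorial

lemma bc_geom (κ : ℝ) : ∃ B : ℝ, 0 ≤ B ∧ ∀ j : ℕ, |bc κ j| ≤ B * (3 / 2) ^ j := by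
  have h := (binom_hasSum κ (z := (2 / 3 : ℝ)) (by rw [Complex.norm_real]; norm_num)).summable
  obtain ⟨B, hB⟩ := h.tendsto_atTop_zero.norm.bddAbove_range
  refine ⟨max B 0, le_max_right _ _, fun j => ?_⟩
  have h1 : ‖(bc κ j : ℂ) * ((2 / 3 : ℝ) : ℂ) ^ j‖ ≤ B := hB (mem_range_self j)
  rw [norm_mul, norm_pow, Complex.norm_real, Complex.norm_real, Real.norm_eq_abs,
    Real.norm_of_nonneg (by norm_num : (0:ℝ) ≤ 2 / 3)] at h1
  have h2 : ((2 / 3 : ℝ)) ^ j * (3 / 2) ^ j = 1 := by rw [← mul_pow]; norm_num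
  calc |bc κ j| = |bc κ j| * (2 / 3) ^ j * (3 / 2) ^ j := by rw [mul_assoc, h2, mul_one]
    _ ≤ max B 0 * (3 / 2) ^ j := by
        gcongr
        exact h1.trans (le_max_left _ _)

lemma Lg_term_bound {κ B : ℝ} (hB : ∀ j : ℕ, |bc (-κ) j| ≤ B * (3 / 2) ^ j) (v : ℝ) (j : ℕ) :
    ‖bc (-κ) j * v ^ j / j.factorial‖ ≤ B * ((3 / 2 * |v|) ^ j / j.factorial) := by
  rw [norm_div, norm_mul, norm_pow, Real.norm_eq_abs, Real.norm_eq_abs, Real.norm_of_nonneg (Nat.cast_nonneg _), mul_pow,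
    ← mul_div_assoc]
  apply div_le_div_of_nonneg_right _ (Nat.cast_nonneg _)
  calc |bc (-κ) j| * |v| ^ j ≤ B * (3 / 2) ^ j * |v| ^ j := by gcongr; exact hB j
    _ = _ := by ring

lemma hasSum_exp' (x : ℝ) : HasSum (fun j : ℕ => x ^ j / j.factorial) (Real.exp x) := by
  rw [Real.exp_eq_exp_ℝ]
  exact NormedSpace.expSeries_div_hasSum_exp x

lemma Lg_bound (κ : ℝ) : ∃ B : ℝ, 0 ≤ B ∧ ∀ v : ℝ, 0 ≤ v → |Lg κ v| ≤ B * Real.exp (3 / 2 * v) := by
  obtain ⟨B, hB0, hB⟩ := bc_geom (-κ)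
  refine ⟨B, hB0, fun v hv => ?_⟩
  have h1 := tsum_of_norm_bounded ((hasSum_exp' (3 / 2 * |v|)).mul_left B) (Lg_term_bound hB v)
  rw [abs_of_nonneg hv] at h1
  exact h1

lemma Lg_cont (κ : ℝ) : Continuous (Lg κ) := by
  obtain ⟨B, hB0, hB⟩ := bc_geom (-κ)
  rw [continuous_iff_continuousAt]
  intro v₀
  have h1 : ContinuousOn (Lg κ) (Ioo (v₀ - 1) (v₀ + 1)) := by
    apply continuousOn_tsum (u := fun j : ℕ => B * ((3 / 2 * (|v₀| + 1)) ^ j / j.factorial))
    · intro j; fun_prop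
    · exact ((hasSum_exp' _).summable).mul_left B
    · intro j v hv
      refine (Lg_term_bound hB v j).trans ?_
      have h2 : |v| ≤ |v₀| + 1 := by
        have h3 : |v - v₀| ≤ 1 := abs_le.2 ⟨by linarith [hv.1], by linarith [hv.2]⟩
        have h4 := abs_add_le (v - v₀) v₀
        rw [sub_add_cancel] at h4
        linarith
      gcongr
  exact h1.continuousAt (Ioo_mem_nhds (by linarith) (by linarith))

/-- the moments of the exponential function -/
lemma mom_int {w : ℂ} (hw : 0 < w.re) (j : ℕ) :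
    IntegrableOn (fun v : ℝ => (v : ℂ) ^ j * cexp (-(w * v))) (Ioi 0) ∧
      ∫ v in Ioi (0:ℝ), (v : ℂ) ^ j * cexp (-(w * v)) = (j.factorial : ℂ) / w ^ (j + 1) := by
  have hw0 : w ≠ 0 := by intro h; rw [h] at hw; simp at hw
  have hn : ∀ (j : ℕ) (v : ℝ), 0 ≤ v → ‖(v : ℂ) ^ j * cexp (-(w * v))‖ = v ^ (j : ℝ) * Real.exp (-w.re * v) := by
    intro j v hv
    rw [norm_mul, norm_pow, Complex.norm_real, Real.norm_of_nonneg hv, Complex.norm_exp, Real.rpow_natCast]
    congr 2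
    rw [Complex.neg_re, mul_comm, Complex.re_ofReal_mul]
    ring
  have hint : ∀ j : ℕ, IntegrableOn (fun v : ℝ => (v : ℂ) ^ j * cexp (-(w * v))) (Ioi 0) := by
    intro j
    have h1 := integrableOn_rpow_mul_exp_neg_mul_rpow (p := 1) (s := j) (b := w.re)
      (by have : (0:ℝ) ≤ j := Nat.cast_nonneg _
          linarith) one_pos hw
    refine h1.mono' ?_ ?_
    · exact (by fun_prop : Continuous (fun v : ℝ => (v : ℂ) ^ j * cexp (-(w * v)))).aestronglyMeasurable
    · filter_upwards [ae_restrict_mem measurableSet_Ioi] with v hv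
      rw [hn j v (le_of_lt hv), Real.rpow_one]
  refine ⟨hint j, ?_⟩
  induction j with
  | zero =>
    simp only [pow_zero, one_mul, Nat.factorial_zero, Nat.cast_one, zero_add, pow_one]
    have h1 := integral_exp_mul_complex_Ioi (a := -w) (by rw [Complex.neg_re]; linarith) 0
    simp only [neg_mul] at h1
    rw [h1]
    simp
  | succ j ih =>
    have hd : ∀ v ∈ Ici (0:ℝ), HasDerivAt (fun v : ℝ => -((v : ℂ) ^ (j + 1) * cexp (-(w * v)) / w))
        ((v : ℂ) ^ (j + 1) * cexp (-(w * v)) - ((j : ℂ) + 1) / w * ((v : ℂ) ^ j * cexp (-(w * v)))) v := by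
      intro v _
      have h1 : HasDerivAt (fun v : ℝ => (v : ℂ) ^ (j + 1)) (((j : ℂ) + 1) * (v : ℂ) ^ j) v := by
        have := (hasDerivAt_pow (j + 1) (v : ℂ)).comp_ofReal
        simpa using this
      have h2 : HasDerivAt (fun v : ℝ => cexp (-(w * v))) (cexp (-(w * v)) * (-w)) v := by
        have h3 : HasDerivAt (fun z : ℂ => cexp (-(w * z))) (cexp (-(w * v)) * (-(w * 1))) (v : ℂ) :=
          (((hasDerivAt_id (v : ℂ)).const_mul w).neg).cexp
        rw [mul_one] at h3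
        exact h3.comp_ofReal
      have h3 := ((h1.mul h2).div_const w).neg
      refine h3.congr_deriv ?_
      field_simp
      ring
    have ht : Tendsto (fun v : ℝ => -((v : ℂ) ^ (j + 1) * cexp (-(w * v)) / w)) atTop (𝓝 0) := by
      rw [← neg_zero]
      apply Tendsto.neg
      rw [← zero_div w]
      apply Tendsto.div_const
      rw [tendsto_zero_iff_norm_tendsto_zero]
      have h1 := tendsto_rpow_mul_exp_neg_mul_atTop_nhds_zero ((j + 1 : ℕ) : ℝ) w.re hw
      refine h1.congr' ?_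
      filter_upwards [eventually_ge_atTop 0] with v hv
      rw [hn (j + 1) v hv]
    have hi : IntegrableOn (fun v : ℝ => (v : ℂ) ^ (j + 1) * cexp (-(w * v)) -
        ((j : ℂ) + 1) / w * ((v : ℂ) ^ j * cexp (-(w * v)))) (Ioi 0) := (hint (j + 1)).sub ((hint j).const_mul _)
    have h1 := integral_Ioi_of_hasDerivAt_of_tendsto' hd hi ht
    rw [integral_sub (hint (j + 1)) ((hint j).const_mul _), integral_const_mul, ih] at h1
    have h2 : (0:ℂ) - (fun v : ℝ => -((v : ℂ) ^ (j + 1) * cexp (-(w * v)) / w)) 0 = 0 := by simp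
    rw [h2, sub_eq_zero] at h1
    rw [h1, Nat.factorial_succ]
    push_cast
    field_simp
    ring

/-- **The Laplace transform of the Laguerre function.** -/
lemma Lg_trans (κ : ℝ) {w : ℂ} (hw : 3 / 2 < w.re) :
    IntegrableOn (fun v : ℝ => (Lg κ v : ℂ) * cexp (-(w * v))) (Ici 0) ∧
      ∫ v in Ici (0:ℝ), (Lg κ v : ℂ) * cexp (-(w * v)) = cexp ((κ : ℂ) * Complex.log (1 - w⁻¹)) / w := by
  have hw0 : 0 < w.re := by linarith
  have hwne : w ≠ 0 := by intro h; rw [h] at hw0; simp at hw0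
  obtain ⟨B, hB0, hB⟩ := bc_geom (-κ)
  set F : ℕ → ℝ → ℂ := fun j v => ((bc (-κ) j / j.factorial : ℝ) : ℂ) * ((v : ℂ) ^ j * cexp (-(w * v))) with hF
  have hint : ∀ j, Integrable (F j) (volume.restrict (Ioi 0)) := fun j => (mom_int hw0 j).1.const_mul _
  have hnorm : ∀ j, ∫ v in Ioi (0:ℝ), ‖F j v‖ = |bc (-κ) j| / w.re ^ (j + 1) := by
    intro j
    have h1 : ∀ v ∈ Ioi (0:ℝ), ‖F j v‖ = |bc (-κ) j| / j.factorial * (v ^ j * Real.exp (-(w.re * v))) := by
      intro v hv
      have hv : 0 < v := hv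
      simp only [hF]
      rw [norm_mul, norm_mul, norm_pow, Complex.norm_real, Complex.norm_real, Real.norm_of_nonneg hv.le, Real.norm_eq_abs,
        abs_div, Nat.abs_cast, Complex.norm_exp, Complex.neg_re, mul_comm w, Complex.re_ofReal_mul, mul_comm v w.re]
    rw [setIntegral_congr_fun measurableSet_Ioi h1, integral_const_mul]
    have h2 := (mom_int (w := (w.re : ℂ)) (by rw [Complex.ofReal_re]; exact hw0) j).2
    have h3 : (∫ v in Ioi (0:ℝ), (v ^ j * Real.exp (-(w.re * v)))) = (j.factorial : ℝ) / w.re ^ (j + 1) := by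
      have h4 : ((∫ v in Ioi (0:ℝ), (v ^ j * Real.exp (-(w.re * v))) : ℝ) : ℂ) =
          ∫ v in Ioi (0:ℝ), (v : ℂ) ^ j * cexp (-((w.re : ℂ) * v)) := by
        rw [← integral_complex_ofReal]
        congr 1
        funext v
        push_cast
        rfl
      rw [h2] at h4
      exact_mod_cast h4
    rw [h3]
    have : (0:ℝ) < j.factorial := by exact_mod_cast j.factorial_pos
    field_simp
  have hgeo : Summable (fun j : ℕ => B / w.re * ((3 / 2) / w.re) ^ j) := by
    apply Summable.mul_left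
    apply summable_geometric_of_lt_one (by positivity)
    rw [div_lt_one hw0]; exact hw
  have hsum : Summable (fun j => ∫ v in Ioi (0:ℝ), ‖F j v‖) := by
    simp only [hnorm]
    refine Summable.of_nonneg_of_le (fun j => by positivity) (fun j => ?_) hgeo
    calc |bc (-κ) j| / w.re ^ (j + 1) ≤ B * (3 / 2) ^ j / w.re ^ (j + 1) := by gcongr; exact hB j
      _ = _ := by rw [div_pow (3 / 2) w.re j, pow_succ]; field_simp
  have h1 := hasSum_integral_of_summable_integral_norm hint hsum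
  have h2 : ∀ v ∈ Ioi (0:ℝ), HasSum (fun j => F j v) ((Lg κ v : ℂ) * cexp (-(w * v))) := by
    intro v hv
    have h3 : Summable (fun j : ℕ => bc (-κ) j * v ^ j / j.factorial) :=
      Summable.of_norm_bounded (((hasSum_exp' (3 / 2 * |v|)).summable).mul_left B) (Lg_term_bound hB v)
    have h4 := (Complex.hasSum_ofReal.2 h3.hasSum).mul_right (cexp (-(w * v)))
    refine h4.congr_fun ?_
    intro j
    simp only [hF]
    push_cast
    ring
  have h3 : ∫ v in Ioi (0:ℝ), ∑' j, F j v = ∫ v in Ioi (0:ℝ), (Lg κ v : ℂ) * cexp (-(w * v)) :=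
    setIntegral_congr_fun measurableSet_Ioi fun v hv => (h2 v hv).tsum_eq
  rw [h3] at h1
  have h4 : ∀ j, ∫ v in Ioi (0:ℝ), F j v = (bc (-κ) j : ℂ) * (w⁻¹) ^ j * w⁻¹ := by
    intro j
    simp only [hF]
    rw [integral_const_mul, (mom_int hw0 j).2]
    have : (j.factorial : ℂ) ≠ 0 := by exact_mod_cast j.factorial_ne_zero
    push_cast
    rw [inv_pow, pow_succ]
    field_simp
  simp only [h4] at h1
  have hwi : ‖w⁻¹‖ < 1 := by
    rw [norm_inv]
    have : 3 / 2 < ‖w‖ := hw.trans_le (Complex.re_le_norm w)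
    exact inv_lt_one_of_one_lt₀ (by linarith)
  have h5 := (binom_hasSum (-κ) hwi).mul_right (w⁻¹)
  rw [neg_neg] at h5
  refine ⟨?_, ?_⟩
  · rw [integrableOn_Ici_iff_integrableOn_Ioi]
    obtain ⟨B', hB'0, hB'⟩ := Lg_bound κ
    have h6 : IntegrableOn (fun v : ℝ => B' * Real.exp (-(w.re - 3 / 2) * v)) (Ioi 0) :=
      (integrableOn_exp_mul_Ioi (by linarith) 0).const_mul B'
    refine h6.mono' ?_ ?_
    · have := Lg_cont κ
      exact (by fun_prop : Continuous (fun v : ℝ => (Lg κ v : ℂ) * cexp (-(w * v)))).aestronglyMeasurable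
    · filter_upwards [ae_restrict_mem measurableSet_Ioi] with v hv
      have hv : 0 < v := hv
      rw [norm_mul, Complex.norm_real, Real.norm_eq_abs, Complex.norm_exp, Complex.neg_re, mul_comm w, Complex.re_ofReal_mul]
      calc |Lg κ v| * Real.exp (-(v * w.re)) ≤ B' * Real.exp (3 / 2 * v) * Real.exp (-(v * w.re)) := by
            gcongr; exact hB' v hv.le
        _ = _ := by rw [mul_assoc, ← Real.exp_add]; ring_nf
  · rw [integral_Ici_eq_integral_Ioi, h1.unique h5, div_eq_mul_inv]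

end Pool.Agent.N798.P
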