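import Pool.Agent.N798.P3
import Pool.Agent.N798.P5

set_option autoImplicit false

/-! The mean square formula for a function whose Laplace transform is a power of an analytic function. -/

namespace Pool.Agent.N798.P

open Complex MeasureTheory Filter Topology Set
open Pool.Agent.N798.V
open scoped ENNReal Real

/-- a function on the line with Laplace transform `q g₀ / w` -/
structure Dat (g₀ q : ℂ → ℂ) (D : ℝ → ℂ) (M b : ℝ) : Prop where
  mD : Measurable D
  M0 : 0 ≤ M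
  b0 : 0 ≤ b
  supp : ∀ u : ℝ, u < -b → D u = 0
  gr : ∀ u : ℝ, ‖D u‖ ≤ M * Real.exp (3 / 2 * u)
  ae : ∀ᵐ u, ContinuousAt D u
  tr : ∀ w : ℂ, 3 / 2 < w.re → ∫ u : ℝ, D u * cexp (-(w * u)) = q w * (g₀ w / w)

lemma Dat.int {g₀ q : ℂ → ℂ} {D : ℝ → ℂ} {M b : ℝ} (H : Dat g₀ q D M b) {w : ℂ} (hw : 3 / 2 < w.re) :
    Integrable (fun u : ℝ => D u * cexp (-(w * u))) := by
  have h1 : Integrable ((Ici (-b)).indicator (fun u : ℝ => M * Real.exp (-(w.re - 3 / 2) * u))) := by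
    rw [integrable_indicator_iff measurableSet_Ici, integrableOn_Ici_iff_integrableOn_Ioi]
    exact (integrableOn_exp_mul_Ioi (by linarith) _).const_mul M
  refine h1.mono' ?_ (Eventually.of_forall fun u => ?_)
  · have := H.mD
    exact (by fun_prop : Measurable (fun u : ℝ => D u * cexp (-(w * u)))).aestronglyMeasurable
  · by_cases hu : -b ≤ u
    · rw [indicator_of_mem (mem_Ici.2 hu), norm_mul, Complex.norm_exp, Complex.neg_re, mul_comm w, Complex.re_ofReal_mul]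
      calc ‖D u‖ * Real.exp (-(u * w.re)) ≤ M * Real.exp (3 / 2 * u) * Real.exp (-(u * w.re)) := by
            gcongr; exact H.gr u
        _ = _ := by rw [mul_assoc, ← Real.exp_add]; ring_nf
    · rw [H.supp u (not_le.1 hu), zero_mul, norm_zero]
      exact indicator_nonneg (fun x _ => by have := H.M0; positivity) u

/-- **The mean square formula.** -/
theorem Dat.formula {κ : ℝ} (hκ : 0 < κ) {f g₀ q : ℂ → ℂ} {D : ℝ → ℂ} {M b : ℝ} (H : Dat g₀ q D M b)
    (hf : ∀ z : ℂ, 0 < z.re → DifferentiableAt ℂ f z)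
    (hk : ∀ z : ℂ, 1 / 2 < z.re → ∃ k : ℕ, κ * analyticOrderNatAt f z = k)
    (hg₀ : ∀ z : ℂ, 1 < z.re → DifferentiableAt ℂ g₀ z) (hn₀ : ∀ z : ℂ, 1 < z.re → ‖g₀ z‖ = ‖f z‖ ^ κ)
    (hf₀ : ∀ z : ℂ, 1 < z.re → f z ≠ 0)
    {K : ℝ} {A : ℕ} (hfb : ∀ z : ℂ, 1 / 2 ≤ z.re → z.re ≤ 2 → ‖f z‖ ≤ K * (1 + |z.im|) ^ A)
    (hq : Differentiable ℂ q) {Q : ℝ} (hqb : ∀ z : ℂ, 1 / 2 ≤ z.re → z.re ≤ 2 → ‖q z‖ ≤ Q) :
    ∫⁻ u, ENNReal.ofReal (Real.exp (-u)) * ‖D u‖ₑ ^ 2 = ENNReal.ofReal (1 / (2 * π)) *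
      ∫⁻ t : ℝ, ENNReal.ofReal (‖q (((1 / 2 : ℝ) : ℂ) + t * I)‖ ^ 2 *
        (‖f (((1 / 2 : ℝ) : ℂ) + t * I)‖ ^ κ / ‖((1 / 2 : ℝ) : ℂ) + t * I‖) ^ 2) := by
  obtain ⟨g, hg, hgn, hgg⟩ := root_half hf hk hg₀ hn₀ hf₀
  obtain ⟨G, hGc, hGg, hGn⟩ := boundary hκ hf hg hgn
  have hM := H.M0
  have hb0 := H.b0
  have hbound : ∀ u : ℝ, ‖D u‖ ≤ M * Real.exp ((3 / 2) * |u|) := by
    intro u
    refine (H.gr u).trans ?_
    gcongr
    exact le_abs_self u
  have hK0 : 0 ≤ K := by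
    have := (norm_nonneg _).trans (hfb 1 (by norm_num) (by norm_num))
    simpa using this
  have hQ0 : 0 ≤ Q := (norm_nonneg _).trans (hqb 1 (by norm_num) (by norm_num))
  have key := engine (D := D) (G := fun z => q z * (G z / z)) (C := M) (b := 3 / 2) (K := Q * (2 * K ^ κ))
    (A := ⌈A * κ⌉₊) H.mD (by norm_num) hbound H.ae (by
      have h1 := (H.int (w := (2 : ℂ)) (by norm_num)).norm
      refine h1.congr (Eventually.of_forall fun u => ?_)
      simp only
      rw [norm_mul, Complex.norm_exp, Complex.neg_re, mul_comm (2:ℂ), Complex.re_ofReal_mul]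
      norm_num
      left; ring) (by
      intro t
      have hre : (((2:ℝ) : ℂ) + t * I).re = 2 := by simp
      rw [H.tr _ (by rw [hre]; norm_num), hGg _ (by rw [hre]; norm_num), hgg _ (by rw [hre]; norm_num)]) (by
      refine hq.continuous.continuousOn.mul ?_
      refine (hGc.mono fun z hz => hz.1).div continuousOn_id fun z hz h => ?_
      have h' : z = 0 := h
      have := hz.1
      rw [h'] at this
      norm_num at this) (by
      intro z h1 h2
      have h3 : DifferentiableAt ℂ G z := by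
        refine (hg z h1).congr_of_eventuallyEq ?_
        have : IsOpen {z : ℂ | 1 / 2 < z.re} := isOpen_lt continuous_const Complex.continuous_re
        filter_upwards [this.mem_nhds h1] with y hy
        exact hGg y hy
      refine (hq z).mul (h3.div differentiableAt_id ?_)
      intro h
      have h' : z = 0 := h
      rw [h'] at h1
      norm_num at h1) (by
      intro z h1 h2
      have h3 : 1 / 2 ≤ ‖z‖ := h1.trans (Complex.re_le_norm z)
      have h4 : 1 ≤ 1 + |z.im| := by linarith [abs_nonneg z.im]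
      rw [norm_mul, norm_div, hGn z h1]
      have h5 : ‖f z‖ ^ κ ≤ K ^ κ * (1 + |z.im|) ^ ⌈A * κ⌉₊ := by
        calc ‖f z‖ ^ κ ≤ (K * (1 + |z.im|) ^ A) ^ κ := Real.rpow_le_rpow (norm_nonneg _) (hfb z h1 h2) hκ.le
          _ = K ^ κ * (1 + |z.im|) ^ (A * κ : ℝ) := by
              rw [Real.mul_rpow hK0 (by positivity), ← Real.rpow_natCast, ← Real.rpow_mul (by positivity)]
          _ ≤ K ^ κ * (1 + |z.im|) ^ (⌈A * κ⌉₊ : ℝ) := by
              gcongr
              exact Nat.le_ceil _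
          _ = _ := by rw [Real.rpow_natCast]
      have h6 : ‖f z‖ ^ κ / ‖z‖ ≤ 2 * K ^ κ * (1 + |z.im|) ^ ⌈A * κ⌉₊ := by
        rw [div_le_iff₀ (by linarith)]
        have h7 : 0 ≤ K ^ κ * (1 + |z.im|) ^ ⌈A * κ⌉₊ := by positivity
        nlinarith
      calc ‖q z‖ * (‖f z‖ ^ κ / ‖z‖) ≤ Q * (2 * K ^ κ * (1 + |z.im|) ^ ⌈A * κ⌉₊) := by
            gcongr
            exact hqb z h1 h2
        _ = _ := by ring)
  rw [key]
  congr 1
  apply lintegral_congr
  intro t
  have hre : (((1 / 2 : ℝ) : ℂ) + t * I).re = 1 / 2 := by simp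
  rw [← ofReal_norm, ← ENNReal.ofReal_pow (norm_nonneg _)]
  congr 1
  rw [norm_mul, norm_div, hGn _ (by rw [hre]), mul_pow]

end Pool.Agent.N798.P
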