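import Pool.Agent.N798.P7

set_option autoImplicit false

/-! The converse: a finite mean square forces the power to be analytic in the half-plane. -/

namespace Pool.Agent.N798.P

open Complex MeasureTheory Filter Topology Set Metric
open Pool.Agent.N798.V
open scoped ENNReal Real

/-- The Laplace transform of a function in weighted `L²` is analytic. -/
lemma lap_diff {D : ℝ → ℂ} {b : ℝ} (mD : Measurable D) (b0 : 0 ≤ b) (supp : ∀ u : ℝ, u < -b → D u = 0)
    (fin : ∫⁻ u, ENNReal.ofReal (Real.exp (-u)) * ‖D u‖ₑ ^ 2 ≠ ⊤) {w₀ : ℂ} (hw₀ : 1 / 2 < w₀.re) :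
    DifferentiableAt ℂ (fun w : ℂ => ∫ u : ℝ, D u * cexp (-(w * u))) w₀ := by
  set ε : ℝ := (w₀.re - 1 / 2) / 2 with hε
  have hε0 : 0 < ε := by rw [hε]; linarith
  have i1 : Integrable (fun u : ℝ => ‖D u‖ ^ 2 * Real.exp (-u)) := by
    refine ⟨by fun_prop, ?_⟩
    rw [hasFiniteIntegral_iff_ofReal (Eventually.of_forall fun u => by positivity)]
    refine lt_of_eq_of_lt ?_ fin.lt_top
    apply lintegral_congr
    intro u
    rw [mul_comm, ENNReal.ofReal_mul (Real.exp_pos _).le, ENNReal.ofReal_pow (norm_nonneg _), ofReal_norm]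
  have i2 : Integrable ((Ici (-b)).indicator (fun u : ℝ => (2 / ε ^ 2 * Real.exp (2 * ε * b)) * Real.exp (-ε * u))) := by
    rw [integrable_indicator_iff measurableSet_Ici, integrableOn_Ici_iff_integrableOn_Ioi]
    exact (integrableOn_exp_mul_Ioi (by linarith) _).const_mul _
  have i3 : Integrable ((Ici (-b)).indicator (fun u : ℝ => Real.exp (-(2 * ε) * u))) := by
    rw [integrable_indicator_iff measurableSet_Ici, integrableOn_Ici_iff_integrableOn_Ioi]
    exact integrableOn_exp_mul_Ioi (by linarith) _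
  -- the bound for the exponential
  have hexp : ∀ (w : ℂ) (u : ℝ), ‖w - w₀‖ < ε → -b ≤ u → ‖cexp (-(w * u))‖ ≤
      Real.exp (2 * ε * b) * (Real.exp (-u / 2) * Real.exp (-ε * u)) := by
    intro w u hw hu
    have h1 := (Complex.abs_re_le_norm (w - w₀)).trans hw.le
    rw [Complex.sub_re, abs_le] at h1
    have h2 : w.re - (1 / 2 + ε) ≤ 2 * ε := by have := h1.2; rw [hε] at this ⊢; linarith
    have h3 : 0 ≤ w.re - (1 / 2 + ε) := by have := h1.1; rw [hε] at this ⊢; linarith
    rw [Complex.norm_exp, Complex.neg_re, mul_comm w, Complex.re_ofReal_mul, ← Real.exp_add, ← Real.exp_add]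
    apply Real.exp_le_exp.2
    have h4 : (w.re - (1 / 2 + ε)) * (-u) ≤ 2 * ε * b := by
      calc (w.re - (1 / 2 + ε)) * (-u) ≤ (w.re - (1 / 2 + ε)) * b := mul_le_mul_of_nonneg_left (by linarith) h3
        _ ≤ _ := mul_le_mul_of_nonneg_right h2 b0
    nlinarith
  have hsq : ∀ u : ℝ, u ^ 2 ≤ 2 / ε ^ 2 * Real.exp (ε * |u|) := by
    intro u
    have h1 := Real.quadratic_le_exp_of_nonneg (x := ε * |u|) (by positivity)
    have h2 : (ε * |u|) ^ 2 = ε ^ 2 * u ^ 2 := by rw [mul_pow, sq_abs]
    rw [h2] at h1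
    have h3 : 0 ≤ ε * |u| := by positivity
    rw [div_mul_eq_mul_div, le_div_iff₀ (by positivity)]
    nlinarith
  set bound : ℝ → ℝ := fun u => Real.exp (2 * ε * b) / 2 * (‖D u‖ ^ 2 * Real.exp (-u) +
    (Ici (-b)).indicator (fun u : ℝ => (2 / ε ^ 2 * Real.exp (2 * ε * b)) * Real.exp (-ε * u)) u) with hbound
  have ibound : Integrable bound := (i1.add i2).const_mul _
  have hF' : ∀ (w : ℂ) (u : ℝ), ‖w - w₀‖ < ε → ‖D u * (cexp (-(w * u)) * (-u))‖ ≤ bound u := by
    intro w u hw
    by_cases hu : -b ≤ u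
    · simp only [hbound]
      rw [indicator_of_mem (mem_Ici.2 hu), norm_mul, norm_mul, norm_neg, Complex.norm_real, Real.norm_eq_abs]
      have h1 := hexp w u hw hu
      have h2 : ‖D u‖ * (‖cexp (-(w * u))‖ * |u|) ≤
          Real.exp (2 * ε * b) * ((‖D u‖ * Real.exp (-u / 2)) * (|u| * Real.exp (-ε * u))) := by
        calc ‖D u‖ * (‖cexp (-(w * u))‖ * |u|) ≤ ‖D u‖ * ((Real.exp (2 * ε * b) * (Real.exp (-u / 2) * Real.exp (-ε * u))) * |u|) := by
              gcongr
          _ = _ := by ring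
      refine h2.trans ?_
      have h3 : (‖D u‖ * Real.exp (-u / 2)) ^ 2 = ‖D u‖ ^ 2 * Real.exp (-u) := by
        rw [mul_pow, ← Real.exp_nat_mul]
        congr 2
        push_cast
        ring
      have h4 : (|u| * Real.exp (-ε * u)) ^ 2 ≤ (2 / ε ^ 2 * Real.exp (2 * ε * b)) * Real.exp (-ε * u) := by
        have h5 : |u| ≤ u + 2 * b := by
          rcases abs_cases u with ⟨h, _⟩ | ⟨h, _⟩ <;> rw [h] <;> linarith
        calc (|u| * Real.exp (-ε * u)) ^ 2 = u ^ 2 * Real.exp (-(2 * ε) * u) := by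
              rw [mul_pow, sq_abs, ← Real.exp_nat_mul]
              congr 2
              push_cast
              ring
          _ ≤ (2 / ε ^ 2 * Real.exp (ε * |u|)) * Real.exp (-(2 * ε) * u) := by
              gcongr
              exact hsq u
          _ ≤ (2 / ε ^ 2 * Real.exp (ε * (u + 2 * b))) * Real.exp (-(2 * ε) * u) := by gcongr
          _ = _ := by
              rw [mul_assoc, mul_assoc, ← Real.exp_add, ← Real.exp_add]
              congr 2
              ring
      have h6 : 2 * ((‖D u‖ * Real.exp (-u / 2)) * (|u| * Real.exp (-ε * u))) ≤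
          (‖D u‖ * Real.exp (-u / 2)) ^ 2 + (|u| * Real.exp (-ε * u)) ^ 2 := by
        nlinarith [sq_nonneg (‖D u‖ * Real.exp (-u / 2) - |u| * Real.exp (-ε * u))]
      rw [h3] at h6
      have h7 := Real.exp_pos (2 * ε * b)
      nlinarith
    · rw [supp u (not_le.1 hu), zero_mul, norm_zero]
      simp only [hbound]
      have : 0 ≤ (Ici (-b)).indicator (fun u : ℝ => (2 / ε ^ 2 * Real.exp (2 * ε * b)) * Real.exp (-ε * u)) u :=
        indicator_nonneg (fun x _ => by positivity) u
      positivity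
  have hint : Integrable (fun u : ℝ => D u * cexp (-(w₀ * u))) := by
    have i4 : Integrable (fun u : ℝ => Real.exp (2 * ε * b) / 2 * (‖D u‖ ^ 2 * Real.exp (-u) +
        (Ici (-b)).indicator (fun u : ℝ => Real.exp (-(2 * ε) * u)) u)) := (i1.add i3).const_mul _
    refine i4.mono' (by fun_prop) (Eventually.of_forall fun u => ?_)
    by_cases hu : -b ≤ u
    · rw [indicator_of_mem (mem_Ici.2 hu), norm_mul]
      have h1 := hexp w₀ u (by rw [sub_self, norm_zero]; exact hε0) hu
      have h2 : ‖D u‖ * ‖cexp (-(w₀ * u))‖ ≤ Real.exp (2 * ε * b) * ((‖D u‖ * Real.exp (-u / 2)) * Real.exp (-ε * u)) := by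
        calc ‖D u‖ * ‖cexp (-(w₀ * u))‖ ≤ ‖D u‖ * (Real.exp (2 * ε * b) * (Real.exp (-u / 2) * Real.exp (-ε * u))) := by
              gcongr
          _ = _ := by ring
      refine h2.trans ?_
      have h3 : (‖D u‖ * Real.exp (-u / 2)) ^ 2 = ‖D u‖ ^ 2 * Real.exp (-u) := by
        rw [mul_pow, ← Real.exp_nat_mul]
        congr 2
        push_cast
        ring
      have h4 : (Real.exp (-ε * u)) ^ 2 = Real.exp (-(2 * ε) * u) := by
        rw [← Real.exp_nat_mul]
        congr 1
        push_cast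
        ring
      have h6 : 2 * ((‖D u‖ * Real.exp (-u / 2)) * Real.exp (-ε * u)) ≤
          (‖D u‖ * Real.exp (-u / 2)) ^ 2 + (Real.exp (-ε * u)) ^ 2 := by
        nlinarith [sq_nonneg (‖D u‖ * Real.exp (-u / 2) - Real.exp (-ε * u))]
      rw [h3, h4] at h6
      have h7 := Real.exp_pos (2 * ε * b)
      nlinarith
    · rw [supp u (not_le.1 hu), zero_mul, norm_zero]
      have : 0 ≤ (Ici (-b)).indicator (fun u : ℝ => Real.exp (-(2 * ε) * u)) u :=
        indicator_nonneg (fun x _ => by positivity) u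
      positivity
  have hmain := hasDerivAt_integral_of_dominated_loc_of_deriv_le (𝕜 := ℂ) (μ := volume)
    (F := fun (w : ℂ) (u : ℝ) => D u * cexp (-(w * u))) (F' := fun (w : ℂ) (u : ℝ) => D u * (cexp (-(w * u)) * (-u)))
    (x₀ := w₀) (s := ball w₀ ε) (bound := bound) (ball_mem_nhds _ hε0) (Eventually.of_forall fun w => by fun_prop) hint
    (by fun_prop) (Eventually.of_forall fun u w hw => hF' w u (by rwa [mem_ball, dist_eq_norm] at hw)) ibound
    (Eventually.of_forall fun u w _ => by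
      have h3 : HasDerivAt (fun w : ℂ => cexp (-(w * u))) (cexp (-(w * u)) * (-(1 * u))) w :=
        (((hasDerivAt_id w).mul_const (u : ℂ)).neg).cexp
      rw [one_mul] at h3
      exact h3.const_mul _)
  exact hmain.2.differentiableAt

end Pool.Agent.N798.P
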