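import Mathlib

/-!
Second moment method for the events `a + c log n ∈ F`, `(a, c)` in a small square: linear changes of
variables and the abstract second moment inequality.
-/

set_option autoImplicit false

open MeasureTheory Set

namespace Pool.Agent.N798.Sp

/-- `(a, c) ↦ (a + c x, a + c y)` -/
noncomputable def T2 (x y : ℝ) : (ℝ × ℝ) →ₗ[ℝ] (ℝ × ℝ) :=
  Matrix.toLin (Module.Basis.finTwoProd ℝ) (Module.Basis.finTwoProd ℝ) !![1, x; 1, y]

lemma T2_apply (x y : ℝ) (p : ℝ × ℝ) : T2 x y p = (p.1 + p.2 * x, p.1 + p.2 * y) := by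
  unfold T2
  rw [Matrix.toLin_finTwoProd_apply]
  ext <;> simp [mul_comm]

lemma T2_det (x y : ℝ) : LinearMap.det (T2 x y) = y - x := by
  unfold T2
  rw [LinearMap.det_toLin, Matrix.det_fin_two_of]
  ring

/-- `(a, c) ↦ (a + c x, c)` -/
noncomputable def T1 (x : ℝ) : (ℝ × ℝ) →ₗ[ℝ] (ℝ × ℝ) :=
  Matrix.toLin (Module.Basis.finTwoProd ℝ) (Module.Basis.finTwoProd ℝ) !![1, x; 0, 1]

lemma T1_apply (x : ℝ) (p : ℝ × ℝ) : T1 x p = (p.1 + p.2 * x, p.2) := by
  unfold T1
  rw [Matrix.toLin_finTwoProd_apply]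
  ext <;> simp [mul_comm]

lemma T1_det (x : ℝ) : LinearMap.det (T1 x) = 1 := by
  unfold T1
  rw [LinearMap.det_toLin, Matrix.det_fin_two_of]
  ring

lemma vol2 {x y : ℝ} (h : x < y) (A : Set (ℝ × ℝ)) :
    volume.real {p : ℝ × ℝ | (p.1 + p.2 * x, p.1 + p.2 * y) ∈ A} = (y - x)⁻¹ * volume.real A := by
  have hd : LinearMap.det (T2 x y) ≠ 0 := by
    rw [T2_det]; exact (sub_pos.2 h).ne'
  have e : {p : ℝ × ℝ | (p.1 + p.2 * x, p.1 + p.2 * y) ∈ A} = T2 x y ⁻¹' A := by
    ext p
    simp only [mem_ofPred_eq, mem_preimage, T2_apply]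
  rw [e, measureReal_def, Measure.addHaar_preimage_linearMap _ hd, T2_det,
    ENNReal.toReal_mul, measureReal_def, ENNReal.toReal_ofReal (abs_nonneg _),
    abs_of_pos (inv_pos.2 (sub_pos.2 h))]

lemma vol1 (x : ℝ) (A : Set (ℝ × ℝ)) :
    volume.real {p : ℝ × ℝ | (p.1 + p.2 * x, p.2) ∈ A} = volume.real A := by
  have hd : LinearMap.det (T1 x) ≠ 0 := by
    rw [T1_det]; exact one_ne_zero
  have e : {p : ℝ × ℝ | (p.1 + p.2 * x, p.2) ∈ A} = T1 x ⁻¹' A := by
    ext p
    simp only [mem_ofPred_eq, mem_preimage, T1_apply]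
  rw [e, measureReal_def, Measure.addHaar_preimage_linearMap _ hd, T1_det,
    ENNReal.toReal_mul, measureReal_def]
  simp

/-- the square of a sum of indicators -/
lemma sq_sum (e : ℕ → ℝ) (he : ∀ n, e n = 0 ∨ e n = 1) (N : ℕ) :
    (∑ n ∈ Finset.Icc 1 N, e n) ^ 2 ≤ (∑ n ∈ Finset.Icc 1 N, e n) +
      2 * ∑ d ∈ Finset.Icc 1 N, ∑ n ∈ Finset.Icc 1 N, e n * e (n + d) := by
  have he0 : ∀ n, 0 ≤ e n := fun n => by rcases he n with h | h <;> rw [h] <;> norm_num
  have he2 : ∀ n, e n ^ 2 = e n := fun n => by rcases he n with h | h <;> rw [h] <;> norm_num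
  have h1 : ∀ N : ℕ, (∑ n ∈ Finset.Icc 1 N, e n) ^ 2 = (∑ n ∈ Finset.Icc 1 N, e n) +
      2 * ∑ m ∈ Finset.Icc 1 N, ∑ n ∈ (Finset.Icc 1 N).filter (fun n => n < m), e n * e m := by
    intro N
    induction N with
    | zero => simp
    | succ N ih =>
      rw [Finset.sum_Icc_succ_top (by omega : 1 ≤ N + 1), Finset.sum_Icc_succ_top (by omega : 1 ≤ N + 1)]
      have e1 : ∀ m ∈ Finset.Icc 1 N, ∑ n ∈ (Finset.Icc 1 (N + 1)).filter (fun n => n < m), e n * e m =
          ∑ n ∈ (Finset.Icc 1 N).filter (fun n => n < m), e n * e m := by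
        intro m hm
        congr 1
        ext n
        simp only [Finset.mem_filter, Finset.mem_Icc] at hm ⊢
        omega
      rw [Finset.sum_congr rfl e1]
      have e2 : (Finset.Icc 1 (N + 1)).filter (fun n => n < N + 1) = Finset.Icc 1 N := by
        ext n
        simp only [Finset.mem_filter, Finset.mem_Icc]
        omega
      rw [e2, ← Finset.sum_mul, add_sq, ih, he2]
      ring
  rw [h1 N]
  have h2 : ∑ m ∈ Finset.Icc 1 N, ∑ n ∈ (Finset.Icc 1 N).filter (fun n => n < m), e n * e m =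
      ∑ n ∈ Finset.Icc 1 N, ∑ m ∈ (Finset.Icc 1 N).filter (fun m => n < m), e n * e m := by
    simp only [Finset.sum_filter]
    rw [Finset.sum_comm]
  rw [h2]
  have h3 : ∑ d ∈ Finset.Icc 1 N, ∑ n ∈ Finset.Icc 1 N, e n * e (n + d) =
      ∑ n ∈ Finset.Icc 1 N, ∑ d ∈ Finset.Icc 1 N, e n * e (n + d) := Finset.sum_comm
  rw [h3]
  gcongr with n hn
  rw [show ∑ d ∈ Finset.Icc 1 N, e n * e (n + d) =
    ∑ m ∈ (Finset.Icc 1 N).map (addLeftEmbedding n), e n * e m by
      rw [Finset.sum_map]; rfl]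
  apply Finset.sum_le_sum_of_subset_of_nonneg
  · intro m hm
    simp only [Finset.mem_filter, Finset.mem_Icc, Finset.mem_map, addLeftEmbedding_apply] at hm ⊢
    exact ⟨m - n, by omega, by omega⟩
  · intro m _ _
    exact mul_nonneg (he0 n) (he0 m)

/-- the second moment inequality -/
lemma second_moment {Ω : Type} [MeasurableSpace Ω] (μ : Measure Ω) {Q : Set Ω} (hQ : MeasurableSet Q)
    (hfin : μ Q ≠ ⊤) (A : ℕ → Set Ω) (hA : ∀ n, MeasurableSet (A n)) (N : ℕ) (l : ℝ) :
    2 * l * ∑ n ∈ Finset.Icc 1 N, μ.real (Q ∩ A n) - l ^ 2 * (∑ n ∈ Finset.Icc 1 N, μ.real (Q ∩ A n) +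
      2 * ∑ d ∈ Finset.Icc 1 N, ∑ n ∈ Finset.Icc 1 N, μ.real (Q ∩ (A n ∩ A (n + d)))) ≤
    μ.real (Q ∩ ⋃ n ∈ Finset.Icc 1 N, A n) := by
  classical
  have : IsFiniteMeasure (μ.restrict Q) := ⟨by rw [Measure.restrict_apply_univ]; exact lt_top_iff_ne_top.2 hfin⟩
  set U : Set Ω := ⋃ n ∈ Finset.Icc 1 N, A n with hU
  have hUm : MeasurableSet U := by
    apply Finset.measurableSet_biUnion
    intro n _
    exact hA n
  have key : ∀ {B : Set Ω}, MeasurableSet B → ∫ x in Q, B.indicator (fun _ => (1:ℝ)) x ∂μ = μ.real (Q ∩ B) := by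
    intro B hB
    rw [integral_indicator_const _ hB, smul_eq_mul, mul_one, measureReal_def, measureReal_def,
      Measure.restrict_apply hB, inter_comm]
  have hint : ∀ {B : Set Ω}, MeasurableSet B → Integrable (fun x => B.indicator (fun _ => (1:ℝ)) x) (μ.restrict Q) :=
    fun hB => (integrable_const (1:ℝ)).indicator hB
  have hpt : ∀ x, 2 * l * ∑ n ∈ Finset.Icc 1 N, (A n).indicator (fun _ => (1:ℝ)) x -
      l ^ 2 * (∑ n ∈ Finset.Icc 1 N, (A n).indicator (fun _ => (1:ℝ)) x +
      2 * ∑ d ∈ Finset.Icc 1 N, ∑ n ∈ Finset.Icc 1 N, (A n ∩ A (n + d)).indicator (fun _ => (1:ℝ)) x) ≤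
      U.indicator (fun _ => (1:ℝ)) x := by
    intro x
    have e1 : ∀ d n : ℕ, (A n ∩ A (n + d)).indicator (fun _ => (1:ℝ)) x =
        (A n).indicator (fun _ => (1:ℝ)) x * (A (n + d)).indicator (fun _ => (1:ℝ)) x := by
      intro d n
      by_cases h1 : x ∈ A n <;> by_cases h2 : x ∈ A (n + d) <;> simp [h1, h2]
    simp only [e1]
    have h3 := sq_sum (fun n => (A n).indicator (fun _ => (1:ℝ)) x) (by
      intro n
      by_cases h : x ∈ A n
      · right; simp [h]
      · left; simp [h]) N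
    set X : ℝ := ∑ n ∈ Finset.Icc 1 N, (A n).indicator (fun _ => (1:ℝ)) x with hX
    by_cases hx : x ∈ U
    · rw [indicator_of_mem hx]
      nlinarith [sq_nonneg (l * X - 1), sq_nonneg l]
    · rw [indicator_of_notMem hx]
      have h0 : ∀ n ∈ Finset.Icc 1 N, (A n).indicator (fun _ => (1:ℝ)) x = 0 := by
        intro n hn
        rw [indicator_of_notMem]
        intro h
        exact hx (mem_biUnion hn h)
      have hX0 : X = 0 := Finset.sum_eq_zero h0
      rw [hX0] at h3 ⊢
      nlinarith [sq_nonneg l]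
  have h1 := integral_mono (μ := μ.restrict Q) (f := fun x => 2 * l * ∑ n ∈ Finset.Icc 1 N, (A n).indicator (fun _ => (1:ℝ)) x -
      l ^ 2 * (∑ n ∈ Finset.Icc 1 N, (A n).indicator (fun _ => (1:ℝ)) x +
      2 * ∑ d ∈ Finset.Icc 1 N, ∑ n ∈ Finset.Icc 1 N, (A n ∩ A (n + d)).indicator (fun _ => (1:ℝ)) x))
      (g := fun x => U.indicator (fun _ => (1:ℝ)) x) ?_ (hint hUm) hpt
  · rw [key hUm] at h1
    refine le_trans (le_of_eq ?_) h1
    rw [integral_sub, integral_const_mul, integral_const_mul, integral_add, integral_const_mul,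
      integral_finsetSum, integral_finsetSum]
    · congr 1
      · congr 1
        exact Finset.sum_congr rfl fun n _ => (key (hA n)).symm
      · congr 1
        congr 1
        · exact Finset.sum_congr rfl fun n _ => (key (hA n)).symm
        · congr 1
          refine Finset.sum_congr rfl fun d _ => ?_
          rw [integral_finsetSum]
          · exact Finset.sum_congr rfl fun n _ => (key ((hA n).inter (hA (n + d)))).symm
          · intro n _
            exact hint ((hA n).inter (hA (n + d)))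
    · intro d _
      exact integrable_finsetSum _ fun n _ => hint ((hA n).inter (hA (n + d)))
    · intro n _
      exact hint (hA n)
    · exact integrable_finsetSum _ fun n _ => hint (hA n)
    · exact (integrable_finsetSum _ fun d _ => integrable_finsetSum _ fun n _ =>
        hint ((hA n).inter (hA (n + d)))).const_mul 2
    · exact (integrable_finsetSum _ fun n _ => hint (hA n)).const_mul _
    · exact ((integrable_finsetSum _ fun n _ => hint (hA n)).add
        ((integrable_finsetSum _ fun d _ => integrable_finsetSum _ fun n _ =>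
        hint ((hA n).inter (hA (n + d)))).const_mul 2)).const_mul _
  · exact ((integrable_finsetSum _ fun n _ => hint (hA n)).const_mul _).sub
      (((integrable_finsetSum _ fun n _ => hint (hA n)).add
        ((integrable_finsetSum _ fun d _ => integrable_finsetSum _ fun n _ =>
        hint ((hA n).inter (hA (n + d)))).const_mul 2)).const_mul _)

end Pool.Agent.N798.Sp
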