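import Pool.Agent.N798.Sp1

/-!
Counting lemmas for the second moment method.
-/

set_option autoImplicit false

open MeasureTheory Set

namespace Pool.Agent.N798.Sp

/-- double counting, upper bound -/
lemma dc_le {Ω : Type} [MeasurableSpace Ω] (μ : Measure Ω) {D : Set Ω} (hDm : MeasurableSet D)
    (hfin : μ D ≠ ⊤) {ι : Type} (S : Finset ι) (w : ι → ℝ) (G : ι → Set Ω) (hG : ∀ i, MeasurableSet (G i))
    (C : ℝ) (h : ∀ x ∈ D, ∑ i ∈ S, w i * (G i).indicator (fun _ => (1:ℝ)) x ≤ C) :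
    ∑ i ∈ S, w i * μ.real (D ∩ G i) ≤ C * μ.real D := by
  have hF : IsFiniteMeasure (μ.restrict D) := ⟨by rw [Measure.restrict_apply_univ]; exact lt_top_iff_ne_top.2 hfin⟩
  have key : ∀ i, ∫ x in D, (G i).indicator (fun _ => (1:ℝ)) x ∂μ = μ.real (D ∩ G i) := by
    intro i
    rw [integral_indicator_const _ (hG i), smul_eq_mul, mul_one, measureReal_def, measureReal_def,
      Measure.restrict_apply (hG i), inter_comm]
  have hint : ∀ i, Integrable (fun x => (G i).indicator (fun _ => (1:ℝ)) x) (μ.restrict D) :=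
    fun i => (integrable_const (1:ℝ)).indicator (hG i)
  have e1 : ∑ i ∈ S, w i * μ.real (D ∩ G i) =
      ∫ x in D, ∑ i ∈ S, w i * (G i).indicator (fun _ => (1:ℝ)) x ∂μ := by
    rw [integral_finsetSum]
    · refine Finset.sum_congr rfl fun i _ => ?_
      rw [integral_const_mul, key]
    · intro i _
      exact (hint i).const_mul _
  rw [e1]
  have e2 : C * μ.real D = ∫ _ in D, C ∂μ := by
    rw [setIntegral_const, smul_eq_mul, mul_comm]
  rw [e2]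
  apply setIntegral_mono_on _ _ hDm h
  · exact integrable_finsetSum _ fun i _ => (hint i).const_mul _
  · exact integrable_const _

/-- double counting, lower bound -/
lemma dc_ge {Ω : Type} [MeasurableSpace Ω] (μ : Measure Ω) {D : Set Ω} (hDm : MeasurableSet D)
    (hfin : μ D ≠ ⊤) {ι : Type} (S : Finset ι) (w : ι → ℝ) (G : ι → Set Ω) (hG : ∀ i, MeasurableSet (G i))
    (C : ℝ) (h : ∀ x ∈ D, C ≤ ∑ i ∈ S, w i * (G i).indicator (fun _ => (1:ℝ)) x) :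
    C * μ.real D ≤ ∑ i ∈ S, w i * μ.real (D ∩ G i) := by
  have h1 := dc_le μ hDm hfin S (fun i => -w i) G hG (-C) (by
    intro x hx
    have := h x hx
    simp only [neg_mul, Finset.sum_neg_distrib]
    linarith)
  simp only [neg_mul, Finset.sum_neg_distrib] at h1
  linarith

/-- number of the integers with logarithm in `[y - η, y]`, lower bound -/
lemma cnt_low {y η : ℝ} (h0 : 0 ≤ η) (h1 : η ≤ 1) {N : ℕ} (hN : Real.exp y ≤ N) :
    Real.exp y * η / 2 - 1 ≤ ((Finset.Icc 1 N).filter (fun n : ℕ => y - η ≤ Real.log n ∧ Real.log n ≤ y)).card := by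
  set a := Real.exp (y - η) with ha
  set b := Real.exp y with hb
  have ha0 : 0 < a := Real.exp_pos _
  have hb0 : 0 < b := Real.exp_pos _
  have hab : a = b * Real.exp (-η) := by rw [ha, hb, ← Real.exp_add]; ring_nf
  have hsub : Finset.Ioc ⌊a⌋₊ ⌊b⌋₊ ⊆
      (Finset.Icc 1 N).filter (fun n : ℕ => y - η ≤ Real.log n ∧ Real.log n ≤ y) := by
    intro n hn
    rw [Finset.mem_Ioc] at hn
    have hn1 : a < n := (Nat.floor_lt' (by omega)).1 hn.1
    have hn2 : (n:ℝ) ≤ b := (Nat.le_floor_iff hb0.le).1 hn.2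
    have hn0 : (0:ℝ) < n := ha0.trans hn1
    rw [Finset.mem_filter, Finset.mem_Icc]
    refine ⟨⟨by omega, ?_⟩, ?_, ?_⟩
    · exact_mod_cast hn2.trans hN
    · rw [Real.le_log_iff_exp_le hn0]; exact hn1.le
    · rw [Real.log_le_iff_le_exp hn0]; exact hn2
  have h2 := Finset.card_le_card hsub
  rw [Nat.card_Ioc] at h2
  have h3 : (⌊b⌋₊ : ℝ) - ⌊a⌋₊ ≤ ((⌊b⌋₊ - ⌊a⌋₊ : ℕ) : ℝ) := by
    have : ⌊b⌋₊ ≤ (⌊b⌋₊ - ⌊a⌋₊) + ⌊a⌋₊ := by omega
    have : (⌊b⌋₊ : ℝ) ≤ ((⌊b⌋₊ - ⌊a⌋₊ : ℕ) : ℝ) + ⌊a⌋₊ := by exact_mod_cast this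
    linarith
  have h4 : (⌊a⌋₊ : ℝ) ≤ a := Nat.floor_le ha0.le
  have h5 : b < ⌊b⌋₊ + 1 := Nat.lt_floor_add_one b
  have h6 : Real.exp (-η) ≤ 1 - η / 2 := by
    rw [Real.exp_neg]
    have h7 : 1 + η ≤ Real.exp η := by linarith [Real.add_one_le_exp η]
    rw [inv_le_iff_one_le_mul₀ (Real.exp_pos _)]
    have h8 : (1:ℝ) ≤ (1 - η / 2) * (1 + η) := by nlinarith
    refine h8.trans (mul_le_mul_of_nonneg_left h7 (by linarith))
  have h9 : a ≤ b * (1 - η / 2) := by rw [hab]; exact mul_le_mul_of_nonneg_left h6 hb0.le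
  have h10 : (((⌊b⌋₊ - ⌊a⌋₊ : ℕ) : ℝ)) ≤
    ((Finset.Icc 1 N).filter (fun n : ℕ => y - η ≤ Real.log n ∧ Real.log n ≤ y)).card := by exact_mod_cast h2
  linarith

/-- number of the integers with logarithm in `[y - η, y]`, upper bound -/
lemma cnt_upp {y η : ℝ} (h0 : 0 ≤ η) (N : ℕ) :
    (((Finset.Icc 1 N).filter (fun n : ℕ => y - η ≤ Real.log n ∧ Real.log n ≤ y)).card : ℝ) ≤
      Real.exp y * η + 1 := by
  set a := Real.exp (y - η) with ha
  set b := Real.exp y with hb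
  have ha0 : 0 < a := Real.exp_pos _
  have hb0 : 0 < b := Real.exp_pos _
  have hab : a = b * Real.exp (-η) := by rw [ha, hb, ← Real.exp_add]; ring_nf
  have hsub : (Finset.Icc 1 N).filter (fun n : ℕ => y - η ≤ Real.log n ∧ Real.log n ≤ y) ⊆
      Finset.Icc ⌈a⌉₊ ⌊b⌋₊ := by
    intro n hn
    rw [Finset.mem_filter, Finset.mem_Icc] at hn
    have hn0 : (0:ℝ) < n := by exact_mod_cast hn.1.1
    rw [Finset.mem_Icc]
    refine ⟨Nat.ceil_le.2 ?_, Nat.le_floor ?_⟩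
    · exact (Real.le_log_iff_exp_le hn0).1 hn.2.1
    · exact (Real.log_le_iff_le_exp hn0).1 hn.2.2
  have h2 := Finset.card_le_card hsub
  rw [Nat.card_Icc] at h2
  have hceil : a ≤ ⌈a⌉₊ := Nat.le_ceil a
  have hfloor : (⌊b⌋₊ : ℝ) ≤ b := Nat.floor_le hb0.le
  have hab2 : a ≤ b := by rw [hab]; exact mul_le_of_le_one_right hb0.le (Real.exp_le_one_iff.2 (by linarith))
  have h3 : ((⌊b⌋₊ + 1 - ⌈a⌉₊ : ℕ) : ℝ) ≤ b + 1 - a := by
    by_cases h : ⌈a⌉₊ ≤ ⌊b⌋₊ + 1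
    · rw [Nat.cast_sub h]; push_cast; linarith
    · have : ⌊b⌋₊ + 1 - ⌈a⌉₊ = 0 := by omega
      rw [this]; push_cast; linarith
  have h4 : 1 - η ≤ Real.exp (-η) := by linarith [Real.add_one_le_exp (-η)]
  have h5 : b * (1 - η) ≤ a := by rw [hab]; exact mul_le_mul_of_nonneg_left h4 hb0.le
  have h10 : (((Finset.Icc 1 N).filter (fun n : ℕ => y - η ≤ Real.log n ∧ Real.log n ≤ y)).card : ℝ) ≤
    ((⌊b⌋₊ + 1 - ⌈a⌉₊ : ℕ) : ℝ) := by exact_mod_cast h2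
  linarith

/-- a set of integers of diameter at most `X` has at most `X + 1` elements -/
lemma card_diam {S : Finset ℕ} {X : ℝ} (hX : 0 ≤ X) (h : ∀ n ∈ S, ∀ m ∈ S, n < m → (m:ℝ) - n ≤ X) :
    (S.card : ℝ) ≤ X + 1 := by
  rcases S.eq_empty_or_nonempty with rfl | hne
  · simp only [Finset.card_empty, Nat.cast_zero]; linarith
  set n₀ := S.min' hne with hn₀
  have hn₀S : n₀ ∈ S := S.min'_mem hne
  have hsub : S ⊆ Finset.Icc n₀ (n₀ + ⌊X⌋₊) := by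
    intro m hm
    have h1 : n₀ ≤ m := S.min'_le m hm
    rw [Finset.mem_Icc]
    refine ⟨h1, ?_⟩
    rcases h1.eq_or_lt with h2 | h2
    · omega
    · have h3 := h n₀ hn₀S m hm h2
      have h4 : ((m - n₀ : ℕ) : ℝ) ≤ X := by rw [Nat.cast_sub h1]; exact h3
      have h5 := Nat.le_floor h4
      omega
  have h2 := Finset.card_le_card hsub
  rw [Nat.card_Icc] at h2
  have h3 : (S.card : ℝ) ≤ ((n₀ + ⌊X⌋₊ + 1 - n₀ : ℕ) : ℝ) := by exact_mod_cast h2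
  have h4 : n₀ + ⌊X⌋₊ + 1 - n₀ = ⌊X⌋₊ + 1 := by omega
  rw [h4] at h3
  push_cast at h3
  linarith [Nat.floor_le hX]

/-- the sum of the inverses of the integers in `[D, D']` -/
lemma sum_inv {D D' : ℝ} (hD : 0 < D) (hD' : 0 ≤ D') (N : ℕ) :
    ∑ d ∈ (Finset.Icc 1 N).filter (fun d : ℕ => D ≤ d ∧ (d:ℝ) ≤ D'), (1:ℝ) / d ≤ D' / D := by
  have h1 : ∑ d ∈ (Finset.Icc 1 N).filter (fun d : ℕ => D ≤ d ∧ (d:ℝ) ≤ D'), (1:ℝ) / d ≤
      ∑ d ∈ (Finset.Icc 1 N).filter (fun d : ℕ => D ≤ d ∧ (d:ℝ) ≤ D'), 1 / D := by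
    refine Finset.sum_le_sum fun d hd => ?_
    rw [Finset.mem_filter] at hd
    exact one_div_le_one_div_of_le hD hd.2.1
  refine h1.trans ?_
  rw [Finset.sum_const, nsmul_eq_mul]
  have h2 : (Finset.Icc 1 N).filter (fun d : ℕ => D ≤ d ∧ (d:ℝ) ≤ D') ⊆ Finset.Icc 1 ⌊D'⌋₊ := by
    intro d hd
    rw [Finset.mem_filter, Finset.mem_Icc] at hd
    rw [Finset.mem_Icc]
    exact ⟨hd.1.1, Nat.le_floor hd.2.2⟩
  have h3 := Finset.card_le_card h2
  rw [Nat.card_Icc] at h3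
  have h4 : (((Finset.Icc 1 N).filter (fun d : ℕ => D ≤ d ∧ (d:ℝ) ≤ D')).card : ℝ) ≤ ⌊D'⌋₊ := by
    have : ⌊D'⌋₊ + 1 - 1 = ⌊D'⌋₊ := by omega
    rw [this] at h3
    exact_mod_cast h3
  have h5 := h4.trans (Nat.floor_le hD')
  rw [mul_one_div]
  exact div_le_div_of_nonneg_right h5 hD.le

end Pool.Agent.N798.Sp
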