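import Pool.Agent.N798.Sp2

/-!
First and second moments of the number of the `n` with `a + c log n ∈ F`, for `(a, c)` in a square of side
`1 / L` and `F ⊆ [L, L + 1]`.
-/

set_option autoImplicit false

open MeasureTheory Set

namespace Pool.Agent.N798.Sp

/-- parameters of a square -/
structure Par (A C₁ C₂ L a₀ c₀ : ℝ) : Prop where
  hA : 0 ≤ A
  hC : 0 < C₁
  h1 : C₁ ≤ c₀
  h2 : c₀ ≤ C₂
  ha : |a₀| ≤ A
  hL1 : 1 ≤ L
  hLA : A + 1 ≤ L

/-- the constant `K` -/
noncomputable def KK (A C₁ : ℝ) : ℝ := (1 + A) / C₁ + 1 / C₁ ^ 2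

section
variable {A C₁ C₂ L a₀ c₀ : ℝ}

lemma KK_pos (hA : 0 ≤ A) (hC : 0 < C₁) : 0 < KK A C₁ := by unfold KK; positivity

/-- the range of `x` with `a + c x = u` -/
lemma Par.range (P : Par A C₁ C₂ L a₀ c₀) {a c u x : ℝ} (ha : a ∈ Icc a₀ (a₀ + 1 / L))
    (hc : c ∈ Icc c₀ (c₀ + 1 / L)) (hu : u ∈ Icc L (L + 1)) (h : a + c * x = u) : |x - L / c₀| ≤ KK A C₁ := by
  have hL : 0 < L := lt_of_lt_of_le one_pos P.hL1
  have hh1 : 1 / L ≤ 1 := by rw [div_le_one hL]; exact P.hL1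
  have hh0 : 0 < 1 / L := by positivity
  have hc₀ : 0 < c₀ := P.hC.trans_le P.h1
  have hc0 : 0 < c := hc₀.trans_le hc.1
  have ha' := abs_le.1 P.ha
  have hx : x = (u - a) / c := by
    field_simp
    linarith
  have hA := P.hA
  have hC := P.hC
  have hk : (1 + A) / c₀ ≤ (1 + A) / C₁ := by
    apply div_le_div_of_nonneg_left (by linarith) P.hC P.h1
  have hk2 : 1 / c₀ ^ 2 ≤ 1 / C₁ ^ 2 := by
    apply one_div_le_one_div_of_le (by positivity)
    exact pow_le_pow_left₀ P.hC.le P.h1 2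
  rw [abs_le]
  unfold KK
  constructor
  · -- lower bound
    have hnum : 0 ≤ L - A - 1 := by linarith [P.hLA]
    have h3 : (L - A - 1) / (c₀ + 1 / L) ≤ x := by
      rw [hx]
      apply div_le_div₀ (by linarith [hu.1, ha.2, ha'.2, P.hLA]) (by linarith [hu.1, ha.2, ha'.2]) hc0 hc.2
    have h4 : L / c₀ - (1 + A) / c₀ - 1 / c₀ ^ 2 ≤ (L - A - 1) / (c₀ + 1 / L) := by
      rw [le_div_iff₀ (by positivity)]
      have e1 : (L / c₀ - (1 + A) / c₀ - 1 / c₀ ^ 2) * (c₀ + 1 / L) =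
          L - (1 + A) - 1 / c₀ + (1 / c₀ - (1 + A) / (c₀ * L) - 1 / (c₀ ^ 2 * L)) := by
        field_simp
      rw [e1]
      have e2 : 0 ≤ (1 + A) / (c₀ * L) := by positivity
      have e3 : 0 ≤ 1 / (c₀ ^ 2 * L) := by positivity
      linarith
    linarith
  · have h3 : x ≤ (L + 1 + A) / c₀ := by
      rw [hx]
      apply div_le_div₀ (by linarith) (by linarith [hu.2, ha.1, ha'.1]) hc₀ hc.1
    have h4 : (L + 1 + A) / c₀ = L / c₀ + (1 + A) / c₀ := by rw [← add_div]; ring_nf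
    have h5 : 0 ≤ 1 / C₁ ^ 2 := by positivity
    linarith

/-- the constant in the lower bound for the first moment -/
noncomputable def k₁ (A C₁ C₂ : ℝ) : ℝ := Real.exp (-KK A C₁) / (4 * (C₂ + 1))

/-- the constant in the upper bound for the first moment -/
noncomputable def k₂ (A C₁ : ℝ) : ℝ := Real.exp (KK A C₁) / C₁ + 1

/-- the events -/
def Ev (F : Set ℝ) (n : ℕ) : Set (ℝ × ℝ) := {p | p.1 + p.2 * Real.log n ∈ F}

/-- the square -/
def Sq (L a₀ c₀ : ℝ) : Set (ℝ × ℝ) := Icc a₀ (a₀ + 1 / L) ×ˢ Icc c₀ (c₀ + 1 / L)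

/-- auxiliary sets -/
def Gn (L a₀ : ℝ) (n : ℕ) : Set (ℝ × ℝ) := {p | p.1 - p.2 * Real.log n ∈ Icc a₀ (a₀ + 1 / L)}

lemma Ev_meas {F : Set ℝ} (hF : MeasurableSet F) (n : ℕ) : MeasurableSet (Ev F n) := by
  have : Measurable fun p : ℝ × ℝ => p.1 + p.2 * Real.log n := by fun_prop
  exact this hF

lemma Gn_meas (L a₀ : ℝ) (n : ℕ) : MeasurableSet (Gn L a₀ n) := by
  have : Measurable fun p : ℝ × ℝ => p.1 - p.2 * Real.log n := by fun_prop
  exact this measurableSet_Icc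

lemma Sq_meas (L a₀ c₀ : ℝ) : MeasurableSet (Sq L a₀ c₀) := measurableSet_Icc.prod measurableSet_Icc

lemma Sq_fin (L a₀ c₀ : ℝ) : volume (Sq L a₀ c₀) ≠ ⊤ := by
  unfold Sq
  rw [Measure.volume_eq_prod, Measure.prod_prod, Real.volume_Icc, Real.volume_Icc]
  exact ENNReal.mul_ne_top ENNReal.ofReal_ne_top ENNReal.ofReal_ne_top

lemma vol_ev {F : Set ℝ} (L a₀ c₀ : ℝ) (n : ℕ) : volume.real (Sq L a₀ c₀ ∩ Ev F n) =
    volume.real ((F ×ˢ Icc c₀ (c₀ + 1 / L)) ∩ Gn L a₀ n) := by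
  rw [← vol1 (Real.log n) ((F ×ˢ Icc c₀ (c₀ + 1 / L)) ∩ Gn L a₀ n)]
  congr 1
  ext p
  simp only [Sq, Ev, Gn, mem_inter_iff, mem_prod, mem_ofPred_eq]
  rw [show p.1 + p.2 * Real.log n - p.2 * Real.log n = p.1 by ring]
  tauto

lemma F_fin {F : Set ℝ} (hF : F ⊆ Icc L (L + 1)) : volume F ≠ ⊤ := by
  refine ne_top_of_le_ne_top ?_ (measure_mono hF)
  rw [Real.volume_Icc]; exact ENNReal.ofReal_ne_top

lemma vol_prod_real (A B : Set ℝ) : volume.real (A ×ˢ B) = volume.real A * volume.real B := by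
  rw [measureReal_def, measureReal_def, measureReal_def, Measure.volume_eq_prod, Measure.prod_prod,
    ENNReal.toReal_mul]

lemma gn_iff (P : Par A C₁ C₂ L a₀ c₀) {u c : ℝ} (hc : c ∈ Icc c₀ (c₀ + 1 / L)) (n : ℕ) :
    (u, c) ∈ Gn L a₀ n ↔ (u - a₀) / c - 1 / L / c ≤ Real.log n ∧ Real.log n ≤ (u - a₀) / c := by
  have hc0 : 0 < c := (P.hC.trans_le P.h1).trans_le hc.1
  simp only [Gn, mem_ofPred_eq, mem_Icc]
  rw [← sub_div, div_le_iff₀ hc0, le_div_iff₀ hc0]
  constructor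
  · rintro ⟨h1, h2⟩
    constructor <;> linarith
  · rintro ⟨h1, h2⟩
    constructor <;> linarith

lemma ind_sum (s : Finset ℕ) (G : ℕ → Set (ℝ × ℝ)) (x : ℝ × ℝ) [DecidablePred fun n => x ∈ G n] :
    ∑ n ∈ s, (1:ℝ) * (G n).indicator (fun _ => (1:ℝ)) x = ((s.filter fun n => x ∈ G n).card : ℝ) := by
  rw [Finset.card_filter]
  push_cast
  refine Finset.sum_congr rfl fun n _ => ?_
  rw [one_mul, indicator_apply]

/-- the first moment, lower bound -/
lemma first_low (P : Par A C₁ C₂ L a₀ c₀) (hM : 4 * (C₂ + 1) * Real.exp (KK A C₁) * L ≤ Real.exp (L / c₀))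
    {F : Set ℝ} (hF : F ⊆ Icc L (L + 1)) (hFm : MeasurableSet F) {N : ℕ}
    (hN : Real.exp (KK A C₁ + L / c₀) ≤ N) :
    k₁ A C₁ C₂ * Real.exp (L / c₀) * volume.real F * (1 / L ^ 2) ≤
      ∑ n ∈ Finset.Icc 1 N, volume.real (Sq L a₀ c₀ ∩ Ev F n) := by
  classical
  have hL : 0 < L := lt_of_lt_of_le one_pos P.hL1
  have hc₀ : 0 < c₀ := P.hC.trans_le P.h1
  have hC₂ : 0 < C₂ := hc₀.trans_le P.h2
  have hh0 : 0 < 1 / L := by positivity
  have hh1 : 1 / L ≤ 1 := by rw [div_le_one hL]; exact P.hL1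
  have hDfin : volume (F ×ˢ Icc c₀ (c₀ + 1 / L)) ≠ ⊤ := by
    rw [Measure.volume_eq_prod, Measure.prod_prod, Real.volume_Icc]
    exact ENNReal.mul_ne_top (F_fin hF) ENNReal.ofReal_ne_top
  have h := dc_ge volume (hFm.prod measurableSet_Icc) hDfin (Finset.Icc 1 N) (fun _ => 1) (Gn L a₀)
    (Gn_meas L a₀) (k₁ A C₁ C₂ * Real.exp (L / c₀) * (1 / L)) (by
      rintro ⟨u, c⟩ ⟨hu, hc⟩
      simp only at hu hc
      rw [ind_sum]
      have hc0 : 0 < c := hc₀.trans_le hc.1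
      have e1 : (Finset.Icc 1 N).filter (fun n : ℕ => (u, c) ∈ Gn L a₀ n) =
          (Finset.Icc 1 N).filter (fun n : ℕ => (u - a₀) / c - 1 / L / c ≤ Real.log n ∧
            Real.log n ≤ (u - a₀) / c) := by
        ext n
        simp only [Finset.mem_filter, gn_iff P hc n]
      rw [e1]
      have hr := P.range (a := a₀) (c := c) (x := (u - a₀) / c) ⟨le_rfl, by linarith⟩ hc (hF hu) (by field_simp; ring)
      rw [abs_le] at hr
      -- without assuming `η ≤ 1` use a smaller `η`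
      set η : ℝ := 1 / L / (C₂ + 1) with hη
      have hη0 : 0 < η := by positivity
      have hη1 : η ≤ 1 := by
        rw [hη, div_le_one (by positivity)]
        linarith
      have hηc : η ≤ 1 / L / c := by
        apply div_le_div_of_nonneg_left hh0.le hc0
        linarith [hc.2, P.h2]
      have h5 := cnt_low (y := (u - a₀) / c) hη0.le hη1 (N := N) (by
        refine le_trans (Real.exp_le_exp.2 ?_) hN
        linarith)
      have h6 : ((Finset.Icc 1 N).filter (fun n : ℕ => (u - a₀) / c - η ≤ Real.log n ∧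
          Real.log n ≤ (u - a₀) / c)).card ≤ ((Finset.Icc 1 N).filter (fun n : ℕ =>
            (u - a₀) / c - 1 / L / c ≤ Real.log n ∧ Real.log n ≤ (u - a₀) / c)).card := by
        apply Finset.card_le_card
        intro n hn
        rw [Finset.mem_filter] at hn ⊢
        exact ⟨hn.1, by linarith [hn.2.1], hn.2.2⟩
      have h7 : (((Finset.Icc 1 N).filter (fun n : ℕ => (u - a₀) / c - η ≤ Real.log n ∧
          Real.log n ≤ (u - a₀) / c)).card : ℝ) ≤ ((Finset.Icc 1 N).filter (fun n : ℕ =>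
            (u - a₀) / c - 1 / L / c ≤ Real.log n ∧ Real.log n ≤ (u - a₀) / c)).card := by exact_mod_cast h6
      refine le_trans ?_ (h5.trans h7)
      have h8 : Real.exp (-KK A C₁) * Real.exp (L / c₀) ≤ Real.exp ((u - a₀) / c) := by
        rw [← Real.exp_add, Real.exp_le_exp]; linarith
      have h9 : Real.exp (-KK A C₁) * Real.exp (L / c₀) * η / 2 ≤ Real.exp ((u - a₀) / c) * η / 2 := by
        gcongr
      refine le_trans ?_ (sub_le_sub_right h9 1)
      unfold k₁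
      rw [hη]
      have h10 : 4 * (C₂ + 1) * L ≤ Real.exp (-KK A C₁) * Real.exp (L / c₀) := by
        rw [Real.exp_neg, inv_mul_eq_div, le_div_iff₀ (Real.exp_pos _)]
        linarith
      set X : ℝ := Real.exp (-KK A C₁) * Real.exp (L / c₀) with hX
      have e2 : Real.exp (-KK A C₁) / (4 * (C₂ + 1)) * Real.exp (L / c₀) * (1 / L) = X / (4 * (C₂ + 1) * L) := by
        rw [hX]; field_simp
      have e3 : X * (1 / L / (C₂ + 1)) / 2 = 2 * (X / (4 * (C₂ + 1) * L)) := by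
        field_simp
        ring
      rw [e2, e3]
      have h11 : 1 ≤ X / (4 * (C₂ + 1) * L) := by
        rw [le_div_iff₀ (by positivity)]; linarith
      linarith)
  simp only [one_mul] at h
  rw [vol_prod_real] at h
  have e4 : volume.real (Icc c₀ (c₀ + 1 / L)) = 1 / L := by
    rw [Real.volume_real_Icc_of_le (by linarith)]; ring
  rw [e4] at h
  refine le_trans (le_of_eq ?_) (h.trans (le_of_eq ?_))
  · field_simp
  · exact Finset.sum_congr rfl fun n _ => (vol_ev L a₀ c₀ n).symm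

/-- the first moment, upper bound -/
lemma first_upp (P : Par A C₁ C₂ L a₀ c₀) (hM : L ≤ Real.exp (L / c₀))
    {F : Set ℝ} (hF : F ⊆ Icc L (L + 1)) (hFm : MeasurableSet F) (N : ℕ) :
    ∑ n ∈ Finset.Icc 1 N, volume.real (Sq L a₀ c₀ ∩ Ev F n) ≤
      k₂ A C₁ * Real.exp (L / c₀) * volume.real F * (1 / L ^ 2) := by
  classical
  have hL : 0 < L := lt_of_lt_of_le one_pos P.hL1
  have hc₀ : 0 < c₀ := P.hC.trans_le P.h1
  have hC₁ := P.hC
  have hh0 : 0 < 1 / L := by positivity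
  have hh1 : 1 / L ≤ 1 := by rw [div_le_one hL]; exact P.hL1
  have hDfin : volume (F ×ˢ Icc c₀ (c₀ + 1 / L)) ≠ ⊤ := by
    rw [Measure.volume_eq_prod, Measure.prod_prod, Real.volume_Icc]
    exact ENNReal.mul_ne_top (F_fin hF) ENNReal.ofReal_ne_top
  have h := dc_le volume (hFm.prod measurableSet_Icc) hDfin (Finset.Icc 1 N) (fun _ => 1) (Gn L a₀)
    (Gn_meas L a₀) (k₂ A C₁ * Real.exp (L / c₀) * (1 / L)) (by
      rintro ⟨u, c⟩ ⟨hu, hc⟩
      simp only at hu hc
      rw [ind_sum]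
      have hc0 : 0 < c := hc₀.trans_le hc.1
      have e1 : (Finset.Icc 1 N).filter (fun n : ℕ => (u, c) ∈ Gn L a₀ n) =
          (Finset.Icc 1 N).filter (fun n : ℕ => (u - a₀) / c - 1 / L / c ≤ Real.log n ∧
            Real.log n ≤ (u - a₀) / c) := by
        ext n
        simp only [Finset.mem_filter, gn_iff P hc n]
      rw [e1]
      have hr := P.range (a := a₀) (c := c) (x := (u - a₀) / c) ⟨le_rfl, by linarith⟩ hc (hF hu) (by field_simp; ring)
      rw [abs_le] at hr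
      have h5 := cnt_upp (y := (u - a₀) / c) (η := 1 / L / c) (by positivity) N
      refine h5.trans ?_
      have h8 : Real.exp ((u - a₀) / c) ≤ Real.exp (KK A C₁) * Real.exp (L / c₀) := by
        rw [← Real.exp_add, Real.exp_le_exp]; linarith
      have h9 : 1 / L / c ≤ 1 / L / C₁ := div_le_div_of_nonneg_left hh0.le P.hC (P.h1.trans hc.1)
      have h10 : Real.exp ((u - a₀) / c) * (1 / L / c) ≤
          (Real.exp (KK A C₁) * Real.exp (L / c₀)) * (1 / L / C₁) :=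
        mul_le_mul h8 h9 (by positivity) (by positivity)
      have h11 : 1 ≤ Real.exp (L / c₀) * (1 / L) := by
        rw [mul_one_div, le_div_iff₀ hL]; linarith
      unfold k₂
      have e2 : (Real.exp (KK A C₁) / C₁ + 1) * Real.exp (L / c₀) * (1 / L) =
          (Real.exp (KK A C₁) * Real.exp (L / c₀)) * (1 / L / C₁) + Real.exp (L / c₀) * (1 / L) := by
        field_simp
      rw [e2]
      linarith)
  simp only [one_mul] at h
  rw [vol_prod_real] at h
  have e4 : volume.real (Icc c₀ (c₀ + 1 / L)) = 1 / L := by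
    rw [Real.volume_real_Icc_of_le (by linarith)]; ring
  rw [e4] at h
  refine le_trans (le_of_eq ?_) (h.trans (le_of_eq ?_))
  · exact Finset.sum_congr rfl fun n _ => (vol_ev L a₀ c₀ n)
  · field_simp

end

end Pool.Agent.N798.Sp
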