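import Pool.Agent.N798.Sp3

/-!
The second moment, and the resulting lower bound for the measure of the `(a, c)` with `a + c log n ∈ F` for
some `n`.
-/

set_option autoImplicit false

open MeasureTheory Set

namespace Pool.Agent.N798.Sp

section
variable {A C₁ C₂ L a₀ c₀ : ℝ}

/-- `log (n + d) - log n` -/
noncomputable def dl (n d : ℕ) : ℝ := Real.log ((n + d : ℕ) : ℝ) - Real.log n

/-- the image of the square under `(a, c) ↦ (a + c log n, a + c log (n + d))` -/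
def Rn (L a₀ c₀ : ℝ) (n d : ℕ) : Set (ℝ × ℝ) := {p | (p.2 - p.1) / dl n d ∈ Icc c₀ (c₀ + 1 / L) ∧
  p.1 - (p.2 - p.1) / dl n d * Real.log n ∈ Icc a₀ (a₀ + 1 / L)}

lemma Rn_meas (L a₀ c₀ : ℝ) (n d : ℕ) : MeasurableSet (Rn L a₀ c₀ n d) := by
  have h1 : Measurable fun p : ℝ × ℝ => (p.2 - p.1) / dl n d := by fun_prop
  have h2 : Measurable fun p : ℝ × ℝ => p.1 - (p.2 - p.1) / dl n d * Real.log n := by fun_prop
  exact (h1 measurableSet_Icc).inter (h2 measurableSet_Icc)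

lemma dl_pos {n d : ℕ} (hn : 1 ≤ n) (hd : 1 ≤ d) : 0 < dl n d := by
  unfold dl
  rw [sub_pos]
  apply Real.log_lt_log
  · exact_mod_cast hn
  · exact_mod_cast (by omega : n < n + d)

lemma vol_pair {F : Set ℝ} (L a₀ c₀ : ℝ) {n d : ℕ} (hn : 1 ≤ n) (hd : 1 ≤ d) :
    volume.real (Sq L a₀ c₀ ∩ (Ev F n ∩ Ev F (n + d))) =
      (dl n d)⁻¹ * volume.real ((F ×ˢ F) ∩ Rn L a₀ c₀ n d) := by
  have hδ := dl_pos hn hd
  have hlt : Real.log n < Real.log ((n + d : ℕ) : ℝ) := by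
    unfold dl at hδ; linarith
  have h := vol2 hlt ((F ×ˢ F) ∩ Rn L a₀ c₀ n d)
  unfold dl at hδ ⊢
  rw [← h]
  congr 1
  ext p
  simp only [Sq, Ev, Rn, dl, mem_inter_iff, mem_prod, mem_ofPred_eq]
  have e1 : (p.1 + p.2 * Real.log ((n + d : ℕ) : ℝ) - (p.1 + p.2 * Real.log n)) /
      (Real.log ((n + d : ℕ) : ℝ) - Real.log n) = p.2 := by
    field_simp
    ring
  rw [e1]
  rw [show p.1 + p.2 * Real.log n - p.2 * Real.log n = p.1 by ring]
  tauto

/-- the constant in the count of the pairs -/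
noncomputable def k₄ (A C₁ C₂ : ℝ) : ℝ := 2 * C₂ * Real.exp (KK A C₁) / C₁

/-- the constant `Λ` -/
noncomputable def k₅ (A C₁ C₂ : ℝ) : ℝ := Real.exp (2 * KK A C₁ + 1 / C₁) * (C₂ + 1) / C₁

/-- the constant in the upper bound for the second moment -/
noncomputable def k₃ (A C₁ C₂ : ℝ) : ℝ :=
  (k₄ A C₁ C₂ + 1) * Real.exp (KK A C₁ + 1 / C₁) * k₅ A C₁ C₂

/-- facts about a pair -/
lemma pair_facts (P : Par A C₁ C₂ L a₀ c₀) {u v : ℝ} (hu : u ∈ Icc L (L + 1)) (hv : v ∈ Icc L (L + 1))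
    {n d : ℕ} (hn : 1 ≤ n) (hd : 1 ≤ d) (h : (u, v) ∈ Rn L a₀ c₀ n d) :
    u < v ∧ Real.exp (-KK A C₁) * Real.exp (L / c₀) ≤ n ∧
    ((n:ℝ) + d) ≤ Real.exp (KK A C₁) * Real.exp (L / c₀) ∧ dl n d ≤ 1 / C₁ ∧
    (v - u) / (C₂ + 1) ≤ dl n d ∧ dl n d ≤ (v - u) / C₁ ∧
    |Real.log n - L / c₀| ≤ KK A C₁ := by
  have hL : 0 < L := lt_of_lt_of_le one_pos P.hL1
  have hc₀ : 0 < c₀ := P.hC.trans_le P.h1
  have hC₁ := P.hC
  have hC₂ : 0 < C₂ := hc₀.trans_le P.h2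
  have hh1 : 1 / L ≤ 1 := by rw [div_le_one hL]; exact P.hL1
  have hδ := dl_pos hn hd
  obtain ⟨hc, ha⟩ := h
  simp only at hc ha
  set c : ℝ := (v - u) / dl n d with hcdef
  have hc0 : 0 < c := hc₀.trans_le hc.1
  have hvu : v - u = c * dl n d := by rw [hcdef]; field_simp
  have hvu0 : 0 < v - u := by rw [hvu]; positivity
  have hvu1 : v - u ≤ 1 := by linarith [hu.1, hv.2]
  have r1 := P.range ha hc hu (x := Real.log n) (by ring)
  have r2 := P.range ha hc hv (x := Real.log ((n + d : ℕ) : ℝ)) (by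
    have : Real.log ((n + d : ℕ) : ℝ) = dl n d + Real.log n := by unfold dl; ring
    rw [this, mul_add, ← hvu]; ring)
  have r1' := abs_le.1 r1
  have r2' := abs_le.1 r2
  have hn0 : (0:ℝ) < n := by exact_mod_cast hn
  have hnd0 : (0:ℝ) < ((n + d : ℕ) : ℝ) := by exact_mod_cast (by omega : 0 < n + d)
  refine ⟨by linarith, ?_, ?_, ?_, ?_, ?_, r1⟩
  · rw [← Real.exp_add, ← Real.le_log_iff_exp_le hn0]; linarith
  · have : ((n:ℝ) + d) = ((n + d : ℕ) : ℝ) := by push_cast; ring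
    rw [this, ← Real.exp_add, ← Real.log_le_iff_le_exp hnd0]; linarith
  · rw [le_div_iff₀ hC₁]
    have : C₁ * dl n d ≤ c * dl n d := by
      have h2 : C₁ ≤ c := P.h1.trans hc.1
      gcongr
    linarith
  · rw [div_le_iff₀ (by positivity), hvu, mul_comm]
    have h2 : c ≤ C₂ + 1 := by linarith [hc.2, P.h2]
    gcongr
  · rw [le_div_iff₀ hC₁, hvu, mul_comm]
    have h2 : C₁ ≤ c := P.h1.trans hc.1
    gcongr

/-- two pairs with the same difference are close -/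
lemma pair_close (P : Par A C₁ C₂ L a₀ c₀) (hLK : 2 * C₂ * KK A C₁ ≤ L)
    {u v : ℝ} (hu : u ∈ Icc L (L + 1)) (hv : v ∈ Icc L (L + 1))
    {n n' d : ℕ} (hn : 1 ≤ n) (hnn : n < n') (hd : 1 ≤ d) (h : (u, v) ∈ Rn L a₀ c₀ n d)
    (h' : (u, v) ∈ Rn L a₀ c₀ n' d) :
    (n':ℝ) - n ≤ k₄ A C₁ C₂ * Real.exp (L / c₀) * (1 / L ^ 2) := by
  have hL : 0 < L := lt_of_lt_of_le one_pos P.hL1
  have hc₀ : 0 < c₀ := P.hC.trans_le P.h1
  have hC₁ := P.hC
  have hC₂ : 0 < C₂ := hc₀.trans_le P.h2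
  have hn' : 1 ≤ n' := by omega
  obtain ⟨f1, f2, f3, f4, f5, f6, f7⟩ := pair_facts P hu hv hn hd h
  have hδ := dl_pos hn hd
  have hδ' := dl_pos hn' hd
  obtain ⟨hc, ha⟩ := h
  obtain ⟨hc', ha'⟩ := h'
  simp only at hc ha hc' ha'
  set c : ℝ := (v - u) / dl n d with hcdef
  set c' : ℝ := (v - u) / dl n' d with hcdef'
  have hc0 : 0 < c := hc₀.trans_le hc.1
  have hn0 : (0:ℝ) < n := by exact_mod_cast hn
  have hn0' : (0:ℝ) < n' := by exact_mod_cast hn'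
  have hd0 : (0:ℝ) < d := by exact_mod_cast hd
  have hnn' : (n:ℝ) < n' := by exact_mod_cast hnn
  -- the ratio
  have hdiff : (d:ℝ) * (n' - n) / ((n + d) * n') ≤ dl n d - dl n' d := by
    have e1 : dl n d - dl n' d = Real.log (((n:ℝ) + d) * n' / (n * (n' + d))) := by
      unfold dl
      rw [Real.log_div (by positivity) (by positivity), Real.log_mul (by positivity) (by positivity),
        Real.log_mul (by positivity) (by positivity)]
      push_cast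
      ring
    rw [e1]
    have h1 := Real.one_sub_inv_le_log_of_pos (x := ((n:ℝ) + d) * n' / (n * (n' + d))) (by positivity)
    refine le_trans (le_of_eq ?_) h1
    rw [inv_div]
    field_simp
    ring
  have hδu : dl n' d ≤ d / n' := by
    unfold dl
    have h1 : Real.log ((n' + d : ℕ) : ℝ) - Real.log n' = Real.log (((n':ℝ) + d) / n') := by
      rw [Real.log_div (by positivity) (by positivity)]; push_cast; ring
    rw [h1]
    have h2 := Real.log_le_sub_one_of_pos (x := ((n':ℝ) + d) / n') (by positivity)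
    refine h2.trans (le_of_eq ?_)
    field_simp
    ring
  -- c' - c
  have hcc : c' - c = c * ((dl n d - dl n' d) / dl n' d) := by
    rw [hcdef, hcdef']; field_simp
  have h3 : ((n':ℝ) - n) / (n + d) ≤ (dl n d - dl n' d) / dl n' d := by
    rw [le_div_iff₀ hδ']
    refine le_trans ?_ hdiff
    have h4 : ((n':ℝ) - n) / (n + d) * dl n' d ≤ ((n':ℝ) - n) / (n + d) * (d / n') := by
      apply mul_le_mul_of_nonneg_left hδu
      apply div_nonneg (by linarith) (by positivity)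
    refine h4.trans (le_of_eq ?_)
    field_simp
  have h5 : C₁ * (((n':ℝ) - n) / (n + d)) ≤ c' - c := by
    rw [hcc]
    have h2 : C₁ ≤ c := P.h1.trans hc.1
    have h0 : 0 ≤ ((n':ℝ) - n) / (n + d) := div_nonneg (by linarith) (by positivity)
    exact mul_le_mul h2 h3 h0 hc0.le
  -- a - a'
  have h6 : (c' - c) * Real.log n ≤ 1 / L := by
    have h7 : c' * Real.log n' - c * Real.log n ≤ 1 / L := by linarith [ha.1, ha.2, ha'.1, ha'.2]
    have h8 : c' * Real.log n ≤ c' * Real.log n' := by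
      have : 0 < c' := hc₀.trans_le hc'.1
      have h9 : Real.log n ≤ Real.log n' := Real.log_le_log hn0 hnn'.le
      gcongr
    nlinarith
  have h7 : L / (2 * C₂) ≤ Real.log n := by
    have h8 := (abs_le.1 f7).1
    have h9 : L / C₂ ≤ L / c₀ := div_le_div_of_nonneg_left hL.le hc₀ P.h2
    have h10 : KK A C₁ ≤ L / (2 * C₂) := by rw [le_div_iff₀ (by positivity)]; linarith
    have h11 : L / C₂ = L / (2 * C₂) + L / (2 * C₂) := by field_simp; ring
    linarith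
  have hcc0 : 0 ≤ c' - c := le_trans (mul_nonneg hC₁.le (div_nonneg (by linarith) (by positivity))) h5
  have h8 : (c' - c) * (L / (2 * C₂)) ≤ 1 / L := (mul_le_mul_of_nonneg_left h7 hcc0).trans h6
  have h9 : c' - c ≤ 2 * C₂ * (1 / L ^ 2) := by
    have e : (c' - c) * (L / (2 * C₂)) = (c' - c) * L / (2 * C₂) := by ring
    rw [e, div_le_iff₀ (by positivity)] at h8
    have e2 : (c' - c) * L * L ≤ 2 * C₂ := by
      have := mul_le_mul_of_nonneg_right h8 hL.le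
      refine this.trans (le_of_eq ?_)
      field_simp
    rw [mul_one_div, le_div_iff₀ (by positivity)]
    calc (c' - c) * L ^ 2 = (c' - c) * L * L := by ring
      _ ≤ 2 * C₂ := e2
  have h10 : C₁ * (((n':ℝ) - n) / (n + d)) ≤ 2 * C₂ * (1 / L ^ 2) := h5.trans h9
  have h11 : (n':ℝ) - n ≤ (n + d) * (2 * C₂ * (1 / L ^ 2) / C₁) := by
    have h12 : ((n':ℝ) - n) / (n + d) ≤ 2 * C₂ * (1 / L ^ 2) / C₁ := by
      rw [le_div_iff₀ hC₁]; linarith
    rw [div_le_iff₀ (by positivity)] at h12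
    linarith
  refine h11.trans ?_
  have h12 : ((n:ℝ) + d) * (2 * C₂ * (1 / L ^ 2) / C₁) ≤
      (Real.exp (KK A C₁) * Real.exp (L / c₀)) * (2 * C₂ * (1 / L ^ 2) / C₁) :=
    mul_le_mul_of_nonneg_right f3 (by positivity)
  refine h12.trans (le_of_eq ?_)
  unfold k₄
  field_simp

/-- the weighted count of the pairs -/
lemma pair_count (P : Par A C₁ C₂ L a₀ c₀) (hLK : 2 * C₂ * KK A C₁ ≤ L)
    (hM : L ^ 2 ≤ Real.exp (L / c₀)) {u v : ℝ} (hu : u ∈ Icc L (L + 1)) (hv : v ∈ Icc L (L + 1)) (N : ℕ) :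
    ∑ i ∈ Finset.Icc 1 N ×ˢ Finset.Icc 1 N, (dl i.2 i.1)⁻¹ *
      (Rn L a₀ c₀ i.2 i.1).indicator (fun _ => (1:ℝ)) (u, v) ≤
      k₃ A C₁ C₂ * Real.exp (L / c₀) ^ 2 * (1 / L ^ 2) := by
  classical
  have hL : 0 < L := lt_of_lt_of_le one_pos P.hL1
  have hc₀ : 0 < c₀ := P.hC.trans_le P.h1
  have hC₁ := P.hC
  have hC₂ : 0 < C₂ := hc₀.trans_le P.h2
  have hA := P.hA
  set M : ℝ := Real.exp (L / c₀) with hMdef
  have hM0 : 0 < M := Real.exp_pos _
  have hk4 : 0 < k₄ A C₁ C₂ := by unfold k₄; positivity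
  have hk5 : 0 < k₅ A C₁ C₂ := by unfold k₅; positivity
  have hk3 : 0 < k₃ A C₁ C₂ := by unfold k₃; positivity
  rw [Finset.sum_product]
  by_cases huv : u < v
  swap
  · have h0 : ∀ d ∈ Finset.Icc 1 N, ∑ n ∈ Finset.Icc 1 N, (dl n d)⁻¹ *
        (Rn L a₀ c₀ n d).indicator (fun _ => (1:ℝ)) (u, v) = 0 := by
      intro d hd
      refine Finset.sum_eq_zero fun n hn => ?_
      rw [Finset.mem_Icc] at hd hn
      rw [indicator_of_notMem, mul_zero]
      intro h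
      exact huv (pair_facts P hu hv hn.1 hd.1 h).1
    rw [Finset.sum_eq_zero h0]
    positivity
  set D : ℝ := Real.exp (-KK A C₁) * M * ((v - u) / (C₂ + 1)) with hD
  set D' : ℝ := Real.exp (KK A C₁) * M * Real.exp (1 / C₁) * ((v - u) / C₁) with hD'
  have hvu : 0 < v - u := by linarith
  have hD0 : 0 < D := by positivity
  have hD0' : 0 ≤ D' := by positivity
  set X : ℝ := k₄ A C₁ C₂ * M * (1 / L ^ 2) with hX
  have hX0 : 0 ≤ X := by positivity
  have hin : ∀ d ∈ Finset.Icc 1 N, ∑ n ∈ Finset.Icc 1 N, (dl n d)⁻¹ *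
      (Rn L a₀ c₀ n d).indicator (fun _ => (1:ℝ)) (u, v) ≤
      if D ≤ d ∧ (d:ℝ) ≤ D' then (X + 1) * (Real.exp (KK A C₁ + 1 / C₁) * M) * (1 / d) else 0 := by
    intro d hd
    rw [Finset.mem_Icc] at hd
    have hd0 : (0:ℝ) < d := by exact_mod_cast hd.1
    set V := (Finset.Icc 1 N).filter (fun n => (u, v) ∈ Rn L a₀ c₀ n d) with hV
    have hsum : ∑ n ∈ Finset.Icc 1 N, (dl n d)⁻¹ * (Rn L a₀ c₀ n d).indicator (fun _ => (1:ℝ)) (u, v) =
        ∑ n ∈ V, (dl n d)⁻¹ := by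
      rw [hV, Finset.sum_filter]
      refine Finset.sum_congr rfl fun n _ => ?_
      by_cases h : (u, v) ∈ Rn L a₀ c₀ n d
      · rw [indicator_of_mem h, if_pos h, mul_one]
      · rw [indicator_of_notMem h, if_neg h, mul_zero]
    rw [hsum]
    rcases V.eq_empty_or_nonempty with hVe | ⟨n₀, hn₀⟩
    · rw [hVe, Finset.sum_empty]
      split_ifs
      · positivity
      · exact le_rfl
    have hfacts : ∀ n ∈ V, D ≤ d ∧ (d:ℝ) ≤ D' ∧ (dl n d)⁻¹ ≤ Real.exp (KK A C₁ + 1 / C₁) * M * (1 / d) := by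
      intro n hn
      rw [hV, Finset.mem_filter, Finset.mem_Icc] at hn
      obtain ⟨f1, f2, f3, f4, f5, f6, f7⟩ := pair_facts P hu hv hn.1.1 hd.1 hn.2
      have hδ := dl_pos hn.1.1 hd.1
      have hn0 : (0:ℝ) < n := by exact_mod_cast hn.1.1
      have e1 : (d:ℝ) = n * (Real.exp (dl n d) - 1) := by
        unfold dl
        rw [Real.exp_sub, Real.exp_log (by exact_mod_cast (by omega : 0 < n + d)), Real.exp_log hn0]
        push_cast
        field_simp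
        ring
      have h1 : dl n d ≤ Real.exp (dl n d) - 1 := by linarith [Real.add_one_le_exp (dl n d)]
      have h2 : Real.exp (dl n d) - 1 ≤ dl n d * Real.exp (dl n d) := by
        have h3 := Real.add_one_le_exp (-dl n d)
        have h4 := Real.exp_pos (dl n d)
        have h5 : Real.exp (-dl n d) * Real.exp (dl n d) = 1 := by rw [← Real.exp_add]; simp
        nlinarith
      have h3 : Real.exp (dl n d) ≤ Real.exp (1 / C₁) := Real.exp_le_exp.2 f4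
      have h4 : Real.exp (dl n d) - 1 ≤ dl n d * Real.exp (1 / C₁) :=
        h2.trans (mul_le_mul_of_nonneg_left h3 hδ.le)
      have hnK : (n:ℝ) ≤ Real.exp (KK A C₁) * M := by linarith
      refine ⟨?_, ?_, ?_⟩
      · rw [e1, hD]
        apply mul_le_mul f2 (f5.trans h1) (by positivity) hn0.le
      · rw [e1, hD']
        calc (n:ℝ) * (Real.exp (dl n d) - 1) ≤ (Real.exp (KK A C₁) * M) * (((v - u) / C₁) * Real.exp (1 / C₁)) := by
              apply mul_le_mul hnK _ (by linarith) (by positivity)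
              exact h4.trans (mul_le_mul_of_nonneg_right f6 (Real.exp_pos _).le)
          _ = _ := by ring
      · rw [Real.exp_add, mul_one_div, inv_le_comm₀ hδ (by positivity), inv_div]
        rw [div_le_iff₀ (by positivity)]
        calc (d:ℝ) = n * (Real.exp (dl n d) - 1) := e1
          _ ≤ (Real.exp (KK A C₁) * M) * (dl n d * Real.exp (1 / C₁)) :=
              mul_le_mul hnK h4 (by linarith) (by positivity)
          _ = _ := by ring
    have hif : D ≤ d ∧ (d:ℝ) ≤ D' := ⟨(hfacts n₀ hn₀).1, (hfacts n₀ hn₀).2.1⟩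
    rw [if_pos hif]
    have hcard : (V.card : ℝ) ≤ X + 1 := by
      apply card_diam hX0
      intro n hn m hm hnm
      rw [hV, Finset.mem_filter, Finset.mem_Icc] at hn hm
      exact pair_close P hLK hu hv hn.1.1 hnm hd.1 hn.2 hm.2
    calc ∑ n ∈ V, (dl n d)⁻¹ ≤ ∑ _n ∈ V, Real.exp (KK A C₁ + 1 / C₁) * M * (1 / d) :=
          Finset.sum_le_sum fun n hn => (hfacts n hn).2.2
      _ = V.card * (Real.exp (KK A C₁ + 1 / C₁) * M * (1 / d)) := by rw [Finset.sum_const, nsmul_eq_mul]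
      _ ≤ (X + 1) * (Real.exp (KK A C₁ + 1 / C₁) * M * (1 / d)) :=
          mul_le_mul_of_nonneg_right hcard (by positivity)
      _ = _ := by ring
  refine (Finset.sum_le_sum hin).trans ?_
  rw [← Finset.sum_filter, ← Finset.mul_sum]
  have h1 := sum_inv hD0 hD0' N
  have h2 : D' / D = k₅ A C₁ C₂ := by
    rw [hD, hD']
    unfold k₅
    have e : Real.exp (2 * KK A C₁ + 1 / C₁) = Real.exp (KK A C₁) * Real.exp (1 / C₁) / Real.exp (-KK A C₁) := by
      rw [← Real.exp_add, ← Real.exp_sub]; congr 1; ring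
    rw [e]
    field_simp
  rw [h2] at h1
  have hX1 : X + 1 ≤ (k₄ A C₁ C₂ + 1) * M * (1 / L ^ 2) := by
    have h3 : 1 ≤ M * (1 / L ^ 2) := by
      rw [mul_one_div, le_div_iff₀ (by positivity)]; linarith
    rw [hX]; nlinarith
  calc (X + 1) * (Real.exp (KK A C₁ + 1 / C₁) * M) *
        ∑ d ∈ (Finset.Icc 1 N).filter (fun d : ℕ => D ≤ d ∧ (d:ℝ) ≤ D'), (1:ℝ) / d
      ≤ ((k₄ A C₁ C₂ + 1) * M * (1 / L ^ 2)) * (Real.exp (KK A C₁ + 1 / C₁) * M) * k₅ A C₁ C₂ := by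
        gcongr
    _ = k₃ A C₁ C₂ * M ^ 2 * (1 / L ^ 2) := by unfold k₃; ring

/-- the second moment, upper bound -/
lemma second_upp (P : Par A C₁ C₂ L a₀ c₀) (hLK : 2 * C₂ * KK A C₁ ≤ L)
    (hM : L ^ 2 ≤ Real.exp (L / c₀)) {F : Set ℝ} (hF : F ⊆ Icc L (L + 1)) (hFm : MeasurableSet F) (N : ℕ) :
    ∑ d ∈ Finset.Icc 1 N, ∑ n ∈ Finset.Icc 1 N, volume.real (Sq L a₀ c₀ ∩ (Ev F n ∩ Ev F (n + d))) ≤
      k₃ A C₁ C₂ * Real.exp (L / c₀) ^ 2 * volume.real F ^ 2 * (1 / L ^ 2) := by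
  have hDfin : volume (F ×ˢ F) ≠ ⊤ := by
    rw [Measure.volume_eq_prod, Measure.prod_prod]
    exact ENNReal.mul_ne_top (F_fin hF) (F_fin hF)
  have h := dc_le volume (hFm.prod hFm) hDfin (Finset.Icc 1 N ×ˢ Finset.Icc 1 N) (fun i => (dl i.2 i.1)⁻¹)
    (fun i => Rn L a₀ c₀ i.2 i.1) (fun i => Rn_meas L a₀ c₀ i.2 i.1)
    (k₃ A C₁ C₂ * Real.exp (L / c₀) ^ 2 * (1 / L ^ 2)) (by
      rintro ⟨u, v⟩ ⟨hu, hv⟩
      exact pair_count P hLK hM (hF hu) (hF hv) N)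
  rw [vol_prod_real, Finset.sum_product] at h
  refine le_trans (le_of_eq ?_) (h.trans (le_of_eq (by ring)))
  refine Finset.sum_congr rfl fun d hd => Finset.sum_congr rfl fun n hn => ?_
  rw [Finset.mem_Icc] at hd hn
  exact vol_pair L a₀ c₀ hn.1 hd.1

/-- the constant `κ` -/
noncomputable def k₆ (A C₁ C₂ : ℝ) : ℝ := k₁ A C₁ C₂ ^ 2 / (k₂ A C₁ + 2 * k₃ A C₁ C₂)

/-- a positive proportion of the square is covered -/
lemma cover (P : Par A C₁ C₂ L a₀ c₀) (hLK : 2 * C₂ * KK A C₁ ≤ L)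
    (hM1 : 4 * (C₂ + 1) * Real.exp (KK A C₁) * L ≤ Real.exp (L / c₀))
    (hM2 : L ^ 2 ≤ Real.exp (L / c₀)) {F : Set ℝ} (hF : F ⊆ Icc L (L + 1)) (hFm : MeasurableSet F)
    (hbig : 1 ≤ Real.exp (L / c₀) * volume.real F) :
    k₆ A C₁ C₂ * (1 / L ^ 2) ≤
      volume.real (Sq L a₀ c₀ ∩ {p | ∃ n : ℕ, 1 ≤ n ∧ p.1 + p.2 * Real.log n ∈ F}) := by
  have hL : 0 < L := lt_of_lt_of_le one_pos P.hL1
  have hc₀ : 0 < c₀ := P.hC.trans_le P.h1
  have hC₁ := P.hC
  have hC₂ : 0 < C₂ := hc₀.trans_le P.h2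
  have hA := P.hA
  have hk1 : 0 < k₁ A C₁ C₂ := by unfold k₁; positivity
  have hk2 : 0 < k₂ A C₁ := by unfold k₂; positivity
  have hk3 : 0 < k₃ A C₁ C₂ := by unfold k₃ k₄ k₅; positivity
  obtain ⟨N, hN⟩ := exists_nat_ge (Real.exp (KK A C₁ + L / c₀))
  have h1 := first_low P hM1 hF hFm hN
  have h2 := first_upp P (by nlinarith [P.hL1]) hF hFm N
  have h3 := second_upp P hLK hM2 hF hFm N
  set x : ℝ := Real.exp (L / c₀) * volume.real F with hx
  set S₁ := ∑ n ∈ Finset.Icc 1 N, volume.real (Sq L a₀ c₀ ∩ Ev F n) with hS₁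
  set S₂ := ∑ d ∈ Finset.Icc 1 N, ∑ n ∈ Finset.Icc 1 N, volume.real (Sq L a₀ c₀ ∩ (Ev F n ∩ Ev F (n + d))) with hS₂
  set H : ℝ := 1 / L ^ 2 with hH
  have hH0 : 0 < H := by positivity
  have h1' : k₁ A C₁ C₂ * x * H ≤ S₁ := by rw [hx]; linarith
  have h2' : S₁ ≤ k₂ A C₁ * x * H := by rw [hx]; linarith
  have h3' : S₂ ≤ k₃ A C₁ C₂ * x ^ 2 * H := by rw [hx]; refine h3.trans (le_of_eq (by ring))
  set l : ℝ := k₁ A C₁ C₂ / ((k₂ A C₁ + 2 * k₃ A C₁ C₂) * x) with hl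
  have hx0 : 0 < x := by linarith
  have hl0 : 0 < l := by positivity
  have h4 := second_moment volume (Sq_meas L a₀ c₀) (Sq_fin L a₀ c₀) (fun n => Ev F n) (fun n => Ev_meas hFm n) N l
  have h5 : volume.real (Sq L a₀ c₀ ∩ ⋃ n ∈ Finset.Icc 1 N, Ev F n) ≤
      volume.real (Sq L a₀ c₀ ∩ {p | ∃ n : ℕ, 1 ≤ n ∧ p.1 + p.2 * Real.log n ∈ F}) := by
    apply measureReal_mono _ (ne_top_of_le_ne_top (Sq_fin L a₀ c₀) (measure_mono inter_subset_left))
    rintro p ⟨hp1, hp2⟩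
    refine ⟨hp1, ?_⟩
    simp only [mem_iUnion, Finset.mem_Icc, exists_prop] at hp2
    obtain ⟨n, hn, hp⟩ := hp2
    exact ⟨n, hn.1, hp⟩
  refine le_trans ?_ (h4.trans h5)
  have h6 : l ^ 2 * (S₁ + 2 * S₂) ≤ l ^ 2 * ((k₂ A C₁ + 2 * k₃ A C₁ C₂) * x ^ 2 * H) := by
    apply mul_le_mul_of_nonneg_left _ (by positivity)
    have h7 : k₂ A C₁ * x * H ≤ k₂ A C₁ * x ^ 2 * H := by
      have : x ≤ x ^ 2 := by nlinarith
      gcongr
    nlinarith
  have h7 : 2 * l * (k₁ A C₁ C₂ * x * H) ≤ 2 * l * S₁ := mul_le_mul_of_nonneg_left h1' (by positivity)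
  have h8 : k₆ A C₁ C₂ * H = 2 * l * (k₁ A C₁ C₂ * x * H) - l ^ 2 * ((k₂ A C₁ + 2 * k₃ A C₁ C₂) * x ^ 2 * H) := by
    rw [hl]
    unfold k₆
    field_simp
    ring
  rw [h8]
  linarith

end

end Pool.Agent.N798.Sp
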