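import Pool.Agent.N798.Sp4

/-!
A metric dichotomy: for almost all `(α, c)` the sequence `α n^c` meets a measurable set infinitely often, or
finitely often, according to the size of the set.
-/

set_option autoImplicit false

open MeasureTheory Set Filter Topology

namespace Pool.Agent.N798.Sp

/-- A set in the plane which misses a fixed proportion of arbitrarily small squares around each of its points
is null. -/
lemma null_of_holes2 {B : Set (ℝ × ℝ)} {k : ℝ} (hk : 0 < k) (h : ∀ x ∈ B, ∀ δ : ℝ, 0 < δ → ∃ ρ : ℝ, 0 < ρ ∧ ρ < δ ∧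
    ∃ E : Set (ℝ × ℝ), MeasurableSet E ∧ E ⊆ Metric.closedBall x ρ ∧ Disjoint E B ∧
      ENNReal.ofReal (k * ρ ^ 2) ≤ volume E) : volume B = 0 := by
  have h1 := IsUnifLocDoublingMeasure.ae_tendsto_measure_inter_div (volume : Measure (ℝ × ℝ)) B 1
  have hvol : ∀ (x : ℝ × ℝ) (ρ : ℝ), 0 ≤ ρ → volume (Metric.closedBall x ρ) = ENNReal.ofReal (4 * ρ ^ 2) := by
    intro x ρ hρ
    rw [← Prod.mk.eta (p := x), ← closedBall_prod_same, Measure.volume_eq_prod, Measure.prod_prod,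
      Real.volume_closedBall, Real.volume_closedBall, ← ENNReal.ofReal_mul (by linarith)]
    congr 1; ring
  have h2 : ∀ x ∈ B, ¬ (∀ {ι : Type} {l : Filter ι} (w : ι → ℝ × ℝ) (δ : ι → ℝ),
      Tendsto δ l (𝓝[>] 0) → (∀ᶠ j in l, x ∈ Metric.closedBall (w j) (1 * δ j)) →
      Tendsto (fun j => volume (B ∩ Metric.closedBall (w j) (δ j)) / volume (Metric.closedBall (w j) (δ j)))
        l (𝓝 1)) := by
    intro x hx ht
    have ht' := ht (l := 𝓝[>] (0:ℝ)) (fun _ => x) (fun r => r) tendsto_id (by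
      filter_upwards [self_mem_nhdsWithin] with r hr
      rw [one_mul]
      exact Metric.mem_closedBall_self (le_of_lt hr))
    have h3 : ∀ᶠ r in 𝓝[>] (0:ℝ), ENNReal.ofReal (1 - k / 8) <
        volume (B ∩ Metric.closedBall x r) / volume (Metric.closedBall x r) := by
      apply ht'.eventually_const_lt
      rw [ENNReal.ofReal_lt_one]
      linarith
    rw [eventually_nhdsWithin_iff, Metric.eventually_nhds_iff] at h3
    obtain ⟨δ, hδ, h3⟩ := h3
    obtain ⟨ρ, hρ0, hρ, E, hEm, hEs, hd, hEv⟩ := h x hx δ hδ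
    have h4 := h3 (y := ρ) (by rw [Real.dist_eq, sub_zero, abs_of_pos hρ0]; exact hρ) hρ0
    rw [hvol x ρ hρ0.le] at h4
    have hpos : (0:ℝ) < 4 * ρ ^ 2 := by positivity
    rw [ENNReal.lt_div_iff_mul_lt (Or.inl (by rw [Ne, ENNReal.ofReal_eq_zero, not_le]; exact hpos)) (Or.inl ENNReal.ofReal_ne_top)] at h4
    have h5 : volume (B ∩ Metric.closedBall x ρ) + volume E ≤ ENNReal.ofReal (4 * ρ ^ 2) := by
      rw [← hvol x ρ hρ0.le, ← measure_union (hd.symm.mono_left inter_subset_left) hEm]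
      apply measure_mono
      rintro y (hy | hy)
      · exact hy.2
      · exact hEs hy
    have h6 : ENNReal.ofReal (1 - k / 8) * ENNReal.ofReal (4 * ρ ^ 2) + ENNReal.ofReal (k * ρ ^ 2) <
        ENNReal.ofReal (4 * ρ ^ 2) := by
      refine lt_of_lt_of_le ?_ h5
      exact ENNReal.add_lt_add_of_lt_of_le ENNReal.ofReal_ne_top h4 hEv
    have hρ2 : 0 < ρ ^ 2 := by positivity
    by_cases hk8 : k / 8 ≤ 1
    · rw [← ENNReal.ofReal_mul (by linarith), ← ENNReal.ofReal_add (mul_nonneg (by linarith) hpos.le)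
        (by positivity), ENNReal.ofReal_lt_ofReal_iff hpos] at h6
      nlinarith
    · push Not at hk8
      have h7 : ENNReal.ofReal (k * ρ ^ 2) < ENNReal.ofReal (4 * ρ ^ 2) := lt_of_le_of_lt le_add_self h6
      rw [ENNReal.ofReal_lt_ofReal_iff hpos] at h7
      nlinarith
  have h3 : (volume.restrict B) B = 0 := by
    refine measure_mono_null (fun x hx => ?_) (ae_iff.1 h1)
    rw [mem_ofPred_eq]
    intro hcon
    exact h2 x hx (fun w δ => hcon w δ)
  have h4 : volume B ≤ (volume.restrict B) B := by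
    have := Measure.le_restrict_apply (μ := (volume : Measure (ℝ × ℝ))) B B
    rwa [inter_self] at this
  rw [h3] at h4
  exact nonpos_iff_eq_zero.1 h4

lemma ev_large (C₂ K : ℝ) (hC₂ : 0 < C₂) : ∀ᶠ L : ℝ in atTop,
    4 * (C₂ + 1) * Real.exp K * L ≤ Real.exp (L / C₂) ∧ L ^ 2 ≤ Real.exp (L / C₂) := by
  have h2 : Tendsto (fun L : ℝ => Real.exp (L / C₂) / (L / C₂) ^ 3) atTop atTop :=
    (Real.tendsto_exp_div_pow_atTop 3).comp (tendsto_id.atTop_div_const hC₂)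
  filter_upwards [h2.eventually_ge_atTop (C₂ ^ 3), eventually_ge_atTop (max 1 (4 * (C₂ + 1) * Real.exp K))]
    with L hL hL1
  have hL1' : 1 ≤ L := (le_max_left _ _).trans hL1
  have hL2 : 4 * (C₂ + 1) * Real.exp K ≤ L := (le_max_right _ _).trans hL1
  have hL0 : 0 < L := by linarith
  rw [le_div_iff₀ (by positivity)] at hL
  have e : C₂ ^ 3 * (L / C₂) ^ 3 = L ^ 3 := by field_simp
  rw [e] at hL
  constructor
  · calc 4 * (C₂ + 1) * Real.exp K * L ≤ L * L := mul_le_mul_of_nonneg_right hL2 hL0.le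
      _ ≤ L ^ 3 := by nlinarith
      _ ≤ _ := hL
  · calc L ^ 2 ≤ L ^ 3 := by nlinarith
      _ ≤ _ := hL

/-- divergence part, logarithmic scale, in a bounded region -/
lemma div_log_aux {F : Set ℝ} (hF : MeasurableSet F) {γ : ℝ} (hγ : 0 < γ)
    (hbig : ∀ L₀ : ℝ, ∃ L : ℝ, L₀ ≤ L ∧ Real.exp (-(γ * L)) ≤ volume.real (F ∩ Icc L (L + 1)))
    {A C₁ : ℝ} (hA : 0 ≤ A) (hC₁ : 0 < C₁) (hC₁2 : C₁ < 1 / γ) (m : ℕ) :
    volume {p : ℝ × ℝ | |p.1| < A ∧ C₁ < p.2 ∧ p.2 < 1 / γ ∧ ∀ n : ℕ, m ≤ n → p.1 + p.2 * Real.log n ∉ F} = 0 := by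
  set C₂ : ℝ := 1 / γ with hC₂
  have hC₂0 : 0 < C₂ := by positivity
  set K : ℝ := KK (A + 1) (C₁ / 2) with hK
  have hK0 : 0 < K := KK_pos (by linarith) (by linarith)
  have hk6 : 0 < k₆ (A + 1) (C₁ / 2) C₂ := by
    unfold k₆ k₁ k₂ k₃ k₄ k₅
    positivity
  apply null_of_holes2 (k := 4 * k₆ (A + 1) (C₁ / 2) C₂) (by positivity)
  rintro ⟨a, c⟩ ⟨ha, hc1, hc2, hn⟩ δ hδ
  simp only at ha hc1 hc2 hn
  -- choose L
  have hev := (ev_large C₂ K hC₂0).and ((eventually_ge_atTop (1:ℝ)).and ((eventually_ge_atTop (A + 2)).and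
    ((eventually_ge_atTop (2 * C₂ * K)).and ((eventually_ge_atTop (1 / C₁)).and
      ((eventually_ge_atTop (C₂ * (K + Real.log (m + 1)))).and (eventually_gt_atTop (1 / δ)))))))
  obtain ⟨L₀, hL₀⟩ := eventually_atTop.1 hev
  obtain ⟨L, hL, hLF⟩ := hbig L₀
  obtain ⟨⟨g1, g2⟩, g3, g4, g5, g6, g7, g8⟩ := hL₀ L hL
  have hL0 : 0 < L := by linarith
  set ρ : ℝ := 1 / (2 * L) with hρ
  have hρ0 : 0 < ρ := by positivity
  have h2ρ : 2 * ρ = 1 / L := by rw [hρ]; field_simp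
  have hρ1 : ρ ≤ 1 / 2 := by
    rw [hρ]; apply one_div_le_one_div_of_le (by norm_num); linarith
  have hρδ : ρ < δ := by
    have h1 : 1 / L < δ := by
      rw [div_lt_iff₀ hL0]
      rw [div_lt_iff₀ hδ] at g8
      linarith
    linarith
  have hρC : ρ ≤ C₁ / 2 := by
    have h1 : 1 / L ≤ C₁ := by
      rw [div_le_iff₀ hL0]
      rw [div_le_iff₀ hC₁] at g6
      linarith
    linarith
  have ha' := abs_lt.1 ha
  have P : Par (A + 1) (C₁ / 2) C₂ L (a - ρ) (c - ρ) := by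
    refine ⟨by linarith, by linarith, by linarith, by linarith, ?_, g3, by linarith⟩
    rw [abs_le]; constructor <;> linarith
  have hc0 : 0 < c - ρ := by linarith
  have hball : Sq L (a - ρ) (c - ρ) = Metric.closedBall (a, c) ρ := by
    rw [← closedBall_prod_same, Real.closedBall_eq_Icc, Real.closedBall_eq_Icc]
    unfold Sq
    rw [← h2ρ]
    congr 2 <;> ring
  have hle : Real.exp (L / C₂) ≤ Real.exp (L / (c - ρ)) := by
    apply Real.exp_le_exp.2
    apply div_le_div_of_nonneg_left hL0.le hc0 (by linarith)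
  have hbig' : 1 ≤ Real.exp (L / (c - ρ)) * volume.real (F ∩ Icc L (L + 1)) := by
    have h1 : Real.exp (L / C₂) * Real.exp (-(γ * L)) = 1 := by
      rw [← Real.exp_add, hC₂]
      rw [show L / (1 / γ) + -(γ * L) = 0 by field_simp; ring, Real.exp_zero]
    have h2 := mul_le_mul hle hLF (Real.exp_pos _).le (Real.exp_pos _).le
    linarith
  have hcov := cover P g5 (g1.trans hle) (g2.trans hle) (F := F ∩ Icc L (L + 1)) inter_subset_right
    (hF.inter measurableSet_Icc) hbig'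
  set E : Set (ℝ × ℝ) := Sq L (a - ρ) (c - ρ) ∩ {p | ∃ n : ℕ, 1 ≤ n ∧ p.1 + p.2 * Real.log n ∈ F ∩ Icc L (L + 1)} with hE
  have hEm : MeasurableSet E := by
    apply (Sq_meas _ _ _).inter
    have e : {p : ℝ × ℝ | ∃ n : ℕ, 1 ≤ n ∧ p.1 + p.2 * Real.log n ∈ F ∩ Icc L (L + 1)} =
        ⋃ n : ℕ, {p : ℝ × ℝ | 1 ≤ n ∧ p ∈ Ev (F ∩ Icc L (L + 1)) n} := by
      ext p; simp [Ev]
    rw [e]
    refine MeasurableSet.iUnion fun n => ?_
    by_cases hn1 : 1 ≤ n
    · simp only [hn1, true_and]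
      exact Ev_meas (hF.inter measurableSet_Icc) n
    · simp only [hn1, false_and]
      exact MeasurableSet.empty
  have hEfin : volume E ≠ ⊤ := ne_top_of_le_ne_top (Sq_fin _ _ _) (measure_mono inter_subset_left)
  refine ⟨ρ, hρ0, hρδ, E, hEm, ?_, ?_, ?_⟩
  · rw [← hball]; exact inter_subset_left
  · rw [Set.disjoint_left]
    rintro p ⟨hp1, n, hn1, hnF, hnL⟩ ⟨-, -, -, hp⟩
    refine hp n ?_ hnF
    have hr := P.range hp1.1 hp1.2 hnL (x := Real.log n) rfl
    have h1 := (abs_le.1 hr).1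
    have h2 : L / C₂ ≤ L / (c - ρ) := div_le_div_of_nonneg_left hL0.le hc0 (by linarith)
    have h3 : K + Real.log (m + 1) ≤ L / C₂ := by
      rw [le_div_iff₀ hC₂0]; linarith
    have h4 : Real.log (m + 1) ≤ Real.log n := by linarith
    have hn0 : (0:ℝ) < n := by exact_mod_cast hn1
    rw [Real.log_le_log_iff (by positivity) hn0] at h4
    have h5 : m + 1 ≤ n := by exact_mod_cast h4
    omega
  · rw [← ENNReal.ofReal_toReal hEfin]
    apply ENNReal.ofReal_le_ofReal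
    refine le_trans (le_of_eq ?_) hcov
    rw [hρ]
    field_simp
    ring

/-- divergence part, logarithmic scale -/
theorem div_log {F : Set ℝ} (hF : MeasurableSet F) {γ : ℝ} (hγ : 0 < γ)
    (hbig : ∀ L₀ : ℝ, ∃ L : ℝ, L₀ ≤ L ∧ Real.exp (-(γ * L)) ≤ volume.real (F ∩ Icc L (L + 1))) :
    ∀ᵐ p : ℝ × ℝ, 0 < p.2 → p.2 < 1 / γ → ∀ m : ℕ, ∃ n : ℕ, m ≤ n ∧ p.1 + p.2 * Real.log n ∈ F := by
  have h1 : ∀ (A j m : ℕ), ∀ᵐ p : ℝ × ℝ, ¬ (|p.1| < A ∧ 1 / ((j:ℝ) + 1) < p.2 ∧ p.2 < 1 / γ ∧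
      ∀ n : ℕ, m ≤ n → p.1 + p.2 * Real.log n ∉ F) := by
    intro A j m
    rw [ae_iff]
    simp only [not_not]
    by_cases hj : 1 / ((j:ℝ) + 1) < 1 / γ
    · exact div_log_aux hF hγ hbig (Nat.cast_nonneg A) (by positivity) hj m
    · rw [measure_eq_zero_iff_ae_notMem]
      filter_upwards with p hp
      exact hj (hp.2.1.trans hp.2.2.1)
  have h2 := ae_all_iff.2 fun A => ae_all_iff.2 fun j => ae_all_iff.2 fun m => h1 A j m
  filter_upwards [h2] with p hp hp0 hp1 m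
  by_contra hcon
  push Not at hcon
  obtain ⟨A, hA⟩ := exists_nat_gt |p.1|
  obtain ⟨j, hj⟩ := exists_nat_one_div_lt hp0
  exact hp A j m ⟨hA, hj, hp1, hcon⟩

end Pool.Agent.N798.Sp
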