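import Pool.Agent.N798.Sp5

/-!
The metric dichotomy in the original coordinates.
-/

set_option autoImplicit false

open MeasureTheory Set Filter Topology

namespace Pool.Agent.N798.Sp

/-- the measure of `E ∩ [0, T]` is `O(T^r)` -/
def SizeLe (E : Set ℝ) (r : ℝ) : Prop := ∃ C : ℝ, ∀ T : ℝ, 1 ≤ T → volume.real (E ∩ Icc 0 T) ≤ C * T ^ r

lemma fin_Icc (E : Set ℝ) (a b : ℝ) : volume (E ∩ Icc a b) ≠ ⊤ :=
  ne_top_of_le_ne_top (by rw [Real.volume_Icc]; exact ENNReal.ofReal_ne_top) (measure_mono inter_subset_right)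

/-- If the size is not `O(T^r)`, then there are large `L` with many elements in `[e^L, e^(L+1)]`. -/
lemma big_blocks {E : Set ℝ} {r r' : ℝ} (hr : 0 ≤ r) (hr' : r' < r) (h : ¬ SizeLe E r) (L₀ : ℕ) :
    ∃ L : ℕ, L₀ ≤ L ∧ Real.exp (r' * L) < volume.real (E ∩ Icc (Real.exp L) (Real.exp (L + 1))) := by
  by_contra hcon
  push Not at hcon
  apply h
  set q : ℝ := Real.exp (r' - r) with hq
  have hq0 : 0 < q := Real.exp_pos _
  have hq1 : q < 1 := by rw [hq, Real.exp_lt_one_iff]; linarith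
  refine ⟨Real.exp L₀ + 1 / (1 - q), fun T hT => ?_⟩
  have hT0 : 0 < T := by linarith
  have hlog : 0 ≤ Real.log T := Real.log_nonneg hT
  set l : ℕ := ⌊Real.log T⌋₊ with hl
  have hl1 : (l:ℝ) ≤ Real.log T := Nat.floor_le hlog
  have hl2 : Real.log T < l + 1 := Nat.lt_floor_add_one _
  have hsub : E ∩ Icc 0 T ⊆ Icc 0 (Real.exp L₀) ∪
      ⋃ i ∈ (Finset.Icc L₀ l), (E ∩ Icc (Real.exp i) (Real.exp (i + 1))) := by
    rintro x ⟨hxE, hx0, hxT⟩
    by_cases hx : x ≤ Real.exp L₀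
    · exact Or.inl ⟨hx0, hx⟩
    · right
      push Not at hx
      have hxpos : 0 < x := (Real.exp_pos _).trans hx
      have hlx : (L₀:ℝ) < Real.log x := by rw [Real.lt_log_iff_exp_lt hxpos]; exact hx
      have hlx0 : 0 ≤ Real.log x := (Nat.cast_nonneg _).trans hlx.le
      simp only [mem_iUnion, Finset.mem_Icc, exists_prop]
      refine ⟨⌊Real.log x⌋₊, ⟨Nat.le_floor hlx.le, Nat.floor_mono (Real.log_le_log hxpos hxT)⟩, hxE, ?_, ?_⟩
      · rw [← Real.le_log_iff_exp_le hxpos]; exact Nat.floor_le hlx0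
      · rw [← Real.log_le_iff_le_exp hxpos]; exact (Nat.lt_floor_add_one _).le
  have hfin2 : volume (⋃ i ∈ (Finset.Icc L₀ l), (E ∩ Icc (Real.exp i) (Real.exp (i + 1)))) ≠ ⊤ := by
    refine ne_top_of_le_ne_top ?_ (measure_biUnion_finset_le _ _)
    exact (ENNReal.sum_lt_top.2 fun i _ => lt_top_iff_ne_top.2 (fin_Icc _ _ _)).ne
  have hfin3 : volume (Icc 0 (Real.exp L₀) : Set ℝ) ≠ ⊤ := by
    rw [Real.volume_Icc]; exact ENNReal.ofReal_ne_top
  have h1 : volume.real (E ∩ Icc 0 T) ≤ volume.real (Icc 0 (Real.exp L₀) : Set ℝ) +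
      ∑ i ∈ Finset.Icc L₀ l, volume.real (E ∩ Icc (Real.exp i) (Real.exp (i + 1))) := by
    refine (measureReal_mono hsub ?_).trans ((measureReal_union_le _ _).trans ?_)
    · exact measure_union_ne_top hfin3 hfin2
    · gcongr
      exact measureReal_biUnion_finset_le _ _
  have h2 : ∑ i ∈ Finset.Icc L₀ l, volume.real (E ∩ Icc (Real.exp i) (Real.exp (i + 1))) ≤
      ∑ i ∈ Finset.Icc L₀ l, T ^ r * q ^ i := by
    refine Finset.sum_le_sum fun i hi => ?_
    rw [Finset.mem_Icc] at hi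
    refine (hcon i hi.1).trans ?_
    have hi2 : (i:ℝ) ≤ Real.log T := le_trans (by exact_mod_cast hi.2) hl1
    rw [Real.rpow_def_of_pos hT0, hq, ← Real.exp_nat_mul, ← Real.exp_add]
    apply Real.exp_le_exp.2
    have h3 : r * i ≤ r * Real.log T := mul_le_mul_of_nonneg_left hi2 hr
    nlinarith
  have h3 : ∑ i ∈ Finset.Icc L₀ l, T ^ r * q ^ i ≤ T ^ r * (1 / (1 - q)) := by
    rw [← Finset.mul_sum]
    apply mul_le_mul_of_nonneg_left _ (by positivity)
    have h4 := (summable_geometric_of_lt_one hq0.le hq1).sum_le_tsum (Finset.Icc L₀ l)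
      (fun i _ => by positivity)
    rw [tsum_geometric_of_lt_one hq0.le hq1] at h4
    simpa [one_div] using h4
  have h4 : volume.real (Icc 0 (Real.exp L₀) : Set ℝ) = Real.exp L₀ := by
    rw [Real.volume_real_Icc_of_le (Real.exp_pos _).le]; ring
  have h5 : 1 ≤ T ^ r := Real.one_le_rpow hT hr
  rw [h4] at h1
  have h6 : Real.exp L₀ ≤ Real.exp L₀ * T ^ r := le_mul_of_one_le_right (Real.exp_pos _).le h5
  calc volume.real (E ∩ Icc 0 T) ≤ Real.exp L₀ + T ^ r * (1 / (1 - q)) := h1.trans (by linarith)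
    _ ≤ Real.exp L₀ * T ^ r + T ^ r * (1 / (1 - q)) := by linarith
    _ = (Real.exp L₀ + 1 / (1 - q)) * T ^ r := by ring

lemma vol_log {E : Set ℝ} (hE : MeasurableSet E) (L : ℝ) :
    Real.exp (-(L + 1)) * volume.real (E ∩ Icc (Real.exp L) (Real.exp (L + 1))) ≤
      volume.real ({u : ℝ | Real.exp u ∈ E} ∩ Icc L (L + 1)) := by
  set S : Set ℝ := {u : ℝ | Real.exp u ∈ E} ∩ Icc L (L + 1) with hS
  have hSm : MeasurableSet S := (Real.measurable_exp hE).inter measurableSet_Icc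
  have e1 : E ∩ Icc (Real.exp L) (Real.exp (L + 1)) = Real.exp '' S := by
    ext x
    constructor
    · rintro ⟨hx, h1, h2⟩
      have hx0 : 0 < x := (Real.exp_pos _).trans_le h1
      refine ⟨Real.log x, ⟨?_, ?_, ?_⟩, Real.exp_log hx0⟩
      · rw [mem_ofPred_eq, Real.exp_log hx0]; exact hx
      · rw [Real.le_log_iff_exp_le hx0]; exact h1
      · rw [Real.log_le_iff_le_exp hx0]; exact h2
    · rintro ⟨u, ⟨hu, h1, h2⟩, rfl⟩
      exact ⟨hu, Real.exp_le_exp.2 h1, Real.exp_le_exp.2 h2⟩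
  have h2 : volume (Real.exp '' S) ≤ ENNReal.ofReal (Real.exp (L + 1)) * volume S := by
    have h3 := lintegral_image_eq_lintegral_abs_deriv_mul (f := Real.exp) (f' := Real.exp) hSm
      (fun x _ => (Real.hasDerivAt_exp x).hasDerivWithinAt) Real.exp_injective.injOn (fun _ => 1)
    simp only [lintegral_one, Measure.restrict_apply_univ, mul_one] at h3
    rw [h3]
    calc ∫⁻ x in S, ENNReal.ofReal |Real.exp x| ≤ ∫⁻ _ in S, ENNReal.ofReal (Real.exp (L + 1)) := by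
          apply setLIntegral_mono' hSm
          intro x hx
          rw [abs_of_pos (Real.exp_pos x)]
          exact ENNReal.ofReal_le_ofReal (Real.exp_le_exp.2 hx.2.2)
      _ = _ := by rw [lintegral_const, Measure.restrict_apply_univ]
  have hSf : volume S ≠ ⊤ := fin_Icc _ _ _
  have h3 : volume.real (E ∩ Icc (Real.exp L) (Real.exp (L + 1))) ≤ Real.exp (L + 1) * volume.real S := by
    rw [e1, measureReal_def, measureReal_def]
    have h4 := ENNReal.toReal_mono (ENNReal.mul_ne_top ENNReal.ofReal_ne_top hSf) h2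
    rwa [ENNReal.toReal_mul, ENNReal.toReal_ofReal (Real.exp_pos _).le] at h4
  calc Real.exp (-(L + 1)) * volume.real (E ∩ Icc (Real.exp L) (Real.exp (L + 1)))
      ≤ Real.exp (-(L + 1)) * (Real.exp (L + 1) * volume.real S) :=
        mul_le_mul_of_nonneg_left h3 (Real.exp_pos _).le
    _ = volume.real S := by
        rw [← mul_assoc, ← Real.exp_add, neg_add_cancel, Real.exp_zero, one_mul]

/-- divergence part -/
theorem div_main {E : Set ℝ} (hE : MeasurableSet E) {r : ℝ} (hr : 0 ≤ r) (hr1 : r < 1) (h : ¬ SizeLe E r) :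
    ∀ᵐ p : ℝ × ℝ, 0 < p.1 → 0 < p.2 → p.2 < 1 / (1 - r) → ∀ m : ℕ, ∃ n : ℕ, m ≤ n ∧ p.1 * (n:ℝ) ^ p.2 ∈ E := by
  set F : Set ℝ := {u : ℝ | Real.exp u ∈ E} with hF
  have hFm : MeasurableSet F := Real.measurable_exp hE
  -- it suffices to treat `c < 1 / γ`, `γ > 1 - r`
  have main : ∀ j : ℕ, ∀ᵐ p : ℝ × ℝ, 0 < p.1 → 0 < p.2 → p.2 < 1 / (1 - r + 1 / ((j:ℝ) + 1)) →
      ∀ m : ℕ, ∃ n : ℕ, m ≤ n ∧ p.1 * (n:ℝ) ^ p.2 ∈ E := by
    intro j
    set η : ℝ := 1 / ((j:ℝ) + 1) with hη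
    have hη0 : 0 < η := by positivity
    set γ : ℝ := 1 - r + η with hγ
    have hγ0 : 0 < γ := by rw [hγ]; linarith
    have hbig : ∀ L₀ : ℝ, ∃ L : ℝ, L₀ ≤ L ∧ Real.exp (-(γ * L)) ≤ volume.real (F ∩ Icc L (L + 1)) := by
      intro L₀
      obtain ⟨N, hN⟩ := exists_nat_ge (max L₀ (2 / η))
      obtain ⟨L, hL, hLb⟩ := big_blocks hr (r' := r - η / 2) (by linarith) h N
      have hL' : (N:ℝ) ≤ L := by exact_mod_cast hL
      refine ⟨L, (le_max_left _ _).trans (hN.trans hL'), ?_⟩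
      have h1 := vol_log hE L
      refine le_trans ?_ h1
      have h2 : Real.exp (-((L:ℝ) + 1)) * Real.exp ((r - η / 2) * L) ≤
          Real.exp (-((L:ℝ) + 1)) * volume.real (E ∩ Icc (Real.exp L) (Real.exp (L + 1))) :=
        mul_le_mul_of_nonneg_left hLb.le (Real.exp_pos _).le
      refine le_trans ?_ h2
      rw [← Real.exp_add]
      apply Real.exp_le_exp.2
      have h3 : 2 / η ≤ L := (le_max_right _ _).trans (hN.trans hL')
      rw [div_le_iff₀ hη0] at h3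
      rw [hγ]
      nlinarith
    have h0 := div_log hFm hγ0 hbig
    -- transfer
    set B : Set (ℝ × ℝ) := {p | ¬ (0 < p.2 → p.2 < 1 / γ → ∀ m : ℕ, ∃ n : ℕ, m ≤ n ∧ p.1 + p.2 * Real.log n ∈ F)} with hB
    have hB0 : volume B = 0 := ae_iff.1 h0
    have hdiff : DifferentiableOn ℝ (fun p : ℝ × ℝ => (Real.exp p.1, p.2)) B := by
      intro p _
      apply DifferentiableAt.differentiableWithinAt
      fun_prop
    have h1 := addHaar_image_eq_zero_of_differentiableOn_of_addHaar_eq_zero volume hdiff hB0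
    rw [ae_iff]
    refine measure_mono_null ?_ h1
    rintro ⟨α, c⟩ hp
    rw [mem_ofPred_eq] at hp
    push Not at hp
    obtain ⟨hα, hc, hc1, m, hm⟩ := hp
    simp only at hα hc hc1 hm
    refine ⟨(Real.log α, c), ?_, ?_⟩
    · rw [hB, mem_ofPred_eq]
      push Not
      refine ⟨hc, hc1, m + 1, fun n hn => ?_⟩
      have hn0 : (0:ℝ) < n := by exact_mod_cast (by omega : 0 < n)
      have h2 := hm n (by omega)
      rw [hF, mem_ofPred_eq]
      have e : Real.exp (Real.log α + c * Real.log n) = α * (n:ℝ) ^ c := by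
        rw [Real.exp_add, Real.exp_log hα, Real.rpow_def_of_pos hn0, mul_comm c]
      rw [e]; exact h2
    · simp only [Real.exp_log hα]
  filter_upwards [ae_all_iff.2 main] with p hp h1 h2 h3 m
  have h4 : 1 - r < 1 / p.2 := by
    rw [lt_div_iff₀ h2]
    rw [lt_div_iff₀ (by linarith)] at h3
    linarith
  obtain ⟨j, hj⟩ := exists_nat_one_div_lt (sub_pos.2 h4)
  refine hp j h1 h2 ?_ m
  rw [lt_div_iff₀ (add_pos (by linarith) (by positivity))]
  have h5 : 1 - r + 1 / ((j:ℝ) + 1) < 1 / p.2 := by linarith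
  have h6 := mul_lt_mul_of_pos_left h5 h2
  rwa [mul_one_div_cancel h2.ne'] at h6

/-- convergence part -/
theorem conv_main {E : Set ℝ} {r c : ℝ} (hc : 0 < c) (hc1 : 1 < c * (1 - r))
    (h : SizeLe E r) : ∀ᵐ α : ℝ, 0 < α → ∃ m : ℕ, ∀ n : ℕ, m ≤ n → α * (n:ℝ) ^ c ∉ E := by
  obtain ⟨C, hC⟩ := h
  have hr1 : r < 1 := by
    by_contra hcon
    push Not at hcon
    nlinarith
  have hC0 : 0 ≤ C := by
    have h1 := hC 1 le_rfl
    rw [Real.one_rpow, mul_one] at h1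
    exact measureReal_nonneg.trans h1
  have main : ∀ j : ℕ, ∀ᵐ α : ℝ, 0 < α → α ≤ j + 1 → ∀ᶠ n : ℕ in atTop, α * (n:ℝ) ^ c ∉ E := by
    intro j
    set J : ℝ := (j:ℝ) + 1 with hJ
    have hJ1 : 1 ≤ J := by rw [hJ]; linarith [Nat.cast_nonneg (α := ℝ) j]
    set s : ℕ → Set ℝ := fun n => {α : ℝ | 0 < α ∧ α ≤ J ∧ α * ((n + 1 : ℕ) : ℝ) ^ c ∈ E} with hs
    have hbd : ∀ n, volume (s n) ≤ ENNReal.ofReal (C * J ^ r * ((n + 1 : ℕ) : ℝ) ^ (-(c * (1 - r)))) := by
      intro n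
      have hn0 : (0:ℝ) < ((n + 1 : ℕ) : ℝ) := by positivity
      have hn1 : (1:ℝ) ≤ ((n + 1 : ℕ) : ℝ) := by exact_mod_cast (by omega : 1 ≤ n + 1)
      set b : ℝ := ((n + 1 : ℕ) : ℝ) ^ c with hb
      have hb0 : 0 < b := by positivity
      have hb1 : 1 ≤ b := Real.one_le_rpow hn1 hc.le
      have hsub : s n ⊆ (fun x => x * b) ⁻¹' (E ∩ Icc 0 (J * b)) := by
        rintro α ⟨h1, h2, h3⟩
        exact ⟨h3, by positivity, mul_le_mul_of_nonneg_right h2 hb0.le⟩
      refine (measure_mono hsub).trans ?_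
      rw [Real.volume_preimage_mul_right hb0.ne', abs_of_pos (inv_pos.2 hb0)]
      have hT : 1 ≤ J * b := one_le_mul_of_one_le_of_one_le hJ1 hb1
      have h4 := hC (J * b) hT
      have h5 : volume (E ∩ Icc 0 (J * b)) ≤ ENNReal.ofReal (C * (J * b) ^ r) := by
        rw [← ENNReal.ofReal_toReal (fin_Icc E 0 (J * b))]
        exact ENNReal.ofReal_le_ofReal h4
      refine (mul_le_mul_right h5 _).trans ?_
      rw [← ENNReal.ofReal_mul (inv_pos.2 hb0).le]
      apply ENNReal.ofReal_le_ofReal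
      apply le_of_eq
      rw [Real.mul_rpow (by linarith) hb0.le]
      have e1 : b⁻¹ * b ^ r = ((n + 1 : ℕ) : ℝ) ^ (-(c * (1 - r))) := by
        rw [← Real.rpow_neg_one b, ← Real.rpow_add hb0, hb, ← Real.rpow_mul hn0.le]
        congr 1; ring
      rw [← e1]; ring
    have hsum : ∑' n, volume (s n) ≠ ⊤ := by
      refine ne_top_of_le_ne_top ?_ (ENNReal.tsum_le_tsum hbd)
      have hs1 : Summable fun n : ℕ => C * J ^ r * ((n + 1 : ℕ) : ℝ) ^ (-(c * (1 - r))) := by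
        apply Summable.mul_left
        exact (summable_nat_add_iff 1).2 (Real.summable_nat_rpow.2 (by linarith))
      rw [← ENNReal.ofReal_tsum_of_nonneg (fun n => by positivity) hs1]
      exact ENNReal.ofReal_ne_top
    filter_upwards [ae_eventually_notMem hsum] with α hα h1 h2
    rw [eventually_atTop] at hα ⊢
    obtain ⟨m, hm⟩ := hα
    refine ⟨m + 1, fun n hn => ?_⟩
    have h3 := hm (n - 1) (by omega)
    intro h4
    apply h3
    rw [hs]
    refine ⟨h1, h2, ?_⟩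
    rw [show n - 1 + 1 = n by omega]
    exact h4
  filter_upwards [ae_all_iff.2 main] with α hα h0
  obtain ⟨j, hj⟩ := exists_nat_ge α
  exact eventually_atTop.1 (hα j h0 (hj.trans (by linarith)))

lemma SizeLe.mono {E : Set ℝ} {r r' : ℝ} (h : SizeLe E r) (hr : r ≤ r') : SizeLe E r' := by
  obtain ⟨C, hC⟩ := h
  refine ⟨|C|, fun T hT => (hC T hT).trans ?_⟩
  calc C * T ^ r ≤ |C| * T ^ r := mul_le_mul_of_nonneg_right (le_abs_self C) (by positivity)
    _ ≤ |C| * T ^ r' := mul_le_mul_of_nonneg_left (Real.rpow_le_rpow_of_exponent_le hT hr) (abs_nonneg C)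

lemma SizeLe.subset {E E' : Set ℝ} {r : ℝ} (h : SizeLe E r) (hs : E' ⊆ E) : SizeLe E' r := by
  obtain ⟨C, hC⟩ := h
  refine ⟨C, fun T hT => le_trans ?_ (hC T hT)⟩
  exact measureReal_mono (inter_subset_inter_left _ hs) (fin_Icc _ _ _)

lemma SizeLe.one (E : Set ℝ) {r : ℝ} (hr : 1 ≤ r) : SizeLe E r := by
  refine ⟨1, fun T hT => ?_⟩
  have h1 : volume.real (E ∩ Icc 0 T) ≤ volume.real (Icc 0 T : Set ℝ) := by
    exact measureReal_mono inter_subset_right (by rw [Real.volume_Icc]; exact ENNReal.ofReal_ne_top)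
  rw [Real.volume_real_Icc_of_le (by linarith)] at h1
  have h2 : T ^ (1:ℝ) ≤ T ^ r := Real.rpow_le_rpow_of_exponent_le hT hr
  rw [Real.rpow_one] at h2
  linarith

/-- the set of the `(α, c)` for which the sequence `α n^c` meets `E` infinitely often is measurable -/
lemma io_meas {E : Set ℝ} (hE : MeasurableSet E) :
    MeasurableSet {p : ℝ × ℝ | ∃ m : ℕ, ∀ n : ℕ, m ≤ n → p.1 * (n:ℝ) ^ p.2 ∉ E} := by
  have e : {p : ℝ × ℝ | ∃ m : ℕ, ∀ n : ℕ, m ≤ n → p.1 * (n:ℝ) ^ p.2 ∉ E} =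
      ⋃ m : ℕ, ⋂ n : ℕ, {p : ℝ × ℝ | m ≤ n → p.1 * (n:ℝ) ^ p.2 ∉ E} := by
    ext p; simp
  rw [e]
  refine MeasurableSet.iUnion fun m => MeasurableSet.iInter fun n => ?_
  by_cases hn : m ≤ n
  · simp only [hn, true_imp_iff]
    have : Measurable fun p : ℝ × ℝ => p.1 * (n:ℝ) ^ p.2 := by fun_prop
    exact (this hE).compl
  · simp [hn]

end Pool.Agent.N798.Sp
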