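import Pool.Agent.N798.Sp6

/-!
The metric dichotomy as a list of equivalent statements.
-/

set_option autoImplicit false

open MeasureTheory Set Filter Topology

namespace Pool.Agent.N798.Sp

/-- `α n^c` lies in `E` for finitely many `n` only -/
def Fin' (E : Set ℝ) (α c : ℝ) : Prop := ∃ m : ℕ, ∀ n : ℕ, m ≤ n → α * (n:ℝ) ^ c ∉ E

lemma rect_pos {a b : ℝ} (hab : a < b) : volume {p : ℝ × ℝ | 0 < p.1 ∧ a < p.2 ∧ p.2 < b} ≠ 0 := by
  have e : {p : ℝ × ℝ | 0 < p.1 ∧ a < p.2 ∧ p.2 < b} = Ioi (0:ℝ) ×ˢ Ioo a b := by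
    ext p; simp
  rw [e, Measure.volume_eq_prod, Measure.prod_prod, Real.volume_Ioi, Real.volume_Ioo]
  simp [hab]

/-- from almost every `α` for every `c` to almost every `(α, c)` -/
lemma ae_pairs {P : ℝ → ℝ → Prop} (hP : MeasurableSet {p : ℝ × ℝ | P p.1 p.2}) {a : ℝ}
    (h : ∀ c : ℝ, a < c → ∀ᵐ α : ℝ, 0 < α → P α c) :
    ∀ᵐ p : ℝ × ℝ, 0 < p.1 → a < p.2 → P p.1 p.2 := by
  have hm : MeasurableSet {p : ℝ × ℝ | 0 < p.1 → a < p.2 → P p.1 p.2} := by
    have e : {p : ℝ × ℝ | 0 < p.1 → a < p.2 → P p.1 p.2} =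
        ({p : ℝ × ℝ | 0 < p.1} ∩ {p : ℝ × ℝ | a < p.2})ᶜ ∪ {p : ℝ × ℝ | P p.1 p.2} := by
      ext p
      simp only [mem_ofPred_eq, mem_union, mem_compl_iff, mem_inter_iff]
      tauto
    rw [e]
    exact (((measurableSet_lt measurable_const measurable_fst).inter
      (measurableSet_lt measurable_const measurable_snd)).compl).union hP
  rw [Measure.volume_eq_prod]
  rw [Measure.ae_prod_iff_ae_ae (p := fun p : ℝ × ℝ => 0 < p.1 → a < p.2 → P p.1 p.2) hm]
  rw [Measure.ae_ae_comm (p := fun x y => 0 < x → a < y → P x y) hm]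
  refine Eventually.of_forall fun c => ?_
  by_cases hc : a < c
  · filter_upwards [h c hc] with α hα h0 _
    exact hα h0
  · exact Eventually.of_forall fun α _ h1 => absurd h1 hc

/-- The size of a measurable set and the sequences `α n^c`. -/
theorem tfae_set {E : Set ℝ} (hE : MeasurableSet E) {r : ℝ} (hr : 0 ≤ r) (hr1 : r < 1) :
    List.TFAE [∀ ε : ℝ, 0 < ε → SizeLe E (r + ε),
      ∀ c : ℝ, 1 / (1 - r) < c → ∀ᵐ α : ℝ, 0 < α → Fin' E α c,
      ∀ᵐ p : ℝ × ℝ, 0 < p.1 → 1 / (1 - r) < p.2 → Fin' E p.1 p.2,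
      ∀ a b : ℝ, 1 / (1 - r) < a → a < b →
        volume {p : ℝ × ℝ | 0 < p.1 ∧ a < p.2 ∧ p.2 < b ∧ Fin' E p.1 p.2} ≠ 0] := by
  have h1r : 0 < 1 - r := by linarith
  tfae_have 1 → 2 := by
    intro h c hc
    have hc0 : 0 < c := lt_trans (by positivity) hc
    have h1 : 1 < c * (1 - r) := by
      rw [div_lt_iff₀ h1r] at hc; linarith
    set ε : ℝ := (c * (1 - r) - 1) / (2 * c) with hε
    have hε0 : 0 < ε := by
      rw [hε]; apply div_pos (by linarith) (by linarith)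
    have h2 : 1 < c * (1 - (r + ε)) := by
      have : c * (1 - (r + ε)) = c * (1 - r) - (c * (1 - r) - 1) / 2 := by
        rw [hε]; field_simp; ring
      rw [this]; linarith
    exact conv_main hc0 h2 (h ε hε0)
  tfae_have 2 → 3 := fun h => ae_pairs (io_meas hE) h
  tfae_have 3 → 4 := by
    intro h a b ha hab h0
    have h1 := rect_pos hab
    apply h1
    have h2 : ∀ᵐ p : ℝ × ℝ, ¬ (0 < p.1 ∧ a < p.2 ∧ p.2 < b ∧ Fin' E p.1 p.2) := by
      rw [ae_iff]
      simpa using h0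
    have h3 : ∀ᵐ p : ℝ × ℝ, ¬ (0 < p.1 ∧ a < p.2 ∧ p.2 < b) := by
      filter_upwards [h, h2] with p hp1 hp2 hp3
      exact hp2 ⟨hp3.1, hp3.2.1, hp3.2.2, hp1 hp3.1 (ha.trans hp3.2.1)⟩
    rw [ae_iff] at h3
    simpa using h3
  tfae_have 4 → 1 := by
    intro h ε hε
    by_contra hcon
    have hrε : r + ε < 1 := by
      by_contra hge
      push Not at hge
      exact hcon (SizeLe.one E hge)
    have h1 := div_main hE (r := r + ε) (by linarith) hrε hcon
    set a : ℝ := (1 / (1 - r) + 1 / (1 - (r + ε))) / 2 with ha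
    have hlt : 1 / (1 - r) < 1 / (1 - (r + ε)) := one_div_lt_one_div_of_lt (by linarith) (by linarith)
    refine h a (1 / (1 - (r + ε))) (by rw [ha]; linarith) (by rw [ha]; linarith) ?_
    have h2 : ∀ᵐ p : ℝ × ℝ, ¬ (0 < p.1 ∧ a < p.2 ∧ p.2 < 1 / (1 - (r + ε)) ∧ Fin' E p.1 p.2) := by
      filter_upwards [h1] with p hp ⟨h3, h4, h5, m, hm⟩
      have h6 : 0 < p.2 := by
        refine lt_trans ?_ h4
        rw [ha]
        have : 0 < 1 / (1 - r) := by positivity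
        linarith
      obtain ⟨n, hn, hnE⟩ := hp h3 h6 h5 m
      exact hm n hn hnE
    rw [ae_iff] at h2
    simpa using h2
  tfae_finish

end Pool.Agent.N798.Sp
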