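import Pool.Agent.H153R4.Pl
import Pool.Agent.Helper242.KK.ShiftLine

set_option autoImplicit false

/-! Plancherel's theorem for Laplace transforms that are continued analytically from the line `Re s = 2` to the
line `Re s = 1/2`, by means of Gaussian smoothing. -/

namespace Pool.Agent.N798.V

open Complex MeasureTheory Filter Topology
open scoped ENNReal Real

/-- the standard normal density -/
noncomputable def gd (y : ℝ) : ℝ := (Real.sqrt (2 * π))⁻¹ * Real.exp (-(y ^ 2) / 2)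

lemma gd_pos (y : ℝ) : 0 < gd y := by unfold gd; positivity

lemma gd_cont : Continuous gd := by unfold gd; fun_prop

@[fun_prop] lemma gd_meas : Measurable gd := gd_cont.measurable

lemma gd_integrable : Integrable gd := by
  have h := (integrable_exp_neg_mul_sq (b := 1 / 2) (by norm_num)).const_mul (Real.sqrt (2 * π))⁻¹
  refine h.congr (Eventually.of_forall fun y => ?_)
  simp only [gd]
  congr 2; ring

lemma gd_integral : ∫ y, gd y = 1 := by
  have h := integral_gaussian (1 / 2)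
  have e : ∀ y : ℝ, gd y = (Real.sqrt (2 * π))⁻¹ * Real.exp (-(1 / 2) * y ^ 2) := by
    intro y; simp only [gd]; congr 2; ring
  simp only [e]
  rw [integral_const_mul, h]
  have : (π / (1 / 2) : ℝ) = 2 * π := by ring
  rw [this]
  exact inv_mul_cancel₀ (by positivity)

lemma gd_lintegral : ∫⁻ y, ENNReal.ofReal (gd y) = 1 := by
  rw [← ofReal_integral_eq_lintegral_ofReal gd_integrable (Eventually.of_forall fun y => (gd_pos y).le), gd_integral]
  simp

lemma gd_shift (c y : ℝ) : gd y * Real.exp (-(c * y)) = Real.exp (c ^ 2 / 2) * gd (y + c) := by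
  unfold gd
  rw [mul_assoc, ← Real.exp_add, mul_left_comm, ← Real.exp_add]
  congr 2; ring

lemma gd_lintegral_exp (c : ℝ) :
    ∫⁻ y, ENNReal.ofReal (gd y) * ENNReal.ofReal (Real.exp (-(c * y))) = ENNReal.ofReal (Real.exp (c ^ 2 / 2)) := by
  have e : ∀ y : ℝ, ENNReal.ofReal (gd y) * ENNReal.ofReal (Real.exp (-(c * y))) =
      ENNReal.ofReal (Real.exp (c ^ 2 / 2)) * ENNReal.ofReal (gd (y + c)) := by
    intro y
    rw [← ENNReal.ofReal_mul (gd_pos y).le, gd_shift, ENNReal.ofReal_mul (Real.exp_pos _).le]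
  simp only [e]
  rw [lintegral_const_mul' _ _ ENNReal.ofReal_ne_top,
    lintegral_add_right_eq_self (μ := volume) (fun y => ENNReal.ofReal (gd y)) c, gd_lintegral, mul_one]

/-- the Gaussian kernel on the line `Re s = σ` -/
lemma kernel_line {c : ℝ} (hc : 0 < c) (σ w : ℝ) :
    ∫ t : ℝ, cexp ((c : ℂ) ^ 2 / 2 * ((σ : ℂ) + t * I) ^ 2 + ((σ : ℂ) + t * I) * w) =
      ((2 * π * (c⁻¹ * gd (w / c)) : ℝ) : ℂ) := by
  have h := fourierIntegral_gaussian (b := ((c ^ 2 / 2 : ℝ) : ℂ)) (by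
    rw [Complex.ofReal_re]; positivity) ((c ^ 2 * σ + w : ℝ) : ℂ)
  have e : ∀ t : ℝ, cexp ((c : ℂ) ^ 2 / 2 * ((σ : ℂ) + t * I) ^ 2 + ((σ : ℂ) + t * I) * w) =
      cexp ((c : ℂ) ^ 2 / 2 * σ ^ 2 + σ * w) *
        (cexp (I * ((c ^ 2 * σ + w : ℝ) : ℂ) * t) * cexp (-((c ^ 2 / 2 : ℝ) : ℂ) * (t : ℂ) ^ 2)) := by
    intro t
    rw [← Complex.exp_add, ← Complex.exp_add]
    congr 1
    push_cast
    ring_nf
    rw [I_sq]
    ring
  simp only [e]
  rw [integral_const_mul, h]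
  have hs : ((π : ℂ) / ((c ^ 2 / 2 : ℝ) : ℂ)) ^ (1 / 2 : ℂ) = ((Real.sqrt (2 * π) / c : ℝ) : ℂ) := by
    have h1 : (π : ℂ) / ((c ^ 2 / 2 : ℝ) : ℂ) = ((2 * π / c ^ 2 : ℝ) : ℂ) := by
      push_cast; field_simp
    rw [h1]
    have h2 : ((1 / 2 : ℂ)) = ((1 / 2 : ℝ) : ℂ) := by push_cast; rfl
    rw [h2, ← Complex.ofReal_cpow (by positivity), ← Real.sqrt_eq_rpow]
    congr 1
    rw [Real.sqrt_div (by positivity), Real.sqrt_sq hc.le]
  rw [hs]
  have e2 : cexp ((c : ℂ) ^ 2 / 2 * σ ^ 2 + σ * w) * (((Real.sqrt (2 * π) / c : ℝ) : ℂ) *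
      cexp (-((c ^ 2 * σ + w : ℝ) : ℂ) ^ 2 / (4 * ((c ^ 2 / 2 : ℝ) : ℂ)))) =
      ((Real.sqrt (2 * π) / c * Real.exp (-((w / c) ^ 2) / 2) : ℝ) : ℂ) := by
    rw [mul_left_comm, ← Complex.exp_add]
    rw [Complex.ofReal_mul, Complex.ofReal_exp]
    congr 2
    have hc' : (c : ℂ) ≠ 0 := by exact_mod_cast hc.ne'
    push_cast
    field_simp
    ring
  rw [e2]
  congr 1
  unfold gd
  have h3 : Real.sqrt (2 * π) * Real.sqrt (2 * π) = 2 * π := Real.mul_self_sqrt (by positivity)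
  have h4 : Real.sqrt (2 * π) ≠ 0 := by positivity
  field_simp
  nlinarith [h3]

/-- the smoothed function -/
noncomputable def W (c : ℝ) (D : ℝ → ℂ) (u : ℝ) : ℂ := ∫ v, D v * ((c⁻¹ * gd ((u - v) / c) : ℝ) : ℂ)

lemma norm_cexp_line (c σ u t : ℝ) :
    ‖cexp ((c : ℂ) ^ 2 / 2 * ((σ : ℂ) + t * I) ^ 2 + ((σ : ℂ) + t * I) * u)‖ =
      Real.exp (c ^ 2 / 2 * σ ^ 2 + σ * u) * Real.exp (-(c ^ 2 / 2) * t ^ 2) := by
  rw [Complex.norm_exp, ← Real.exp_add]
  congr 1
  have : ((c : ℂ) ^ 2 / 2 * ((σ : ℂ) + t * I) ^ 2 + ((σ : ℂ) + t * I) * u) =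
      ((c ^ 2 / 2 * σ ^ 2 + σ * u + -(c ^ 2 / 2) * t ^ 2 : ℝ) : ℂ) + ((c ^ 2 * σ * t + t * u : ℝ) : ℂ) * I := by
    push_cast
    ring_nf
    rw [I_sq]
    ring
  rw [this, Complex.add_re, Complex.ofReal_re, Complex.re_ofReal_mul, Complex.I_re]
  ring

/-- representation of the smoothed function by the Laplace transform on a vertical line -/
lemma line_rep {D : ℝ → ℂ} {c σ : ℝ} (hc : 0 < c) (mD : Measurable D)
    (iD : Integrable (fun u : ℝ => ‖D u‖ * Real.exp (-(σ * u)))) (u : ℝ) :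
    ((2 * π : ℝ) : ℂ) * W c D u = ∫ t : ℝ, (∫ v : ℝ, D v * cexp (-(((σ : ℂ) + t * I) * v))) *
      cexp ((c : ℂ) ^ 2 / 2 * ((σ : ℂ) + t * I) ^ 2 + ((σ : ℂ) + t * I) * u) := by
  have e1 : ∀ t : ℝ, (∫ v : ℝ, D v * cexp (-(((σ : ℂ) + t * I) * v))) *
      cexp ((c : ℂ) ^ 2 / 2 * ((σ : ℂ) + t * I) ^ 2 + ((σ : ℂ) + t * I) * u) =
      ∫ v : ℝ, D v * cexp ((c : ℂ) ^ 2 / 2 * ((σ : ℂ) + t * I) ^ 2 + ((σ : ℂ) + t * I) * (u - v : ℝ)) := by
    intro t
    rw [← integral_mul_const]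
    congr 1
    funext v
    rw [mul_assoc, ← Complex.exp_add]
    congr 2
    push_cast
    ring
  simp only [e1]
  rw [integral_integral_swap]
  · have e2 : ∀ v : ℝ, ∫ t : ℝ, D v * cexp ((c : ℂ) ^ 2 / 2 * ((σ : ℂ) + t * I) ^ 2 + ((σ : ℂ) + t * I) * (u - v : ℝ)) =
        ((2 * π : ℝ) : ℂ) * (D v * ((c⁻¹ * gd ((u - v) / c) : ℝ) : ℂ)) := by
      intro v
      rw [integral_const_mul, kernel_line hc σ (u - v)]
      push_cast
      ring
    simp only [e2]
    rw [integral_const_mul]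
    rfl
  · have hI : Integrable (fun p : ℝ × ℝ => (Real.exp (c ^ 2 / 2 * σ ^ 2 + σ * u) * Real.exp (-(c ^ 2 / 2) * p.1 ^ 2)) *
        (‖D p.2‖ * Real.exp (-(σ * p.2)))) (volume.prod volume) :=
      ((integrable_exp_neg_mul_sq (b := c ^ 2 / 2) (by positivity)).const_mul _).mul_prod iD
    refine hI.mono ?_ (Eventually.of_forall fun p => ?_)
    · apply Measurable.aestronglyMeasurable
      simp only [Function.uncurry_def]
      fun_prop
    · rw [Function.uncurry_def]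
      simp only
      rw [norm_mul, norm_cexp_line, Real.norm_of_nonneg (by positivity)]
      apply le_of_eq
      rw [show c ^ 2 / 2 * σ ^ 2 + σ * (u - p.2) = (c ^ 2 / 2 * σ ^ 2 + σ * u) + (-(σ * p.2)) by ring, Real.exp_add]
      ring

lemma W_eq {D : ℝ → ℂ} {c : ℝ} (hc : 0 < c) (u : ℝ) : W c D u = ∫ y, D (u - c * y) * ((gd y : ℝ) : ℂ) := by
  unfold W
  have h1 := MeasureTheory.integral_sub_left_eq_self (fun v : ℝ => D v * ((c⁻¹ * gd ((u - v) / c) : ℝ) : ℂ)) volume u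
  rw [← h1]
  have h2 := MeasureTheory.Measure.integral_comp_mul_left (fun v : ℝ => D (u - v) * ((c⁻¹ * gd ((u - (u - v)) / c) : ℝ) : ℂ)) c
  rw [abs_of_pos (inv_pos.2 hc)] at h2
  have h3 : (∫ y : ℝ, D (u - y) * ((c⁻¹ * gd ((u - (u - y)) / c) : ℝ) : ℂ)) =
      (c : ℂ) * ∫ x : ℝ, D (u - c * x) * ((c⁻¹ * gd ((u - (u - c * x)) / c) : ℝ) : ℂ) := by
    rw [h2, Complex.real_smul]
    push_cast
    have hc' : (c : ℂ) ≠ 0 := by exact_mod_cast hc.ne'
    rw [← mul_assoc, mul_inv_cancel₀ hc', one_mul]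
  rw [h3, ← integral_const_mul]
  congr 1
  funext y
  have hc' : (c : ℂ) ≠ 0 := by exact_mod_cast hc.ne'
  have e : (u - (u - c * y)) / c = y := by field_simp; ring
  rw [e]
  push_cast
  field_simp

/-- convergence of the smoothed functions at continuity points -/
lemma W_tendsto {D : ℝ → ℂ} {C b : ℝ} (mD : Measurable D) (hb : ∀ u, ‖D u‖ ≤ C * Real.exp (b * |u|)) (b0 : 0 ≤ b)
    {u : ℝ} (hu : ContinuousAt D u) {c : ℕ → ℝ} (hc : ∀ n, 0 < c n) (hc1 : ∀ n, c n ≤ 1)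
    (hc0 : Tendsto c atTop (𝓝 0)) : Tendsto (fun n => W (c n) D u) atTop (𝓝 (D u)) := by
  have hC : 0 ≤ C := by
    have := (norm_nonneg _).trans (hb 0)
    simpa using this
  have h1 : D u = ∫ y, D u * ((gd y : ℝ) : ℂ) := by
    rw [integral_const_mul, integral_complex_ofReal, gd_integral]; simp
  rw [h1]
  simp only [W_eq (hc _)]
  have hI : Integrable (fun y : ℝ => C * Real.exp (b * |u|) * (Real.exp (b * y) * gd y + Real.exp (-(b * y)) * gd y)) := by
    have a1 : Integrable (fun y : ℝ => gd y * Real.exp (-(b * y))) := by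
      have := (gd_integrable.comp_add_right b).const_mul (Real.exp (b ^ 2 / 2))
      refine this.congr (Eventually.of_forall fun y => ?_)
      simp only
      rw [gd_shift]
    have a2 : Integrable (fun y : ℝ => gd y * Real.exp (-(-b * y))) := by
      have := (gd_integrable.comp_add_right (-b)).const_mul (Real.exp ((-b) ^ 2 / 2))
      refine this.congr (Eventually.of_forall fun y => ?_)
      simp only
      rw [gd_shift]
    refine ((a2.add a1).const_mul (C * Real.exp (b * |u|))).congr (Eventually.of_forall fun y => ?_)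
    simp only [Pi.add_apply]
    rw [neg_mul, neg_neg]
    ring
  refine tendsto_integral_of_dominated_convergence _ (fun n => ?_) hI (fun n => ?_) ?_
  · apply Measurable.aestronglyMeasurable
    have := gd_cont.measurable
    fun_prop
  · refine Eventually.of_forall fun y => ?_
    rw [norm_mul, Complex.norm_real, Real.norm_of_nonneg (gd_pos y).le]
    have a1 : |u - c n * y| ≤ |u| + |y| := by
      calc |u - c n * y| ≤ |u| + |c n * y| := abs_sub _ _
        _ ≤ |u| + |y| := by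
            rw [abs_mul, abs_of_pos (hc n)]
            nlinarith [abs_nonneg y, hc1 n]
    have a2 : ‖D (u - c n * y)‖ ≤ C * Real.exp (b * |u|) * Real.exp (b * |y|) := by
      refine (hb _).trans ?_
      rw [mul_assoc, ← Real.exp_add]
      gcongr
      nlinarith
    have a3 : Real.exp (b * |y|) ≤ Real.exp (b * y) + Real.exp (-(b * y)) := by
      rcases abs_cases y with ⟨h, _⟩ | ⟨h, _⟩
      · rw [h]; nlinarith [Real.exp_pos (-(b * y))]
      · rw [h, mul_neg]; nlinarith [Real.exp_pos (b * y)]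
    calc ‖D (u - c n * y)‖ * gd y ≤ C * Real.exp (b * |u|) * Real.exp (b * |y|) * gd y := by
          gcongr; exact (gd_pos y).le
      _ ≤ C * Real.exp (b * |u|) * (Real.exp (b * y) + Real.exp (-(b * y))) * gd y := by
          gcongr; exact (gd_pos y).le
      _ = _ := by ring
  · refine Eventually.of_forall fun y => ?_
    apply Tendsto.mul_const
    have a1 : Tendsto (fun n => u - c n * y) atTop (𝓝 u) := by
      have := (hc0.mul_const y).const_sub u
      simpa using this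
    exact hu.tendsto.comp a1

/-- Jensen's inequality for the smoothed function -/
lemma W_jensen {D : ℝ → ℂ} (mD : Measurable D) {c : ℝ} (hc : 0 < c) :
    ∫⁻ u, ENNReal.ofReal (Real.exp (-u)) * ‖W c D u‖ₑ ^ 2 ≤
      ENNReal.ofReal (Real.exp (c ^ 2 / 2)) * ∫⁻ u, ENNReal.ofReal (Real.exp (-u)) * ‖D u‖ₑ ^ 2 := by
  have mg : Measurable (fun y => ENNReal.ofReal (gd y)) := gd_cont.measurable.ennreal_ofReal
  have h1 : ∀ u, ‖W c D u‖ₑ ^ 2 ≤ ∫⁻ y, ‖D (u - c * y)‖ₑ ^ 2 * ENNReal.ofReal (gd y) := by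
    intro u
    rw [W_eq hc]
    have a1 : ‖∫ y, D (u - c * y) * ((gd y : ℝ) : ℂ)‖ₑ ≤ ∫⁻ y, ‖D (u - c * y)‖ₑ * ENNReal.ofReal (gd y) := by
      refine (enorm_integral_le_lintegral_enorm _).trans (le_of_eq ?_)
      congr 1
      funext y
      rw [enorm_mul]
      congr 1
      rw [← ofReal_norm, Complex.norm_real, Real.norm_of_nonneg (gd_pos y).le]
    have a2 := ENNReal.lintegral_mul_le_Lp_mul_Lq (μ := volume) (p := 2) (q := 2) (by constructor <;> norm_num)
      (f := fun y => ‖D (u - c * y)‖ₑ * (ENNReal.ofReal (gd y)) ^ (1 / 2 : ℝ))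
      (g := fun y => (ENNReal.ofReal (gd y)) ^ (1 / 2 : ℝ)) (Measurable.aemeasurable (by fun_prop))
      (Measurable.aemeasurable (by fun_prop))
    have a3 : ∀ x : ℝ≥0∞, x ^ (1 / 2 : ℝ) * x ^ (1 / 2 : ℝ) = x := by
      intro x
      rw [← ENNReal.rpow_add_of_nonneg _ _ (by norm_num) (by norm_num)]
      norm_num
    have a4 : ∀ x : ℝ≥0∞, (x ^ (1 / 2 : ℝ)) ^ (2 : ℝ) = x := by
      intro x
      rw [← ENNReal.rpow_mul]; norm_num
    simp only [Pi.mul_apply, mul_assoc, a3] at a2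
    simp only [ENNReal.mul_rpow_of_nonneg _ _ (by norm_num : (0:ℝ) ≤ 2), a4, gd_lintegral, ENNReal.one_rpow, mul_one] at a2
    have a5 := pow_le_pow_left' (a1.trans a2) 2
    refine a5.trans (le_of_eq ?_)
    rw [← ENNReal.rpow_natCast, ← ENNReal.rpow_mul]
    norm_num
  calc ∫⁻ u, ENNReal.ofReal (Real.exp (-u)) * ‖W c D u‖ₑ ^ 2
      ≤ ∫⁻ u, ENNReal.ofReal (Real.exp (-u)) * ∫⁻ y, ‖D (u - c * y)‖ₑ ^ 2 * ENNReal.ofReal (gd y) := by
        gcongr with u; exact h1 u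
    _ = ∫⁻ u, ∫⁻ y, ENNReal.ofReal (Real.exp (-u)) * (‖D (u - c * y)‖ₑ ^ 2 * ENNReal.ofReal (gd y)) := by
        congr 1; funext u
        rw [lintegral_const_mul' _ _ ENNReal.ofReal_ne_top]
    _ = ∫⁻ y, ∫⁻ u, ENNReal.ofReal (Real.exp (-u)) * (‖D (u - c * y)‖ₑ ^ 2 * ENNReal.ofReal (gd y)) := by
        rw [lintegral_lintegral_swap]
        apply Measurable.aemeasurable
        simp only [Function.uncurry_def]
        fun_prop
    _ = ∫⁻ y, (ENNReal.ofReal (gd y) * ENNReal.ofReal (Real.exp (-(c * y)))) *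
          ∫⁻ u, ENNReal.ofReal (Real.exp (-u)) * ‖D u‖ₑ ^ 2 := by
        congr 1; funext y
        rw [← lintegral_sub_right_eq_self (fun u => ENNReal.ofReal (Real.exp (-u)) * ‖D u‖ₑ ^ 2) (c * y),
          ← lintegral_const_mul' _ _ (ENNReal.mul_ne_top ENNReal.ofReal_ne_top ENNReal.ofReal_ne_top)]
        congr 1; funext u
        have e : ENNReal.ofReal (Real.exp (-u)) = ENNReal.ofReal (Real.exp (-(c * y))) * ENNReal.ofReal (Real.exp (-(u - c * y))) := by
          rw [← ENNReal.ofReal_mul (Real.exp_pos _).le, ← Real.exp_add]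
          congr 2; ring
        rw [e]
        ring
    _ = _ := by
        rw [lintegral_mul_const'' _ (by fun_prop), gd_lintegral_exp]

end Pool.Agent.N798.V
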