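import Pool.Agent.N798.V1

set_option autoImplicit false

/-! Plancherel's theorem for Laplace transforms that are continued analytically from the line `Re s = 2` to the
line `Re s = 1/2`: the main lemma. -/

namespace Pool.Agent.N798.V

open Complex MeasureTheory Filter Topology FourierTransform
open scoped ENNReal Real

lemma poly_gauss (K : ℝ) (hK : 0 ≤ K) (A : ℕ) {η : ℝ} (hη : 0 < η) :
    ∃ K' : ℝ, 0 ≤ K' ∧ ∀ t : ℝ, K * (1 + |t|) ^ A * Real.exp (-η * t ^ 2) ≤ K' * Real.exp (-(η / 2) * t ^ 2) := by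
  refine ⟨K * (A.factorial * Real.exp (1 + 1 / (2 * η))), by positivity, fun t => ?_⟩
  have h1 : (1 + |t|) ^ A ≤ A.factorial * Real.exp (1 + |t|) := by
    have := Real.pow_div_factorial_le_exp (1 + |t|) (by positivity) A
    rw [div_le_iff₀ (by positivity)] at this
    linarith
  have h2 : 1 + |t| + -η * t ^ 2 ≤ 1 + 1 / (2 * η) + -(η / 2) * t ^ 2 := by
    have : |t| ≤ 1 / (2 * η) + η / 2 * t ^ 2 := by
      rw [← sq_abs t]
      have h3 : 0 ≤ (1 / (2 * η)) * (η * |t| - 1) ^ 2 := by positivity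
      have h4 : (1 / (2 * η)) * (η * |t| - 1) ^ 2 = 1 / (2 * η) + η / 2 * |t| ^ 2 - |t| := by
        field_simp; ring
      linarith
    linarith
  calc K * (1 + |t|) ^ A * Real.exp (-η * t ^ 2) ≤ K * (A.factorial * Real.exp (1 + |t|)) * Real.exp (-η * t ^ 2) := by
        gcongr
    _ = K * A.factorial * Real.exp (1 + |t| + -η * t ^ 2) := by rw [Real.exp_add (1 + |t|)]; ring
    _ ≤ K * A.factorial * Real.exp (1 + 1 / (2 * η) + -(η / 2) * t ^ 2) := by gcongr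
    _ = _ := by rw [Real.exp_add (1 + 1 / (2 * η))]; ring

lemma lintegral_comp_mul_left' (f : ℝ → ℝ≥0∞) (hf : Measurable f) {a : ℝ} (ha : a ≠ 0) :
    ∫⁻ x, f (a * x) = ENNReal.ofReal |a⁻¹| * ∫⁻ x, f x := by
  rw [← lintegral_map hf (measurable_const_mul a), Real.map_volume_mul_left ha, lintegral_smul_measure, smul_eq_mul]

lemma gd_le (y : ℝ) : gd y ≤ (Real.sqrt (2 * π))⁻¹ := by
  unfold gd
  have : Real.exp (-(y ^ 2) / 2) ≤ 1 := by
    rw [Real.exp_le_one_iff]; nlinarith [sq_nonneg y]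
  calc (Real.sqrt (2 * π))⁻¹ * Real.exp (-(y ^ 2) / 2) ≤ (Real.sqrt (2 * π))⁻¹ * 1 := by gcongr
    _ = _ := mul_one _

/-- the integral that defines the smoothed function converges -/
lemma W_int {D : ℝ → ℂ} {c σ : ℝ} (hc : 0 < c) (mD : Measurable D)
    (iD : Integrable (fun u : ℝ => ‖D u‖ * Real.exp (-(σ * u)))) (u : ℝ) :
    Integrable (fun v => D v * ((c⁻¹ * gd ((u - v) / c) : ℝ) : ℂ)) := by
  refine Integrable.mono' (iD.const_mul (c⁻¹ * (Real.sqrt (2 * π))⁻¹ * Real.exp (σ * u + c ^ 2 * σ ^ 2 / 2)))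
    (Measurable.aestronglyMeasurable (by fun_prop)) (Eventually.of_forall fun v => ?_)
  rw [norm_mul, Complex.norm_real, Real.norm_of_nonneg (mul_nonneg (by positivity) (gd_pos _).le)]
  have h1 : gd ((u - v) / c) ≤ (Real.sqrt (2 * π))⁻¹ * (Real.exp (σ * u + c ^ 2 * σ ^ 2 / 2) * Real.exp (-(σ * v))) := by
    unfold gd
    rw [← Real.exp_add]
    gcongr
    have h2 : 0 ≤ ((u - v) / c + c * σ) ^ 2 / 2 := by positivity
    have h3 : ((u - v) / c + c * σ) ^ 2 / 2 = ((u - v) / c) ^ 2 / 2 + (u - v) * σ + c ^ 2 * σ ^ 2 / 2 := by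
      field_simp; ring
    nlinarith
  calc ‖D v‖ * (c⁻¹ * gd ((u - v) / c)) ≤ ‖D v‖ * (c⁻¹ * ((Real.sqrt (2 * π))⁻¹ *
        (Real.exp (σ * u + c ^ 2 * σ ^ 2 / 2) * Real.exp (-(σ * v))))) := by gcongr
    _ = _ := by ring

/-- the smoothed function in terms of the transform on the line `Re s = 1/2` and its norm -/
lemma W_plancherel {D Φ : ℝ → ℂ} {c : ℝ} (hΦ : Continuous Φ) {K η : ℝ} (hη : 0 < η)
    (hb : ∀ t, ‖Φ t‖ ≤ K * Real.exp (-η * t ^ 2))
    (hW : ∀ u : ℝ, ((2 * π : ℝ) : ℂ) * W c D u = ∫ t : ℝ, Φ t * cexp (((1 / 2 : ℝ) + t * I) * u)) :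
    ∫⁻ u, ENNReal.ofReal (Real.exp (-u)) * ‖W c D u‖ₑ ^ 2 = ENNReal.ofReal (1 / (2 * π)) * ∫⁻ t, ‖Φ t‖ₑ ^ 2 := by
  have hi : Integrable Φ :=
    Integrable.mono' ((integrable_exp_neg_mul_sq hη).const_mul K) hΦ.aestronglyMeasurable (Eventually.of_forall hb)
  have hK : 0 ≤ K := by
    have := (norm_nonneg _).trans (hb 0)
    simpa using this
  have h2 : MemLp Φ 2 := by
    rw [memLp_two_iff_integrable_sq_norm hΦ.aestronglyMeasurable]
    refine Integrable.mono' ((integrable_exp_neg_mul_sq (b := 2 * η) (by positivity)).const_mul (K ^ 2))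
      (by fun_prop) (Eventually.of_forall fun t => ?_)
    rw [Real.norm_of_nonneg (by positivity)]
    calc ‖Φ t‖ ^ 2 ≤ (K * Real.exp (-η * t ^ 2)) ^ 2 := by gcongr; exact hb t
      _ = _ := by rw [mul_pow, ← Real.exp_nat_mul]; congr 2; push_cast; ring
  have hp := Pool.Agent.H153R4.plancherel Φ hi h2
  have hF : ∀ u : ℝ, ENNReal.ofReal (Real.exp (-u)) * ‖W c D u‖ₑ ^ 2 =
      ENNReal.ofReal (1 / (2 * π) ^ 2) * ‖𝓕 Φ (-(2 * π)⁻¹ * u)‖ₑ ^ 2 := by
    intro u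
    have h3 : 𝓕 Φ (-(2 * π)⁻¹ * u) = cexp (-((u / 2 : ℝ) : ℂ)) * (((2 * π : ℝ) : ℂ) * W c D u) := by
      rw [hW u, Real.fourier_real_eq_integral_exp_smul, ← integral_const_mul]
      congr 1
      funext t
      have e4 : -2 * π * t * (-(2 * π)⁻¹ * u) = t * u := by field_simp
      have e5 : cexp (((-2 * π * t * (-(2 * π)⁻¹ * u) : ℝ) : ℂ) * I) =
          cexp (-((u / 2 : ℝ) : ℂ)) * cexp (((1 / 2 : ℝ) + t * I) * u) := by
        rw [← Complex.exp_add, e4]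
        congr 1
        push_cast
        ring
      rw [smul_eq_mul, e5]
      ring
    rw [h3, enorm_mul, enorm_mul, mul_pow ‖cexp (-((u / 2 : ℝ) : ℂ))‖ₑ, mul_pow ‖((2 * π : ℝ) : ℂ)‖ₑ]
    have e1 : ‖cexp (-((u / 2 : ℝ) : ℂ))‖ₑ ^ 2 = ENNReal.ofReal (Real.exp (-u)) := by
      rw [← ofReal_norm, ← ENNReal.ofReal_pow (norm_nonneg _), ← Complex.ofReal_neg, Complex.norm_exp_ofReal,
        ← Real.exp_nat_mul]
      congr 2; push_cast; ring
    have e2 : ‖((2 * π : ℝ) : ℂ)‖ₑ ^ 2 = ENNReal.ofReal ((2 * π) ^ 2) := by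
      rw [← ofReal_norm, ← ENNReal.ofReal_pow (norm_nonneg _), Complex.norm_real, Real.norm_of_nonneg (by positivity)]
    rw [e1, e2]
    have e3 : ENNReal.ofReal (1 / (2 * π) ^ 2) * ENNReal.ofReal ((2 * π) ^ 2) = 1 := by
      rw [← ENNReal.ofReal_mul (by positivity)]
      rw [one_div_mul_cancel (by positivity)]
      simp
    calc ENNReal.ofReal (Real.exp (-u)) * ‖W c D u‖ₑ ^ 2
        = (ENNReal.ofReal (1 / (2 * π) ^ 2) * ENNReal.ofReal ((2 * π) ^ 2)) *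
            (ENNReal.ofReal (Real.exp (-u)) * ‖W c D u‖ₑ ^ 2) := by rw [e3, one_mul]
      _ = _ := by ring
  have hcF : Continuous (𝓕 Φ) :=
    VectorFourier.fourierIntegral_continuous (L := innerₗ ℝ) Real.continuous_fourierChar continuous_inner hi
  simp only [hF]
  rw [lintegral_const_mul' _ _ ENNReal.ofReal_ne_top,
    lintegral_comp_mul_left' (fun x => ‖𝓕 Φ x‖ₑ ^ 2) (by fun_prop) (by
      have : (0:ℝ) < (2 * π)⁻¹ := by positivity
      linarith), hp, ← mul_assoc, ← ENNReal.ofReal_mul (by positivity)]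
  congr 2
  rw [inv_neg, inv_inv, abs_neg, abs_of_pos (by positivity)]
  field_simp

/-- **Plancherel with continuation.** -/
theorem engine {D₁ D₂ : ℝ → ℂ} {G : ℂ → ℂ} {g₂ : ℝ → ℂ} {C b K : ℝ} {A : ℕ}
    (m₁ : Measurable D₁) (m₂ : Measurable D₂) (b0 : 0 ≤ b)
    (hb : ∀ u, ‖D₁ u + D₂ u‖ ≤ C * Real.exp (b * |u|))
    (hc : ∀ᵐ u, ContinuousAt (fun u => D₁ u + D₂ u) u)
    (i₁ : Integrable (fun u : ℝ => ‖D₁ u‖ * Real.exp (-((2:ℝ) * u))))
    (i₂ : Integrable (fun u : ℝ => ‖D₂ u‖ * Real.exp (-((1 / 2 : ℝ) * u))))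
    (t₁ : ∀ t : ℝ, ∫ v : ℝ, D₁ v * cexp (-((((2:ℝ) : ℂ) + t * I) * v)) = G (((2:ℝ) : ℂ) + t * I))
    (t₂ : ∀ t : ℝ, ∫ v : ℝ, D₂ v * cexp (-((((1 / 2 : ℝ) : ℂ) + t * I) * v)) = g₂ t)
    (hg₂ : Continuous g₂)
    (hG : ∀ z : ℂ, 1 / 2 ≤ z.re → z.re ≤ 2 → DifferentiableAt ℂ G z)
    (hGb : ∀ z : ℂ, 1 / 2 ≤ z.re → z.re ≤ 2 → ‖G z‖ ≤ K * (1 + |z.im|) ^ A) :
    ∫⁻ u, ENNReal.ofReal (Real.exp (-u)) * ‖D₁ u + D₂ u‖ₑ ^ 2 =
      ENNReal.ofReal (1 / (2 * π)) * ∫⁻ t : ℝ, ‖G (((1 / 2 : ℝ) : ℂ) + t * I) + g₂ t‖ₑ ^ 2 := by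
  have hK : 0 ≤ K := by
    have := (norm_nonneg _).trans (hGb 1 (by norm_num) (by norm_num))
    simpa using this
  set M₂ : ℝ := ∫ v : ℝ, ‖D₂ v‖ * Real.exp (-((1 / 2 : ℝ) * v)) with hM₂
  have hM₂0 : 0 ≤ M₂ := integral_nonneg fun v => by positivity
  have hg₂b : ∀ t, ‖g₂ t‖ ≤ M₂ := by
    intro t
    rw [← t₂ t]
    refine (norm_integral_le_integral_norm _).trans (le_of_eq ?_)
    congr 1; funext v
    rw [norm_mul, Complex.norm_exp]
    congr 2
    simp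
  -- the transform on the line 1/2
  set Φ : ℝ → ℝ → ℂ := fun c t => (G (((1 / 2 : ℝ) : ℂ) + t * I) + g₂ t) *
    cexp ((c : ℂ) ^ 2 / 2 * (((1 / 2 : ℝ) : ℂ) + t * I) ^ 2) with hΦd
  have hGc : Continuous (fun t : ℝ => G (((1 / 2 : ℝ) : ℂ) + t * I)) := by
    rw [continuous_iff_continuousAt]
    intro t
    have h1 : ContinuousAt G (((1 / 2 : ℝ) : ℂ) + t * I) := by
      apply (hG _ _ _).continuousAt <;> simp <;> norm_num
    exact ContinuousAt.comp (g := G) (f := fun t : ℝ => (((1 / 2 : ℝ) : ℂ) + t * I)) h1 (by fun_prop)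
  have hΦc : ∀ c : ℝ, Continuous (Φ c) := by
    intro c
    simp only [hΦd]
    exact (hGc.add hg₂).mul (by fun_prop)
  have hnexp : ∀ c t : ℝ, ‖cexp ((c : ℂ) ^ 2 / 2 * (((1 / 2 : ℝ) : ℂ) + t * I) ^ 2)‖ =
      Real.exp (c ^ 2 / 8) * Real.exp (-(c ^ 2 / 2) * t ^ 2) := by
    intro c t
    have := norm_cexp_line c (1 / 2) 0 t
    rw [Complex.ofReal_zero, mul_zero, add_zero] at this
    rw [this]
    congr 2; ring
  have hG1 : ∀ t : ℝ, ‖G (((1 / 2 : ℝ) : ℂ) + t * I) + g₂ t‖ ≤ (K + M₂) * (1 + |t|) ^ A := by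
    intro t
    have h1 := hGb (((1 / 2 : ℝ) : ℂ) + t * I) (by simp) (by simp; norm_num)
    have him : ((((1 / 2 : ℝ) : ℂ) + t * I)).im = t := by simp
    rw [him] at h1
    have h2 : (1:ℝ) ≤ (1 + |t|) ^ A := one_le_pow₀ (by linarith [abs_nonneg t])
    calc ‖G (((1 / 2 : ℝ) : ℂ) + t * I) + g₂ t‖ ≤ K * (1 + |t|) ^ A + M₂ * 1 :=
          (norm_add_le _ _).trans (add_le_add h1 (by rw [mul_one]; exact hg₂b t))
      _ ≤ K * (1 + |t|) ^ A + M₂ * (1 + |t|) ^ A := by gcongr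
      _ = _ := by ring
  have hΦb : ∀ c : ℝ, 0 < c → ∃ K' : ℝ, ∀ t, ‖Φ c t‖ ≤ K' * Real.exp (-(c ^ 2 / 4) * t ^ 2) := by
    intro c hc
    obtain ⟨K', hK', h⟩ := poly_gauss (K + M₂) (by positivity) A (η := c ^ 2 / 2) (by positivity)
    refine ⟨Real.exp (c ^ 2 / 8) * K', fun t => ?_⟩
    simp only [hΦd]
    rw [norm_mul, hnexp]
    calc ‖G (((1 / 2 : ℝ) : ℂ) + t * I) + g₂ t‖ * (Real.exp (c ^ 2 / 8) * Real.exp (-(c ^ 2 / 2) * t ^ 2))
        ≤ ((K + M₂) * (1 + |t|) ^ A) * (Real.exp (c ^ 2 / 8) * Real.exp (-(c ^ 2 / 2) * t ^ 2)) := by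
          gcongr; exact hG1 t
      _ = Real.exp (c ^ 2 / 8) * ((K + M₂) * (1 + |t|) ^ A * Real.exp (-(c ^ 2 / 2) * t ^ 2)) := by ring
      _ ≤ Real.exp (c ^ 2 / 8) * (K' * Real.exp (-(c ^ 2 / 2 / 2) * t ^ 2)) :=
          mul_le_mul_of_nonneg_left (h t) (by positivity)
      _ = _ := by rw [← mul_assoc]; congr 3; ring
  set D : ℝ → ℂ := fun u => D₁ u + D₂ u with hD
  have mD : Measurable D := m₁.add m₂
  -- representation of the smoothed function
  have hW : ∀ c : ℝ, 0 < c → ∀ u : ℝ, ((2 * π : ℝ) : ℂ) * W c D u =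
      ∫ t : ℝ, Φ c t * cexp (((1 / 2 : ℝ) + t * I) * u) := by
    intro c hc u
    have r₁ := line_rep hc m₁ i₁ u
    have r₂ := line_rep hc m₂ i₂ u
    simp only [t₁] at r₁
    simp only [t₂] at r₂
    -- shift of the line
    set H : ℂ → ℂ := fun z => G (I * z) * cexp ((c : ℂ) ^ 2 / 2 * (I * z) ^ 2 + (I * z) * u) with hH
    obtain ⟨K₁, hK₁, hK₁b⟩ := poly_gauss K hK A (η := c ^ 2 / 2) (by positivity)
    have hre : ∀ z : ℂ, z.im ∈ Set.uIcc (-2 : ℝ) (-(1 / 2)) → 1 / 2 ≤ (I * z).re ∧ (I * z).re ≤ 2 := by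
      intro z hz
      rw [Set.uIcc_of_le (by norm_num)] at hz
      simp only [Complex.mul_re, Complex.I_re, Complex.I_im, zero_mul, one_mul, zero_sub]
      constructor <;> linarith [hz.1, hz.2]
    have sh := Pool.Agent.Helper242.KK.shift_line (H := H) (a := -2) (b := -(1 / 2)) (δ := c ^ 2 / 4)
      (K := K₁ * Real.exp (2 * c ^ 2 + 2 * |u|)) (by positivity) (by
        intro z hz
        obtain ⟨h1, h2⟩ := hre z hz
        have := hG (I * z) h1 h2
        have h3 : DifferentiableAt ℂ (fun z : ℂ => G (I * z)) z :=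
          DifferentiableAt.comp (g := G) (f := fun z : ℂ => I * z) z this (by fun_prop)
        exact h3.mul (by fun_prop)) (by
        intro z hz
        obtain ⟨h1, h2⟩ := hre z hz
        have h3 := hGb (I * z) h1 h2
        have him : (I * z).im = z.re := by simp
        rw [him] at h3
        have h4 : I * z = (((I * z).re : ℝ) : ℂ) + ((z.re : ℝ) : ℂ) * I := by
          apply Complex.ext <;> simp
        simp only [hH]
        rw [norm_mul]
        have h5 : ‖cexp ((c : ℂ) ^ 2 / 2 * (I * z) ^ 2 + (I * z) * u)‖ =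
            Real.exp (c ^ 2 / 2 * (I * z).re ^ 2 + (I * z).re * u) * Real.exp (-(c ^ 2 / 2) * z.re ^ 2) := by
          conv_lhs => rw [h4]
          exact norm_cexp_line c _ u _
        rw [h5]
        have h6 : c ^ 2 / 2 * (I * z).re ^ 2 + (I * z).re * u ≤ 2 * c ^ 2 + 2 * |u| := by
          have a1 : (I * z).re ^ 2 ≤ 2 ^ 2 := by
            apply pow_le_pow_left₀ (by linarith) h2
          have a2 : (I * z).re * u ≤ 2 * |u| := by
            calc (I * z).re * u ≤ (I * z).re * |u| := by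
                  apply mul_le_mul_of_nonneg_left (le_abs_self u) (by linarith)
              _ ≤ 2 * |u| := by apply mul_le_mul_of_nonneg_right h2 (abs_nonneg _)
          nlinarith [sq_nonneg c]
        calc ‖G (I * z)‖ * (Real.exp (c ^ 2 / 2 * (I * z).re ^ 2 + (I * z).re * u) * Real.exp (-(c ^ 2 / 2) * z.re ^ 2))
            ≤ (K * (1 + |z.re|) ^ A) * (Real.exp (2 * c ^ 2 + 2 * |u|) * Real.exp (-(c ^ 2 / 2) * z.re ^ 2)) := by
              gcongr
          _ = Real.exp (2 * c ^ 2 + 2 * |u|) * (K * (1 + |z.re|) ^ A * Real.exp (-(c ^ 2 / 2) * z.re ^ 2)) := by ring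
          _ ≤ Real.exp (2 * c ^ 2 + 2 * |u|) * (K₁ * Real.exp (-(c ^ 2 / 2 / 2) * z.re ^ 2)) :=
              mul_le_mul_of_nonneg_left (hK₁b _) (by positivity)
          _ = _ := by
              rw [show -(c ^ 2 / 4) * z.re ^ 2 = -(c ^ 2 / 2 / 2) * z.re ^ 2 by ring]; ring)
    have e₁ : ∀ t : ℝ, H (t + ((-2 : ℝ) : ℂ) * I) = G (((2:ℝ) : ℂ) + t * I) *
        cexp ((c : ℂ) ^ 2 / 2 * (((2 : ℝ) : ℂ) + t * I) ^ 2 + (((2 : ℝ) : ℂ) + t * I) * u) := by
      intro t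
      have : I * ((t : ℂ) + ((-2 : ℝ) : ℂ) * I) = ((2 : ℝ) : ℂ) + t * I := by
        push_cast
        ring_nf
        rw [I_sq]
        ring
      simp only [hH, this]
    have e₂ : ∀ t : ℝ, H (t + ((-(1 / 2) : ℝ) : ℂ) * I) = G (((1 / 2 : ℝ) : ℂ) + t * I) *
        cexp ((c : ℂ) ^ 2 / 2 * (((1 / 2 : ℝ) : ℂ) + t * I) ^ 2 + (((1 / 2 : ℝ) : ℂ) + t * I) * u) := by
      intro t
      have : I * ((t : ℂ) + ((-(1 / 2) : ℝ) : ℂ) * I) = ((1 / 2 : ℝ) : ℂ) + t * I := by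
        push_cast
        ring_nf
        rw [I_sq]
        ring
      simp only [hH, this]
    simp only [e₁, e₂] at sh
    rw [sh] at r₁
    have hadd : W c D u = W c D₁ u + W c D₂ u := by
      unfold W
      rw [← integral_add]
      · congr 1; funext v; simp only [hD]; ring
      · exact W_int hc m₁ i₁ u
      · exact W_int hc m₂ i₂ u
    rw [hadd, mul_add, r₁, r₂, ← integral_add]
    · congr 1; funext t
      simp only [hΦd]
      rw [← add_mul, mul_assoc, ← Complex.exp_add]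
    · obtain ⟨K', hK', h⟩ := poly_gauss K hK A (η := c ^ 2 / 2) (by positivity)
      refine Integrable.mono' ((integrable_exp_neg_mul_sq (b := c ^ 2 / 2 / 2) (by positivity)).const_mul
        (Real.exp (c ^ 2 / 2 * (1 / 2) ^ 2 + 1 / 2 * u) * K'))
        (hGc.mul (by fun_prop)).aestronglyMeasurable (Eventually.of_forall fun t => ?_)
      rw [norm_mul, norm_cexp_line]
      have h1 := hGb (((1 / 2 : ℝ) : ℂ) + t * I) (by simp) (by simp; norm_num)
      have him : ((((1 / 2 : ℝ) : ℂ) + t * I)).im = t := by simp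
      rw [him] at h1
      calc ‖G (((1 / 2 : ℝ) : ℂ) + t * I)‖ *
            (Real.exp (c ^ 2 / 2 * (1 / 2) ^ 2 + 1 / 2 * u) * Real.exp (-(c ^ 2 / 2) * t ^ 2))
          ≤ (K * (1 + |t|) ^ A) * (Real.exp (c ^ 2 / 2 * (1 / 2) ^ 2 + 1 / 2 * u) * Real.exp (-(c ^ 2 / 2) * t ^ 2)) := by
            gcongr
        _ = Real.exp (c ^ 2 / 2 * (1 / 2) ^ 2 + 1 / 2 * u) * (K * (1 + |t|) ^ A * Real.exp (-(c ^ 2 / 2) * t ^ 2)) := by ring
        _ ≤ Real.exp (c ^ 2 / 2 * (1 / 2) ^ 2 + 1 / 2 * u) * (K' * Real.exp (-(c ^ 2 / 2 / 2) * t ^ 2)) :=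
            mul_le_mul_of_nonneg_left (h t) (by positivity)
        _ = _ := by ring
    · refine Integrable.mono' ((integrable_exp_neg_mul_sq (b := c ^ 2 / 2) (by positivity)).const_mul
        (Real.exp (c ^ 2 / 2 * (1 / 2) ^ 2 + 1 / 2 * u) * M₂)) (by fun_prop) (Eventually.of_forall fun t => ?_)
      rw [norm_mul, norm_cexp_line]
      calc ‖g₂ t‖ * (Real.exp (c ^ 2 / 2 * (1 / 2) ^ 2 + 1 / 2 * u) * Real.exp (-(c ^ 2 / 2) * t ^ 2))
          ≤ M₂ * (Real.exp (c ^ 2 / 2 * (1 / 2) ^ 2 + 1 / 2 * u) * Real.exp (-(c ^ 2 / 2) * t ^ 2)) := by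
            gcongr; exact hg₂b t
        _ = _ := by ring
  have hP : ∀ c : ℝ, 0 < c → ∫⁻ u, ENNReal.ofReal (Real.exp (-u)) * ‖W c D u‖ₑ ^ 2 =
      ENNReal.ofReal (1 / (2 * π)) * ∫⁻ t, ‖Φ c t‖ₑ ^ 2 := by
    intro c hc
    obtain ⟨K', hK'⟩ := hΦb c hc
    exact W_plancherel (hΦc c) (η := c ^ 2 / 4) (by positivity) hK' (hW c hc)
  -- the sequence of smoothing parameters
  set c : ℕ → ℝ := fun n => 1 / ((n : ℝ) + 1) with hcd
  have cpos : ∀ n, 0 < c n := fun n => by simp only [hcd]; positivity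
  have cle : ∀ n, c n ≤ 1 := fun n => by
    simp only [hcd]
    rw [div_le_one (by positivity)]
    linarith [Nat.cast_nonneg (α := ℝ) n]
  have c0 : Tendsto c atTop (𝓝 0) := tendsto_one_div_add_atTop_nhds_zero_nat
  have cexp0 : ∀ a : ℝ, Tendsto (fun n => ENNReal.ofReal (Real.exp (c n ^ 2 * a))) atTop (𝓝 1) := by
    intro a
    have h1 : Tendsto (fun n => c n ^ 2 * a) atTop (𝓝 0) := by
      have := (c0.pow 2).mul_const a
      simpa using this
    have h2 := ENNReal.tendsto_ofReal ((Real.continuous_exp.tendsto 0).comp h1)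
    simpa [Function.comp_def] using h2
  have mW : ∀ c : ℝ, Measurable (W c D) := by
    intro c
    unfold W
    apply StronglyMeasurable.measurable
    apply StronglyMeasurable.integral_prod_right (f := fun u v => D v * ((c⁻¹ * gd ((u - v) / c) : ℝ) : ℂ))
    apply Measurable.stronglyMeasurable
    simp only [Function.uncurry_def]
    fun_prop
  set X : ℝ≥0∞ := ∫⁻ u, ENNReal.ofReal (Real.exp (-u)) * ‖D u‖ₑ ^ 2 with hX
  set Y : ℝ≥0∞ := ∫⁻ t : ℝ, ‖G (((1 / 2 : ℝ) : ℂ) + t * I) + g₂ t‖ₑ ^ 2 with hY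
  apply le_antisymm
  · -- Fatou for D
    have f1 : X ≤ liminf (fun n => ∫⁻ u, ENNReal.ofReal (Real.exp (-u)) * ‖W (c n) D u‖ₑ ^ 2) atTop := by
      refine le_trans ?_ (lintegral_liminf_le fun n => ?_)
      · apply lintegral_mono_ae
        filter_upwards [hc] with u hu
        have h1 := W_tendsto mD hb b0 hu cpos cle c0
        have h2 : Tendsto (fun n => ENNReal.ofReal (Real.exp (-u)) * ‖W (c n) D u‖ₑ ^ 2) atTop
            (𝓝 (ENNReal.ofReal (Real.exp (-u)) * ‖D u‖ₑ ^ 2)) := by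
          apply ENNReal.Tendsto.const_mul _ (Or.inr ENNReal.ofReal_ne_top)
          exact ENNReal.Tendsto.pow (continuous_enorm.tendsto _ |>.comp h1)
        rw [h2.liminf_eq]
      · have := mW (c n)
        fun_prop
    refine f1.trans ?_
    have f2 : ∀ n, ∫⁻ u, ENNReal.ofReal (Real.exp (-u)) * ‖W (c n) D u‖ₑ ^ 2 ≤
        ENNReal.ofReal (Real.exp (c n ^ 2 * (1 / 4))) * (ENNReal.ofReal (1 / (2 * π)) * Y) := by
      intro n
      rw [hP _ (cpos n), mul_left_comm]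
      gcongr
      rw [hY, ← lintegral_const_mul' _ _ ENNReal.ofReal_ne_top]
      apply lintegral_mono
      intro t
      simp only [hΦd]
      rw [enorm_mul, mul_pow, mul_comm]
      gcongr
      rw [← ofReal_norm, hnexp, ← ENNReal.ofReal_pow (by positivity)]
      apply ENNReal.ofReal_le_ofReal
      rw [mul_pow, ← Real.exp_nat_mul]
      have h1 : Real.exp (-(c n ^ 2 / 2) * t ^ 2) ^ 2 ≤ 1 := by
        apply pow_le_one₀ (Real.exp_pos _).le
        rw [Real.exp_le_one_iff]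
        nlinarith [sq_nonneg (c n), sq_nonneg t, mul_nonneg (sq_nonneg (c n)) (sq_nonneg t)]
      calc Real.exp (↑(2:ℕ) * (c n ^ 2 / 8)) * Real.exp (-(c n ^ 2 / 2) * t ^ 2) ^ 2
          ≤ Real.exp (↑(2:ℕ) * (c n ^ 2 / 8)) * 1 := by gcongr
        _ = _ := by rw [mul_one]; congr 1; push_cast; ring
    have f3 : Tendsto (fun n => ENNReal.ofReal (Real.exp (c n ^ 2 * (1 / 4))) * (ENNReal.ofReal (1 / (2 * π)) * Y)) atTop
        (𝓝 (1 * (ENNReal.ofReal (1 / (2 * π)) * Y))) :=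
      ENNReal.Tendsto.mul_const (cexp0 _) (Or.inl one_ne_zero)
    rw [one_mul] at f3
    calc _ ≤ liminf (fun n => ENNReal.ofReal (Real.exp (c n ^ 2 * (1 / 4))) * (ENNReal.ofReal (1 / (2 * π)) * Y)) atTop :=
          liminf_le_liminf (Eventually.of_forall f2)
      _ = _ := f3.liminf_eq
  · -- Fatou for the transform
    have f1 : Y ≤ liminf (fun n => ∫⁻ t, ‖Φ (c n) t‖ₑ ^ 2) atTop := by
      refine le_trans ?_ (lintegral_liminf_le fun n => ?_)
      · apply lintegral_mono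
        intro t
        have h1 : Tendsto (fun n => Φ (c n) t) atTop (𝓝 (G (((1 / 2 : ℝ) : ℂ) + t * I) + g₂ t)) := by
          simp only [hΦd]
          have h2 : Continuous (fun x : ℝ => (G (((1 / 2 : ℝ) : ℂ) + t * I) + g₂ t) *
            cexp ((x : ℂ) ^ 2 / 2 * (((1 / 2 : ℝ) : ℂ) + t * I) ^ 2)) := by fun_prop
          have h3 := (h2.tendsto 0).comp c0
          simpa [Function.comp_def] using h3
        have h2 : Tendsto (fun n => ‖Φ (c n) t‖ₑ ^ 2) atTop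
            (𝓝 (‖G (((1 / 2 : ℝ) : ℂ) + t * I) + g₂ t‖ₑ ^ 2)) :=
          ENNReal.Tendsto.pow (continuous_enorm.tendsto _ |>.comp h1)
        simp only
        rw [h2.liminf_eq]
      · have := (hΦc (c n)).measurable
        fun_prop
    have f2 : ENNReal.ofReal (1 / (2 * π)) * Y ≤
        liminf (fun n => ENNReal.ofReal (1 / (2 * π)) * ∫⁻ t, ‖Φ (c n) t‖ₑ ^ 2) atTop := by
      calc ENNReal.ofReal (1 / (2 * π)) * Y
          ≤ ENNReal.ofReal (1 / (2 * π)) * liminf (fun n => ∫⁻ t, ‖Φ (c n) t‖ₑ ^ 2) atTop := by gcongr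
        _ ≤ _ := by
            rw [ENNReal.liminf_const_mul_of_ne_top ENNReal.ofReal_ne_top]
    refine f2.trans ?_
    have f3 : Tendsto (fun n => ENNReal.ofReal (Real.exp (c n ^ 2 * (1 / 2))) * X) atTop (𝓝 (1 * X)) :=
      ENNReal.Tendsto.mul_const (cexp0 _) (Or.inl one_ne_zero)
    rw [one_mul] at f3
    calc _ ≤ liminf (fun n => ENNReal.ofReal (Real.exp (c n ^ 2 * (1 / 2))) * X) atTop := by
          refine liminf_le_liminf (Eventually.of_forall fun n => ?_)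
          rw [← hP _ (cpos n)]
          refine (W_jensen mD (cpos n)).trans (le_of_eq ?_)
          congr 3; ring
      _ = _ := f3.liminf_eq

end Pool.Agent.N798.V
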