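import Mathlib

set_option autoImplicit false

/-! Separation of the polar parts of an analytic function by Cauchy integrals over small circles. -/

namespace Pool.Agent.N798.V

open Complex MeasureTheory Filter Topology Metric
open scoped ENNReal Real

/-- The Cauchy integral `(2πi)⁻¹ ∮ f(s) / (w - s) ds`. -/
noncomputable def Cau (f : ℂ → ℂ) (p : ℂ) (r : ℝ) (w : ℂ) : ℂ := (2 * π * I)⁻¹ * ∮ s in C(p, r), f s / (w - s)

lemma sphere_dist {p w : ℂ} {r : ℝ} (hr : 0 ≤ r) (θ : ℝ) : |‖w - p‖ - r| ≤ ‖w - circleMap p r θ‖ := by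
  have h1 : ‖circleMap p r θ - p‖ = r := by
    simp [circleMap, abs_of_nonneg hr]
  have h2 : ‖(w - p) - (circleMap p r θ - p)‖ = ‖w - circleMap p r θ‖ := by congr 1; ring
  have h3 := abs_norm_sub_norm_le (w - p) (circleMap p r θ - p)
  rwa [h2, h1] at h3

lemma Cau_bound {f : ℂ → ℂ} {p w : ℂ} {r M δ : ℝ} (hr : 0 ≤ r) (hδ : 0 < δ)
    (hM : ∀ s ∈ sphere p r, ‖f s‖ ≤ M) (hw : δ ≤ |‖w - p‖ - r|) : ‖Cau f p r w‖ ≤ r * (M / δ) := by
  have h := circleIntegral.norm_two_pi_i_inv_smul_integral_le_of_norm_le_const (f := fun s => f s / (w - s))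
    (c := p) (R := r) (C := M / δ) hr (fun s hs => ?_)
  · simpa [Cau, smul_eq_mul] using h
  · have h0 : 0 ≤ M := (norm_nonneg _).trans (hM s hs)
    obtain ⟨θ, rfl⟩ : ∃ θ, circleMap p r θ = s := by
      have := range_circleMap p r
      rw [abs_of_nonneg hr] at this
      rw [← this] at hs
      exact hs
    rw [norm_div]
    exact div_le_div₀ h0 (hM _ hs) hδ (hw.trans (sphere_dist hr θ))

lemma Cau_diff {f : ℂ → ℂ} {p w₀ : ℂ} {r : ℝ} (hr : 0 ≤ r) (hf : ContinuousOn f (sphere p r))
    (hw : ‖w₀ - p‖ ≠ r) : DifferentiableAt ℂ (Cau f p r) w₀ := by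
  obtain ⟨M, hM⟩ : ∃ M, ∀ s ∈ sphere p r, ‖f s‖ ≤ M := (isCompact_sphere p r).exists_bound_of_continuousOn hf
  set δ : ℝ := |‖w₀ - p‖ - r| with hδ
  have hδ0 : 0 < δ := abs_pos.2 (sub_ne_zero.2 hw)
  have hmem : ∀ θ, circleMap p r θ ∈ sphere p r := fun θ => circleMap_mem_sphere p hr θ
  have hfc : Continuous (fun θ : ℝ => f (circleMap p r θ)) :=
    hf.comp_continuous (continuous_circleMap p r) hmem
  have hlow : ∀ w ∈ ball w₀ (δ / 2), ∀ θ, δ / 2 ≤ ‖w - circleMap p r θ‖ := by
    intro w hw θ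
    have h1 := sphere_dist (w := w₀) (p := p) hr θ
    have h2 : ‖w₀ - circleMap p r θ‖ ≤ ‖w - circleMap p r θ‖ + ‖w₀ - w‖ := by
      have : w₀ - circleMap p r θ = (w - circleMap p r θ) + (w₀ - w) := by ring
      rw [this]; exact norm_add_le _ _
    rw [mem_ball, dist_eq_norm] at hw
    rw [norm_sub_rev] at hw
    linarith
  have hne : ∀ w ∈ ball w₀ (δ / 2), ∀ θ, w - circleMap p r θ ≠ 0 := by
    intro w hw θ h
    have := hlow w hw θ
    rw [h, norm_zero] at this
    linarith
  have hM0 : 0 ≤ M := (norm_nonneg _).trans (hM _ (hmem 0))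
  have key := intervalIntegral.hasDerivAt_integral_of_dominated_loc_of_deriv_le (μ := volume) (𝕜 := ℂ) (a := 0) (b := 2 * π)
    (s := ball w₀ (δ / 2))
    (F := fun w θ => deriv (circleMap p r) θ * (f (circleMap p r θ) / (w - circleMap p r θ)))
    (F' := fun w θ => deriv (circleMap p r) θ * (-(f (circleMap p r θ)) / (w - circleMap p r θ) ^ 2))
    (x₀ := w₀) (bound := fun _ => r * (M / (δ / 2) ^ 2)) (ball_mem_nhds _ (by positivity)) ?_ ?_ ?_ ?_ ?_ ?_
  · have h1 := key.2.differentiableAt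
    unfold Cau circleIntegral
    simp only [smul_eq_mul]
    exact h1.const_mul _
  · filter_upwards [ball_mem_nhds w₀ (half_pos hδ0)] with w hw
    apply Continuous.aestronglyMeasurable
    have h1 : Continuous (fun θ : ℝ => deriv (circleMap p r) θ) := by
      simp only [deriv_circleMap]
      exact (continuous_circleMap 0 r).mul continuous_const
    exact h1.mul (hfc.div (continuous_const.sub (continuous_circleMap p r)) (hne w hw))
  · apply Continuous.intervalIntegrable
    have h1 : Continuous (fun θ : ℝ => deriv (circleMap p r) θ) := by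
      simp only [deriv_circleMap]
      exact (continuous_circleMap 0 r).mul continuous_const
    exact h1.mul (hfc.div (continuous_const.sub (continuous_circleMap p r)) (hne w₀ (mem_ball_self (half_pos hδ0))))
  · apply Continuous.aestronglyMeasurable
    have h1 : Continuous (fun θ : ℝ => deriv (circleMap p r) θ) := by
      simp only [deriv_circleMap]
      exact (continuous_circleMap 0 r).mul continuous_const
    exact h1.mul (hfc.neg.div ((continuous_const.sub (continuous_circleMap p r)).pow 2)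
      (fun θ => pow_ne_zero 2 (hne w₀ (mem_ball_self (half_pos hδ0)) θ)))
  · refine Eventually.of_forall fun θ _ w hw => ?_
    rw [norm_mul, norm_div, norm_neg, norm_pow, deriv_circleMap, norm_mul, norm_I, mul_one]
    have h1 : ‖circleMap 0 r θ‖ = r := by simp [circleMap, abs_of_nonneg hr]
    rw [h1]
    have h2 := hlow w hw θ
    have h3 := hM _ (hmem θ)
    gcongr
  · exact intervalIntegrable_const
  · refine Eventually.of_forall fun θ _ w hw => ?_
    have h1 := hne w hw θ
    have h2 : HasDerivAt (fun w : ℂ => f (circleMap p r θ) / (w - circleMap p r θ))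
        (-(f (circleMap p r θ)) / (w - circleMap p r θ) ^ 2) w := by
      have h3 : HasDerivAt (fun w : ℂ => w - circleMap p r θ) 1 w := (hasDerivAt_id w).sub_const _
      have h4 := (h3.fun_inv h1).const_mul (f (circleMap p r θ))
      have e : (fun w : ℂ => f (circleMap p r θ) / (w - circleMap p r θ)) =
          fun w => f (circleMap p r θ) * (w - circleMap p r θ)⁻¹ := by
        funext w; rw [div_eq_mul_inv]
      rw [e]
      exact h4.congr_deriv (by ring)
    exact h2.const_mul _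

/-- Cauchy's formula in an annulus. -/
lemma Cau_annulus {f : ℂ → ℂ} {p w : ℂ} {r R : ℝ} (hr : 0 < r) (h1 : r < ‖w - p‖) (h2 : ‖w - p‖ < R)
    (hf : ∀ z ∈ closedBall p R \ ball p r, DifferentiableAt ℂ f z) :
    f w = Cau f p r w - Cau f p R w := by
  have hwm : w ∈ closedBall p R \ ball p r := by
    constructor
    · rw [mem_closedBall, dist_eq_norm]; exact h2.le
    · rw [mem_ball, dist_eq_norm]; exact not_lt.2 h1.le
  have hcont : ContinuousOn (dslope f w) (closedBall p R \ ball p r) := by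
    intro z hz
    by_cases hzw : z = w
    · rw [hzw]
      exact (continuousAt_dslope_same.2 (hf w hwm)).continuousWithinAt
    · exact ((continuousAt_dslope_of_ne hzw).2 (hf z hz).continuousAt).continuousWithinAt
  have hdiff : ∀ z ∈ (ball p R \ closedBall p r) \ {w}, DifferentiableAt ℂ (dslope f w) z := by
    intro z hz
    have hzw : z ≠ w := hz.2
    rw [differentiableAt_dslope_of_ne hzw]
    apply hf
    exact ⟨ball_subset_closedBall hz.1.1, fun h => hz.1.2 (ball_subset_closedBall h)⟩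
  have key := circleIntegral_eq_of_differentiable_on_annulus_off_countable hr (h1.trans h2).le
    (Set.countable_singleton w) hcont hdiff
  have hds : ∀ ρ : ℝ, 0 ≤ ρ → ‖w - p‖ ≠ ρ → ContinuousOn f (sphere p ρ) →
      (∮ z in C(p, ρ), dslope f w z) = (∮ z in C(p, ρ), f w / (w - z)) - ∮ z in C(p, ρ), f z / (w - z) := by
    intro ρ hρ hne hfc
    have hnz : ∀ z ∈ sphere p ρ, w - z ≠ 0 := by
      intro z hz h
      rw [sub_eq_zero] at h
      rw [mem_sphere, dist_eq_norm, ← h] at hz
      exact hne hz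
    rw [← circleIntegral.integral_sub]
    · apply circleIntegral.integral_congr hρ
      intro z hz
      have hz' := hnz z hz
      have hzw : z ≠ w := fun h => hz' (by rw [h, sub_self])
      simp only
      rw [dslope_of_ne _ hzw, slope_def_field]
      have h3 : z - w ≠ 0 := sub_ne_zero.2 hzw
      field_simp
      ring
    · apply ContinuousOn.circleIntegrable hρ
      exact continuousOn_const.div (continuousOn_const.sub continuousOn_id) hnz
    · apply ContinuousOn.circleIntegrable hρ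
      exact hfc.div (continuousOn_const.sub continuousOn_id) hnz
  have hfcr : ContinuousOn f (sphere p r) := fun z hz => (hf z ⟨by
      rw [mem_sphere] at hz; rw [mem_closedBall, hz]; exact (h1.trans h2).le, by
      rw [mem_sphere] at hz; rw [mem_ball, hz]; exact lt_irrefl _⟩).continuousAt.continuousWithinAt
  have hfcR : ContinuousOn f (sphere p R) := fun z hz => (hf z ⟨by
      rw [mem_sphere] at hz; rw [mem_closedBall, hz], by
      rw [mem_sphere] at hz; rw [mem_ball, hz]; exact not_lt.2 (h1.trans h2).le⟩).continuousAt.continuousWithinAt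
  rw [hds R (hr.trans (h1.trans h2)).le h2.ne hfcR, hds r hr.le h1.ne' hfcr] at key
  -- the two explicit integrals
  have i1 : (∮ z in C(p, R), f w / (w - z)) = -(2 * π * I * f w) := by
    have e : ∀ z, f w / (w - z) = -(f w) * (z - w)⁻¹ := by
      intro z
      rw [← neg_sub z w, div_neg, div_eq_mul_inv, neg_mul]
    simp only [e]
    rw [circleIntegral.integral_const_mul, circleIntegral.integral_sub_inv_of_mem_ball (by
      rw [mem_ball, dist_eq_norm]; exact h2)]
    ring
  have i2 : (∮ z in C(p, r), f w / (w - z)) = 0 := by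
    apply circleIntegral_eq_zero_of_differentiable_on_off_countable hr.le Set.countable_empty
    · intro z hz
      have hz' : w - z ≠ 0 := by
        intro h
        rw [sub_eq_zero] at h
        rw [mem_closedBall, dist_eq_norm, ← h] at hz
        linarith
      exact ((continuousAt_const.div (continuousAt_const.sub continuousAt_id) hz')).continuousWithinAt
    · intro z hz
      have hz' : w - z ≠ 0 := by
        intro h
        rw [sub_eq_zero] at h
        have := hz.1
        rw [mem_ball, dist_eq_norm, ← h] at this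
        linarith
      exact (differentiableAt_const _).div ((differentiableAt_const _).sub differentiableAt_id) hz'
  rw [i1, i2, zero_sub] at key
  unfold Cau
  have hpi : (2 * π * I : ℂ) ≠ 0 := by
    simp [Real.pi_ne_zero]
  have h3 : 2 * π * I * f w = (∮ z in C(p, r), f z / (w - z)) - ∮ z in C(p, R), f z / (w - z) := by
    linear_combination -key
  rw [← mul_sub, ← h3, ← mul_assoc, inv_mul_cancel₀ hpi, one_mul]

/-- the regular part -/
noncomputable def Reg (F : ℂ → ℂ) (P : Finset ℂ) (r R : ℝ) (w : ℂ) : ℂ := by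
  classical
  exact (if ∃ p ∈ P, ‖w - p‖ ≤ r then 0 else F w) - ∑ p ∈ P, (if ‖w - p‖ ≤ r then Cau F p R w else Cau F p r w)

lemma Reg_off {F : ℂ → ℂ} {P : Finset ℂ} {r R : ℝ} {w : ℂ} (h : ∀ p ∈ P, r < ‖w - p‖) :
    Reg F P r R w = F w - ∑ p ∈ P, Cau F p r w := by
  unfold Reg
  rw [if_neg (by push Not; exact h)]
  congr 1
  apply Finset.sum_congr rfl
  intro p hp
  rw [if_neg (not_le.2 (h p hp))]

lemma Reg_in {F : ℂ → ℂ} {P : Finset ℂ} {r R : ℝ} (hr : 0 < r)
    (hsep : ∀ p ∈ P, ∀ q ∈ P, p ≠ q → r + R < ‖p - q‖)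
    (hF : ∀ p ∈ P, ∀ z ∈ closedBall p R, z ≠ p → DifferentiableAt ℂ F z) {p w : ℂ} (hp : p ∈ P) (hw : ‖w - p‖ < R) :
    Reg F P r R w = -Cau F p R w - ∑ q ∈ P.erase p, Cau F q r w := by
  classical
  have hq : ∀ q ∈ P.erase p, r < ‖w - q‖ := by
    intro q hq
    obtain ⟨hqp, hqP⟩ := Finset.mem_erase.1 hq
    have h1 := hsep p hp q hqP (Ne.symm hqp)
    have h2 : ‖p - q‖ ≤ ‖w - q‖ + ‖w - p‖ := by
      have : p - q = (w - q) - (w - p) := by ring
      rw [this]; exact norm_sub_le _ _
    linarith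
  have hsum : ∑ q ∈ P.erase p, (if ‖w - q‖ ≤ r then Cau F q R w else Cau F q r w) =
      ∑ q ∈ P.erase p, Cau F q r w := by
    apply Finset.sum_congr rfl
    intro q h
    rw [if_neg (not_le.2 (hq q h))]
  unfold Reg
  rw [← Finset.add_sum_erase P _ hp, hsum]
  by_cases hwr : ‖w - p‖ ≤ r
  · rw [if_pos ⟨p, hp, hwr⟩, if_pos hwr]
    ring
  · rw [if_neg, if_neg hwr]
    · rw [Cau_annulus hr (not_le.1 hwr) hw (fun z hz => hF p hp z hz.1 (by
        intro h
        have := hz.2
        rw [h] at this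
        exact this (mem_ball_self hr)))]
      ring
    · push Not
      intro q hqP
      by_cases hqp : q = p
      · rw [hqp]; exact not_le.1 hwr
      · exact hq q (Finset.mem_erase.2 ⟨hqp, hqP⟩)

lemma Reg_diff {F : ℂ → ℂ} {P : Finset ℂ} {r R : ℝ} (hr : 0 < r) (hrR : r < R)
    (hsep : ∀ p ∈ P, ∀ q ∈ P, p ≠ q → r + R < ‖p - q‖)
    (hF : ∀ p ∈ P, ∀ z ∈ closedBall p R, z ≠ p → DifferentiableAt ℂ F z) {w : ℂ}
    (hw : w ∉ P → DifferentiableAt ℂ F w) : DifferentiableAt ℂ (Reg F P r R) w := by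
  classical
  have hFc : ∀ p ∈ P, ∀ ρ, 0 < ρ → ρ ≤ R → ContinuousOn F (sphere p ρ) := by
    intro p hp ρ hρ hρR z hz
    refine (hF p hp z ?_ ?_).continuousAt.continuousWithinAt
    · rw [mem_sphere] at hz; rw [mem_closedBall, hz]; exact hρR
    · intro h
      rw [mem_sphere, h, dist_self] at hz
      linarith
  by_cases h : ∃ p ∈ P, ‖w - p‖ < R
  · obtain ⟨p, hp, hwp⟩ := h
    have hev : Reg F P r R =ᶠ[𝓝 w] fun w => -Cau F p R w - ∑ q ∈ P.erase p, Cau F q r w := by
      have hopen : ∀ᶠ z in 𝓝 w, ‖z - p‖ < R :=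
        (by fun_prop : Continuous fun z : ℂ => ‖z - p‖).continuousAt.eventually_lt continuousAt_const hwp
      filter_upwards [hopen] with z hz
      exact Reg_in hr hsep hF hp hz
    rw [hev.differentiableAt_iff]
    refine (Cau_diff (hr.trans hrR).le (hFc p hp R (hr.trans hrR) le_rfl) hwp.ne).neg.sub ?_
    refine DifferentiableAt.fun_sum fun q hq => ?_
    obtain ⟨hqp, hqP⟩ := Finset.mem_erase.1 hq
    refine Cau_diff hr.le (hFc q hqP r hr hrR.le) ?_
    have h1 := hsep p hp q hqP (Ne.symm hqp)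
    have h2 : ‖p - q‖ ≤ ‖w - q‖ + ‖w - p‖ := by
      have : p - q = (w - q) - (w - p) := by ring
      rw [this]; exact norm_sub_le _ _
    intro h3
    linarith
  · push Not at h
    have hev : Reg F P r R =ᶠ[𝓝 w] fun w => F w - ∑ p ∈ P, Cau F p r w := by
      have hopen : ∀ᶠ z in 𝓝 w, ∀ p ∈ P, r < ‖z - p‖ := by
        rw [Filter.eventually_all_finset]
        intro p hp
        exact continuousAt_const.eventually_lt (by fun_prop : Continuous fun z : ℂ => ‖z - p‖).continuousAt
          (hrR.trans_le (h p hp))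
      filter_upwards [hopen] with z hz
      exact Reg_off hz
    rw [hev.differentiableAt_iff]
    have hwP : w ∉ P := by
      intro hwP
      have := h w hwP
      rw [sub_self, norm_zero] at this
      linarith
    refine (hw hwP).sub (DifferentiableAt.fun_sum fun p hp => ?_)
    exact Cau_diff hr.le (hFc p hp r hr hrR.le) (hrR.trans_le (h p hp)).ne'

/-- The regular part grows at most polynomially in the strip. -/
lemma Reg_bound {F : ℂ → ℂ} {P : Finset ℂ} {r R K : ℝ} {A : ℕ} {S : Set ℂ} (hr : 0 < r) (hrR : r < R)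
    (hsep : ∀ p ∈ P, ∀ q ∈ P, p ≠ q → r + R < ‖p - q‖)
    (hF : ∀ p ∈ P, ∀ z ∈ closedBall p R, z ≠ p → DifferentiableAt ℂ F z)
    (hK : ∀ z ∈ S, (∀ p ∈ P, r < ‖z - p‖) → ‖F z‖ ≤ K * (1 + |z.im|) ^ A) :
    ∃ K' : ℝ, ∀ z ∈ S, ‖Reg F P r R z‖ ≤ K' * (1 + |z.im|) ^ A := by
  classical
  have hFc : ∀ p ∈ P, ∀ ρ, 0 < ρ → ρ ≤ R → ContinuousOn F (sphere p ρ) := by
    intro p hp ρ hρ hρR z hz
    refine (hF p hp z ?_ ?_).continuousAt.continuousWithinAt
    · rw [mem_sphere] at hz; rw [mem_closedBall, hz]; exact hρR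
    · intro h
      rw [mem_sphere, h, dist_self] at hz
      linarith
  set ρ : ℝ := (r + R) / 2 with hρ
  have hrρ : r < ρ := by rw [hρ]; linarith
  have hρR : ρ < R := by rw [hρ]; linarith
  -- bound on the closed balls of radius ρ
  have h1 : ∀ p ∈ P, ∃ B, ∀ z ∈ closedBall p ρ, ‖Reg F P r R z‖ ≤ B := by
    intro p hp
    apply (isCompact_closedBall p ρ).exists_bound_of_continuousOn
    intro z hz
    refine (Reg_diff hr hrR hsep hF (fun hzP => ?_)).continuousAt.continuousWithinAt
    apply hF p hp z (closedBall_subset_closedBall hρR.le hz)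
    intro h; exact hzP (h ▸ hp)
  choose! B hB using h1
  have h2 : ∀ p ∈ P, ∃ M, ∀ s ∈ sphere p r, ‖F s‖ ≤ M := fun p hp =>
    (isCompact_sphere p r).exists_bound_of_continuousOn (hFc p hp r hr hrR.le)
  choose! M hM using h2
  refine ⟨|K| + ∑ p ∈ P, |B p| + ∑ p ∈ P, |r * (M p / (ρ - r))|, fun z hz => ?_⟩
  have hone : (1:ℝ) ≤ (1 + |z.im|) ^ A := one_le_pow₀ (by linarith [abs_nonneg z.im])
  by_cases h : ∃ p ∈ P, ‖z - p‖ ≤ ρ
  · obtain ⟨p, hp, hzp⟩ := h
    have h3 := hB p hp z (by rw [mem_closedBall, dist_eq_norm]; exact hzp)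
    have h4 : |B p| ≤ ∑ p ∈ P, |B p| := Finset.single_le_sum (fun q _ => abs_nonneg (B q)) hp
    have h5 : 0 ≤ ∑ p ∈ P, |r * (M p / (ρ - r))| := Finset.sum_nonneg fun _ _ => abs_nonneg _
    calc ‖Reg F P r R z‖ ≤ |B p| := h3.trans (le_abs_self _)
      _ ≤ (|K| + ∑ p ∈ P, |B p| + ∑ p ∈ P, |r * (M p / (ρ - r))|) * 1 := by
          rw [mul_one]; linarith [abs_nonneg K]
      _ ≤ _ := by gcongr
  · push Not at h
    have h3 : ∀ p ∈ P, r < ‖z - p‖ := fun p hp => hrρ.trans (h p hp)
    rw [Reg_off h3]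
    have h4 : ∀ p ∈ P, ‖Cau F p r z‖ ≤ |r * (M p / (ρ - r))| := by
      intro p hp
      refine (Cau_bound (δ := ρ - r) hr.le (by linarith) (hM p hp) ?_).trans (le_abs_self _)
      rw [abs_of_pos (by linarith [h3 p hp])]
      linarith [h p hp]
    calc ‖F z - ∑ p ∈ P, Cau F p r z‖ ≤ ‖F z‖ + ‖∑ p ∈ P, Cau F p r z‖ := norm_sub_le _ _
      _ ≤ K * (1 + |z.im|) ^ A + ∑ p ∈ P, |r * (M p / (ρ - r))| := by
          gcongr
          · exact hK z hz h3
          · exact (norm_sum_le _ _).trans (Finset.sum_le_sum h4)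
      _ ≤ |K| * (1 + |z.im|) ^ A + (∑ p ∈ P, |B p| + ∑ p ∈ P, |r * (M p / (ρ - r))|) * 1 := by
          have h5 : 0 ≤ ∑ p ∈ P, |B p| := Finset.sum_nonneg fun _ _ => abs_nonneg _
          have h6 : K * (1 + |z.im|) ^ A ≤ |K| * (1 + |z.im|) ^ A := by gcongr; exact le_abs_self K
          linarith
      _ ≤ |K| * (1 + |z.im|) ^ A + (∑ p ∈ P, |B p| + ∑ p ∈ P, |r * (M p / (ρ - r))|) * (1 + |z.im|) ^ A := by
          have h5 : 0 ≤ ∑ p ∈ P, |B p| := Finset.sum_nonneg fun _ _ => abs_nonneg _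
          have h6 : 0 ≤ ∑ p ∈ P, |r * (M p / (ρ - r))| := Finset.sum_nonneg fun _ _ => abs_nonneg _
          gcongr
      _ = _ := by ring

/-- choice of the larger radius -/
lemma exists_radius {P : Finset ℂ} {r : ℝ} (hsep : ∀ p ∈ P, ∀ q ∈ P, p ≠ q → 2 * r < ‖p - q‖) (hr : r < 1 / 2) :
    ∃ R, r < R ∧ R < 1 / 2 ∧ ∀ p ∈ P, ∀ q ∈ P, p ≠ q → r + R < ‖p - q‖ := by
  have h1 : ∀ᶠ R in 𝓝[>] r, R < 1 / 2 := by
    apply eventually_nhdsWithin_of_eventually_nhds
    exact eventually_lt_nhds hr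
  have h2 : ∀ᶠ R in 𝓝[>] r, ∀ p ∈ P, ∀ q ∈ P, p ≠ q → r + R < ‖p - q‖ := by
    rw [Filter.eventually_all_finset]
    intro p hp
    rw [Filter.eventually_all_finset]
    intro q hq
    by_cases hpq : p = q
    · exact Eventually.of_forall fun _ h => absurd hpq h
    · have h3 := hsep p hp q hq hpq
      have h4 : ∀ᶠ R in 𝓝 r, R < ‖p - q‖ - r := eventually_lt_nhds (by linarith)
      filter_upwards [eventually_nhdsWithin_of_eventually_nhds h4] with R hR _
      linarith
  have h3 : ∀ᶠ R in 𝓝[>] r, r < R := eventually_mem_nhdsWithin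
  obtain ⟨R, ⟨a, b⟩, c⟩ := ((h1.and h2).and h3).exists
  exact ⟨R, c, a, b⟩

end Pool.Agent.N798.V
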