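import Pool.Agent.H153R4.Pl

set_option autoImplicit false

/-! An Abelian theorem for averages with smooth kernels. -/

namespace Pool.Agent.N798.V

open MeasureTheory Filter Topology Set
open scoped ENNReal Real

/-- A slowly varying function that is bounded below. -/
structure SV (L : ℝ → ℝ) where
  T0 : ℝ
  C : ℝ
  c : ℝ
  hT0 : 1 ≤ T0
  hC : 0 < C
  hc : 0 < c
  low : ∀ T, T0 ≤ T → c ≤ L T
  pot : ∀ T x, T0 ≤ T → 0 < x → T0 ≤ x * T → L (x * T) ≤ C * (1 + x) ^ (1 / 2 : ℝ) * L T
  slow : ∀ x, 0 < x → Tendsto (fun T => L (x * T) / L T) atTop (𝓝 1)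

/-- the constant function is slowly varying -/
def svOne : SV (fun _ => 1) where
  T0 := 1
  C := 1
  c := 1
  hT0 := le_rfl
  hC := one_pos
  hc := one_pos
  low := fun _ _ => le_rfl
  pot := fun T x _ hx _ => by
    have : (1:ℝ) ≤ (1 + x) ^ (1 / 2 : ℝ) := Real.one_le_rpow (by linarith) (by norm_num)
    linarith
  slow := fun x _ => by simp

/-- powers of the logarithm are slowly varying -/
noncomputable def svLog (A : ℕ) : SV (fun T => Real.log T ^ A) where
  T0 := Real.exp 1
  C := (1 + 2 * (A : ℝ)) ^ A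
  c := 1
  hT0 := by
    have := Real.add_one_le_exp (1:ℝ)
    linarith
  hC := by positivity
  hc := one_pos
  low := fun T hT => by
    have h1 : 1 ≤ Real.log T := by
      rw [← Real.log_exp 1]
      exact Real.log_le_log (Real.exp_pos 1) hT
    exact one_le_pow₀ h1
  pot := fun T x hT hx hxT => by
    have he := Real.exp_pos 1
    have hT1 : 0 < T := he.trans_le hT
    have h1 : 1 ≤ Real.log T := by
      rw [← Real.log_exp 1]
      exact Real.log_le_log he hT
    have h2 : 1 ≤ Real.log (x * T) := by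
      rw [← Real.log_exp 1]
      exact Real.log_le_log he hxT
    rcases Nat.eq_zero_or_pos A with hA | hA
    · subst hA
      have : (1:ℝ) ≤ (1 + x) ^ (1 / 2 : ℝ) := Real.one_le_rpow (by linarith) (by norm_num)
      simpa using this
    have hA' : (0:ℝ) < A := by exact_mod_cast hA
    have h3 : Real.log (1 + x) ≤ (1 + x) ^ (1 / (2 * (A : ℝ))) * (2 * A) := by
      have := Real.log_le_rpow_div (x := 1 + x) (by linarith) (ε := 1 / (2 * (A : ℝ))) (by positivity)
      rw [div_div_eq_mul_div, div_one] at this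
      exact this
    have h4 : (1:ℝ) ≤ (1 + x) ^ (1 / (2 * (A : ℝ))) := Real.one_le_rpow (by linarith) (by positivity)
    have h5 : Real.log (x * T) ≤ (1 + 2 * A) * (1 + x) ^ (1 / (2 * (A : ℝ))) * Real.log T := by
      have h6 : Real.log (x * T) ≤ Real.log (1 + x) + Real.log T := by
        rw [← Real.log_mul (by positivity) (by positivity)]
        apply Real.log_le_log (by positivity)
        nlinarith
      have h7 : 0 ≤ Real.log (1 + x) := Real.log_nonneg (by linarith)
      nlinarith [mul_nonneg h7 (by linarith : (0:ℝ) ≤ Real.log T - 1)]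
    calc Real.log (x * T) ^ A ≤ ((1 + 2 * A) * (1 + x) ^ (1 / (2 * (A : ℝ))) * Real.log T) ^ A := by
          gcongr
      _ = (1 + 2 * (A : ℝ)) ^ A * (1 + x) ^ (1 / 2 : ℝ) * Real.log T ^ A := by
          rw [mul_pow, mul_pow, ← Real.rpow_natCast ((1 + x) ^ (1 / (2 * (A : ℝ)))) A, ← Real.rpow_mul (by linarith)]
          congr 3
          field_simp
  slow := fun x hx => by
    have h1 : Tendsto (fun T : ℝ => Real.log x / Real.log T + 1) atTop (𝓝 (0 + 1)) :=
      (Tendsto.div_atTop tendsto_const_nhds Real.tendsto_log_atTop).add_const 1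
    have h2 := h1.pow A
    rw [zero_add, one_pow] at h2
    refine h2.congr' ?_
    filter_upwards [eventually_gt_atTop 1] with T hT
    have hT1 : 0 < Real.log T := Real.log_pos hT
    rw [← div_pow, Real.log_mul hx.ne' (by linarith)]
    congr 1
    field_simp

/-- Representation of averages with a kernel by the integrated function. -/
lemma fubK {f K K' : ℝ → ℝ} (mf : Measurable f) (mK' : Measurable K') (hf0 : ∀ t, 0 ≤ f t)
    (hfi : ∀ X : ℝ, IntegrableOn f (Ioc 0 X)) (hK : ∀ x, 0 < x → HasDerivAt K (K' x) x)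
    (hK0 : Tendsto K atTop (𝓝 0)) {B : ℝ} (hB : ∀ x, 0 < x → |K' x| ≤ B * (1 + x) ^ (-3 : ℝ)) {T : ℝ} (hT : 0 < T)
    (hint : IntegrableOn (fun x => K' x * ∫ t in Ioc 0 (x * T), f t) (Ioi 0)) :
    IntegrableOn (fun t => f t * K (t / T)) (Ioi 0) ∧
      ∫ t in Ioi (0:ℝ), f t * K (t / T) = -∫ x in Ioi (0:ℝ), K' x * ∫ t in Ioc 0 (x * T), f t := by
  set k : ℝ × ℝ → ℝ := {z : ℝ × ℝ | z.1 / T < z.2}.indicator (fun z => f z.1 * K' z.2) with hk
  have mS : MeasurableSet {z : ℝ × ℝ | z.1 / T < z.2} :=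
    measurableSet_lt (by fun_prop) (by fun_prop)
  have mk : Measurable k := Measurable.indicator (by fun_prop) mS
  have hkx : ∀ x : ℝ, 0 < x → ∀ t ∈ Ioi (0:ℝ), k (t, x) = (Iio (x * T)).indicator (fun t => f t * K' x) t := by
    intro x _ t _
    simp only [hk, indicator, mem_ofPred_eq, mem_Iio, div_lt_iff₀ hT]
  have hset : ∀ x : ℝ, Iio (x * T) ∩ Ioi (0:ℝ) = Ioo 0 (x * T) := by
    intro x; ext t; simp [and_comm]
  have hfx : ∀ x : ℝ, IntegrableOn f (Ioo 0 (x * T)) := fun x => (hfi _).mono_set Ioo_subset_Ioc_self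
  have hkint : Integrable k ((volume.restrict (Ioi (0:ℝ))).prod (volume.restrict (Ioi (0:ℝ)))) := by
    rw [integrable_prod_iff' mk.aestronglyMeasurable]
    constructor
    · filter_upwards [ae_restrict_mem measurableSet_Ioi] with x hx
      have h1 : IntegrableOn ((Iio (x * T)).indicator (fun t => f t * K' x)) (Ioi 0) := by
        rw [IntegrableOn, integrable_indicator_iff measurableSet_Iio, IntegrableOn, Measure.restrict_restrict measurableSet_Iio,
          hset]
        exact (hfx x).mul_const _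
      exact h1.congr_fun (fun t ht => (hkx x hx t ht).symm) measurableSet_Ioi
    · have h1 : IntegrableOn (fun x => |K' x| * ∫ t in Ioc 0 (x * T), f t) (Ioi 0) := by
        refine IntegrableOn.congr_fun (f := fun x => ‖K' x * ∫ t in Ioc 0 (x * T), f t‖) hint.norm
          (fun x hx => ?_) measurableSet_Ioi
        simp only
        rw [norm_mul, Real.norm_eq_abs, Real.norm_of_nonneg (integral_nonneg fun t => hf0 t)]
      refine h1.congr_fun (fun x hx => ?_) measurableSet_Ioi
      have h2 : ∫ t in Ioi (0:ℝ), ‖k (t, x)‖ = ∫ t in Ioi (0:ℝ), (Iio (x * T)).indicator (fun t => f t * |K' x|) t := by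
        apply setIntegral_congr_fun measurableSet_Ioi
        intro t ht
        simp only
        rw [hkx x hx t ht]
        simp only [indicator]
        split_ifs
        · rw [norm_mul, Real.norm_of_nonneg (hf0 t), Real.norm_eq_abs]
        · simp
      simp only
      rw [h2, integral_indicator measurableSet_Iio, Measure.restrict_restrict measurableSet_Iio, hset,
        ← integral_Ioc_eq_integral_Ioo, integral_mul_const, mul_comm]
  have hswap : ∫ t in Ioi (0:ℝ), ∫ x in Ioi (0:ℝ), k (t, x) = ∫ x in Ioi (0:ℝ), ∫ t in Ioi (0:ℝ), k (t, x) :=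
    integral_integral_swap (f := fun t x => k (t, x)) hkint
  have hKi : ∀ y : ℝ, 0 < y → IntegrableOn K' (Ioi y) := by
    intro y hy
    have h1 : Integrable (fun x : ℝ => B * (1 + ‖x‖) ^ (-(3:ℝ))) := by
      have := (integrable_one_add_norm (E := ℝ) (μ := volume) (r := 3) (by norm_num)).const_mul B
      exact this
    refine (h1.integrableOn (s := Ioi y)).mono' mK'.aestronglyMeasurable ?_
    filter_upwards [ae_restrict_mem measurableSet_Ioi] with x hx
    have hx0 : 0 < x := hy.trans hx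
    rw [Real.norm_eq_abs, Real.norm_of_nonneg hx0.le]
    exact hB x hx0
  have hinner : ∀ t ∈ Ioi (0:ℝ), ∫ x in Ioi (0:ℝ), k (t, x) = -(f t * K (t / T)) := by
    intro t ht
    have htT : 0 < t / T := div_pos ht hT
    have h1 : ∀ x : ℝ, k (t, x) = (Ioi (t / T)).indicator (fun x => f t * K' x) x := by
      intro x
      simp only [hk, indicator, mem_ofPred_eq, mem_Ioi]
    simp only [h1]
    rw [integral_indicator measurableSet_Ioi, Measure.restrict_restrict measurableSet_Ioi]
    have h2 : Ioi (t / T) ∩ Ioi (0:ℝ) = Ioi (t / T) := by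
      rw [Ioi_inter_Ioi, max_eq_left htT.le]
    rw [h2, integral_const_mul, integral_Ioi_of_hasDerivAt_of_tendsto' (fun x hx => hK x (htT.trans_le hx))
      (hKi _ htT) hK0]
    ring
  have houter : ∀ x ∈ Ioi (0:ℝ), ∫ t in Ioi (0:ℝ), k (t, x) = K' x * ∫ t in Ioc 0 (x * T), f t := by
    intro x hx
    have h2 : ∫ t in Ioi (0:ℝ), k (t, x) = ∫ t in Ioi (0:ℝ), (Iio (x * T)).indicator (fun t => f t * K' x) t :=
      setIntegral_congr_fun measurableSet_Ioi fun t ht => hkx x hx t ht
    rw [h2, integral_indicator measurableSet_Iio, Measure.restrict_restrict measurableSet_Iio, hset,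
      ← integral_Ioc_eq_integral_Ioo, integral_mul_const, mul_comm]
  rw [setIntegral_congr_fun measurableSet_Ioi hinner, setIntegral_congr_fun measurableSet_Ioi houter, integral_neg] at hswap
  refine ⟨?_, by linarith⟩
  have h3 : Integrable (fun t => ∫ x in Ioi (0:ℝ), k (t, x)) (volume.restrict (Ioi (0:ℝ))) := hkint.integral_prod_left
  have h4 := h3.neg
  refine IntegrableOn.congr_fun (f := -fun t => ∫ x in Ioi (0:ℝ), k (t, x)) h4 (fun t ht => ?_) measurableSet_Ioi
  simp only [Pi.neg_apply]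
  rw [hinner t ht, neg_neg]

/-- growth of the integrated function -/
lemma F_growth {f L : ℝ → ℝ} (S : SV L) (hf0 : ∀ t, 0 ≤ f t) (hfi : ∀ X : ℝ, IntegrableOn f (Ioc 0 X)) {c : ℝ}
    (hF : Tendsto (fun T => (∫ t in Ioc 0 T, f t) / (T * L T)) atTop (𝓝 c)) :
    ∃ T₁ C' : ℝ, S.T0 ≤ T₁ ∧ 0 ≤ C' ∧ ∀ T x : ℝ, T₁ ≤ T → 0 < x →
      (∫ t in Ioc 0 (x * T), f t) ≤ C' * (1 + x) ^ (3 / 2 : ℝ) * (T * L T) := by
  have h1 : ∀ᶠ T in atTop, (∫ t in Ioc 0 T, f t) / (T * L T) ≤ |c| + 1 :=
    (hF.eventually (ge_mem_nhds (show c < |c| + 1 by linarith [le_abs_self c])))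
  obtain ⟨T₂, hT₂⟩ := eventually_atTop.1 h1
  set T₁ := max T₂ S.T0 with hT₁
  have hS := S.hT0
  have hT1 : 1 ≤ T₁ := hS.trans (le_max_right _ _)
  have hFT : ∀ T, T₁ ≤ T → (∫ t in Ioc 0 T, f t) ≤ (|c| + 1) * (T * L T) := by
    intro T hT
    have h2 := hT₂ T ((le_max_left _ _).trans hT)
    have h3 : 0 < T * L T := by
      have h4 := S.low T ((le_max_right _ _).trans hT)
      have h5 := S.hc
      exact mul_pos (by linarith) (by linarith)
    rwa [div_le_iff₀ h3] at h2
  have hmono : ∀ X Y : ℝ, X ≤ Y → (∫ t in Ioc 0 X, f t) ≤ ∫ t in Ioc 0 Y, f t := by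
    intro X Y hXY
    apply setIntegral_mono_set (hfi Y) (Eventually.of_forall fun t => hf0 t)
    exact (Ioc_subset_Ioc_right hXY).eventuallyLE
  have hF0 : ∀ X : ℝ, 0 ≤ ∫ t in Ioc 0 X, f t := fun X => integral_nonneg fun t => hf0 t
  refine ⟨T₁, (|c| + 1) * S.C + (∫ t in Ioc 0 T₁, f t) / S.c, le_max_right _ _, ?_, fun T x hT hx => ?_⟩
  · have := S.hC; have := S.hc; have := hF0 T₁
    positivity
  have hTpos : 0 < T := by linarith
  have hLT : S.c ≤ L T := S.low T ((le_max_right _ _).trans hT)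
  have hc := S.hc
  have hC := S.hC
  have hLpos : 0 < L T := hc.trans_le hLT
  have hx1 : (1:ℝ) ≤ (1 + x) ^ (3 / 2 : ℝ) := Real.one_le_rpow (by linarith) (by norm_num)
  rcases le_or_gt T₁ (x * T) with h | h
  · have h2 := hFT (x * T) h
    have h3 := S.pot T x ((le_max_right _ _).trans hT) hx ((le_max_right _ _).trans h)
    have h4 : x * (1 + x) ^ (1 / 2 : ℝ) ≤ (1 + x) ^ (3 / 2 : ℝ) := by
      have : (1 + x) ^ (3 / 2 : ℝ) = (1 + x) * (1 + x) ^ (1 / 2 : ℝ) := by
        rw [show (3 / 2 : ℝ) = 1 + 1 / 2 by norm_num, Real.rpow_add (by linarith), Real.rpow_one]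
      rw [this]
      gcongr
      linarith
    calc (∫ t in Ioc 0 (x * T), f t) ≤ (|c| + 1) * (x * T * L (x * T)) := h2
      _ ≤ (|c| + 1) * (x * T * (S.C * (1 + x) ^ (1 / 2 : ℝ) * L T)) := by gcongr
      _ = (|c| + 1) * S.C * (x * (1 + x) ^ (1 / 2 : ℝ)) * (T * L T) := by ring
      _ ≤ (|c| + 1) * S.C * (1 + x) ^ (3 / 2 : ℝ) * (T * L T) := by
          have : 0 ≤ T * L T := by positivity
          gcongr
      _ ≤ _ := by
          have h5 : 0 ≤ T * L T := by positivity
          have h6 : 0 ≤ (∫ t in Ioc 0 T₁, f t) / S.c := by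
            have := hF0 T₁
            positivity
          have : (|c| + 1) * S.C ≤ (|c| + 1) * S.C + (∫ t in Ioc 0 T₁, f t) / S.c := by linarith
          gcongr
  · have h2 := hmono _ _ h.le
    have h3 : (∫ t in Ioc 0 T₁, f t) ≤ (∫ t in Ioc 0 T₁, f t) / S.c * (1 + x) ^ (3 / 2 : ℝ) * (T * L T) := by
      have h4 : S.c ≤ T * L T := by nlinarith
      have h5 := hF0 T₁
      calc (∫ t in Ioc 0 T₁, f t) = (∫ t in Ioc 0 T₁, f t) / S.c * 1 * S.c := by field_simp
        _ ≤ (∫ t in Ioc 0 T₁, f t) / S.c * (1 + x) ^ (3 / 2 : ℝ) * (T * L T) := by gcongr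
    calc (∫ t in Ioc 0 (x * T), f t) ≤ ∫ t in Ioc 0 T₁, f t := h2
      _ ≤ (∫ t in Ioc 0 T₁, f t) / S.c * (1 + x) ^ (3 / 2 : ℝ) * (T * L T) := h3
      _ ≤ _ := by
          have h5 : 0 ≤ T * L T := by positivity
          have h6 : (∫ t in Ioc 0 T₁, f t) / S.c ≤ (|c| + 1) * S.C + (∫ t in Ioc 0 T₁, f t) / S.c := by
            have : 0 ≤ (|c| + 1) * S.C := by positivity
            linarith
          gcongr

/-- **Abelian theorem** for averages with smooth kernels. -/
theorem abc {f K K' L : ℝ → ℝ} (S : SV L) (mf : Measurable f) (mK' : Measurable K') (hf0 : ∀ t, 0 ≤ f t)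
    (hfi : ∀ X : ℝ, IntegrableOn f (Ioc 0 X)) {c : ℝ}
    (hF : Tendsto (fun T => (∫ t in Ioc 0 T, f t) / (T * L T)) atTop (𝓝 c))
    (hK : ∀ x, 0 < x → HasDerivAt K (K' x) x)
    (hK0 : Tendsto K atTop (𝓝 0)) {B : ℝ} (hB : ∀ x, 0 < x → |K' x| ≤ B * (1 + x) ^ (-3 : ℝ)) :
    (∀ᶠ T in atTop, IntegrableOn (fun t => f t * K (t / T)) (Ioi 0)) ∧
      Tendsto (fun T => (∫ t in Ioi (0:ℝ), f t * K (t / T)) / (T * L T)) atTop (𝓝 (c * ∫ x in Ioi (0:ℝ), K x)) := by
  obtain ⟨T₁, C', hT₁, hC', hgr⟩ := F_growth S hf0 hfi hF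
  have hT1 : 1 ≤ T₁ := S.hT0.trans hT₁
  have hB0 : 0 ≤ B := by
    have h1 := (abs_nonneg _).trans (hB 1 one_pos)
    have h2 : (0:ℝ) < (1 + 1) ^ (-3 : ℝ) := by positivity
    exact nonneg_of_mul_nonneg_left h1 h2
  have hbd : Integrable (fun x : ℝ => B * C' * (1 + ‖x‖) ^ (-(3 / 2 : ℝ))) :=
    (integrable_one_add_norm (E := ℝ) (μ := volume) (r := 3 / 2) (by norm_num)).const_mul _
  have hLpos : ∀ T, T₁ ≤ T → 0 < T * L T := by
    intro T hT
    have h1 := S.low T (hT₁.trans hT)
    have h2 := S.hc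
    exact mul_pos (by linarith) (by linarith)
  have hF0 : ∀ X : ℝ, 0 ≤ ∫ t in Ioc 0 X, f t := fun X => integral_nonneg fun t => hf0 t
  have hmono : ∀ X Y : ℝ, X ≤ Y → (∫ t in Ioc 0 X, f t) ≤ ∫ t in Ioc 0 Y, f t := by
    intro X Y hXY
    apply setIntegral_mono_set (hfi Y) (Eventually.of_forall fun t => hf0 t)
    exact (Ioc_subset_Ioc_right hXY).eventuallyLE
  have mF : Measurable (fun X : ℝ => ∫ t in Ioc 0 X, f t) := (show Monotone _ from fun X Y h => hmono X Y h).measurable
  have hpw : ∀ T, T₁ ≤ T → ∀ x, 0 < x → |K' x * ((∫ t in Ioc 0 (x * T), f t) / (T * L T))| ≤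
      B * C' * (1 + ‖x‖) ^ (-(3 / 2 : ℝ)) := by
    intro T hT x hx
    have h1 := hgr T x hT hx
    have h2 := hLpos T hT
    rw [abs_mul, abs_of_nonneg (div_nonneg (hF0 _) h2.le), Real.norm_of_nonneg hx.le]
    have h3 : (∫ t in Ioc 0 (x * T), f t) / (T * L T) ≤ C' * (1 + x) ^ (3 / 2 : ℝ) := by
      rw [div_le_iff₀ h2]; exact h1
    calc |K' x| * ((∫ t in Ioc 0 (x * T), f t) / (T * L T)) ≤ (B * (1 + x) ^ (-3 : ℝ)) * (C' * (1 + x) ^ (3 / 2 : ℝ)) :=
          mul_le_mul (hB x hx) h3 (div_nonneg (hF0 _) h2.le) (by positivity)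
      _ = B * C' * ((1 + x) ^ (-3 : ℝ) * (1 + x) ^ (3 / 2 : ℝ)) := by ring
      _ = _ := by
          rw [← Real.rpow_add (by linarith)]
          norm_num
  have hint : ∀ T, T₁ ≤ T → IntegrableOn (fun x => K' x * ∫ t in Ioc 0 (x * T), f t) (Ioi 0) := by
    intro T hT
    have h2 := hLpos T hT
    have h3 : IntegrableOn (fun x => K' x * ((∫ t in Ioc 0 (x * T), f t) / (T * L T))) (Ioi 0) := by
      refine hbd.integrableOn.mono' ?_ ?_
      · apply Measurable.aestronglyMeasurable
        exact mK'.mul ((mF.comp (measurable_id.mul_const T)).div_const _)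
      · filter_upwards [ae_restrict_mem measurableSet_Ioi] with x hx
        exact hpw T hT x hx
    refine (h3.mul_const (T * L T)).congr (Eventually.of_forall fun x => ?_)
    simp only
    rw [mul_assoc, div_mul_cancel₀ _ h2.ne']
  have hrep : ∀ T, T₁ ≤ T → _ := fun T hT =>
    fubK mf mK' hf0 hfi hK hK0 hB (by linarith : (0:ℝ) < T) (hint T hT)
  constructor
  · filter_upwards [eventually_ge_atTop T₁] with T hT
    exact (hrep T hT).1
  -- the same for the constant function
  have hone : (∫ x in Ioi (0:ℝ), K x) = -∫ x in Ioi (0:ℝ), K' x * x := by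
    have h1 : ∀ X : ℝ, 0 ≤ X → (∫ t in Ioc (0:ℝ) X, (1:ℝ)) = X := by
      intro X hX
      simp [hX]
    have hi : IntegrableOn (fun x => K' x * ∫ t in Ioc (0:ℝ) (x * 1), (1:ℝ)) (Ioi 0) := by
      have h2 : Integrable (fun x : ℝ => B * (1 + ‖x‖) ^ (-(2:ℝ))) :=
        (integrable_one_add_norm (E := ℝ) (μ := volume) (r := 2) (by norm_num)).const_mul B
      have h3 : IntegrableOn (fun x => K' x * x) (Ioi 0) := by
        refine h2.integrableOn.mono' (mK'.mul measurable_id).aestronglyMeasurable ?_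
        filter_upwards [ae_restrict_mem measurableSet_Ioi] with x hx
        have hx : 0 < x := hx
        rw [Real.norm_eq_abs, abs_mul, abs_of_pos hx, Real.norm_of_nonneg hx.le]
        calc |K' x| * x ≤ (B * (1 + x) ^ (-3 : ℝ)) * (1 + x) := by
              gcongr
              · exact hB x hx
              · linarith
          _ = B * ((1 + x) ^ (-3 : ℝ) * (1 + x) ^ (1 : ℝ)) := by rw [Real.rpow_one]; ring
          _ = _ := by
              rw [← Real.rpow_add (by linarith)]
              norm_num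
      refine h3.congr_fun (fun x hx => ?_) measurableSet_Ioi
      simp only
      rw [h1 _ (by have : 0 < x := hx; linarith), mul_one]
    have h4 := (fubK (f := fun _ => (1:ℝ)) (T := 1) measurable_const mK' (fun _ => zero_le_one)
      (fun X => (integrable_const (1:ℝ))) hK hK0 hB one_pos hi).2
    simp only [one_mul, div_one] at h4
    rw [h4]
    congr 1
    apply setIntegral_congr_fun measurableSet_Ioi
    intro x hx
    have hx : 0 < x := hx
    simp only
    rw [h1 _ (by linarith), mul_one]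
  have hlim : Tendsto (fun T => ∫ x in Ioi (0:ℝ), K' x * ((∫ t in Ioc 0 (x * T), f t) / (T * L T))) atTop
      (𝓝 (∫ x in Ioi (0:ℝ), K' x * (c * x))) := by
    refine tendsto_integral_filter_of_dominated_convergence (fun x : ℝ => B * C' * (1 + ‖x‖) ^ (-(3 / 2 : ℝ))) ?_ ?_
      hbd.integrableOn ?_
    · refine Eventually.of_forall fun T => ?_
      apply Measurable.aestronglyMeasurable
      exact mK'.mul ((mF.comp (measurable_id.mul_const T)).div_const _)
    · filter_upwards [eventually_ge_atTop T₁] with T hT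
      filter_upwards [ae_restrict_mem measurableSet_Ioi] with x hx
      exact hpw T hT x hx
    · filter_upwards [ae_restrict_mem measurableSet_Ioi] with x hx
      have hx : 0 < x := hx
      apply Tendsto.const_mul
      have h1 : Tendsto (fun T : ℝ => x * T) atTop atTop := tendsto_id.const_mul_atTop hx
      have h2 := (hF.comp h1).mul (S.slow x hx) |>.mul_const x
      rw [mul_one] at h2
      refine h2.congr' ?_
      filter_upwards [eventually_ge_atTop T₁, h1.eventually_ge_atTop T₁] with T hT hxT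
      have h3 := hLpos T hT
      have h4 := hLpos (x * T) hxT
      have hT0 : 0 < T := by linarith
      have h5 : 0 < L T := pos_of_mul_pos_right h3 hT0.le
      have h6 : 0 < L (x * T) := pos_of_mul_pos_right h4 (by positivity)
      simp only [Function.comp]
      field_simp
  have hc : ∫ x in Ioi (0:ℝ), K' x * (c * x) = c * ∫ x in Ioi (0:ℝ), K' x * x := by
    rw [← integral_const_mul]
    congr 1; funext x; ring
  rw [hc] at hlim
  have hlim2 := hlim.neg
  rw [hone, mul_neg]
  refine hlim2.congr' ?_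
  filter_upwards [eventually_ge_atTop T₁] with T hT
  have h2 := hLpos T hT
  rw [(hrep T hT).2, neg_div, ← integral_div]
  congr 2
  funext x
  rw [mul_div_assoc]

end Pool.Agent.N798.V
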