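import Pool.Agent.N798.V6

set_option autoImplicit false

/-! The kernel `(1 - cos v) / v ^ 2`: its integral and the Abelian theorem. -/

namespace Pool.Agent.N798.V

open MeasureTheory Filter Topology Set FourierTransform
open scoped ENNReal Real

/-- the Fejér kernel -/
noncomputable def fk (v : ℝ) : ℝ := (1 - Real.cos v) / v ^ 2

lemma fk_nonneg (v : ℝ) : 0 ≤ fk v := div_nonneg (by linarith [Real.cos_le_one v]) (sq_nonneg v)

@[fun_prop] lemma fk_meas : Measurable fk := by unfold fk; fun_prop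

lemma fk_neg (v : ℝ) : fk (-v) = fk v := by unfold fk; rw [Real.cos_neg, neg_sq]

lemma fk_le (v : ℝ) : fk v ≤ 5 / 2 * (1 + v ^ 2)⁻¹ := by
  unfold fk
  by_cases hv : v = 0
  · subst hv; simp; norm_num
  have hv2 : 0 < v ^ 2 := by positivity
  rw [← div_eq_mul_inv, div_le_div_iff₀ hv2 (by positivity)]
  have h1 := Real.one_sub_sq_div_two_le_cos (x := v)
  have h2 := Real.neg_one_le_cos v
  nlinarith

lemma fk_int : Integrable fk := by
  refine Integrable.mono' (integrable_inv_one_add_sq.const_mul (5 / 2)) fk_meas.aestronglyMeasurable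
    (Eventually.of_forall fun v => ?_)
  rw [Real.norm_of_nonneg (fk_nonneg v)]
  exact fk_le v

lemma ft_box (ξ : ℝ) (hξ : ξ ≠ 0) :
    𝓕 ((Icc (-(1 / 2) : ℝ) (1 / 2)).indicator (fun _ => (1:ℂ))) ξ = ((Real.sin (π * ξ) / (π * ξ) : ℝ) : ℂ) := by
  rw [Real.fourier_real_eq_integral_exp_smul]
  have e : ∀ v : ℝ, Complex.exp (((-2 * π * v * ξ : ℝ) : ℂ) * Complex.I) •
      (Icc (-(1 / 2) : ℝ) (1 / 2)).indicator (fun _ => (1:ℂ)) v =
      (Icc (-(1 / 2) : ℝ) (1 / 2)).indicator (fun v : ℝ => Complex.exp ((-2 * π * ξ * Complex.I) * v)) v := by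
    intro v
    simp only [indicator, smul_eq_mul]
    split_ifs
    · rw [mul_one]; congr 1; push_cast; ring
    · simp
  simp only [e]
  rw [integral_indicator measurableSet_Icc, integral_Icc_eq_integral_Ioc,
    ← intervalIntegral.integral_of_le (by norm_num)]
  have hne : (-2 * π * ξ * Complex.I : ℂ) ≠ 0 := by
    simp [Real.pi_ne_zero, hξ]
  rw [integral_exp_mul_complex hne]
  have hπ : (π : ℂ) ≠ 0 := by exact_mod_cast Real.pi_ne_zero
  have hξ' : (ξ : ℂ) ≠ 0 := by exact_mod_cast hξ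
  have h1 : Complex.exp ((-2 * π * ξ * Complex.I) * ((1 / 2 : ℝ) : ℂ)) = Complex.exp (-(π * ξ : ℂ) * Complex.I) := by
    congr 1; push_cast; ring
  have h2 : Complex.exp ((-2 * π * ξ * Complex.I) * ((-(1 / 2) : ℝ) : ℂ)) = Complex.exp ((π * ξ : ℂ) * Complex.I) := by
    congr 1; push_cast; ring
  rw [h1, h2]
  push_cast
  rw [Complex.sin]
  have hI := Complex.I_ne_zero
  rw [div_eq_div_iff hne (mul_ne_zero hπ hξ')]
  have : Complex.I * Complex.I = -1 := Complex.I_mul_I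
  linear_combination ((Complex.exp (-(π * ξ : ℂ) * Complex.I) - Complex.exp ((π * ξ : ℂ) * Complex.I)) * (π * ξ)) * this

lemma fk_lint : ∫⁻ v, ENNReal.ofReal (fk v) = ENNReal.ofReal π := by
  set f : ℝ → ℂ := (Icc (-(1 / 2) : ℝ) (1 / 2)).indicator (fun _ => (1:ℂ)) with hf
  have mf : MemLp f 2 := memLp_indicator_const 2 measurableSet_Icc 1 (Or.inr (by simp))
  have if' : Integrable f :=
    memLp_one_iff_integrable.1 (memLp_indicator_const 1 measurableSet_Icc (1:ℂ) (Or.inr (by simp)))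
  have h := Pool.Agent.H153R4.plancherel f if' mf
  have h1 : ∫⁻ x, ‖f x‖ₑ ^ 2 = 1 := by
    have e : ∀ x, ‖f x‖ₑ ^ 2 = (Icc (-(1 / 2) : ℝ) (1 / 2)).indicator (fun _ => (1:ℝ≥0∞)) x := by
      intro x
      simp only [hf, indicator]
      split_ifs <;> simp
    simp only [e]
    rw [lintegral_indicator measurableSet_Icc]
    simp
    norm_num
  rw [h1] at h
  have h2 : ∀ᵐ ξ : ℝ, ‖𝓕 f ξ‖ₑ ^ 2 = ENNReal.ofReal 2 * ENNReal.ofReal (fk (2 * π * ξ)) := by
    have hne : ∀ᵐ ξ : ℝ, ξ ≠ 0 := by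
      rw [ae_iff]; simp
    filter_upwards [hne] with ξ hξ
    rw [ft_box ξ hξ, ← ofReal_norm, Complex.norm_real, ← ENNReal.ofReal_pow (norm_nonneg _),
      ← ENNReal.ofReal_mul (by norm_num)]
    congr 1
    rw [Real.norm_eq_abs, sq_abs]
    unfold fk
    have h3 : Real.cos (2 * π * ξ) = 1 - 2 * Real.sin (π * ξ) ^ 2 := by
      have := Real.cos_two_mul' (π * ξ)
      have h4 := Real.sin_sq_add_cos_sq (π * ξ)
      rw [show 2 * π * ξ = 2 * (π * ξ) by ring, this]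
      linarith
    rw [h3]
    have := Real.pi_ne_zero
    field_simp
    ring
  rw [lintegral_congr_ae h2, lintegral_const_mul' _ _ ENNReal.ofReal_ne_top] at h
  have h3 : ∫⁻ ξ : ℝ, ENNReal.ofReal (fk (2 * π * ξ)) = ENNReal.ofReal (1 / (2 * π)) * ∫⁻ v, ENNReal.ofReal (fk v) := by
    have h4 : (2 * π : ℝ) ≠ 0 := by positivity
    have h5 := lintegral_map (μ := volume) (f := fun v => ENNReal.ofReal (fk v)) (g := fun ξ : ℝ => 2 * π * ξ)
      (by fun_prop) (measurable_const_mul _)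
    rw [Real.map_volume_mul_left h4, lintegral_smul_measure, smul_eq_mul] at h5
    rw [← h5, abs_of_pos (by positivity), one_div]
  rw [h3, ← mul_assoc, ← ENNReal.ofReal_mul (by norm_num)] at h
  have h6 : ENNReal.ofReal π * (ENNReal.ofReal (2 * (1 / (2 * π))) * ∫⁻ v, ENNReal.ofReal (fk v)) = ENNReal.ofReal π := by
    rw [h, mul_one]
  rw [← mul_assoc, ← ENNReal.ofReal_mul Real.pi_pos.le] at h6
  have h7 : π * (2 * (1 / (2 * π))) = 1 := by
    field_simp
  rw [h7, ENNReal.ofReal_one, one_mul] at h6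
  exact h6

lemma fk_integral : ∫ v, fk v = π := by
  have h := ofReal_integral_eq_lintegral_ofReal fk_int (Eventually.of_forall fk_nonneg)
  rw [fk_lint] at h
  exact (ENNReal.ofReal_eq_ofReal_iff (integral_nonneg fk_nonneg) Real.pi_pos.le).1 h

lemma fk_integral_Ioi : ∫ v in Ioi (0:ℝ), fk v = π / 2 := by
  have h1 := integral_comp_abs (f := fk)
  have h2 : ∀ v, fk |v| = fk v := by
    intro v
    rcases abs_cases v with ⟨h, _⟩ | ⟨h, _⟩
    · rw [h]
    · rw [h, fk_neg]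
  simp only [h2] at h1
  rw [fk_integral] at h1
  linarith

/-- regularizer -/
noncomputable def rg (δ v : ℝ) : ℝ := (1 + δ ^ 2 * v ^ 2)⁻¹

lemma rg_pos (δ v : ℝ) : 0 < rg δ v := by unfold rg; positivity

lemma rg_le_one (δ v : ℝ) : rg δ v ≤ 1 := by
  unfold rg
  apply inv_le_one_of_one_le₀
  nlinarith [mul_nonneg (sq_nonneg δ) (sq_nonneg v)]

/-- derivative of the regularizer -/
noncomputable def rg' (δ v : ℝ) : ℝ := -(2 * δ ^ 2 * v) / (1 + δ ^ 2 * v ^ 2) ^ 2

lemma rg_deriv (δ v : ℝ) : HasDerivAt (rg δ) (rg' δ v) v := by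
  have h1 : HasDerivAt (fun v : ℝ => 1 + δ ^ 2 * v ^ 2) (δ ^ 2 * (2 * v)) v := by
    have := ((hasDerivAt_pow 2 v).const_mul (δ ^ 2)).const_add 1
    simpa using this
  have h2 := h1.fun_inv (by positivity)
  refine h2.congr_deriv ?_
  unfold rg'
  congr 1; ring

lemma rg_le {δ : ℝ} (hδ : 0 < δ) (hδ1 : δ ≤ 1) (v : ℝ) : rg δ v ≤ (δ ^ 2)⁻¹ * (1 + v ^ 2)⁻¹ := by
  unfold rg
  rw [← mul_inv]
  apply inv_anti₀ (by positivity)
  have : δ ^ 2 ≤ 1 := pow_le_one₀ hδ.le hδ1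
  nlinarith

lemma rg'_le {δ : ℝ} (hδ : 0 < δ) (hδ1 : δ ≤ 1) {v : ℝ} (hv : 0 < v) :
    |rg' δ v| ≤ 2 * (δ ^ 2)⁻¹ * v * ((1 + v ^ 2)⁻¹) ^ 2 := by
  unfold rg'
  rw [neg_div, abs_neg, abs_of_nonneg (by positivity)]
  have h := rg_le hδ hδ1 v
  have h0 := (rg_pos δ v).le
  have h2 : rg δ v ^ 2 ≤ ((δ ^ 2)⁻¹ * (1 + v ^ 2)⁻¹) ^ 2 := by gcongr
  calc 2 * δ ^ 2 * v / (1 + δ ^ 2 * v ^ 2) ^ 2 = 2 * δ ^ 2 * v * rg δ v ^ 2 := by
        unfold rg; rw [inv_pow, div_eq_mul_inv]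
    _ ≤ 2 * δ ^ 2 * v * ((δ ^ 2)⁻¹ * (1 + v ^ 2)⁻¹) ^ 2 := by gcongr
    _ = _ := by field_simp

/-- derivative of the Fejér kernel -/
noncomputable def fk' (v : ℝ) : ℝ := Real.sin v / v ^ 2 - 2 * (1 - Real.cos v) / v ^ 3

lemma fk_deriv {v : ℝ} (hv : 0 < v) : HasDerivAt fk (fk' v) v := by
  have h1 : HasDerivAt (fun v : ℝ => 1 - Real.cos v) (Real.sin v) v := by
    have := (Real.hasDerivAt_cos v).const_sub 1
    simpa using this
  have h2 : HasDerivAt (fun v : ℝ => v ^ 2) (2 * v) v := by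
    have := hasDerivAt_pow 2 v
    simpa using this
  have h3 := h1.fun_div h2 (by positivity)
  refine h3.congr_deriv ?_
  unfold fk'
  field_simp

lemma fk'_le {v : ℝ} (hv : 0 < v) : |fk' v| ≤ 10 * (1 + v ^ 2)⁻¹ := by
  rcases le_or_gt v 1 with h | h
  · have ha : |v| = v := abs_of_pos hv
    have h1 := Real.cos_bound (x := v) (by rw [ha]; exact h)
    have h2 := Real.sin_bound (x := v) (by rw [ha]; exact h)
    rw [ha, abs_le] at h1 h2
    have e : fk' v = (v * Real.sin v - 2 * (1 - Real.cos v)) / v ^ 3 := by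
      unfold fk'
      field_simp
    have h3 : |fk' v| ≤ 1 := by
      rw [e, abs_div, abs_of_pos (pow_pos hv 3), div_le_one (pow_pos hv 3), abs_le]
      have hv4 : v ^ 4 ≤ v ^ 3 := pow_le_pow_of_le_one hv.le h (by norm_num)
      have hv5 : v * v ^ 4 ≤ v ^ 4 := by nlinarith [pow_pos hv 4]
      have hv3 : 0 < v ^ 3 := pow_pos hv 3
      have hv4' : 0 < v ^ 4 := pow_pos hv 4
      have h4 : v * Real.sin v ≤ v * (v - v ^ 3 / 6 + v ^ 4 * (5 / 96)) := by
        apply mul_le_mul_of_nonneg_left _ hv.le; linarith [h2.2]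
      have h5 : v * (v - v ^ 3 / 6 - v ^ 4 * (5 / 96)) ≤ v * Real.sin v := by
        apply mul_le_mul_of_nonneg_left _ hv.le; linarith [h2.1]
      have e1 : v * (v - v ^ 3 / 6 + v ^ 4 * (5 / 96)) = v ^ 2 - v ^ 4 / 6 + v * v ^ 4 * (5 / 96) := by ring
      have e2 : v * (v - v ^ 3 / 6 - v ^ 4 * (5 / 96)) = v ^ 2 - v ^ 4 / 6 - v * v ^ 4 * (5 / 96) := by ring
      rw [e1] at h4
      rw [e2] at h5
      constructor
      · nlinarith [h1.1, h1.2]
      · nlinarith [h1.1, h1.2]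
    have h6 : (1:ℝ) ≤ 10 * (1 + v ^ 2)⁻¹ := by
      rw [← div_eq_mul_inv, le_div_iff₀ (by positivity)]
      nlinarith
    linarith
  · have h1 : |fk' v| ≤ 1 / v ^ 2 + 4 / v ^ 3 := by
      unfold fk'
      refine (abs_sub _ _).trans (add_le_add ?_ ?_)
      · rw [abs_div, abs_of_pos (by positivity : (0:ℝ) < v ^ 2)]
        gcongr
        exact Real.abs_sin_le_one v
      · rw [abs_div, abs_of_pos (by positivity : (0:ℝ) < v ^ 3), abs_of_nonneg (by linarith [Real.cos_le_one v])]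
        gcongr
        linarith [Real.neg_one_le_cos v]
    refine h1.trans ?_
    have h2 : 4 / v ^ 3 ≤ 4 / v ^ 2 := by
      apply div_le_div_of_nonneg_left (by norm_num) (by positivity)
      exact pow_le_pow_right₀ h.le (by norm_num)
    have h3 : 5 / v ^ 2 ≤ 10 * (1 + v ^ 2)⁻¹ := by
      rw [← div_eq_mul_inv, div_le_div_iff₀ (by positivity) (by positivity)]
      nlinarith
    have h4 : 1 / v ^ 2 + 4 / v ^ 2 = 5 / v ^ 2 := by ring
    linarith

lemma jb {v : ℝ} (hv : 0 < v) : ((1 + v ^ 2)⁻¹) ^ 2 ≤ 4 * (1 + v)⁻¹ ^ 4 := by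
  rw [inv_pow, inv_pow, ← div_eq_mul_inv, ← one_div, div_le_div_iff₀ (by positivity) (by positivity)]
  have h1 : (1 + v) ^ 2 ≤ 2 * (1 + v ^ 2) := by nlinarith [sq_nonneg (1 - v)]
  calc 1 * (1 + v) ^ 4 = ((1 + v) ^ 2) ^ 2 := by ring
    _ ≤ (2 * (1 + v ^ 2)) ^ 2 := by gcongr
    _ = _ := by ring

lemma rpow3 {v : ℝ} (hv : 0 < v) : (1 + v) ^ (-3 : ℝ) = (1 + v)⁻¹ ^ 3 := by
  rw [show (-3 : ℝ) = -((3 : ℕ) : ℝ) by norm_num, Real.rpow_neg (by linarith), Real.rpow_natCast, inv_pow]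

/-- **Abelian theorem** for the Fejér kernel. -/
theorem abelian_fk {f L : ℝ → ℝ} (S : SV L) (mf : Measurable f) (hf0 : ∀ t, 0 ≤ f t)
    (hfi : ∀ X : ℝ, IntegrableOn f (Ioc 0 X)) {c : ℝ}
    (hF : Tendsto (fun T => (∫ t in Ioc 0 T, f t) / (T * L T)) atTop (𝓝 c)) :
    (∀ᶠ T in atTop, IntegrableOn (fun t => f t * fk (t / T)) (Ioi 0)) ∧
      Tendsto (fun T => (∫ t in Ioi (0:ℝ), f t * fk (t / T)) / (T * L T)) atTop (𝓝 (c * (π / 2))) := by
  -- first kernel
  have A1 : ∀ δ : ℝ, 0 < δ → δ ≤ 1 → _ := fun δ hδ hδ1 =>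
    abc (K := fun v => fk v * rg δ v) (K' := fun v => fk' v * rg δ v + fk v * rg' δ v) (B := 60 * (δ ^ 2)⁻¹)
      S mf (by unfold fk' rg rg'; fun_prop) hf0 hfi hF (fun x hx => (fk_deriv hx).mul (rg_deriv δ x)) (by
        have h1 : Tendsto (fun v : ℝ => 5 / 2 * (1 + v ^ 2)⁻¹) atTop (𝓝 (5 / 2 * 0)) := by
          apply Tendsto.const_mul
          apply Tendsto.inv_tendsto_atTop
          exact tendsto_atTop_add_const_left _ _ (tendsto_pow_atTop two_ne_zero)
        rw [mul_zero] at h1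
        refine squeeze_zero (fun v => mul_nonneg (fk_nonneg v) (rg_pos δ v).le) (fun v => ?_) h1
        calc fk v * rg δ v ≤ fk v * 1 := mul_le_mul_of_nonneg_left (rg_le_one δ v) (fk_nonneg v)
          _ ≤ _ := by rw [mul_one]; exact fk_le v) (by
        intro v hv
        have h1 := fk'_le hv
        have h2 := fk_le v
        have h3 := rg_le hδ hδ1 v
        have h4 := rg'_le hδ hδ1 hv
        have h5 : v * (1 + v ^ 2)⁻¹ ≤ 1 := by
          rw [← div_eq_mul_inv, div_le_one (by positivity)]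
          nlinarith [sq_nonneg (v - 1)]
        have hp : 0 < (1 + v ^ 2)⁻¹ := by positivity
        have hd : 0 < (δ ^ 2)⁻¹ := by positivity
        calc |fk' v * rg δ v + fk v * rg' δ v| ≤ |fk' v| * rg δ v + fk v * |rg' δ v| := by
              refine (abs_add_le _ _).trans (le_of_eq ?_)
              rw [abs_mul, abs_mul, abs_of_pos (rg_pos δ v), abs_of_nonneg (fk_nonneg v)]
          _ ≤ (10 * (1 + v ^ 2)⁻¹) * ((δ ^ 2)⁻¹ * (1 + v ^ 2)⁻¹) +
                (5 / 2 * (1 + v ^ 2)⁻¹) * (2 * (δ ^ 2)⁻¹ * v * ((1 + v ^ 2)⁻¹) ^ 2) := by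
              apply add_le_add
              · exact mul_le_mul h1 h3 (rg_pos δ v).le (by positivity)
              · exact mul_le_mul h2 h4 (abs_nonneg _) (by positivity)
          _ = (δ ^ 2)⁻¹ * ((1 + v ^ 2)⁻¹) ^ 2 * (10 + 5 * (v * (1 + v ^ 2)⁻¹)) := by ring
          _ ≤ (δ ^ 2)⁻¹ * ((1 + v ^ 2)⁻¹) ^ 2 * (10 + 5 * 1) := by gcongr
          _ ≤ (δ ^ 2)⁻¹ * (4 * (1 + v)⁻¹ ^ 4) * (10 + 5 * 1) := by gcongr; exact jb hv
          _ = 60 * (δ ^ 2)⁻¹ * ((1 + v)⁻¹ ^ 3 * (1 + v)⁻¹) := by ring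
          _ ≤ 60 * (δ ^ 2)⁻¹ * ((1 + v)⁻¹ ^ 3 * 1) := by
              gcongr
              apply inv_le_one_of_one_le₀; linarith
          _ = _ := by rw [mul_one, rpow3 hv])
  -- second kernel
  have A2 : ∀ δ : ℝ, 0 < δ → δ ≤ 1 → _ := fun δ hδ hδ1 =>
    abc (K := fun v => 2 * δ ^ 2 * rg δ v) (K' := fun v => 2 * δ ^ 2 * rg' δ v) (B := 16)
      S mf (by unfold rg'; fun_prop) hf0 hfi hF (fun x hx => (rg_deriv δ x).const_mul (2 * δ ^ 2)) (by
        have h1 : Tendsto (fun v : ℝ => 2 * δ ^ 2 * ((δ ^ 2)⁻¹ * (1 + v ^ 2)⁻¹)) atTop (𝓝 (2 * δ ^ 2 * ((δ ^ 2)⁻¹ * 0))) := by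
          apply Tendsto.const_mul
          apply Tendsto.const_mul
          apply Tendsto.inv_tendsto_atTop
          exact tendsto_atTop_add_const_left _ _ (tendsto_pow_atTop two_ne_zero)
        rw [mul_zero, mul_zero] at h1
        refine squeeze_zero (fun v => mul_nonneg (by positivity) (rg_pos δ v).le) (fun v => ?_) h1
        exact mul_le_mul_of_nonneg_left (rg_le hδ hδ1 v) (by positivity)) (by
        intro v hv
        have h4 := rg'_le hδ hδ1 hv
        have hd : 0 < (δ ^ 2)⁻¹ := by positivity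
        rw [abs_mul, abs_of_pos (by positivity : (0:ℝ) < 2 * δ ^ 2)]
        calc 2 * δ ^ 2 * |rg' δ v| ≤ 2 * δ ^ 2 * (2 * (δ ^ 2)⁻¹ * v * ((1 + v ^ 2)⁻¹) ^ 2) := by gcongr
          _ ≤ 2 * δ ^ 2 * (2 * (δ ^ 2)⁻¹ * (1 + v) * (4 * (1 + v)⁻¹ ^ 4)) := by
              gcongr
              · linarith
              · exact jb hv
          _ = 16 * (1 + v)⁻¹ ^ 3 := by
              have : (1 + v) * (1 + v)⁻¹ = 1 := mul_inv_cancel₀ (by positivity)
              have h2 : δ ^ 2 * (δ ^ 2)⁻¹ = 1 := mul_inv_cancel₀ (by positivity)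
              calc 2 * δ ^ 2 * (2 * (δ ^ 2)⁻¹ * (1 + v) * (4 * (1 + v)⁻¹ ^ 4)) =
                  16 * (δ ^ 2 * (δ ^ 2)⁻¹) * ((1 + v) * (1 + v)⁻¹) * (1 + v)⁻¹ ^ 3 := by ring
                _ = _ := by rw [this, h2]; ring
          _ = _ := by rw [rpow3 hv])
  -- comparison of the kernels
  have hlow : ∀ δ v : ℝ, fk v * rg δ v ≤ fk v := fun δ v => by
    calc fk v * rg δ v ≤ fk v * 1 := mul_le_mul_of_nonneg_left (rg_le_one δ v) (fk_nonneg v)
      _ = _ := mul_one _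
  have hupp : ∀ δ v : ℝ, fk v ≤ fk v * rg δ v + 2 * δ ^ 2 * rg δ v := by
    intro δ v
    have h1 : fk v * (1 - rg δ v) ≤ 2 * δ ^ 2 * rg δ v := by
      have e : 1 - rg δ v = δ ^ 2 * v ^ 2 * rg δ v := by
        unfold rg
        have : (1 + δ ^ 2 * v ^ 2) ≠ 0 := by positivity
        field_simp
        ring
      rw [e]
      have h2 : fk v * v ^ 2 ≤ 2 := by
        unfold fk
        by_cases hv : v = 0
        · subst hv; simp
        · rw [div_mul_cancel₀ _ (by positivity)]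
          linarith [Real.neg_one_le_cos v]
      have h3 := (rg_pos δ v).le
      calc fk v * (δ ^ 2 * v ^ 2 * rg δ v) = (fk v * v ^ 2) * (δ ^ 2 * rg δ v) := by ring
        _ ≤ 2 * (δ ^ 2 * rg δ v) := mul_le_mul_of_nonneg_right h2 (by positivity)
        _ = _ := by ring
    linarith
  have hTL : ∀ᶠ T in atTop, 0 < T * L T := by
    filter_upwards [eventually_ge_atTop S.T0] with T hT
    have h1 := S.low T hT
    have h2 := S.hc
    have h3 := S.hT0
    exact mul_pos (by linarith) (by linarith)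
  have hint : ∀ᶠ T in atTop, IntegrableOn (fun t => f t * fk (t / T)) (Ioi 0) := by
    filter_upwards [(A1 1 one_pos le_rfl).1, (A2 1 one_pos le_rfl).1] with T h1 h2
    refine (h1.add h2).mono' (by fun_prop) (Eventually.of_forall fun t => ?_)
    rw [Real.norm_of_nonneg (mul_nonneg (hf0 t) (fk_nonneg _)), Pi.add_apply, ← mul_add]
    exact mul_le_mul_of_nonneg_left (hupp 1 _) (hf0 t)
  refine ⟨hint, ?_⟩
  -- the limits of the integrals of the kernels
  set d : ℕ → ℝ := fun n => 1 / ((n : ℝ) + 1) with hd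
  have dpos : ∀ n, 0 < d n := fun n => by simp only [hd]; positivity
  have dle : ∀ n, d n ≤ 1 := fun n => by
    simp only [hd]
    rw [div_le_one (by positivity)]
    linarith [Nat.cast_nonneg (α := ℝ) n]
  have d0 : Tendsto d atTop (𝓝 0) := tendsto_one_div_add_atTop_nhds_zero_nat
  have I1 : Tendsto (fun n => ∫ v in Ioi (0:ℝ), fk v * rg (d n) v) atTop (𝓝 (π / 2)) := by
    rw [← fk_integral_Ioi]
    refine tendsto_integral_of_dominated_convergence fk (fun n => ?_) fk_int.integrableOn (fun n => ?_) ?_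
    · apply Measurable.aestronglyMeasurable
      unfold rg; fun_prop
    · refine Eventually.of_forall fun v => ?_
      rw [Real.norm_of_nonneg (mul_nonneg (fk_nonneg v) (rg_pos _ v).le)]
      exact hlow _ v
    · refine Eventually.of_forall fun v => ?_
      have h1 : Tendsto (fun n => rg (d n) v) atTop (𝓝 1) := by
        unfold rg
        have h2 : Continuous (fun x : ℝ => (1 + x ^ 2 * v ^ 2)⁻¹) := by
          refine Continuous.inv₀ (by fun_prop) (fun x => by positivity)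
        have h3 := (h2.tendsto 0).comp d0
        simpa [Function.comp_def] using h3
      simpa using h1.const_mul (fk v)
  have I2 : Tendsto (fun n => ∫ v in Ioi (0:ℝ), 2 * d n ^ 2 * rg (d n) v) atTop (𝓝 0) := by
    have h1 : ∀ n, ∫ v in Ioi (0:ℝ), 2 * d n ^ 2 * rg (d n) v = π * d n := by
      intro n
      have h2 := integral_comp_mul_left_Ioi (fun v : ℝ => 2 * d n ^ 2 * (1 + v ^ 2)⁻¹) 0 (dpos n)
      have h3 : ∀ v : ℝ, 2 * d n ^ 2 * (1 + (d n * v) ^ 2)⁻¹ = 2 * d n ^ 2 * rg (d n) v := by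
        intro v; unfold rg; rw [mul_pow]
      simp only [h3] at h2
      rw [mul_zero, integral_const_mul (2 * d n ^ 2) (fun v : ℝ => (1 + v ^ 2)⁻¹), integral_Ioi_inv_one_add_sq,
        Real.arctan_zero, sub_zero, smul_eq_mul] at h2
      rw [h2]
      have := (dpos n).ne'
      field_simp
    simp only [h1]
    simpa using d0.const_mul π
  rw [Metric.tendsto_atTop']
  intro ε hε
  have c1 : Tendsto (fun n => c * ∫ v in Ioi (0:ℝ), fk v * rg (d n) v) atTop (𝓝 (c * (π / 2))) := I1.const_mul c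
  have c2 : Tendsto (fun n => c * ∫ v in Ioi (0:ℝ), 2 * d n ^ 2 * rg (d n) v) atTop (𝓝 (c * 0)) := I2.const_mul c
  rw [mul_zero] at c2
  obtain ⟨n, hn1, hn2⟩ := ((c1.eventually (Metric.ball_mem_nhds _ (by positivity : 0 < ε / 4))).and
    (c2.eventually (Metric.ball_mem_nhds _ (by positivity : 0 < ε / 4)))).exists
  simp only [Real.dist_eq, abs_lt] at hn1 hn2
  have B1 := A1 (d n) (dpos n) (dle n)
  have B2 := A2 (d n) (dpos n) (dle n)
  have e1 := B1.2.eventually (Metric.ball_mem_nhds _ (by positivity : 0 < ε / 4))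
  have e2 := B2.2.eventually (Metric.ball_mem_nhds _ (by positivity : 0 < ε / 4))
  have e3 := (((e1.and e2).and (B1.1.and B2.1)).and (hint.and hTL))
  obtain ⟨N, hN⟩ := eventually_atTop.1 e3
  refine ⟨N, fun T hT => ?_⟩
  obtain ⟨⟨⟨g1, g2⟩, g3, g4⟩, g5, g6⟩ := hN T hT.le
  simp only [Real.dist_eq, abs_lt] at g1 g2
  rw [Real.dist_eq, abs_lt]
  have k1 : (∫ t in Ioi (0:ℝ), f t * (fk (t / T) * rg (d n) (t / T))) / (T * L T) ≤
      (∫ t in Ioi (0:ℝ), f t * fk (t / T)) / (T * L T) := by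
    apply div_le_div_of_nonneg_right _ g6.le
    apply integral_mono g3 g5
    intro t
    exact mul_le_mul_of_nonneg_left (hlow _ _) (hf0 t)
  have k2 : (∫ t in Ioi (0:ℝ), f t * fk (t / T)) / (T * L T) ≤
      (∫ t in Ioi (0:ℝ), f t * (fk (t / T) * rg (d n) (t / T))) / (T * L T) +
      (∫ t in Ioi (0:ℝ), f t * (2 * d n ^ 2 * rg (d n) (t / T))) / (T * L T) := by
    rw [← add_div, ← integral_add g3 g4]
    apply div_le_div_of_nonneg_right _ g6.le
    apply integral_mono g5 (g3.add g4)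
    intro t
    simp only [Pi.add_apply]
    rw [← mul_add]
    exact mul_le_mul_of_nonneg_left (hupp _ _) (hf0 t)
  constructor <;> linarith [hn1.1, hn1.2, hn2.1, hn2.2, g1.1, g1.2, g2.1, g2.2]

end Pool.Agent.N798.V
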