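import Pool.Agent.N798.V7

set_option autoImplicit false

/-! The Tauberian theorem for the kernel `1 - cos`. -/

namespace Pool.Agent.N798.V

open MeasureTheory Filter Topology Set FourierTransform
open scoped ENNReal Real

/-- the cosine functional of an integrable function -/
noncomputable def UU (g : ℝ → ℝ) (h : ℝ) : ℝ := ∫ t, (1 - Real.cos (h * t)) * g t

lemma UU_int {g : ℝ → ℝ} (ig : Integrable g) (h : ℝ) : Integrable (fun t => (1 - Real.cos (h * t)) * g t) := by
  refine Integrable.bdd_mul (c := 2) ig (by fun_prop) (Eventually.of_forall fun t => ?_)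
  rw [Real.norm_eq_abs, abs_le]
  constructor <;> linarith [Real.cos_le_one (h * t), Real.neg_one_le_cos (h * t)]

lemma UU_nonneg {g : ℝ → ℝ} (g0 : ∀ t, 0 ≤ g t) (h : ℝ) : 0 ≤ UU g h :=
  integral_nonneg fun t => mul_nonneg (by linarith [Real.cos_le_one (h * t)]) (g0 t)

lemma UU_le {g : ℝ → ℝ} (ig : Integrable g) (g0 : ∀ t, 0 ≤ g t) (h : ℝ) : UU g h ≤ 2 * ∫ t, g t := by
  unfold UU
  rw [← integral_const_mul]
  apply integral_mono (UU_int ig h) (ig.const_mul 2)
  intro t
  exact mul_le_mul_of_nonneg_right (by linarith [Real.neg_one_le_cos (h * t)]) (g0 t)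

lemma UU_abs (g : ℝ → ℝ) (h : ℝ) : UU g |h| = UU g h := by
  unfold UU
  congr 1; funext t
  rcases abs_cases h with ⟨e, _⟩ | ⟨e, _⟩
  · rw [e]
  · rw [e, neg_mul, Real.cos_neg]

/-- for an even function the Fourier transform is a cosine transform -/
lemma UU_exp {g : ℝ → ℝ} (ig : Integrable g) (ge : ∀ t, g (-t) = g t) (a : ℝ) :
    ∫ t : ℝ, (g t : ℂ) * (Complex.exp ((a * t : ℝ) * Complex.I) - 1) = -((UU g a : ℝ) : ℂ) := by
  have i1 : Integrable (fun t : ℝ => g t * Real.sin (a * t)) := by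
    refine Integrable.mul_bdd (c := 1) ig (by fun_prop) (Eventually.of_forall fun t => ?_)
    rw [Real.norm_eq_abs]
    exact Real.abs_sin_le_one _
  have hodd : ∫ t : ℝ, g t * Real.sin (a * t) = 0 := by
    have h := integral_neg_eq_self (fun t : ℝ => g t * Real.sin (a * t)) volume
    have h2 : ∫ t : ℝ, g (-t) * Real.sin (a * (-t)) = -∫ t : ℝ, g t * Real.sin (a * t) := by
      rw [← integral_neg]
      congr 1; funext t
      rw [ge, mul_neg, Real.sin_neg]; ring
    rw [h2] at h
    linarith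
  have e : ∀ t : ℝ, (g t : ℂ) * (Complex.exp ((a * t : ℝ) * Complex.I) - 1) =
      ((-((1 - Real.cos (a * t)) * g t) : ℝ) : ℂ) + ((g t * Real.sin (a * t) : ℝ) : ℂ) * Complex.I := by
    intro t
    rw [Complex.exp_mul_I]
    push_cast
    ring
  simp only [e]
  rw [integral_add ((UU_int ig a).neg.ofReal) (i1.ofReal.mul_const _), integral_mul_const, integral_complex_ofReal,
    integral_complex_ofReal, hodd, integral_neg]
  simp [UU]

/-- the functional that appears in the limit -/
noncomputable def lam (X : ℝ → ℂ) : ℂ := -∫ ξ : ℝ, X ξ * ((2 * π * |ξ| : ℝ) : ℂ)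

/-- **Tauberian step**: averages with nice kernels. -/
theorem taub1 {g L : ℝ → ℝ} (S : SV L) (ig : Integrable g) (g0 : ∀ t, 0 ≤ g t) (ge : ∀ t, g (-t) = g t) {κ : ℝ}
    (hU : Tendsto (fun T => T * UU g (1 / T) / L T) atTop (𝓝 κ))
    {χ X : ℝ → ℂ} (mX : Measurable X) (iX : Integrable (fun ξ : ℝ => (1 + |ξ|) * ‖X ξ‖))
    (hinv : ∀ x : ℝ, χ x = ∫ ξ : ℝ, X ξ * Complex.exp ((2 * π * ξ * x : ℝ) * Complex.I)) (hχ0 : χ 0 = 0) :
    Tendsto (fun T : ℝ => ((T / L T : ℝ) : ℂ) * ∫ t : ℝ, (g t : ℂ) * χ (t / T)) atTop (𝓝 ((κ : ℂ) * lam X)) := by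
  have iX' : Integrable X := by
    refine iX.mono' mX.aestronglyMeasurable (Eventually.of_forall fun ξ => ?_)
    nlinarith [norm_nonneg (X ξ), abs_nonneg ξ, mul_nonneg (abs_nonneg ξ) (norm_nonneg (X ξ))]
  have hX0 : ∫ ξ : ℝ, X ξ = 0 := by
    have := hinv 0
    rw [hχ0] at this
    simpa using this.symm
  -- representation
  have hrep : ∀ T : ℝ, ∫ t : ℝ, (g t : ℂ) * χ (t / T) = -∫ ξ : ℝ, X ξ * ((UU g (2 * π * ξ / T) : ℝ) : ℂ) := by
    intro T
    have e1 : ∀ t : ℝ, (g t : ℂ) * χ (t / T) =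
        ∫ ξ : ℝ, X ξ * ((g t : ℂ) * (Complex.exp ((2 * π * ξ / T * t : ℝ) * Complex.I) - 1)) := by
      intro t
      have i1 : Integrable (fun ξ : ℝ => X ξ * Complex.exp ((2 * π * ξ * (t / T) : ℝ) * Complex.I)) := by
        refine Integrable.mul_bdd (c := 1) iX' (by fun_prop) (Eventually.of_forall fun ξ => ?_)
        rw [Complex.norm_exp_ofReal_mul_I]
      have h1 : χ (t / T) = ∫ ξ : ℝ, (X ξ * Complex.exp ((2 * π * ξ * (t / T) : ℝ) * Complex.I) - X ξ) := by
        rw [integral_sub i1 iX', hX0, sub_zero, ← hinv]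
      rw [h1, ← integral_const_mul]
      congr 1; funext ξ
      have e2 : 2 * π * ξ * (t / T) = 2 * π * ξ / T * t := by ring
      rw [e2]; ring
    simp only [e1]
    rw [integral_integral_swap]
    · rw [← integral_neg]
      congr 1; funext ξ
      rw [integral_const_mul, UU_exp ig ge]
      ring
    · have h2 : Integrable (fun z : ℝ × ℝ => 2 * (g z.1 * ‖X z.2‖)) (volume.prod volume) :=
        (ig.mul_prod iX'.norm).const_mul 2
      refine h2.mono' ?_ (Eventually.of_forall fun z => ?_)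
      · have a1 : AEStronglyMeasurable (fun z : ℝ × ℝ => (g z.1 : ℂ)) (volume.prod volume) :=
          (Complex.continuous_ofReal.comp_aestronglyMeasurable ig.1.comp_fst)
        have a2 : AEStronglyMeasurable (fun z : ℝ × ℝ => X z.2) (volume.prod volume) :=
          mX.aestronglyMeasurable.comp_snd
        have a3 : AEStronglyMeasurable (fun z : ℝ × ℝ => Complex.exp ((2 * π * z.2 / T * z.1 : ℝ) * Complex.I) - 1)
            (volume.prod volume) := (by fun_prop : Continuous fun z : ℝ × ℝ =>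
              Complex.exp ((2 * π * z.2 / T * z.1 : ℝ) * Complex.I) - 1).aestronglyMeasurable
        exact a2.mul (a1.mul a3)
      · rw [Function.uncurry_def]
        simp only
        rw [norm_mul, norm_mul, Complex.norm_real, Real.norm_of_nonneg (g0 _)]
        have h3 : ‖Complex.exp ((2 * π * z.2 / T * z.1 : ℝ) * Complex.I) - 1‖ ≤ 2 := by
          refine (norm_sub_le _ _).trans ?_
          rw [Complex.norm_exp_ofReal_mul_I, norm_one]; norm_num
        calc ‖X z.2‖ * (g z.1 * ‖Complex.exp ((2 * π * z.2 / T * z.1 : ℝ) * Complex.I) - 1‖) ≤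
            ‖X z.2‖ * (g z.1 * 2) := by
              have := g0 z.1
              gcongr
          _ = _ := by ring
  -- growth
  have h1 : ∀ᶠ T in atTop, T * UU g (1 / T) / L T ≤ |κ| + 1 :=
    (hU.eventually (ge_mem_nhds (show κ < |κ| + 1 by linarith [le_abs_self κ])))
  obtain ⟨T₂, hT₂⟩ := eventually_atTop.1 h1
  set T₁ := max T₂ S.T0 with hT₁
  have hS := S.hT0
  have hc := S.hc
  have hC := S.hC
  have hT1 : 1 ≤ T₁ := hS.trans (le_max_right _ _)
  have hLpos : ∀ T, T₁ ≤ T → 0 < L T := fun T hT => hc.trans_le (S.low T ((le_max_right _ _).trans hT))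
  set m : ℝ := ∫ t, g t with hm
  have hm0 : 0 ≤ m := integral_nonneg g0
  set Q : ℝ := (|κ| + 1) * S.C * (2 * π) + (|κ| + 1) * S.C + 2 * π * T₁ / S.c * (2 * m) with hQ
  have hbd : ∀ T, T₁ ≤ T → ∀ ξ : ℝ, T / L T * UU g (2 * π * ξ / T) ≤ Q * (1 + |ξ|) := by
    intro T hT ξ
    have hTpos : 0 < T := by linarith
    have hLT := hLpos T hT
    have hcL := S.low T ((le_max_right _ _).trans hT)
    rw [← UU_abs]
    rcases eq_or_ne ξ 0 with hξ | hξ
    · subst hξ
      have : UU g |2 * π * 0 / T| = 0 := by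
        unfold UU
        simp
      rw [this]
      simp
      positivity
    have hξ0 : 0 < |ξ| := abs_pos.2 hξ
    have hy : 0 < 2 * π * |ξ| := by positivity
    have habs : |2 * π * ξ / T| = 2 * π * |ξ| / T := by
      rw [abs_div, abs_mul, abs_of_pos (by positivity : (0:ℝ) < 2 * π), abs_of_pos hTpos]
    rw [habs]
    set T' : ℝ := (2 * π * |ξ|)⁻¹ * T with hT'
    have hT'0 : 0 < T' := by positivity
    have e3 : 2 * π * |ξ| / T = 1 / T' := by rw [hT']; field_simp
    rcases le_or_gt T₁ T' with h | h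
    · have h2 := hT₂ T' ((le_max_left _ _).trans h)
      have h3 := S.pot T (2 * π * |ξ|)⁻¹ ((le_max_right _ _).trans hT) (by positivity) ((le_max_right _ _).trans h)
      rw [← hT'] at h3
      have hLT' := hLpos T' h
      rw [div_le_iff₀ hLT'] at h2
      rw [e3]
      have h4 : (1 + (2 * π * |ξ|)⁻¹) ^ (1 / 2 : ℝ) ≤ 1 + (2 * π * |ξ|)⁻¹ := by
        have a1 : (1:ℝ) ≤ 1 + (2 * π * |ξ|)⁻¹ := by
          have : 0 < (2 * π * |ξ|)⁻¹ := by positivity
          linarith
        calc (1 + (2 * π * |ξ|)⁻¹) ^ (1 / 2 : ℝ) ≤ (1 + (2 * π * |ξ|)⁻¹) ^ (1 : ℝ) :=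
              Real.rpow_le_rpow_of_exponent_le a1 (by norm_num)
          _ = _ := Real.rpow_one _
      calc T / L T * UU g (1 / T') = (2 * π * |ξ|) / L T * (T' * UU g (1 / T')) := by
            rw [hT']; field_simp
        _ ≤ (2 * π * |ξ|) / L T * ((|κ| + 1) * L T') := by gcongr
        _ ≤ (2 * π * |ξ|) / L T * ((|κ| + 1) * (S.C * (1 + (2 * π * |ξ|)⁻¹) ^ (1 / 2 : ℝ) * L T)) := by gcongr
        _ ≤ (2 * π * |ξ|) / L T * ((|κ| + 1) * (S.C * (1 + (2 * π * |ξ|)⁻¹) * L T)) := by gcongr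
        _ = (|κ| + 1) * S.C * (2 * π) * |ξ| + (|κ| + 1) * S.C := by field_simp
        _ ≤ Q * (1 + |ξ|) := by
            rw [hQ]
            have b1 : 0 ≤ (|κ| + 1) * S.C * (2 * π) := by positivity
            have b2 : 0 ≤ (|κ| + 1) * S.C * |ξ| := by positivity
            have b3 : 0 ≤ 2 * π * T₁ / S.c * (2 * m) * (1 + |ξ|) := by positivity
            nlinarith
    · have h2 : T ≤ 2 * π * |ξ| * T₁ := by
        have : (2 * π * |ξ|) * T' ≤ (2 * π * |ξ|) * T₁ := by gcongr
        have e4 : (2 * π * |ξ|) * T' = T := by rw [hT']; field_simp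
        linarith
      have h3 := UU_le ig g0 (2 * π * |ξ| / T)
      calc T / L T * UU g (2 * π * |ξ| / T) ≤ (2 * π * |ξ| * T₁) / S.c * (2 * m) := by
            apply mul_le_mul _ h3 (UU_nonneg g0 _) (by positivity)
            exact div_le_div₀ (by positivity) h2 hc hcL
        _ = 2 * π * T₁ / S.c * (2 * m) * |ξ| := by ring
        _ ≤ Q * (1 + |ξ|) := by
            rw [hQ]
            have b1 : 0 ≤ ((|κ| + 1) * S.C * (2 * π) + (|κ| + 1) * S.C) * (1 + |ξ|) := by positivity
            have b3 : 0 ≤ 2 * π * T₁ / S.c * (2 * m) := by positivity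
            nlinarith
  -- pointwise limit
  have hpt : ∀ ξ : ℝ, ξ ≠ 0 → Tendsto (fun T => T / L T * UU g (2 * π * ξ / T)) atTop (𝓝 (κ * (2 * π * |ξ|))) := by
    intro ξ hξ
    have hξ0 : 0 < |ξ| := abs_pos.2 hξ
    have hy : 0 < (2 * π * |ξ|)⁻¹ := by positivity
    have a1 : Tendsto (fun T : ℝ => (2 * π * |ξ|)⁻¹ * T) atTop atTop := tendsto_id.const_mul_atTop hy
    have a2 := ((hU.comp a1).mul (S.slow _ hy)).mul_const (2 * π * |ξ|)
    rw [mul_one] at a2
    refine a2.congr' ?_
    filter_upwards [eventually_ge_atTop T₁, a1.eventually_ge_atTop T₁] with T hT hT'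
    have hTpos : 0 < T := by linarith
    have b1 := (hLpos T hT).ne'
    have b2 := (hLpos _ hT').ne'
    have habs : |2 * π * ξ / T| = 2 * π * |ξ| / T := by
      rw [abs_div, abs_mul, abs_of_pos (by positivity : (0:ℝ) < 2 * π), abs_of_pos hTpos]
    rw [← UU_abs g (2 * π * ξ / T), habs]
    simp only [Function.comp]
    have e3 : 1 / ((2 * π * |ξ|)⁻¹ * T) = 2 * π * |ξ| / T := by field_simp
    rw [e3]
    generalize L ((2 * π * |ξ|)⁻¹ * T) = ℓ at b2 ⊢
    field_simp
  have hlim : Tendsto (fun T : ℝ => ∫ ξ : ℝ, X ξ * ((T / L T * UU g (2 * π * ξ / T) : ℝ) : ℂ)) atTop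
      (𝓝 (∫ ξ : ℝ, X ξ * ((κ * (2 * π * |ξ|) : ℝ) : ℂ))) := by
    refine tendsto_integral_filter_of_dominated_convergence (fun ξ : ℝ => Q * ((1 + |ξ|) * ‖X ξ‖)) ?_ ?_
      (iX.const_mul Q) ?_
    · refine Eventually.of_forall fun T => ?_
      apply AEStronglyMeasurable.mul mX.aestronglyMeasurable
      apply Complex.continuous_ofReal.comp_aestronglyMeasurable
      apply AEStronglyMeasurable.const_mul
      have hcont : Continuous (fun ξ : ℝ => UU g (2 * π * ξ / T)) := by
        unfold UU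
        refine continuous_of_dominated (bound := fun t => 2 * g t) (fun ξ => ?_) (fun ξ => ?_) (ig.const_mul 2) ?_
        · exact (UU_int ig _).1
        · refine Eventually.of_forall fun t => ?_
          rw [norm_mul, Real.norm_of_nonneg (g0 t)]
          apply mul_le_mul_of_nonneg_right _ (g0 t)
          rw [Real.norm_eq_abs, abs_le]
          constructor <;> linarith [Real.cos_le_one (2 * π * ξ / T * t), Real.neg_one_le_cos (2 * π * ξ / T * t)]
        · refine Eventually.of_forall fun t => ?_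
          fun_prop
      exact hcont.aestronglyMeasurable
    · filter_upwards [eventually_ge_atTop T₁] with T hT
      refine Eventually.of_forall fun ξ => ?_
      have hTpos : 0 < T := by linarith
      have hLT := hLpos T hT
      rw [norm_mul, Complex.norm_real, Real.norm_of_nonneg (mul_nonneg (by positivity) (UU_nonneg g0 _))]
      calc ‖X ξ‖ * (T / L T * UU g (2 * π * ξ / T)) ≤ ‖X ξ‖ * (Q * (1 + |ξ|)) :=
            mul_le_mul_of_nonneg_left (hbd T hT ξ) (norm_nonneg _)
        _ = _ := by ring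
    · have hne : ∀ᵐ ξ : ℝ, ξ ≠ 0 := by
        rw [ae_iff]; simp
      filter_upwards [hne] with ξ hξ
      apply Tendsto.const_mul
      exact (Complex.continuous_ofReal.tendsto _).comp (hpt ξ hξ)
  have h3 := hlim.neg
  have e4 : -∫ ξ : ℝ, X ξ * ((κ * (2 * π * |ξ|) : ℝ) : ℂ) = (κ : ℂ) * lam X := by
    unfold lam
    rw [mul_neg, ← integral_const_mul]
    congr 2; funext ξ
    push_cast; ring
  rw [e4] at h3
  refine h3.congr fun T => ?_
  rw [hrep T, mul_neg, ← integral_const_mul]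
  congr 2; funext ξ
  push_cast; ring

end Pool.Agent.N798.V
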