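import Pool.Agent.N798.V8

set_option autoImplicit false

/-! The Tauberian theorem for the kernel `1 - cos`: constants and the comparison with sharp cut-offs. -/

namespace Pool.Agent.N798.V

open MeasureTheory Filter Topology Set FourierTransform SchwartzMap
open scoped ENNReal Real ContDiff

lemma kernel_data {ψ : ℝ → ℝ} (hψ : ContDiff ℝ ∞ ψ) (hc : HasCompactSupport ψ) :
    ∃ X : ℝ → ℂ, Measurable X ∧ Integrable (fun ξ : ℝ => (1 + |ξ|) * ‖X ξ‖) ∧
      ∀ x : ℝ, ((x ^ 2 * ψ x : ℝ) : ℂ) = ∫ ξ : ℝ, X ξ * Complex.exp ((2 * π * ξ * x : ℝ) * Complex.I) := by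
  have h1 : ContDiff ℝ ∞ (fun x : ℝ => ((x ^ 2 * ψ x : ℝ) : ℂ)) := by
    have : ContDiff ℝ ∞ (fun x : ℝ => x ^ 2 * ψ x) := by fun_prop
    exact Complex.ofRealCLM.contDiff.comp this
  have h2 : HasCompactSupport (fun x : ℝ => ((x ^ 2 * ψ x : ℝ) : ℂ)) :=
    (hc.mul_left (f := fun x : ℝ => x ^ 2)).comp_left (g := fun y : ℝ => (y : ℂ)) rfl
  set χ : 𝓢(ℝ, ℂ) := h2.toSchwartzMap h1 with hχ
  have hχx : ∀ x, χ x = ((x ^ 2 * ψ x : ℝ) : ℂ) := fun x => rfl
  refine ⟨((𝓕 χ : 𝓢(ℝ, ℂ)) : ℝ → ℂ), (𝓕 χ).continuous.measurable, ?_, fun x => ?_⟩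
  · have a0 := (𝓕 χ).integrable_pow_mul volume 0
    have a1 := (𝓕 χ).integrable_pow_mul volume 1
    refine (a0.add a1).congr (Eventually.of_forall fun ξ => ?_)
    simp only [pow_zero, one_mul, pow_one, Pi.add_apply, Real.norm_eq_abs]
    ring
  · have h3 : 𝓕⁻ (𝓕 χ) = χ := FourierTransform.fourierInv_fourier_eq χ
    have h4 : (𝓕⁻ (𝓕 χ) : 𝓢(ℝ, ℂ)) x = χ x := by rw [h3]
    rw [← hχx, ← h4, SchwartzMap.fourierInv_coe, Real.fourierInv_eq']
    congr 1
    funext ξ
    rw [smul_eq_mul, mul_comm]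
    congr 3
    simp only [RCLike.inner_apply, conj_trivial]
    push_cast
    ring

/-- the weight `1 / (1/4 + t^2)` -/
noncomputable def g₀ (t : ℝ) : ℝ := (1 / 4 + t ^ 2)⁻¹

lemma g₀_pos (t : ℝ) : 0 < g₀ t := by unfold g₀; positivity

lemma g₀_le (t : ℝ) : g₀ t ≤ 4 * (1 + t ^ 2)⁻¹ := by
  unfold g₀
  rw [← div_eq_mul_inv, ← one_div, div_le_div_iff₀ (by positivity) (by positivity)]
  nlinarith [sq_nonneg t]

lemma g₀_cont : Continuous g₀ := by
  unfold g₀
  exact Continuous.inv₀ (by fun_prop) (fun t => by positivity)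

lemma g₀_int : Integrable g₀ := by
  refine Integrable.mono' (integrable_inv_one_add_sq.const_mul 4) g₀_cont.aestronglyMeasurable
    (Eventually.of_forall fun t => ?_)
  rw [Real.norm_of_nonneg (g₀_pos t).le]
  exact g₀_le t

/-- scaling of integrals against the weight -/
lemma g₀_scale (φ : ℝ → ℝ) {T : ℝ} (hT : 0 < T) :
    T * ∫ t : ℝ, g₀ t * φ (t / T) = ∫ x : ℝ, φ x / (x ^ 2 + (1 / (2 * T)) ^ 2) := by
  have h := MeasureTheory.Measure.integral_comp_mul_left (fun t : ℝ => g₀ t * φ (t / T)) T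
  rw [abs_of_pos (inv_pos.2 hT), smul_eq_mul] at h
  have h2 : T * ∫ t : ℝ, g₀ t * φ (t / T) = T ^ 2 * ∫ x : ℝ, g₀ (T * x) * φ (T * x / T) := by
    rw [h]; field_simp
  rw [h2, ← integral_const_mul]
  congr 1; funext x
  have e1 : T * x / T = x := by field_simp
  rw [e1]
  unfold g₀
  have h3 : x ^ 2 + (1 / (2 * T)) ^ 2 = (1 / 4 + (T * x) ^ 2) / T ^ 2 := by field_simp; ring
  rw [h3, div_div_eq_mul_div]
  have : (1 / 4 + (T * x) ^ 2) ≠ 0 := by positivity
  field_simp

lemma eps_tendsto : Tendsto (fun T : ℝ => (1 / (2 * T)) ^ 2) atTop (𝓝 0) := by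
  have h1 : Tendsto (fun T : ℝ => 1 / (2 * T)) atTop (𝓝 0) := by
    simp only [one_div]
    exact (tendsto_id.const_mul_atTop (two_pos)).inv_tendsto_atTop
  have := h1.pow 2
  simpa using this

lemma U₀_tendsto : Tendsto (fun T : ℝ => T * UU g₀ (1 / T) / 1) atTop (𝓝 π) := by
  have h1 : Tendsto (fun T : ℝ => ∫ x : ℝ, (1 - Real.cos x) / (x ^ 2 + (1 / (2 * T)) ^ 2)) atTop (𝓝 (∫ x, fk x)) := by
    refine tendsto_integral_filter_of_dominated_convergence fk ?_ ?_ fk_int ?_
    · refine Eventually.of_forall fun T => Measurable.aestronglyMeasurable (by fun_prop)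
    · refine Eventually.of_forall fun T => Eventually.of_forall fun x => ?_
      have h0 := Real.cos_le_one x
      rw [Real.norm_of_nonneg (div_nonneg (by linarith) (by positivity))]
      unfold fk
      by_cases hx : x = 0
      · subst hx; simp
      · apply div_le_div_of_nonneg_left (by linarith) (by positivity)
        have : 0 ≤ (1 / (2 * T)) ^ 2 := by positivity
        linarith
    · have hne : ∀ᵐ x : ℝ, x ≠ 0 := by
        rw [ae_iff]; simp
      filter_upwards [hne] with x hx
      unfold fk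
      have h2 : Tendsto (fun T : ℝ => x ^ 2 + (1 / (2 * T)) ^ 2) atTop (𝓝 (x ^ 2 + 0)) := eps_tendsto.const_add _
      rw [add_zero] at h2
      exact tendsto_const_nhds.div h2 (by positivity)
  rw [fk_integral] at h1
  refine h1.congr' ?_
  filter_upwards [eventually_gt_atTop 0] with T hT
  rw [← g₀_scale (fun x => 1 - Real.cos x) hT, div_one]
  congr 1
  unfold UU
  congr 1; funext t
  rw [mul_comm, one_div, inv_mul_eq_div]

lemma lam_eq {ψ : ℝ → ℝ} (hψ : Continuous ψ) (hψi : Integrable ψ) {X : ℝ → ℂ} (mX : Measurable X)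
    (iX : Integrable (fun ξ : ℝ => (1 + |ξ|) * ‖X ξ‖))
    (hinv : ∀ x : ℝ, ((x ^ 2 * ψ x : ℝ) : ℂ) = ∫ ξ : ℝ, X ξ * Complex.exp ((2 * π * ξ * x : ℝ) * Complex.I)) :
    (π : ℂ) * lam X = ((∫ x, ψ x : ℝ) : ℂ) := by
  have h1 := taub1 svOne g₀_int (fun t => (g₀_pos t).le) (fun t => by unfold g₀; rw [neg_sq]) U₀_tendsto
    mX iX hinv (by simp)
  have h2 : Tendsto (fun T : ℝ => ∫ x : ℝ, (x ^ 2 * ψ x) / (x ^ 2 + (1 / (2 * T)) ^ 2)) atTop (𝓝 (∫ x, ψ x)) := by
    refine tendsto_integral_filter_of_dominated_convergence (fun x => |ψ x|) ?_ ?_ hψi.abs ?_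
    · refine Eventually.of_forall fun T => Measurable.aestronglyMeasurable ?_
      have := hψ.measurable
      fun_prop
    · refine Eventually.of_forall fun T => Eventually.of_forall fun x => ?_
      by_cases hx : x = 0
      · subst hx; simp
      have hx2 : 0 < x ^ 2 := by positivity
      have h3 : 0 ≤ (1 / (2 * T)) ^ 2 := by positivity
      rw [Real.norm_eq_abs, abs_div, abs_mul, abs_of_pos hx2, abs_of_pos (by linarith : 0 < x ^ 2 + (1 / (2 * T)) ^ 2),
        div_le_iff₀ (by linarith)]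
      nlinarith [abs_nonneg (ψ x), mul_nonneg (abs_nonneg (ψ x)) h3]
    · have hne : ∀ᵐ x : ℝ, x ≠ 0 := by
        rw [ae_iff]; simp
      filter_upwards [hne] with x hx
      have h2 : Tendsto (fun T : ℝ => x ^ 2 + (1 / (2 * T)) ^ 2) atTop (𝓝 (x ^ 2 + 0)) := eps_tendsto.const_add _
      rw [add_zero] at h2
      have h3 := (tendsto_const_nhds (x := x ^ 2 * ψ x)).div h2 (by positivity)
      have e : x ^ 2 * ψ x / x ^ 2 = ψ x := by field_simp
      rwa [e] at h3
  have h3 : Tendsto (fun T : ℝ => ((∫ x : ℝ, (x ^ 2 * ψ x) / (x ^ 2 + (1 / (2 * T)) ^ 2) : ℝ) : ℂ)) atTop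
      (𝓝 ((∫ x, ψ x : ℝ) : ℂ)) := (Complex.continuous_ofReal.tendsto _).comp h2
  refine tendsto_nhds_unique (h1.congr' ?_) h3
  filter_upwards [eventually_gt_atTop 0] with T hT
  rw [← g₀_scale (fun x => x ^ 2 * ψ x) hT]
  push_cast
  rw [div_one, ← integral_complex_ofReal]
  congr 2; funext t
  push_cast
  ring

/-- averages with smooth compactly supported kernels -/
theorem taub2 {g L : ℝ → ℝ} (S : SV L) (ig : Integrable g) (g0 : ∀ t, 0 ≤ g t) (ge : ∀ t, g (-t) = g t) {c : ℝ}
    (hU : Tendsto (fun T => T * UU g (1 / T) / L T) atTop (𝓝 (π * c)))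
    {ψ : ℝ → ℝ} (hψ : ContDiff ℝ ∞ ψ) (hψc : HasCompactSupport ψ) :
    Tendsto (fun T : ℝ => (∫ t : ℝ, g t * t ^ 2 * ψ (t / T)) / (T * L T)) atTop (𝓝 (c * ∫ x, ψ x)) := by
  obtain ⟨X, mX, iX, hinv⟩ := kernel_data hψ hψc
  have h1 := taub1 S ig g0 ge hU mX iX hinv (by simp)
  have h2 := lam_eq hψ.continuous (hψ.continuous.integrable_of_hasCompactSupport hψc) mX iX hinv
  have h3 : (((π * c : ℝ) : ℂ) * lam X) = ((c * ∫ x, ψ x : ℝ) : ℂ) := by
    push_cast
    rw [← h2]; ring
  rw [h3] at h1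
  have h4 := (Complex.continuous_re.tendsto _).comp h1
  rw [Complex.ofReal_re] at h4
  refine h4.congr' ?_
  filter_upwards [eventually_gt_atTop 0] with T hT
  simp only [Function.comp]
  have e1 : (∫ t : ℝ, (g t : ℂ) * (((t / T) ^ 2 * ψ (t / T) : ℝ) : ℂ)) =
      (((∫ t : ℝ, g t * t ^ 2 * ψ (t / T)) / T ^ 2 : ℝ) : ℂ) := by
    rw [← integral_div, ← integral_complex_ofReal]
    congr 1; funext t
    push_cast
    field_simp
  rw [e1, ← Complex.ofReal_mul, Complex.ofReal_re]
  field_simp

lemma kint {g ψ : ℝ → ℝ} (ig : Integrable g) (hψ : Continuous ψ) (hψc : HasCompactSupport ψ) {T : ℝ} (hT : 0 < T) :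
    Integrable (fun t : ℝ => g t * t ^ 2 * ψ (t / T)) := by
  have h1 : Continuous (fun x : ℝ => x ^ 2 * ψ x) := by fun_prop
  have h2 : HasCompactSupport (fun x : ℝ => x ^ 2 * ψ x) := hψc.mul_left
  obtain ⟨M, hM⟩ := h1.bounded_above_of_compact_support h2
  have h3 : Integrable (fun t : ℝ => g t * (T ^ 2 * ((t / T) ^ 2 * ψ (t / T)))) := by
    refine Integrable.mul_bdd (c := T ^ 2 * M) ig (by fun_prop) (Eventually.of_forall fun t => ?_)
    rw [norm_mul, Real.norm_of_nonneg (by positivity)]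
    exact mul_le_mul_of_nonneg_left (hM _) (by positivity)
  refine h3.congr (Eventually.of_forall fun t => ?_)
  simp only
  field_simp

/-- **Tauberian theorem** for the kernel `1 - cos`. -/
theorem tauberian {g L : ℝ → ℝ} (S : SV L) (ig : Integrable g) (g0 : ∀ t, 0 ≤ g t) (ge : ∀ t, g (-t) = g t) {c : ℝ}
    (hc : 0 ≤ c) (hU : Tendsto (fun T => T * UU g (1 / T) / L T) atTop (𝓝 (π * c))) :
    Tendsto (fun T : ℝ => (∫ t in Icc (-T) T, g t * (1 / 4 + t ^ 2)) / (T * L T)) atTop (𝓝 (2 * c)) := by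
  have hTL : ∀ᶠ T in atTop, 0 < T * L T := by
    filter_upwards [eventually_ge_atTop S.T0] with T hT
    have h1 := S.low T hT
    have h2 := S.hc
    have h3 := S.hT0
    exact mul_pos (by linarith) (by linarith)
  have hB : Tendsto (fun T : ℝ => (∫ t in Icc (-T) T, g t * t ^ 2) / (T * L T)) atTop (𝓝 (2 * c)) := by
    rw [Metric.tendsto_atTop']
    intro ε hε
    set η : ℝ := min (1 / 2) (ε / (4 * (c + 1))) with hη
    have hη0 : 0 < η := lt_min (by norm_num) (by positivity)
    have hη1 : η < 1 := (min_le_left _ _).trans_lt (by norm_num)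
    have hηc : 2 * c * η ≤ ε / 2 := by
      have h1 : η ≤ ε / (4 * (c + 1)) := min_le_right _ _
      rw [le_div_iff₀ (by positivity)] at h1
      nlinarith [mul_nonneg hc hη0.le]
    let ψ₁ : ContDiffBump (0:ℝ) := ⟨1, 1 + η, one_pos, by linarith⟩
    let ψ₂ : ContDiffBump (0:ℝ) := ⟨1 - η, 1, by linarith, by linarith⟩
    have s1 : ∫ x, ψ₁ x ≤ 2 * (1 + η) := by
      have h1 : ∫ x, ψ₁ x ≤ ∫ x, (Metric.ball (0:ℝ) (1 + η)).indicator (fun _ => (1:ℝ)) x := by
        apply integral_mono ψ₁.integrable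
        · rw [integrable_indicator_iff Metric.isOpen_ball.measurableSet]
          exact integrableOn_const measure_ball_lt_top.ne
        · intro x
          by_cases hx : x ∈ Metric.ball (0:ℝ) (1 + η)
          · rw [indicator_of_mem hx]; exact ψ₁.le_one
          · rw [indicator_of_notMem hx]
            have : ψ₁ x = 0 := by
              apply ψ₁.zero_of_le_dist
              rw [Metric.mem_ball] at hx
              exact not_lt.1 hx
            rw [this]
      refine h1.trans (le_of_eq ?_)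
      rw [integral_indicator Metric.isOpen_ball.measurableSet, setIntegral_const, smul_eq_mul, mul_one,
        Real.volume_real_ball (by linarith)]
    have s2 : 2 * (1 - η) ≤ ∫ x, ψ₂ x := by
      have h1 : ∫ x, (Metric.closedBall (0:ℝ) (1 - η)).indicator (fun _ => (1:ℝ)) x ≤ ∫ x, ψ₂ x := by
        apply integral_mono _ ψ₂.integrable
        · intro x
          by_cases hx : x ∈ Metric.closedBall (0:ℝ) (1 - η)
          · rw [indicator_of_mem hx]
            exact (ψ₂.one_of_mem_closedBall hx).ge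
          · rw [indicator_of_notMem hx]; exact ψ₂.nonneg
        · rw [integrable_indicator_iff Metric.isClosed_closedBall.measurableSet]
          exact integrableOn_const measure_closedBall_lt_top.ne
      refine le_trans (le_of_eq ?_) h1
      rw [integral_indicator Metric.isClosed_closedBall.measurableSet, setIntegral_const, smul_eq_mul, mul_one,
        Real.volume_real_closedBall (by linarith)]
    have t1 := taub2 S ig g0 ge hU ψ₁.contDiff ψ₁.hasCompactSupport
    have t2 := taub2 S ig g0 ge hU ψ₂.contDiff ψ₂.hasCompactSupport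
    have e1 := t1.eventually (Metric.ball_mem_nhds _ (by positivity : 0 < ε / 2))
    have e2 := t2.eventually (Metric.ball_mem_nhds _ (by positivity : 0 < ε / 2))
    obtain ⟨N, hN⟩ := eventually_atTop.1 ((e1.and e2).and (hTL.and (eventually_gt_atTop 0)))
    refine ⟨N, fun T hT => ?_⟩
    obtain ⟨⟨g1, g2⟩, g3, hT0⟩ := hN T hT.le
    simp only [Real.dist_eq, abs_lt] at g1 g2
    rw [Real.dist_eq, abs_lt]
    have i1 := kint ig ψ₁.continuous ψ₁.hasCompactSupport hT0
    have i2 := kint ig ψ₂.continuous ψ₂.hasCompactSupport hT0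
    have k1 : (∫ t in Icc (-T) T, g t * t ^ 2) ≤ ∫ t : ℝ, g t * t ^ 2 * ψ₁ (t / T) := by
      have hi : IntegrableOn (fun t => g t * t ^ 2) (Icc (-T) T) := by
        refine IntegrableOn.congr_fun (f := fun t : ℝ => g t * t ^ 2 * ψ₁ (t / T)) i1.integrableOn (fun t ht => ?_)
          measurableSet_Icc
        have : ψ₁ (t / T) = 1 := by
          apply ψ₁.one_of_mem_closedBall
          rw [Metric.mem_closedBall, Real.dist_eq, sub_zero, abs_div, abs_of_pos hT0]
          rw [div_le_one hT0]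
          exact abs_le.2 ht
        simp only
        rw [this, mul_one]
      rw [← integral_indicator measurableSet_Icc]
      apply integral_mono (hi.integrable_indicator measurableSet_Icc) i1
      intro t
      by_cases ht : t ∈ Icc (-T) T
      · rw [indicator_of_mem ht]
        have : ψ₁ (t / T) = 1 := by
          apply ψ₁.one_of_mem_closedBall
          rw [Metric.mem_closedBall, Real.dist_eq, sub_zero, abs_div, abs_of_pos hT0]
          rw [div_le_one hT0]
          exact abs_le.2 ht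
        simp only
        rw [this, mul_one]
      · rw [indicator_of_notMem ht]
        exact mul_nonneg (mul_nonneg (g0 t) (sq_nonneg t)) ψ₁.nonneg
    have k2 : (∫ t : ℝ, g t * t ^ 2 * ψ₂ (t / T)) ≤ ∫ t in Icc (-T) T, g t * t ^ 2 := by
      have hi : IntegrableOn (fun t => g t * t ^ 2) (Icc (-T) T) := by
        refine IntegrableOn.congr_fun (f := fun t : ℝ => g t * t ^ 2 * ψ₁ (t / T)) i1.integrableOn (fun t ht => ?_)
          measurableSet_Icc
        have : ψ₁ (t / T) = 1 := by
          apply ψ₁.one_of_mem_closedBall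
          rw [Metric.mem_closedBall, Real.dist_eq, sub_zero, abs_div, abs_of_pos hT0]
          rw [div_le_one hT0]
          exact abs_le.2 ht
        simp only
        rw [this, mul_one]
      rw [← integral_indicator measurableSet_Icc]
      apply integral_mono i2 (hi.integrable_indicator measurableSet_Icc)
      intro t
      by_cases ht : t ∈ Icc (-T) T
      · rw [indicator_of_mem ht]
        have h1 : ψ₂ (t / T) ≤ 1 := ψ₂.le_one
        have h2 : 0 ≤ g t * t ^ 2 := mul_nonneg (g0 t) (sq_nonneg t)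
        calc g t * t ^ 2 * ψ₂ (t / T) ≤ g t * t ^ 2 * 1 := mul_le_mul_of_nonneg_left h1 h2
          _ = _ := mul_one _
      · rw [indicator_of_notMem ht]
        have : ψ₂ (t / T) = 0 := by
          apply ψ₂.zero_of_le_dist
          show (1:ℝ) ≤ dist (t / T) 0
          rw [Real.dist_eq, sub_zero, abs_div, abs_of_pos hT0, le_div_iff₀ hT0, one_mul]
          by_contra hcon
          exact ht (abs_le.1 (not_le.1 hcon).le)
        simp only
        rw [this, mul_zero]
    have k1' := div_le_div_of_nonneg_right k1 g3.le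
    have k2' := div_le_div_of_nonneg_right k2 g3.le
    have c1 : c * ∫ x, ψ₁ x ≤ c * (2 * (1 + η)) := mul_le_mul_of_nonneg_left s1 hc
    have c2 : c * (2 * (1 - η)) ≤ c * ∫ x, ψ₂ x := mul_le_mul_of_nonneg_left s2 hc
    constructor
    · linarith [g2.1]
    · linarith [g1.2]
  -- the lower order term
  have hlow : Tendsto (fun T : ℝ => (∫ t in Icc (-T) T, g t * (1 / 4)) / (T * L T)) atTop (𝓝 0) := by
    have h1 : Tendsto (fun T : ℝ => ((∫ t, g t) * (1 / 4)) / (T * S.c)) atTop (𝓝 0) := by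
      apply Tendsto.div_atTop tendsto_const_nhds
      exact tendsto_id.atTop_mul_const S.hc
    refine squeeze_zero' ?_ ?_ h1
    · filter_upwards [hTL] with T hT
      exact div_nonneg (integral_nonneg fun t => mul_nonneg (g0 t) (by norm_num)) hT.le
    · filter_upwards [hTL, eventually_ge_atTop S.T0] with T hT hT0
      have h2 := S.low T hT0
      have h3 := S.hc
      have h4 : 0 < T := by linarith [S.hT0]
      apply div_le_div₀
      · exact mul_nonneg (integral_nonneg g0) (by norm_num)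
      · rw [integral_mul_const]
        apply mul_le_mul_of_nonneg_right _ (by norm_num)
        exact setIntegral_le_integral ig (Eventually.of_forall g0)
      · positivity
      · gcongr
  have h := hlow.add hB
  rw [zero_add] at h
  refine h.congr' ?_
  filter_upwards [eventually_gt_atTop 0] with T hT0
  rw [← add_div, ← integral_add]
  · congr 2; funext t; ring
  · exact (ig.mul_const _).integrableOn
  · have hb : ∀ t ∈ Icc (-T) T, ‖t ^ 2‖ ≤ T ^ 2 := by
      intro t ht
      rw [Real.norm_of_nonneg (sq_nonneg t)]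
      exact sq_le_sq' ht.1 ht.2
    have : IntegrableOn (fun t => g t * t ^ 2) (Icc (-T) T) := by
      refine Integrable.mul_bdd (c := T ^ 2) ig.integrableOn (by fun_prop) ?_
      filter_upwards [ae_restrict_mem measurableSet_Icc] with t ht
      exact hb t ht
    exact this

end Pool.Agent.N798.V
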