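import Pool.Agent.W184.Refl
import Pool.Agent.Y755.Res
import Pool.Agent.Y755.Fin4

set_option autoImplicit false

/-! Upper bounds of the expected order for the moments of zeta on the critical line, all orders `0 < p ≤ 4`. -/

namespace Pool.Agent.N798.Z

open MeasureTheory Filter Topology Pool.Agent.W184 Pool.Agent.Y755 Set

lemma quart (t w : ℝ) : (1 + (t + w) ^ 2) ^ 2 ≤ 4 * (1 + t ^ 2) ^ 2 * (1 + w ^ 2) ^ 2 := by
  have h1 : 1 + (t + w) ^ 2 ≤ 2 * (1 + t ^ 2) * (1 + w ^ 2) := by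
    nlinarith [sq_nonneg (t - w), sq_nonneg (t * w), sq_nonneg t, sq_nonneg w]
  have h0 : 0 ≤ 1 + (t + w) ^ 2 := by positivity
  calc (1 + (t + w) ^ 2) ^ 2 ≤ (2 * (1 + t ^ 2) * (1 + w ^ 2)) ^ 2 := pow_le_pow_left₀ h0 h1 2
    _ = _ := by ring

theorem avg_le4 {K G H : ℝ → ℝ} {T U B : ℝ} (hT : 0 ≤ T) (hU : 0 ≤ U) (hB : 0 ≤ B)
    (hKc : Continuous K) (hK0 : ∀ w, 0 ≤ K w) (hKi : Integrable fun w => K w * (1 + w ^ 2) ^ 2)
    (hKi0 : Integrable K)
    (hGc : Continuous G) (hG0 : ∀ x, 0 ≤ G x) (hGB : ∀ x, G x ≤ B * (1 + x ^ 2) ^ 2)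
    (hHc : Continuous H) (hH : ∀ t ∈ Icc 0 T, H t ≤ ∫ w, K w * G (t + w)) :
    ∫ t in (0:ℝ)..T, H t ≤ (∫ w, K w) * (∫ t in (-U)..(T + U), G t) +
      T * (4 * B * (1 + T ^ 2) ^ 2) * ∫ w in {w : ℝ | U < |w|}, K w * (1 + w ^ 2) ^ 2 := by
  have hcont : Continuous fun q : ℝ × ℝ => K q.2 * G (q.1 + q.2) := by fun_prop
  have hbd : ∀ t ∈ Ioc 0 T, ∀ w, K w * G (t + w) ≤ 4 * B * (1 + T ^ 2) ^ 2 * (K w * (1 + w ^ 2) ^ 2) := by
    intro t ht w
    have h1 : G (t + w) ≤ B * (4 * (1 + T ^ 2) ^ 2 * (1 + w ^ 2) ^ 2) := by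
      refine (hGB _).trans ?_
      refine mul_le_mul_of_nonneg_left ((quart t w).trans ?_) hB
      have h2 : t ^ 2 ≤ T ^ 2 := pow_le_pow_left₀ ht.1.le ht.2 2
      gcongr
    calc K w * G (t + w) ≤ K w * (B * (4 * (1 + T ^ 2) ^ 2 * (1 + w ^ 2) ^ 2)) :=
          mul_le_mul_of_nonneg_left h1 (hK0 w)
      _ = _ := by ring
  have hint : Integrable (fun q : ℝ × ℝ => K q.2 * G (q.1 + q.2))
      ((volume.restrict (Ioc 0 T)).prod volume) := by
    have h1 : Integrable (fun q : ℝ × ℝ => (1:ℝ) * (4 * B * (1 + T ^ 2) ^ 2 * (K q.2 * (1 + q.2 ^ 2) ^ 2)))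
        ((volume.restrict (Ioc 0 T)).prod volume) :=
      Integrable.mul_prod (integrable_const (1:ℝ)) (hKi.const_mul _)
    refine h1.mono' hcont.aestronglyMeasurable ?_
    have h2 : ((volume.restrict (Ioc 0 T)).prod (volume : Measure ℝ)) =
        (volume.prod volume).restrict (Ioc (0:ℝ) T ×ˢ univ) := by
      rw [← Measure.prod_restrict, Measure.restrict_univ]
    rw [h2]
    refine (ae_restrict_mem (measurableSet_Ioc.prod MeasurableSet.univ)).mono fun q hq => ?_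
    rw [Real.norm_of_nonneg (mul_nonneg (hK0 _) (hG0 _)), one_mul]
    exact hbd q.1 hq.1 q.2
  have s1 : ∫ t in (0:ℝ)..T, H t ≤ ∫ t in Ioc 0 T, ∫ w, K w * G (t + w) := by
    rw [intervalIntegral.integral_of_le hT]
    refine setIntegral_mono_on ?_ ?_ measurableSet_Ioc ?_
    · exact (hHc.integrableOn_Icc (a := 0) (b := T)).mono_set Ioc_subset_Icc_self
    · exact hint.integral_prod_left
    · intro t ht
      exact hH t (Ioc_subset_Icc_self ht)
  have s2 : ∫ t in Ioc 0 T, ∫ w, K w * G (t + w) = ∫ w, ∫ t in Ioc 0 T, K w * G (t + w) :=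
    integral_integral_swap hint
  rw [s2] at s1
  refine s1.trans ?_
  have hms : MeasurableSet {w : ℝ | U < |w|} := measurableSet_lt measurable_const measurable_abs
  set E : ℝ := ∫ t in (-U)..(T + U), G t with hE
  have hE0 : 0 ≤ E := intervalIntegral.integral_nonneg (by linarith) fun x _ => hG0 x
  have hgi : Integrable fun w => K w * E + ({w : ℝ | U < |w|}).indicator
      (fun w => T * (4 * B * (1 + T ^ 2) ^ 2) * (K w * (1 + w ^ 2) ^ 2)) w :=
    (hKi0.mul_const E).add ((hKi.const_mul _).indicator hms)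
  have s3 : ∫ w, ∫ t in Ioc 0 T, K w * G (t + w) ≤ ∫ w, (K w * E + ({w : ℝ | U < |w|}).indicator
      (fun w => T * (4 * B * (1 + T ^ 2) ^ 2) * (K w * (1 + w ^ 2) ^ 2)) w) := by
    refine integral_mono_of_nonneg (Filter.Eventually.of_forall fun w => ?_) hgi
      (Filter.Eventually.of_forall fun w => ?_)
    · exact integral_nonneg fun t => mul_nonneg (hK0 w) (hG0 _)
    · simp only
      have hcw : Continuous fun t => K w * G (t + w) := by fun_prop
      by_cases hw : U < |w|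
      · rw [indicator_of_mem (show w ∈ {w : ℝ | U < |w|} from hw)]
        have h4 : ∫ t in Ioc 0 T, K w * G (t + w) ≤ ∫ t in Ioc 0 T, 4 * B * (1 + T ^ 2) ^ 2 * (K w * (1 + w ^ 2) ^ 2) := by
          refine setIntegral_mono_on ?_ ?_ measurableSet_Ioc fun t ht => hbd t ht w
          · exact (hcw.integrableOn_Icc (a := 0) (b := T)).mono_set Ioc_subset_Icc_self
          · exact integrableOn_const (by simp)
        rw [setIntegral_const, Measure.real, Real.volume_Ioc, sub_zero,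
          ENNReal.toReal_ofReal hT, smul_eq_mul] at h4
        have h5 := mul_nonneg (hK0 w) hE0
        calc ∫ t in Ioc 0 T, K w * G (t + w) ≤ T * (4 * B * (1 + T ^ 2) ^ 2 * (K w * (1 + w ^ 2) ^ 2)) := h4
          _ = T * (4 * B * (1 + T ^ 2) ^ 2) * (K w * (1 + w ^ 2) ^ 2) := by ring
          _ ≤ _ := by linarith
      · rw [indicator_of_notMem (show w ∉ {w : ℝ | U < |w|} from hw), add_zero, integral_const_mul]
        refine mul_le_mul_of_nonneg_left ?_ (hK0 w)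
        push Not at hw
        have hw' := abs_le.mp hw
        rw [← intervalIntegral.integral_of_le hT, intervalIntegral.integral_comp_add_right
          (fun x => G x), hE]
        refine intervalIntegral.integral_mono_interval (by linarith) (by linarith) (by linarith)
          (Filter.Eventually.of_forall fun x => hG0 x) (hGc.intervalIntegrable _ _)
  refine s3.trans (le_of_eq ?_)
  rw [integral_add (hKi0.mul_const E) ((hKi.const_mul _).indicator hms), integral_mul_const,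
    integral_indicator hms, integral_const_mul]

lemma tail_int4 {K : ℝ → ℝ} {A U : ℝ} (hA : 0 ≤ A) (hU : 1 ≤ U) (hKc : Continuous K) (hK0 : ∀ w, 0 ≤ K w)
    (hK : ∀ w, K w ≤ A * (1 + w ^ 2) ^ (-(16:ℝ))) :
    (Integrable fun w => K w * (1 + w ^ 2) ^ 2) ∧
    ∫ w in {w : ℝ | U < |w|}, K w * (1 + w ^ 2) ^ 2 ≤ Real.pi * A * (U ^ 26)⁻¹ := by
  have hi := integrable_inv_one_add_sq
  have hp : ∀ w : ℝ, (1 + w ^ 2) ^ (-(16:ℝ)) = ((1 + w ^ 2)⁻¹) ^ 16 := by
    intro w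
    have h0 : 0 < 1 + w ^ 2 := by positivity
    rw [Real.rpow_neg h0.le, inv_pow]
    norm_num
  have h1 : ∀ w : ℝ, 0 < (1 + w ^ 2)⁻¹ ∧ (1 + w ^ 2)⁻¹ ≤ 1 := by
    intro w
    have h0 : 0 < 1 + w ^ 2 := by positivity
    refine ⟨by positivity, ?_⟩
    rw [inv_le_one_iff₀]; right; nlinarith [sq_nonneg w]
  have hb : ∀ w : ℝ, K w * (1 + w ^ 2) ^ 2 ≤ A * ((1 + w ^ 2)⁻¹) ^ 13 * (1 + w ^ 2)⁻¹ := by
    intro w
    have h0 : 0 < 1 + w ^ 2 := by positivity
    calc K w * (1 + w ^ 2) ^ 2 ≤ (A * (1 + w ^ 2) ^ (-(16:ℝ))) * (1 + w ^ 2) ^ 2 :=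
          mul_le_mul_of_nonneg_right (hK w) (by positivity)
      _ = A * (((1 + w ^ 2)⁻¹) ^ 14 * ((1 + w ^ 2)⁻¹ * (1 + w ^ 2)) ^ 2) := by rw [hp]; ring
      _ = _ := by rw [inv_mul_cancel₀ h0.ne']; ring
  have i2 : Integrable fun w => K w * (1 + w ^ 2) ^ 2 := by
    refine (hi.const_mul A).mono' (by fun_prop) (Filter.Eventually.of_forall fun w => ?_)
    have h2 : 0 ≤ (1 + w ^ 2) ^ 2 := by positivity
    rw [Real.norm_of_nonneg (mul_nonneg (hK0 w) h2)]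
    refine (hb w).trans (mul_le_mul_of_nonneg_right ?_ (h1 w).1.le)
    exact mul_le_of_le_one_right hA (pow_le_one₀ (h1 w).1.le (h1 w).2)
  refine ⟨i2, ?_⟩
  have hms : MeasurableSet {w : ℝ | U < |w|} := measurableSet_lt measurable_const measurable_abs
  have hU0 : 0 < U := by linarith
  have b1 : ∫ w in {w : ℝ | U < |w|}, K w * (1 + w ^ 2) ^ 2 ≤
      ∫ w in {w : ℝ | U < |w|}, A * (U ^ 26)⁻¹ * (1 + w ^ 2)⁻¹ := by
    refine setIntegral_mono_on i2.integrableOn (hi.const_mul _).integrableOn hms fun w hw => ?_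
    have hw' : U < |w| := hw
    refine (hb w).trans (mul_le_mul_of_nonneg_right (mul_le_mul_of_nonneg_left ?_ hA) (h1 w).1.le)
    have h4 : (1 + w ^ 2)⁻¹ ≤ (U ^ 2)⁻¹ := by
      refine inv_anti₀ (by positivity) ?_
      have : U ^ 2 ≤ |w| ^ 2 := pow_le_pow_left₀ hU0.le hw'.le 2
      rw [sq_abs] at this
      linarith
    calc ((1 + w ^ 2)⁻¹) ^ 13 ≤ ((U ^ 2)⁻¹) ^ 13 := pow_le_pow_left₀ (h1 w).1.le h4 13
      _ = (U ^ 26)⁻¹ := by rw [inv_pow, ← pow_mul]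
  refine b1.trans ?_
  rw [integral_const_mul]
  have b2 : ∫ w in {w : ℝ | U < |w|}, (1 + w ^ 2)⁻¹ ≤ Real.pi := by
    rw [← integral_univ_inv_one_add_sq]
    refine setIntegral_le_integral hi (Filter.Eventually.of_forall fun w => ?_)
    exact (h1 w).1.le
  calc A * (U ^ 26)⁻¹ * ∫ w in {w : ℝ | U < |w|}, (1 + w ^ 2)⁻¹ ≤
      A * (U ^ 26)⁻¹ * Real.pi := mul_le_mul_of_nonneg_left b2 (by positivity)
    _ = _ := by ring

lemma fe_p4 {Δ τ p X : ℝ} (hp : 0 < p) (hp2 : p ≤ 4) (h0 : 0 ≤ Δ) (h1 : Δ ≤ 1 / 8) (hX : 1 ≤ X)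
    (ht : |τ| ≤ X) :
    zn (1 / 2 - Δ) τ ^ p ≤ X ^ (p * Δ) * (3 * zn (1 / 2 + Δ) τ ^ p + 3000000000000) := by
  have hX0 : 0 < X := by linarith
  have hXp : 1 ≤ X ^ (p * Δ) := Real.one_le_rpow hX (by positivity)
  wlog hτ : 0 ≤ τ generalizing τ with H
  · have := H (τ := -τ) (by rwa [abs_neg]) (by linarith)
    rwa [zn_neg, zn_neg] at this
  rw [abs_of_nonneg hτ] at ht
  have hz := zn_nonneg (1 / 2 + Δ) τ
  have hzp : 0 ≤ zn (1 / 2 + Δ) τ ^ p := Real.rpow_nonneg hz _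
  rcases le_or_gt 100 τ with h100 | h100
  · have hf := fe_pos h0 h1 h100
    have hτ0 : 0 < τ := by linarith
    have h3 : τ ^ Δ ≤ X ^ Δ := Real.rpow_le_rpow hτ0.le ht h0
    have h4 : 16 / τ ≤ 16 / 100 := div_le_div_of_nonneg_left (by norm_num) (by norm_num) h100
    have h2 : zn (1 / 2 - Δ) τ ≤ X ^ Δ * (1.2 * zn (1 / 2 + Δ) τ) := by
      calc zn (1 / 2 - Δ) τ ≤ τ ^ Δ * (1 + 16 / τ) * zn (1 / 2 + Δ) τ := hf
        _ ≤ X ^ Δ * 1.2 * zn (1 / 2 + Δ) τ := by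
            gcongr
            linarith
        _ = _ := by ring
    have h12 : (1.2 : ℝ) ^ p ≤ 3 := by
      calc (1.2 : ℝ) ^ p ≤ (1.2 : ℝ) ^ (4:ℝ) := Real.rpow_le_rpow_of_exponent_le (by norm_num) hp2
        _ ≤ 3 := by norm_num
    calc zn (1 / 2 - Δ) τ ^ p ≤ (X ^ Δ * (1.2 * zn (1 / 2 + Δ) τ)) ^ p :=
          Real.rpow_le_rpow (zn_nonneg _ _) h2 hp.le
      _ = X ^ (p * Δ) * ((1.2 : ℝ) ^ p * zn (1 / 2 + Δ) τ ^ p) := by
          rw [Real.mul_rpow (by positivity) (by positivity), ← Real.rpow_mul hX0.le,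
            Real.mul_rpow (by norm_num) hz, mul_comm Δ p]
      _ ≤ X ^ (p * Δ) * (3 * zn (1 / 2 + Δ) τ ^ p + 3000000000000) := by
          refine mul_le_mul_of_nonneg_left ?_ (by positivity)
          have := mul_le_mul_of_nonneg_right h12 hzp
          linarith
  · have h5 := zn_le' (σ := 1 / 2 - Δ) (t := τ) (by linarith) (by linarith)
    rw [abs_of_nonneg hτ] at h5
    have h6 : zn (1 / 2 - Δ) τ ≤ 1212 := by linarith
    calc zn (1 / 2 - Δ) τ ^ p ≤ (1212:ℝ) ^ p := Real.rpow_le_rpow (zn_nonneg _ _) h6 hp.le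
      _ ≤ (1212:ℝ) ^ (4:ℝ) := Real.rpow_le_rpow_of_exponent_le (by norm_num) hp2
      _ ≤ 1 * (3 * 0 + 3000000000000) := by norm_num
      _ ≤ _ := by gcongr

lemma zp_sq {σ x p : ℝ} (hp : 0 < p) (hp2 : p ≤ 4) (h1 : 3 / 8 ≤ σ) (h2 : σ ≤ 3 / 4) :
    zn σ x ^ p ≤ 82944 * (1 + x ^ 2) ^ 2 := by
  have h3 := zn_le' (t := x) h1 h2
  have h4 : (1:ℝ) ≤ 12 * (1 + |x|) := by linarith [abs_nonneg x]
  have h5 : (1 + |x|) ^ 2 ≤ 2 * (1 + x ^ 2) := by
    have : |x| ^ 2 = x ^ 2 := sq_abs x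
    nlinarith [sq_nonneg (|x| - 1)]
  calc zn σ x ^ p ≤ (12 * (1 + |x|)) ^ p := Real.rpow_le_rpow (zn_nonneg _ _) h3 hp.le
    _ ≤ (12 * (1 + |x|)) ^ (4:ℝ) := Real.rpow_le_rpow_of_exponent_le h4 hp2
    _ = (12 * (1 + |x|)) ^ 4 := by exact_mod_cast Real.rpow_natCast (12 * (1 + |x|)) 4
    _ = 20736 * ((1 + |x|) ^ 2) ^ 2 := by ring
    _ ≤ 20736 * (2 * (1 + x ^ 2)) ^ 2 := by gcongr
    _ = _ := by ring

lemma conv_int4 {K G : ℝ → ℝ} {B : ℝ} (hB : 0 ≤ B) (hKc : Continuous K) (hK0 : ∀ w, 0 ≤ K w)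
    (hKi : Integrable fun w => K w * (1 + w ^ 2) ^ 2) (hGc : Continuous G) (hG0 : ∀ x, 0 ≤ G x)
    (hGB : ∀ x, G x ≤ B * (1 + x ^ 2) ^ 2) (t : ℝ) : Integrable fun w => K w * G (t + w) := by
  refine (hKi.const_mul (4 * B * (1 + t ^ 2) ^ 2)).mono' (by fun_prop) (Eventually.of_forall fun w => ?_)
  rw [Real.norm_of_nonneg (mul_nonneg (hK0 w) (hG0 _))]
  have h1 : G (t + w) ≤ B * (4 * (1 + t ^ 2) ^ 2 * (1 + w ^ 2) ^ 2) := by
    refine (hGB _).trans (mul_le_mul_of_nonneg_left (quart t w) hB)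
  calc K w * G (t + w) ≤ K w * (B * (4 * (1 + t ^ 2) ^ 2 * (1 + w ^ 2) ^ 2)) := mul_le_mul_of_nonneg_left h1 (hK0 w)
    _ = _ := by ring

lemma even_int {f : ℝ → ℝ} (hf : Continuous f) (he : ∀ x, f (-x) = f x) (h0 : ∀ x, 0 ≤ f x) {T : ℝ} (hT : 0 ≤ T) :
    ∫ t in (-T)..(2 * T), f t ≤ 2 * ∫ t in (0:ℝ)..(2 * T), f t := by
  have h1 : ∫ t in (-T)..(2 * T), f t = (∫ t in (-T)..0, f t) + ∫ t in (0:ℝ)..(2 * T), f t :=
    (intervalIntegral.integral_add_adjacent_intervals (hf.intervalIntegrable _ _) (hf.intervalIntegrable _ _)).symm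
  have h2 : ∫ t in (-T)..0, f t = ∫ t in (0:ℝ)..T, f t := by
    have := intervalIntegral.integral_comp_neg (a := (0:ℝ)) (b := T) (f := f)
    rw [neg_zero] at this
    rw [← this]
    refine intervalIntegral.integral_congr fun x _ => ?_
    exact he x
  have h3 : ∫ t in (0:ℝ)..T, f t ≤ ∫ t in (0:ℝ)..(2 * T), f t :=
    intervalIntegral.integral_mono_interval le_rfl hT (by linarith) (Eventually.of_forall fun x => h0 x)
      (hf.intervalIntegrable _ _)
  linarith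

theorem refl4 {p Δ T A : ℝ} (hp : 0 < p) (hp2 : p ≤ 4) (h0 : 0 < Δ) (h1 : Δ ≤ 1 / 8)
    (hT : 1 ≤ T) (hA0 : 0 ≤ A) (hA : ∀ w : ℝ, Real.exp (-(p * w ^ 2)) ≤ A * (1 + w ^ 2) ^ (-(16:ℝ))) :
    ∫ t in (0:ℝ)..T, zn (1 / 2) t ^ p ≤
      Real.exp (p * Δ ^ 2) * (2 * T) ^ (p * Δ / 2) *
        (4 * (∫ t in (0:ℝ)..(2 * T), zn (1 / 2 + Δ) t ^ p) + 4500000000000 * T) +
      T * (4 * (331776 * T) * (1 + T ^ 2) ^ 2) * (Real.pi * (Real.exp (p * Δ ^ 2) * A / Δ) * (T ^ 26)⁻¹) := by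
  have hT0 : 0 < T := by linarith
  set X : ℝ := 2 * T with hX
  have hX1 : 1 ≤ X := by linarith
  have hX0 : 0 < X := by linarith
  set K : ℝ → ℝ := fun w => KS Δ w * Real.exp (p * (Δ ^ 2 - w ^ 2)) with hK
  have hKc : Continuous K := (KS_cont h0).mul (by fun_prop)
  have hK0 : ∀ w, 0 ≤ K w := fun w => mul_nonneg (KS_nonneg h0 w) (Real.exp_pos _).le
  have hKe : ∀ w, K w = Real.exp (p * Δ ^ 2) * (KS Δ w * Real.exp (-(p * w ^ 2))) := by
    intro w
    simp only [hK]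
    rw [show p * (Δ ^ 2 - w ^ 2) = p * Δ ^ 2 + -(p * w ^ 2) by ring, Real.exp_add]
    ring
  have hKb : ∀ w, K w ≤ (Real.exp (p * Δ ^ 2) * A / Δ) * (1 + w ^ 2) ^ (-(16:ℝ)) := by
    intro w
    rw [hKe]
    have := KS_le h0 w
    have h3 := hA w
    calc Real.exp (p * Δ ^ 2) * (KS Δ w * Real.exp (-(p * w ^ 2))) ≤
        Real.exp (p * Δ ^ 2) * (1 / Δ * (A * (1 + w ^ 2) ^ (-(16:ℝ)))) := by
          gcongr
      _ = _ := by ring
  obtain ⟨i1, -, -⟩ := tail_int (A := Real.exp (p * Δ ^ 2) * A / Δ) (U := 1) (by positivity) le_rfl hKc hK0 hKb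
  obtain ⟨i2, i3⟩ := tail_int4 (A := Real.exp (p * Δ ^ 2) * A / Δ) (U := T) (by positivity) hT hKc hK0 hKb
  have hKm : ∫ w, K w ≤ Real.exp (p * Δ ^ 2) / 2 := by
    calc ∫ w, K w ≤ ∫ w, Real.exp (p * Δ ^ 2) * KS Δ w := by
          refine integral_mono i1 ((KS_integrable h0).const_mul _) fun w => ?_
          beta_reduce
          rw [hKe]
          have h3 : Real.exp (-(p * w ^ 2)) ≤ 1 := by
            rw [Real.exp_le_one_iff]
            have : 0 ≤ p * w ^ 2 := by positivity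
            linarith
          have h4 := KS_nonneg h0 w
          have h5 : KS Δ w * Real.exp (-(p * w ^ 2)) ≤ KS Δ w := mul_le_of_le_one_right h4 h3
          exact mul_le_mul_of_nonneg_left h5 (Real.exp_pos _).le
      _ = _ := by rw [integral_const_mul, KS_integral h0]; ring
  set G : ℝ → ℝ := fun x => X ^ (p * Δ / 2) * zn (1 / 2 + Δ) x ^ p +
    X ^ (-(p * Δ / 2)) * zn (1 / 2 - Δ) x ^ p with hG
  have hc1 := zp_cont (σ := 1 / 2 + Δ) (by linarith) hp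
  have hc2 := zp_cont (σ := 1 / 2 - Δ) (by linarith) hp
  have hGc : Continuous G := (continuous_const.mul hc1).add (continuous_const.mul hc2)
  have hz1 : ∀ x, 0 ≤ zn (1 / 2 + Δ) x ^ p := fun x => Real.rpow_nonneg (zn_nonneg _ _) _
  have hz2 : ∀ x, 0 ≤ zn (1 / 2 - Δ) x ^ p := fun x => Real.rpow_nonneg (zn_nonneg _ _) _
  have hXp : X ^ (p * Δ / 2) ≤ X := rpow_le_self_of_one_le' hX1 (by nlinarith)
  have hXn : X ^ (-(p * Δ / 2)) ≤ X := rpow_le_self_of_one_le' hX1 (by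
    have : 0 ≤ p * Δ / 2 := by positivity
    linarith)
  have hXp0 : 0 < X ^ (p * Δ / 2) := by positivity
  have hXn0 : 0 < X ^ (-(p * Δ / 2)) := by positivity
  have hG0 : ∀ x, 0 ≤ G x := fun x => by
    have := hz1 x
    have := hz2 x
    simp only [hG]
    positivity
  have hGB1 : ∀ x, X ^ (p * Δ / 2) * zn (1 / 2 + Δ) x ^ p ≤ (82944 * X) * (1 + x ^ 2) ^ 2 := by
    intro x
    have := zp_sq (x := x) hp hp2 (σ := 1 / 2 + Δ) (by linarith) (by linarith)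
    calc X ^ (p * Δ / 2) * zn (1 / 2 + Δ) x ^ p ≤ X * (82944 * (1 + x ^ 2) ^ 2) :=
          mul_le_mul hXp this (hz1 x) hX0.le
      _ = _ := by ring
  have hGB2 : ∀ x, X ^ (-(p * Δ / 2)) * zn (1 / 2 - Δ) x ^ p ≤ (82944 * X) * (1 + x ^ 2) ^ 2 := by
    intro x
    have := zp_sq (x := x) hp hp2 (σ := 1 / 2 - Δ) (by linarith) (by linarith)
    calc X ^ (-(p * Δ / 2)) * zn (1 / 2 - Δ) x ^ p ≤ X * (82944 * (1 + x ^ 2) ^ 2) :=
          mul_le_mul hXn this (hz2 x) hX0.le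
      _ = _ := by ring
  have hGB : ∀ x, G x ≤ (331776 * T) * (1 + x ^ 2) ^ 2 := by
    intro x
    have h3 := hGB1 x
    have h4 := hGB2 x
    have : (331776 * T) * (1 + x ^ 2) ^ 2 = (82944 * X) * (1 + x ^ 2) ^ 2 + (82944 * X) * (1 + x ^ 2) ^ 2 := by rw [hX]; ring
    rw [this]
    exact add_le_add h3 h4
  have hpt : ∀ t ∈ Set.Icc 0 T, zn (1 / 2) t ^ p ≤ ∫ w, K w * G (t + w) := by
    intro t _
    have h3 := refl_pt (t := t) hp h0 h1 hX1
    have j1 := conv_int4 (G := fun x => X ^ (p * Δ / 2) * zn (1 / 2 + Δ) x ^ p) (B := 82944 * X)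
      (by positivity) hKc hK0 i2 (continuous_const.mul hc1)
      (fun x => mul_nonneg hXp0.le (hz1 x)) hGB1 t
    have j2 := conv_int4 (G := fun x => X ^ (-(p * Δ / 2)) * zn (1 / 2 - Δ) x ^ p) (B := 82944 * X)
      (by positivity) hKc hK0 i2 (continuous_const.mul hc2)
      (fun x => mul_nonneg hXn0.le (hz2 x)) hGB2 t
    refine h3.trans (le_of_eq ?_)
    rw [← integral_add j1 j2]
    refine integral_congr_ae (Eventually.of_forall fun w => ?_)
    simp only [hG, hK]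
    ring
  have hmain := avg_le4 (K := K) (G := G) (H := fun t => zn (1 / 2) t ^ p) (T := T) (U := T) (B := 331776 * T)
    hT0.le (by linarith) (by positivity) hKc hK0 i2 i1 hGc hG0 hGB (zp_cont (by norm_num) hp) hpt
  refine hmain.trans (add_le_add ?_ (mul_le_mul_of_nonneg_left i3 (by positivity)))
  have e2T : T + T = 2 * T := by ring
  rw [e2T]
  have hb1 : ∫ t in (-T)..(2 * T), G t ≤ ∫ t in (-T)..(2 * T), X ^ (p * Δ / 2) *
      (4 * zn (1 / 2 + Δ) t ^ p + 3000000000000) := by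
    refine intervalIntegral.integral_mono_on (by linarith) (hGc.intervalIntegrable _ _)
      (Continuous.intervalIntegrable (continuous_const.mul ((continuous_const.mul hc1).add continuous_const)) _ _)
      fun x hx => ?_
    have hx2 : |x| ≤ X := by
      rw [abs_le]; constructor <;> linarith [hx.1, hx.2]
    have h3 := fe_p4 (τ := x) hp hp2 h0.le h1 hX1 hx2
    have h4 : X ^ (-(p * Δ / 2)) * X ^ (p * Δ) = X ^ (p * Δ / 2) := by
      rw [← Real.rpow_add hX0]; congr 1; ring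
    have h5 := mul_le_mul_of_nonneg_left h3 hXn0.le
    rw [← mul_assoc, h4] at h5
    simp only [hG]
    have h6 := hz1 x
    nlinarith
  have hb2 : ∫ t in (-T)..(2 * T), X ^ (p * Δ / 2) * (4 * zn (1 / 2 + Δ) t ^ p + 3000000000000) ≤
      X ^ (p * Δ / 2) * (8 * (∫ t in (0:ℝ)..(2 * T), zn (1 / 2 + Δ) t ^ p) + 9000000000000 * T) := by
    rw [intervalIntegral.integral_const_mul]
    refine mul_le_mul_of_nonneg_left ?_ (by positivity)
    have hc3 : Continuous fun t => 4 * zn (1 / 2 + Δ) t ^ p := continuous_const.mul hc1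
    rw [intervalIntegral.integral_add (hc3.intervalIntegrable _ _) intervalIntegrable_const,
      intervalIntegral.integral_const, smul_eq_mul, intervalIntegral.integral_const_mul]
    have h3 := even_int hc1 (fun x => by rw [zn_neg]) hz1 hT0.le
    have h4 : (2 * T - -T) * 3000000000000 = 9000000000000 * T := by ring
    linarith
  have hE0 : 0 ≤ ∫ t in (-T)..(2 * T), G t :=
    intervalIntegral.integral_nonneg (by linarith) fun x _ => hG0 x
  calc (∫ w, K w) * ∫ t in (-T)..(2 * T), G t ≤ (Real.exp (p * Δ ^ 2) / 2) *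
      (X ^ (p * Δ / 2) * (8 * (∫ t in (0:ℝ)..(2 * T), zn (1 / 2 + Δ) t ^ p) + 9000000000000 * T)) :=
        mul_le_mul hKm (hb1.trans hb2) hE0 (by positivity)
    _ = _ := by ring

lemma tail_small {T P L A lam Δ e : ℝ} (hT : 1 ≤ T) (hP1 : 1 ≤ P) (hA : 0 < A) (hlam : 0 < lam) (hL : 0 < L)
    (he0 : 0 < e) (he : e ≤ Real.exp 1) (hΔ0 : 0 < Δ) (hΔ : 1 / Δ ≤ 1 / lam * (2 * L))
    (h4 : 5308416 * Real.pi * (Real.exp 1 * A) / lam * 2 * (T ^ (-(21:ℝ)) * L ^ (1:ℝ)) ≤ 1) :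
    T * (4 * (331776 * T) * (1 + T ^ 2) ^ 2) * (Real.pi * (e * A / Δ) * (T ^ 26)⁻¹) ≤ T * P := by
  have hT0 : 0 < T := by linarith
  have g1 : e * A / Δ ≤ Real.exp 1 * A / lam * (2 * L) := by
    calc e * A / Δ ≤ Real.exp 1 * A / Δ := by gcongr
      _ = Real.exp 1 * A * (1 / Δ) := by ring
      _ ≤ Real.exp 1 * A * (1 / lam * (2 * L)) := by gcongr
      _ = _ := by ring
  have g2 : 1 + T ^ 2 ≤ 2 * T ^ 2 := by nlinarith
  have g3 : T ^ (-(21:ℝ)) = (T ^ 21)⁻¹ := by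
    rw [Real.rpow_neg hT0.le]
    congr 1
    exact_mod_cast Real.rpow_natCast T 21
  rw [g3, Real.rpow_one] at h4
  have g5 : 0 ≤ e * A / Δ := by positivity
  have hpi := Real.pi_pos
  have g6 : Real.pi * (e * A / Δ) * (T ^ 26)⁻¹ ≤ Real.pi * (Real.exp 1 * A / lam * (2 * L)) * (T ^ 26)⁻¹ := by
    gcongr
  have g7 : T * (4 * (331776 * T) * (1 + T ^ 2) ^ 2) ≤ T * (4 * (331776 * T) * (2 * T ^ 2) ^ 2) := by gcongr
  have g8 : T * (4 * (331776 * T) * (2 * T ^ 2) ^ 2) * (Real.pi * (Real.exp 1 * A / lam * (2 * L)) * (T ^ 26)⁻¹) =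
      T * (5308416 * Real.pi * (Real.exp 1 * A) / lam * 2 * ((T ^ 21)⁻¹ * L)) := by
    have : (T ^ 26)⁻¹ = (T ^ 21)⁻¹ * (T ^ 5)⁻¹ := by
      rw [← mul_inv, ← pow_add]
    rw [this]
    field_simp
    ring
  calc T * (4 * (331776 * T) * (1 + T ^ 2) ^ 2) * (Real.pi * (e * A / Δ) * (T ^ 26)⁻¹) ≤ _ :=
        mul_le_mul g7 g6 (by positivity) (by positivity)
    _ = _ := g8
    _ ≤ T * 1 := mul_le_mul_of_nonneg_left h4 hT0.le
    _ ≤ T * P := mul_le_mul_of_nonneg_left hP1 hT0.le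

lemma near_up {α : ℝ} (hα : 0 < α) (hα2 : α ≤ 2) :
    ∃ lam : ℝ, 1 ≤ lam ∧ ∀ᶠ X : ℝ in atTop, ∀ δ : ℝ, lam / Real.log X ≤ δ → δ ≤ 1 / 16 →
      ∫ t in (0:ℝ)..X, zn (1 / 2 + δ) t ^ (2 * α) ≤ (1 + 1) * (X * DD α δ) := by
  rcases le_or_gt α 1 with h | h
  · exact full_up hα h one_pos
  · exact full_up4 h.le hα2 one_pos

/-- the size of the Dirichlet series at `lam / log X` -/
lemma DD_size {α lam : ℝ} (hα : 0 < α) (hα2 : α ≤ 2) (hl1 : 1 ≤ lam) :
    ∃ D : ℝ, 0 < D ∧ ∀ᶠ T : ℝ in atTop, DD α (lam / Real.log (2 * T)) ≤ D * Real.log T ^ (α ^ 2) := by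
  have hl0 : 0 < lam := by linarith
  have hδ0 : ∀ᶠ X : ℝ in atTop, 0 < lam / Real.log X := by
    filter_upwards [eventually_gt_atTop 1] with X hX
    exact div_pos hl0 (Real.log_pos hX)
  have hδ1 : Tendsto (fun X : ℝ => lam / Real.log X) atTop (𝓝 0) :=
    Real.tendsto_log_atTop.const_div_atTop lam
  have hDD := DD_asym hα hδ0 hδ1
  set a := Pool.Agent.H306R2.aF α with ha
  have ha0 : 0 < a := Pool.Agent.H306R2.aF_pos hα
  refine ⟨(a + 1) * 16, by positivity, ?_⟩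
  have hev1 : ∀ᶠ X : ℝ in atTop, (2 * (lam / Real.log X)) ^ (α ^ 2) * DD α (lam / Real.log X) ≤ a + 1 :=
    hDD.eventually (ge_mem_nhds (by linarith))
  filter_upwards [two_mul_tendsto.eventually hev1, eventually_ge_atTop 3] with T h2 hT3
  have hT0 : 0 < T := by linarith
  have hL1 : 1 ≤ Real.log T := by
    rw [Real.le_log_iff_exp_le hT0]
    linarith [Real.exp_one_lt_d9]
  have hL0 : 0 < Real.log T := by linarith
  set L2 := Real.log (2 * T) with hL2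
  have hL20 : 0 < L2 := Real.log_pos (by linarith)
  have hL2T : L2 ≤ 2 * Real.log T := by
    rw [hL2, Real.log_mul (by norm_num) hT0.ne']
    have : Real.log 2 ≤ 1 := by
      have := Real.log_two_lt_d9
      linarith
    linarith
  set Δ := lam / L2 with hΔ
  have hΔ0 : 0 < Δ := by positivity
  set q := α ^ 2 with hq
  have hq0 : 0 < q := by positivity
  have hq1 : q ≤ 4 := by rw [hq]; nlinarith
  have hDb : DD α Δ ≤ (a + 1) * L2 ^ q := by
    have h6 : (L2⁻¹) ^ q ≤ (2 * Δ) ^ q := by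
      refine Real.rpow_le_rpow (by positivity) ?_ hq0.le
      rw [hΔ, inv_eq_one_div, ← mul_div_assoc]
      exact div_le_div_of_nonneg_right (by linarith) hL20.le
    have hDD1 := DD_ge_one hα hΔ0
    have h7 : (L2⁻¹) ^ q * DD α Δ ≤ a + 1 :=
      (mul_le_mul_of_nonneg_right h6 (by linarith)).trans h2
    rw [Real.inv_rpow hL20.le, inv_mul_le_iff₀ (by positivity)] at h7
    linarith
  have hL2q : L2 ^ q ≤ 16 * Real.log T ^ q := by
    calc L2 ^ q ≤ (2 * Real.log T) ^ q := Real.rpow_le_rpow hL20.le hL2T hq0.le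
      _ = 2 ^ q * Real.log T ^ q := Real.mul_rpow (by norm_num) hL0.le
      _ ≤ 16 * Real.log T ^ q := by
        refine mul_le_mul_of_nonneg_right ?_ (by positivity)
        calc (2:ℝ) ^ q ≤ (2:ℝ) ^ (4:ℝ) := Real.rpow_le_rpow_of_exponent_le (by norm_num) hq1
          _ = 16 := by norm_num
  calc DD α Δ ≤ (a + 1) * L2 ^ q := hDb
    _ ≤ (a + 1) * (16 * Real.log T ^ q) := mul_le_mul_of_nonneg_left hL2q (by linarith)
    _ = _ := by ring

set_option maxHeartbeats 1000000 in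
/-- the moments on the line, `0 < p ≤ 4` -/
theorem mom_line {p : ℝ} (hp : 0 < p) (hp4 : p ≤ 4) :
    ∃ C : ℝ, 0 < C ∧ ∀ᶠ T : ℝ in atTop, ∫ t in (0:ℝ)..T, zn (1 / 2) t ^ p ≤ C * (T * Real.log T ^ (p ^ 2 / 4)) := by
  have hα : 0 < p / 2 := by positivity
  have hα2 : p / 2 ≤ 2 := by linarith
  obtain ⟨lam, hl1, hup⟩ := near_up hα hα2
  obtain ⟨D0, hD0, hsize⟩ := DD_size hα hα2 hl1
  have hl0 : 0 < lam := by linarith
  set A : ℝ := Real.exp p * (Nat.factorial 16) / p ^ 16 with hA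
  have hA0 : 0 < A := by positivity
  have e2 : (p / 2) ^ 2 = p ^ 2 / 4 := by ring
  rw [e2] at hsize
  set q := p ^ 2 / 4 with hq
  have hq0 : 0 < q := by positivity
  set C0 : ℝ := Real.exp 1 * Real.exp (2 * lam) with hC0
  refine ⟨C0 * (16 * D0 + 4500000000000) + 1, by positivity, ?_⟩
  have hδ1 : Tendsto (fun X : ℝ => lam / Real.log X) atTop (𝓝 0) :=
    Real.tendsto_log_atTop.const_div_atTop lam
  have hsm : ∀ᶠ T : ℝ in atTop, 5308416 * Real.pi * (Real.exp 1 * A) / lam * 2 * (T ^ (-(21:ℝ)) * Real.log T ^ (1:ℝ)) ≤ 1 :=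
    small_pow (-21) 1 _ (by norm_num)
  filter_upwards [two_mul_tendsto.eventually hup, hsize,
    two_mul_tendsto.eventually (hδ1.eventually (gt_mem_nhds (show (0:ℝ) < 1 / 16 by norm_num))),
    hsm, eventually_ge_atTop 3] with T h1 h2 h3 h4 hT3
  have hT0 : 0 < T := by linarith
  have hL1 : 1 ≤ Real.log T := by
    rw [Real.le_log_iff_exp_le hT0]
    linarith [Real.exp_one_lt_d9]
  have hL0 : 0 < Real.log T := by linarith
  set L2 := Real.log (2 * T) with hL2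
  have hL20 : 0 < L2 := Real.log_pos (by linarith)
  have hL2T : L2 ≤ 2 * Real.log T := by
    rw [hL2, Real.log_mul (by norm_num) hT0.ne']
    have : Real.log 2 ≤ 1 := by
      have := Real.log_two_lt_d9
      linarith
    linarith
  set Δ := lam / L2 with hΔ
  have hΔ0 : 0 < Δ := by positivity
  have hΔ1 : Δ ≤ 1 / 16 := h3.le
  have h5 := h1 Δ le_rfl hΔ1
  have e1 : 2 * (p / 2) = p := by ring
  rw [e1] at h5
  set P := Real.log T ^ q with hP
  have hP1 : 1 ≤ P := Real.one_le_rpow hL1 hq0.le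
  have hr := refl4 (T := T) hp hp4 hΔ0 (by linarith) (by linarith) hA0.le (gauss_poly hp)
  have hpΔ : Real.exp (p * Δ ^ 2) ≤ Real.exp 1 := Real.exp_le_exp.mpr (by nlinarith)
  have hXd : (2 * T) ^ (p * Δ / 2) ≤ Real.exp (2 * lam) := by
    rw [Real.rpow_def_of_pos (by linarith)]
    refine Real.exp_le_exp.mpr ?_
    rw [← hL2, hΔ]
    have : L2 * (p * (lam / L2) / 2) = p / 2 * lam := by field_simp
    rw [this]
    nlinarith
  set I := ∫ t in (0:ℝ)..(2 * T), zn (1 / 2 + Δ) t ^ p with hI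
  have hI0 : 0 ≤ I := intervalIntegral.integral_nonneg (by linarith) fun x _ => Real.rpow_nonneg (zn_nonneg _ _) _
  have hmain : Real.exp (p * Δ ^ 2) * (2 * T) ^ (p * Δ / 2) * (4 * I + 4500000000000 * T) ≤
        C0 * (16 * D0 + 4500000000000) * (T * P) := by
    have h8 : 4 * I + 4500000000000 * T ≤ (16 * D0 + 4500000000000) * (T * P) := by
      have h9 : I ≤ 4 * (T * (D0 * P)) := by
        refine h5.trans ?_
        have := mul_le_mul_of_nonneg_left h2 hT0.le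
        linarith
      have h10 : T ≤ T * P := le_mul_of_one_le_right hT0.le hP1
      have h11 : 0 ≤ T * (D0 * P) := by positivity
      nlinarith
    calc _ ≤ Real.exp 1 * Real.exp (2 * lam) * ((16 * D0 + 4500000000000) * (T * P)) := by gcongr
      _ = _ := by rw [hC0]; ring
  have htail : T * (4 * (331776 * T) * (1 + T ^ 2) ^ 2) * (Real.pi * (Real.exp (p * Δ ^ 2) * A / Δ) * (T ^ 26)⁻¹) ≤ T * P := by
    refine tail_small (by linarith) hP1 hA0 hl0 hL0 (Real.exp_pos _) hpΔ hΔ0 ?_ h4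
    rw [hΔ, one_div_div, div_mul_eq_mul_div, one_mul]
    exact div_le_div_of_nonneg_right hL2T hl0.le
  have : C0 * (16 * D0 + 4500000000000) * (T * P) + T * P = (C0 * (16 * D0 + 4500000000000) + 1) * (T * P) := by ring
  linarith

end Pool.Agent.N798.Z
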