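import Pool.Agent.N798.Z9

set_option autoImplicit false

/-! The powers `(n + 1) ^ g` satisfy the hypotheses. -/

namespace Pool.Agent.N798.Z

open Filter Topology

lemma step_ge_one {g : ℝ} (hg : 1 ≤ g) {a : ℝ} (ha : 1 ≤ a) : 1 ≤ (a + 1) ^ g - a ^ g := by
  have ha0 : 0 < a := by linarith
  have h1 : a ^ (g - 1) ≤ (a + 1) ^ (g - 1) := Real.rpow_le_rpow ha0.le (by linarith) (by linarith)
  have h2 : 1 ≤ a ^ (g - 1) := Real.one_le_rpow ha (by linarith)
  have e1 : (a + 1) ^ g = (a + 1) ^ (g - 1) * (a + 1) := by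
    rw [← Real.rpow_add_one (by linarith)]; congr 1; ring
  have e2 : a ^ g = a ^ (g - 1) * a := by
    rw [← Real.rpow_add_one ha0.ne']; congr 1; ring
  rw [e1, e2]
  nlinarith

lemma step_ge {g : ℝ} (hg0 : 0 < g) (hg : g ≤ 1) {a : ℝ} (ha : 1 ≤ a) : g * (a + 1) ^ (g - 1) ≤ (a + 1) ^ g - a ^ g := by
  have ha0 : 0 < a := by linarith
  have hb : 0 < a + 1 := by linarith
  have h1 := rpow_one_add_le_one_add_mul_self (s := -(1 / (a + 1))) (by
    have : 1 / (a + 1) ≤ 1 := by rw [div_le_one hb]; linarith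
    linarith) hg0.le hg
  have e1 : 1 + -(1 / (a + 1)) = a / (a + 1) := by field_simp; ring
  rw [e1, Real.div_rpow ha0.le hb.le, div_le_iff₀ (by positivity)] at h1
  have e2 : (a + 1) ^ (g - 1) = (a + 1) ^ g / (a + 1) := by rw [Real.rpow_sub_one hb.ne']
  rw [e2]
  have e3 : (1 + g * -(1 / (a + 1))) * (a + 1) ^ g = (a + 1) ^ g - g * ((a + 1) ^ g / (a + 1)) := by ring
  linarith

theorem pow_seq {g : ℝ} (hg : 0 < g) : Seq (fun n : ℕ => ((n:ℝ) + 1) ^ g) g := by
  refine ⟨hg, fun n => by positivity, ?_, fun η hη => ?_⟩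
  · have h1 : Tendsto (fun n : ℕ => Real.log ((n:ℝ) + 1) / Real.log n) atTop (𝓝 1) := by
      have h2 : Tendsto (fun n : ℕ => Real.log 2 / Real.log n) atTop (𝓝 0) :=
        (Real.tendsto_log_atTop.comp tendsto_natCast_atTop_atTop).const_div_atTop _
      have h3 : Tendsto (fun n : ℕ => 1 + Real.log 2 / Real.log n) atTop (𝓝 1) := by
        simpa using h2.const_add 1
      refine tendsto_of_tendsto_of_tendsto_of_le_of_le' tendsto_const_nhds h3 ?_ ?_
      · filter_upwards [eventually_ge_atTop 2] with n hn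
        have hn1 : (1:ℝ) < n := by exact_mod_cast (by omega : 1 < n)
        rw [le_div_iff₀ (Real.log_pos hn1), one_mul]
        exact Real.log_le_log (by linarith) (by linarith)
      · filter_upwards [eventually_ge_atTop 2] with n hn
        have hn1 : (1:ℝ) < n := by exact_mod_cast (by omega : 1 < n)
        have hl := Real.log_pos hn1
        have h5 : Real.log (2 * (n:ℝ)) = Real.log 2 + Real.log n :=
          Real.log_mul (by norm_num) (by linarith : (0:ℝ) < n).ne'
        have h6 : Real.log ((n:ℝ) + 1) ≤ Real.log (2 * (n:ℝ)) := Real.log_le_log (by linarith) (by linarith)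
        rw [div_le_iff₀ hl, add_mul, div_mul_cancel₀ _ hl.ne', one_mul]
        linarith
    have h4 := h1.const_mul g
    rw [mul_one] at h4
    refine h4.congr fun n => ?_
    rw [Real.log_rpow (by positivity), mul_div_assoc]
  · rcases le_or_gt 1 g with h1 | h1
    · filter_upwards [eventually_ge_atTop 1] with n hn
      have hn1 : (1:ℝ) ≤ n := by exact_mod_cast hn
      rw [min_eq_right h1]
      have h2 := step_ge_one h1 (a := (n:ℝ) + 1) (by linarith)
      have h3 : (n:ℝ) ^ (1 - 1 - η) ≤ 1 := Real.rpow_le_one_of_one_le_of_nonpos hn1 (by linarith)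
      push_cast
      linarith
    · rw [min_eq_left h1.le]
      filter_upwards [big_pow (1 / (g * 3 ^ (g - 1))) hη, eventually_ge_atTop 1] with n h2 hn
      have hn1 : (1:ℝ) ≤ n := by exact_mod_cast hn
      have hn0 : (0:ℝ) < n := by linarith
      have h3 := step_ge hg h1.le (a := (n:ℝ) + 1) (by linarith)
      push_cast
      refine le_trans ?_ h3
      have h4 : (3 * (n:ℝ)) ^ (g - 1) ≤ ((n:ℝ) + 1 + 1) ^ (g - 1) :=
        Real.rpow_le_rpow_of_nonpos (by linarith) (by linarith) (by linarith)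
      rw [Real.mul_rpow (by norm_num) hn0.le] at h4
      rw [div_le_iff₀ (by positivity)] at h2
      have h5 : (n:ℝ) ^ (g - 1 - η) * (n:ℝ) ^ η = (n:ℝ) ^ (g - 1) := by
        rw [← Real.rpow_add hn0]; congr 1; ring
      calc (n:ℝ) ^ (g - 1 - η) = (n:ℝ) ^ (g - 1 - η) * 1 := (mul_one _).symm
        _ ≤ (n:ℝ) ^ (g - 1 - η) * ((n:ℝ) ^ η * (g * 3 ^ (g - 1))) := mul_le_mul_of_nonneg_left h2 (by positivity)
        _ = g * (3 ^ (g - 1) * (n:ℝ) ^ (g - 1)) := by rw [← mul_assoc, h5]; ring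
        _ ≤ _ := mul_le_mul_of_nonneg_left h4 hg.le

end Pool.Agent.N798.Z
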