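import Mathlib

set_option autoImplicit false

/-! Correlations of a bounded function along `u + c a`, `u + c b` for `(c, u)` in a rectangle. -/

namespace Pool.Agent.N798.Z

open MeasureTheory Filter Set

/-- the hypotheses on the function -/
structure Osc (φ : ℝ → ℝ) (Y D M : ℝ) : Prop where
  meas : Measurable φ
  bdd : ∀ y, |φ y| ≤ 1
  prim : ∀ s t, Y ≤ s → s ≤ t → |∫ y in s..t, φ y| ≤ D
  abs : ∀ s t, Y ≤ s → s ≤ t → ∫ y in s..t, |φ y| ≤ M * (t - s + 2)

lemma bdd_int {φ : ℝ → ℝ} (hm : Measurable φ) (hb : ∀ y, |φ y| ≤ 1) (s : Set ℝ) (hs : volume s ≠ ⊤) :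
    IntegrableOn φ s :=
  Measure.integrableOn_of_bounded (M := 1) hs hm.aestronglyMeasurable (Eventually.of_forall fun y => hb y)

variable {φ : ℝ → ℝ} {Y D M u0 u1 c0 c1 a b : ℝ}

/-- the inner integral over `c` -/
lemma inner_c (h : Osc φ Y D M) (ha : 0 < a) (hab : a < b) (hD : 0 ≤ D) (hc0 : 0 < c0)
    (hY : Y ≤ u0 + c0 * b) (y : ℝ) :
    |∫ c in Icc c0 c1, (Icc u0 u1).indicator (fun _ => (1:ℝ)) (y - c * a) * φ (y + c * (b - a))| ≤ D / (b - a) := by
  have hba : 0 < b - a := by linarith
  have e1 : ∀ c, (Icc u0 u1).indicator (fun _ => (1:ℝ)) (y - c * a) =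
      (Icc ((y - u1) / a) ((y - u0) / a)).indicator (fun _ => (1:ℝ)) c := by
    intro c
    have : y - c * a ∈ Icc u0 u1 ↔ c ∈ Icc ((y - u1) / a) ((y - u0) / a) := by
      rw [mem_Icc, mem_Icc, div_le_iff₀ ha, le_div_iff₀ ha]
      constructor <;> rintro ⟨h1, h2⟩ <;> constructor <;> linarith
    by_cases hc : y - c * a ∈ Icc u0 u1
    · rw [indicator_of_mem hc, indicator_of_mem (this.mp hc)]
    · rw [indicator_of_notMem hc, indicator_of_notMem (fun h2 => hc (this.mpr h2))]
  simp_rw [e1]
  have e2 : ∀ c, (Icc ((y - u1) / a) ((y - u0) / a)).indicator (fun _ => (1:ℝ)) c * φ (y + c * (b - a)) =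
      (Icc ((y - u1) / a) ((y - u0) / a)).indicator (fun c => φ (y + c * (b - a))) c := by
    intro c
    by_cases hc : c ∈ Icc ((y - u1) / a) ((y - u0) / a)
    · rw [indicator_of_mem hc, indicator_of_mem hc, one_mul]
    · rw [indicator_of_notMem hc, indicator_of_notMem hc, zero_mul]
  simp_rw [e2]
  rw [setIntegral_indicator measurableSet_Icc, Icc_inter_Icc]
  set l := max c0 ((y - u1) / a) with hl
  set r := min c1 ((y - u0) / a) with hr
  rcases le_or_gt l r with hlr | hlr
  · rw [integral_Icc_eq_integral_Ioc, ← intervalIntegral.integral_of_le hlr]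
    have e3 : ∫ c in l..r, φ (y + c * (b - a)) = (b - a)⁻¹ * ∫ s in (y + l * (b - a))..(y + r * (b - a)), φ s := by
      have := intervalIntegral.integral_comp_mul_add (a := l) (b := r) φ hba.ne' y
      rw [smul_eq_mul] at this
      rw [show y + l * (b - a) = (b - a) * l + y by ring, show y + r * (b - a) = (b - a) * r + y by ring, ← this]
      refine intervalIntegral.integral_congr fun c _ => ?_
      rw [show y + c * (b - a) = (b - a) * c + y by ring]
    rw [e3, abs_mul, abs_of_pos (inv_pos.mpr hba), div_eq_inv_mul]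
    refine mul_le_mul_of_nonneg_left (h.prim _ _ ?_ ?_) (inv_pos.mpr hba).le
    · -- y + l (b - a) ≥ u0 + c0 b
      have h1 : l ≤ (y - u0) / a := hlr.trans (min_le_right _ _)
      rw [le_div_iff₀ ha] at h1
      have h2 : c0 ≤ l := le_max_left _ _
      have h3 : c0 * b ≤ l * b := mul_le_mul_of_nonneg_right h2 (by linarith)
      nlinarith
    · have := mul_le_mul_of_nonneg_right hlr hba.le
      linarith
  · rw [Icc_eq_empty (not_le.mpr hlr)]
    simp only [Measure.restrict_empty, integral_zero_measure, abs_zero]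
    positivity

/-- the product measure -/
noncomputable def box (c0 c1 u0 u1 : ℝ) : Measure (ℝ × ℝ) :=
  (volume.restrict (Icc c0 c1)).prod (volume.restrict (Icc u0 u1))

instance : IsFiniteMeasure (volume.restrict (Icc u0 u1)) := by infer_instance

instance : IsFiniteMeasure (box c0 c1 u0 u1) := by unfold box; infer_instance

lemma pt_meas (h : Measurable φ) (a : ℝ) : Measurable fun q : ℝ × ℝ => φ (q.2 + q.1 * a) := by fun_prop

lemma box_int {f : ℝ × ℝ → ℝ} {K : ℝ} (hf : Measurable f) (hb : ∀ q, |f q| ≤ K) : Integrable f (box c0 c1 u0 u1) :=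
  Integrable.of_bound hf.aestronglyMeasurable K (Eventually.of_forall hb)

/-- the correlation -/
theorem corr (h : Osc φ Y D M) (ha : 0 < a) (hab : a < b) (hD : 0 ≤ D) (hc0 : 0 < c0) (hc : c0 ≤ c1)
    (hu : u0 ≤ u1) (hY : Y ≤ u0 + c0 * a) :
    |∫ q, φ (q.2 + q.1 * a) * φ (q.2 + q.1 * b) ∂(box c0 c1 u0 u1)| ≤
      D / (b - a) * (M * ((u1 + c1 * a) - (u0 + c0 * a) + 2)) := by
  have hba : 0 < b - a := by linarith
  set A := u0 + c0 * a with hA
  set B := u1 + c1 * a with hB
  have hcm : c0 * a ≤ c1 * a := mul_le_mul_of_nonneg_right hc ha.le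
  have hAB : A ≤ B := by linarith
  have hm := h.meas
  have hb1 := h.bdd
  unfold box
  rw [integral_prod _ (box_int (c0 := c0) (c1 := c1) (u0 := u0) (u1 := u1) (K := 1)
    (by have := pt_meas hm a; have := pt_meas hm b; fun_prop) (fun q => by
      rw [abs_mul]
      exact mul_le_one₀ (hb1 _) (abs_nonneg _) (hb1 _)))]
  -- substitute u = y - c a
  have s1 : ∀ c ∈ Icc c0 c1, ∫ u in Icc u0 u1, φ (u + c * a) * φ (u + c * b) =
      ∫ y in Icc A B, φ y * ((Icc u0 u1).indicator (fun _ => (1:ℝ)) (y - c * a) * φ (y + c * (b - a))) := by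
    intro c hcc
    have g1 : c0 * a ≤ c * a := mul_le_mul_of_nonneg_right hcc.1 ha.le
    have g2 : c * a ≤ c1 * a := mul_le_mul_of_nonneg_right hcc.2 ha.le
    rw [← integral_indicator measurableSet_Icc, ← integral_indicator measurableSet_Icc]
    rw [← integral_sub_right_eq_self (fun u => (Icc u0 u1).indicator (fun u => φ (u + c * a) * φ (u + c * b)) u) (c * a)]
    refine integral_congr_ae (Eventually.of_forall fun y => ?_)
    simp only
    by_cases hy : y - c * a ∈ Icc u0 u1
    · have hy2 : y ∈ Icc A B := by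
        obtain ⟨k1, k2⟩ := hy
        constructor <;> linarith
      rw [indicator_of_mem hy, indicator_of_mem hy2, indicator_of_mem hy, one_mul]
      congr 2
      · ring
      · ring
    · rw [indicator_of_notMem hy]
      by_cases hy2 : y ∈ Icc A B
      · rw [indicator_of_mem hy2, indicator_of_notMem hy]; ring
      · rw [indicator_of_notMem hy2]
  rw [setIntegral_congr_fun measurableSet_Icc s1]
  -- swap
  have hmeas2 : Measurable (Function.uncurry fun (c y : ℝ) =>
      φ y * ((Icc u0 u1).indicator (fun _ => (1:ℝ)) (y - c * a) * φ (y + c * (b - a)))) := by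
    unfold Function.uncurry
    refine Measurable.mul (hm.comp measurable_snd) (Measurable.mul ?_ ?_)
    · exact (measurable_const.indicator measurableSet_Icc).comp (by fun_prop)
    · exact hm.comp (by fun_prop)
  have hbd2 : ∀ c y : ℝ, |(Icc u0 u1).indicator (fun _ => (1:ℝ)) (y - c * a) * φ (y + c * (b - a))| ≤ 1 := by
    intro c y
    rw [abs_mul]
    refine mul_le_one₀ ?_ (abs_nonneg _) (hb1 _)
    by_cases hy : y - c * a ∈ Icc u0 u1
    · rw [indicator_of_mem hy, abs_one]
    · rw [indicator_of_notMem hy, abs_zero]; norm_num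
  rw [integral_integral_swap (Integrable.of_bound (C := 1) hmeas2.aestronglyMeasurable (Eventually.of_forall fun q => by
    unfold Function.uncurry
    rw [Real.norm_eq_abs, abs_mul]
    exact mul_le_one₀ (hb1 _) (abs_nonneg _) (hbd2 _ _)))]
  simp_rw [integral_const_mul]
  -- bound
  have hin : ∀ y, |∫ c in Icc c0 c1, (Icc u0 u1).indicator (fun _ => (1:ℝ)) (y - c * a) * φ (y + c * (b - a))| ≤
      D / (b - a) := fun y => inner_c h ha hab hD hc0 (by
        have : c0 * a ≤ c0 * b := mul_le_mul_of_nonneg_left hab.le hc0.le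
        linarith) y
  have hI : IntegrableOn (fun y => |φ y|) (Icc A B) := (bdd_int hm hb1 _ (by simp)).abs
  calc |∫ y in Icc A B, φ y * ∫ c in Icc c0 c1, (Icc u0 u1).indicator (fun _ => (1:ℝ)) (y - c * a) *
        φ (y + c * (b - a))| ≤ ∫ y in Icc A B, |φ y * ∫ c in Icc c0 c1,
          (Icc u0 u1).indicator (fun _ => (1:ℝ)) (y - c * a) * φ (y + c * (b - a))| := abs_integral_le_integral_abs
    _ ≤ ∫ y in Icc A B, |φ y| * (D / (b - a)) := by
        refine integral_mono_of_nonneg (Eventually.of_forall fun y => abs_nonneg _) (hI.mul_const _)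
          (Eventually.of_forall fun y => ?_)
        simp only
        rw [abs_mul]
        exact mul_le_mul_of_nonneg_left (hin y) (abs_nonneg _)
    _ = D / (b - a) * ∫ y in A..B, |φ y| := by
        rw [integral_mul_const, intervalIntegral.integral_of_le hAB, integral_Icc_eq_integral_Ioc, mul_comm]
    _ ≤ _ := mul_le_mul_of_nonneg_left (h.abs A B hY hAB) (by positivity)

/-- the diagonal -/
theorem diag (h : Osc φ Y D M) (ha : 0 < a) (hc0 : 0 < c0) (hc : c0 ≤ c1)
    (hu : u0 ≤ u1) (hY : Y ≤ u0 + c0 * a) :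
    |∫ q, φ (q.2 + q.1 * a) * φ (q.2 + q.1 * a) ∂(box c0 c1 u0 u1)| ≤ (c1 - c0) * (M * (u1 - u0 + 2)) := by
  have hm := h.meas
  have hb1 := h.bdd
  have hmq := pt_meas hm a
  have hi : Integrable (fun q : ℝ × ℝ => |φ (q.2 + q.1 * a)|) (box c0 c1 u0 u1) :=
    box_int (K := 1) hmq.abs (fun q => by rw [abs_abs]; exact hb1 _)
  have h1 : |∫ q, φ (q.2 + q.1 * a) * φ (q.2 + q.1 * a) ∂(box c0 c1 u0 u1)| ≤
      ∫ q, |φ (q.2 + q.1 * a)| ∂(box c0 c1 u0 u1) := by
    refine abs_integral_le_integral_abs.trans ?_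
    refine integral_mono_of_nonneg (Eventually.of_forall fun y => abs_nonneg _) hi (Eventually.of_forall fun q => ?_)
    simp only
    rw [abs_mul]
    exact mul_le_of_le_one_right (abs_nonneg _) (hb1 _)
  refine h1.trans ?_
  unfold box at hi ⊢
  rw [integral_prod _ hi]
  have h2 : ∀ c ∈ Icc c0 c1, ∫ u in Icc u0 u1, |φ (u + c * a)| ≤ M * (u1 - u0 + 2) := by
    intro c hcc
    have g1 : c0 * a ≤ c * a := mul_le_mul_of_nonneg_right hcc.1 ha.le
    rw [integral_Icc_eq_integral_Ioc, ← intervalIntegral.integral_of_le hu,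
      intervalIntegral.integral_comp_add_right (fun y => |φ y|)]
    refine (h.abs _ _ (by linarith) (by linarith)).trans (le_of_eq ?_)
    ring
  have h3 : ∫ c in Icc c0 c1, ∫ u in Icc u0 u1, |φ (u + c * a)| ≤ ∫ c in Icc c0 c1, M * (u1 - u0 + 2) := by
    refine setIntegral_mono_on hi.integral_prod_left (integrableOn_const (by simp)) measurableSet_Icc h2
  refine h3.trans (le_of_eq ?_)
  rw [setIntegral_const, Real.volume_real_Icc_of_le hc, smul_eq_mul]

end Pool.Agent.N798.Z
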