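import Pool.Agent.N798.Z2

set_option autoImplicit false

/-! The variance of the number of visits to a locally regular set. -/

namespace Pool.Agent.N798.Z

open MeasureTheory Filter Set

/-- the indicator function -/
noncomputable def chi (F : Set ℝ) : ℝ → ℝ := F.indicator fun _ => 1

/-- the primitive of the indicator function -/
noncomputable def prm (F : Set ℝ) (y : ℝ) : ℝ := ∫ r in (0:ℝ)..y, chi F r

/-- the local average -/
noncomputable def avg (F : Set ℝ) (δ y : ℝ) : ℝ := δ⁻¹ * (prm F (y + δ) - prm F y)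

variable {F : Set ℝ} {δ : ℝ}

lemma chi_meas (hF : MeasurableSet F) : Measurable (chi F) := measurable_const.indicator hF

lemma chi_nonneg (y : ℝ) : 0 ≤ chi F y := by
  unfold chi; by_cases h : y ∈ F
  · rw [indicator_of_mem h]; norm_num
  · rw [indicator_of_notMem h]

lemma chi_le (y : ℝ) : chi F y ≤ 1 := by
  unfold chi; by_cases h : y ∈ F
  · rw [indicator_of_mem h]
  · rw [indicator_of_notMem h]; norm_num

lemma chi_int (hF : MeasurableSet F) (a b : ℝ) : IntervalIntegrable (chi F) volume a b := by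
  rw [intervalIntegrable_iff]
  exact bdd_int (chi_meas hF) (fun y => by rw [abs_of_nonneg (chi_nonneg y)]; exact chi_le y) _ (by simp)

lemma prm_cont (hF : MeasurableSet F) : Continuous (prm F) :=
  intervalIntegral.continuous_primitive (chi_int hF) 0

lemma prm_sub (hF : MeasurableSet F) (s t : ℝ) : prm F t - prm F s = ∫ r in s..t, chi F r :=
  intervalIntegral.integral_interval_sub_left (chi_int hF _ _) (chi_int hF _ _)

lemma prm_vol (hF : MeasurableSet F) {s t : ℝ} (h : s ≤ t) : prm F t - prm F s = volume.real (F ∩ Icc s t) := by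
  rw [prm_sub hF, intervalIntegral.integral_of_le h, ← integral_Icc_eq_integral_Ioc]
  unfold chi
  rw [setIntegral_indicator hF, setIntegral_const, smul_eq_mul, mul_one, inter_comm]

lemma prm_mono (hF : MeasurableSet F) : Monotone (prm F) := fun s t h => by
  have := prm_vol hF h
  have h2 : 0 ≤ volume.real (F ∩ Icc s t) := measureReal_nonneg
  linarith

lemma prm_lip (hF : MeasurableSet F) {s t : ℝ} (h : s ≤ t) : prm F t - prm F s ≤ t - s := by
  rw [prm_vol hF h]
  calc volume.real (F ∩ Icc s t) ≤ volume.real (Icc s t) := measureReal_mono inter_subset_right (by simp)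
    _ = t - s := Real.volume_real_Icc_of_le h

lemma avg_nonneg (hF : MeasurableSet F) (hδ : 0 < δ) (y : ℝ) : 0 ≤ avg F δ y :=
  mul_nonneg (inv_pos.mpr hδ).le (sub_nonneg.mpr (prm_mono hF (by linarith)))

lemma avg_le (hF : MeasurableSet F) (hδ : 0 < δ) (y : ℝ) : avg F δ y ≤ 1 := by
  have h := prm_lip hF (show y ≤ y + δ by linarith)
  unfold avg
  rw [inv_mul_le_iff₀ hδ]
  linarith

lemma avg_cont (hF : MeasurableSet F) (δ : ℝ) : Continuous (avg F δ) := by
  unfold avg
  have := prm_cont hF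
  fun_prop

/-- the centred function -/
noncomputable def cen (F : Set ℝ) (δ y : ℝ) : ℝ := chi F y - avg F δ y

theorem cen_osc (hF : MeasurableSet F) (hδ : 0 < δ) (hδ1 : δ ≤ 1) {Y P : ℝ}
    (hU : ∀ s l : ℝ, Y ≤ s → δ ≤ l → volume.real (F ∩ Icc s (s + l)) ≤ P * l) :
    Osc (cen F δ) Y (P * δ) (2 * P) := by
  have hG := prm_cont hF
  have hGi : ∀ a b : ℝ, IntervalIntegrable (prm F) volume a b := fun a b => hG.intervalIntegrable _ _
  -- the mean of the primitive
  have hav : ∀ s : ℝ, Y ≤ s → 0 ≤ δ⁻¹ * (∫ y in s..(s + δ), (prm F y - prm F s)) ∧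
      δ⁻¹ * (∫ y in s..(s + δ), (prm F y - prm F s)) ≤ P * δ := by
    intro s hs
    have h1 := hU s δ hs le_rfl
    rw [← prm_vol hF (by linarith)] at h1
    constructor
    · refine mul_nonneg (inv_pos.mpr hδ).le (intervalIntegral.integral_nonneg (by linarith) fun y hy => ?_)
      exact sub_nonneg.mpr (prm_mono hF hy.1)
    · rw [inv_mul_le_iff₀ hδ]
      calc ∫ y in s..(s + δ), (prm F y - prm F s) ≤ ∫ y in s..(s + δ), P * δ := by
            refine intervalIntegral.integral_mono_on (by linarith) ((hGi _ _).sub intervalIntegrable_const)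
              intervalIntegrable_const fun y hy => ?_
            have := prm_mono hF hy.2
            linarith
        _ = δ * (P * δ) := by rw [intervalIntegral.integral_const, smul_eq_mul]; ring
  have hprim : ∀ s t : ℝ, ∫ y in s..t, cen F δ y =
      δ⁻¹ * (∫ y in s..(s + δ), (prm F y - prm F s)) - δ⁻¹ * (∫ y in t..(t + δ), (prm F y - prm F t)) := by
    intro s t
    have e1 : ∫ y in s..t, cen F δ y = (∫ y in s..t, chi F y) - ∫ y in s..t, avg F δ y := by
      unfold cen
      exact intervalIntegral.integral_sub (chi_int hF _ _) ((avg_cont hF δ).intervalIntegrable _ _)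
    have e2 : ∫ y in s..t, avg F δ y = δ⁻¹ * ((∫ y in (s + δ)..(t + δ), prm F y) - ∫ y in s..t, prm F y) := by
      unfold avg
      have hG2 : Continuous fun y => prm F (y + δ) := hG.comp (by fun_prop)
      rw [intervalIntegral.integral_const_mul, intervalIntegral.integral_sub
        (hG2.intervalIntegrable _ _) (hGi _ _), intervalIntegral.integral_comp_add_right]
    have e3 : (∫ y in (s + δ)..(t + δ), prm F y) - ∫ y in s..t, prm F y =
        (∫ y in t..(t + δ), prm F y) - ∫ y in s..(s + δ), prm F y := by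
      have h1 := intervalIntegral.integral_add_adjacent_intervals (hGi s (s + δ)) (hGi (s + δ) (t + δ))
      have h2 := intervalIntegral.integral_add_adjacent_intervals (hGi s t) (hGi t (t + δ))
      linarith
    have e4 : ∀ s : ℝ, ∫ y in s..(s + δ), (prm F y - prm F s) = (∫ y in s..(s + δ), prm F y) - δ * prm F s := by
      intro s
      rw [intervalIntegral.integral_sub (hGi _ _) intervalIntegrable_const, intervalIntegral.integral_const, smul_eq_mul]
      ring
    rw [e1, ← prm_sub hF, e2, e3, e4, e4]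
    field_simp
    ring
  have hpr : ∀ s t, Y ≤ s → s ≤ t → |∫ y in s..t, cen F δ y| ≤ P * δ := by
    intro s t hs hst
    rw [hprim]
    obtain ⟨h1, h2⟩ := hav s hs
    obtain ⟨h3, h4⟩ := hav t (hs.trans hst)
    rw [abs_le]
    constructor <;> linarith
  have hPl : ∀ s, Y ≤ s → 0 ≤ P * δ := fun s hs => (hav s hs).1.trans (hav s hs).2
  refine ⟨(chi_meas hF).sub (avg_cont hF δ).measurable, fun y => ?_, hpr, fun s t hs hst => ?_⟩
  · unfold cen
    have h1 := chi_nonneg (F := F) y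
    have h2 := chi_le (F := F) y
    have h3 := avg_nonneg hF hδ y
    have h4 := avg_le hF hδ y
    rw [abs_le]
    constructor <;> linarith
  · have hP : 0 ≤ P := by
      have := hPl s hs
      exact (mul_nonneg_iff_of_pos_right hδ).mp this
    have hci : ∀ a b : ℝ, IntervalIntegrable (cen F δ) volume a b := fun a b =>
      (chi_int hF _ _).sub ((avg_cont hF δ).intervalIntegrable _ _)
    have g1 : ∫ y in s..t, |cen F δ y| ≤ ∫ y in s..t, (chi F y + avg F δ y) := by
      refine intervalIntegral.integral_mono_on hst (hci _ _).abs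
        ((chi_int hF _ _).add ((avg_cont hF δ).intervalIntegrable _ _)) fun y _ => ?_
      unfold cen
      have h1 := chi_nonneg (F := F) y
      have h3 := avg_nonneg hF hδ y
      rw [abs_le]
      constructor <;> linarith
    have g2 : ∫ y in s..t, (chi F y + avg F δ y) = 2 * (∫ y in s..t, chi F y) - ∫ y in s..t, cen F δ y := by
      rw [intervalIntegral.integral_add (chi_int hF _ _) ((avg_cont hF δ).intervalIntegrable _ _)]
      unfold cen
      rw [intervalIntegral.integral_sub (chi_int hF _ _) ((avg_cont hF δ).intervalIntegrable _ _)]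
      ring
    have g3 : ∫ y in s..t, chi F y ≤ P * (t - s + 1) := by
      rw [← prm_sub hF]
      have h1 := hU s (t - s + 1) hs (by linarith)
      rw [← prm_vol hF (by linarith)] at h1
      have h2 := prm_mono hF (show t ≤ s + (t - s + 1) by linarith)
      linarith
    have g4 := neg_le_of_abs_le (hpr s t hs hst)
    have g5 : P * δ ≤ P * 1 := mul_le_mul_of_nonneg_left hδ1 hP
    rw [g2] at g1
    nlinarith

/-- sums of reciprocals of distances -/
lemma harm_sum {N n : ℕ} (hn : n ∈ Finset.Ico N (2 * N)) :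
    ∑ m ∈ (Finset.Ico N (2 * N)).erase n, 1 / |(n:ℝ) - m| ≤ 2 * (1 + Real.log N) := by
  classical
  rw [Finset.mem_Ico] at hn
  have h1 : ∀ m ∈ (Finset.Ico N (2 * N)).erase n, 1 / |(n:ℝ) - m| ≤
      ∑ j ∈ Finset.range N, ((if m = n + (j + 1) then 1 / ((j:ℝ) + 1) else 0) +
        (if m + (j + 1) = n then 1 / ((j:ℝ) + 1) else 0)) := by
    intro m hm
    rw [Finset.mem_erase, Finset.mem_Ico] at hm
    obtain ⟨hne, hm1, hm2⟩ := hm
    have hnn : ∀ j ∈ Finset.range N, (0:ℝ) ≤ (if m = n + (j + 1) then 1 / ((j:ℝ) + 1) else 0) +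
        (if m + (j + 1) = n then 1 / ((j:ℝ) + 1) else 0) := by
      intro j _
      refine add_nonneg ?_ ?_ <;> split_ifs <;> positivity
    rcases lt_or_gt_of_ne hne with h | h
    · -- m < n
      obtain ⟨j, hj⟩ := Nat.exists_eq_add_of_lt h
      have hjN : j ∈ Finset.range N := by rw [Finset.mem_range]; omega
      refine le_trans ?_ (Finset.single_le_sum hnn hjN)
      have e1 : m + (j + 1) = n := by omega
      rw [if_pos e1, ← e1]
      have e2 : |((m + (j + 1) : ℕ) : ℝ) - m| = (j:ℝ) + 1 := by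
        push_cast
        rw [show (m:ℝ) + (j + 1) - m = j + 1 by ring, abs_of_nonneg (by positivity)]
      rw [e2]
      have : (0:ℝ) ≤ (if m = m + (j + 1) + (j + 1) then 1 / ((j:ℝ) + 1) else 0) := by split_ifs <;> positivity
      linarith
    · obtain ⟨j, hj⟩ := Nat.exists_eq_add_of_lt h
      have hjN : j ∈ Finset.range N := by rw [Finset.mem_range]; omega
      refine le_trans ?_ (Finset.single_le_sum hnn hjN)
      have e1 : m = n + (j + 1) := by omega
      rw [if_pos e1, e1]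
      have e2 : |(n:ℝ) - ((n + (j + 1) : ℕ) : ℝ)| = (j:ℝ) + 1 := by
        push_cast
        rw [show (n:ℝ) - (n + (j + 1)) = -(j + 1) by ring, abs_neg, abs_of_nonneg (by positivity)]
      rw [e2]
      have : (0:ℝ) ≤ (if n + (j + 1) + (j + 1) = n then 1 / ((j:ℝ) + 1) else 0) := by split_ifs <;> positivity
      linarith
  refine (Finset.sum_le_sum h1).trans ?_
  rw [Finset.sum_comm]
  have h2 : ∀ j ∈ Finset.range N, ∑ m ∈ (Finset.Ico N (2 * N)).erase n,
      ((if m = n + (j + 1) then 1 / ((j:ℝ) + 1) else 0) + (if m + (j + 1) = n then 1 / ((j:ℝ) + 1) else 0)) ≤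
      2 * (1 / ((j:ℝ) + 1)) := by
    intro j _
    rw [Finset.sum_add_distrib]
    have k0 : (0:ℝ) ≤ 1 / ((j:ℝ) + 1) := by positivity
    have k1 : ∑ m ∈ (Finset.Ico N (2 * N)).erase n, (if m = n + (j + 1) then 1 / ((j:ℝ) + 1) else 0) ≤ 1 / ((j:ℝ) + 1) := by
      rw [Finset.sum_ite_eq']
      split_ifs
      · exact le_rfl
      · exact k0
    have k2 : ∑ m ∈ (Finset.Ico N (2 * N)).erase n, (if m + (j + 1) = n then 1 / ((j:ℝ) + 1) else 0) ≤ 1 / ((j:ℝ) + 1) := by
      have : ∀ m ∈ (Finset.Ico N (2 * N)).erase n, (if m + (j + 1) = n then 1 / ((j:ℝ) + 1) else 0) ≤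
          (if m = n - (j + 1) then 1 / ((j:ℝ) + 1) else 0) := by
        intro m _
        by_cases hh : m + (j + 1) = n
        · rw [if_pos hh, if_pos (by omega)]
        · rw [if_neg hh]; split_ifs <;> positivity
      refine (Finset.sum_le_sum this).trans ?_
      rw [Finset.sum_ite_eq']
      split_ifs
      · exact le_rfl
      · exact k0
    linarith
  refine (Finset.sum_le_sum h2).trans ?_
  rw [← Finset.mul_sum]
  have h3 := harmonic_le_one_add_log N
  have h4 : ((harmonic N : ℚ) : ℝ) = ∑ j ∈ Finset.range N, 1 / ((j:ℝ) + 1) := by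
    unfold harmonic
    push_cast
    refine Finset.sum_congr rfl fun j _ => ?_
    rw [one_div]
  rw [h4] at h3
  linarith

variable {c0 c1 u0 u1 Y P X γ κ : ℝ} {x : ℕ → ℝ} {N : ℕ}

/-- the second moment of the centred count -/
theorem second (hF : MeasurableSet F) (hδ : 0 < δ) (hδ1 : δ ≤ 1) (hP : 0 ≤ P)
    (hU : ∀ s l : ℝ, Y ≤ s → δ ≤ l → volume.real (F ∩ Icc s (s + l)) ≤ P * l)
    (hc0 : 0 < c0) (hc : c0 ≤ c1) (hu : u0 ≤ u1) (hκ : 0 < κ)
    (hx0 : ∀ n ∈ Finset.Ico N (2 * N), 0 < x n ∧ x n ≤ X ∧ Y ≤ u0 + c0 * x n)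
    (hgap : ∀ m ∈ Finset.Ico N (2 * N), ∀ n ∈ Finset.Ico N (2 * N), m < n → κ * ((n:ℝ) - m) ≤ x n - x m) :
    ∫ q, (∑ n ∈ Finset.Ico N (2 * N), cen F δ (q.2 + q.1 * x n)) ^ 2 ∂(box c0 c1 u0 u1) ≤
      N * ((c1 - c0) * (2 * P * (u1 - u0 + 2))) +
        N * (P * δ / κ * (2 * P * ((u1 - u0) + (c1 - c0) * X + 2)) * (2 * (1 + Real.log N))) := by
  have hosc := cen_osc hF hδ hδ1 hU
  have hm := hosc.meas
  have hb1 := hosc.bdd
  set S := Finset.Ico N (2 * N) with hS
  set φ := cen F δ with hφ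
  set K := P * δ / κ * (2 * P * ((u1 - u0) + (c1 - c0) * X + 2)) with hK
  have hii : ∀ m n : ℕ, Integrable (fun q : ℝ × ℝ => φ (q.2 + q.1 * x n) * φ (q.2 + q.1 * x m)) (box c0 c1 u0 u1) := by
    intro m n
    refine box_int (K := 1) (by have := pt_meas hm (x n); have := pt_meas hm (x m); fun_prop) fun q => ?_
    rw [abs_mul]
    exact mul_le_one₀ (hb1 _) (abs_nonneg _) (hb1 _)
  have e1 : ∀ q : ℝ × ℝ, (∑ n ∈ S, φ (q.2 + q.1 * x n)) ^ 2 =
      ∑ n ∈ S, ∑ m ∈ S, φ (q.2 + q.1 * x n) * φ (q.2 + q.1 * x m) := by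
    intro q
    rw [sq, Finset.sum_mul_sum]
  simp_rw [e1]
  rw [integral_finsetSum _ (fun n _ => integrable_finsetSum _ fun m _ => hii m n)]
  have hcorr : ∀ m ∈ S, ∀ n ∈ S, m < n →
      |∫ q, φ (q.2 + q.1 * x m) * φ (q.2 + q.1 * x n) ∂(box c0 c1 u0 u1)| ≤ K * (1 / |(n:ℝ) - m|) := by
    intro m hmS n hnS hmn
    obtain ⟨a1, a2, a3⟩ := hx0 m hmS
    have hnm : (0:ℝ) < (n:ℝ) - m := by
      have : (m:ℝ) < n := by exact_mod_cast hmn
      linarith
    have hg := hgap m hmS n hnS hmn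
    have hxmn : 0 < x n - x m := lt_of_lt_of_le (by positivity) hg
    refine (corr hosc a1 (by linarith) (by positivity) hc0 hc hu a3).trans ?_
    rw [abs_of_pos hnm]
    have k1 : P * δ / (x n - x m) ≤ P * δ / κ * (1 / ((n:ℝ) - m)) := by
      rw [div_mul_div_comm, mul_one]
      exact div_le_div_of_nonneg_left (by positivity) (by positivity) hg
    have k2 : 2 * P * (u1 + c1 * x m - (u0 + c0 * x m) + 2) ≤ 2 * P * ((u1 - u0) + (c1 - c0) * X + 2) := by
      refine mul_le_mul_of_nonneg_left ?_ (by positivity)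
      have := mul_le_mul_of_nonneg_left a2 (sub_nonneg.mpr hc)
      nlinarith
    have k3 : 0 ≤ 2 * P * (u1 + c1 * x m - (u0 + c0 * x m) + 2) := by
      have : c0 * x m ≤ c1 * x m := mul_le_mul_of_nonneg_right hc a1.le
      have : 0 ≤ u1 + c1 * x m - (u0 + c0 * x m) + 2 := by linarith
      positivity
    calc _ ≤ P * δ / κ * (1 / ((n:ℝ) - m)) * (2 * P * ((u1 - u0) + (c1 - c0) * X + 2)) :=
          mul_le_mul k1 k2 k3 (by positivity)
      _ = _ := by rw [hK]; ring
  have hrow : ∀ n ∈ S, ∫ q, ∑ m ∈ S, φ (q.2 + q.1 * x n) * φ (q.2 + q.1 * x m) ∂(box c0 c1 u0 u1) ≤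
      (c1 - c0) * (2 * P * (u1 - u0 + 2)) + K * (2 * (1 + Real.log N)) := by
    intro n hn
    obtain ⟨a1, a2, a3⟩ := hx0 n hn
    rw [integral_finsetSum _ (fun m _ => hii m n), ← Finset.add_sum_erase S _ hn]
    refine add_le_add ((le_abs_self _).trans (diag hosc a1 hc0 hc hu a3)) ?_
    have hK0 : 0 ≤ K := by
      have h1 : 0 ≤ (c1 - c0) * X := mul_nonneg (by linarith) (a1.le.trans a2)
      have h2 : 0 ≤ (u1 - u0) + (c1 - c0) * X + 2 := by linarith
      positivity
    calc ∑ m ∈ S.erase n, ∫ q, φ (q.2 + q.1 * x n) * φ (q.2 + q.1 * x m) ∂(box c0 c1 u0 u1) ≤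
        ∑ m ∈ S.erase n, K * (1 / |(n:ℝ) - m|) := by
          refine Finset.sum_le_sum fun m hm' => ?_
          obtain ⟨hne, hmS⟩ := Finset.mem_erase.mp hm'
          rcases lt_or_gt_of_ne hne with h | h
          · have := (le_abs_self _).trans (hcorr m hmS n hn h)
            refine le_trans (le_of_eq ?_) this
            refine integral_congr_ae (Eventually.of_forall fun q => ?_)
            exact mul_comm _ _
          · have := (le_abs_self _).trans (hcorr n hn m hmS h)
            rwa [abs_sub_comm] at this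
      _ = K * ∑ m ∈ S.erase n, 1 / |(n:ℝ) - m| := by rw [Finset.mul_sum]
      _ ≤ _ := mul_le_mul_of_nonneg_left (harm_sum hn) hK0
  refine (Finset.sum_le_sum hrow).trans (le_of_eq ?_)
  rw [Finset.sum_const, hS, Nat.card_Ico, nsmul_eq_mul]
  have : ((2 * N - N : ℕ) : ℝ) = N := by
    congr 1; omega
  rw [this]
  ring

/-- few parameters have too few visits -/
theorem cheb (hF : MeasurableSet F) (hδ : 0 < δ) (hδ1 : δ ≤ 1) (hP : 0 ≤ P)
    (hU : ∀ s l : ℝ, Y ≤ s → δ ≤ l → volume.real (F ∩ Icc s (s + l)) ≤ P * l)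
    (hc0 : 0 < c0) (hc : c0 ≤ c1) (hu : u0 ≤ u1) (hκ : 0 < κ) (hN : 1 ≤ N) (hγ : 0 < γ)
    (hx0 : ∀ n ∈ Finset.Ico N (2 * N), 0 < x n ∧ x n ≤ X ∧ Y ≤ u0 + c0 * x n)
    (hgap : ∀ m ∈ Finset.Ico N (2 * N), ∀ n ∈ Finset.Ico N (2 * N), m < n → κ * ((n:ℝ) - m) ≤ x n - x m)
    (hL : ∀ n ∈ Finset.Ico N (2 * N), ∀ y, u0 + c0 * x n ≤ y → y ≤ u1 + c1 * x n → γ * δ ≤ volume.real (F ∩ Icc y (y + δ))) :
    (box c0 c1 u0 u1).real {q | q.1 ∈ Icc c0 c1 ∧ q.2 ∈ Icc u0 u1 ∧
        ∑ n ∈ Finset.Ico N (2 * N), chi F (q.2 + q.1 * x n) ≤ N * γ / 2} ≤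
      (N * ((c1 - c0) * (2 * P * (u1 - u0 + 2))) +
        N * (P * δ / κ * (2 * P * ((u1 - u0) + (c1 - c0) * X + 2)) * (2 * (1 + Real.log N)))) / (N * γ / 2) ^ 2 := by
  have hosc := cen_osc hF hδ hδ1 hU
  have hm := hosc.meas
  have hb1 := hosc.bdd
  have hN0 : (0:ℝ) < N := by exact_mod_cast hN
  set S := Finset.Ico N (2 * N) with hS
  have h2 := second hF hδ hδ1 hP hU hc0 hc hu hκ hx0 hgap
  rw [le_div_iff₀ (by positivity)]
  refine le_trans ?_ h2
  set f : ℝ × ℝ → ℝ := fun q => (∑ n ∈ S, cen F δ (q.2 + q.1 * x n)) ^ 2 with hf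
  have hfm : Measurable f := by
    refine Measurable.pow_const ?_ 2
    exact Finset.measurable_sum _ fun n _ => pt_meas hm (x n)
  have hfi : Integrable f (box c0 c1 u0 u1) := by
    refine box_int (K := (S.card : ℝ) ^ 2) hfm fun q => ?_
    rw [hf]
    simp only
    rw [abs_pow, sq_le_sq₀ (abs_nonneg _) (by positivity)]
    refine (Finset.abs_sum_le_sum_abs _ _).trans ?_
    refine (Finset.sum_le_sum fun n _ => hb1 _).trans (le_of_eq ?_)
    rw [Finset.sum_const, nsmul_eq_mul, mul_one]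
  have h3 := mul_meas_ge_le_integral_of_nonneg (μ := box c0 c1 u0 u1) (Eventually.of_forall fun q => sq_nonneg _) hfi
    ((N * γ / 2) ^ 2)
  rw [mul_comm]
  refine le_trans (mul_le_mul_of_nonneg_left (measureReal_mono ?_ (measure_ne_top _ _)) (by positivity)) h3
  rintro q ⟨hq1, hq2, hq3⟩
  show (N * γ / 2) ^ 2 ≤ (∑ n ∈ S, cen F δ (q.2 + q.1 * x n)) ^ 2
  have h4 : ∑ n ∈ S, cen F δ (q.2 + q.1 * x n) = ∑ n ∈ S, chi F (q.2 + q.1 * x n) - ∑ n ∈ S, avg F δ (q.2 + q.1 * x n) := by
    rw [← Finset.sum_sub_distrib]; rfl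
  have h5 : N * γ ≤ ∑ n ∈ S, avg F δ (q.2 + q.1 * x n) := by
    have : ∀ n ∈ S, γ ≤ avg F δ (q.2 + q.1 * x n) := by
      intro n hn
      obtain ⟨a1, a2, a3⟩ := hx0 n hn
      have k1 : c0 * x n ≤ q.1 * x n := mul_le_mul_of_nonneg_right hq1.1 a1.le
      have k2 : q.1 * x n ≤ c1 * x n := mul_le_mul_of_nonneg_right hq1.2 a1.le
      have := hL n hn (q.2 + q.1 * x n) (by linarith [hq2.1]) (by linarith [hq2.2])
      unfold avg
      rw [prm_vol hF (by linarith), le_inv_mul_iff₀ hδ]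
      linarith
    have h6 := Finset.sum_le_sum this
    rw [Finset.sum_const, hS, Nat.card_Ico, nsmul_eq_mul] at h6
    have e : ((2 * N - N : ℕ) : ℝ) = N := by
      congr 1; omega
    rwa [e] at h6
  rw [h4]
  have h7 : N * γ / 2 ≤ -(∑ n ∈ S, chi F (q.2 + q.1 * x n) - ∑ n ∈ S, avg F δ (q.2 + q.1 * x n)) := by linarith
  rw [← neg_sq (∑ n ∈ S, chi F (q.2 + q.1 * x n) - _)]
  exact pow_le_pow_left₀ (by positivity) h7 2

end Pool.Agent.N798.Z
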