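import Pool.Agent.Results.MP_112ba8_nt.LocalLawAndMoments
import Pool.Agent.N798.Z1

set_option autoImplicit false

/-! A locally regular set on which zeta is large, in the logarithmic coordinate. -/

namespace Pool.Agent.N798.Z

open MeasureTheory Filter Topology Pool.Agent.W184 Set
open Pool.Agent.Results.MP_112ba8_nt.LocalLawAndMoments (Level gauss)

/-- `|ζ(1/2 + i e^y)|` -/
noncomputable def ff (y : ℝ) : ℝ := zn (1 / 2) (Real.exp y)

lemma ff_nonneg (y : ℝ) : 0 ≤ ff y := zn_nonneg _ _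

lemma ff_cont : Continuous ff := (zn_cont (by norm_num)).comp Real.continuous_exp

lemma zn_half (t : ℝ) : zn (1 / 2) t = ‖riemannZeta (1 / 2 + t * Complex.I)‖ := by
  unfold zn; congr 2; push_cast; ring

lemma vol_exp {E : Set ℝ} (hE : MeasurableSet E) (y l : ℝ) :
    Real.exp y * volume.real ({u : ℝ | Real.exp u ∈ E} ∩ Icc y (y + l)) ≤
      volume.real (E ∩ Icc (Real.exp y) (Real.exp (y + l))) ∧
    volume.real (E ∩ Icc (Real.exp y) (Real.exp (y + l))) ≤
      Real.exp (y + l) * volume.real ({u : ℝ | Real.exp u ∈ E} ∩ Icc y (y + l)) := by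
  set S : Set ℝ := {u : ℝ | Real.exp u ∈ E} ∩ Icc y (y + l) with hS
  have hSm : MeasurableSet S := (Real.measurable_exp hE).inter measurableSet_Icc
  have e1 : E ∩ Icc (Real.exp y) (Real.exp (y + l)) = Real.exp '' S := by
    ext x
    constructor
    · rintro ⟨hx, h1, h2⟩
      have hx0 : 0 < x := (Real.exp_pos _).trans_le h1
      refine ⟨Real.log x, ⟨?_, ?_, ?_⟩, Real.exp_log hx0⟩
      · rw [mem_ofPred_eq, Real.exp_log hx0]; exact hx
      · rw [Real.le_log_iff_exp_le hx0]; exact h1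
      · rw [Real.log_le_iff_le_exp hx0]; exact h2
    · rintro ⟨u, ⟨hu, h1, h2⟩, rfl⟩
      exact ⟨hu, Real.exp_le_exp.2 h1, Real.exp_le_exp.2 h2⟩
  have h3 := lintegral_image_eq_lintegral_abs_deriv_mul (f := Real.exp) (f' := Real.exp) hSm
      (fun x _ => (Real.hasDerivAt_exp x).hasDerivWithinAt) Real.exp_injective.injOn (fun _ => 1)
  simp only [lintegral_one, Measure.restrict_apply_univ, mul_one] at h3
  have hSf : volume S ≠ ⊤ := ((measure_mono inter_subset_right).trans_lt (by simp)).ne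
  have h2 : volume (Real.exp '' S) ≤ ENNReal.ofReal (Real.exp (y + l)) * volume S := by
    rw [h3]
    calc ∫⁻ x in S, ENNReal.ofReal |Real.exp x| ≤ ∫⁻ _ in S, ENNReal.ofReal (Real.exp (y + l)) := by
          apply setLIntegral_mono' hSm
          intro x hx
          rw [abs_of_pos (Real.exp_pos x)]
          exact ENNReal.ofReal_le_ofReal (Real.exp_le_exp.2 hx.2.2)
      _ = _ := by rw [lintegral_const, Measure.restrict_apply_univ]
  have h4 : ENNReal.ofReal (Real.exp y) * volume S ≤ volume (Real.exp '' S) := by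
    rw [h3]
    calc ENNReal.ofReal (Real.exp y) * volume S = ∫⁻ _ in S, ENNReal.ofReal (Real.exp y) := by
          rw [lintegral_const, Measure.restrict_apply_univ]
      _ ≤ _ := by
          apply setLIntegral_mono' hSm
          intro x hx
          rw [abs_of_pos (Real.exp_pos x)]
          exact ENNReal.ofReal_le_ofReal (Real.exp_le_exp.2 hx.2.1)
  have hif : volume (Real.exp '' S) ≠ ⊤ := (h2.trans_lt (ENNReal.mul_lt_top ENNReal.ofReal_lt_top hSf.lt_top)).ne
  rw [e1, measureReal_def, measureReal_def]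
  constructor
  · have h5 := ENNReal.toReal_mono hif h4
    rwa [ENNReal.toReal_mul, ENNReal.toReal_ofReal (Real.exp_pos _).le] at h5
  · have h5 := ENNReal.toReal_mono (ENNReal.mul_ne_top ENNReal.ofReal_ne_top hSf) h2
    rwa [ENNReal.toReal_mul, ENNReal.toReal_ofReal (Real.exp_pos _).le] at h5

lemma exp_half {l : ℝ} (h0 : 0 ≤ l) (h1 : l ≤ 1 / 2) : l ≤ Real.exp l - 1 ∧ Real.exp l - 1 ≤ 2 * l ∧
    l / 2 * Real.exp l ≤ Real.exp l - 1 := by
  have h2 := Real.add_one_le_exp l
  have h3 := Real.add_one_le_exp (-l)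
  rw [Real.exp_neg] at h3
  have h4 := Real.exp_pos l
  have h5 : (1 - l) * Real.exp l ≤ 1 := by
    have := mul_le_mul_of_nonneg_right h3 h4.le
    rw [inv_mul_cancel₀ h4.ne'] at this
    linarith
  refine ⟨by linarith, by nlinarith, by nlinarith⟩

lemma sqrt_log_small {ε : ℝ} (hε : 0 < ε) : ∀ᶠ y : ℝ in atTop, Real.sqrt (Real.log y) ≤ y ^ ε := by
  have h := (isLittleO_log_rpow_atTop hε).bound one_pos
  filter_upwards [h, eventually_ge_atTop (Real.exp 1)] with y hy hy1
  have hy0 : 0 < y := (Real.exp_pos _).trans_le hy1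
  have hl : 1 ≤ Real.log y := by rwa [Real.le_log_iff_exp_le hy0]
  rw [one_mul, Real.norm_of_nonneg (by linarith), Real.norm_of_nonneg (by positivity)] at hy
  refine le_trans ?_ hy
  rw [Real.sqrt_le_left (by linarith)]
  nlinarith

theorem reg {r ε α : ℝ} (hr : 0 < r) (hε : 0 < ε) (hα0 : 0 ≤ α) (hα1 : α < 1) :
    ∃ (F : Set ℝ) (A c C Y0 : ℝ), MeasurableSet F ∧ 0 < A ∧ 0 < c ∧ 0 < C ∧ 1 ≤ Y0 ∧
      (∀ y ∈ F, 0 < y ∧ y ^ r ≤ A * ff y) ∧
      ∀ y, Y0 ≤ y → ∀ l, y ^ (-α) ≤ l → l ≤ 1 / 2 →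
        c * l * y ^ (-(r ^ 2) - ε) ≤ volume.real (F ∩ Icc y (y + l)) ∧
        volume.real (F ∩ Icc y (y + l)) ≤ C * l * y ^ (-(r ^ 2)) := by
  obtain ⟨E, c, C, W, δ, mE, hc, hC, hW, -, -, -, h⟩ :=
    Pool.Agent.Results.MP_112ba8_nt.LocalLawAndMoments.result r (1 / 2) 1 hr.le (by norm_num) (by norm_num)
  have h := h α hα0 hα1
  set A : ℝ := (3 / 2) ^ r * Real.exp W with hA
  have hA0 : 0 < A := by positivity
  set E' : Set ℝ := {t | t ∈ E ∧ 1 < t ∧ Real.log t ^ r ≤ A * zn (1 / 2) t} with hE'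
  have hznm : Measurable (zn (1 / 2)) := (zn_cont (by norm_num)).measurable
  have mE' : MeasurableSet E' := by
    refine mE.inter (MeasurableSet.inter measurableSet_Ioi ?_)
    exact measurableSet_le (Real.measurable_log.pow_const r) (hznm.const_mul A)
  set F : Set ℝ := {u | Real.exp u ∈ E'} with hF
  have mF : MeasurableSet F := Real.measurable_exp mE'
  have hT : Tendsto Real.exp atTop atTop := Real.tendsto_exp_atTop
  obtain ⟨Y0, hY0⟩ := eventually_atTop.mp ((hT.eventually h).and ((sqrt_log_small hε).and (eventually_ge_atTop (Real.exp 1))))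
  refine ⟨F, A, c / 2, 2 * C * A ^ (2 * r), max Y0 (Real.exp 1), mF, hA0, by positivity, by positivity,
    (Real.one_le_exp (by norm_num)).trans (le_max_right _ _), ?_, ?_⟩
  · rintro y ⟨-, h1, h2⟩
    rw [Real.log_exp] at h2
    exact ⟨by rwa [← Real.one_lt_exp_iff], h2⟩
  intro y hy l hl1 hl2
  obtain ⟨h1, h2, h3⟩ := hY0 y ((le_max_left _ _).trans hy)
  have hy0 : 0 < y := (Real.exp_pos _).trans_le h3
  have hly : 1 ≤ Real.log y := by rwa [Real.le_log_iff_exp_le hy0]
  have hy1 : 1 < y := by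
    have := Real.add_one_le_exp (1:ℝ)
    linarith
  have hl0 : 0 ≤ l := (Real.rpow_nonneg hy0.le _).trans hl1
  obtain ⟨e1, e2, e3⟩ := exp_half hl0 hl2
  set T := Real.exp y with hTd
  have hT0 : 0 < T := Real.exp_pos _
  set H := T * (Real.exp l - 1) with hH
  have hTH : T + H = Real.exp (y + l) := by rw [hH, Real.exp_add]; ring
  have hlogT : Real.log T = y := Real.log_exp y
  rw [hlogT] at h1
  have hH1 : T / y ^ α ≤ H := by
    rw [hH, div_eq_mul_inv, ← Real.rpow_neg hy0.le]
    exact mul_le_mul_of_nonneg_left (hl1.trans e1) hT0.le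
  have hH2 : H ≤ T := by
    rw [hH]
    refine mul_le_of_le_one_right hT0.le (by linarith)
  have hH0 : 0 ≤ H := mul_nonneg hT0.le (by linarith)
  obtain ⟨-, g1, g2⟩ := h1 H hH1 hH2
  obtain ⟨v1, v2⟩ := vol_exp mE' y l
  rw [← hTd, ← hTH] at v1 v2
  have hSet : {u : ℝ | Real.exp u ∈ E'} ∩ Icc y (y + l) = F ∩ Icc y (y + l) := rfl
  rw [hSet] at v1 v2
  constructor
  · -- lower bound
    obtain ⟨k1, -⟩ := g1 (r * Real.log y) (by
      rw [abs_of_nonneg (by positivity)])
    have hsub : Level E T H (r * Real.log y) W ⊆ E' ∩ Icc T (T + H) := by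
      rintro t ⟨⟨ht1, ht2⟩, ht3, -⟩
      have htT : T ≤ t := ht2.1
      have ht0 : 0 < t := hT0.trans_le htT
      refine ⟨⟨ht1, ?_, ?_⟩, ht2⟩
      · have : 1 < T := Real.one_lt_exp_iff.mpr hy0
        linarith
      · rw [zn_half]
        have k2 : Real.log t ≤ 3 / 2 * y := by
          have := Real.log_le_log ht0 ht2.2
          rw [hTH, Real.log_exp] at this
          linarith
        have k3 : 0 ≤ Real.log t := by
          have := Real.log_le_log hT0 htT
          rw [hlogT] at this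
          linarith
        have k4 : Real.exp (r * Real.log y) = y ^ r := by rw [Real.rpow_def_of_pos hy0]; congr 1; ring
        rw [Real.exp_sub, k4, div_le_iff₀ (Real.exp_pos _)] at ht3
        calc Real.log t ^ r ≤ (3 / 2 * y) ^ r := Real.rpow_le_rpow k3 k2 hr.le
          _ = (3 / 2) ^ r * y ^ r := Real.mul_rpow (by norm_num) hy0.le
          _ ≤ (3 / 2) ^ r * (‖riemannZeta (1 / 2 + t * Complex.I)‖ * Real.exp W) :=
              mul_le_mul_of_nonneg_left ht3 (by positivity)
          _ = _ := by rw [hA]; ring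
    have k5 := measureReal_mono (μ := volume) hsub ((measure_mono inter_subset_right).trans_lt (by simp)).ne
    have k6 : gauss T (r * Real.log y) = y ^ (-(r ^ 2)) / Real.sqrt (Real.log y) := by
      unfold gauss
      rw [hlogT, Real.rpow_def_of_pos hy0]
      congr 2
      field_simp
    have k7 : y ^ (-(r ^ 2) - ε) ≤ y ^ (-(r ^ 2)) / Real.sqrt (Real.log y) := by
      rw [Real.rpow_sub hy0]
      exact div_le_div_of_nonneg_left (by positivity) (Real.sqrt_pos.mpr (by linarith)) h2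
    rw [k6] at k1
    have k8 : c * H * (y ^ (-(r ^ 2) - ε)) ≤ (T + H) * volume.real (F ∩ Icc y (y + l)) :=
      (mul_le_mul_of_nonneg_left k7 (by positivity)).trans (k1.trans (k5.trans (by rw [hTH] at v2 ⊢; exact v2)))
    have k9 : l / 2 * (T + H) ≤ H := by
      have : T + H = T * Real.exp l := by rw [hTH, Real.exp_add]
      rw [this, hH]
      calc l / 2 * (T * Real.exp l) = T * (l / 2 * Real.exp l) := by ring
        _ ≤ _ := mul_le_mul_of_nonneg_left e3 hT0.le
    have k10 : (T + H) * (c / 2 * l * y ^ (-(r ^ 2) - ε)) ≤ (T + H) * volume.real (F ∩ Icc y (y + l)) := by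
      refine le_trans ?_ k8
      calc (T + H) * (c / 2 * l * y ^ (-(r ^ 2) - ε)) = c * (l / 2 * (T + H)) * y ^ (-(r ^ 2) - ε) := by ring
        _ ≤ _ := by gcongr
    exact le_of_mul_le_mul_left k10 (by linarith)
  · -- upper bound
    obtain ⟨k1, -, k2⟩ := g2 r (by rw [abs_of_pos hr])
    have mI : MeasurableSet (E' ∩ Icc T (T + H)) := mE'.inter measurableSet_Icc
    have hsub : E' ∩ Icc T (T + H) ⊆ E ∩ Icc T (T + H) := fun t ht => ⟨ht.1.1, ht.2⟩
    have hfin : volume (E' ∩ Icc T (T + H)) ≠ ⊤ := ((measure_mono inter_subset_right).trans_lt (by simp)).ne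
    have k3 : ∫ t in E' ∩ Icc T (T + H), ‖riemannZeta (1 / 2 + t * Complex.I)‖ ^ (2 * r) ≤ C * H * y ^ (r ^ 2) := by
      refine le_trans ?_ k2
      exact setIntegral_mono_set k1 (Eventually.of_forall fun t => Real.rpow_nonneg (norm_nonneg _) _)
        (Eventually.of_forall hsub)
    have k4 : volume.real (E' ∩ Icc T (T + H)) * ((y ^ r / A) ^ (2 * r)) ≤
        ∫ t in E' ∩ Icc T (T + H), ‖riemannZeta (1 / 2 + t * Complex.I)‖ ^ (2 * r) := by
      have : ∫ t in E' ∩ Icc T (T + H), (y ^ r / A) ^ (2 * r) = volume.real (E' ∩ Icc T (T + H)) * ((y ^ r / A) ^ (2 * r)) := by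
        rw [setIntegral_const, smul_eq_mul]
      rw [← this]
      refine setIntegral_mono_on (integrableOn_const hfin) (k1.mono_set hsub) mI ?_
      rintro t ⟨⟨-, -, ht3⟩, ht4⟩
      refine Real.rpow_le_rpow (by positivity) ?_ (by positivity)
      rw [div_le_iff₀ hA0, mul_comm, ← zn_half]
      refine le_trans ?_ ht3
      refine Real.rpow_le_rpow hy0.le ?_ hr.le
      have := Real.log_le_log hT0 ht4.1
      rwa [hlogT] at this
    have k5 : (y ^ r / A) ^ (2 * r) = y ^ (2 * r ^ 2) / A ^ (2 * r) := by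
      rw [Real.div_rpow (by positivity) hA0.le, ← Real.rpow_mul hy0.le]
      congr 2; ring
    rw [k5] at k4
    have k6 : volume.real (E' ∩ Icc T (T + H)) ≤ C * A ^ (2 * r) * H * y ^ (-(r ^ 2)) := by
      have k7 := k4.trans k3
      rw [← mul_div_assoc, div_le_iff₀ (by positivity)] at k7
      have k8 : y ^ (r ^ 2) = y ^ (-(r ^ 2)) * y ^ (2 * r ^ 2) := by
        rw [← Real.rpow_add hy0]; congr 1; ring
      rw [k8] at k7
      have k9 : 0 < y ^ (2 * r ^ 2) := by positivity
      refine le_of_mul_le_mul_right (k7.trans (le_of_eq ?_)) k9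
      ring
    have k10 : T * volume.real (F ∩ Icc y (y + l)) ≤ T * (2 * C * A ^ (2 * r) * l * y ^ (-(r ^ 2))) := by
      have v3 : T * volume.real (F ∩ Icc y (y + l)) ≤ volume.real (E' ∩ Icc T (T + H)) := by
        rw [hTH]; rw [hTH] at v1; exact v1
      refine v3.trans (k6.trans ?_)
      rw [hH]
      calc C * A ^ (2 * r) * (T * (Real.exp l - 1)) * y ^ (-(r ^ 2)) ≤
          C * A ^ (2 * r) * (T * (2 * l)) * y ^ (-(r ^ 2)) := by gcongr
        _ = _ := by ring
    exact le_of_mul_le_mul_left k10 hT0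

end Pool.Agent.N798.Z
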