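import Pool.Agent.N798.Z3
import Pool.Agent.N798.Z4

set_option autoImplicit false

/-! Visits of `u + c x_n` to the regular set, in dyadic blocks. -/

namespace Pool.Agent.N798.Z

open MeasureTheory Filter Topology Set

/-- the hypotheses on the sequence -/
structure Seq (x : ℕ → ℝ) (g : ℝ) : Prop where
  g0 : 0 < g
  pos : ∀ n, 0 < x n
  lim : Tendsto (fun n : ℕ => Real.log (x n) / Real.log n) atTop (𝓝 g)
  gap : ∀ η : ℝ, 0 < η → ∀ᶠ n : ℕ in atTop, (n:ℝ) ^ (min g 1 - 1 - η) ≤ x (n + 1) - x n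

lemma big_pow (K : ℝ) {s : ℝ} (hs : 0 < s) : ∀ᶠ N : ℕ in atTop, K ≤ (N:ℝ) ^ s :=
  ((tendsto_rpow_atTop hs).comp tendsto_natCast_atTop_atTop).eventually_ge_atTop K

lemma log_small {e : ℝ} (he : 0 < e) : ∀ᶠ N : ℕ in atTop, 1 + Real.log N ≤ (N:ℝ) ^ e := by
  have h := (isLittleO_log_rpow_atTop he).bound (show (0:ℝ) < 1 / 2 by norm_num)
  filter_upwards [tendsto_natCast_atTop_atTop.eventually h, big_pow 2 he, eventually_ge_atTop 1] with N h1 h2 h3
  have h3' : (1:ℝ) ≤ N := by exact_mod_cast h3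
  rw [Real.norm_of_nonneg (Real.log_nonneg h3'), Real.norm_of_nonneg (by positivity)] at h1
  linarith

variable {x : ℕ → ℝ} {g : ℝ}

lemma Seq.size0 (h : Seq x g) {η : ℝ} (hη : 0 < η) :
    ∀ᶠ n : ℕ in atTop, (n:ℝ) ^ (g - η) ≤ x n ∧ x n ≤ (n:ℝ) ^ (g + η) := by
  filter_upwards [h.lim.eventually (Metric.ball_mem_nhds g hη), eventually_ge_atTop 2] with n h1 h2
  have hn : (1:ℝ) < n := by exact_mod_cast (by omega : 1 < n)
  have hl := Real.log_pos hn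
  have hx := h.pos n
  rw [Real.dist_eq] at h1
  obtain ⟨h3, h4⟩ := abs_lt.mp h1
  have h5 : g - η < Real.log (x n) / Real.log n := by linarith
  have h6 : Real.log (x n) / Real.log n < g + η := by linarith
  rw [lt_div_iff₀ hl] at h5
  rw [div_lt_iff₀ hl] at h6
  constructor
  · rw [Real.rpow_def_of_pos (by linarith), ← Real.le_log_iff_exp_le hx]
    linarith
  · rw [Real.rpow_def_of_pos (by linarith), ← Real.log_le_iff_le_exp hx]
    linarith

lemma ev_block {P : ℕ → Prop} (h : ∀ᶠ n : ℕ in atTop, P n) : ∀ᶠ N : ℕ in atTop, ∀ n ∈ Finset.Ico N (2 * N), P n := by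
  obtain ⟨n0, h0⟩ := eventually_atTop.mp h
  filter_upwards [eventually_ge_atTop n0] with N hN n hn
  exact h0 n (hN.trans (Finset.mem_Ico.mp hn).1)

lemma Seq.size (h : Seq x g) {η : ℝ} (hη : 0 < η) (hηg : η ≤ g) :
    ∀ᶠ N : ℕ in atTop, ∀ n ∈ Finset.Ico N (2 * N), (N:ℝ) ^ (g - η) ≤ x n ∧ x n ≤ (N:ℝ) ^ (g + η) := by
  have h2 : 0 < η / 2 := by positivity
  filter_upwards [ev_block (h.size0 h2), big_pow (2 ^ (g + η / 2)) h2, eventually_ge_atTop 1] with N h3 h4 h5 n hn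
  have hN : (1:ℝ) ≤ N := by exact_mod_cast h5
  obtain ⟨a1, a2⟩ := h3 n hn
  rw [Finset.mem_Ico] at hn
  have b1 : (N:ℝ) ≤ n := by exact_mod_cast hn.1
  have b2 : (n:ℝ) ≤ 2 * N := by exact_mod_cast hn.2.le
  constructor
  · refine le_trans ?_ a1
    calc (N:ℝ) ^ (g - η) ≤ (N:ℝ) ^ (g - η / 2) := Real.rpow_le_rpow_of_exponent_le hN (by linarith)
      _ ≤ _ := Real.rpow_le_rpow (by linarith) b1 (by linarith)
  · refine a2.trans ?_
    have hg := h.g0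
    calc (n:ℝ) ^ (g + η / 2) ≤ (2 * N) ^ (g + η / 2) := Real.rpow_le_rpow (by linarith) b2 (by linarith)
      _ = 2 ^ (g + η / 2) * (N:ℝ) ^ (g + η / 2) := Real.mul_rpow (by norm_num) (by linarith)
      _ ≤ (N:ℝ) ^ (η / 2) * (N:ℝ) ^ (g + η / 2) := by gcongr
      _ = _ := by rw [← Real.rpow_add (by linarith)]; congr 1; ring

lemma Seq.gaps (h : Seq x g) {η : ℝ} (hη : 0 < η) :
    ∀ᶠ N : ℕ in atTop, ∀ m ∈ Finset.Ico N (2 * N), ∀ n ∈ Finset.Ico N (2 * N), m < n →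
      (N:ℝ) ^ (min g 1 - 1 - η) * ((n:ℝ) - m) ≤ x n - x m := by
  have h2 : 0 < η / 2 := by positivity
  have hmin : min g 1 - 1 ≤ 0 := by have := min_le_right g 1; linarith
  filter_upwards [ev_block (h.gap (η / 2) h2), big_pow (2 ^ (-(min g 1 - 1 - η / 2))) h2, eventually_ge_atTop 1]
    with N h3 h4 h5 m hm n hn hmn
  have hN : (1:ℝ) ≤ N := by exact_mod_cast h5
  have hN0 : (0:ℝ) < N := by linarith
  -- each gap
  have hk : ∀ j ∈ Finset.Ico N (2 * N), (N:ℝ) ^ (min g 1 - 1 - η) ≤ x (j + 1) - x j := by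
    intro j hj
    refine le_trans ?_ (h3 j hj)
    rw [Finset.mem_Ico] at hj
    have b1 : (N:ℝ) ≤ j := by exact_mod_cast hj.1
    have b2 : (j:ℝ) ≤ 2 * N := by exact_mod_cast hj.2.le
    have e1 : (2 * (N:ℝ)) ^ (min g 1 - 1 - η / 2) ≤ (j:ℝ) ^ (min g 1 - 1 - η / 2) :=
      Real.rpow_le_rpow_of_nonpos (by linarith) b2 (by linarith)
    refine le_trans ?_ e1
    rw [Real.mul_rpow (by norm_num) hN0.le]
    rw [Real.rpow_neg (by norm_num), inv_le_comm₀ (by positivity) (by positivity), ← Real.rpow_neg hN0.le] at h4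
    calc (N:ℝ) ^ (min g 1 - 1 - η) = (N:ℝ) ^ (-(η / 2)) * (N:ℝ) ^ (min g 1 - 1 - η / 2) := by
          rw [← Real.rpow_add hN0]; congr 1; ring
      _ ≤ _ := by gcongr
  obtain ⟨d, rfl⟩ := Nat.exists_eq_add_of_lt hmn
  clear hmn
  have key : ∀ d : ℕ, m + d ∈ Finset.Ico N (2 * N) → (N:ℝ) ^ (min g 1 - 1 - η) * d ≤ x (m + d) - x m := by
    intro d
    induction d with
    | zero => intro _; simp
    | succ d ih =>
      intro hd
      have hd' : m + d ∈ Finset.Ico N (2 * N) := by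
        rw [Finset.mem_Ico] at hd hm ⊢; omega
      have i1 := ih hd'
      have i2 := hk _ hd'
      have : m + (d + 1) = m + d + 1 := by ring
      rw [this]
      push_cast
      linarith
  have := key (d + 1) hn
  have e : m + (d + 1) = m + d + 1 := by ring
  rw [e] at this
  refine le_trans (le_of_eq ?_) this
  push_cast
  ring

lemma subdiv {F : Set ℝ} (hF : MeasurableSet F) {Y δ P : ℝ} (hδ0 : 0 < δ) (hδ : δ ≤ 1 / 4)
    (h : ∀ s l : ℝ, Y ≤ s → δ ≤ l → l ≤ 1 / 2 → volume.real (F ∩ Icc s (s + l)) ≤ P * l) :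
    ∀ s l : ℝ, Y ≤ s → δ ≤ l → volume.real (F ∩ Icc s (s + l)) ≤ P * l := by
  intro s l hs hl
  rcases le_or_gt l (1 / 2) with h1 | h1
  · exact h s l hs hl h1
  set k := ⌈2 * l⌉₊ with hk
  have k1 : 2 * l ≤ k := Nat.le_ceil _
  have k2 : (k:ℝ) < 2 * l + 1 := Nat.ceil_lt_add_one (by linarith)
  have k0 : (0:ℝ) < k := by linarith
  set w := l / k with hw
  have w1 : w ≤ 1 / 2 := by rw [hw, div_le_iff₀ k0]; linarith
  have w2 : 1 / 4 ≤ w := by rw [hw, le_div_iff₀ k0]; linarith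
  have key : ∀ j : ℕ, prm F (s + j * w) - prm F s ≤ P * (j * w) := by
    intro j
    induction j with
    | zero => simp
    | succ j ih =>
      have hj0 : (0:ℝ) ≤ j * w := by positivity
      have i1 := h (s + j * w) w (by linarith) (by linarith) w1
      rw [← prm_vol hF (by linarith)] at i1
      have e1 : s + ((j + 1 : ℕ) : ℝ) * w = s + j * w + w := by push_cast; ring
      rw [e1]
      push_cast
      linarith
  have h2 := key k
  have e2 : (k:ℝ) * w = l := by rw [hw]; field_simp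
  rw [e2, prm_vol hF (by linarith)] at h2
  exact h2

lemma t1 {ν K C c a b : ℝ} (hν : 0 < ν) (hc : 0 < c) :
    ν * (K * (C * ν ^ a)) / (ν * (c * ν ^ b) / 2) ^ 2 = 4 * K * C / c ^ 2 * ν ^ (a - 1 - 2 * b) := by
  have e : ν ^ (a - 1 - 2 * b) = ν ^ a / (ν * (ν ^ b * ν ^ b)) := by
    rw [Real.rpow_sub hν, Real.rpow_sub hν, Real.rpow_one, two_mul, Real.rpow_add hν, div_div]
  have hb : 0 < ν ^ b := by positivity
  rw [e]
  field_simp
  ring

lemma t2 {ν C c a b d k Z L : ℝ} (hν : 0 < ν) (hc : 0 < c) :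
    ν * (C * ν ^ a * ν ^ d / ν ^ k * (2 * (C * ν ^ a) * Z) * (2 * L)) / (ν * (c * ν ^ b) / 2) ^ 2 =
      16 * C ^ 2 / c ^ 2 * (Z * L) * ν ^ (2 * a + d - k - 1 - 2 * b) := by
  have e : ν ^ (2 * a + d - k - 1 - 2 * b) = ν ^ a * ν ^ a * ν ^ d / ν ^ k / (ν * (ν ^ b * ν ^ b)) := by
    rw [Real.rpow_sub hν, Real.rpow_sub hν, Real.rpow_sub hν, Real.rpow_one, two_mul b, Real.rpow_add hν b b,
      Real.rpow_add hν, two_mul, Real.rpow_add hν, div_div _ ν]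
  have hb : 0 < ν ^ b := by positivity
  have hk : 0 < ν ^ k := by positivity
  rw [e]
  field_simp
  ring

set_option maxHeartbeats 2000000 in
/-- the exceptional set has small measure -/
theorem bad_small (h : Seq x g) {r e c0 c1 u0 u1 : ℝ} (hr : 0 < r) (he : 0 < e) (he1 : e ≤ 1)
    (hm1 : e * (8 * r ^ 2 + 2 * g + 12) ≤ min g 1 / 2) (hm2 : e * (8 * r ^ 2 + 2 * g + 12) ≤ 1 - g * r ^ 2)
    (hc0 : 0 < c0) (hc : c0 ≤ c1) (hu : u0 ≤ u1) :
    ∃ (F : Set ℝ) (A c : ℝ), MeasurableSet F ∧ 0 < A ∧ 0 < c ∧ (∀ y ∈ F, 0 < y ∧ y ^ r ≤ A * ff y) ∧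
      ∀ᶠ N : ℕ in atTop, (box c0 c1 u0 u1).real {q | q.1 ∈ Icc c0 c1 ∧ q.2 ∈ Icc u0 u1 ∧
        ∑ n ∈ Finset.Ico N (2 * N), chi F (q.2 + q.1 * x n) ≤ N * (c * (N:ℝ) ^ (-((r ^ 2 + e) * (g + 2 * e)))) / 2} ≤
        (N:ℝ) ^ (-e) ∧ ∀ n ∈ Finset.Ico N (2 * N), (N:ℝ) ^ (g - 2 * e) ≤ u0 + c0 * x n := by
  have hg := h.g0
  set σ := min g 1 / 2 with hσ
  have hσ0 : 0 < σ := by rw [hσ]; positivity
  have hσg : σ ≤ g / 2 := by rw [hσ]; have := min_le_left g 1; linarith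
  have hr2 : 0 ≤ r ^ 2 := by positivity
  have he12 : 12 * e ≤ σ := by nlinarith [mul_nonneg he.le hr2, mul_nonneg he.le hg.le]
  have heg : 24 * e ≤ g := by linarith
  set α := 1 - σ / (2 * g) with hα
  have hα1 : α < 1 := by
    rw [hα]
    have : 0 < σ / (2 * g) := by positivity
    linarith
  have hα2 : σ / (2 * g) ≤ 1 / 4 := by
    rw [div_le_iff₀ (by positivity)]; linarith
  have hα0 : 0 ≤ α := by rw [hα]; linarith
  obtain ⟨F, A, c, C, Y0, mF, hA, hcc, hC, hY01, hFf, hreg⟩ := reg (r := r) (ε := e) (α := α) hr he hα0 hα1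
  refine ⟨F, A, c, mF, hA, hcc, hFf, ?_⟩
  set a := -(r ^ 2 * (g - 2 * e)) with ha
  set b := -((r ^ 2 + e) * (g + 2 * e)) with hb
  set d := -(g - σ) with hd
  set k := min g 1 - 1 - e with hk
  have hk' : k = 2 * σ - 1 - e := by rw [hk, hσ]; ring
  set K1 : ℝ := (c1 - c0) * (2 * (u1 - u0 + 2)) with hK1
  set K2 : ℝ := (u1 - u0) + (c1 - c0) + 2 with hK2
  have hK10 : 0 ≤ K1 := by
    have : 0 ≤ c1 - c0 := by linarith
    have : 0 ≤ u1 - u0 + 2 := by linarith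
    positivity
  have hK20 : 0 ≤ K2 := by linarith
  have hge : 0 < g - 2 * e := by linarith
  filter_upwards [h.size he (by linarith), h.gaps he, big_pow Y0 hge, big_pow 4 (show 0 < g - σ by linarith),
    big_pow (2 / c0) he, big_pow (2 * |u0| / c0) (show 0 < g - e by linarith),
    big_pow (|u1| + 1 + c1) he, log_small he, big_pow (4 * K1 * C / c ^ 2 + 16 * C ^ 2 / c ^ 2 * K2) he,
    eventually_ge_atTop 1] with N hsz hgp hY hδ4 hc1' hu0' hu1' hlog hKb hN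
  have hN1 : (1:ℝ) ≤ N := by exact_mod_cast hN
  have hN0 : (0:ℝ) < N := by linarith
  set ν : ℝ := (N:ℝ) with hν
  set δ := ν ^ d with hδ
  have hδ0 : 0 < δ := by positivity
  have hδ1 : δ ≤ 1 / 4 := by
    rw [hδ, hd, Real.rpow_neg hN0.le, one_div]
    exact inv_anti₀ (by norm_num) hδ4
  set Y := ν ^ (g - 2 * e) with hYd
  have hY1 : 1 ≤ Y := Real.one_le_rpow hN1 hge.le
  -- sizes
  have hlow : ∀ n ∈ Finset.Ico N (2 * N), Y ≤ u0 + c0 * x n := by
    intro n hn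
    have s1 := (hsz n hn).1
    have s2 : ν ^ (g - e) = ν ^ e * Y := by rw [hYd, ← Real.rpow_add hN0]; congr 1; ring
    have s3 : 2 * Y ≤ c0 * ν ^ (g - e) := by
      rw [s2]
      rw [div_le_iff₀ hc0] at hc1'
      nlinarith
    have s4 : 2 * |u0| ≤ c0 * ν ^ (g - e) := by
      rw [div_le_iff₀ hc0] at hu0'
      linarith
    have s5 : c0 * ν ^ (g - e) ≤ c0 * x n := mul_le_mul_of_nonneg_left s1 hc0.le
    have := neg_abs_le u0
    linarith
  have hupp : ∀ n ∈ Finset.Ico N (2 * N), u1 + c1 * x n ≤ ν ^ (g + 2 * e) := by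
    intro n hn
    have s1 := (hsz n hn).2
    have s2 : ν ^ (g + 2 * e) = ν ^ e * ν ^ (g + e) := by rw [← Real.rpow_add hN0]; congr 1; ring
    have s3 : 1 ≤ ν ^ (g + e) := Real.one_le_rpow hN1 (by linarith)
    rw [s2]
    have s4 : c1 * x n ≤ c1 * ν ^ (g + e) := mul_le_mul_of_nonneg_left s1 (by linarith)
    have s5 := le_abs_self u1
    have s6 := abs_nonneg u1
    calc u1 + c1 * x n ≤ |u1| * ν ^ (g + e) + c1 * ν ^ (g + e) := by
          have : |u1| * 1 ≤ |u1| * ν ^ (g + e) := mul_le_mul_of_nonneg_left s3 s6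
          linarith
      _ ≤ (|u1| + 1 + c1) * ν ^ (g + e) := by nlinarith
      _ ≤ _ := mul_le_mul_of_nonneg_right hu1' (by linarith)
  -- the lengths are admissible
  have hadm : ∀ s : ℝ, Y ≤ s → s ^ (-α) ≤ δ := by
    intro s hs
    calc s ^ (-α) ≤ Y ^ (-α) := Real.rpow_le_rpow_of_nonpos (by linarith) hs (by linarith)
      _ = ν ^ ((g - 2 * e) * (-α)) := by rw [hYd, ← Real.rpow_mul hN0.le]
      _ ≤ δ := by
          rw [hδ]
          refine Real.rpow_le_rpow_of_exponent_le hN1 ?_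
          rw [hd, hα]
          have : g * (σ / (2 * g)) = σ / 2 := by field_simp
          have h3 : 0 ≤ e * (σ / (2 * g)) := by positivity
          nlinarith
  -- upper bound
  have hU := subdiv mF hδ0 hδ1 (Y := Y) (P := C * ν ^ a) (by
    intro s l hs hl1 hl2
    have hs0 : 0 < s := by linarith
    refine (hreg s (hY.trans hs) l ((hadm s hs).trans hl1) hl2).2.trans ?_
    have : s ^ (-(r ^ 2)) ≤ ν ^ a := by
      calc s ^ (-(r ^ 2)) ≤ Y ^ (-(r ^ 2)) := Real.rpow_le_rpow_of_nonpos (by linarith) hs (by linarith)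
        _ = ν ^ a := by rw [hYd, ← Real.rpow_mul hN0.le, ha]; congr 1; ring
    have hl0 : 0 ≤ l := by linarith
    calc C * l * s ^ (-(r ^ 2)) ≤ C * l * ν ^ a := by gcongr
      _ = _ := by ring)
  -- lower bound
  have hL : ∀ n ∈ Finset.Ico N (2 * N), ∀ y, u0 + c0 * x n ≤ y → y ≤ u1 + c1 * x n →
      c * ν ^ b * δ ≤ volume.real (F ∩ Icc y (y + δ)) := by
    intro n hn y hy1 hy2
    have hyY : Y ≤ y := (hlow n hn).trans hy1
    have hy0 : 0 < y := by linarith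
    refine le_trans ?_ (hreg y (hY.trans hyY) δ (hadm y hyY) (by linarith)).1
    have : ν ^ b ≤ y ^ (-(r ^ 2) - e) := by
      have g1 : y ≤ ν ^ (g + 2 * e) := hy2.trans (hupp n hn)
      calc ν ^ b = (ν ^ (g + 2 * e)) ^ (-(r ^ 2) - e) := by
            rw [← Real.rpow_mul hN0.le, hb]; congr 1; ring
        _ ≤ _ := Real.rpow_le_rpow_of_nonpos hy0 g1 (by linarith)
    calc c * ν ^ b * δ ≤ c * y ^ (-(r ^ 2) - e) * δ := by gcongr
      _ = _ := by ring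
  have hmain := cheb (x := x) (N := N) (X := ν ^ (g + e)) (κ := ν ^ k) (γ := c * ν ^ b) mF hδ0 (by linarith)
    (by positivity) hU hc0 hc hu (by positivity) hN (by positivity)
    (fun n hn => ⟨h.pos n, (hsz n hn).2, hlow n hn⟩) (fun m hm n hn hmn => hgp m hm n hn hmn) hL
  refine ⟨hmain.trans ?_, hlow⟩
  rw [add_div]
  have q1 : ν * ((c1 - c0) * (2 * (C * ν ^ a) * (u1 - u0 + 2))) / (ν * (c * ν ^ b) / 2) ^ 2 =
      4 * K1 * C / c ^ 2 * ν ^ (a - 1 - 2 * b) := by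
    rw [← t1 hN0 hcc]
    congr 1
    rw [hK1]; ring
  have q2 : ν * (C * ν ^ a * δ / ν ^ k * (2 * (C * ν ^ a) * (u1 - u0 + (c1 - c0) * ν ^ (g + e) + 2)) * (2 * (1 + Real.log ν))) /
      (ν * (c * ν ^ b) / 2) ^ 2 =
      16 * C ^ 2 / c ^ 2 * ((u1 - u0 + (c1 - c0) * ν ^ (g + e) + 2) * (1 + Real.log ν)) * ν ^ (2 * a + d - k - 1 - 2 * b) := by
    rw [hδ, t2 hN0 hcc]
  rw [q1, q2]
  have hG1 : 1 ≤ ν ^ (g + e) := Real.one_le_rpow hN1 (by linarith)
  have q3 : (u1 - u0 + (c1 - c0) * ν ^ (g + e) + 2) * (1 + Real.log ν) ≤ K2 * ν ^ (g + e) * ν ^ e := by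
    have hl0 : 0 ≤ 1 + Real.log ν := by have := Real.log_nonneg hN1; linarith
    refine mul_le_mul ?_ hlog hl0 (by positivity)
    rw [hK2]
    nlinarith
  have q4 : ν ^ (a - 1 - 2 * b) ≤ ν ^ (-(2 * e)) := by
    refine Real.rpow_le_rpow_of_exponent_le hN1 ?_
    rw [ha, hb]
    nlinarith [mul_nonneg he.le hr2, mul_nonneg he.le hg.le, mul_nonneg he.le he.le, mul_le_mul_of_nonneg_left he1 he.le]
  have q5 : ν ^ (g + e) * ν ^ e * ν ^ (2 * a + d - k - 1 - 2 * b) ≤ ν ^ (-(2 * e)) := by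
    rw [← Real.rpow_add hN0, ← Real.rpow_add hN0]
    refine Real.rpow_le_rpow_of_exponent_le hN1 ?_
    rw [ha, hb, hd, hk']
    nlinarith [mul_nonneg he.le hr2, mul_nonneg he.le hg.le, mul_nonneg he.le he.le, mul_le_mul_of_nonneg_left he1 he.le]
  calc 4 * K1 * C / c ^ 2 * ν ^ (a - 1 - 2 * b) + 16 * C ^ 2 / c ^ 2 *
        ((u1 - u0 + (c1 - c0) * ν ^ (g + e) + 2) * (1 + Real.log ν)) * ν ^ (2 * a + d - k - 1 - 2 * b) ≤
      4 * K1 * C / c ^ 2 * ν ^ (-(2 * e)) + 16 * C ^ 2 / c ^ 2 *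
        (K2 * ν ^ (g + e) * ν ^ e) * ν ^ (2 * a + d - k - 1 - 2 * b) := by gcongr
    _ = 4 * K1 * C / c ^ 2 * ν ^ (-(2 * e)) + 16 * C ^ 2 / c ^ 2 * K2 *
        (ν ^ (g + e) * ν ^ e * ν ^ (2 * a + d - k - 1 - 2 * b)) := by ring
    _ ≤ 4 * K1 * C / c ^ 2 * ν ^ (-(2 * e)) + 16 * C ^ 2 / c ^ 2 * K2 * ν ^ (-(2 * e)) := by gcongr
    _ = (4 * K1 * C / c ^ 2 + 16 * C ^ 2 / c ^ 2 * K2) * ν ^ (-(2 * e)) := by ring
    _ ≤ ν ^ e * ν ^ (-(2 * e)) := by gcongr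
    _ = ν ^ (-e) := by rw [← Real.rpow_add hN0]; congr 1; ring

end Pool.Agent.N798.Z
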