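import Pool.Agent.N798.Z5

set_option autoImplicit false

/-! Almost sure upper bounds for the sums of powers, almost sure lower bounds for the number of large values. -/

namespace Pool.Agent.N798.Z

open MeasureTheory Filter Topology Set
open Pool.Agent.W184 (zn zn_nonneg zn_cont zp_cont)

lemma bc {Ω : Type} [MeasurableSpace Ω] (μ : Measure Ω) [IsFiniteMeasure μ] (s : ℕ → Set Ω) {f : ℕ → ℝ}
    (hf : Summable f) (h : ∀ᶠ k in atTop, μ.real (s k) ≤ f k) : ∀ᵐ x ∂μ, ∀ᶠ k in atTop, x ∉ s k := by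
  obtain ⟨K, hK⟩ := eventually_atTop.mp h
  have h1 : ∑' k, μ (s (k + K)) ≠ ⊤ := by
    have h2 : ∀ k, μ (s (k + K)) ≤ ENNReal.ofReal (f (k + K)) := by
      intro k
      have := hK (k + K) (by omega)
      rw [measureReal_def] at this
      exact (ENNReal.le_ofReal_iff_toReal_le (measure_ne_top _ _) (ENNReal.toReal_nonneg.trans this)).mpr this
    exact ne_top_of_le_ne_top (((summable_nat_add_iff K).mpr hf).tsum_ofReal_ne_top) (ENNReal.tsum_le_tsum h2)
  filter_upwards [ae_eventually_notMem h1] with x hx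
  obtain ⟨k0, hk0⟩ := eventually_atTop.mp hx
  filter_upwards [eventually_ge_atTop (k0 + K)] with k hk
  have := hk0 (k - K) (by omega)
  rwa [show k - K + K = k by omega] at this

lemma geo_summable {τ : ℝ} (hτ : 0 < τ) : Summable fun k : ℕ => ((2:ℝ) ^ k) ^ (-τ) := by
  have h1 : ∀ k : ℕ, ((2:ℝ) ^ k) ^ (-τ) = ((2:ℝ) ^ (-τ)) ^ k := by
    intro k
    rw [← Real.rpow_natCast, ← Real.rpow_natCast, ← Real.rpow_mul (by norm_num), ← Real.rpow_mul (by norm_num)]
    congr 1; ring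
  simp_rw [h1]
  refine summable_geometric_of_lt_one (by positivity) ?_
  exact Real.rpow_lt_one_of_one_lt_of_neg (by norm_num) (by linarith)

lemma two_pow_ev {P : ℕ → Prop} (h : ∀ᶠ N : ℕ in atTop, P N) : ∀ᶠ k : ℕ in atTop, P (2 ^ k) :=
  (tendsto_pow_atTop_atTop_of_one_lt (by norm_num : 1 < 2)).eventually h

theorem ff_mom {p : ℝ} (hp : 0 < p) (hp4 : p ≤ 4) : ∃ C Y0 : ℝ, 0 < C ∧ 1 ≤ Y0 ∧ ∀ Y, Y0 ≤ Y →
    ∫ y in Y..(Y + 1), ff y ^ p ≤ C * Y ^ (p ^ 2 / 4) := by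
  obtain ⟨C, hC, h⟩ := mom_line hp hp4
  obtain ⟨T0, hT0⟩ := eventually_atTop.mp h
  refine ⟨C * Real.exp 1 * 16, max (Real.log (max T0 1)) 1, by positivity, le_max_right _ _, fun Y hY => ?_⟩
  have hY1 : 1 ≤ Y := (le_max_right _ _).trans hY
  have hY0 : 0 < Y := by linarith
  have h1 : T0 ≤ Real.exp (Y + 1) := by
    have h2 : Real.log (max T0 1) ≤ Y := (le_max_left _ _).trans hY
    rw [Real.log_le_iff_le_exp (lt_of_lt_of_le one_pos (le_max_right _ _))] at h2
    exact (le_max_left _ _).trans (h2.trans (Real.exp_le_exp.mpr (by linarith)))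
  have hm := hT0 _ h1
  rw [Real.log_exp] at hm
  have hzc := zp_cont (σ := 1 / 2) (by norm_num) hp
  have hsub := intervalIntegral.integral_comp_mul_deriv (a := Y) (b := Y + 1) (f := Real.exp) (f' := Real.exp)
    (g := fun t => zn (1 / 2) t ^ p) (fun x _ => Real.hasDerivAt_exp x) Real.continuous_exp.continuousOn hzc
  have h3 : Real.exp Y * ∫ y in Y..(Y + 1), ff y ^ p ≤ ∫ t in (Real.exp Y)..(Real.exp (Y + 1)), zn (1 / 2) t ^ p := by
    rw [← hsub, ← intervalIntegral.integral_const_mul]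
    have hcf : Continuous fun y => ff y ^ p := ff_cont.rpow_const fun _ => Or.inr hp.le
    refine intervalIntegral.integral_mono_on (by linarith) (continuous_const.mul hcf |>.intervalIntegrable _ _)
      ((hcf.mul Real.continuous_exp).intervalIntegrable _ _) fun y hy => ?_
    have : Real.exp Y ≤ Real.exp y := Real.exp_le_exp.mpr hy.1
    have h0 : 0 ≤ ff y ^ p := Real.rpow_nonneg (ff_nonneg y) _
    show Real.exp Y * ff y ^ p ≤ ff y ^ p * Real.exp y
    nlinarith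
  have h4 : ∫ t in (Real.exp Y)..(Real.exp (Y + 1)), zn (1 / 2) t ^ p ≤ ∫ t in (0:ℝ)..(Real.exp (Y + 1)), zn (1 / 2) t ^ p :=
    intervalIntegral.integral_mono_interval (Real.exp_pos _).le (Real.exp_le_exp.mpr (by linarith)) le_rfl
      (Eventually.of_forall fun t => Real.rpow_nonneg (zn_nonneg _ _) _) (hzc.intervalIntegrable _ _)
  have hq : 0 < p ^ 2 / 4 := by positivity
  have hq4 : p ^ 2 / 4 ≤ 4 := by nlinarith
  have h5 : (Y + 1) ^ (p ^ 2 / 4) ≤ 16 * Y ^ (p ^ 2 / 4) := by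
    calc (Y + 1) ^ (p ^ 2 / 4) ≤ (2 * Y) ^ (p ^ 2 / 4) := Real.rpow_le_rpow (by linarith) (by linarith) hq.le
      _ = 2 ^ (p ^ 2 / 4) * Y ^ (p ^ 2 / 4) := Real.mul_rpow (by norm_num) hY0.le
      _ ≤ 16 * Y ^ (p ^ 2 / 4) := by
        refine mul_le_mul_of_nonneg_right ?_ (by positivity)
        calc (2:ℝ) ^ (p ^ 2 / 4) ≤ (2:ℝ) ^ (4:ℝ) := Real.rpow_le_rpow_of_exponent_le (by norm_num) hq4
          _ = 16 := by norm_num
  have h6 : Real.exp Y * ∫ y in Y..(Y + 1), ff y ^ p ≤ Real.exp Y * (C * Real.exp 1 * 16 * Y ^ (p ^ 2 / 4)) := by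
    refine (h3.trans (h4.trans hm)).trans ?_
    rw [Real.exp_add]
    calc C * (Real.exp Y * Real.exp 1 * (Y + 1) ^ (p ^ 2 / 4)) ≤
        C * (Real.exp Y * Real.exp 1 * (16 * Y ^ (p ^ 2 / 4))) := by gcongr
      _ = _ := by ring
  exact le_of_mul_le_mul_left h6 (Real.exp_pos _)

/-- from dyadic to all `N`, upper bounds -/
lemma dyad_up {S : ℕ → ℝ} (hS : Monotone S) {s ε : ℝ} (hs : 0 ≤ s) (hε : 0 < ε)
    (h : ∀ᶠ k : ℕ in atTop, S (2 ^ k) ≤ ((2:ℝ) ^ k) ^ s) : ∀ᶠ N : ℕ in atTop, S N ≤ (N:ℝ) ^ (s + ε) := by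
  obtain ⟨k0, hk0⟩ := eventually_atTop.mp h
  filter_upwards [big_pow (2 ^ s) hε, eventually_ge_atTop (2 ^ k0)] with N h1 h2
  have hN1 : 1 ≤ N := le_trans Nat.one_le_two_pow h2
  have hN0 : (0:ℝ) < N := by exact_mod_cast hN1
  set k := Nat.log 2 N + 1 with hk
  have k1 : N ≤ 2 ^ k := (Nat.lt_pow_succ_log_self (by norm_num) N).le
  have k2 : 2 ^ k ≤ 2 * N := by
    have := Nat.pow_log_le_self 2 (show N ≠ 0 by omega)
    rw [hk, pow_succ]; omega
  have k3 : k0 ≤ k := by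
    have : k0 ≤ Nat.log 2 N := Nat.le_log_of_pow_le (by norm_num) h2
    omega
  have k4 : ((2:ℝ) ^ k) ≤ 2 * N := by exact_mod_cast k2
  calc S N ≤ S (2 ^ k) := hS k1
    _ ≤ ((2:ℝ) ^ k) ^ s := hk0 k k3
    _ ≤ (2 * N) ^ s := Real.rpow_le_rpow (by positivity) k4 hs
    _ = 2 ^ s * (N:ℝ) ^ s := Real.mul_rpow (by norm_num) hN0.le
    _ ≤ (N:ℝ) ^ ε * (N:ℝ) ^ s := by gcongr
    _ = _ := by rw [← Real.rpow_add hN0]; congr 1; ring

/-- almost sure upper bounds -/
theorem upp {y : ℕ → ℝ} {g : ℝ} (hg : 0 < g) (hy : ∀ n, 0 < y n)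
    (hlim : Tendsto (fun n : ℕ => Real.log (y n) / Real.log n) atTop (𝓝 g)) {p : ℝ} (hp : 0 < p) (hp4 : p ≤ 4) (u0 : ℝ)
    {ε : ℝ} (hε : 0 < ε) :
    ∀ᵐ u ∂(volume.restrict (Icc u0 (u0 + 1))), ∀ᶠ N : ℕ in atTop,
      ∑ n ∈ Finset.range N, ff (u + y n) ^ p ≤ (N:ℝ) ^ (1 + g * p ^ 2 / 4 + ε) := by
  obtain ⟨C, Y0, hC, hY0, hff⟩ := ff_mom hp hp4
  set θ := g * p ^ 2 / 4 with hθ
  have hθ0 : 0 < θ := by positivity
  have hcf : Continuous fun y => ff y ^ p := ff_cont.rpow_const fun _ => Or.inr hp.le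
  have hnn : ∀ y, 0 ≤ ff y ^ p := fun y => Real.rpow_nonneg (ff_nonneg y) _
  set a : ℕ → ℝ := fun n => ∫ u in Icc u0 (u0 + 1), ff (u + y n) ^ p with ha
  have ha0 : ∀ n, 0 ≤ a n := fun n => integral_nonneg fun u => hnn _
  have hae : ∀ n, a n = ∫ z in (u0 + y n)..(u0 + y n + 1), ff z ^ p := by
    intro n
    simp only [ha]
    rw [integral_Icc_eq_integral_Ioc, ← intervalIntegral.integral_of_le (by linarith),
      intervalIntegral.integral_comp_add_right (fun z => ff z ^ p)]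
    congr 1; ring
  -- the size of y n
  set η := ε / (p ^ 2 + 1) with hη
  have hη0 : 0 < η := by positivity
  have hηp : η * (p ^ 2 / 4) ≤ ε / 4 := by
    have : η * p ^ 2 ≤ ε := by
      rw [hη, div_mul_eq_mul_div, div_le_iff₀ (by positivity)]
      nlinarith
    linarith
  have hbig : ∀ᶠ n : ℕ in atTop, a n ≤ ((n:ℝ) + 1) ^ (θ + ε / 3) := by
    have hyn : ∀ᶠ n : ℕ in atTop, (n:ℝ) ^ (g / 2) ≤ y n ∧ y n ≤ (n:ℝ) ^ (g + η) := by
      filter_upwards [hlim.eventually (Metric.ball_mem_nhds g (show 0 < min (g / 2) η by positivity)),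
        eventually_ge_atTop 2] with n h1 h2
      have hn : (1:ℝ) < n := by exact_mod_cast (by omega : 1 < n)
      have hl := Real.log_pos hn
      rw [Real.dist_eq] at h1
      obtain ⟨h3, h4⟩ := abs_lt.mp h1
      have m1 := min_le_left (g / 2) η
      have m2 := min_le_right (g / 2) η
      have h5 : g / 2 < Real.log (y n) / Real.log n := by linarith
      have h6 : Real.log (y n) / Real.log n < g + η := by linarith
      rw [lt_div_iff₀ hl] at h5
      rw [div_lt_iff₀ hl] at h6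
      constructor
      · rw [Real.rpow_def_of_pos (by linarith), ← Real.le_log_iff_exp_le (hy n)]
        linarith
      · rw [Real.rpow_def_of_pos (by linarith), ← Real.log_le_iff_le_exp (hy n)]
        linarith
    filter_upwards [hyn, big_pow (Y0 + |u0|) (half_pos hg), big_pow (16 * C) (show 0 < ε / 12 by positivity),
      eventually_ge_atTop 1] with n h1 h2 h3 h4
    have hn1 : (1:ℝ) ≤ n := by exact_mod_cast h4
    have hn0 : (0:ℝ) < n := by linarith
    obtain ⟨h5, h6⟩ := h1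
    have h7 := neg_abs_le u0
    have h8 := le_abs_self u0
    have h9 : Y0 ≤ u0 + y n := by linarith
    have h10 : u0 + y n ≤ 2 * y n := by linarith
    rw [hae]
    refine (hff _ h9).trans ?_
    have hq : 0 < p ^ 2 / 4 := by positivity
    have hq4 : p ^ 2 / 4 ≤ 4 := by nlinarith
    have h11 : (u0 + y n) ^ (p ^ 2 / 4) ≤ 16 * (n:ℝ) ^ (θ + ε / 4) := by
      calc (u0 + y n) ^ (p ^ 2 / 4) ≤ (2 * (n:ℝ) ^ (g + η)) ^ (p ^ 2 / 4) :=
            Real.rpow_le_rpow (by linarith) (by linarith) hq.le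
        _ = 2 ^ (p ^ 2 / 4) * (n:ℝ) ^ ((g + η) * (p ^ 2 / 4)) := by
            rw [Real.mul_rpow (by norm_num) (by positivity), ← Real.rpow_mul hn0.le]
        _ ≤ 16 * (n:ℝ) ^ (θ + ε / 4) := by
            refine mul_le_mul ?_ ?_ (by positivity) (by norm_num)
            · calc (2:ℝ) ^ (p ^ 2 / 4) ≤ (2:ℝ) ^ (4:ℝ) := Real.rpow_le_rpow_of_exponent_le (by norm_num) hq4
                _ = 16 := by norm_num
            · refine Real.rpow_le_rpow_of_exponent_le hn1 ?_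
              rw [hθ]; nlinarith
    calc C * (u0 + y n) ^ (p ^ 2 / 4) ≤ C * (16 * (n:ℝ) ^ (θ + ε / 4)) := mul_le_mul_of_nonneg_left h11 hC.le
      _ = (16 * C) * (n:ℝ) ^ (θ + ε / 4) := by ring
      _ ≤ (n:ℝ) ^ (ε / 12) * (n:ℝ) ^ (θ + ε / 4) := by gcongr
      _ = (n:ℝ) ^ (θ + ε / 3) := by rw [← Real.rpow_add hn0]; congr 1; ring
      _ ≤ _ := Real.rpow_le_rpow hn0.le (by linarith) (by positivity)
  obtain ⟨n0, hn0⟩ := eventually_atTop.mp hbig
  set C' : ℝ := 1 + ∑ n ∈ Finset.range n0, a n with hC'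
  have hC'1 : 1 ≤ C' := by
    have : 0 ≤ ∑ n ∈ Finset.range n0, a n := Finset.sum_nonneg fun n _ => ha0 n
    linarith
  have hall : ∀ n : ℕ, a n ≤ C' * ((n:ℝ) + 1) ^ (θ + ε / 3) := by
    intro n
    have h1 : (1:ℝ) ≤ ((n:ℝ) + 1) ^ (θ + ε / 3) := Real.one_le_rpow (by have : (0:ℝ) ≤ n := Nat.cast_nonneg n; linarith) (by positivity)
    rcases le_or_gt n0 n with h | h
    · refine (hn0 n h).trans ?_
      exact le_mul_of_one_le_left (by positivity) hC'1
    · have h2 : a n ≤ ∑ n ∈ Finset.range n0, a n := Finset.single_le_sum (fun n _ => ha0 n) (Finset.mem_range.mpr h)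
      calc a n ≤ C' := by linarith
        _ ≤ _ := le_mul_of_one_le_right (by linarith) h1
  -- Borel-Cantelli
  set μ : Measure ℝ := volume.restrict (Icc u0 (u0 + 1)) with hμ
  have hint : ∀ n, Integrable (fun u => ff (u + y n) ^ p) μ := fun n =>
    (hcf.comp (continuous_id.add continuous_const)).integrableOn_Icc
  have hSN : ∀ N : ℕ, 1 ≤ N → ∫ u, ∑ n ∈ Finset.range N, ff (u + y n) ^ p ∂μ ≤ C' * (N:ℝ) ^ (1 + θ + ε / 3) := by
    intro N hN
    have hN0 : (0:ℝ) < N := by exact_mod_cast hN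
    rw [integral_finsetSum _ fun n _ => hint n]
    calc ∑ n ∈ Finset.range N, ∫ u, ff (u + y n) ^ p ∂μ ≤ ∑ n ∈ Finset.range N, C' * (N:ℝ) ^ (θ + ε / 3) := by
          refine Finset.sum_le_sum fun n hn => (hall n).trans ?_
          have h1 : (n:ℝ) + 1 ≤ N := by exact_mod_cast Finset.mem_range.mp hn
          refine mul_le_mul_of_nonneg_left (Real.rpow_le_rpow (by positivity) h1 (by positivity)) (by linarith)
      _ = C' * ((N:ℝ) * (N:ℝ) ^ (θ + ε / 3)) := by
          rw [Finset.sum_const, Finset.card_range, nsmul_eq_mul]; ring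
      _ = _ := by
          rw [show 1 + θ + ε / 3 = 1 + (θ + ε / 3) by ring, Real.rpow_add hN0 1, Real.rpow_one]
  have hae2 := bc μ (fun k : ℕ => {u | ((2:ℝ) ^ k) ^ (1 + θ + 2 * ε / 3) ≤ ∑ n ∈ Finset.range (2 ^ k), ff (u + y n) ^ p})
    ((geo_summable (show 0 < ε / 3 by positivity)).mul_left C') (Eventually.of_forall fun k => by
      have h1 := mul_meas_ge_le_integral_of_nonneg (μ := μ)
        (f := fun u => ∑ n ∈ Finset.range (2 ^ k), ff (u + y n) ^ p)
        (Eventually.of_forall fun u => Finset.sum_nonneg fun n _ => hnn _)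
        (integrable_finsetSum _ fun n _ => hint n) (((2:ℝ) ^ k) ^ (1 + θ + 2 * ε / 3))
      have h2 := h1.trans (hSN (2 ^ k) Nat.one_le_two_pow)
      have h3 : (0:ℝ) < (2:ℝ) ^ k := by positivity
      push_cast at h2
      have h4 : C' * ((2:ℝ) ^ k) ^ (1 + θ + ε / 3) = ((2:ℝ) ^ k) ^ (1 + θ + 2 * ε / 3) * (C' * ((2:ℝ) ^ k) ^ (-(ε / 3))) := by
        rw [mul_left_comm, ← Real.rpow_add h3]
        congr 2; ring
      rw [h4] at h2
      exact le_of_mul_le_mul_left h2 (by positivity))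
  filter_upwards [hae2] with u hu
  have hmono : Monotone fun N : ℕ => ∑ n ∈ Finset.range N, ff (u + y n) ^ p := by
    intro M N hMN
    exact Finset.sum_le_sum_of_subset_of_nonneg (Finset.range_mono hMN) fun n _ _ => hnn _
  have := dyad_up hmono (s := 1 + θ + 2 * ε / 3) (ε := ε / 3) (by positivity) (by positivity)
    (hu.mono fun k hk => by
      have hk' : ¬ (((2:ℝ) ^ k) ^ (1 + θ + 2 * ε / 3) ≤ ∑ n ∈ Finset.range (2 ^ k), ff (u + y n) ^ p) := hk
      exact (not_le.mp hk').le)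
  refine this.mono fun N hN => hN.trans (le_of_eq ?_)
  congr 1; ring

end Pool.Agent.N798.Z
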