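import Pool.Agent.N798.Z6

set_option autoImplicit false

/-! Almost sure lower bounds for the number of large values. -/

namespace Pool.Agent.N798.Z

open MeasureTheory Filter Topology Set

variable {x : ℕ → ℝ} {g : ℝ}

lemma chi_sum (F : Set ℝ) (S : Finset ℕ) (w : ℕ → ℝ) [DecidablePred fun n => w n ∈ F] :
    ∑ n ∈ S, chi F (w n) = ((S.filter fun n => w n ∈ F).card : ℝ) := by
  rw [Finset.card_filter]
  push_cast
  refine Finset.sum_congr rfl fun n _ => ?_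
  unfold chi
  by_cases h : w n ∈ F
  · rw [indicator_of_mem h, if_pos h]
  · rw [indicator_of_notMem h, if_neg h]

/-- the choice of the exponent -/
lemma exists_r {v s : ℝ} (hg : 0 < g) (hv : 0 < v) (hvg : v < Real.sqrt g) (hs : s < 1 - v ^ 2 / g) :
    ∃ r : ℝ, 0 < r ∧ v < g * r ∧ g * r ^ 2 < 1 ∧ g * r ^ 2 < 1 - s := by
  have hv2 : v ^ 2 < g := by
    have := Real.sq_sqrt hg.le
    have h0 := Real.sqrt_nonneg g
    nlinarith
  have h1 : v ^ 2 / g < 1 := by rwa [div_lt_one hg]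
  set m := min 1 (1 - s) with hm
  have hm1 : v ^ 2 / g < m := lt_min h1 (by linarith)
  have hm0 : 0 < m := lt_of_le_of_lt (by positivity) hm1
  have h2 : v / g < Real.sqrt (m / g) := by
    rw [Real.lt_sqrt (by positivity), div_pow, lt_div_iff₀ hg]
    calc v ^ 2 / g ^ 2 * g = v ^ 2 / g := by field_simp
      _ < m := hm1
  obtain ⟨r, hr1, hr2⟩ := exists_between h2
  have hr0 : 0 < r := lt_trans (by positivity) hr1
  rw [Real.lt_sqrt hr0.le, lt_div_iff₀ hg] at hr2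
  rw [div_lt_iff₀ hg] at hr1
  refine ⟨r, hr0, by linarith, ?_, ?_⟩
  · have := min_le_left 1 (1 - s); nlinarith
  · have := min_le_right 1 (1 - s); nlinarith

/-- the choice of the small parameter -/
lemma exists_e {v s r : ℝ} (hg : 0 < g) (hr : 0 < r) (h1 : v < g * r) (h2 : g * r ^ 2 < 1) (h3 : g * r ^ 2 < 1 - s) :
    ∃ e : ℝ, 0 < e ∧ e ≤ 1 ∧ e * (8 * r ^ 2 + 2 * g + 12) ≤ min g 1 / 2 ∧ e * (8 * r ^ 2 + 2 * g + 12) ≤ 1 - g * r ^ 2 ∧
      s + e ≤ 1 - (r ^ 2 + e) * (g + 2 * e) ∧ v + e ≤ r * (g - 2 * e) := by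
  set m := min (min (min g 1 / 2) (1 - g * r ^ 2)) (min (1 - s - g * r ^ 2) (g * r - v)) with hm
  have hm0 : 0 < m := by
    refine lt_min (lt_min (by positivity) (by linarith)) (lt_min (by linarith) (by linarith))
  have m1 : m ≤ min g 1 / 2 := (min_le_left _ _).trans (min_le_left _ _)
  have m2 : m ≤ 1 - g * r ^ 2 := (min_le_left _ _).trans (min_le_right _ _)
  have m3 : m ≤ 1 - s - g * r ^ 2 := (min_le_right _ _).trans (min_le_left _ _)
  have m4 : m ≤ g * r - v := (min_le_right _ _).trans (min_le_right _ _)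
  have m5 : m ≤ 1 := m1.trans (by have := min_le_right g 1; linarith)
  have hr2 : 0 ≤ r ^ 2 := by positivity
  set D := 8 * r ^ 2 + 2 * g + 2 * r + 12 with hD
  have hD0 : 12 ≤ D := by rw [hD]; linarith
  refine ⟨m / D, by positivity, ?_, ?_, ?_, ?_, ?_⟩
  · rw [div_le_one (by linarith)]; linarith
  · have : m / D * (8 * r ^ 2 + 2 * g + 12) ≤ m / D * D := mul_le_mul_of_nonneg_left (by rw [hD]; linarith) (by positivity)
    rw [div_mul_cancel₀ _ (by linarith : D ≠ 0)] at this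
    linarith
  · have : m / D * (8 * r ^ 2 + 2 * g + 12) ≤ m / D * D := mul_le_mul_of_nonneg_left (by rw [hD]; linarith) (by positivity)
    rw [div_mul_cancel₀ _ (by linarith : D ≠ 0)] at this
    linarith
  · set e := m / D with he
    have he0 : 0 < e := by positivity
    have he1 : e ≤ 1 := by rw [he, div_le_one (by linarith)]; linarith
    have h5 : e * D = m := by rw [he, div_mul_cancel₀ _ (by linarith : D ≠ 0)]
    have h6 : e * (2 * r ^ 2 + g + 2 * e + 1) ≤ e * D := mul_le_mul_of_nonneg_left (by rw [hD]; linarith) he0.le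
    nlinarith
  · set e := m / D with he
    have he0 : 0 < e := by positivity
    have h5 : e * D = m := by rw [he, div_mul_cancel₀ _ (by linarith : D ≠ 0)]
    have h6 : e * (2 * r + 1) ≤ e * D := mul_le_mul_of_nonneg_left (by rw [hD]; linarith) he0.le
    nlinarith

lemma box_ae (c0 c1 u0 u1 : ℝ) : ∀ᵐ q ∂(box c0 c1 u0 u1), q.1 ∈ Icc c0 c1 ∧ q.2 ∈ Icc u0 u1 := by
  unfold box
  rw [Measure.prod_restrict]
  exact (ae_restrict_mem (measurableSet_Icc.prod measurableSet_Icc)).mono fun q hq => hq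

/-- almost sure lower bounds in dyadic blocks -/
theorem low_block (h : Seq x g) {v s c0 c1 u0 u1 : ℝ} (hv : 0 < v) (hvg : v < Real.sqrt g) (hs : s < 1 - v ^ 2 / g)
    (hc0 : 0 < c0) (hc : c0 ≤ c1) (hu : u0 ≤ u1) :
    ∀ᵐ q ∂(box c0 c1 u0 u1), ∀ᶠ k : ℕ in atTop, ((2:ℝ) ^ k) ^ s ≤
      (((Finset.Ico (2 ^ k) (2 * 2 ^ k)).filter fun n => (4 * (2:ℝ) ^ k) ^ v ≤ ff (q.2 + q.1 * x n)).card : ℝ) := by
  classical
  obtain ⟨r, hr, r1, r2, r3⟩ := exists_r h.g0 hv hvg hs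
  obtain ⟨e, he, he1, e1, e2, e3, e4⟩ := exists_e h.g0 hr r1 r2 r3
  obtain ⟨F, A, c, mF, hA, hc', hFf, hbad⟩ := bad_small h hr he he1 e1 e2 hc0 hc hu
  have hge : 0 < g - 2 * e := by
    have : 0 < r * (g - 2 * e) := by linarith
    exact (pos_iff_pos_of_mul_pos this).mp hr
  have hbad2 := two_pow_ev hbad
  have hB := bc (box c0 c1 u0 u1) (fun k : ℕ => {q | q.1 ∈ Icc c0 c1 ∧ q.2 ∈ Icc u0 u1 ∧
        ∑ n ∈ Finset.Ico (2 ^ k) (2 * 2 ^ k), chi F (q.2 + q.1 * x n) ≤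
          ((2 ^ k : ℕ) : ℝ) * (c * ((2 ^ k : ℕ) : ℝ) ^ (-((r ^ 2 + e) * (g + 2 * e)))) / 2})
    (geo_summable he) (hbad2.mono fun k hk => by
      have := hk.1
      refine this.trans (le_of_eq ?_)
      push_cast
      rfl)
  have hlow : ∀ᶠ k : ℕ in atTop, ∀ n ∈ Finset.Ico (2 ^ k) (2 * 2 ^ k), (((2 ^ k : ℕ) : ℝ)) ^ (g - 2 * e) ≤ u0 + c0 * x n :=
    hbad2.mono fun k hk => hk.2
  have hK1 := two_pow_ev (big_pow (2 / c) he)
  have hK2 := two_pow_ev (big_pow (A * 4 ^ v) he)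
  filter_upwards [hB, box_ae c0 c1 u0 u1] with q hq hq2
  filter_upwards [hq, hlow, hK1, hK2] with k k1 k2 k3 k4
  push_cast at k1 k2 k3 k4
  set ν : ℝ := (2:ℝ) ^ k with hν
  have hν1 : 1 ≤ ν := one_le_pow₀ (by norm_num)
  have hν0 : 0 < ν := by linarith
  have k5 : ν * (c * ν ^ (-((r ^ 2 + e) * (g + 2 * e)))) / 2 <
      ∑ n ∈ Finset.Ico (2 ^ k) (2 * 2 ^ k), chi F (q.2 + q.1 * x n) := by
    by_contra hcon
    exact k1 ⟨hq2.1, hq2.2, not_lt.mp hcon⟩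
  rw [chi_sum F _ fun n => q.2 + q.1 * x n] at k5
  have k6 : ν ^ s ≤ ν * (c * ν ^ (-((r ^ 2 + e) * (g + 2 * e)))) / 2 := by
    have h1 : ν ^ (s + e) ≤ ν * ν ^ (-((r ^ 2 + e) * (g + 2 * e))) := by
      calc ν ^ (s + e) ≤ ν ^ (1 + -((r ^ 2 + e) * (g + 2 * e))) := Real.rpow_le_rpow_of_exponent_le hν1 (by linarith)
        _ = _ := by rw [Real.rpow_add hν0, Real.rpow_one]
    rw [Real.rpow_add hν0] at h1
    have h2 : 1 ≤ c / 2 * ν ^ e := by
      rw [div_le_iff₀ hc'] at k3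
      linarith
    calc ν ^ s ≤ ν ^ s * (c / 2 * ν ^ e) := le_mul_of_one_le_right (by positivity) h2
      _ = c / 2 * (ν ^ s * ν ^ e) := by ring
      _ ≤ c / 2 * (ν * ν ^ (-((r ^ 2 + e) * (g + 2 * e)))) := mul_le_mul_of_nonneg_left h1 (by positivity)
      _ = _ := by ring
  refine (k6.trans k5.le).trans ?_
  refine Nat.cast_le.mpr (Finset.card_le_card fun n hn => ?_)
  rw [Finset.mem_filter] at hn ⊢
  refine ⟨hn.1, ?_⟩
  obtain ⟨j1, j2⟩ := hFf _ hn.2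
  have j3 := k2 n hn.1
  have j4 : ν ^ (g - 2 * e) ≤ q.2 + q.1 * x n := by
    have a1 : c0 * x n ≤ q.1 * x n := mul_le_mul_of_nonneg_right hq2.1.1 (h.pos n).le
    have a2 := hq2.2.1
    linarith
  have j5 : ν ^ (v + e) ≤ (q.2 + q.1 * x n) ^ r := by
    calc ν ^ (v + e) ≤ ν ^ (r * (g - 2 * e)) := Real.rpow_le_rpow_of_exponent_le hν1 e4
      _ = (ν ^ (g - 2 * e)) ^ r := by rw [← Real.rpow_mul hν0.le]; congr 1; ring
      _ ≤ _ := Real.rpow_le_rpow (by positivity) j4 hr.le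
  rw [Real.rpow_add hν0] at j5
  have j6 : A * (4 * ν) ^ v ≤ A * ff (q.2 + q.1 * x n) := by
    rw [Real.mul_rpow (by norm_num) hν0.le]
    calc A * (4 ^ v * ν ^ v) = ν ^ v * (A * 4 ^ v) := by ring
      _ ≤ ν ^ v * ν ^ e := mul_le_mul_of_nonneg_left k4 (by positivity)
      _ ≤ _ := j5.trans j2
  exact le_of_mul_le_mul_left j6 hA

/-- from dyadic blocks to all `N` -/
lemma dyad_low {z : ℕ → ℝ} {v s s' : ℝ} (hv : 0 ≤ v) (hs : s' < s) (hs0 : 0 ≤ s)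
    (h : ∀ᶠ k : ℕ in atTop, ((2:ℝ) ^ k) ^ s ≤
      (((Finset.Ico (2 ^ k) (2 * 2 ^ k)).filter fun n => (4 * (2:ℝ) ^ k) ^ v ≤ z n).card : ℝ)) :
    ∀ᶠ N : ℕ in atTop, (N:ℝ) ^ s' ≤ (((Finset.range N).filter fun n => (N:ℝ) ^ v ≤ z n).card : ℝ) := by
  obtain ⟨k0, hk0⟩ := eventually_atTop.mp h
  filter_upwards [big_pow (4 ^ s) (show 0 < s - s' by linarith), eventually_ge_atTop (2 ^ (k0 + 1))] with N h1 h2
  have hN1 : 1 ≤ N := le_trans Nat.one_le_two_pow h2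
  have hN0 : (0:ℝ) < N := by exact_mod_cast hN1
  have hl : k0 + 1 ≤ Nat.log 2 N := Nat.le_log_of_pow_le (by norm_num) h2
  obtain ⟨k, hk⟩ : ∃ k, Nat.log 2 N = k + 1 := ⟨Nat.log 2 N - 1, by omega⟩
  have k1 : N < 4 * 2 ^ k := by
    have := Nat.lt_pow_succ_log_self (b := 2) (by norm_num) N
    rw [hk] at this
    have e : 2 ^ (k + 1 + 1) = 4 * 2 ^ k := by ring
    omega
  have k2 : 2 * 2 ^ k ≤ N := by
    have := Nat.pow_log_le_self 2 (show N ≠ 0 by omega)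
    rw [hk] at this
    have e : 2 ^ (k + 1) = 2 * 2 ^ k := by ring
    omega
  have k3 : (N:ℝ) ≤ 4 * 2 ^ k := by exact_mod_cast k1.le
  have h3 := hk0 k (by omega)
  have h4 : (N:ℝ) ^ s' ≤ ((2:ℝ) ^ k) ^ s := by
    have h5 : (N:ℝ) ^ s ≤ 4 ^ s * ((2:ℝ) ^ k) ^ s := by
      rw [← Real.mul_rpow (by norm_num) (by positivity)]
      exact Real.rpow_le_rpow hN0.le k3 hs0
    have h6 : (N:ℝ) ^ s = (N:ℝ) ^ s' * (N:ℝ) ^ (s - s') := by rw [← Real.rpow_add hN0]; congr 1; ring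
    rw [h6] at h5
    have h7 : (N:ℝ) ^ s' * 4 ^ s ≤ 4 ^ s * ((2:ℝ) ^ k) ^ s :=
      (mul_le_mul_of_nonneg_left h1 (by positivity)).trans h5
    rw [mul_comm ((N:ℝ) ^ s')] at h7
    exact le_of_mul_le_mul_left h7 (by positivity)
  refine (h4.trans h3).trans (Nat.cast_le.mpr (Finset.card_le_card fun n hn => ?_))
  rw [Finset.mem_filter, Finset.mem_Ico] at hn
  rw [Finset.mem_filter, Finset.mem_range]
  refine ⟨by omega, le_trans ?_ hn.2⟩
  exact Real.rpow_le_rpow hN0.le k3 hv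

theorem low (h : Seq x g) {v s c0 c1 u0 u1 : ℝ} (hv : 0 < v) (hvg : v < Real.sqrt g) (hs0 : 0 ≤ s) (hs : s < 1 - v ^ 2 / g)
    (hc0 : 0 < c0) (hc : c0 ≤ c1) (hu : u0 ≤ u1) :
    ∀ᵐ q ∂(box c0 c1 u0 u1), ∀ᶠ N : ℕ in atTop, (N:ℝ) ^ s ≤
      (((Finset.range N).filter fun n => (N:ℝ) ^ v ≤ ff (q.2 + q.1 * x n)).card : ℝ) := by
  obtain ⟨s1, h1, h2⟩ := exists_between hs
  filter_upwards [low_block h hv hvg h2 hc0 hc hu] with q hq
  exact dyad_low hv.le h1 (by linarith) hq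

end Pool.Agent.N798.Z
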