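import Pool.Agent.N798.Z7

set_option autoImplicit false

/-! The consequences for counts, maxima and moments (the freezing transition). -/

namespace Pool.Agent.N798.Z

open MeasureTheory Filter Topology Set

/-- the number of `n < N` with `z n ≥ N^v` -/
noncomputable def cnt (z : ℕ → ℝ) (v : ℝ) (N : ℕ) : ℝ := (((Finset.range N).filter fun n => (N:ℝ) ^ v ≤ z n).card : ℝ)

/-- the sum of the `p`-th powers -/
noncomputable def pw (z : ℕ → ℝ) (p : ℝ) (N : ℕ) : ℝ := ∑ n ∈ Finset.range N, z n ^ p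

structure REM (z : ℕ → ℝ) (g : ℝ) : Prop where
  g0 : 0 < g
  nn : ∀ n, 0 ≤ z n
  up : ∀ p : ℝ, 0 < p → p ≤ 4 → ∀ s : ℝ, 1 + g * p ^ 2 / 4 < s → ∀ᶠ N : ℕ in atTop, pw z p N ≤ (N:ℝ) ^ s
  low : ∀ v : ℝ, 0 ≤ v → v < Real.sqrt g → ∀ s : ℝ, s < 1 - v ^ 2 / g → ∀ᶠ N : ℕ in atTop, (N:ℝ) ^ s ≤ cnt z v N

lemma pw_nonneg {z : ℕ → ℝ} (hz : ∀ n, 0 ≤ z n) (p : ℝ) (N : ℕ) : 0 ≤ pw z p N :=
  Finset.sum_nonneg fun n _ => Real.rpow_nonneg (hz n) _

/-- it is enough to consider rational parameters -/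
theorem REM.of_rat {z : ℕ → ℝ} {g : ℝ} (hg : 0 < g) (hz : ∀ n, 0 ≤ z n)
    (h1 : ∀ p s : ℚ, (0:ℝ) < p → (p:ℝ) ≤ 4 → 1 + g * (p:ℝ) ^ 2 / 4 < s → ∀ᶠ N : ℕ in atTop, pw z p N ≤ (N:ℝ) ^ (s:ℝ))
    (h2 : ∀ v s : ℚ, (0:ℝ) < v → (v:ℝ) < Real.sqrt g → (0:ℝ) ≤ s → (s:ℝ) < 1 - (v:ℝ) ^ 2 / g →
      ∀ᶠ N : ℕ in atTop, (N:ℝ) ^ (s:ℝ) ≤ cnt z v N) : REM z g := by
  refine ⟨hg, hz, fun p hp hp4 s hs => ?_, fun v hv hvg s hs => ?_⟩
  · rcases eq_or_lt_of_le hp4 with h4 | h4
    · -- p = 4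
      obtain ⟨s', a1, a2⟩ := exists_rat_btwn hs
      have e : ((4:ℚ):ℝ) = p := by rw [h4]; norm_num
      have := h1 4 s' (by norm_num) (by norm_num) (by rw [e]; exact a1)
      rw [e] at this
      filter_upwards [this, eventually_ge_atTop 1] with N hN hN1
      refine hN.trans (Real.rpow_le_rpow_of_exponent_le (by exact_mod_cast hN1) a2.le)
    · have hc : ContinuousAt (fun q : ℝ => 1 + g * q ^ 2 / 4) p := by fun_prop
      have hev : ∀ᶠ q in 𝓝 p, 1 + g * q ^ 2 / 4 < s := hc.eventually (gt_mem_nhds hs)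
      obtain ⟨δ, hδ, hball⟩ := Metric.eventually_nhds_iff.mp hev
      obtain ⟨q, b1, b2⟩ := exists_rat_btwn (show p < min 4 (p + δ) from lt_min h4 (by linarith))
      have b3 := lt_of_lt_of_le b2 (min_le_left _ _)
      have b4 := lt_of_lt_of_le b2 (min_le_right _ _)
      have b5 : 1 + g * (q:ℝ) ^ 2 / 4 < s := hball (by rw [Real.dist_eq, abs_lt]; constructor <;> linarith)
      obtain ⟨s', a1, a2⟩ := exists_rat_btwn b5
      have hq0 : (0:ℝ) < q := by linarith
      have hs1 : (1:ℝ) < s' := by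
        have : 0 < g * (q:ℝ) ^ 2 / 4 := by positivity
        linarith
      filter_upwards [h1 q s' hq0 b3.le a1, big_pow 2 (show (0:ℝ) < s - s' by linarith), eventually_ge_atTop 1] with N c1 c2 c3
      have hN1 : (1:ℝ) ≤ N := by exact_mod_cast c3
      have hN0 : (0:ℝ) < N := by linarith
      have d1 : pw z p N ≤ N + pw z q N := by
        unfold pw
        calc ∑ n ∈ Finset.range N, z n ^ p ≤ ∑ n ∈ Finset.range N, (1 + z n ^ (q:ℝ)) := by
              refine Finset.sum_le_sum fun n _ => ?_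
              rcases le_or_gt (z n) 1 with h | h
              · have := Real.rpow_le_one (hz n) h hp.le
                have := Real.rpow_nonneg (hz n) (q:ℝ)
                linarith
              · have := Real.rpow_le_rpow_of_exponent_le h.le b1.le
                linarith
          _ = _ := by rw [Finset.sum_add_distrib]; simp
      have d2 : (N:ℝ) ≤ (N:ℝ) ^ (s':ℝ) := by
        calc (N:ℝ) = (N:ℝ) ^ (1:ℝ) := (Real.rpow_one _).symm
          _ ≤ _ := Real.rpow_le_rpow_of_exponent_le hN1 hs1.le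
      calc pw z p N ≤ 2 * (N:ℝ) ^ (s':ℝ) := by linarith
        _ ≤ (N:ℝ) ^ (s - s') * (N:ℝ) ^ (s':ℝ) := by gcongr
        _ = _ := by rw [← Real.rpow_add hN0]; congr 1; ring
  · -- lower bounds
    have hv2 : v ^ 2 / g < 1 := by
      rw [div_lt_one hg]
      have := Real.sq_sqrt hg.le
      have := Real.sqrt_nonneg g
      nlinarith
    set t := max s 0 with ht
    have ht1 : t < 1 - v ^ 2 / g := max_lt hs (by linarith)
    have hc : ContinuousAt (fun q : ℝ => 1 - q ^ 2 / g) v := by fun_prop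
    have hev : ∀ᶠ q in 𝓝 v, t < 1 - q ^ 2 / g := hc.eventually (lt_mem_nhds ht1)
    obtain ⟨δ, hδ, hball⟩ := Metric.eventually_nhds_iff.mp hev
    obtain ⟨q, b1, b2⟩ := exists_rat_btwn (show v < min (Real.sqrt g) (v + δ) from lt_min hvg (by linarith))
    have b3 := lt_of_lt_of_le b2 (min_le_left _ _)
    have b4 := lt_of_lt_of_le b2 (min_le_right _ _)
    have b5 : t < 1 - (q:ℝ) ^ 2 / g := hball (by rw [Real.dist_eq, abs_lt]; constructor <;> linarith)
    obtain ⟨s', a1, a2⟩ := exists_rat_btwn b5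
    have hs0 : 0 ≤ t := le_max_right _ _
    filter_upwards [h2 q s' (by linarith) b3 (by linarith) a2, eventually_ge_atTop 1] with N c1 c3
    have hN1 : (1:ℝ) ≤ N := by exact_mod_cast c3
    calc (N:ℝ) ^ s ≤ (N:ℝ) ^ (s':ℝ) := Real.rpow_le_rpow_of_exponent_le hN1 ((le_max_left s 0).trans a1.le)
      _ ≤ cnt z q N := c1
      _ ≤ cnt z v N := by
          unfold cnt
          refine Nat.cast_le.mpr (Finset.card_le_card fun n hn => ?_)
          rw [Finset.mem_filter] at hn ⊢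
          exact ⟨hn.1, (Real.rpow_le_rpow_of_exponent_le hN1 b1.le).trans hn.2⟩

lemma tend {f : ℕ → ℝ} {L : ℝ} (h1 : ∀ s, s < L → ∀ᶠ N : ℕ in atTop, (N:ℝ) ^ s ≤ f N)
    (h2 : ∀ s, L < s → ∀ᶠ N : ℕ in atTop, f N ≤ (N:ℝ) ^ s) :
    Tendsto (fun N : ℕ => Real.log (f N) / Real.log N) atTop (𝓝 L) := by
  rw [tendsto_order]
  constructor
  · intro a ha
    obtain ⟨s, s1, s2⟩ := exists_between ha
    filter_upwards [h1 s s2, eventually_ge_atTop 2] with N hN hN2
    have hN1 : (1:ℝ) < N := by exact_mod_cast (by omega : 1 < N)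
    have hl := Real.log_pos hN1
    have h3 := Real.log_le_log (by positivity) hN
    rw [Real.log_rpow (by linarith)] at h3
    rw [lt_div_iff₀ hl]
    nlinarith
  · intro b hb
    obtain ⟨s, s1, s2⟩ := exists_between hb
    filter_upwards [h1 (L - 1) (by linarith), h2 s s1, eventually_ge_atTop 2] with N hN0 hN hN2
    have hN1 : (1:ℝ) < N := by exact_mod_cast (by omega : 1 < N)
    have hl := Real.log_pos hN1
    have hf : 0 < f N := lt_of_lt_of_le (by positivity) hN0
    have h3 := Real.log_le_log hf hN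
    rw [Real.log_rpow (by linarith)] at h3
    rw [div_lt_iff₀ hl]
    nlinarith

variable {z : ℕ → ℝ} {g : ℝ}

lemma cnt_pw (hz : ∀ n, 0 ≤ z n) {p v : ℝ} (hp : 0 ≤ p) {N : ℕ} (hN : 1 ≤ N) :
    cnt z v N * (N:ℝ) ^ (p * v) ≤ pw z p N := by
  classical
  have hN0 : (0:ℝ) < N := by exact_mod_cast hN
  unfold cnt pw
  rw [← nsmul_eq_mul, ← Finset.sum_const]
  calc ∑ n ∈ (Finset.range N).filter (fun n => (N:ℝ) ^ v ≤ z n), (N:ℝ) ^ (p * v) ≤
      ∑ n ∈ (Finset.range N).filter (fun n => (N:ℝ) ^ v ≤ z n), z n ^ p := by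
        refine Finset.sum_le_sum fun n hn => ?_
        rw [Finset.mem_filter] at hn
        rw [mul_comm, Real.rpow_mul hN0.le]
        exact Real.rpow_le_rpow (by positivity) hn.2 hp
    _ ≤ _ := Finset.sum_le_sum_of_subset_of_nonneg (Finset.filter_subset _ _)
        fun n _ _ => Real.rpow_nonneg (hz n) _

/-- the counts -/
theorem REM.count (h : REM z g) {u : ℝ} (hu : 0 ≤ u) (hug : u < Real.sqrt g) (hu2 : u ≤ 2 * g) :
    Tendsto (fun N : ℕ => Real.log (cnt z u N) / Real.log N) atTop (𝓝 (1 - u ^ 2 / g)) := by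
  have hg := h.g0
  refine tend (fun s hs => h.low u hu hug s hs) fun s hs => ?_
  rcases eq_or_lt_of_le hu with h0 | h0
  · -- u = 0
    rw [← h0] at hs ⊢
    filter_upwards [eventually_ge_atTop 1] with N hN
    have hN1 : (1:ℝ) ≤ N := by exact_mod_cast hN
    have h1 : (1:ℝ) < s := by simpa using hs
    calc cnt z 0 N ≤ N := by
          unfold cnt
          have := Finset.card_filter_le (Finset.range N) fun n => (N:ℝ) ^ (0:ℝ) ≤ z n
          rw [Finset.card_range] at this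
          exact_mod_cast this
      _ = (N:ℝ) ^ (1:ℝ) := (Real.rpow_one _).symm
      _ ≤ _ := Real.rpow_le_rpow_of_exponent_le hN1 h1.le
  · set p := 2 * u / g with hp
    have hp0 : 0 < p := by positivity
    have hp4 : p ≤ 4 := by rw [hp, div_le_iff₀ hg]; linarith
    have e1 : 1 + g * p ^ 2 / 4 = 1 - u ^ 2 / g + p * u := by rw [hp]; field_simp; ring
    filter_upwards [h.up p hp0 hp4 (s + p * u) (by rw [e1]; linarith), eventually_ge_atTop 1] with N h1 hN
    have hN0 : (0:ℝ) < N := by exact_mod_cast hN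
    have h2 := (cnt_pw h.nn hp0.le hN (v := u)).trans h1
    rw [Real.rpow_add hN0] at h2
    exact le_of_mul_le_mul_right h2 (by positivity)

/-- no values beyond the maximum -/
theorem REM.none (h : REM z g) (hg4 : 1 / 4 ≤ g) {u : ℝ} (hu : Real.sqrt g < u) :
    ∀ᶠ N : ℕ in atTop, ∀ n < N, z n < (N:ℝ) ^ u := by
  have hg := h.g0
  have hs0 : 0 < Real.sqrt g := Real.sqrt_pos.mpr hg
  have hsq : Real.sqrt g * Real.sqrt g = g := Real.mul_self_sqrt hg.le
  set p := 2 / Real.sqrt g with hp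
  have hp0 : 0 < p := by positivity
  have hp4 : p ≤ 4 := by
    have : 1 / 2 ≤ Real.sqrt g := by
      rw [Real.le_sqrt (by norm_num) hg.le]; linarith
    rw [hp, div_le_iff₀ hs0]; linarith
  have e1 : 1 + g * p ^ 2 / 4 = 2 := by
    rw [hp, div_pow, sq (Real.sqrt g), hsq]; field_simp; norm_num
  have h2 : 2 < p * u := by
    rw [hp, div_mul_eq_mul_div, lt_div_iff₀ hs0]; nlinarith
  obtain ⟨s, s1, s2⟩ := exists_between h2
  filter_upwards [h.up p hp0 hp4 s (by rw [e1]; exact s1), eventually_ge_atTop 2] with N h3 hN n hn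
  have hN1 : (1:ℝ) < N := by exact_mod_cast (by omega : 1 < N)
  have hN0 : (0:ℝ) < N := by linarith
  by_contra hcon
  have h4 : (N:ℝ) ^ (p * u) ≤ pw z p N := by
    calc (N:ℝ) ^ (p * u) = ((N:ℝ) ^ u) ^ p := by rw [← Real.rpow_mul hN0.le]; congr 1; ring
      _ ≤ z n ^ p := Real.rpow_le_rpow (by positivity) (not_lt.mp hcon) hp0.le
      _ ≤ _ := Finset.single_le_sum (f := fun n => z n ^ p) (fun n _ => Real.rpow_nonneg (h.nn n) _) (Finset.mem_range.mpr hn)
  have h5 : (N:ℝ) ^ s < (N:ℝ) ^ (p * u) := Real.rpow_lt_rpow_of_exponent_lt hN1 s2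
  linarith

/-- large values exist -/
theorem REM.some (h : REM z g) {u : ℝ} (hu : 0 ≤ u) (hug : u < Real.sqrt g) :
    ∀ᶠ N : ℕ in atTop, ∃ n < N, (N:ℝ) ^ u ≤ z n := by
  have hg := h.g0
  have hv2 : u ^ 2 / g < 1 := by
    rw [div_lt_one hg]
    have := Real.sq_sqrt hg.le
    have := Real.sqrt_nonneg g
    nlinarith
  filter_upwards [h.low u hu hug 0 (by linarith)] with N hN
  rw [Real.rpow_zero] at hN
  unfold cnt at hN
  have : 0 < ((Finset.range N).filter fun n => (N:ℝ) ^ u ≤ z n).card := by exact_mod_cast lt_of_lt_of_le one_pos hN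
  obtain ⟨n, hn⟩ := Finset.card_pos.mp this
  rw [Finset.mem_filter, Finset.mem_range] at hn
  exact ⟨n, hn.1, hn.2⟩

/-- lower bounds for the moments -/
theorem REM.pw_low (h : REM z g) {β v0 s : ℝ} (hβ : 0 < β) (hv0 : 0 < v0) (hv0g : v0 ≤ Real.sqrt g)
    (hs : s < β * v0 + 1 - v0 ^ 2 / g) : ∀ᶠ N : ℕ in atTop, (N:ℝ) ^ s ≤ pw z β N := by
  have hc : ContinuousAt (fun q : ℝ => β * q + 1 - q ^ 2 / g) v0 := by fun_prop
  have hev : ∀ᶠ q in 𝓝 v0, s < β * q + 1 - q ^ 2 / g := hc.eventually (lt_mem_nhds hs)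
  obtain ⟨δ, hδ, hball⟩ := Metric.eventually_nhds_iff.mp hev
  obtain ⟨v, b1, b2⟩ := exists_between (show max 0 (v0 - δ) < v0 from max_lt hv0 (by linarith))
  have b3 := (le_max_left 0 (v0 - δ)).trans_lt b1
  have b4 := (le_max_right 0 (v0 - δ)).trans_lt b1
  have b5 : s < β * v + 1 - v ^ 2 / g := hball (by rw [Real.dist_eq, abs_lt]; constructor <;> linarith)
  filter_upwards [h.low v b3.le (by linarith) (s - β * v) (by linarith), eventually_ge_atTop 1] with N h1 hN
  have hN0 : (0:ℝ) < N := by exact_mod_cast hN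
  refine le_trans ?_ (cnt_pw h.nn hβ.le hN (v := v))
  calc (N:ℝ) ^ s = (N:ℝ) ^ (s - β * v) * (N:ℝ) ^ (β * v) := by rw [← Real.rpow_add hN0]; congr 1; ring
    _ ≤ _ := mul_le_mul_of_nonneg_right h1 (by positivity)

/-- the moments before the transition -/
theorem REM.before (h : REM z g) {β : ℝ} (hβ : 0 < β) (hβ4 : β ≤ 4) (hβc : β ≤ 2 / Real.sqrt g) :
    Tendsto (fun N : ℕ => Real.log (pw z β N) / Real.log N) atTop (𝓝 (1 + g * β ^ 2 / 4)) := by
  have hg := h.g0
  have hs0 : 0 < Real.sqrt g := Real.sqrt_pos.mpr hg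
  have hsq : Real.sqrt g * Real.sqrt g = g := Real.mul_self_sqrt hg.le
  refine tend (fun s hs => ?_) fun s hs => h.up β hβ hβ4 s hs
  refine h.pw_low (v0 := g * β / 2) hβ (by positivity) ?_ ?_
  · rw [le_div_iff₀ hs0] at hβc
    nlinarith
  · have : β * (g * β / 2) + 1 - (g * β / 2) ^ 2 / g = 1 + g * β ^ 2 / 4 := by field_simp; ring
    rw [this]; exact hs

/-- the moments after the transition -/
theorem REM.after (h : REM z g) (hg4 : 1 / 4 ≤ g) {β : ℝ} (hβc : 2 / Real.sqrt g ≤ β) :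
    Tendsto (fun N : ℕ => Real.log (pw z β N) / Real.log N) atTop (𝓝 (β * Real.sqrt g)) := by
  have hg := h.g0
  have hs0 : 0 < Real.sqrt g := Real.sqrt_pos.mpr hg
  have hsq : Real.sqrt g * Real.sqrt g = g := Real.mul_self_sqrt hg.le
  set p := 2 / Real.sqrt g with hp
  have hp0 : 0 < p := by positivity
  have hβ0 : 0 < β := by linarith
  have hp4 : p ≤ 4 := by
    have : 1 / 2 ≤ Real.sqrt g := by
      rw [Real.le_sqrt (by norm_num) hg.le]; linarith
    rw [hp, div_le_iff₀ hs0]; linarith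
  have e1 : 1 + g * p ^ 2 / 4 = 2 := by
    rw [hp, div_pow, sq (Real.sqrt g), hsq]; field_simp; norm_num
  have e2 : p * Real.sqrt g = 2 := by rw [hp]; field_simp
  refine tend (fun s hs => ?_) fun s hs => ?_
  · refine h.pw_low (v0 := Real.sqrt g) hβ0 hs0 le_rfl ?_
    have : β * Real.sqrt g + 1 - Real.sqrt g ^ 2 / g = β * Real.sqrt g := by
      rw [sq, hsq, div_self hg.ne']; ring
    rw [this]; exact hs
  · -- upper bound
    set w := s - β * Real.sqrt g with hw
    have hw0 : 0 < w := by linarith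
    set η := w / (2 * (β - p + 1)) with hη
    have hbp : 0 < β - p + 1 := by linarith
    have hη0 : 0 < η := by positivity
    have hη1 : η * (β - p) ≤ w / 2 := by
      have h1 : η * (β - p + 1) = w / 2 := by rw [hη]; field_simp
      nlinarith
    filter_upwards [h.none hg4 (show Real.sqrt g < Real.sqrt g + η by linarith),
      h.up p hp0 hp4 (2 + w / 2) (by rw [e1]; linarith), eventually_ge_atTop 1] with N h1 h2 hN
    have hN1 : (1:ℝ) ≤ N := by exact_mod_cast hN
    have hN0 : (0:ℝ) < N := by linarith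
    have h3 : pw z β N ≤ (N:ℝ) ^ ((Real.sqrt g + η) * (β - p)) * pw z p N := by
      unfold pw
      rw [Finset.mul_sum]
      refine Finset.sum_le_sum fun n hn => ?_
      rcases eq_or_lt_of_le (h.nn n) with h0 | h0
      · rw [← h0, Real.zero_rpow hβ0.ne', Real.zero_rpow hp0.ne', mul_zero]
      · have e3 : z n ^ β = z n ^ (β - p) * z n ^ p := by rw [← Real.rpow_add h0]; congr 1; ring
        rw [e3]
        refine mul_le_mul_of_nonneg_right ?_ (by positivity)
        rw [Real.rpow_mul hN0.le]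
        exact Real.rpow_le_rpow h0.le (h1 n (Finset.mem_range.mp hn)).le (by linarith)
    calc pw z β N ≤ (N:ℝ) ^ ((Real.sqrt g + η) * (β - p)) * (N:ℝ) ^ (2 + w / 2) :=
          h3.trans (mul_le_mul_of_nonneg_left h2 (by positivity))
      _ = (N:ℝ) ^ ((Real.sqrt g + η) * (β - p) + (2 + w / 2)) := by rw [← Real.rpow_add hN0]
      _ ≤ _ := by
          refine Real.rpow_le_rpow_of_exponent_le hN1 ?_
          have : s = w + β * Real.sqrt g := by rw [hw]; ring
          rw [this]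
          nlinarith

end Pool.Agent.N798.Z
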