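import Pool.Agent.N798.Z8

set_option autoImplicit false

/-! Almost all parameters. -/

namespace Pool.Agent.N798.Z

open MeasureTheory Filter Topology Set
open Pool.Agent.W184 (zn)

variable {x : ℕ → ℝ} {g : ℝ}

lemma Seq.scale (h : Seq x g) {c : ℝ} (hc : 0 < c) :
    Tendsto (fun n : ℕ => Real.log (c * x n) / Real.log n) atTop (𝓝 g) := by
  have h1 : Tendsto (fun n : ℕ => Real.log c / Real.log n) atTop (𝓝 0) :=
    (Real.tendsto_log_atTop.comp tendsto_natCast_atTop_atTop).const_div_atTop _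
  have h2 := h1.add h.lim
  rw [zero_add] at h2
  refine h2.congr fun n => ?_
  rw [Real.log_mul hc.ne' (h.pos n).ne', add_div]

lemma cover_int {P : ℝ → Prop} (h : ∀ j : ℤ, ∀ᵐ u ∂(volume.restrict (Icc (j:ℝ) (j + 1))), P u) : ∀ᵐ u : ℝ, P u := by
  have h1 : ∀ᵐ u : ℝ, ∀ j : ℤ, u ∈ Icc (j:ℝ) (j + 1) → P u := by
    rw [ae_all_iff]
    intro j
    exact (ae_restrict_iff' measurableSet_Icc).mp (h j)
  filter_upwards [h1] with u hu
  exact hu ⌊u⌋ ⟨Int.floor_le u, (Int.lt_floor_add_one u).le⟩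

lemma cover_box {P : ℝ → ℝ → Prop} (h : ∀ j : ℕ, ∀ᵐ q ∂(box (1 / ((j:ℝ) + 1)) (j + 1) (-((j:ℝ) + 1)) (j + 1)), P q.1 q.2) :
    ∀ᵐ c : ℝ, 0 < c → ∀ᵐ u : ℝ, P c u := by
  have h1 : ∀ᵐ c : ℝ, ∀ j : ℕ, c ∈ Icc (1 / ((j:ℝ) + 1)) (j + 1) → ∀ᵐ u : ℝ, u ∈ Icc (-((j:ℝ) + 1)) (j + 1) → P c u := by
    rw [ae_all_iff]
    intro j
    have h2 := h j
    unfold box at h2
    have h3 := Measure.ae_ae_of_ae_prod h2
    rw [ae_restrict_iff' measurableSet_Icc] at h3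
    filter_upwards [h3] with c hc hc2
    exact (ae_restrict_iff' measurableSet_Icc).mp (hc hc2)
  filter_upwards [h1] with c hc hc0
  obtain ⟨J, hJ⟩ := exists_nat_ge (max c (1 / c))
  have hJ1 := (le_max_left _ _).trans hJ
  have hJ2 := (le_max_right _ _).trans hJ
  have h4 : ∀ᵐ u : ℝ, ∀ j : ℕ, J ≤ j → u ∈ Icc (-((j:ℝ) + 1)) (j + 1) → P c u := by
    rw [ae_all_iff]
    intro j
    by_cases hj : J ≤ j
    · have hj' : (J:ℝ) ≤ j := by exact_mod_cast hj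
      have : c ∈ Icc (1 / ((j:ℝ) + 1)) (j + 1) := by
        constructor
        · rw [div_le_iff₀ (by positivity)]
          rw [div_le_iff₀ hc0] at hJ2
          nlinarith
        · linarith
      filter_upwards [hc j this] with u hu _ hu2
      exact hu hu2
    · exact Eventually.of_forall fun u h' => absurd h' hj
  filter_upwards [h4] with u hu
  obtain ⟨k, hk⟩ := exists_nat_ge |u|
  refine hu (max J k) (le_max_left _ _) ?_
  have h5 : (k:ℝ) ≤ ((max J k : ℕ) : ℝ) := by exact_mod_cast le_max_right J k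
  obtain ⟨a1, a2⟩ := abs_le.mp hk
  constructor <;> linarith

lemma exp_transfer {Q : ℝ → Prop} (h : ∀ᵐ u : ℝ, Q (Real.exp u)) : ∀ᵐ α : ℝ, 0 < α → Q α := by
  have h1 : volume {u : ℝ | ¬ Q (Real.exp u)} = 0 := ae_iff.mp h
  have h2 : volume (Real.exp '' {u : ℝ | ¬ Q (Real.exp u)}) = 0 :=
    addHaar_image_eq_zero_of_differentiableOn_of_addHaar_eq_zero volume
      (Real.differentiable_exp.differentiableOn) h1
  rw [ae_iff]
  refine measure_mono_null ?_ h2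
  intro α hα
  have hα' : ¬ (0 < α → Q α) := hα
  push Not at hα'
  exact ⟨Real.log α, by
    show ¬ Q (Real.exp (Real.log α))
    rw [Real.exp_log hα'.1]; exact hα'.2, Real.exp_log hα'.1⟩

/-- for almost all parameters the samples behave like independent log-normal variables -/
theorem main (h : Seq x g) : ∀ᵐ c : ℝ, 0 < c → ∀ᵐ α : ℝ, 0 < α →
    REM (fun n => ‖riemannZeta (1 / 2 + ((α * Real.exp (c * x n) : ℝ) : ℂ) * Complex.I)‖) g := by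
  -- lower bounds
  have hlow : ∀ᵐ c : ℝ, ∀ v s : ℚ, 0 < c → ∀ᵐ u : ℝ, (0:ℝ) < v → (v:ℝ) < Real.sqrt g → (0:ℝ) ≤ s → (s:ℝ) < 1 - (v:ℝ) ^ 2 / g →
      ∀ᶠ N : ℕ in atTop, (N:ℝ) ^ (s:ℝ) ≤ cnt (fun n => ff (u + c * x n)) v N := by
    rw [ae_all_iff]
    intro v
    rw [ae_all_iff]
    intro s
    refine cover_box (P := fun c u => (0:ℝ) < v → (v:ℝ) < Real.sqrt g → (0:ℝ) ≤ s → (s:ℝ) < 1 - (v:ℝ) ^ 2 / g →
      ∀ᶠ N : ℕ in atTop, (N:ℝ) ^ (s:ℝ) ≤ cnt (fun n => ff (u + c * x n)) v N) fun j => ?_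
    by_cases hv : (0:ℝ) < v ∧ (v:ℝ) < Real.sqrt g ∧ (0:ℝ) ≤ s ∧ (s:ℝ) < 1 - (v:ℝ) ^ 2 / g
    · obtain ⟨a1, a2, a3, a4⟩ := hv
      have hj : (0:ℝ) < (j:ℝ) + 1 := by positivity
      have hle : 1 / ((j:ℝ) + 1) ≤ (j:ℝ) + 1 := by
        rw [div_le_iff₀ hj]
        have : (0:ℝ) ≤ j := Nat.cast_nonneg j
        nlinarith
      filter_upwards [low h a1 a2 a3 a4 (show 0 < 1 / ((j:ℝ) + 1) by positivity) hle (show -((j:ℝ) + 1) ≤ j + 1 by linarith)]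
        with q hq _ _ _ _
      exact hq
    · refine Eventually.of_forall fun q b1 b2 b3 b4 => absurd ⟨b1, b2, b3, b4⟩ hv
  filter_upwards [hlow] with c hc hc0
  -- upper bounds
  have hup : ∀ᵐ u : ℝ, ∀ p s : ℚ, (0:ℝ) < p → (p:ℝ) ≤ 4 → 1 + g * (p:ℝ) ^ 2 / 4 < s →
      ∀ᶠ N : ℕ in atTop, pw (fun n => ff (u + c * x n)) p N ≤ (N:ℝ) ^ (s:ℝ) := by
    rw [ae_all_iff]
    intro p
    rw [ae_all_iff]
    intro s
    by_cases hp : (0:ℝ) < p ∧ (p:ℝ) ≤ 4 ∧ 1 + g * (p:ℝ) ^ 2 / 4 < s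
    · obtain ⟨a1, a2, a3⟩ := hp
      have := cover_int (P := fun u => ∀ᶠ N : ℕ in atTop,
        ∑ n ∈ Finset.range N, ff (u + c * x n) ^ (p:ℝ) ≤ (N:ℝ) ^ (1 + g * (p:ℝ) ^ 2 / 4 + ((s:ℝ) - (1 + g * (p:ℝ) ^ 2 / 4))))
        fun j => upp (y := fun n => c * x n) h.g0 (fun n => mul_pos hc0 (h.pos n)) (h.scale hc0) a1 a2 (j:ℝ) (by linarith)
      filter_upwards [this] with u hu _ _ _
      refine hu.mono fun N hN => ?_
      unfold pw
      refine hN.trans (le_of_eq ?_)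
      congr 1; ring
    · exact Eventually.of_forall fun u b1 b2 b3 => absurd ⟨b1, b2, b3⟩ hp
  have hlow2 : ∀ᵐ u : ℝ, ∀ v s : ℚ, (0:ℝ) < v → (v:ℝ) < Real.sqrt g → (0:ℝ) ≤ s → (s:ℝ) < 1 - (v:ℝ) ^ 2 / g →
      ∀ᶠ N : ℕ in atTop, (N:ℝ) ^ (s:ℝ) ≤ cnt (fun n => ff (u + c * x n)) v N := by
    rw [ae_all_iff]
    intro v
    rw [ae_all_iff]
    intro s
    exact hc v s hc0
  refine exp_transfer ?_
  filter_upwards [hup, hlow2] with u hu1 hu2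
  have h3 := REM.of_rat h.g0 (fun n => ff_nonneg (u + c * x n)) hu1 hu2
  have e : (fun n => ff (u + c * x n)) =
      fun n => ‖riemannZeta (1 / 2 + ((Real.exp u * Real.exp (c * x n) : ℝ) : ℂ) * Complex.I)‖ := by
    funext n
    unfold ff
    rw [zn_half, Real.exp_add]
  rwa [e] at h3

end Pool.Agent.N798.Z
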